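import Pool.Agent.Lib.MP_efe3d7_co.J.CfE

/-! Columns that lose edges at the boundary, with merges. -/

set_option autoImplicit false

namespace Pool.Agent.Lib.MP_efe3d7_co.J

open H

/-- The region is not empty in the column, or the boundary is a triangle. -/
def cNem2 (m : Md) (p : Pre) (c : Col) : Bool :=
  cNem m p c || (m.q0 && Nat.ble (Nat.add (Nat.sub p.n p.s) (bif c.mg then 1 else 0)) 2)

/-- A copy of `cChg` with the new test. -/
def cChg2 (m : Md) (p : Pre) (G0 G1 : ℕ) (c : Col) : Bool :=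
  (allB p.s fun i => frc (cRow c.ct i) fun r => cRC p i r) && cNem2 m p c && cCut p G0 G1 c

/-- The positions with fewer than `n` indices below `k` that lie in `F` and in `G` or `A`. -/
def cFB (F G k : ℕ) : ℕ → ℕ :=
  Nat.rec (fun n => bif Nat.beq n 0 then 0 else cON)
    (fun i r n => bif Nat.beq n 0 then 0 else bif tb F i then frc (Nat.pred n) fun u =>
      bif tb G i then r u else Nat.lor (df (r n) (cMK i)) (r u) else r n) k

/-- The positions without bit `k`. -/
def cNK (k : ℕ) : ℕ := df cON (cMK k)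

/-- The positions without `k` in `S`. -/
def cNS (k : ℕ) : ℕ := df cON (cMS k)

/-- The lower bound for the degree of a terminal. -/
def cEl (p : Pre) (d6 z : ℕ) : ℕ :=
  Nat.add (Nat.add (Nat.add 3 (cB1 p.d4 z)) (cB1 p.d5 z)) (cB1 d6 z)

/-- The positions where the boundary vertex `u` has too few neighbours. -/
def cS3 (l2 : Bool) (p : Pre) (d6 t u : ℕ) : ℕ :=
  Nat.land (Nat.land (Nat.land (cNS u)
      (cAn p.s (fun j => tb p.lt j && !Nat.beq j u) fun j => Nat.lor (cMK j) (cMS j)))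
    (cAn p.s (tb p.lq) fun y => Nat.lor (Nat.lor (cMK y) (cMS y))
      (bif nz (df (fld p.ha y) (df (ful p.s) (bt t))) then 0 else
        cAn p.s (tb (fld p.ha y)) cNK)))
    (Nat.land (bif Nat.blt p.s p.n then cON else
        Nat.lor (cUn p.s (fun _ => true) cMK) (cUn p.s (tb p.dn) cMS))
      (frc (Nat.sub (Nat.add (cEl p d6 u) (bif l2 then 1 else 0)) 4) fun e =>
        cFB (fld p.ha u) (df (ful p.n) (ful p.s)) p.n e))

/-- The positions that are harmless for every number of outer vertices. -/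
def cS23 (l2 : Bool) (p : Pre) (d6 t : ℕ) (c : Col) : ℕ :=
  Nat.lor (bif Nat.beq (pc p.n p.lt) 3 then cAn p.n (tb p.lt) cMS else 0)
    (bif allB p.s fun j => tb p.lq j || tb p.lt j then
      Nat.lor (cAn p.s (tb p.lt) cMS)
        (Nat.land (bif c.mg then cNS c.b else cON) (cUn p.s (tb p.lt) (cS3 l2 p d6 t))) else 0)

/-- The positions that are harmless, if `S` has at most `d` elements too many. -/
def cGU (p : Pre) (T d M0 M1 : ℕ) : ℕ :=
  Nat.lor (Nat.lor (Nat.lor cUT (cZG (Nat.add 3 d))) (cUn p.s (tb p.lt) cMK))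
    (Nat.land (Nat.lor M0 (cH T d 0))
      (bif p.al then cON else Nat.land (Nat.lor M1 (cH T d 1)) (cH T d 2)))

/-- The positions that do not respect the merge. -/
def cMG (t : ℕ) (c : Col) : ℕ :=
  bif Nat.beq c.a t then Nat.lor (cNK c.b) (cMS c.b) else
    Nat.lor (Nat.xor (cMK c.a) (cMK c.b)) (Nat.xor (cMS c.a) (cMS c.b))

/-- All positions at the boundary vertex `t` of degree at least `e + 2` are harmless. -/
def cTA (l2 : Bool) (p : Pre) (d6 T w ct t cm e : ℕ) (c : Col) : Bool :=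
  frc (bif c.mg then df 255 (bt c.b) else 255) fun F =>
  frc (cFB F 0 8 e) fun M0 =>
  frc (Nat.lor (frc (Nat.pred e) (cFB F 0 8))
    (bif l2 && !nz (df (Nat.land cm (ful p.s)) (fld p.ha t)) then
      Nat.land (cEQ 8 0) (bif c.mg then cNS c.a else cON) else 0)) fun M1 =>
  cAll (Nat.lor (Nat.lor (Nat.lor (cEd w ct) (cNS t))
      (Nat.lor (cUn w (tb cm) fun j => df (cNK j) (cMS j)) (cS23 l2 p d6 t c)))
    (bif c.mg then Nat.lor (Nat.lor (cMG t c) (df (cGU p T 1 M0 M1) (cMS c.b))) (cGU p T 2 M0 M1)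
      else cGU p T 1 M0 M1))

/-- Edges between two vertices outside the region are deleted. -/
def cTT2 (l2 : Bool) (pn : ℕ → ℕ) (m : Md) (p : Pre) (d6 T G0 G1 : ℕ) (c : Col) : Bool :=
  m.rl && cNem2 m p c && cCut p G0 G1 c &&
  frc (Nat.add p.s c.ni) fun w => frc c.ct fun ct =>
  (!c.mg || allB w fun j => !nz (ty ct c.b j)) &&
  allB p.s fun t => !cLost p ct t || ((!c.mg || tb (fld p.kn t) c.b) &&
    frc (msk w fun j => !Nat.beq t j && nz (ty ct t j)) fun cm =>
    frc (bif c.mg && Nat.beq c.a t then c.b else t) fun z =>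
    frc (Nat.add (pn cm) (bif cRho p then 1 else 0)) fun d1 =>
    frc (Nat.sub (Nat.add (cEl p d6 z) (pn (Nat.land cm (fld p.kn z)))) (pn (fld p.ha z)))
      fun d2 => (Nat.ble 3 d1 || Nat.ble 3 d2) && (cRho p ||
        frc (Nat.sub (bif Nat.ble d1 d2 then d2 else d1) 2) fun e => cTA l2 p d6 T w ct t cm e c))

/-- The columns are meaningful and stay in the class. -/
def safeH (l2 ex : Bool) (m : Md) (p : Pre) (d6 : ℕ) (hs : List ℕ) (cols : List Col) : Bool :=
  frc (ful p.n) fun Fn => frc d6 fun d6 =>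
  (frc (ful p.s) fun Fs => hs.all (cHint2 l2 (cPc Fn) (cPc Fs) m p d6)) &&
  frc (cTab p.s hs) fun T => frc (cGood p T 0) fun G0 =>
  cols.all fun g => cTyp p g &&
    (bif Nat.beq g.r 99 then ex else bif Nat.beq g.r 97 then
      cTT2 l2 (cPc Fn) m p d6 T G0 (cGood p T 1) g else
      bif nz g.r then triOk p g else cChg2 m p G0 (cGood p T 1) g)

end Pool.Agent.Lib.MP_efe3d7_co.J
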