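import Pool.Agent.Lib.MP_efe3d7_co.J.CrtRD
import Pool.Agent.Lib.MP_efe3d7_co.J.CfS

/-! The test of the columns with the additional clauses. -/

set_option autoImplicit false

namespace Pool.Agent.Lib.MP_efe3d7_co.J

open H

/-- The columns stay in the class; `l2` says that cubic vertices lie in few triangles. -/
def certC2 (l2 : Bool) (m : Md) (k : K) (c : Cert) : Bool :=
  (m.rl || m.wm) && (!l2 || (m.rl && !m.wm && m.q0)) && mkPre m k c.s fun p =>
    safeH l2 false m p (msk k.n fun i => Nat.ble 6 (k.el m i)) c.hs c.cols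

end Pool.Agent.Lib.MP_efe3d7_co.J
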