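import Pool.Agent.Lib.MP_efe3d7_co.J.X1

/-! Graphs with four vertices. -/

set_option autoImplicit false

open Finset

namespace Pool.Agent.Lib.MP_efe3d7_co.J

open H

theorem k4_ineq {x e a b c d f g : ℝ} (h1 : x ≤ 4 / 5) (h2 : 0 < e) (h3 : e ≤ 3 / 4)
    (ha : a = 0 ∨ a = -e) (hb : b = 0 ∨ b = -e) (hc : c = 0 ∨ c = -e) (hd : d = 0 ∨ d = -e)
    (hf : f = 0 ∨ f = -e) (hg : g = 0 ∨ g = -e) :
    0 < (1 - x) * (2 - x) - (1 - x) * (a + b + c + d + f + g) + (a * g + b * f + c * d) +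
      (a * b * d + a * c * f + b * c * g + d * f * g) ∧ 0 ≤ a * b * c * d * f * g := by
  have p1 : 0 < (1 - x) * (2 - x) := mul_pos (by linarith) (by linarith)
  have p2 : 0 ≤ (1 - x) * e := mul_nonneg (by linarith) h2.le
  have p3 : 0 ≤ e * e := by positivity
  have p4 : 0 ≤ e * e * (3 / 4 - e) := mul_nonneg p3 (by linarith)
  have p5 : 0 ≤ e * (3 / 4 - e) := mul_nonneg h2.le (by linarith)
  have p6 : 0 ≤ e * (4 / 5 - x) := mul_nonneg h2.le (by linarith)
  have p7 : 0 ≤ e ^ 6 := by positivity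
  rcases ha with rfl | rfl <;> rcases hb with rfl | rfl <;> rcases hc with rfl | rfl <;>
    rcases hd with rfl | rfl <;> rcases hf with rfl | rfl <;> rcases hg with rfl | rfl <;>
    exact ⟨by linarith, by linarith⟩

variable {α : Type} [Fintype α] [DecidableEq α] {V : Finset α} {τ : Sym2 α → Fin 3} {x : ℝ}

theorem red_four (h : Iv x) (hc : Con3 V τ) (h4 : V.card = 4) : Red x V τ := by
  refine red_of_sm fun _ _ => ?_
  have w : ∀ p ∈ V, ∀ q ∈ V, p ≠ q → wt (ee x) (τ s(p, q)) = 0 ∨ wt (ee x) (τ s(p, q)) = -ee x := by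
    intro p hp q hq e
    have k : nb V τ p = V.erase p := eq_of_subset_of_card_le
      (fun z hz => mem_erase.2 ⟨(mem_nb.1 hz).2.1, nb_sub _ hz⟩)
      (by rw [card_erase_of_mem hp, h4]; exact hc.dg3 h4.ge hp)
    have l := (mem_nb.1 (k ▸ mem_erase.2 ⟨e.symm, hq⟩ : q ∈ nb V τ p)).2.2
    rw [wt, if_neg l]
    split_ifs
    exacts [Or.inl rfl, Or.inr rfl]
  obtain ⟨d, U, hd, rfl, h3⟩ := card_eq_succ.1 h4
  obtain ⟨z, a, b, e1, e2, e3, rfl⟩ := card_eq_three.1 h3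
  have n : d ≠ z ∧ d ≠ a ∧ d ≠ b := by simpa using hd
  have k := k4_ineq (x := x) (by linarith [h.2]) h.ee_pos h.ee_le
    (w z (by simp) d (by simp) n.1.symm) (w z (by simp) a (by simp) e1)
    (w z (by simp) b (by simp) e2) (w d (by simp) a (by simp) n.2.1)
    (w d (by simp) b (by simp) n.2.2) (w a (by simp) b (by simp) e3)
  rw [FF, (vertex3 h.pos hd (by simp) (by simp) (by simp) e1 e2 e3 (by simp +contextual)
    (form_three h.pos (fun e => wt (ee x) (τ e)) e1 e2 e3)).eval fun _ _ _ _ _ _ _ => rfl]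
  have q := mul_pos (show 0 < 1 + x by linarith [h.pos])
    (add_pos_of_pos_of_nonneg (mul_pos h.pos k.1) k.2)
  linarith

end Pool.Agent.Lib.MP_efe3d7_co.J
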