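import Pool.Agent.Lib.MP_efe3d7_co.J.Roots
import Pool.Agent.Lib.MP_efe3d7_co.H.Fr3
import Pool.Agent.Lib.MP_efe3d7_co.H.Fr5

/-! The frames have the properties that the tables use. -/

set_option autoImplicit false

open Finset

namespace Pool.Agent.Lib.MP_efe3d7_co.J

open H

variable {α : Type} [DecidableEq α] {V : Finset α} {τ : Sym2 α → Fin 3}

theorem ok3_R (hc : Con3 V τ) {Q T : Finset α} (h : MinThick V τ Q T) (m : Md) (m1 : m.rl = true)
    (m2 : m.wm = false) (m3 : m.fr = false)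
    (hq : m.q0 = true → 3 ≤ (Q \ (envR V τ Q T).Dr).card)
    (hb : m.big = true → ∀ v ∈ Q, v ∉ (envR V τ Q T).Dr → 4 ≤ dg V τ v)
    (hn : m.nf = true → (Q \ (envR V τ Q T).Dr).card ≤ 2 ∧
      ∀ a b, Q ⊆ {a, b} → τ s(a, b) ≠ 0 → dg V τ a = 3 → dg V τ b = 3 → False) :
    Ok3 m V τ (envR V τ Q T) := by
  refine ⟨⟨ok_R hc h m m1 m2 m3 hq hb fun e => (hn e).2, fun e => (hn e).1,
    fun e => absurd (m3 ▸ e) (by decide), hq, fun _ h3 d hd => ?_, fun _ h4 d hd d' hd' => ?_⟩,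
    fun _ B U a b c d e f => h.2 B U ?_ a⟩
  · obtain ⟨-, p, hp, e⟩ := mem_filter.1 hd
    refine card_le_one.2 fun a ha b hb => ?_
    rw [h.door_one hc h3 hp e (mem_inter.1 ha).2 (mem_inter.1 ha).1,
      h.door_one hc h3 hp e (mem_inter.1 hb).2 (mem_inter.1 hb).1]
  · obtain ⟨-, p, hp, e⟩ := mem_filter.1 hd
    obtain ⟨-, p', hp', e'⟩ := mem_filter.1 hd'
    exact h.door_two hc h4 hp hp' e e'
  · have k := hc.three' (a.trans h.1.subQ) (card_pos.1 (by omega)) (cov_bd B) h.1.subT h.1.cT.ge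
      fun t ht g => disjoint_right.1 h.1.dis ht (a g)
    have l : bd V τ B = U := eq_of_subset_of_card_le c.bd_sub (e.trans k)
    exact ⟨a.trans h.1.subQ, l ▸ bd_subV B, d, b, le_antisymm e (l ▸ k), c, fun u hu =>
      (f u hu).elim (fun g => (h.1.out u g).trans (card_le_card (sdiff_subset_sdiff Subset.rfl a)))
        id⟩

theorem ok3_F (hc : Con3 V τ) (h : NoThick V τ) (h5 : 5 ≤ V.card)
    (hh : ∀ a ∈ V, ∀ b ∈ V, a ≠ b → τ s(a, b) ≠ 2) : Ok3 mF V τ (envF V) :=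
  have f : ∀ {P : Prop}, false = true → P := fun h => by cases h
  ⟨⟨ok_F hc h h5 hh, f, fun _ _ hw h3 => ok_W hc h h5 hw h3, f, f, f⟩, f⟩

end Pool.Agent.Lib.MP_efe3d7_co.J
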