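import Pool.Agent.Lib.MP_efe3d7_co.J.XE0

/-! Graphs next to an exceptional graph: computations. -/

set_option autoImplicit false

namespace Pool.Agent.Lib.MP_efe3d7_co.J

open H

theorem xe_u1 : xCore true p2 (t2 1) [cU 0, cU 2] (ful 260) (ful 556) (ful 2584) = true := by
  decide +kernel

theorem xe_u2 : xCore true p2 (t2 2) [cU 0, cU 1] (ful 260) (ful 556) (ful 2584) = true := by
  decide +kernel

theorem xe_m5 : xCore false p2 (t2 2) [cM] (ful 260) 0 0 = true := by
  decide +kernel

end Pool.Agent.Lib.MP_efe3d7_co.J
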