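import Pool.Agent.Lib.MP_efe3d7_co.J.XE0

/-! Graphs next to an exceptional graph: computations. -/

set_option autoImplicit false

namespace Pool.Agent.Lib.MP_efe3d7_co.J

open H

theorem xe_m7 : xCore false p2 (t2 2) [cM] 0 0 (ful 2584) = true := by
  decide +kernel

end Pool.Agent.Lib.MP_efe3d7_co.J
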