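import Pool.Agent.Lib.MP_efe3d7_co.J.XO
import Pool.Agent.Lib.MP_efe3d7_co.J.XE1
import Pool.Agent.Lib.MP_efe3d7_co.J.XE2
import Pool.Agent.Lib.MP_efe3d7_co.J.XE3
import Pool.Agent.Lib.MP_efe3d7_co.H.G0

/-! Graphs next to an exceptional graph. -/

set_option autoImplicit false

open Finset

namespace Pool.Agent.Lib.MP_efe3d7_co.J

open H

variable {α : Type} [Fintype α] [DecidableEq α] {x : ℝ} {V : Finset α} {τ : Sym2 α → Fin 3}

/-- The two ends. -/
def xe_v (u v : α) (i : ℕ) : α := if i = 0 then u else v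

omit [Fintype α] in
theorem xe_card (he : Exc V τ) : 5 ≤ V.card := by
  obtain ⟨j, hj, u, h1, h2, -⟩ := he
  rw [h2, card_image_of_injOn fun a ha b hb e =>
    h1 a (mem_range.mp (mem_coe.mp ha)) b (mem_range.mp (mem_coe.mp hb)) e, card_range]
  interval_cases j <;> decide

theorem xe_ty (t : Fin 3) : ty (t2 t.val) 0 1 = t.val ∧ ty (t2 t.val) 1 0 = t.val := by
  revert t
  decide

omit [Fintype α] in
theorem xe_xs (hc : Con3 V τ) (h4 : 4 ≤ V.card) {u v : α} (hu : u ∈ V) (hv : v ∈ V)
    (huv : u ≠ v) : XS p2 (t2 (τ s(u, v)).val) V τ (xe_v u v) := by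
  have e0 : xe_v u v 0 = u := rfl
  have e1 : xe_v u v 1 = v := rfl
  have two : ∀ i, i < 2 → i = 0 ∨ i = 1 := fun i hi => by omega
  refine ⟨by decide, by decide, fun i hi j hj e => ?_, fun i hi => ?_, fun i hi j hj => ?_,
    fun i hi hs => absurd hi (not_lt.mpr hs), fun i hi hs => absurd hi (not_lt.mpr hs),
    fun i hi j hj hij _ => ?_, fun i hi j hj hij hk => ?_, fun i hi => ?_⟩
  · rcases two i hi with rfl | rfl <;> rcases two j hj with rfl | rfl
    · rfl
    · exact absurd e huv
    · exact absurd e.symm huv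
    · rfl
  · rcases two i hi with rfl | rfl
    · exact hu
    · exact hv
  · rcases two i hi with rfl | rfl <;> rcases two j hj with rfl | rfl <;> decide
  · rcases two i hi with rfl | rfl <;> rcases two j hj with rfl | rfl
    · exact absurd rfl hij
    · exact (xe_ty _).1.symm
    · rw [e0, e1, Sym2.eq_swap]
      exact (xe_ty _).2.symm
    · exact absurd rfl hij
  · rcases two i hi with rfl | rfl <;> rcases two j hj with rfl | rfl
    · exact absurd rfl hij
    · exact absurd hk (by decide)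
    · exact absurd hk (by decide)
    · exact absurd rfl hij
  · rcases two i hi with rfl | rfl
    · exact hc.dg3 h4 hu
    · exact hc.dg3 h4 hv

omit [Fintype α] in
theorem xe_col {u v : α} (c : Fin 3) :
    ColG p2 0 (t2 c.val) V τ (xe_v u v) V (Function.update τ s(u, v) c) := by
  have e0 : xe_v u v 0 = u := rfl
  have e1 : xe_v u v 1 = v := rfl
  have two : ∀ i, i < 2 → i = 0 ∨ i = 1 := fun i hi => by omega
  refine ⟨fun z => ⟨fun hz => ⟨hz, fun i hi _ => hi⟩, fun hz => hz.1⟩, fun a b ha => ?_,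
    fun i hi j hj hij => ?_⟩
  · refine Function.update_of_ne (fun e => ?_) _ _
    rcases Sym2.eq_iff.mp e with q | q
    · exact ha 0 (by decide) q.1.symm
    · exact ha 1 (by decide) q.1.symm
  · rcases two i hi with rfl | rfl <;> rcases two j hj with rfl | rfl
    · exact absurd rfl hij
    · rw [e0, e1, Function.update_self, if_pos (by decide), (xe_ty c).1]
    · rw [e0, e1, Sym2.eq_swap, Function.update_self, if_pos (by decide), (xe_ty c).2]
    · exact absurd rfl hij

theorem xe_tyb (c : Fin 3) : TyB p2 0 (t2 c.val) := by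
  have two : ∀ i, i < 2 → i = 0 ∨ i = 1 := fun i hi => by omega
  have hc : c.val ≤ 2 := by omega
  refine ⟨by decide, fun i hi j hj hij => ?_⟩
  rcases two i hi with rfl | rfl <;> rcases two j hj with rfl | rfl
  · exact absurd rfl hij
  · exact ⟨(xe_ty c).1.le.trans hc, Or.inl (by decide)⟩
  · exact ⟨(xe_ty c).2.le.trans hc, Or.inl (by decide)⟩
  · exact absurd rfl hij

theorem exc_upd (h : Iv x) (hK : HK α x) (hc : Con3 V τ) {u v : α} (hu : u ∈ V) (hv : v ∈ V)
    (huv : u ≠ v) (ht : τ s(u, v) ≠ 0) (c : Fin 3) (he : Exc V (Function.update τ s(u, v) c)) :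
    Exc V τ ∨ 0 < FF x V τ := by
  by_cases e : c = τ s(u, v)
  · rw [e, Function.update_eq_self] at he
    exact Or.inl he
  have hS := xe_xs hc (le_trans (by norm_num) (xe_card he)) hu hv huv
  have hG : XG true p2 (cU c.val) V τ (xe_v u v) :=
    ⟨xe_tyb c, fun q => absurd q Bool.false_ne_true, fun q => absurd q Bool.false_ne_true⟩
  have key : ∀ t c : Fin 3, t ≠ 0 → c ≠ t → (t.val = 1 ∧ (c.val = 0 ∨ c.val = 2)) ∨
      (t.val = 2 ∧ (c.val = 0 ∨ c.val = 1)) := by decide
  rcases key _ c ht e with ⟨q1, q2⟩ | ⟨q1, q2⟩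
  · refine x_full h hK hS hG (xe_col c) he ?_ (q1 ▸ xe_u1)
    rcases q2 with q | q <;> rw [q] <;> simp
  · refine x_full h hK hS hG (xe_col c) he ?_ (q1 ▸ xe_u2)
    rcases q2 with q | q <;> rw [q] <;> simp

theorem exc_mg (h : Iv x) (hK : HK α x) (hc : Con3 V τ) {u v : α} (hu : u ∈ V) (hv : v ∈ V)
    (huv : u ≠ v) (ht : τ s(u, v) = 2)
    (hz : ∀ z ∈ V, z ≠ u → z ≠ v → ¬ (τ s(u, z) = 2 ∧ τ s(v, z) = 2))
    (he : Exc (V.erase v) (mg τ u v)) : 0 < FF x V τ ∨ Exc V τ := by
  have h4 : 4 ≤ V.card := le_trans (by norm_num) ((xe_card he).trans card_erase_le)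
  have hS := xe_xs hc h4 hu hv huv
  have hG : XG false p2 cM V τ (xe_v u v) :=
    ⟨xe_tyb 0, fun _ => by decide, fun _ z hzV ho => by
      rw [if_neg Bool.false_ne_true]
      exact hz z hzV (ho 0 (by decide)).symm (ho 1 (by decide)).symm⟩
  have hE : Exc (cV cM (xe_v u v) V) (cT cM (xe_v u v) (Function.update τ s(u, v) 0)) := by
    obtain ⟨j, hj, y, h1, h2, h3⟩ := he
    refine ⟨j, hj, y, h1, h2, fun a ha b hb hab => ?_⟩
    rw [← h3 a ha b hb hab]
    have m : ∀ i < xn j, y i ≠ v := fun i hi =>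
      ne_of_mem_erase (h2 ▸ mem_image_of_mem y (mem_range.mpr hi))
    have ne : y a ≠ y b := fun e => hab (h1 a ha b hb e)
    have k : ∀ z, z ≠ u → z ≠ v →
        mg (Function.update τ s(u, v) 0) u v s(u, z) = mg τ u v s(u, z) := by
      intro z q1 q2
      rw [mg_self, mg_self, Function.update_of_ne, Function.update_of_ne]
      · intro e
        rcases Sym2.eq_iff.mp e with q | q
        · exact q2 q.2
        · exact q1 q.2
      · intro e
        rcases Sym2.eq_iff.mp e with q | q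
        · exact q2 q.2
        · exact q1 q.2
    refine congrArg Fin.val ?_
    show mg (Function.update τ s(u, v) 0) u v s(y a, y b) = mg τ u v s(y a, y b)
    by_cases q1 : y a = u
    · rw [q1]
      exact k _ (fun e => ne (q1.trans e.symm)) (m b hb)
    · by_cases q2 : y b = u
      · rw [q2, Sym2.eq_swap (a := y a)]
        exact k _ q1 (m a ha)
      · rw [mg_of_ne _ v q1 q2, mg_of_ne _ v q1 q2, Function.update_of_ne]
        intro e
        rcases Sym2.eq_iff.mp e with q | q
        · exact q1 q.1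
        · exact q2 q.2
  have e2 : (τ s(u, v)).val = 2 := by rw [ht]; rfl
  rw [e2] at hS
  obtain ⟨n, k, h1, h2⟩ := x_core h hK hS hG (xe_col 0) hE
  have hm : cM ∈ [cM] := List.mem_singleton.mpr rfl
  refine Or.symm ?_
  rcases h1 with ⟨rfl, q⟩ | ⟨rfl, q⟩ | ⟨rfl, q⟩
  · exact h2 _ _ _ _ hm (fun _ => by rw [tb_ful, decide_eq_true_eq]; exact q)
      (fun e => absurd e (by decide)) (fun e => absurd e (by decide)) xe_m5
  · exact h2 _ _ _ _ hm (fun e => absurd e (by decide))
      (fun _ => by rw [tb_ful, decide_eq_true_eq]; exact q) (fun e => absurd e (by decide)) xe_m6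
  · exact h2 _ _ _ _ hm (fun e => absurd e (by decide)) (fun e => absurd e (by decide))
      (fun _ => by rw [tb_ful, decide_eq_true_eq]; exact q) xe_m7

end Pool.Agent.Lib.MP_efe3d7_co.J
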