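import Pool.Agent.Lib.MP_efe3d7_co.J.PPos
import Pool.Agent.Lib.MP_efe3d7_co.J.XE
import Pool.Agent.Lib.MP_efe3d7_co.H.G0
import Pool.Agent.Lib.MP_efe3d7_co.H.Col2

/-! Deletion and contraction of one edge. -/

set_option autoImplicit false

open Finset

namespace Pool.Agent.Lib.MP_efe3d7_co.J

open H

variable {α : Type} [Fintype α] [DecidableEq α] {x : ℝ} {V : Finset α} {τ : Sym2 α → Fin 3}

/-- A deletable hard edge. -/
theorem red_del (h : Iv x) (hK : HK α x) (hc : Con3 V τ) {u v : α} (hu : u ∈ V) (hv : v ∈ V)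
    (huv : u ≠ v) (ht : τ s(u, v) = 1) (hd : Con3 V (Function.update τ s(u, v) 0)) :
    Red x V τ := by
  have t0 : τ s(u, v) ≠ 0 := by rw [ht]; decide
  by_cases x0 : Exc V (Function.update τ s(u, v) 0)
  · exact red_or (exc_upd h hK hc hu hv huv t0 0 x0)
  by_cases x2 : Exc V (Function.update τ s(u, v) 2)
  · exact red_or (exc_upd h hK hc hu hv huv t0 2 x2)
  intro _ sm μ hμ eq
  have he : s(u, v) ∈ pairs V := mk_mem_pairs.2 ⟨hu, hv, huv⟩
  have n0 := ne_upd (τ := τ) he 0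
  have n2 := ne_upd (τ := τ) he 2
  have m2 := nh_upd (τ := τ) he 2
  simp only [ht] at n0 n2 m2
  have p0 := sm V _ hd x0 (by simp at n0; omega)
  have p2 := eq V _ (hc.upd s(u, v) (t := 2) (by decide)) x2 (by simpa using n2)
  have m3 : nh V τ = nh V (Function.update τ s(u, v) 2) + 1 := by
    rw [if_pos trivial, if_neg (by decide)] at m2; omega
  have w2 : ww V (Function.update τ s(u, v) 2) = 6 / 5 * ww V τ := by
    unfold ww; rw [m3, pow_succ]; field_simp
  rw [FF, wt_upd, ff_aff, wt0] at p0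
  rw [FF, wt_upd, ff_aff, wt2, w2] at p2
  rw [FF, ff_self V _ s(u, v), ht, wt1]
  have wp := pos_ww V τ
  have e1 := h.ee_ge
  have : μ * ww V τ ≤ 0 := mul_nonpos_of_nonpos_of_nonneg hμ wp.le
  nlinarith

/-- A heavy edge whose contraction has positive value. -/
theorem red_con (h : Iv x) (hK : HK α x) (hc : Con3 V τ) {u v : α} (hu : u ∈ V) (hv : v ∈ V)
    (huv : u ≠ v) (ht : τ s(u, v) = 2)
    (hp : ¬ Exc V τ → Sm x V τ →
      0 < ff x (V.erase v) (mergeW (fun e => wt (ee x) (τ e)) u v)) : Red x V τ := by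
  by_cases x1 : Exc V (Function.update τ s(u, v) 1)
  · exact red_or (exc_upd h hK hc hu hv huv (by rw [ht]; decide) 1 x1)
  intro hn sm μ hμ eq
  have he : s(u, v) ∈ pairs V := mk_mem_pairs.2 ⟨hu, hv, huv⟩
  have n1 := ne_upd (τ := τ) he 1
  have m1 := nh_upd (τ := τ) he 1
  simp only [ht] at n1 m1
  have p1 := eq V _ (hc.upd s(u, v) (t := 1) (by decide)) x1 (by simpa using n1)
  have m3 : nh V (Function.update τ s(u, v) 1) = nh V τ + 1 := by
    rw [if_pos trivial, if_neg (by decide)] at m1; omega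
  have w2 : ww V τ = 6 / 5 * ww V (Function.update τ s(u, v) 1) := by
    unfold ww; rw [m3, pow_succ]; field_simp
  have p0 := hp hn sm
  rw [← Sv_merge h.x_pos hu hv huv] at p0
  rw [FF, wt_upd, ff_aff, wt1] at p1
  rw [FF, ff_self V _ s(u, v), ht, wt2, w2]
  have wp := pos_ww V (Function.update τ s(u, v) 1)
  have e1 := h.ee_ge
  have : μ * ww V (Function.update τ s(u, v) 1) ≤ 0 := mul_nonpos_of_nonpos_of_nonneg hμ wp.le
  nlinarith

theorem ff_mg {u v : α} (hz : ∀ z ∈ V, z ≠ u → z ≠ v → ¬ (τ s(u, z) = 2 ∧ τ s(v, z) = 2)) :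
    FF x (V.erase v) (mg τ u v) = ff x (V.erase v) (mergeW (fun e => wt (ee x) (τ e)) u v) := by
  have key : ∀ b ∈ V.erase v, u ≠ b → wt (ee x) (mg τ u v s(u, b)) =
      mergeW (fun e => wt (ee x) (τ e)) u v s(u, b) := fun b hb e => by
    rw [mergeW_self, mg_self]
    exact col2_par _ (hz b (mem_of_mem_erase hb) e.symm (ne_of_mem_erase hb))
  refine ff_congr fun a ha b hb hab => ?_
  by_cases e : a = u
  · subst e
    exact key b hb hab
  by_cases e' : b = u
  · subst e'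
    rw [Sym2.eq_swap]
    exact key a ha hab.symm
  · rw [mergeW_of_ne _ _ e e', mg_of_ne _ _ e e']

/-- A contractible heavy edge. -/
theorem red_mg (h : Iv x) (hK : HK α x) (hc : Con3 V τ) {u v : α} (hu : u ∈ V) (hv : v ∈ V)
    (huv : u ≠ v) (ht : τ s(u, v) = 2)
    (hz : ∀ z ∈ V, z ≠ u → z ≠ v → ¬ (τ s(u, z) = 2 ∧ τ s(v, z) = 2))
    (hd : Con3 (V.erase v) (mg τ u v)) : Red x V τ := by
  by_cases x1 : Exc (V.erase v) (mg τ u v)
  · exact red_or (exc_mg h hK hc hu hv huv ht hz x1).symm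
  refine red_con h hK hc hu hv huv ht fun _ hs => ?_
  rw [← ff_mg hz]
  exact hs _ _ hd x1 (ne_mg_lt hu (mem_nb.2 ⟨hv, huv.symm, by rw [ht]; decide⟩) fun _ he => he)

end Pool.Agent.Lib.MP_efe3d7_co.J
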