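import Pool.Agent.Lib.MP_efe3d7_co.J.P0
import Pool.Agent.Lib.MP_efe3d7_co.J.Ok3
import Pool.Agent.Lib.MP_efe3d7_co.J.K4
import Pool.Agent.Lib.MP_efe3d7_co.J.PRed
import Pool.Agent.Lib.MP_efe3d7_co.G.HZ
import Pool.Agent.Lib.MP_efe3d7_co.G.SZ

/-! Every member of the class is reducible. -/

set_option autoImplicit false

open Finset

namespace Pool.Agent.Lib.MP_efe3d7_co.J

open H

/-- Graphs all of whose minimal thick fragments are pairs of cubic vertices are reducible. -/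
def Fans (α : Type) [Fintype α] [DecidableEq α] (x : ℝ) : Prop :=
  ∀ (V : Finset α) (τ : Sym2 α → Fin 3), Con3 V τ →
    (∀ Q T, MinThick V τ Q T → ∃ u v, Q = {u, v} ∧ τ s(u, v) ≠ 0 ∧ dg V τ u = 3 ∧ dg V τ v = 3) →
    (∃ Q T, Thick V τ Q T) → Red x V τ

/-- The windows at a free edge are reducible. -/
def Wins (α : Type) [Fintype α] [DecidableEq α] (x : ℝ) : Prop :=
  ∀ (V : Finset α) (τ : Sym2 α → Fin 3) (Q T : Finset α), Big V τ Q T →
    Hv V τ Q (core V τ Q T) → ∀ u v, Free V τ (core V τ Q T) u v → dg V τ u = 5 →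
      (dg V τ v = 5 ∧ 3 ≤ (nb V τ u ∩ nb V τ v).card) ∨
        (dg V τ v = 6 ∧ (nb V τ u ∩ nb V τ v).card = 4) → Red x V τ

/-- The clusters are reducible. -/
def Clus (α : Type) [Fintype α] [DecidableEq α] (x : ℝ) : Prop :=
  ∀ (V : Finset α) (τ : Sym2 α → Fin 3) (Q T : Finset α), Big V τ Q T →
    Hv V τ Q (core V τ Q T) → ∀ U, Cr V τ (core V τ Q T) U →
      (∀ s ∈ U, s ∈ T ∨ (s ∈ Q ∧ ∃ t ∈ T, nb V τ t ∩ Q = {s})) →
      CluA V τ (core V τ Q T) U ∨ CluB V τ (core V τ Q T) U → Red x V τ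

variable {α : Type} [Fintype α] [DecidableEq α] {x : ℝ} {V : Finset α} {τ : Sym2 α → Fin 3}

theorem red_cub (h : Iv x) {Q D : Finset α} {w : Prop} (c : Cub V τ Q D w) : Red x V τ :=
  red_of_smX (c.pos h.pos (by linarith [h.2]) h.ee_pos (by unfold ee; nlinarith [h.1, h.2]))

theorem red_free (h : Iv x) (hK : HK α x) (R : Roots α x) (hc : Con3 V τ) (h5 : 5 ≤ V.card)
    (n : NoThick V τ) : Red x V τ := by
  by_cases k1 : ∃ u ∈ V, ∃ v ∈ V, u ≠ v ∧ τ s(u, v) = 2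
  · obtain ⟨u, hu, v, hv, huv, e⟩ := k1
    have a : v ∈ nb V τ u := mem_nb.2 ⟨hv, huv.symm, by rw [e]; decide⟩
    exact red_mg h hK hc hu hv huv e (fun z hz z1 z2 f => n.tri h5 hu a
      (mem_nb.2 ⟨hz, z1, by rw [f.1]; decide⟩) (mem_nb.2 ⟨hz, z2, by rw [f.2]; decide⟩))
      (n.contr hc h5 hu a)
  push Not at k1
  by_cases k2 : ∀ v ∈ V, dg V τ v ≠ 3
  · obtain ⟨u, hu⟩ : V.Nonempty := card_pos.1 (by omega)
    obtain ⟨v, hv⟩ : (nb V τ u).Nonempty :=
      card_pos.1 (lt_of_lt_of_le three_pos (hc.dg3 (by omega) hu))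
    obtain ⟨a, b, c⟩ := mem_nb.1 hv
    exact red_del h hK hc hu a b.symm (p0_one c (k1 u hu v a b.symm)) (n.del hc h5 k2 u v)
  push Not at k2
  obtain ⟨u, hu, e⟩ := k2
  have o := ok3_F hc n h5 k1
  by_contra nr
  exact nr (red_cub h (cub_W hc n h5 k1 (fun v s => nr (R.fm V τ _ v o s))
    (fun v s => nr (R.fc V τ _ v o s)) hu e))

theorem red_min (h : Iv x) (hK : HK α x) (R : Roots α x) (hW : Wins α x) (hC : Clus α x)
    (hc : Con3 V τ) {Q T : Finset α} (m : MinThick V τ Q T)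
    (hn : ¬ ∃ u v, Q = {u, v} ∧ τ s(u, v) ≠ 0 ∧ dg V τ u = 3 ∧ dg V τ v = 3) : Red x V τ := by
  have f : ∀ {P : Prop}, false = true → P := fun h => by cases h
  have hQ := m.1.cQ
  obtain ⟨a, -⟩ : Q.Nonempty := card_pos.1 (by omega)
  by_cases k0 : (Q \ (envR V τ Q T).Dr).card ≤ 2
  · refine R.rs V τ _ _ (ok3_R hc m _ rfl rfl rfl f f fun _ =>
      ⟨k0, fun a b e1 e2 e3 e4 => hn ⟨a, b, ?_, e2, e3, e4⟩⟩) (sat_0 a)
    exact eq_of_subset_of_card_le e1 (card_le_two.trans hQ)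
  have q0 : 3 ≤ (Q \ (envR V τ Q T).Dr).card := by omega
  by_cases k1 : ∃ u ∈ core V τ Q T, dg V τ u = 3
  · obtain ⟨u, hu, e⟩ := k1
    have o : Ok3 mQ V τ (envR V τ Q T) := ok3_R hc m _ rfl rfl rfl (fun _ => q0) f f
    by_contra nr
    exact nr (red_cub h (cub_R hc m q0 (fun v s => nr (R.ra V τ _ v o s))
      (fun v s => nr (R.rm V τ _ v o s)) (fun v s => nr (R.rc V τ _ v o s)) hu e))
  push Not at k1
  have d3 : ∀ u ∈ Q, 3 ≤ dg V τ u := fun u hu =>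
    hc.dg3 (by have := m.1.five; omega) (m.1.subQ hu)
  by_cases k2 : ∃ u ∈ Q, dg V τ u = 4
  · obtain ⟨u, hu, e⟩ := k2
    refine R.r4 V τ _ _ (ok3_R hc m _ rfl rfl rfl (fun _ => q0) (fun _ z hz g => ?_) f) (sat_4 hu e)
    have := d3 z hz
    have := k1 z (mem_sdiff.2 ⟨hz, g⟩)
    omega
  push Not at k2
  have b : Big V τ Q T := ⟨hc, m, q0, fun u hu => by
    have := d3 u hu
    have := k2 u hu
    by_cases e : dg V τ u = 3
    · exact Or.inr ⟨e, fun k => k1 u k e⟩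
    · exact Or.inl (by omega)⟩
  exact b.red h.pos h.ee_pos h.ee_le (fun u hu v hv => red_del h hK hc hu hv) red_of_smX
    (hW V τ Q T b) (hC V τ Q T b)

theorem red_all (h : Iv x) (hK : HK α x) (R : Roots α x) (hF : Fans α x) (hW : Wins α x)
    (hC : Clus α x) (V : Finset α) (τ : Sym2 α → Fin 3) (hc : Con3 V τ) : Red x V τ := by
  by_cases k3 : V.card = 3
  · exact red_three h hc k3
  by_cases k4 : V.card = 4
  · exact red_four h hc k4
  by_cases k : NoThick V τ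
  · exact red_free h hK R hc (by have := hc.1; omega) k
  by_contra nr
  refine nr (hF V τ hc (fun Q T m => ?_) ?_)
  · by_contra hn
    exact nr (red_min h hK R hW hC hc m hn)
  · by_contra e
    exact k fun Q T m => e ⟨Q, T, m⟩

end Pool.Agent.Lib.MP_efe3d7_co.J
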