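import Pool.Agent.Lib.MP_efe3d7_co.J.TR

/-! Nodes: an interval together with the data of a certificate. -/

set_option autoImplicit false

open Finset

namespace Pool.Agent.Lib.MP_efe3d7_co.J.Tw

open H
open H.Fn (T5 pr pev)

noncomputable section

/-- The data of the interval from `312 P / D` (excluded) to `312 Q / D`. -/
def cx2 (h L P Q D : ℕ) : Cx :=
  ⟨D * (1 + bt h), 2 * D, ⟨1, 312 * (Q + P * bt h), 0, 312 * (Q + P)⟩,
    ⟨1, 0, 287 * (Q + P * bt h), 287 * (Q + P)⟩, bt h, bt (Nat.pred h), mask h L, bt (h * L)⟩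

/-- The same, evaluated. -/
def mkC2 (h L P Q D : ℕ) (k : Cx → Bool) : Bool :=
  frc (D * (1 + bt h)) fun o => frc (2 * D) fun ob => frc (312 * (Q + P * bt h)) fun xv =>
    frc (312 * (Q + P)) fun xb => frc (287 * (Q + P * bt h)) fun rv =>
      frc (287 * (Q + P)) fun rb => frc (bt h) fun B => frc (bt (Nat.pred h)) fun hb =>
        frc (mask h L) fun ms => frc (bt (h * L)) fun tp =>
          k ⟨o, ob, ⟨1, xv, 0, xb⟩, ⟨1, 0, rv, rb⟩, B, hb, ms, tp⟩

/-- A node. -/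
structure Nd where
  /-- size of a digit -/
  h : ℕ
  /-- number of digits -/
  L : ℕ
  /-- left end -/
  p : ℕ
  /-- right end -/
  q : ℕ
  /-- the digits for the targets -/
  a : ℕ
  /-- the packed bases -/
  bs : List ℕ

/-- A test on the interval of a node, from `p / d` (excluded) to `q / d`. -/
def onN (d : ℕ) (f : Nd → Cx → Bool) (u : Nd) : Bool :=
  nz u.h && frc (Nat.gcd (312 * d) (Nat.gcd u.p u.q)) fun g => nz g &&
    frc (u.p / g) fun P => frc (u.q / g) fun Q => frc (312 * d / g) fun D =>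
      mkC2 u.h u.L P Q D (f u)

/-- The nodes cover the interval for every target. -/
def cvr (lo hi M : ℕ) (ex : ℕ → Bool) (l : List Nd) : Bool :=
  mkL (fun (u : Nd) k => frc u.p fun p => frc u.q fun q => frc u.a fun a => k (p, q, a)) l fun s =>
    allB M fun i => cov lo hi s i || ex i

/-- Unpack a table. -/
def upk (z : ℕ) : ℕ :=
  Nat.rec z (fun i r => Nat.rec r (fun j s => Nat.add s (Nat.shiftLeft (Nat.mod (Nat.shiftRight z
    (Nat.add 3 (Nat.add (Nat.mul (Nat.succ i) i) (Nat.mul 2 j)))) 4)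
      (Nat.mul 3 (Nat.add (Nat.mul 16 (Nat.succ i)) j)))) (Nat.succ i)) (Nat.add 2 (Nat.mod z 8))

/-- Unpack column `i` of a basis. -/
def upc (b i : ℕ) (k : ℕ × ℕ → Bool) : Bool :=
  frc (Nat.mod (Nat.shiftRight b (Nat.mul 45 i)) 35184372088832) fun z =>
    frc (Nat.mod z 8) fun n => frc (upk z) fun t => k (n, t)

/-- Unpack a basis. -/
def upb (b : ℕ) (k : T5 (ℕ × ℕ) → Bool) : Bool :=
  upc b 0 fun u1 => upc b 1 fun u2 => upc b 2 fun u3 => upc b 3 fun u4 => upc b 4 fun u5 =>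
    k ⟨u1, u2, u3, u4, u5⟩

/-- A family of vectors that is given for all number systems. -/
abbrev Fa := ∀ {β : Type}, Ops β → ℕ → T5 β

/-- The check of cones at a node. -/
def ckF (md : Mo) (M : ℕ) (F : Fa) (N : ℕ → ℕ) (sm : Bool) (W : ℕ → ℕ) (u : Nd) (c : Cx) : Bool :=
  mkL upb u.bs fun bs => fam md c bs M u.a (F (kOps c)) N sm W

/-- Change the unused low digits of a table. -/
def slt (t : ℕ) : ℕ := Nat.xor t (Nat.mod t 281474976710597)

/-- The vector of a table. -/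
def cvS {β : Type} (O : Ops β) (n t : ℕ) : T5 β := frc (slt t) (cv O n)

/-- The vector of a rest. -/
def gamS {β : Type} (O : Ops β) (n t : ℕ) : T5 β := frc (slt t) (gam O n)

/-- The check of the rests at a node for windows given by tables. -/
def ckX (md : Mo) (L xc : List (ℕ × ℕ)) (M n : ℕ) (T : ℕ → ℕ) (u : Nd) (c : Cx) : Bool :=
  mkL (fun (g : ℕ × ℕ) k => nrm c (gamS (kOps c) g.1 g.2) fun v => k (v, g)) L fun G =>
    sel M u.a fun i => nrm c (cvS (kOps c) n (T i)) fun t =>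
      allL (fun g => prP c t g.1 || anyL (isx md n (T i) g.2.1 g.2.2) xc) G

/-- The check of the rests at a node for vectors; the digits name the rests. -/
def ckG (L : List (ℕ × ℕ)) (K M : ℕ) (F : Fa) (u : Nd) (c : Cx) : Bool :=
  mkV c (F (kOps c)) M fun ts => sel K u.a fun i =>
    posAll c ts (gamS (kOps c) (L.getD i (0, 0)).1 (L.getD i (0, 0)).2)

/-- The check of a box at a node. -/
def ckI (R : List (ℤ × ℤ)) (M : ℕ) (F : Fa) (u : Nd) (c : Cx) : Bool :=
  sel M u.a fun i => inR c R (F (kOps c) i)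

/-- The check of pairings at a node. -/
def ckP (M : ℕ) (F F' : Fa) (u : Nd) (c : Cx) : Bool :=
  sel M u.a fun i => nrm c (F (kOps c) i) fun f => nrm c (F' (kOps c) i) fun g => prP c f g

/-- The search for cuts with an arbitrary final test. -/
def xenP (P : ℕ → ℕ → ℕ → Bool) (z n a : ℕ) : Bool :=
  allB n fun b => Nat.beq a b || allB n fun c => Nat.beq a c || Nat.beq b c ||
    allB (bt n) fun K => tb K a || tb K b || tb K c || frc (pc n K) fun k => Nat.blt 3 k ||
      (!nz K && !(nz (ty z a b) && nz (ty z b c))) ||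
      (anyB n fun u => tb K u && anyB n fun v => !tb K v && !Nat.beq v a && !Nat.beq v b &&
        !Nat.beq v c && nz (ty z u v)) ||
      srch n (P K k) (Nat.sub (Nat.sub n k) 3) 3 (sdg (sdg (sdg 0 0 a) 1 b) 2 c)
        (Nat.lor K (Nat.lor (bt a) (Nat.lor (bt b) (bt c))))

/-- The final test with keys. -/
def plcK (G : List (ℕ × ℕ × ℕ × ℕ)) (z n K k σ : ℕ) : Bool :=
  frc (Nat.mod (reT z (Nat.sub n k) σ) 281474976710597) fun y =>
    anyL (fun g => Nat.beq g.1 y && (Nat.beq g.2.2.2 (reT z (Nat.sub n k) σ) && Nat.beq g.2.1 k &&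
      Nat.beq (Nat.add (Nat.add 3 g.2.2.1) k) n)) G &&
    allB (Nat.sub n k) fun i => Nat.blt (dig σ i) n && !tb K (dig σ i) &&
      allB i fun j => !Nat.beq (dig σ i) (dig σ j)

/-- All cuts of the table `z` lead to `G`. -/
def xenK (G : List (ℕ × ℕ × ℕ)) (z n : ℕ) : Bool :=
  mkL (fun (g : ℕ × ℕ × ℕ) k => frc (Nat.mod g.2.2 281474976710597) fun y => k (y, g)) G fun s =>
    frc z fun z => allB n (xenP (plcK s z n) z n)

end

theorem ty_slt (t : ℕ) {i j : ℕ} (h : i ≠ j) : ty (slt t) i j = ty t i j := by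
  have h1 : 48 ≤ 3 * px i j := by rw [bit2_px]; split_ifs <;> omega
  have h2 : t % 281474976710597 < 2 ^ (3 * px i j) :=
    (Nat.mod_lt _ (by norm_num)).trans_le ((show 281474976710597 ≤ 2 ^ 48 by norm_num).trans
      (Nat.pow_le_pow_right (by norm_num) h1))
  show ((t ^^^ t % 281474976710597) >>> (3 * px i j)) % 8 = (t >>> (3 * px i j)) % 8
  rw [Nat.shiftRight_xor_distrib, Nat.shiftRight_eq_zero _ _ h2, Nat.xor_zero]

theorem net_congr {β : Type} (O : Ops β) (n : ℕ) : ∀ t t' : ℕ → ℕ → ℕ,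
    (∀ i j, j < i → t i j = t' i j) → net O n t = net O n t' := by
  induction n with
  | zero => exact fun _ _ _ => rfl
  | succ n ih =>
    intro t t' h
    have k : ∀ m ≤ n, ∀ f, aux O (net O n) f t (3 + n) m = aux O (net O n) f t' (3 + n) m := by
      intro m hm f
      induction m with
      | zero => rfl
      | succ m jh =>
        have e : net O n (mrg t (3 + n) (3 + m)) = net O n (mrg t' (3 + n) (3 + m)) := by
          refine ih _ _ fun i j hj => ?_
          unfold mrg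
          cases q : Nat.beq i (3 + m)
          · exact h i j hj
          · have := Nat.eq_of_beq_eq_true q
            rw [h _ j (by omega), h (3 + n) j (by omega)]
            rfl
        show (bif Nat.beq (t (3 + n) (3 + m)) 1 then aux O (net O n) f t (3 + n) m else
          axp O (O.sub (O.c 1) (wv O (t (3 + n) (3 + m)))) (net O n (mrg t (3 + n) (3 + m)))
            (aux O (net O n) f t (3 + n) m)) = (bif Nat.beq (t' (3 + n) (3 + m)) 1 then
          aux O (net O n) f t' (3 + n) m else axp O (O.sub (O.c 1) (wv O (t' (3 + n) (3 + m))))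
            (net O n (mrg t' (3 + n) (3 + m))) (aux O (net O n) f t' (3 + n) m))
        rw [jh (by omega), e, h (3 + n) (3 + m) (by omega)]
    show aux O (net O n) (bif Nat.beq n 0 then star O (t 3 0) (t 3 1) (t 3 2) else
      had O (star O (t (3 + n) 0) (t (3 + n) 1) (t (3 + n) 2)) (net O n t)) t (3 + n) n =
      aux O (net O n) (bif Nat.beq n 0 then star O (t' 3 0) (t' 3 1) (t' 3 2) else
      had O (star O (t' (3 + n) 0) (t' (3 + n) 1) (t' (3 + n) 2)) (net O n t')) t' (3 + n) n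
    rw [k n le_rfl, ih t t' h, h 3 0 (by omega), h 3 1 (by omega), h 3 2 (by omega),
      h (3 + n) 0 (by omega), h (3 + n) 1 (by omega), h (3 + n) 2 (by omega)]

theorem cvS_eq {β : Type} (O : Ops β) (n t : ℕ) : cvS O n t = cv O n t := by
  rw [cvS, frc_eq, cv, cv, ty_slt t (by omega), ty_slt t (by omega), ty_slt t (by omega),
    net_congr O n _ (fun i j => cd (ty t i j)) fun i j h => by rw [ty_slt t h.ne']]

theorem gamS_eq {β : Type} (O : Ops β) (n t : ℕ) : gamS O n t = gam O n t := by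
  rw [gamS, frc_eq, gam, gam, ← cvS_eq O n t, cvS, frc_eq]

theorem srch_mono {n : ℕ} {f g : ℕ → Bool} (h : ∀ σ, f σ = true → g σ = true) (s : ℕ) :
    ∀ i σ m, srch n f s i σ m = true → srch n g s i σ m = true := by
  induction s with
  | zero => exact fun _ σ _ => h σ
  | succ s ih =>
    intro i σ m k
    obtain ⟨v, hv, k⟩ := (anyB_iff _ _).1 k
    refine (anyB_iff _ _).2 ⟨v, hv, ?_⟩
    have k : (!tb m v && frc (sdg σ i v) fun σ' => frc (Nat.lor m (bt v)) fun m' =>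
      srch n f s (Nat.succ i) σ' m') = true := k
    show (!tb m v && frc (sdg σ i v) fun σ' => frc (Nat.lor m (bt v)) fun m' =>
      srch n g s (Nat.succ i) σ' m') = true
    rw [frc_eq, frc_eq, Bool.and_eq_true] at k ⊢
    exact ⟨k.1, ih _ _ _ k.2⟩

theorem xenK_sound {G : List (ℕ × ℕ × ℕ)} {z n a : ℕ} (h : xenK G z n = true) (ha : a < n) :
    xen G z n a = true := by
  obtain ⟨s, h1, _, h3⟩ := mkL_sound (fun (g : ℕ × ℕ × ℕ) (b : ℕ × ℕ × ℕ × ℕ) => b.2 = g)
    (fun a k hk => by rw [frc_eq] at hk; exact ⟨_, rfl, hk⟩) h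
  rw [frc_eq] at h3
  have h4 := (allB_iff _ _).1 h3 a ha
  simp only [xenP, xen, allB_iff, Bool.or_eq_true, frc_eq] at h4 ⊢
  refine fun b hb => (h4 b hb).imp_right fun h5 c hc => (h5 c hc).imp_right fun h6 K hK =>
    (h6 K hK).imp_right fun h7 => h7.imp_right (srch_mono (fun σ k => ?_) _ _ _ _)
  simp only [plcK, plc, frc_eq, Bool.and_eq_true, anyL_iff] at k ⊢
  obtain ⟨⟨g, hg, _, k1⟩, k2⟩ := k
  obtain ⟨g', hg', e⟩ := h1 g hg
  exact ⟨⟨g', hg', e ▸ k1⟩, k2⟩

/-- The family respects compatible relations. -/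
def FaOk (F : Fa) : Prop :=
  ∀ {β γ : Type} {R : β → γ → Prop} {O : Ops β} {O' : Ops γ}, Hom R O O' → ∀ i, R5 R (F O i) (F O' i)

variable {x : ℝ}

theorem good2 {h L P Q D : ℕ} (h0 : 0 < h) (hx : Inn D (312 * P) (312 * Q) x) :
    ∃ s o, Good (cx2 h L P Q D) x s o := by
  obtain ⟨h1, h2⟩ := hx
  push_cast at h1 h2
  have hp : (0 : ℝ) ≤ P := Nat.cast_nonneg P
  have hd : (0 : ℝ) < D := by
    rcases Nat.eq_zero_or_pos D with rfl | hd
    · simp at h1; linarith
    · exact_mod_cast hd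
  have h3 : 0 < D * x - 312 * P := by linarith
  have hs : 0 ≤ (312 * Q - D * x) / (D * x - 312 * P) := div_nonneg (by linarith) h3.le
  have he : (312 * Q - D * x) / (D * x - 312 * P) * (D * x - 312 * P) = 312 * Q - D * x :=
    div_mul_cancel₀ _ h3.ne'
  generalize (312 * Q - D * x) / (D * x - 312 * P) = s at hs he
  refine ⟨s, D * (1 + s), by positivity, ⟨[D, D], ?_, ?_, ?_⟩,
    ⟨[312 * Q, 312 * P], ?_, ?_, ?_⟩, ⟨[-(287 * Q), -(287 * P)], ?_, ?_, ?_⟩, ?_⟩
  · simp only [pz, cx2]; push_cast; ring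
  · simp only [nr, cx2]; omega
  · simp only [H.Fn.pev_cons, H.Fn.pev_nil]; push_cast; ring
  · simp only [pz, cx2]; push_cast; ring
  · simp only [nr, cx2]; omega
  · simp only [H.Fn.pev_cons, H.Fn.pev_nil, cx2]; push_cast; linear_combination (-1) * he
  · simp only [pz, cx2]; push_cast; ring
  · simp only [nr, cx2]; omega
  · simp only [H.Fn.pev_cons, H.Fn.pev_nil, cx2, ee]; push_cast
    linear_combination (287 / 312) * he
  · intro N b r hr hn
    simp only [nnN, cx2, Bool.and_eq_true, Nat.ble_eq, Nat.beq_eq, Nat.blt_eq] at hn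
    have := digits_pos h0 hs hr hn.1.1 hn.1.2 hn.2
    exact ⟨this.1, fun hl => this.2 ((nz_iff _).1 hl)⟩

theorem onN_sound {d : ℕ} {f : Nd → Cx → Bool} {u : Nd} (hx : Inn d u.p u.q x)
    (hk : onN d f u = true) : ∃ c s o, Good c x s o ∧ f u c = true := by
  simp only [onN, frc_eq, Bool.and_eq_true, nz_iff, mkC2] at hk
  obtain ⟨h0, hg, hk⟩ := hk
  obtain ⟨D, hD⟩ := Nat.gcd_dvd_left (312 * d) (Nat.gcd u.p u.q)
  obtain ⟨P, hP⟩ := (Nat.gcd_dvd_right (312 * d) (Nat.gcd u.p u.q)).trans (Nat.gcd_dvd_left _ _)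
  obtain ⟨Q, hQ⟩ := (Nat.gcd_dvd_right (312 * d) (Nat.gcd u.p u.q)).trans (Nat.gcd_dvd_right _ _)
  generalize Nat.gcd (312 * d) (Nat.gcd u.p u.q) = g at hg hk hD hP hQ
  have g0 := Nat.pos_of_ne_zero hg
  rw [hD, hP, hQ, Nat.mul_div_cancel_left _ g0, Nat.mul_div_cancel_left _ g0,
    Nat.mul_div_cancel_left _ g0] at hk
  obtain ⟨h1, h2⟩ := hx
  have e : (312 : ℝ) * d = g * D := by exact_mod_cast hD
  have g1 : (0 : ℝ) < g := by exact_mod_cast g0
  rw [hP] at h1
  rw [hQ] at h2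
  push_cast at h1 h2
  obtain ⟨s, o, hc⟩ := good2 (L := u.L) (P := P) (Q := Q) (D := D) (x := x)
    (Nat.pos_of_ne_zero h0) ⟨by
      push_cast
      refine lt_of_mul_lt_mul_left ?_ g1.le
      rw [← mul_assoc (g : ℝ) D, ← e]; linarith, by
      push_cast
      refine le_of_mul_le_mul_left ?_ g1
      rw [← mul_assoc (g : ℝ) D, ← e]; linarith⟩
  exact ⟨_, s, o, hc, hk⟩

theorem allL_cons {γ : Type} {f : γ → Bool} {a : γ} {l : List γ} (h1 : f a = true)
    (h2 : allL f l = true) : allL f (a :: l) = true := by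
  rw [allL_iff] at h2 ⊢
  exact List.forall_mem_cons.2 ⟨h1, h2⟩

theorem allL_app {γ : Type} {f : γ → Bool} {l l' : List γ} (h1 : allL f l = true)
    (h2 : allL f l' = true) : allL f (l ++ l') = true := by
  rw [allL_iff] at h1 h2 ⊢
  exact List.forall_mem_append.2 ⟨h1, h2⟩

theorem cvr_sound {d lo hi M i : ℕ} {l : List Nd} {ex : ℕ → Bool} (h : cvr lo hi M ex l = true)
    (hi' : i < M) (he : ex i = false) (hx : Inn d lo hi x) : ∃ u ∈ l, dgt u.a i ≠ 0 ∧ Inn d u.p u.q x := by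
  obtain ⟨s, h1, _, h3⟩ := mkL_sound (fun (u : Nd) (b : ℕ × ℕ × ℕ) => b = (u.p, u.q, u.a))
    (fun a k hk => ⟨_, rfl, by simpa only [frc_eq] using hk⟩) h
  obtain ⟨b, hb, h4, h5⟩ := cov_sound (i := i) (l := s)
    (by simpa only [he, Bool.or_false] using (allB_iff _ _).1 h3 i hi') hx
  obtain ⟨u, hu, rfl⟩ := h1 b hb
  exact ⟨u, hu, h4, h5⟩

/-- Some node speaks about target `i` at the point `x`. -/
theorem node_of {d lo hi M i : ℕ} {l : List Nd} {f : Nd → Cx → Bool} {ex : ℕ → Bool}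
    (h1 : allL (onN d f) l = true) (h2 : cvr lo hi M ex l = true) (hi' : i < M) (he : ex i = false)
    (hx : Inn d lo hi x) : ∃ u c s o, Good c x s o ∧ f u c = true ∧ dgt u.a i ≠ 0 := by
  obtain ⟨u, hu, h3, h4⟩ := cvr_sound h2 hi' he hx
  obtain ⟨c, s, o, h5, h6⟩ := onN_sound h4 ((allL_iff _ _).1 h1 u hu)
  exact ⟨u, c, s, o, h5, h6, h3⟩

variable {c : Cx} {s o : ℝ} {u : Nd} {md : Mo} {M i : ℕ} {F F' : Fa}

theorem ckF_sound (h : Good c x s o) (hF : FaOk F) {N W : ℕ → ℕ} {sm : Bool}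
    (hk : ckF md M F N sm W u c = true) (hi : i < M) (hd : dgt u.a i ≠ 0) :
    Cone x md (N i) sm (W i) (F (rOps x) i) := by
  obtain ⟨bs, _, _, h3⟩ := mkL_sound (fun _ _ => True) (fun a k hk => by
    simp only [upb, upc, frc_eq] at hk
    exact ⟨_, trivial, hk⟩) hk
  exact fam_sound h (hF h.hom) h3 hi hd

theorem ckX_sound {G : List (ℕ × ℕ × ℕ)} (h : Good c x s o) {L xc : List (ℕ × ℕ)} {n : ℕ}
    {T : ℕ → ℕ} (hL : xsub G md L = true) (hk : ckX md L xc M n T u c = true) (hi : i < M)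
    (hd : dgt u.a i ≠ 0) : XP G x md n (T i) := by
  intro r t hr
  obtain ⟨s', _, h2, h3⟩ := mkL_sound (fun (g : ℕ × ℕ) (b : VK × ℕ × ℕ) =>
    b.2 = g ∧ RV c s o b.1 (gam (rOps x) g.1 g.2)) (fun a k hk => by
      rw [gamS_eq] at hk
      obtain ⟨v, h1, h2⟩ := nrm_sound h (h.hom.gam a.1 a.2) hk
      exact ⟨_, ⟨rfl, h1⟩, h2⟩) hk
  obtain ⟨b, hb, e, h4⟩ := h2 _ (xsub_sound hL hr)
  have h5 := sel_sound h3 hi hd
  rw [cvS_eq] at h5
  obtain ⟨v, h6, h7⟩ := nrm_sound h (h.hom.cv n (T i)) h5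
  have h8 := (allL_iff _ _).1 h7 b hb
  rw [Bool.or_eq_true, anyL_iff, e] at h8
  exact h8.imp (prP_sound h h6 h4) fun ⟨u, _, k⟩ => ⟨u, k⟩

theorem ckG_sound (h : Good c x s o) (hF : FaOk F) {L : List (ℕ × ℕ)} {K j : ℕ}
    (hk : ckG L K M F u c = true) (hj : j < K) (hd : dgt u.a j ≠ 0) (hi : i < M) :
    0 < pr (F (rOps x) i) (gam (rOps x) (L.getD j (0, 0)).1 (L.getD j (0, 0)).2) := by
  obtain ⟨ts, h1, h2⟩ := mkV_sound h (hF h.hom) hk
  obtain ⟨t, ht, h3⟩ := h1 i hi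
  have h4 := sel_sound h2 hj hd
  rw [gamS_eq] at h4
  exact posAll_sound h (h.hom.gam _ _) h4 ht h3

theorem ckI_sound (h : Good c x s o) (hF : FaOk F) {R : List (ℤ × ℤ)}
    (hk : ckI R M F u c = true) (hi : i < M) (hd : dgt u.a i ≠ 0) : InR x R (F (rOps x) i) :=
  inR_sound h (hF h.hom i) (sel_sound hk hi hd)

theorem ckP_sound (h : Good c x s o) (hF : FaOk F) (hF' : FaOk F')
    (hk : ckP M F F' u c = true) (hi : i < M) (hd : dgt u.a i ≠ 0) :
    0 < pr (F (rOps x) i) (F' (rOps x) i) := by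
  obtain ⟨f, h1, h2⟩ := nrm_sound h (hF h.hom i) (sel_sound hk hi hd)
  obtain ⟨g, h3, h4⟩ := nrm_sound h (hF' h.hom i) h2
  exact prP_sound h h1 h3 h4

end Pool.Agent.Lib.MP_efe3d7_co.J.Tw
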