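import Pool.Agent.Lib.MP_efe3d7_co.J.CV2
import Pool.Agent.Lib.MP_efe3d7_co.J.TF

/-! The vectors of the clusters as fractions. -/

set_option autoImplicit false

open Finset

namespace Pool.Agent.Lib.MP_efe3d7_co.J.Cl

open H Tw
open H.Fn (T5 pr)

noncomputable section

/-- The values when all edges between the cliques are hard. -/
def Ps (x r : ℝ) : ℕ → ℕ → ℝ
  | _, 0 => 1
  | d, n + 1 => (d - 1 - x) * tr r r n fun m => Ps x r (d + 1) (n - m)
termination_by _ n => n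
decreasing_by omega

theorem ps_tb (x r : ℝ) : Tb x r (Ps x r) := ⟨fun _ => by rw [Ps], fun _ _ _ _ => by rw [Ps]⟩

/-- The closed values of a clique. -/
def vA (x r : ℝ) (n k k' : ℕ) (e : ℝ) (l : List ℝ) : ℝ :=
  two r e (e * r) k k' n (vl r l (Ps x r (l.length + 1)))

/-- A value in which one vertex misses an edge. -/
def wB (x r : ℝ) (n d : ℕ) (u : ℝ) (l : List ℝ) : ℝ :=
  two r u (u * r) 1 (n - 2) (n - 1) (vl r l (Ps x r d))

/-- The vector of a clique. -/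
def fA (x r : ℝ) (u : ℕ × ℕ × ℕ) : T5 ℝ :=
  ⟨vA x r u.1 u.2.1 u.2.2 1 [r, r], vA x r u.1 u.2.1 u.2.2 r [r], vA x r u.1 u.2.1 u.2.2 r [r],
    vA x r u.1 u.2.1 u.2.2 1 [r * r], vA x r u.1 u.2.1 u.2.2 (r * r) []⟩

/-- The vector of a clique without an edge. -/
def fB (x r : ℝ) (n : ℕ) : T5 ℝ :=
  ⟨(2 - x) * wB x r n 4 1 [r, r, r] - 3 * r * wB x r n 3 r [r, r],
    (1 - x) * wB x r n 3 1 [r * r, r] - (r * r * wB x r n 2 (r * r) [r] + r * wB x r n 2 r [r * r]),
    (1 - x) * wB x r n 3 1 [r * r, r] - (r * r * wB x r n 2 (r * r) [r] + r * wB x r n 2 r [r * r]),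
    (1 - x) * wB x r n 3 1 [r, r * r] - (r * r * wB x r n 2 (r * r) [r] + r * wB x r n 2 r [r * r]),
    (0 - x) * wB x r n 2 1 [r * r * r] - r * r * r * wB x r n 1 (r * r * r) []⟩

/-- Binomial coefficients. -/
def bn (k m : ℕ) : ℕ :=
  dgt 10132752098708512006019630772049134692996847425301753458929170620787503185110304100633760121366068750189389719856970717635881527013574449148101294839141182754512865962493279529618783577537187800469353866673505248455247700760671940119956324824803693091460838255914841355513189770406423166977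
    (Nat.add (Nat.mul 11 k) m)

/-- A number with the sign of a parity. -/
def sg (s n : ℕ) : ℤ := bif tb s 0 then Int.negOfNat n else Int.ofNat n

variable (c : Cx)

/-- A power of the size of the heavy weight. -/
def pw (e : ℕ) : KP := KP.rec (fun n _ m b => mkK (Nat.mul n e) (Nat.pow m e) 0 (Nat.pow b e)) c.r

/-- The binomial sum. -/
def trm (a k : ℕ) (G : ℕ → KP) (M : ℕ) : KP :=
  Nat.rec (kc 0) (fun m s => frc (Nat.add (Nat.mul a m) (bn m 2)) fun e =>
    kadd c.o c.ob s (kmul (kmul (kc (sg (Nat.add m e) (bn k m))) (pw c e)) (G m))) M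

/-- A member of a list. -/
def gt (l : List KP) : ℕ → KP :=
  List.rec (fun _ => kc 0) (fun a _ r i => Nat.rec a (fun j _ => r j) i) l

/-- Evaluate a fraction before it is used. -/
def frK {β : Type} (u : KP) (f : KP → β) : β := KP.rec (fun a p m b => f ⟨a, p, m, b⟩) u

/-- The list of `n` evaluated values of `f`. -/
def tab (f : ℕ → KP) (n : ℕ) : ℕ → (List KP → Bool) → Bool :=
  Nat.rec (fun _ k => k []) (fun _ r i k => frc i fun i =>
    frK (f i) fun u => r (Nat.succ i) fun l => k (u :: l)) n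

/-- One more vertex with weight `r ^ a`. -/
def opT (a : ℕ) (l : List KP) (n : ℕ) (k : List KP → Bool) : Bool :=
  tab (fun i => trm c a i (fun m => gt l (Nat.sub i m)) (Nat.succ i)) n 0 k

/-- The next row of the table. -/
def nxt (d : ℕ) (l : List KP) (n : ℕ) (k : List KP → Bool) : Bool :=
  tab (fun i => kmul (ksub c.o c.ob (kc (Int.ofNat d)) c.x)
    (trm c 1 i (fun m => gt l (Nat.sub i m)) (Nat.succ i))) n 0 fun l => k (kc 1 :: l)

/-- The rows of the table. -/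
def rows (n : ℕ) : (List KP → Bool) → Bool :=
  Nat.rec (fun k => k [kc 1]) (fun j r k => r fun l => nxt c (Nat.sub 11 j) l (Nat.succ j) k) n

/-- Two kinds of edges. -/
def twK (a n k k' : ℕ) (l : List KP) : KP :=
  trm c a k (fun m => trm c (Nat.succ (Nat.add m a)) k'
    (fun m' => gt l (Nat.sub (Nat.sub n m) m')) (Nat.succ k')) (Nat.succ k)

/-- The vector of a clique. -/
def kA (t11 t1 t2 t0 : List KP) (u : ℕ × ℕ × ℕ) : T5 KP :=
  frK (twK c 1 u.1 u.2.1 u.2.2 t1) fun z => ⟨twK c 0 u.1 u.2.1 u.2.2 t11, z, z,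
    twK c 0 u.1 u.2.1 u.2.2 t2, twK c 2 u.1 u.2.1 u.2.2 t0⟩

/-- A constant minus the parameter. -/
def cx (z : ℤ) : KP := ksub c.o c.ob (kc z) c.x

/-- The vector of a clique without an edge. -/
def kB (t111 t11 t21 t12 t1 t2 t3 t0 : List KP) (n : ℕ) : T5 KP :=
  frc (Nat.sub n 1) fun n1 => frc (Nat.sub n 2) fun n2 =>
    frK (kadd c.o c.ob (kmul (kmul c.r c.r) (twK c 2 n1 1 n2 t1)) (kmul c.r (twK c 1 n1 1 n2 t2)))
      fun z => ⟨ksub c.o c.ob (kmul (cx c 2) (twK c 0 n1 1 n2 t111))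
        (kmul (kmul (kc 3) c.r) (twK c 1 n1 1 n2 t11)),
      ksub c.o c.ob (kmul (cx c 1) (twK c 0 n1 1 n2 t21)) z,
      ksub c.o c.ob (kmul (cx c 1) (twK c 0 n1 1 n2 t21)) z,
      ksub c.o c.ob (kmul (cx c 1) (twK c 0 n1 1 n2 t12)) z,
      ksub c.o c.ob (kmul (cx c 0) (twK c 0 n1 1 n2 t3))
        (kmul (kmul (kmul c.r c.r) c.r) (twK c 3 n1 1 n2 t0))⟩

/-- The sizes of the cliques. -/
def pA : List (ℕ × ℕ × ℕ) :=
  [(4, 0, 4), (5, 0, 5), (6, 0, 6), (7, 0, 7), (8, 0, 8), (9, 0, 9), (10, 0, 10),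
    (5, 3, 0), (5, 3, 1), (5, 3, 2), (5, 2, 3), (5, 1, 4),
    (6, 4, 0), (6, 4, 1), (6, 4, 2), (6, 3, 3), (6, 2, 4), (6, 1, 5),
    (7, 5, 0), (7, 5, 1), (7, 5, 2), (7, 4, 3), (7, 3, 4), (7, 2, 5), (7, 1, 6)]

/-- Evaluate all vectors. -/
def vecs (k : List VK → List VK → Bool) : Bool :=
  Nat.beq c.r.p 0 && rows c 9 fun r4 => nxt c 2 r4 10 fun r3 => nxt c 1 r3 10 fun r2 =>
    nxt c 0 r2 10 fun r1 => opT c 1 r3 11 fun u1 => opT c 1 u1 11 fun t11 =>
    opT c 1 r2 11 fun t1 => opT c 2 r2 11 fun t2 => opT c 3 r2 7 fun t3 =>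
    opT c 2 u1 7 fun t21 => opT c 2 r3 7 fun u2 => opT c 1 u2 7 fun t12 =>
    opT c 1 r4 7 fun v1 => opT c 1 v1 7 fun v2 => opT c 1 v2 7 fun t111 =>
    mkL (fun u k => Nat.ble u.1 10 && Nat.ble u.2.1 10 && Nat.ble u.2.2 10 &&
      nrm c (kA c t11 t1 t2 r1 u) k) pA fun s =>
    mkL (fun n k => Nat.ble n 7 && nrm c (kB c t111 t11 t21 t12 t1 t2 t3 r1 n) k) [5, 6, 7]
      fun s' => k s s'

/-- The mode of the windows. -/
def mK : Mo := ⟨0, 0, 0, true, true, true, false, 2⟩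

/-- The five columns. -/
def bas : T5 (ℕ × ℕ) :=
  ⟨(0, mkT [(1, 0, 1), (2, 0, 1), (2, 1, 1)]),
    (1, mkT [(1, 0, 1), (2, 0, 1), (3, 0, 2), (3, 1, 1), (3, 2, 1)]),
    (2, mkT [(1, 0, 1), (2, 1, 1), (3, 1, 2), (3, 2, 1), (4, 0, 1), (4, 1, 2), (4, 3, 1)]),
    (2, mkT [(2, 0, 1), (2, 1, 1), (3, 1, 1), (3, 2, 2), (4, 0, 1), (4, 2, 2), (4, 3, 1)]),
    (2, mkT [(3, 0, 1), (3, 1, 2), (3, 2, 2), (4, 0, 1), (4, 1, 2), (4, 2, 2), (4, 3, 2)])⟩

/-- All vectors lie in the cone of the columns. -/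
def chk1 : Bool := vecs c fun s s' => mkEB mK c bas fun E =>
  allL (fun t => tchk c E t 8 false 0) s && allL (fun t => tchk c E t 8 false 0) s'

/-- All vectors are positive on the rests that come from `G`. -/
def chk2 (G : List (ℕ × ℕ × ℕ)) : Bool := vecs c fun s s' => allL (fun g => xone mK g fun r t =>
  nrm c (gamS (kOps c) r t) fun v => allL (fun t => prP c t v) s && allL (fun t => prP c t v) s') G

end

end Pool.Agent.Lib.MP_efe3d7_co.J.Cl
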