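import Pool.Agent.Lib.MP_efe3d7_co.J.TG0

/-! All cuts of the exceptional graphs are listed. -/

set_option autoImplicit false

namespace Pool.Agent.Lib.MP_efe3d7_co.J.Tw

open H

theorem xg0 : xenK GX (xt 0) 5 = true := by decide +kernel

theorem xg1 : xenK GX (xt 1) 5 = true := by decide +kernel

theorem xg2 : xenK GX (xt 2) 5 = true := by decide +kernel

theorem xg3 : xenK GX (xt 3) 5 = true := by decide +kernel

theorem xg4 : xenK GX (xt 4) 5 = true := by decide +kernel

theorem xg5 : xenK GX (xt 5) 5 = true := by decide +kernel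

theorem xg6 : xenK GX (xt 6) 6 = true := by decide +kernel

theorem xg7 : xenK GX (xt 7) 6 = true := by decide +kernel

theorem xg8 : xenK GX (xt 8) 6 = true := by decide +kernel

theorem xg9 : xenK GX (xt 9) 7 = true := by decide +kernel

theorem xeG : XE GX := by
  intro j hj a ha
  interval_cases j
  · exact xenK_sound xg0 ha
  · exact xenK_sound xg1 ha
  · exact xenK_sound xg2 ha
  · exact xenK_sound xg3 ha
  · exact xenK_sound xg4 ha
  · exact xenK_sound xg5 ha
  · exact xenK_sound xg6 ha
  · exact xenK_sound xg7 ha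
  · exact xenK_sound xg8 ha
  · exact xenK_sound xg9 ha

end Pool.Agent.Lib.MP_efe3d7_co.J.Tw
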