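import Pool.Agent.Lib.MP_efe3d7_co.J.CD
import Pool.Agent.Lib.MP_efe3d7_co.J.TG

/-! The certificates of the clusters. -/

set_option autoImplicit false

namespace Pool.Agent.Lib.MP_efe3d7_co.J.Cl

open Tw

theorem ck1 : onN 1997 (fun _ c => chk1 c) ⟨1200, 100, 312, 1560, 0, []⟩ = true := by
  decide +kernel

theorem ck2 : onN 1997 (fun _ c => chk2 c GX) ⟨1200, 100, 312, 1560, 0, []⟩ = true := by
  decide +kernel

end Pool.Agent.Lib.MP_efe3d7_co.J.Cl
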