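import Pool.Agent.Lib.MP_efe3d7_co.J.CD

/-! The fractions stand for the vectors of the clusters. -/

set_option autoImplicit false

open Finset

namespace Pool.Agent.Lib.MP_efe3d7_co.J.Cl

open H Tw
open H.Fn (T5 pr)

variable {c : Cx} {x s o : ℝ}

theorem bn_eq : ∀ k < 11, ∀ m < 11, bn k m = k.choose m := by decide +kernel

theorem bn_two : ∀ m < 11, bn m 2 = m.choose 2 := fun m h => bn_eq m h 2 (by omega)

theorem sg_eq (j n : ℕ) : (sg j n : ℝ) = (-1) ^ j * n := by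
  have e : (Int.negOfNat n : ℤ) = -(n : ℤ) := Int.negOfNat_eq
  unfold sg
  rw [tb_eq, Nat.testBit_zero, e]
  rcases Nat.even_or_odd j with k | k
  · simp [Nat.even_iff.1 k, k.neg_one_pow]
  · simp [Nat.odd_iff.1 k, k.neg_one_pow]

theorem frK_eq {β : Type} (u : KP) (f : KP → β) : frK u f = f u := by cases u; rfl

theorem rk_c (h : Good c x s o) (z : ℤ) {a : ℝ} (e : (z : ℝ) = a) : RK c s o (kc z) a :=
  e ▸ h.hom.c z

theorem rk_add (h : Good c x s o) {u v : KP} {a b : ℝ} (hu : RK c s o u a) (hv : RK c s o v b) :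
    RK c s o (kadd c.o c.ob u v) (a + b) := h.hom.add hu hv

theorem rk_sub (h : Good c x s o) {u v : KP} {a b : ℝ} (hu : RK c s o u a) (hv : RK c s o v b) :
    RK c s o (ksub c.o c.ob u v) (a - b) := h.hom.sub hu hv

theorem rk_mul (h : Good c x s o) {u v : KP} {a b : ℝ} (hu : RK c s o u a) (hv : RK c s o v b) :
    RK c s o (kmul u v) (a * b) := h.hom.mul hu hv

theorem pw_rk (h : Good c x s o) (hp : c.r.p = 0) (e : ℕ) : RK c s o (pw c e) (ee x ^ e) := by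
  have k := h.hr
  unfold pw
  revert k hp
  generalize c.r = u
  obtain ⟨n, p, m, b⟩ := u
  rintro (rfl : p = 0) k
  have := (Rp.neg k).pow e
  simp only [mkK, frc_eq, RK]
  rwa [← mul_neg, neg_neg, mul_pow, ← pow_mul] at this

theorem trm_sum (h : Good c x s o) (hp : c.r.p = 0) (a : ℕ) {k : ℕ} (hk : k ≤ 10) {G : ℕ → KP}
    {G' : ℕ → ℝ} (M : ℕ) (hM : M ≤ k + 1) (hG : ∀ m < M, RK c s o (G m) (G' m)) :
    RK c s o (trm c a k G M) (∑ m ∈ range M,
      (k.choose m : ℝ) * ((-(-ee x) ^ a) ^ m * (-ee x) ^ m.choose 2 * G' m)) := by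
  induction M with
  | zero => exact rk_c h 0 (by simp)
  | succ M ih =>
    have := rk_add h (ih (by omega) fun m hm => hG m (by omega)) (rk_mul h (rk_mul h
      (rk_c h (sg (M + (a * M + bn M 2)) (bn k M)) rfl) (pw_rk h hp (a * M + bn M 2)))
      (hG M (by omega)))
    rw [sum_range_succ, show (k.choose M : ℝ) * ((-(-ee x) ^ a) ^ M * (-ee x) ^ M.choose 2 * G' M) =
      (sg (M + (a * M + bn M 2)) (bn k M) : ℝ) * ee x ^ (a * M + bn M 2) * G' M by
        rw [sg_eq, bn_two M (by omega), bn_eq k (by omega) M (by omega), neg_pow ((-ee x) ^ a),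
          ← pow_mul, neg_pow (ee x), neg_pow (ee x)]
        ring]
    simp only [trm, frc_eq] at this ⊢
    exact this

theorem trm_rk (h : Good c x s o) (hp : c.r.p = 0) {a : ℕ} {u : ℝ} (hu : (-ee x) ^ a = u) {k : ℕ}
    (hk : k ≤ 10) {G : ℕ → KP} {G' : ℕ → ℝ} (hG : ∀ m, RK c s o (G m) (G' m)) :
    RK c s o (trm c a k G (Nat.succ k)) (tr (-ee x) u k G') :=
  hu ▸ trm_sum h hp a hk _ le_rfl fun m _ => hG m

theorem tab_sound (f : ℕ → KP) (n : ℕ) : ∀ (i : ℕ) (k : List KP → Bool), tab f n i k = true →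
    ∃ l, (∀ j < n, gt l j = f (i + j)) ∧ k l = true := by
  induction n with
  | zero => exact fun _ _ h => ⟨[], fun _ h => by omega, h⟩
  | succ n ih =>
    intro i k h
    have e : tab f (n + 1) i k = tab f n (i + 1) fun l => k (f i :: l) := by
      simp only [tab, frc_eq, frK_eq]
    obtain ⟨l, h1, h2⟩ := ih _ _ (e ▸ h)
    refine ⟨_, fun j hj => ?_, h2⟩
    cases j with
    | zero => rfl
    | succ j => exact (h1 j (by omega)).trans (congrArg f (by omega))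

/-- The list stands for the first `M` values of `N`. -/
def Ag (c : Cx) (s o : ℝ) (l : List KP) (N : ℕ → ℝ) (M : ℕ) : Prop :=
  ∀ j < M, RK c s o (gt l j) (N j)

variable {l : List KP} {N : ℕ → ℝ} {M : ℕ}

theorem opT_sound (h : Good c x s o) (hp : c.r.p = 0) {a n : ℕ} {u : ℝ} (hu : (-ee x) ^ a = u)
    {w : List ℝ} (hl : Ag c s o l (vl (-ee x) w N) M) (h1 : n ≤ M) (h2 : n ≤ 11)
    {k : List KP → Bool} (hk : opT c a l n k = true) :
    ∃ l', Ag c s o l' (vl (-ee x) (u :: w) N) n ∧ k l' = true := by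
  obtain ⟨l', e, hk⟩ := tab_sound _ _ _ _ hk
  refine ⟨l', fun j hj => ?_, hk⟩
  rw [e j hj, Nat.zero_add]
  exact trm_rk h hp hu (by omega) fun m => hl (j - m) (by omega)

theorem nxt_sound (h : Good c x s o) (hp : c.r.p = 0) {d n : ℕ}
    (hl : Ag c s o l (Ps x (-ee x) (d + 2)) M) (h1 : n ≤ M) (h2 : n ≤ 11) {k : List KP → Bool}
    (hk : nxt c d l n k = true) :
    ∃ l', Ag c s o l' (Ps x (-ee x) (d + 1)) (n + 1) ∧ k l' = true := by
  obtain ⟨l', e, hk⟩ := tab_sound _ _ _ _ hk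
  refine ⟨_, fun j hj => ?_, hk⟩
  cases j with
  | zero => rw [Ps]; exact rk_c h 1 (by simp)
  | succ j =>
    rw [Ps, show gt (kc 1 :: l') (j + 1) = gt l' j from rfl, e j (by omega), Nat.zero_add]
    exact rk_mul h (rk_sub h (rk_c h (Int.ofNat d) (by simp)) h.hx)
      (trm_rk h hp (pow_one _) (by omega) fun m => hl (j - m) (by omega))

theorem rows_sound (h : Good c x s o) (hp : c.r.p = 0) (n : ℕ) (hn : n ≤ 11) :
    ∀ k : List KP → Bool, rows c n k = true →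
      ∃ l, Ag c s o l (Ps x (-ee x) (13 - n)) (n + 1) ∧ k l = true := by
  induction n with
  | zero =>
    refine fun k hk => ⟨_, fun j hj => ?_, hk⟩
    obtain rfl : j = 0 := by omega
    rw [Ps]; exact rk_c h 1 (by simp)
  | succ n ih =>
    intro k hk
    obtain ⟨l, h1, h2⟩ := ih (by omega) _ hk
    rw [show 13 - n = 11 - n + 2 by omega] at h1
    rw [show 13 - (n + 1) = 11 - n + 1 by omega]
    exact nxt_sound h hp h1 le_rfl hn h2

theorem twK_rk (h : Good c x s o) (hp : c.r.p = 0) {a n k k' : ℕ} {u : ℝ} (hu : (-ee x) ^ a = u)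
    (hl : Ag c s o l N M) (h1 : n < M) (h2 : k ≤ 10) (h3 : k' ≤ 10) :
    RK c s o (twK c a n k k' l) (two (-ee x) u (u * -ee x) k k' n N) :=
  trm_rk h hp hu h2 fun m => trm_rk h hp (by rw [← hu, ← pow_succ, ← pow_add]; rfl) h3
    fun m' => hl (n - m - m') (by omega)

theorem vecs_sound (h : Good c x s o) {k : List VK → List VK → Bool} (hk : vecs c k = true) :
    ∃ S S', (∀ u ∈ pA, ∃ t ∈ S, RV c s o t (fA x (-ee x) u)) ∧
      (∀ n ∈ [5, 6, 7], ∃ t ∈ S', RV c s o t (fB x (-ee x) n)) ∧ k S S' = true := by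
  unfold vecs at hk
  obtain ⟨hp, hk⟩ := Bool.and_eq_true_iff.1 hk
  replace hp : c.r.p = 0 := Nat.eq_of_beq_eq_true hp
  have p0 : (-ee x) ^ 0 = 1 := pow_zero _
  have p1 : (-ee x) ^ 1 = -ee x := pow_one _
  have p2 : (-ee x) ^ 2 = -ee x * -ee x := pow_two _
  have p3 : (-ee x) ^ 3 = -ee x * -ee x * -ee x := by ring
  obtain ⟨r4, a4, hk⟩ := rows_sound h hp 9 (by omega) _ hk
  obtain ⟨r3, a3, hk⟩ := nxt_sound h hp (d := 2) a4 le_rfl (by omega) hk
  obtain ⟨r2, a2, hk⟩ := nxt_sound h hp (d := 1) a3 (by omega) (by omega) hk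
  obtain ⟨r1, a1, hk⟩ := nxt_sound h hp (d := 0) a2 (by omega) (by omega) hk
  obtain ⟨u1, b1, hk⟩ := opT_sound h hp p1 (w := []) a3 le_rfl le_rfl hk
  obtain ⟨t11, b11, hk⟩ := opT_sound h hp p1 b1 le_rfl le_rfl hk
  obtain ⟨t1, c1, hk⟩ := opT_sound h hp p1 (w := []) a2 le_rfl le_rfl hk
  obtain ⟨t2, c2, hk⟩ := opT_sound h hp p2 (w := []) a2 le_rfl le_rfl hk
  obtain ⟨t3, c3, hk⟩ := opT_sound h hp p3 (w := []) a2 (by omega) (by omega) hk
  obtain ⟨t21, b21, hk⟩ := opT_sound h hp p2 b1 (by omega) (by omega) hk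
  obtain ⟨u2, b2, hk⟩ := opT_sound h hp p2 (w := []) a3 (by omega) (by omega) hk
  obtain ⟨t12, b12, hk⟩ := opT_sound h hp p1 b2 le_rfl (by omega) hk
  obtain ⟨v1, d1, hk⟩ := opT_sound h hp p1 (w := []) a4 (by omega) (by omega) hk
  obtain ⟨v2, d2, hk⟩ := opT_sound h hp p1 d1 le_rfl (by omega) hk
  obtain ⟨t111, d3, hk⟩ := opT_sound h hp p1 d2 le_rfl (by omega) hk
  obtain ⟨S, -, e, hk⟩ := mkL_sound (fun u t => RV c s o t (fA x (-ee x) u)) (fun u k hk => by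
    simp only [Bool.and_eq_true, Nat.ble_eq, kA, frK_eq] at hk
    obtain ⟨⟨⟨k1, k2⟩, k3⟩, hk⟩ := hk
    have z := twK_rk h hp p1 c1 (Nat.lt_succ_of_le k1) k2 k3
    refine nrm_sound h ?_ hk
    exact ⟨twK_rk h hp p0 b11 (Nat.lt_succ_of_le k1) k2 k3, z, z,
      twK_rk h hp p0 c2 (Nat.lt_succ_of_le k1) k2 k3,
      twK_rk h hp p2 a1 (Nat.lt_succ_of_le k1) k2 k3⟩) hk
  obtain ⟨S', -, e', hk⟩ := mkL_sound (fun n t => RV c s o t (fB x (-ee x) n)) (fun n k hk => by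
    simp only [Bool.and_eq_true, Nat.ble_eq, kB, frc_eq, frK_eq] at hk
    obtain ⟨k1, hk⟩ := hk
    have k2 : n - 2 ≤ 10 := by omega
    have k3 : n - 1 < 7 := by omega
    have k4 : n - 1 < 11 := by omega
    have k5 : 1 ≤ 10 := by omega
    have z := rk_add h (rk_mul h (rk_mul h h.hr h.hr) (twK_rk h hp p2 c1 k4 k5 k2))
      (rk_mul h h.hr (twK_rk h hp p1 c2 k4 k5 k2))
    have y0 : RK c s o (cx c 0) (0 - x) := rk_sub h (rk_c h 0 Int.cast_zero) h.hx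
    have y1 : RK c s o (cx c 1) (1 - x) := rk_sub h (rk_c h 1 Int.cast_one) h.hx
    have y2 : RK c s o (cx c 2) (2 - x) := rk_sub h (rk_c h 2 Int.cast_two) h.hx
    have z' := rk_sub h (rk_mul h y1 (twK_rk h hp p0 b21 k3 k5 k2)) z
    refine nrm_sound h ?_ hk
    simp only [R5, fB, wB, Nat.sub_eq]
    exact ⟨rk_sub h (rk_mul h y2 (twK_rk h hp p0 d3 k3 k5 k2))
      (rk_mul h (rk_mul h (rk_c h 3 Int.cast_three) h.hr) (twK_rk h hp p1 b11 k4 k5 k2)), z', z',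
      rk_sub h (rk_mul h y1 (twK_rk h hp p0 b12 k3 k5 k2)) z,
      rk_sub h (rk_mul h y0 (twK_rk h hp p0 c3 k3 k5 k2))
        (rk_mul h (rk_mul h (rk_mul h h.hr h.hr) h.hr)
          (twK_rk h hp p3 (N := vl _ [] _) a1 k4 k5 k2))⟩) hk
  exact ⟨S, S', e, e', hk⟩

/-- The vectors of the clusters. -/
def Vec (x : ℝ) (f : T5 ℝ) : Prop :=
  (∃ u ∈ pA, f = fA x (-ee x) u) ∨ ∃ n ∈ [5, 6, 7], f = fB x (-ee x) n

theorem chk1_sound (h : Good c x s o) (hk : chk1 c = true) {f : T5 ℝ} (hf : Vec x f) :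
    Cone x mK 8 false 0 f := by
  obtain ⟨S, S', e, e', hk⟩ := vecs_sound h hk
  obtain ⟨E, hE, hk⟩ := mkEB_sound h hk
  simp only [Bool.and_eq_true, allL_iff] at hk
  rcases hf with ⟨u, hu, rfl⟩ | ⟨u, hu, rfl⟩
  · obtain ⟨t, ht, k⟩ := e u hu
    exact tchk_sound h hE k (hk.1 t ht)
  · obtain ⟨t, ht, k⟩ := e' u hu
    exact tchk_sound h hE k (hk.2 t ht)

theorem chk2_sound (h : Good c x s o) {G : List (ℕ × ℕ × ℕ)} (hk : chk2 c G = true) {f : T5 ℝ}
    (hf : Vec x f) {r t : ℕ} (hx : XIn G mK r t) : 0 < pr f (gam (rOps x) r t) := by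
  obtain ⟨S, S', e, e', hk⟩ := vecs_sound h hk
  have k := hx _ hk
  rw [gamS_eq] at k
  obtain ⟨v, hv, k⟩ := nrm_sound h (h.hom.gam r t) k
  simp only [Bool.and_eq_true, allL_iff] at k
  rcases hf with ⟨u, hu, rfl⟩ | ⟨u, hu, rfl⟩
  · obtain ⟨t, ht, k'⟩ := e u hu
    exact prP_sound h k' hv (k.1 t ht)
  · obtain ⟨t, ht, k'⟩ := e' u hu
    exact prP_sound h k' hv (k.2 t ht)

end Pool.Agent.Lib.MP_efe3d7_co.J.Cl
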