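import Pool.Agent.Lib.MP_efe3d7_co.R1

/-! The value of a heavy clique joined to a hard clique. -/

set_option autoImplicit false

open Finset

namespace Pool.Agent.Lib.MP_efe3d7_co.J.Cl

variable {α : Type} [Fintype α] [DecidableEq α] {x r : ℝ} {S K : Finset α} {y : Sym2 α → ℝ}

/-- The sum over the number of vertices that get the colour of a fixed vertex. -/
noncomputable def tr (r u : ℝ) (k : ℕ) (G : ℕ → ℝ) : ℝ :=
  ∑ m ∈ range (k + 1), (k.choose m : ℝ) * ((-u) ^ m * r ^ m.choose 2 * G m)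

theorem tr_zero (u : ℝ) (G : ℕ → ℝ) : tr r u 0 G = G 0 := by simp [tr]

theorem tr_succ (u : ℝ) (k : ℕ) (G : ℕ → ℝ) :
    tr r u (k + 1) G = tr r u k G - u * tr r (u * r) k fun m => G (m + 1) := by
  have := sum_choose_succ_mul (fun m _ => (-u) ^ m * r ^ m.choose 2 * G m) k
  unfold tr
  rw [this, mul_sum, sub_eq_add_neg, ← sum_neg_distrib]
  refine congrArg _ (sum_congr rfl fun m _ => ?_)
  rw [Nat.choose_succ_succ' m 1, Nat.choose_one_right, ← neg_mul u r, mul_pow]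
  ring

theorem tr_congr {u : ℝ} {k : ℕ} {G G' : ℕ → ℝ} (h : ∀ m ≤ k, G m = G' m) :
    tr r u k G = tr r u k G' :=
  sum_congr rfl fun m hm => by rw [h m (Nat.le_of_lt_succ (mem_range.1 hm))]

theorem tr_mul (c u : ℝ) (k : ℕ) (G : ℕ → ℝ) : tr r u k (fun m => c * G m) = c * tr r u k G := by
  unfold tr
  rw [mul_sum]
  exact sum_congr rfl fun m _ => by ring

theorem ff_spl (hx : 0 < x) {V : Finset α} {u v : α} (hu : u ∈ V) (hv : v ∈ V) (huv : u ≠ v)
    (y : Sym2 α → ℝ) : ff x V y = ff x V (Function.update y s(u, v) 0) -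
      y s(u, v) * ff x (V.erase v) (mergeW y u v) := by
  rw [← Sv_merge hx hu hv huv]
  exact ff_self V y _

omit [Fintype α] in
theorem upd_ne {h u a b : α} (t : ℝ) (k : (a ≠ h ∧ b ≠ h) ∨ (a ≠ u ∧ b ≠ u)) :
    Function.update y s(h, u) t s(a, b) = y s(a, b) := by
  refine Function.update_of_ne (fun e => ?_) _ _
  rcases Sym2.eq_iff.1 e with e | e <;> rcases k with k | k <;> tauto

/-- A hard clique `S` and a heavy clique `K`. -/
structure St (r : ℝ) (S K : Finset α) (y : Sym2 α → ℝ) : Prop where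
  dis : ∀ a ∈ S, a ∉ K
  hard : ∀ a ∈ S, ∀ b ∈ S, a ≠ b → y s(a, b) = 0
  heavy : ∀ u ∈ K, ∀ v ∈ K, u ≠ v → y s(u, v) = r

omit [Fintype α] [DecidableEq α] in
theorem St.ne (s : St r S K y) {a u : α} (ha : a ∈ S) (hu : u ∈ K) : a ≠ u :=
  fun e => s.dis a ha (e ▸ hu)

omit [Fintype α] in
theorem hard_merge {h u : α} (s : ∀ a ∈ S, ∀ b ∈ S, a ≠ b → y s(a, b) = 0) :
    ∀ a ∈ S, ∀ b ∈ S, a ≠ b → mergeW y h u s(a, b) = 0 := fun a ha b hb k => by
  rw [mergeW_eq, s a ha b hb k, zero_mul]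

/-- The edges from `h` to `A` are resolved. -/
theorem hold (hx : 0 < x) {B : Finset α} {h : α} (hh : h ∈ S) {c : α → ℝ} {a b : ℝ} {n : ℕ}
    {N : ℕ → ℝ → ℝ} (hN : ∀ K y μ, K.card ≤ n → St r S K y →
      (∀ g ∈ S, g ≠ h → ∀ u ∈ K, y s(g, u) = c g) → B ⊆ K →
      (∀ u ∈ K, y s(h, u) = if u ∈ B then μ * b else 0) → ff x (S ∪ K) y = N K.card μ)
    (A : Finset α) : ∀ K y μ, K.card ≤ n → St r S K y →
      (∀ g ∈ S, g ≠ h → ∀ u ∈ K, y s(g, u) = c g) → B ⊆ K → A ⊆ K → (∀ u ∈ A, u ∉ B) →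
      (∀ u ∈ K, y s(h, u) = if u ∈ A then μ * a else if u ∈ B then μ * b else 0) →
      ff x (S ∪ K) y = tr r (μ * a) A.card fun m => N (K.card - m) (μ * r ^ m) := by
  induction A using Finset.induction_on with
  | empty =>
    intro K y μ h1 h2 h3 h4 _ _ h7
    rw [card_empty, tr_zero, hN K y μ h1 h2 h3 h4 (by simpa using h7)]
    simp
  | insert u A hu ih =>
    intro K y μ h1 h2 h3 h4 h5 h6 h7
    have uK : u ∈ K := h5 (mem_insert_self _ _)
    have uB : u ∉ B := h6 u (mem_insert_self _ _)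
    have hA : A ⊆ K := (subset_insert _ _).trans h5
    have h6' : ∀ v ∈ A, v ∉ B := fun v hv => h6 v (mem_insert_of_mem hv)
    have e : (S ∪ K).erase u = S ∪ K.erase u := by
      rw [erase_union_distrib, erase_eq_of_notMem fun k => h2.dis u k uK]
    rw [ff_spl hx (mem_union_left K hh) (mem_union_right S uK) (h2.ne hh uK), e,
      card_insert_of_notMem hu, tr_succ, h7 u uK, if_pos (mem_insert_self _ _),
      ih K _ μ h1 ⟨h2.dis, fun p hp q hq k => ?_, fun p hp q hq k => ?_⟩ (fun g hg k v hv => ?_)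
        h4 hA h6' fun v hv => ?_,
      ih (K.erase u) _ (μ * r) (card_erase_le.trans h1)
        ⟨fun g hg k => h2.dis g hg (mem_of_mem_erase k), hard_merge h2.hard, fun p hp q hq k => ?_⟩
        (fun g hg k v hv => ?_) (fun v hv => mem_erase.2 ⟨fun k => uB (k ▸ hv), h4 hv⟩)
        (fun v hv => mem_erase.2 ⟨fun k => hu (k ▸ hv), hA hv⟩) h6' fun v hv => ?_]
    · rw [card_erase_of_mem uK, mul_right_comm μ r a]
      simp only [Nat.sub_sub, pow_succ', mul_assoc, add_comm 1]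
    · rw [mergeW_of_ne _ _ (h2.ne hh (mem_of_mem_erase hp)).symm
        (h2.ne hh (mem_of_mem_erase hq)).symm]
      exact h2.heavy p (mem_of_mem_erase hp) q (mem_of_mem_erase hq) k
    · rw [mergeW_of_ne _ _ k (h2.ne hh (mem_of_mem_erase hv)).symm]
      exact h3 g hg k v (mem_of_mem_erase hv)
    · obtain ⟨k, hv⟩ := mem_erase.1 hv
      rw [mergeW_self, h7 v hv, h2.heavy u uK v hv k.symm]
      simp only [mem_insert, k, false_or]
      split_ifs <;> ring
    · rw [upd_ne _ (Or.inr ⟨h2.ne hp uK, h2.ne hq uK⟩)]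
      exact h2.hard p hp q hq k
    · rw [upd_ne _ (Or.inl ⟨(h2.ne hh hp).symm, (h2.ne hh hq).symm⟩)]
      exact h2.heavy p hp q hq k
    · rw [upd_ne _ (Or.inl ⟨k, (h2.ne hh hv).symm⟩)]
      exact h3 g hg k v hv
    · by_cases k : v = u
      · rw [k, Function.update_self, if_neg hu, if_neg uB]
      · rw [upd_ne _ (Or.inr ⟨h2.ne hh uK, k⟩), h7 v hv]
        simp only [mem_insert, k, false_or]

/-- The value of a hard clique. -/
noncomputable def cl (x : ℝ) (d : ℕ) : ℝ := ∏ i ∈ range d, ((i : ℝ) - 1 - x)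

theorem cl_succ (d : ℕ) : cl x (d + 1) = cl x d * (d - 1 - x) := prod_range_succ _ _

/-- The edges from the vertex `z` to the hard clique `S` are resolved. -/
theorem newh (hx : 0 < x) {V : Finset α} {z : α} (hS : S ⊆ V) (hz : z ∈ V) (zS : z ∉ S)
    {y₀ : Sym2 α → ℝ} {N : ℝ} {M : α → ℝ}
    (h0 : ∀ y, (∀ a b, (a ≠ z ∧ b ≠ z) ∨ (a ∉ S ∧ b ∉ S) → y s(a, b) = y₀ s(a, b)) →
      (∀ g ∈ S, y s(g, z) = 0) → ff x V y = N)
    (h1 : ∀ g ∈ S, ∀ y, (∀ a b, (a ≠ z ∧ b ≠ z) ∨ (a ∉ S ∧ b ∉ S) → y s(a, b) = y₀ s(a, b)) →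
      ff x (V.erase z) (mergeW y g z) = M g) (A : Finset α) :
    ∀ y, A ⊆ S → (∀ a b, (a ≠ z ∧ b ≠ z) ∨ (a ∉ S ∧ b ∉ S) → y s(a, b) = y₀ s(a, b)) →
      (∀ g ∈ S, g ∉ A → y s(g, z) = 0) → ff x V y = N - ∑ g ∈ A, y s(g, z) * M g := by
  induction A using Finset.induction_on with
  | empty => exact fun y _ k1 k2 => by rw [h0 y k1 fun g hg => k2 g hg (notMem_empty g)]; simp
  | insert g A hg ih =>
    intro y k0 k1 k2
    have gS : g ∈ S := k0 (mem_insert_self _ _)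
    have gz : g ≠ z := fun e => zS (e ▸ gS)
    have e : ∑ a ∈ A, Function.update y s(g, z) 0 s(a, z) * M a = ∑ a ∈ A, y s(a, z) * M a :=
      sum_congr rfl fun a ha => by rw [upd_ne _ (Or.inl ⟨ne_of_mem_of_not_mem ha hg, gz.symm⟩)]
    rw [ff_spl hx (hS gS) hz gz, h1 g gS y k1, sum_insert hg,
      ih _ ((subset_insert _ _).trans k0) (fun a b k => ?_) fun a ha k => ?_, e]
    · ring
    · rw [upd_ne _ (k.symm.imp (fun k => ⟨fun e => k.1 (e ▸ gS), fun e => k.2 (e ▸ gS)⟩) id),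
        k1 a b k]
    · by_cases e : a = g
      · rw [e, Function.update_self]
      · rw [upd_ne _ (Or.inl ⟨e, gz.symm⟩), k2 a ha (by simp [e, k])]

theorem ff_hard (hx : 0 < x) (S : Finset α) :
    ∀ y : Sym2 α → ℝ, (∀ a ∈ S, ∀ b ∈ S, a ≠ b → y s(a, b) = 0) → ff x S y = cl x S.card := by
  induction S using Finset.induction_on with
  | empty => exact fun y _ => by rw [ff_ones hx (by simp)]; simp [cl]
  | insert z S hz ih =>
    intro y hy
    have hy' : ∀ a ∈ S, ∀ b ∈ S, a ≠ b → y s(a, b) = 0 :=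
      fun a ha b hb => hy a (mem_insert_of_mem ha) b (mem_insert_of_mem hb)
    have n : ∀ a ∈ S, a ≠ z := fun a ha e => hz (e ▸ ha)
    let y₁ : Sym2 α → ℝ := fun e => if z ∈ e then 1 else 0
    have e1 : ∀ a ∈ S, ∀ b ∈ S, y₁ s(a, b) = 0 := fun a ha b hb => by
      simp [y₁, (n a ha).symm, (n b hb).symm]
    have e2 : ∀ a, y₁ s(a, z) = 1 := fun a => by simp [y₁]
    have k := newh hx (subset_insert z S) (mem_insert_self z S) hz (y₀ := y₁)
      (N := ff x (insert z S) y) (M := fun _ => cl x S.card)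
      (fun y' k1 k2 => ff_congr fun a ha b hb k => ?_) (fun g hg y' k1 => ?_) S y₁ subset_rfl
      (fun _ _ _ => rfl) fun g hg k => (k hg).elim
    · rw [ff_isolated hx hz fun v _ => by rw [Sym2.eq_swap, e2], ih y₁ fun a ha b hb _ => e1 a ha b hb]
        at k
      simp only [e2, one_mul, sum_const, nsmul_eq_mul] at k
      rw [card_insert_of_notMem hz, cl_succ]
      linarith
    · rw [hy a ha b hb k]
      rcases mem_insert.1 ha with rfl | ha'
      · rw [Sym2.eq_swap, k2 b ((mem_insert.1 hb).resolve_left k.symm)]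
      rcases mem_insert.1 hb with rfl | hb'
      · exact k2 a ha'
      · rw [k1 a b (Or.inl ⟨n a ha', n b hb'⟩), e1 a ha' b hb']
    · rw [erase_insert hz]
      exact ih _ (hard_merge fun a ha b hb _ => by
        rw [k1 a b (Or.inl ⟨n a ha, n b hb⟩), e1 a ha b hb])

end Pool.Agent.Lib.MP_efe3d7_co.J.Cl
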