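import Pool.Agent.Lib.MP_efe3d7_co.J.CV1

/-! Closed formulas for cliques joined to at most four vertices. -/

set_option autoImplicit false

open Finset

namespace Pool.Agent.Lib.MP_efe3d7_co.J.Cl

variable {α : Type} [Fintype α] [DecidableEq α] {x r : ℝ} {S K : Finset α} {y : Sym2 α → ℝ}
  {P : ℕ → ℕ → ℝ}

/-- The table of the values when all edges between the cliques are hard. -/
structure Tb (x r : ℝ) (P : ℕ → ℕ → ℝ) : Prop where
  zero : ∀ d, P d 0 = 1
  succ : ∀ d n, d + n < 13 → n < 10 →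
    P d (n + 1) = (d - 1 - x) * tr r r n fun m => P (d + 1) (n - m)

theorem val0 (hx : 0 < x) (t : Tb x r P) (n : ℕ) : ∀ (S K : Finset α) (y : Sym2 α → ℝ),
    K.card ≤ n → S.card + K.card ≤ 13 → K.card ≤ 10 → St r S K y →
    (∀ g ∈ S, ∀ u ∈ K, y s(g, u) = 0) → ff x (S ∪ K) y = cl x S.card * P S.card K.card := by
  induction n with
  | zero =>
    intro S K y h1 _ _ s _
    rw [card_eq_zero.1 (Nat.le_zero.1 h1), union_empty, ff_hard hx S y s.hard, card_empty, t.zero,
      mul_one]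
  | succ n ih =>
    intro S K y h1 h2 h3 s h4
    rcases K.eq_empty_or_nonempty with rfl | ⟨u, hu⟩
    · exact ih S ∅ y (Nat.zero_le _) h2 h3 s h4
    have uS : u ∉ S := fun k => s.dis u k hu
    have c1 := card_erase_add_one hu
    have c2 := card_insert_of_notMem uS
    have e : S ∪ K = insert u S ∪ K.erase u := by
      rw [insert_union, ← union_insert, insert_erase hu]
    rw [e, hold hx (B := ∅) (mem_insert_self u S) (c := fun _ => 0) (a := r) (b := 0)
      (n := (K.erase u).card) (N := fun j _ => cl x (S.card + 1) * P (S.card + 1) j)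
      (fun K' y' μ k1 k2 k3 _ k5 => ?_) (K.erase u) (K.erase u) y 1 le_rfl
      ⟨fun g hg k => ?_, fun p hp q hq k => ?_,
        fun p hp q hq => s.heavy p (mem_of_mem_erase hp) q (mem_of_mem_erase hq)⟩
      (fun g hg k v hv => h4 g ((mem_insert.1 hg).resolve_left k) v (mem_of_mem_erase hv))
      (empty_subset _) subset_rfl (fun _ _ => notMem_empty _) fun v hv => ?_]
    · rw [tr_mul, one_mul, cl_succ, ← c1, t.succ _ _ (by omega) (by omega), mul_assoc]
    · rw [← c2]
      refine ih _ K' y' (by omega) (by omega) (by omega) k2 fun g hg v hv => ?_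
      by_cases k : g = u
      · rw [k, k5 v hv, if_neg (notMem_empty _)]
      · exact k3 g hg k v hv
    · rcases mem_insert.1 hg with rfl | hg
      exacts [notMem_erase _ _ k, s.dis g hg (mem_of_mem_erase k)]
    · rcases mem_insert.1 hp with rfl | hp'
      · rw [Sym2.eq_swap, h4 q ((mem_insert.1 hq).resolve_left k.symm) p hu]
      rcases mem_insert.1 hq with rfl | hq'
      exacts [h4 p hp' q hu, s.hard p hp' q hq' k]
    · rw [if_pos hv, one_mul, s.heavy u hu v (mem_of_mem_erase hv) (mem_erase.1 hv).1.symm]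

/-- The values for a list of weights. -/
noncomputable def vl (r : ℝ) : List ℝ → (ℕ → ℝ) → ℕ → ℝ
  | [], N, n => N n
  | u :: l, N, n => tr r u n fun m => vl r l N (n - m)

theorem valP (hx : 0 < x) (t : Tb x r P) (h3 : S.card ≤ 3 ∨ (S.card ≤ 4 ∧ K.card ≤ 9))
    (c : α → ℝ) (L : List α) : ∀ (K' : Finset α) (y : Sym2 α → ℝ), L.Nodup → (∀ g ∈ L, g ∈ S) →
    K'.card ≤ K.card → K.card ≤ 10 → St r S K' y →
    (∀ g ∈ S, ∀ u ∈ K', y s(g, u) = if g ∈ L then c g else 0) →
    ff x (S ∪ K') y = cl x S.card * vl r (L.map c) (P S.card) K'.card := by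
  induction L with
  | nil =>
    exact fun K' y _ _ h1 h2 s h4 => val0 hx t _ S K' y le_rfl (by omega) (by omega) s
      (by simpa using h4)
  | cons h L ih =>
    intro K' y nd hL h1 h2 s h4
    obtain ⟨n1, n2⟩ := List.nodup_cons.1 nd
    rw [hold hx (B := ∅) (hL h List.mem_cons_self) (c := fun g => if g ∈ L then c g else 0)
      (a := c h) (b := 0) (n := K.card)
      (N := fun j _ => cl x S.card * vl r (L.map c) (P S.card) j)
      (fun K'' y' μ k1 k2 k3 _ k5 => ?_) K' K' y 1 h1 s (fun g hg k u hu => ?_)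
      (empty_subset _) subset_rfl (fun _ _ => notMem_empty _) fun v hv => ?_]
    · rw [tr_mul, one_mul]
      rfl
    · refine ih K'' y' n2 (fun g hg => hL g (List.mem_cons_of_mem _ hg)) k1 h2 k2 fun g hg v hv => ?_
      by_cases k : g = h
      · rw [k, k5 v hv, if_neg (notMem_empty _), if_neg n1]
      · exact k3 g hg k v hv
    · rw [h4 g hg u hu]
      simp only [List.mem_cons, k, false_or]
    · rw [if_pos hv, one_mul, h4 h (hL h List.mem_cons_self) v hv, if_pos List.mem_cons_self]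

/-- A vertex with two kinds of edges. -/
noncomputable def two (r a b : ℝ) (k k' n : ℕ) (N : ℕ → ℝ) : ℝ :=
  tr r a k fun m => tr r (r ^ m * b) k' fun m' => N (n - m - m')

theorem valA (hx : 0 < x) (t : Tb x r P) (h3 : S.card ≤ 3 ∨ (S.card ≤ 4 ∧ K.card ≤ 9))
    (h2 : K.card ≤ 10) {c : α → ℝ} {L : List α} (nd : L.Nodup) (hL : ∀ g ∈ L, g ∈ S) {h : α}
    (hh : h ∈ S) (hn : h ∉ L) (hS : ∀ g ∈ S, g ≠ h → g ∈ L) (s : St r S K y)
    (hc : ∀ g ∈ L, ∀ u ∈ K, y s(g, u) = c g) {A B : Finset α} (hA : A ⊆ K) (hB : B ⊆ K)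
    (hAB : ∀ u ∈ A, u ∉ B) {a b : ℝ}
    (hy : ∀ u ∈ K, y s(h, u) = if u ∈ A then a else if u ∈ B then b else 0) :
    ff x (S ∪ K) y =
      cl x S.card * two r a b A.card B.card K.card (vl r (L.map c) (P S.card)) := by
  rw [hold hx (B := B) hh (c := c) (a := a) (b := b) (n := K.card)
    (N := fun j μ => cl x S.card * tr r (μ * b) B.card fun m => vl r (L.map c) (P S.card) (j - m))
    (fun K' y' μ k1 k2 k3 k4 k5 => ?_) A K y 1 le_rfl s (fun g hg k => hc g (hS g hg k)) hB hA hAB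
    (by simpa using hy)]
  · rw [tr_mul]
    simp only [one_mul, two]
  · rw [hold hx (B := ∅) hh (c := c) (a := b) (b := 0) (n := K.card)
      (N := fun j _ => cl x S.card * vl r (L.map c) (P S.card) j)
      (fun K'' y'' _ j1 j2 j3 _ j5 => ?_) B K' y' μ k1 k2 k3 (empty_subset _) k4
      (fun _ _ => notMem_empty _) (by simpa using k5), tr_mul]
    refine valP hx t h3 c L K'' y'' nd hL j1 h2 j2 fun g hg v hv => ?_
    by_cases k : g = h
    · rw [k, j5 v hv, if_neg (notMem_empty _), if_neg hn]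
    · rw [if_pos (hS g hg k), j3 g hg k v hv]

theorem valB (hx : 0 < x) (t : Tb x r P) (h2 : K.card ≤ 10) {c : α → ℝ} {L : List α}
    (nd : L.Nodup) (h3 : L.length ≤ 3) (dis : ∀ g ∈ L, g ∉ K)
    (hard : ∀ a ∈ L, ∀ b ∈ L, a ≠ b → y s(a, b) = 0) (hc : ∀ g ∈ L, ∀ u ∈ K, y s(g, u) = c g)
    {z p : α} (hz : z ∈ K) (hp : p ∈ K) (zp : z ≠ p)
    (h1 : ∀ u ∈ K, ∀ v ∈ K, u ≠ z → v ≠ z → u ≠ v → y s(u, v) = r)
    (h4 : ∀ u ∈ K, u ≠ z → y s(z, u) = if u = p then 1 else r) :
    ff x (L.toFinset ∪ K) y = cl x L.length * ((L.length - 1 - x) *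
      two r 1 r 1 (K.card - 2) (K.card - 1) (vl r (L.map c) (P (L.length + 1))) -
      (L.map fun g => c g * two r (c g) (c g * r) 1 (K.card - 2) (K.card - 1)
        (vl r ((L.erase g).map c) (P L.length))).sum) := by
  have m : ∀ {g}, g ∈ L.toFinset ↔ g ∈ L := List.mem_toFinset
  have zS : z ∉ L.toFinset := fun k => dis z (m.1 k) hz
  have nz : ∀ g ∈ L, g ≠ z := fun g hg e => dis g hg (e ▸ hz)
  have nS : ∀ u ∈ K, u ∉ L.toFinset := fun u hu k => dis u (m.1 k) hu
  have c0 := List.toFinset_card_of_nodup nd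
  have c1 := card_erase_of_mem hz
  have c2 := card_insert_of_notMem zS
  have pK : p ∈ K.erase z := mem_erase.2 ⟨zp.symm, hp⟩
  have c3 : ((K.erase z).erase p).card = K.card - 2 := by rw [card_erase_of_mem pK, c1]; rfl
  have sA : ({p} : Finset α) ⊆ K.erase z := singleton_subset_iff.2 pK
  have dAB : ∀ u ∈ ({p} : Finset α), u ∉ (K.erase z).erase p := fun u hu => by
    rw [mem_singleton.1 hu]; exact notMem_erase _ _
  have wz : ∀ (w : ℝ), ∀ u ∈ K.erase z, w * y s(z, u) =
      if u ∈ ({p} : Finset α) then w else if u ∈ (K.erase z).erase p then w * r else 0 := by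
    intro w u hu
    rw [h4 u (mem_of_mem_erase hu) (mem_erase.1 hu).1]
    by_cases k : u = p <;> simp [k, hu]
  rw [newh hx subset_union_left (mem_union_right _ hz) zS (y₀ := y)
    (N := cl x (L.length + 1) *
      two r 1 r 1 (K.card - 2) (K.card - 1) (vl r (L.map c) (P (L.length + 1))))
    (M := fun g => cl x L.length * two r (c g) (c g * r) 1 (K.card - 2) (K.card - 1)
      (vl r ((L.erase g).map c) (P L.length)))
    (fun y' k1 k2 => ?_) (fun g hg y' k1 => ?_) _ y subset_rfl (fun _ _ _ => rfl)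
    fun g hg k => (k hg).elim]
  · rw [← List.sum_toFinset _ nd, cl_succ, mul_assoc, mul_sub (cl x _), mul_sum]
    exact congrArg _ (sum_congr rfl fun g hg => by rw [hc g (m.1 hg) z hz]; ring)
  · have e : L.toFinset ∪ K = insert z L.toFinset ∪ K.erase z := by
      rw [insert_union, ← union_insert, insert_erase hz]
    rw [e, valA hx t (by omega) (by omega) (c := c) nd (fun g hg => mem_insert_of_mem (m.2 hg))
      (mem_insert_self z _) (fun k => zS (m.2 k))
      (fun g hg k => m.1 ((mem_insert.1 hg).resolve_left k))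
      ⟨fun g hg k => ?_, fun a ha b hb k => ?_, fun u hu v hv k => ?_⟩ (fun g hg u hu => ?_) sA
      (erase_subset _ _) dAB (a := 1) (b := r) fun u hu => ?_, c2, c0, c1, c3, card_singleton]
    · rcases mem_insert.1 hg with rfl | hg
      exacts [notMem_erase _ _ k, nS g (mem_of_mem_erase k) hg]
    · rcases mem_insert.1 ha with rfl | ha'
      · rw [Sym2.eq_swap, k2 b ((mem_insert.1 hb).resolve_left k.symm)]
      rcases mem_insert.1 hb with rfl | hb'
      · exact k2 a ha'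
      · rw [k1 a b (Or.inl ⟨nz a (m.1 ha'), nz b (m.1 hb')⟩), hard a (m.1 ha') b (m.1 hb') k]
    · obtain ⟨u1, u2⟩ := mem_erase.1 hu
      obtain ⟨v1, v2⟩ := mem_erase.1 hv
      rw [k1 u v (Or.inl ⟨u1, v1⟩), h1 u u2 v v2 u1 v1 k]
    · rw [k1 g u (Or.inl ⟨nz g hg, (mem_erase.1 hu).1⟩), hc g hg u (mem_of_mem_erase hu)]
    · rw [k1 z u (Or.inr ⟨zS, nS u (mem_of_mem_erase hu)⟩), ← one_mul (y _), wz 1 u hu, one_mul]
  · have e : (L.toFinset ∪ K).erase z = L.toFinset ∪ K.erase z := by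
      rw [erase_union_distrib, erase_eq_of_notMem zS]
    have ng : ∀ u ∈ K.erase z, u ≠ g := fun u hu e => nS u (mem_of_mem_erase hu) (e ▸ hg)
    rw [e, valA hx t (by omega) (by omega) (c := c) (nd.erase g)
      (fun a ha => m.2 (List.mem_of_mem_erase ha)) hg nd.not_mem_erase
      (fun a ha k => (List.mem_erase_of_ne k).2 (m.1 ha))
      ⟨fun a ha k => nS a (mem_of_mem_erase k) ha, hard_merge fun a ha b hb k => ?_,
        fun u hu v hv k => ?_⟩ (fun a ha u hu => ?_) sA
      (erase_subset _ _) dAB (a := c g) (b := c g * r) fun u hu => ?_, c0, c1, c3, card_singleton]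
    · rw [k1 a b (Or.inl ⟨nz a (m.1 ha), nz b (m.1 hb)⟩), hard a (m.1 ha) b (m.1 hb) k]
    · obtain ⟨u1, u2⟩ := mem_erase.1 hu
      obtain ⟨v1, v2⟩ := mem_erase.1 hv
      rw [mergeW_of_ne _ _ (ng u hu) (ng v hv), k1 u v (Or.inl ⟨u1, v1⟩), h1 u u2 v v2 u1 v1 k]
    · obtain ⟨a1, a2⟩ := nd.mem_erase_iff.1 ha
      rw [mergeW_of_ne _ _ a1 (ng u hu), k1 a u (Or.inl ⟨nz a a2, (mem_erase.1 hu).1⟩),
        hc a a2 u (mem_of_mem_erase hu)]
    · rw [mergeW_self, k1 g u (Or.inl ⟨nz g (m.1 hg), (mem_erase.1 hu).1⟩),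
        k1 z u (Or.inr ⟨zS, nS u (mem_of_mem_erase hu)⟩), hc g (m.1 hg) u (mem_of_mem_erase hu),
        wz _ u hu]

end Pool.Agent.Lib.MP_efe3d7_co.J.Cl
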