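import Pool.Agent.Lib.MP_efe3d7_co.J.CV2

/-! A network on three terminals is determined by its closed values. -/

set_option autoImplicit false

open Finset

namespace Pool.Agent.Lib.MP_efe3d7_co.J.Cl

variable {α : Type} [Fintype α] [DecidableEq α] {x r : ℝ} {U K : Finset α} {y : Sym2 α → ℝ}

theorem glue5 (hx : 0 < x) (x1 : x < 1) {p a b : α} (pa : p ≠ a) (pb : p ≠ b) (ab : a ≠ b)
    (hp : p ∈ U) (ha : a ∈ U) (hb : b ∈ U) (dis : ∀ u ∈ K, u ∉ U)
    (far : ∀ u ∈ K, ∀ v ∈ U, v ≠ p → v ≠ a → v ≠ b → y s(u, v) = 1)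
    (ya : ∀ u ∈ K, y s(a, u) = r) (yb : ∀ u ∈ K, y s(b, u) = r) {val : ℝ → List ℝ → ℝ}
    (hv : ∀ (L : List α) (c : α → ℝ) (e : ℝ) (y' : Sym2 α → ℝ), (p :: L).Nodup → L.length ≤ 2 →
      (∀ g ∈ p :: L, g ∉ K) → (∀ g ∈ p :: L, ∀ g' ∈ p :: L, g ≠ g' → y' s(g, g') = 0) →
      (∀ u ∈ K, ∀ v ∈ K, y' s(u, v) = y s(u, v)) → (∀ u ∈ K, y' s(p, u) = e * y s(p, u)) →
      (∀ g ∈ L, ∀ u ∈ K, y' s(g, u) = c g) →
      ff x ((p :: L).toFinset ∪ K) y' = cl x (L.length + 1) * val e (L.map c))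
    {β₀ β₁ β₂ β₃ β₄ : ℝ} (hf : Form x U y p a b β₀ β₁ β₂ β₃ β₄) :
    ff x (K ∪ U) y = val 1 [r, r] * β₀ - val r [r] * y s(p, a) * β₁ - val r [r] * y s(p, b) * β₂ -
      val 1 [r * r] * y s(a, b) * β₃ - val (r * r) [] * (y s(p, a) * y s(p, b) * y s(a, b)) * β₄ := by
  obtain ⟨D, E, W, M, A, g⟩ := exists_glue hx pa pb ab K y
  have np : ∀ u ∈ K, u ≠ p := fun u hu e => dis u hu (e ▸ hp)
  have na : ∀ u ∈ K, u ≠ a := fun u hu e => dis u hu (e ▸ ha)
  have nb : ∀ u ∈ K, u ≠ b := fun u hu e => dis u hu (e ▸ hb)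
  have pK : p ∉ K := fun k => dis p k hp
  have aK : a ∉ K := fun k => dis a k ha
  have bK : b ∉ K := fun k => dis b k hb
  have F : ∀ t₁ t₂ t₃, ff x ({p, a, b} ∪ K) (set3 y p a b t₁ t₂ t₃) =
      D * ((1 + x) * x * (1 - x)) - E * t₁ * ((1 + x) * x) - W * t₂ * ((1 + x) * x) -
        M * t₃ * ((1 + x) * x) - A * (t₁ * t₂ * t₃) * (1 + x) := fun t₁ t₂ t₃ => by
    rw [union_comm, g {p, a, b} _ _ _ _ _ _ (disjoint_left.2 fun u hu => by
        simp [np u hu, na u hu, nb u hu]) (by simp) (by simp) (by simp)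
      (fun u _ v hv h1 h2 h3 => by simp [h1, h2, h3] at hv)
      (fun u hu v _ => set3_out y (np u hu) (na u hu) (nb u hu) _ _ _ v) (form_three hx _ pa pb ab),
      set3_ra, set3_rb y ab, set3_ab y pa pb]
  have o : ∀ t₁ t₂ t₃, ∀ u ∈ K, ∀ v, set3 y p a b t₁ t₂ t₃ s(v, u) = y s(v, u) :=
    fun _ _ _ u hu v => set3_out' y (np u hu) (na u hu) (nb u hu) _ _ _ v
  have s1 : s(p, a) ≠ s(p, b) := by simp [ab, pb]
  have s2 : s(p, a) ≠ s(a, b) := by simp [pa, pb]
  have s3 : s(p, b) ≠ s(a, b) := by simp [pa, pb]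
  have G : ∀ {u v : α} {t₁ t₂ t₃ t₁' t₂' t₃' : ℝ}, u ∈ ({p, a, b} : Finset α) →
      v ∈ ({p, a, b} : Finset α) → u ≠ v → set3 y p a b t₁ t₂ t₃ s(u, v) = 0 →
      Function.update (set3 y p a b t₁ t₂ t₃) s(u, v) 1 = set3 y p a b t₁' t₂' t₃' →
      ff x (({p, a, b} ∪ K).erase v) (mergeW (set3 y p a b t₁ t₂ t₃) u v) =
        ff x ({p, a, b} ∪ K) (set3 y p a b t₁ t₂ t₃) -
          ff x ({p, a, b} ∪ K) (set3 y p a b t₁' t₂' t₃') := fun hu hv k e e' => by
    rw [ff_del hx (mem_union_left K hu) (mem_union_left K hv) k, e, e']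
    ring
  have u1 : ∀ t₂ t₃, Function.update (set3 y p a b 0 t₂ t₃) s(p, a) 1 = set3 y p a b 1 t₂ t₃ :=
    fun _ _ => funext fun e => by
      by_cases k : e = s(p, a) <;> simp [set3, k]
  have u2 : Function.update (set3 y p a b 0 0 0) s(p, b) 1 = set3 y p a b 0 1 0 :=
    funext fun e => by
      by_cases k : e = s(p, b) <;> simp [set3, k, s1.symm]
  have u3 : Function.update (set3 y p a b 0 0 0) s(a, b) 1 = set3 y p a b 0 0 1 :=
    funext fun e => by
      by_cases k : e = s(a, b) <;> simp [set3, k, s2.symm, s3.symm]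
  have ea : ({p, a, b} ∪ K).erase a = [p, b].toFinset ∪ K := by
    ext z; by_cases k : z = a <;> simp [k, pa.symm, ab, aK]
  have eb : ({p, a, b} ∪ K).erase b = [p, a].toFinset ∪ K := by
    ext z; by_cases k : z = b <;> simp [k, pb.symm, ab.symm, bK]
  have ec : ([p, b].toFinset ∪ K).erase b = [p].toFinset ∪ K := by
    ext z; by_cases k : z = b <;> simp [k, pb.symm, bK]
  have c1 : cl x 1 = -(1 + x) := by simp [cl]; ring
  have c2 : cl x 2 = (1 + x) * x := by simp [cl, prod_range_succ]; ring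
  have c3 : cl x 3 = (1 + x) * x * (1 - x) := by simp [cl, prod_range_succ]; ring
  have z : ∀ u ∈ [p, a, b], ∀ v ∈ [p, a, b], u ≠ v → set3 y p a b 0 0 0 s(u, v) = 0 := by
    have := set3_ra y p a b 0 0 0
    have := set3_rb y ab (r := p) 0 0 0
    have := set3_ab y pa pb 0 0 0
    simp only [List.mem_cons, List.not_mem_nil, or_false]
    rintro u (rfl | rfl | rfl) v (rfl | rfl | rfl) k <;>
      first | exact (k rfl).elim | assumption | rwa [Sym2.eq_swap]
  have z' : ∀ {s t : α} {L : List α}, L ⊆ [p, a, b] → ∀ u ∈ L, ∀ v ∈ L, u ≠ v →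
      mergeW (set3 y p a b 0 0 0) s t s(u, v) = 0 := fun hL u hu v hv k => by
    rw [mergeW_eq, z u (hL hu) v (hL hv) k, zero_mul]
  have k0 := hv [a, b] (fun _ => r) 1 _ (by simp [pa, pb, ab]) (by simp) (by simp [pK, aK, bK]) z
    (fun u _ v hv => o _ _ _ v hv u) (fun u hu => by rw [o _ _ _ u hu, one_mul])
    (by simp only [List.mem_cons, List.not_mem_nil, or_false]
        rintro g (rfl | rfl) u hu <;> rw [o _ _ _ u hu]
        exacts [ya u hu, yb u hu])
  have k1 : ∀ y' : Sym2 α → ℝ, y' s(p, b) = 0 → (∀ u ∈ K, ∀ v,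
      y' s(v, u) = mergeW (set3 y p a b 0 0 0) p a s(v, u)) →
      ff x ([p, b].toFinset ∪ K) y' = (1 + x) * x * val r [r] := fun y' e e' => by
    rw [hv [b] (fun _ => r) r y' (by simp [pb]) (by simp) (by simp [pK, bK])
      (by simp [e, Sym2.eq_swap (a := b)])
      (fun u hu v hv => by rw [e' v hv, mergeW_of_ne _ _ (np u hu) (np v hv), o _ _ _ v hv])
      (fun u hu => by rw [e' u hu, mergeW_self, o _ _ _ u hu, o _ _ _ u hu, ya u hu, mul_comm])
      (fun g hg u hu => by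
        rw [List.mem_singleton.1 hg, e' u hu, mergeW_of_ne _ _ pb.symm (np u hu), o _ _ _ u hu,
          yb u hu]), ← c2]
    rfl
  have k2 := hv [a] (fun _ => r) r (mergeW (set3 y p a b 0 0 0) p b) (by simp [pa]) (by simp)
    (by simp [pK, aK]) (z' (by simp))
    (fun u hu v hv => by rw [mergeW_of_ne _ _ (np u hu) (np v hv), o _ _ _ v hv])
    (fun u hu => by rw [mergeW_self, o _ _ _ u hu, o _ _ _ u hu, yb u hu, mul_comm])
    (fun g hg u hu => by
      rw [List.mem_singleton.1 hg, mergeW_of_ne _ _ pa.symm (np u hu), o _ _ _ u hu, ya u hu])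
  have k3 := hv [a] (fun _ => r * r) 1 (mergeW (set3 y p a b 0 0 0) a b) (by simp [pa]) (by simp)
    (by simp [pK, aK]) (z' (by simp))
    (fun u hu v hv => by rw [mergeW_of_ne _ _ (na u hu) (na v hv), o _ _ _ v hv])
    (fun u hu => by rw [mergeW_of_ne _ _ pa (na u hu), o _ _ _ u hu, one_mul])
    (fun g hg u hu => by
      rw [List.mem_singleton.1 hg, mergeW_self, o _ _ _ u hu, o _ _ _ u hu, ya u hu, yb u hu])
  have m1 : ∀ u ∈ K, ∀ v, mergeW (set3 y p a b 0 1 1) p a s(v, u) =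
      mergeW (set3 y p a b 0 0 0) p a s(v, u) := fun u hu v => by
    by_cases k : v = p
    · simp only [k, mergeW_self, o _ _ _ u hu]
    · simp only [mergeW_of_ne _ _ k (np u hu), o _ _ _ u hu]
  have k4 := hv [] (fun _ => r) (r * r) (mergeW (mergeW (set3 y p a b 0 1 1) p a) p b) (by simp)
    (by simp) (by simp [pK]) (by simp)
    (fun u hu v hv => by simp only [mergeW_of_ne _ _ (np u hu) (np v hv), o _ _ _ v hv])
    (fun u hu => by
      simp only [mergeW_self, mergeW_of_ne _ _ pb.symm (np u hu), o _ _ _ u hu, ya u hu, yb u hu]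
      ring) (by simp)
  have g1 := G (by simp) (by simp) pa (set3_ra ..) (u1 0 0)
  have g2 := G (by simp) (by simp) pb (set3_rb y ab ..) u2
  have g3 := G (by simp) (by simp) ab (set3_ab y pa pb ..) u3
  have g4 := G (by simp) (by simp) pa (set3_ra ..) (u1 1 1)
  rw [ea, ff_spl hx (u := p) (v := b) (by simp) (by simp) pb, ec, k4, mergeW_self, set3_rb y ab,
    set3_ab y pa pb, k1 _ (Function.update_self ..) fun u hu v => by
      rw [upd_ne _ (by by_cases k : v = p <;> simp [k, np u hu, nb u hu, pb]), m1 u hu], F, F] at g4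
  rw [ea, k1 _ (z' (L := [p, b]) (by simp) p (by simp) b (by simp) pb) fun _ _ _ => rfl, F, F] at g1
  rw [eb, k2, F, F] at g2
  rw [eb, k3, F, F] at g3
  rw [show [p, a, b].toFinset = {p, a, b} by simp, F] at k0
  simp only [List.length_cons, List.length_nil, List.map_cons, List.map_nil, zero_add, Nat.reduceAdd,
    c1, c2, c3] at k0 g2 g3 g4
  have n1 : 1 + x ≠ 0 := by positivity
  have n2 : (1 + x) * x ≠ 0 := by positivity
  have n3 : (1 + x) * x * (1 - x) ≠ 0 := mul_ne_zero n2 (by linarith)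
  have d0 : val 1 [r, r] = D := mul_left_cancel₀ n3 (by linarith)
  have d1 : val r [r] = E := mul_left_cancel₀ n2 (by linarith)
  have d2 : val r [r] = W := mul_left_cancel₀ n2 (by linarith)
  have d3 : val 1 [r * r] = M := mul_left_cancel₀ n2 (by linarith)
  have d4 : val (r * r) [] = A := mul_left_cancel₀ n1 (by rw [d1] at g4; linarith)
  rw [g U y _ _ _ _ _ (disjoint_left.2 dis) hp ha hb far (fun _ _ _ _ => rfl) hf, d0, d3, d4, ← d1,
    ← d2]

end Pool.Agent.Lib.MP_efe3d7_co.J.Cl
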