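import Pool.Agent.Lib.MP_efe3d7_co.J.CfD
import Pool.Agent.Lib.MP_efe3d7_co.H.Bit3

/-! The masks of positions. -/

set_option autoImplicit false

open Finset

namespace Pool.Agent.Lib.MP_efe3d7_co.J

open H

theorem cf_shl (x k q : ℕ) : tb (Nat.shiftLeft x k) q = (decide (k ≤ q) && tb x (q - k)) := by
  simp only [tb_eq]
  exact Nat.testBit_shiftLeft x

theorem cf_shr (x k q : ℕ) : tb (Nat.shiftRight x k) q = tb x (k + q) := by
  simp only [tb_eq]
  exact Nat.testBit_shiftRight x

theorem cf_xor (a b i : ℕ) : tb (Nat.xor a b) i = (tb a i ^^ tb b i) := by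
  simp only [tb_eq]
  exact Nat.testBit_xor a b i

theorem cf_lor0 (a : ℕ) : Nat.lor 0 a = a := Nat.zero_or a

theorem cf_ON (q : ℕ) : tb cON q = decide (q < 65536) := by
  rw [cON, tb_ful]

theorem cf_MA (k n q : ℕ) : tb (cMA k n) q = (decide (q < 2 ^ n) && tb q k) := by
  induction n generalizing q with
  | zero =>
    have e : cMA k 0 = 0 := rfl
    rw [e, tb_zero]
    rcases q with _ | q
    · rw [tb_zero, Bool.and_false]
    · simp
  | succ n ih =>
    have e : cMA k (n + 1) = bif Nat.beq n k then Nat.shiftLeft (ful (bt k)) (bt k) else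
      frc (cMA k n) fun t => Nat.lor t (Nat.shiftLeft t (bt n)) := rfl
    have p2 : 2 ^ (n + 1) = 2 ^ n + 2 ^ n := by omega
    rw [e]
    cases h : Nat.beq n k
    · have hne := Nat.ne_of_beq_eq_false h
      rw [cond_false, frc_eq, tb_lor, cf_shl, ih, ih, bt_eq]
      by_cases h1 : q < 2 ^ n
      · have h2 : ¬ 2 ^ n ≤ q := by omega
        have h3 : q < 2 ^ (n + 1) := by omega
        simp [h1, h2, h3]
      obtain ⟨r, rfl⟩ := Nat.exists_eq_add_of_le (not_lt.1 h1)
      rw [Nat.add_sub_cancel_left]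
      by_cases h2 : r < 2 ^ n
      · have h3 : 2 ^ n + r < 2 ^ (n + 1) := by omega
        have h4 : tb (2 ^ n + r) k = tb r k := by
          simp only [tb_eq]
          rcases lt_or_gt_of_ne hne with c | c
          · have h5 : 2 ^ (n + 1) ≤ 2 ^ k := Nat.pow_le_pow_right (by norm_num) c
            rw [Nat.testBit_lt_two_pow (by omega), Nat.testBit_lt_two_pow (by omega)]
          · exact Nat.testBit_two_pow_add_gt c r
        simp [h2, h3, h4]
      · have h3 : ¬ 2 ^ n + r < 2 ^ (n + 1) := by omega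
        simp [h2, h3]
    · obtain rfl := Nat.eq_of_beq_eq_true h
      rw [cond_true, cf_shl, tb_ful, bt_eq, tb_eq]
      by_cases h1 : q < 2 ^ n
      · have h2 : ¬ 2 ^ n ≤ q := by omega
        simp [h2, Nat.testBit_lt_two_pow h1]
      by_cases h2 : q < 2 ^ (n + 1)
      · have h3 : q - 2 ^ n < 2 ^ n := by omega
        simp [h2, h3, not_lt.1 h1,
          Nat.testBit_of_two_pow_le_and_two_pow_add_one_gt (not_lt.1 h1) h2]
      · have h3 : ¬ q - 2 ^ n < 2 ^ n := by omega
        simp [h2, h3]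

theorem cf_MK (k q : ℕ) : tb (cMK k) q = (decide (q < 65536) && tb q k) := by
  rw [cMK, frc_eq, cf_lor0, cf_MA, show 2 ^ 16 = 65536 by norm_num]

theorem cf_MS (k q : ℕ) : tb (cMS k) q = (decide (q < 65536) && tb q (8 + k)) := cf_MK _ _

theorem cf_Un {n : ℕ} {f : ℕ → Bool} {g : ℕ → ℕ} {j : ℕ} (h : tb (cUn n f g) j = true) :
    ∃ i < n, f i = true ∧ tb (g i) j = true := by
  induction n with
  | zero =>
    have e : cUn 0 f g = 0 := rfl
    rw [e, tb_zero] at h
    cases h
  | succ n ih =>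
    have e : cUn (n + 1) f g = bif f n then Nat.lor (g n) (cUn n f g) else cUn n f g := rfl
    rw [e] at h
    have k : tb (cUn n f g) j = true → ∃ i < n + 1, f i = true ∧ tb (g i) j = true := fun h => by
      obtain ⟨i, h1, h2⟩ := ih h
      exact ⟨i, by omega, h2⟩
    cases hf : f n
    · rw [hf] at h
      exact k h
    · rw [hf, cond_true, tb_lor, Bool.or_eq_true] at h
      exact h.elim (fun h => ⟨n, by omega, hf, h⟩) k

theorem cf_EQ {s J q : ℕ} (h : tb (cEQ s J) q = true) : q < 65536 ∧ ∀ k < s, tb q k = tb J k := by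
  induction s with
  | zero =>
    have e : cEQ 0 J = cON := rfl
    rw [e, cf_ON] at h
    exact ⟨of_decide_eq_true h, nofun⟩
  | succ s ih =>
    have e : cEQ (s + 1) J = bif tb J s then Nat.land (cEQ s J) (cMK s) else
      frc (cEQ s J) fun t => df t (cMK s) := rfl
    rw [e, frc_eq] at h
    rw [Nat.forall_lt_succ_right]
    cases hJ : tb J s
    · rw [hJ, cond_false, tb_df, Bool.and_eq_true, cf_MK] at h
      obtain ⟨h1, h2⟩ := ih h.1
      exact ⟨h1, h2, by simpa [h1] using h.2⟩
    · rw [hJ, cond_true, tb_land, Bool.and_eq_true, cf_MK] at h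
      obtain ⟨h1, h2⟩ := ih h.1
      exact ⟨h1, h2, by simpa [h1] using h.2⟩

theorem cf_SB {s J q : ℕ} (h : tb (cSB s J) q = true) :
    q < 65536 ∧ ∀ k < s, tb q (8 + k) = true → tb J k = true := by
  induction s with
  | zero =>
    have e : cSB 0 J = cON := rfl
    rw [e, cf_ON] at h
    exact ⟨of_decide_eq_true h, nofun⟩
  | succ s ih =>
    have e : cSB (s + 1) J = bif tb J s then cSB s J else
      frc (cSB s J) fun t => df t (cMS s) := rfl
    rw [e, frc_eq] at h
    rw [Nat.forall_lt_succ_right]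
    cases hJ : tb J s
    · rw [hJ, cond_false, tb_df, Bool.and_eq_true, cf_MS] at h
      obtain ⟨h1, h2⟩ := ih h.1
      exact ⟨h1, h2, by simpa [h1] using h.2⟩
    · rw [hJ, cond_true] at h
      obtain ⟨h1, h2⟩ := ih h
      exact ⟨h1, h2, fun _ => rfl⟩

theorem cf_ZA {k t q : ℕ} (h : tb (cZA k t) q = true) : t ≤ cnt k fun i => tb q (8 + i) := by
  induction k generalizing t with
  | zero =>
    have e : cZA 0 t = bif Nat.beq t 0 then cON else 0 := rfl
    rw [e] at h
    cases ht : Nat.beq t 0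
    · rw [ht, cond_false, tb_zero] at h
      cases h
    · rw [Nat.eq_of_beq_eq_true ht]
      exact Nat.zero_le _
  | succ k ih =>
    have e : cZA (k + 1) t = Nat.lor (cZA k t)
      (frc (Nat.pred t) fun u => Nat.land (cMS k) (cZA k u)) := rfl
    have e2 : (cnt (k + 1) fun i => tb q (8 + i)) = bif tb q (8 + k) then
      Nat.succ (cnt k fun i => tb q (8 + i)) else cnt k fun i => tb q (8 + i) := rfl
    rw [e, frc_eq, tb_lor, tb_land, cf_MS] at h
    simp only [Bool.or_eq_true, Bool.and_eq_true] at h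
    rw [e2]
    rcases h with h | ⟨⟨-, h1⟩, h2⟩
    · have := ih h
      cases tb q (8 + k)
      · exact this
      · exact Nat.le_succ_of_le this
    · have := ih h2
      rw [h1, cond_true]
      rw [Nat.pred_eq_sub_one] at this
      omega

theorem cf_ZG {t q : ℕ} (h : tb (cZG t) q = true) : t ≤ cnt 8 fun i => tb q (8 + i) := by
  rw [cZG, frc_eq, cf_lor0] at h
  exact cf_ZA h

theorem cf_An {n : ℕ} {f : ℕ → Bool} {g : ℕ → ℕ} {q : ℕ} (h : tb (cAn n f g) q = true) :
    ∀ i < n, f i = true → tb (g i) q = true := by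
  induction n with
  | zero => exact nofun
  | succ n ih =>
    have e : cAn (n + 1) f g = bif f n then Nat.land (g n) (cAn n f g) else cAn n f g := rfl
    rw [e] at h
    rw [Nat.forall_lt_succ_right]
    cases hf : f n
    · rw [hf] at h
      exact ⟨ih h, nofun⟩
    · rw [hf, cond_true, tb_land, Bool.and_eq_true] at h
      exact ⟨ih h.2, fun _ => h.1⟩

theorem cf_SK {n q : ℕ} (h : tb (cSK n) q = true) : (bs 8 q).card < n := by
  have h0 : tb (cEQ 8 0) q = true → (bs 8 q).card = 0 := fun k =>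
    card_eq_zero.2 (eq_empty_of_forall_notMem fun i hi => by
      obtain ⟨h1, h2⟩ := mem_bs.1 hi
      rw [(cf_EQ k).2 i h1, tb_zero] at h2
      cases h2)
  rcases n with _ | _ | n
  · have e : cSK 0 = 0 := rfl
    rw [e, tb_zero] at h
    cases h
  · have := h0 h
    omega
  · have e1 : Nat.beq (n + 1 + 1) 0 = false := rfl
    have e2 : Nat.beq (n + 1 + 1) 1 = false := rfl
    rw [cSK, e1, e2, cond_false, cond_false, tb_lor, Bool.or_eq_true] at h
    rcases h with h | h
    · have := h0 h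
      omega
    obtain ⟨k, -, -, h1⟩ := cf_Un h
    have h2 : bs 8 q ⊆ {k} := fun i hi => by
      obtain ⟨h2, h3⟩ := mem_bs.1 hi
      rw [(cf_EQ h1).2 i h2, tb_bt] at h3
      exact mem_singleton.2 (of_decide_eq_true h3).symm
    have := card_le_card h2
    rw [card_singleton] at this
    omega

theorem cf_All {M q : ℕ} (h : cAll M = true) (hq : q < 65536) : tb M q = true := by
  have h1 := congrArg (fun z => tb z q) (Nat.eq_of_beq_eq_true h)
  simpa only [tb_land, cf_ON, hq, decide_true, Bool.true_and, Bool.true_eq] using h1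

theorem cf_PT : (allB 256 fun x => Nat.beq (hx cPT x) (pc 8 x)) = true := by decide +kernel

theorem cf_Pc {n : ℕ} (hn : n ≤ 8) : cPc (ful n) = pc n := by
  funext M
  have h1 : Nat.land M (ful n) < bt 8 := lt_bt fun i hi => by
    rw [tb_land, tb_ful, Bool.and_eq_true, decide_eq_true_eq] at hi
    omega
  rw [cPc, Nat.eq_of_beq_eq_true ((allB_iff _ _).1 cf_PT _ h1), pc_eq, pc_eq]
  congr 1
  ext i
  simp only [mem_bs, tb_land, tb_ful, Bool.and_eq_true, decide_eq_true_eq]
  exact ⟨fun h => ⟨h.2.2, h.2.1⟩, fun h => ⟨by omega, h.2, h.1⟩⟩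

theorem cf_Row (ct : ℕ) {i j : ℕ} (hj : j < i) (hi : i ≤ 8) : dig (cRow ct i) j = ty ct i j := by
  have e1 : dig (cRow ct i) j = (((ct >>> (48 * i)) % 2 ^ 24) >>> (3 * j)) % 2 ^ 3 := rfl
  have e2 : ty ct i j = (ct >>> (3 * px i j)) % 2 ^ 3 := rfl
  rw [e1, e2, bit2_px, if_neg (by omega)]
  refine Nat.eq_of_testBit_eq fun t => ?_
  simp only [Nat.testBit_mod_two_pow, Nat.testBit_shiftRight]
  by_cases ht : t < 3
  · have h1 : 3 * j + t < 24 := by omega
    have h2 : 48 * i + (3 * j + t) = 3 * (16 * i + j) + t := by omega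
    simp [ht, h1, h2]
  · simp [ht]

end Pool.Agent.Lib.MP_efe3d7_co.J
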