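import Pool.Agent.Lib.MP_efe3d7_co.J.Cf1
import Pool.Agent.Lib.MP_efe3d7_co.H.Imp

/-! The table of impossible labellings. -/

set_option autoImplicit false

open Finset

namespace Pool.Agent.Lib.MP_efe3d7_co.J

open H

variable {α : Type} [Fintype α] [DecidableEq α]

variable {m : Md} {p : Pre} {V : Finset α} {τ : Sym2 α → Fin 3} {E : Env α} {v : ℕ → α}

/-- The labellings given by the position `q` are impossible. -/
def CBad (p : Pre) (V : Finset α) (τ : Sym2 α → Fin 3) (E : Env α) (v : ℕ → α) (q o1 o : ℕ) :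
    Prop :=
  ∀ J1 JS : ℕ, (∀ i, tb J1 i = true ↔ i < p.s ∧ tb q i = true) →
    (∀ i, tb JS i = true ↔ i < p.s ∧ tb q (8 + i) = true) → ∀ o' ≤ o, ∀ O1 So : Finset α,
      ¬ Lab p V τ E v J1 JS o1 o' O1 So

omit [Fintype α] in
theorem CBad.mono {q o1 o o' : ℕ} (h : CBad p V τ E v q o1 o) (ho : o' ≤ o) :
    CBad p V τ E v q o1 o' := fun J1 JS h1 h2 t ht => h J1 JS h1 h2 t (ht.trans ho)

theorem cf_try (m : Md) (p : Pre) : cTry (pc p.n) (pc p.s) m p = tryC m p := rfl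

omit [Fintype α] in
theorem cf_try6 (hO : Ok m V τ E) (hP : PS m p V τ E v) {d6 J1 JS o1 o rd c : ℕ}
    {O1 So : Finset α} (h6 : ∀ i < p.n, tb d6 i = true → 6 ≤ ds V τ E (v i))
    (hL : Lab p V τ E v J1 JS o1 o O1 So)
    (hrd : rd = 0 ∨ (rd = 1 ∧ ∃ q ∈ So, ∀ i, tb J1 i = true → q ∉ nb V τ (v i)))
    (h : cTry6 (pc p.n) p d6 J1 JS o1 o rd c = true) : False := by
  simp only [cTry6, frc_eq, Bool.and_eq_true, Nat.ble_eq, Nat.beq_eq, nz_bit, tb_land] at h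
  obtain ⟨⟨⟨h0, h1⟩, i, e1, e2⟩, h3⟩ := h
  obtain ⟨bB, -, Br, Ur, adm, cov, -, -, cB', cU', mB, -⟩ := cand hO hP hL c false
    (J0 := Nat.land J1 (Nat.shiftRight c 1)) (fun i hi => by
      rw [tb_land, Bool.and_eq_true] at hi
      exact hi.1) hrd (fun _ k => by
      rw [k] at h0
      simpa using h0) rfl rfl
  simp only [Bool.false_eq_true, if_false, Nat.add_zero, h1] at cB' cU'
  have h2 := (mB i (bB i e1).1).2 e1
  have h4 : nb V τ (v i) ⊆ Ur := fun y hy => (cov _ h2 y hy).resolve_left fun k =>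
    (mem_nb.1 hy).2.1 (card_le_one.1 cB'.le _ k _ h2)
  have h5 := h6 i (bB i e1).1 e2
  rw [ds_Q (adm.1 h2)] at h5
  have h7 := h5.trans ((card_le_card h4).trans cU')
  revert h3 h7
  cases nz (df (Nat.land J1 (Nat.shiftRight c 1)) p.cl) <;> simp <;> omega

theorem cf_imp (hm : m.rl = true ∨ m.wm = true) (hO : Ok m V τ E) (hP : PS m p V τ E v)
    {d6 c J1 JS o1 o : ℕ} {O1 So : Finset α} (h6 : ∀ i < p.n, tb d6 i = true → 6 ≤ ds V τ E (v i))
    (hL : Lab p V τ E v J1 JS o1 o O1 So)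
    (h : cImp (pc p.n) (pc p.s) m p d6 c J1 JS o1 o = true) : False := by
  simp only [cImp, cNp, cNd, frc_eq, cf_try] at h
  rcases Bool.or_eq_true_iff.1 h with h | h
  · refine imp_sound hm hO hP hL (cs := [c]) ?_
    simp only [imp, frc_eq, List.any_cons, List.any_nil, Bool.or_false]
    rw [h, Bool.or_true]
  obtain ⟨-, So', hL'⟩ := imp_al hO hP hL
  refine cf_try6 hO hP h6 hL' ?_ h
  generalize (bif p.al then 0 else o) = o' at hL'
  have hQ : ∀ i < p.n, tb (Nat.lor (Nat.lor (df (ful p.n) (ful p.s)) p.lq) J1) i = true →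
      v i ∈ E.Q := by
    intro i hi h1
    simp only [tb_lor, tb_df, tb_ful, Bool.or_eq_true, Bool.and_eq_true, Bool.not_eq_true',
      decide_eq_false_iff_not, not_lt] at h1
    rcases h1 with (h1 | h1) | h1
    · exact (hP.int i hi h1.2).1
    · exact hP.lq i hi h1
    · exact (hL.j1 i h1).2
  have hnp := imp_np hO hP hQ
  generalize Nat.lor (Nat.lor (Nat.lor (Nat.lor (df (ful p.n) (ful p.s)) p.lq) J1) p.d4) _ = np
    at hnp
  generalize hr : (_ && !nz (df (df JS np) p.cl)) = r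
  cases r
  · exact Or.inl rfl
  simp only [Bool.and_eq_true, Bool.not_eq_true', Nat.ble_eq, Nat.beq_eq] at hr
  obtain ⟨⟨⟨⟨h3, h4⟩, h5⟩, h7⟩, h8⟩ := hr
  have h2 := hL.co1
  obtain ⟨y, hy⟩ := card_eq_one.1 (by omega : O1.card = 1)
  exact Or.inr ⟨rfl, imp_door hO hP hL' (hy ▸ mem_singleton_self y)
    ((imp_deg hO hP hL' hy rfl).trans h7) h4 h5 hnp h8⟩

theorem cf_hint (hm : m.rl = true ∨ m.wm = true) (hO : Ok m V τ E) (hP : PS m p V τ E v)
    {d6 h q : ℕ} (h6 : ∀ i < p.n, tb d6 i = true → 6 ≤ ds V τ E (v i))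
    (hh : cHint (pc p.n) (pc p.s) m p d6 h = true) (hq : tb (Nat.land
      (cEQ p.s (Nat.mod h 256)) (cSB p.s (Nat.mod (Nat.shiftRight h 8) 256))) q = true) :
    q < 65536 ∧ CBad p V τ E v q (Nat.mod (Nat.shiftRight h 16) 4)
      (Nat.mod (Nat.shiftRight h 18) 4) := by
  simp only [cHint, frc_eq, Bool.and_eq_true, Nat.blt_eq] at hh
  obtain ⟨⟨h1, h2⟩, h3⟩ := hh
  rw [tb_land, Bool.and_eq_true] at hq
  obtain ⟨q1, q2⟩ := cf_EQ hq.1
  obtain ⟨-, q3⟩ := cf_SB hq.2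
  generalize Nat.mod h 256 = A at h1 h3 q2
  generalize Nat.mod (Nat.shiftRight h 8) 256 = B at h2 h3 q3
  refine ⟨q1, fun J1 JS k1 k2 o' ho O1 So hL => ?_⟩
  have e : ∀ i, tb A i = true ↔ tb J1 i = true := fun i => by
    rw [k1]
    exact ⟨fun k => ⟨lt_of_tb h1 k, (q2 i (lt_of_tb h1 k)).trans k⟩,
      fun k => (q2 i k.1).symm.trans k.2⟩
  obtain rfl : A = J1 := Nat.eq_of_testBit_eq fun i => by
    rw [← tb_eq, ← tb_eq, Bool.eq_iff_iff, e]
  have e2 : ∀ i, tb JS i = true → tb B i = true := fun i k => q3 i ((k2 i).1 k).1 ((k2 i).1 k).2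
  refine cf_imp hm hO hP h6 (O1 := O1) (So := So) ⟨hL.j1, fun i k => lt_of_tb h2 k, hL.oQ, hL.so,
    hL.co1, hL.co.trans ho, fun y hy z hz => ?_, hL.nJ, fun i hi j hj ij k t => ?_, hL.adm⟩ h3
  · exact (hL.nO y hy z hz).imp_right (Or.imp_right fun ⟨i, a, b⟩ => ⟨i, a.imp_right (e2 i), b⟩)
  · exact (hL.nU i hi j hj ij k t).imp_right (e2 j)

/-- The table lists impossible labellings. -/
def CTab (p : Pre) (V : Finset α) (τ : Sym2 α → Fin 3) (E : Env α) (v : ℕ → α) (T : ℕ) : Prop :=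
  ∀ q o1 o, o1 < 4 → tb (cSl T (4 * o + o1)) q = true → CBad p V τ E v q o1 o

theorem cf_tab (hm : m.rl = true ∨ m.wm = true) (hO : Ok m V τ E) (hP : PS m p V τ E v)
    {d6 : ℕ} (h6 : ∀ i < p.n, tb d6 i = true → 6 ≤ ds V τ E (v i)) {hs : List ℕ}
    (hh : hs.all (cHint (pc p.n) (pc p.s) m p d6) = true) : CTab p V τ E v (cTab p.s hs) := by
  intro q o1 o h1 hq
  rw [cSl, tb_land, cf_ON, cf_shr, Bool.and_eq_true, decide_eq_true_eq] at hq
  obtain ⟨q1, q2⟩ := hq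
  induction hs with
  | nil =>
    have e : cTab p.s [] = 0 := rfl
    rw [e, tb_zero] at q2
    cases q2
  | cons h hs ih =>
    have e : cTab p.s (h :: hs) = Nat.lor (cHM p.s h) (cTab p.s hs) := rfl
    rw [List.all_cons, Bool.and_eq_true] at hh
    rw [e, tb_lor, Bool.or_eq_true] at q2
    refine q2.elim (fun k => ?_) (ih hh.2)
    rw [cHM, frc_eq, frc_eq, cf_shl, Bool.and_eq_true, decide_eq_true_eq] at k
    obtain ⟨k1, k2⟩ := k
    obtain ⟨k3, k4⟩ := cf_hint hm hO hP h6 hh.1 k2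
    have e1 : Nat.mod (Nat.shiftRight h 16) 16 = h / 65536 % 16 := by
      show h >>> 16 % 16 = _
      rw [Nat.shiftRight_eq_div_pow]
    have e2 : Nat.mod (Nat.shiftRight h 16) 4 = h / 65536 % 4 := by
      show h >>> 16 % 4 = _
      rw [Nat.shiftRight_eq_div_pow]
    have e3 : Nat.mod (Nat.shiftRight h 18) 4 = h / 262144 % 4 := by
      show h >>> 18 % 4 = _
      rw [Nat.shiftRight_eq_div_pow]
    rw [e1] at k1 k3 k4
    rw [e2, e3] at k4
    simp only [Nat.mul_eq] at k1 k3 k4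
    have e4 : h / 65536 % 16 = 4 * o + o1 := by omega
    have e5 : h / 65536 % 4 = o1 := by omega
    have e6 : h / 262144 % 4 = o := by omega
    rwa [e4, e5, e6, Nat.add_sub_cancel_left] at k4

omit [Fintype α] in
theorem cf_H {T : ℕ} (hT : CTab p V τ E v T) {q o1 d t : ℕ} (h1 : o1 < 4)
    (ht : (cnt 8 fun i => tb q (8 + i)) ≤ t + d) (hq : tb (cH T d o1) q = true) :
    CBad p V τ E v q o1 (2 - t) := by
  simp only [cH, tb_lor, tb_land (cZG _), Bool.or_eq_true, Bool.and_eq_true, Nat.add_eq] at hq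
  rcases hq with (⟨k1, k2⟩ | ⟨k1, k2⟩) | k2
  · have := cf_ZG k1
    exact (hT q o1 0 h1 (by simpa using k2)).mono (by omega)
  · have := cf_ZG k1
    exact (hT q o1 1 h1 k2).mono (by omega)
  · exact (hT q o1 2 h1 k2).mono (by omega)

omit [Fintype α] in
theorem cf_free (hO : Ok m V τ E) (hP : PS m p V τ E v) {q o1 o z : ℕ}
    (h2 : (cnt 8 fun i => tb q (8 + i)) < z)
    (h3 : ∀ k < 8, tb q k = true → tb q (8 + k) = true → False)
    (hq : tb (Nat.lor (Nat.lor cUT (cZG z)) (cUn p.s (tb p.lt) cMK)) q = true) :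
    CBad p V τ E v q o1 o := by
  simp only [tb_lor, Bool.or_eq_true] at hq
  rcases hq with (k | k) | k
  · obtain ⟨i, i1, -, i2⟩ := cf_Un k
    simp only [tb_land, cf_MK, cf_MS, Bool.and_eq_true] at i2
    exact (h3 i i1 i2.1.2 i2.2.2).elim
  · have := cf_ZG k
    omega
  · obtain ⟨i, i1, i2, i3⟩ := cf_Un k
    rw [cf_MK, Bool.and_eq_true] at i3
    exact fun J1 JS j1 _ o' _ O1 So hL =>
      hO.dis _ (hL.j1 i ((j1 i).2 ⟨i1, i3.2⟩)).2 (hP.lt i (i1.trans_le hP.sn) i2)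

omit [Fintype α] in
theorem cf_two (hO : Ok m V τ E) (hP : PS m p V τ E v) {T : ℕ} (hT : CTab p V τ E v T)
    {q o1 d t M0 M1 : ℕ} (h1 : o1 ≤ 2) (ht : (cnt 8 fun i => tb q (8 + i)) ≤ t + d)
    (h4 : o1 = 0 → tb M0 q = true → False) (h5 : o1 = 1 → tb M1 q = true → tb (cH T d 1) q = true)
    (hq : tb (Nat.land (Nat.lor M0 (cH T d 0))
      (bif p.al then cON else Nat.land M1 (cH T d 2))) q = true) :
    CBad p V τ E v q o1 (2 - t) := by
  rw [tb_land, tb_lor, Bool.and_eq_true, Bool.or_eq_true] at hq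
  obtain ⟨k1, k2⟩ := hq
  rcases Nat.eq_zero_or_pos o1 with rfl | h0
  · exact cf_H hT (by omega) ht (k1.resolve_left (h4 rfl))
  cases ha : p.al
  · rw [ha, cond_false, tb_land, Bool.and_eq_true] at k2
    obtain rfl | rfl : o1 = 1 ∨ o1 = 2 := by omega
    · exact cf_H hT (by omega) ht (h5 rfl k2.1)
    · exact cf_H hT (by omega) ht k2.2
  · exact fun J1 JS _ _ o' _ O1 So hL => h0.ne' ((imp_al hO hP hL).1 ha)

omit [Fintype α] in
theorem cf_good (hO : Ok m V τ E) (hP : PS m p V τ E v) {T : ℕ} (hT : CTab p V τ E v T)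
    {q o1 d t : ℕ} (h1 : o1 ≤ 2) (ht : (cnt 8 fun i => tb q (8 + i)) ≤ t + d) (h2 : t ≤ 2)
    (h3 : ∀ k < 8, tb q k = true → tb q (8 + k) = true → False)
    (h4 : o1 = 0 → ∃ k < 8, tb q k = true) (hq : tb (cGood p T d) q = true) :
    CBad p V τ E v q o1 (2 - t) := by
  rw [cGood, tb_lor, Bool.or_eq_true] at hq
  refine hq.elim (cf_free hO hP (by rw [Nat.add_eq]; omega) h3)
    (cf_two hO hP hT h1 ht (fun e k => ?_) fun _ k => k)
  obtain ⟨i, i1, i2⟩ := h4 e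
  rw [(cf_EQ k).2 i i1, tb_zero] at i2
  cases i2

omit [Fintype α] in
theorem cf_GT (hO : Ok m V τ E) (hP : PS m p V τ E v) {T : ℕ} (hT : CTab p V τ E v T)
    {q o1 e t : ℕ} (h1 : o1 ≤ 2) (ht : (cnt 8 fun i => tb q (8 + i)) ≤ t + 1) (h2 : t ≤ 2)
    (h3 : ∀ k < 8, tb q k = true → tb q (8 + k) = true → False)
    (h4 : o1 ≤ 1 → e + 1 ≤ (bs 8 q).card + o1) (hq : tb (cGT p T e) q = true) :
    CBad p V τ E v q o1 (2 - t) ∨
      (pc p.n p.lt = 3 ∧ ∀ k < p.n, tb p.lt k = true → tb q (8 + k) = true) := by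
  rw [cGT, tb_lor, tb_lor, Bool.or_eq_true, Bool.or_eq_true] at hq
  rcases hq with (k | k) | k
  · exact Or.inl (cf_free hO hP (by omega) h3 k)
  · cases c : Nat.beq (pc p.n p.lt) 3
    · rw [c, cond_false, tb_zero] at k
      cases k
    · rw [c, cond_true] at k
      refine Or.inr ⟨Nat.eq_of_beq_eq_true c, fun i i1 i2 => ?_⟩
      have := cf_An k i i1 i2
      rw [cf_MS, Bool.and_eq_true] at this
      exact this.2
  · refine Or.inl (cf_two hO hP hT h1 ht (fun c j => ?_) (fun c j => ?_) k)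
    · have := cf_SK j
      omega
    · rw [tb_lor, Bool.or_eq_true] at j
      refine j.resolve_left fun j => ?_
      have := cf_SK j
      omega

end Pool.Agent.Lib.MP_efe3d7_co.J
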