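import Pool.Agent.Lib.MP_efe3d7_co.J.Cf2
import Pool.Agent.Lib.MP_efe3d7_co.H.Saf

/-! Small cuts of columns and positions. -/

set_option autoImplicit false

open Finset

namespace Pool.Agent.Lib.MP_efe3d7_co.J

open H

variable {α : Type} [Fintype α] [DecidableEq α]

variable {m : Md} {p : Pre} {V : Finset α} {τ : Sym2 α → Fin 3} {E : Env α} {v : ℕ → α}

variable {g : Col} {V' : Finset α} {τ' : Sym2 α → Fin 3}

omit [Fintype α] in
open Classical in
theorem cf_lab (hO : Ok m V τ E) (hP : PS m p V τ E v) (hR : Rep p g V τ v V' τ')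
    {B S : Finset α} (hB : B ⊆ V') (hA : Adm V' τ' E B) (hC : Cov V' τ' B S) {N : ℕ}
    (hS : S.card ≤ N)
    {A X J1 JS : ℕ} (h1 : ∀ i, tb A i = true ↔ inW p g i ∧ v i ∈ B)
    (h2 : ∀ i, tb X i = true → inW p g i ∧ v i ∈ S)
    (h3 : ∀ i < p.s, inW p g i → v i ∈ S → v i ∉ B → tb X i = true)
    (h4 : ∀ i, tb J1 i = true ↔ i < p.s ∧ tb A (rho g i) = true)
    (h5 : ∀ i, tb JS i = true ↔ i < p.s ∧ tb X (rho g i) = true) :
    pc (p.s + g.ni) X ≤ N ∧
    Lab p V τ E v J1 JS (min 2 (B.filter fun z => ∀ l < p.n, v l ≠ z).card)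
      (N - pc (p.s + g.ni) X) (B.filter fun z => ∀ l < p.n, v l ≠ z)
      (S.filter fun z => ∀ l < p.n, v l ≠ z) := by
  have hsn := hP.sn
  have hle := hR.le
  have hr : ∀ i < p.s, inW p g (rho g i) ∧ rho g i < p.s := fun i hi => by
    unfold rho inW
    split_ifs with h
    · obtain ⟨a1, -, a3, -⟩ := hR.mg h.1
      exact ⟨⟨by omega, fun h' => a3 h'.2⟩, a1⟩
    · exact ⟨⟨by omega, h⟩, hi⟩
  have hv : ∀ i < p.n, v i ∈ V := fun i hi => hO.memV (hP.mem i hi)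
  have hv' : ∀ i < p.s, v (rho g i) ∈ V' := fun i hi => (hR.mem _).2
    ⟨hv _ ((hr i hi).2.trans_le hsn), fun l hl e =>
      hP.inj l hl _ ((hr i hi).2.trans_le hsn) e ▸ (hr i hi).1⟩
  have ho : ∀ z ∈ V, (∀ l < p.n, v l ≠ z) → z ∈ V' := fun z hz h =>
    (hR.mem z).2 ⟨hz, fun l hl e => (h l hl e).elim⟩
  have hl : ∀ i < p.s, v (rho g i) ∈ B ∨ v (rho g i) ∈ S → tb J1 i = true ∨ tb JS i = true := by
    intro i hi h
    by_cases hb : v (rho g i) ∈ B
    · exact Or.inl ((h4 i).2 ⟨hi, (h1 _).2 ⟨(hr i hi).1, hb⟩⟩)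
    · exact Or.inr ((h5 i).2 ⟨hi, h3 _ (hr i hi).2 (hr i hi).1 (h.resolve_left hb) hb⟩)
  have hJ : ∀ i, tb J1 i = true → i < p.s ∧ v (rho g i) ∈ B := fun i h =>
    ⟨((h4 i).1 h).1, ((h1 _).1 ((h4 i).1 h).2).2⟩
  have hc : (S.filter fun z => ∀ l < p.n, v l ≠ z).card + pc (p.s + g.ni) X ≤ N := by
    rw [← card_img (v := v) (fun i hi j hj => hP.inj i (by omega) j (by omega)) X,
      ← card_union_of_disjoint]
    · refine (card_le_card (union_subset (filter_subset _ _) fun z hz => ?_)).trans hS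
      obtain ⟨i, hi, rfl⟩ := mem_image.1 hz
      exact (h2 i (mem_bs.1 hi).2).2
    · refine disjoint_left.2 fun z hz hz' => ?_
      obtain ⟨i, hi, e⟩ := mem_image.1 hz'
      exact (mem_filter.1 hz).2 i ((mem_bs.1 hi).1.trans_le hle) e
  refine ⟨by omega, fun i h => ⟨(hJ i h).1, ?_⟩, fun i h => ((h5 i).1 h).1,
    fun z hz => ⟨hA.1 (mem_filter.1 hz).1, (mem_filter.1 hz).2⟩, fun z hz => (mem_filter.1 hz).2,
    rfl, by omega, fun y hy z hz => ?_, fun i h z hz hz' => ?_, fun i h j hj hij hk ht => ?_,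
    fun w hw => ?_⟩
  · obtain ⟨a1, a2⟩ := hJ i h
    unfold rho at a2
    split_ifs at a2 with h'
    · exact hP.lq i (a1.trans_le hsn) (h'.2 ▸ (hR.mg h'.1).2.2.2.1)
    · exact hA.1 a2
  · obtain ⟨y1, y2⟩ := mem_filter.1 hy
    obtain ⟨z1, z2, z3⟩ := mem_nb.1 hz
    by_cases h : ∀ l < p.n, v l ≠ z
    · rcases hC y y1 z (mem_nb.2 ⟨ho z z1 h, z2, hR.oo y z y2 h ▸ z3⟩) with h' | h'
      · exact Or.inl (mem_filter.2 ⟨h', h⟩)
      · exact Or.inr (Or.inl (mem_filter.2 ⟨h', h⟩))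
    push Not at h
    obtain ⟨l, hln, rfl⟩ := h
    have hls : l < p.s := by
      by_contra hls
      obtain ⟨a1, a2, -⟩ := hP.int l hln (not_lt.1 hls)
      obtain ⟨j, hj, -, e⟩ := hP.cl l hln a2 y (nb_symm ((hR.mem y).1 (hB y1)).1 hz) (Or.inl a1)
      exact y2 j hj e
    refine Or.inr (Or.inr ⟨l, hl l hls (hC y y1 _ (mem_nb.2 ⟨hv' l hls,
      y2 _ ((hr l hls).2.trans_le hsn), ?_⟩)), rfl⟩)
    rw [Sym2.eq_swap] at z3 ⊢
    exact hR.ow l hls y y2 z3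
  · obtain ⟨a1, a2⟩ := hJ i h
    obtain ⟨z1, -, z3⟩ := mem_nb.1 hz
    exact (hC _ a2 z (mem_nb.2 ⟨ho z z1 hz', (hz' _ ((hr i a1).2.trans_le hsn)).symm,
      hR.ow i a1 z hz' z3⟩)).imp (fun h' => mem_filter.2 ⟨h', hz'⟩) fun h' => mem_filter.2 ⟨h', hz'⟩
  · obtain ⟨a1, a2⟩ := hJ i h
    obtain ⟨b1, b2⟩ := hR.un i a1 j hj hij hk ht
    exact hl j hj (hC _ a2 _ (mem_nb.2 ⟨hv' j hj, fun e => b1 (hP.inj _
      ((hr j hj).2.trans_le hsn) _ ((hr i a1).2.trans_le hsn) e).symm, b2⟩))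
  · obtain ⟨w1, w2, w3, -⟩ := hO.omv w hw
    have hw' : ∀ l < p.n, v l ≠ w := fun l h e => (hP.mem l h).elim (e ▸ w2) (e ▸ w3)
    have hf : ∀ z ∈ ((B.filter fun z => ∀ l < p.n, v l ≠ z) ∪ (bs p.s J1).image v) ∩ nb V τ w,
        (if g.mg = true ∧ z = v g.b then v g.a else z) ∈ B ∩ nb V' τ' w := by
      intro z hz
      obtain ⟨z0, hz'⟩ := mem_inter.1 hz
      obtain ⟨z1, z2, z3⟩ := mem_nb.1 hz'
      rcases mem_union.1 z0 with h | h
      · obtain ⟨a1, a2⟩ := mem_filter.1 h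
        rw [if_neg fun h' => a2 _ ((hR.mg h'.1).2.1.trans_le hsn) h'.2.symm]
        exact mem_inter.2 ⟨a1, mem_nb.2 ⟨hB a1, z2, hR.oo w z hw' a2 ▸ z3⟩⟩
      · obtain ⟨i, hi, rfl⟩ := mem_image.1 h
        obtain ⟨a1, a2⟩ := hJ i (mem_bs.1 hi).2
        have e : (if g.mg = true ∧ v i = v g.b then v g.a else v i) = v (rho g i) := by
          rw [rho, apply_ite v]
          exact if_congr (and_congr_right fun h' => ⟨hP.inj i (a1.trans_le hsn) _
            ((hR.mg h').2.1.trans_le hsn), congrArg v⟩) rfl rfl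
        rw [e]
        refine mem_inter.2 ⟨a2, mem_nb.2 ⟨hB a2, hw' _ ((hr i a1).2.trans_le hsn), ?_⟩⟩
        rw [Sym2.eq_swap] at z3 ⊢
        exact hR.ow i a1 w hw' z3
    have hn : g.mg = true → v g.a ∈ nb V τ w → v g.b ∈ nb V τ w → False := fun h ha hb => by
      obtain ⟨a1, -, -, -, a5⟩ := hR.mg h
      obtain ⟨l, hln, e⟩ := (hP.fb _ (a1.trans_le hsn) _ a5).2.2 w (nb_symm w1 ha) (nb_symm w1 hb)
      exact hw' l hln e
    refine card_le_one.2 fun z hz z' hz' => ?_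
    have e := card_le_one.1 (hA.2 w hw) _ (hf z hz) _ (hf z' hz')
    have n1 := (mem_inter.1 hz).2
    have n2 := (mem_inter.1 hz').2
    split_ifs at e with c1 c2 c2
    · exact c1.2.trans c2.2.symm
    · exact (hn c1.1 (e ▸ n2) (c1.2 ▸ n1)).elim
    · exact (hn c2.1 (e ▸ n1) (c2.2 ▸ n2)).elim
    · exact e

open Classical in
theorem cf_pos (hO : Ok m V τ E) (hP : PS m p V τ E v) (hR : Rep p g V τ v V' τ')
    {B S : Finset α} (hB : B ⊆ V') (hA : Adm V' τ' E B) (hC : Cov V' τ' B S) {N : ℕ}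
    (hS : S.card ≤ N) : ∃ X q : ℕ, q < 65536 ∧
      (∀ i < 8, tb q i = true ↔ i < p.s + g.ni ∧ v (rho g i) ∈ B) ∧
      (∀ i, tb q (8 + i) = true ↔ i < p.s + g.ni ∧ v (rho g i) ∈ S ∧ v (rho g i) ∉ B) ∧
      (∀ i, tb X i = true ↔ inW p g i ∧ v i ∈ S ∧ v i ∉ B) ∧ pc (p.s + g.ni) X ≤ N ∧
      (cnt 8 fun i => tb q (8 + i)) ≤ pc (p.s + g.ni) X + 1 ∧
      ((g.mg = true → tb X g.a = false) →
        (cnt 8 fun i => tb q (8 + i)) ≤ pc (p.s + g.ni) X + 0) ∧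
      ¬ CBad p V τ E v q (min 2 (B.filter fun z => ∀ l < p.n, v l ≠ z).card)
        (N - pc (p.s + g.ni) X) ∧ ¬ tb (cEd (p.s + g.ni) g.ct) q = true := by
  have le := hR.le
  have n8 := hP.n8
  obtain ⟨A, hA2⟩ : ∃ A, ∀ i, tb A i = true ↔ inW p g i ∧ v i ∈ B :=
    ⟨msk (p.s + g.ni) fun i => decide (inW p g i ∧ v i ∈ B), fun i => by
      simp only [tb_msk, Bool.and_eq_true, decide_eq_true_eq]
      exact ⟨fun k => k.2, fun k => ⟨k.1.1, k⟩⟩⟩
  obtain ⟨X, hX2⟩ : ∃ X, ∀ i, tb X i = true ↔ inW p g i ∧ v i ∈ S ∧ v i ∉ B :=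
    ⟨msk (p.s + g.ni) fun i => decide (inW p g i ∧ v i ∈ S ∧ v i ∉ B), fun i => by
      simp only [tb_msk, Bool.and_eq_true, decide_eq_true_eq]
      exact ⟨fun k => k.2, fun k => ⟨k.1.1, k⟩⟩⟩
  have hk : ∀ (n M i : ℕ), tb (msk n fun i => tb M (rho g i)) i = true ↔
      i < n ∧ tb M (rho g i) = true := fun n M i => by
    simp only [tb_msk, Bool.and_eq_true, decide_eq_true_eq]
  obtain ⟨q, q0, q1, q2⟩ : ∃ q, q < 65536 ∧
      (∀ i < 8, tb q i = true ↔ i < p.s + g.ni ∧ tb A (rho g i) = true) ∧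
      ∀ i, tb q (8 + i) = true ↔ i < p.s + g.ni ∧ tb X (rho g i) = true := by
    refine ⟨Nat.lor (msk (p.s + g.ni) fun i => tb A (rho g i))
      (Nat.shiftLeft (msk (p.s + g.ni) fun i => tb X (rho g i)) 8), ?_, fun i hi => ?_,
      fun i => ?_⟩
    · refine lt_bt (n := 16) fun i hi => ?_
      simp only [tb_lor, cf_shl, Bool.or_eq_true, Bool.and_eq_true, decide_eq_true_eq, hk] at hi
      omega
    · simp only [tb_lor, cf_shl, Bool.or_eq_true, Bool.and_eq_true, decide_eq_true_eq, hk]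
      exact ⟨fun k => k.resolve_right (by omega), Or.inl⟩
    · simp only [tb_lor, cf_shl, Bool.or_eq_true, Bool.and_eq_true, decide_eq_true_eq, hk,
        Nat.add_sub_cancel_left]
      exact ⟨fun k => (k.resolve_left (by omega)).2, fun k => Or.inr ⟨by omega, k⟩⟩
  have hw : ∀ i < p.s + g.ni, inW p g (rho g i) := fun i hi => by
    unfold rho inW
    split_ifs with k
    · obtain ⟨a1, -, a3, -⟩ := hR.mg k.1
      exact ⟨by omega, fun j => a3 j.2⟩
    · exact ⟨hi, k⟩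
  obtain ⟨l1, l2⟩ := cf_lab hO hP hR hB hA hC hS hA2
    (fun i k => ⟨((hX2 i).1 k).1, ((hX2 i).1 k).2.1⟩) (fun i _ k1 k2 k3 => (hX2 i).2 ⟨k1, k2, k3⟩)
    (hk p.s A) (hk p.s X)
  have ed : ∀ i < p.s + g.ni, ∀ j < p.s + g.ni, ty g.ct i j ≠ 0 →
      tb (df (df (cMK i) (cMK j)) (cMS j)) q = true → False := fun i hi j hj k1 k2 => by
    simp only [tb_df, cf_MK, cf_MS, q0, decide_true, Bool.true_and, Bool.and_eq_true,
      Bool.not_eq_true', ← Bool.not_eq_true, q1 i (by omega), q1 j (by omega), q2, hi, hj,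
      true_and, hA2, hX2, hw i hi, hw j hj] at k2
    obtain ⟨⟨k3, k4⟩, k5⟩ := k2
    have k6 : rho g i ≠ rho g j := fun e => k4 (e ▸ k3)
    have k7 := (hw i hi).1
    have k8 := (hw j hj).1
    exact (hC _ k3 _ (mem_nb.2 ⟨saf_mem hO hP hR (hw j hj), fun e => k6
      (hP.inj _ (by omega) _ (by omega) e.symm), hR.ct i hi j hj k6 k1⟩)).elim k4
      fun k => k5 ⟨k, k4⟩
  refine ⟨X, q, q0, fun i hi => (q1 i hi).trans (and_congr_right fun k => ?_),
    fun i => (q2 i).trans (and_congr_right fun k => ?_), hX2, l1, ?_, fun c => ?_,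
    fun k => k _ _ (fun i => ?_) (fun i => ?_) _ le_rfl _ _ l2, fun k => ?_⟩
  · rw [hA2, and_iff_right (hw i k)]
  · rw [hX2, and_iff_right (hw i k)]
  · rw [cnt_eq, pc_eq]
    refine (card_le_card fun i hi => ?_).trans (card_insert_le g.b _)
    obtain ⟨k1, k2⟩ := (q2 i).1 (mem_filter.1 hi).2
    by_cases k : i = g.b
    · exact k ▸ mem_insert_self _ _
    · rw [rho, if_neg fun j => k j.2] at k2
      exact mem_insert_of_mem (mem_bs.2 ⟨k1, k2⟩)
  · rw [cnt_eq, pc_eq, Nat.add_zero]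
    refine card_le_card fun i hi => ?_
    obtain ⟨k1, k2⟩ := (q2 i).1 (mem_filter.1 hi).2
    unfold rho at k2
    split_ifs at k2 with k
    · rw [c k.1] at k2
      cases k2
    · exact mem_bs.2 ⟨k1, k2⟩
  · rw [hk]
    exact and_congr_right fun hi => by rw [q1 i (by omega)]; simp [Nat.lt_add_right _ hi]
  · rw [hk]
    exact and_congr_right fun hi => by rw [q2 i]; simp [Nat.lt_add_right _ hi]
  simp only [cEd, frc_eq, cf_lor0, tb_lor, Bool.or_eq_true] at k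
  rcases k with k | k
  · obtain ⟨i, i1, -, i2⟩ := cf_Un k
    obtain ⟨j, j1, j2, j3⟩ := cf_Un i2
    rw [cf_Row _ j1 (by omega), nz_iff] at j2
    rw [cEM, tb_lor, Bool.or_eq_true] at j3
    exact j3.elim (ed i i1 j (by omega) j2) (ed j (by omega) i i1 (by rwa [ty_comm]))
  · obtain ⟨i, i1, i2, i3⟩ := cf_Un k
    simp only [tb_lor, cf_MK, cf_MS, Bool.or_eq_true, Bool.and_eq_true, q1 i i1, q2] at i3
    rw [Nat.ble_eq] at i2
    omega

theorem cf_cut (hO : Ok m V τ E) (hP : PS m p V τ E v) (hR : Rep p g V τ v V' τ') {T G1 : ℕ}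
    (hT : CTab p V τ E v T) (hG : g.mg = true → G1 = cGood p T 1)
    (h : cCut p (cGood p T 0) G1 g = true) (B S : Finset α)
    (hB : B ⊆ V') (hne : B.Nonempty) (hA : Adm V' τ' E B) (hC : Cov V' τ' B S) : 3 ≤ S.card := by
  classical
  by_contra hS
  have le := hR.le
  have n8 := hP.n8
  obtain ⟨X, q, q0, q1, q2, hX2, l1, c1, c0, l2, ed⟩ :=
    cf_pos hO hP hR hB hA hC (N := 2) (by omega)
  simp only [cCut, frc_eq, Nat.add_eq] at h
  have hq := cf_All h q0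
  rw [tb_lor, Bool.or_eq_true] at hq
  have k := hq.resolve_left ed
  have fin : ∀ d, (cnt 8 fun i => tb q (8 + i)) ≤ pc (p.s + g.ni) X + d →
      tb (cGood p T d) q = true → False := fun d k1 k2 => by
    refine l2 (cf_good hO hP hT (min_le_left _ _) k1 l1 (fun i hi a b => ?_) (fun k => ?_) k2)
    · exact ((q2 i).1 b).2.2 ((q1 i hi).1 a).2
    · obtain ⟨z, hz⟩ := hne
      have k1 := filter_eq_empty_iff.1 (card_eq_zero.1
        (by omega : (B.filter fun z => ∀ l < p.n, v l ≠ z).card = 0)) hz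
      push Not at k1
      obtain ⟨l, hl, rfl⟩ := k1
      have k3 := ((hR.mem _).1 (hB hz)).2 l hl rfl
      have k4 := k3.1
      refine ⟨l, by omega, (q1 l (by omega)).2 ⟨k4, ?_⟩⟩
      rwa [rho, if_neg k3.2]
  cases e : g.mg
  · rw [e, cond_false] at k
    exact fin 0 (c0 (by simp [e])) k
  obtain ⟨a1, a2, a3, -⟩ := hR.mg e
  have sn := hP.sn
  have ra : rho g g.a = g.a := if_neg fun j => a3 j.2
  have rb : rho g g.b = g.a := if_pos ⟨e, rfl⟩
  have b1 : tb q g.a = tb q g.b := by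
    rw [Bool.eq_iff_iff, q1 _ (by omega), q1 _ (by omega), ra, rb]
    exact and_congr_left fun _ => by omega
  have b2 : tb q (8 + g.a) = tb q (8 + g.b) := by
    rw [Bool.eq_iff_iff, q2, q2, ra, rb]
    exact and_congr_left fun _ => by omega
  simp only [e, cond_true, tb_lor, cf_xor, cf_MK, cf_MS, b1, b2, Bool.xor_self, Bool.false_or,
    tb_df, Bool.or_eq_true, Bool.and_eq_true, q0, decide_true, Bool.true_and,
    Bool.not_eq_true', hG e] at k
  rcases k with k | k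
  · refine fin 0 (c0 fun _ => Bool.eq_false_iff.2 fun j => ?_) k.1
    rw [(q2 g.b).2 ⟨by omega, rb.symm ▸ ((hX2 _).1 j).2⟩] at k
    cases k.2
  · exact fin 1 c1 k

end Pool.Agent.Lib.MP_efe3d7_co.J
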