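import Pool.Agent.Lib.MP_efe3d7_co.J.Cf3
import Pool.Agent.Lib.MP_efe3d7_co.H.Tri
import Pool.Agent.Lib.MP_efe3d7_co.H.Col5
import Pool.Agent.Lib.MP_efe3d7_co.H.Fr2

/-! Soundness of the fast test. -/

set_option autoImplicit false

open Finset

namespace Pool.Agent.Lib.MP_efe3d7_co.J

open H

variable {α : Type} [Fintype α] [DecidableEq α]

variable {m : Md} {p : Pre} {V : Finset α} {τ : Sym2 α → Fin 3} {E : Env α} {v : ℕ → α}

variable {g : Col} {V' : Finset α} {τ' : Sym2 α → Fin 3}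

theorem cf_parts (hO : Ok m V τ E) (hP : PS m p V τ E v) (hR : Rep p g V τ v V' τ')
    (h2 : cNem m p g = true) : V' ⊆ V ∧ (∀ a ∈ V, a ∉ V' → a ∈ E.Q) ∧
      (∀ a ∈ V, ∀ b ∈ V, a ≠ b → a ∉ E.Q → b ∉ E.Q → τ s(a, b) ≠ 0 →
        (∀ i < p.s, ∀ j < p.s, v i = a → v j = b → tb p.lq i = false → tb p.lq j = false →
          tb (fld p.ha i) j = true → ty g.ct i j ≠ 0) → τ' s(a, b) ≠ 0) ∧
      (∀ a ∈ V', a ∈ E.Q → ∀ b ∈ nb V' τ' a, b ∈ E.Q ∨ b ∈ E.T ∨ E.om = some b) ∧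
      ((∃ a ∈ V', a ∈ E.Q) ∨ (E.om = none ∧ ∀ a ∈ E.T, ∀ b ∈ E.T, a ≠ b → τ' s(a, b) ≠ 0)) := by
  simp only [cNem, Bool.and_eq_true, Bool.or_eq_true, Bool.not_eq_true', anyB_iff, Nat.ble_eq,
    Nat.beq_eq, nz_iff, Bool.and_eq_false_iff] at h2
  have term : ∀ i < p.n, v i ∉ E.Q → i < p.s ∧ rho g i = i := fun i hi k => by
    have : i < p.s := not_le.1 fun j => k (hP.int i hi j).1
    exact ⟨this, (saf_rho hP hR this).2.2.resolve_right k⟩
  refine ⟨fun z hz => ((hR.mem z).1 hz).1, fun a ha k => ?_, fun a ha b hb ab a1 b1 k h1 => ?_,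
    fun a ha a1 b hb => ?_, ?_⟩
  · by_contra j
    refine k ((hR.mem a).2 ⟨ha, ?_⟩)
    rintro i hi rfl
    obtain ⟨i1, i2⟩ := term i hi j
    exact i2 ▸ (saf_rho hP hR i1).2.1
  · by_cases k1 : ∀ l < p.n, v l ≠ a <;> by_cases k2 : ∀ l < p.n, v l ≠ b
    · rwa [hR.oo a b k1 k2]
    · push Not at k2
      obtain ⟨j, hj, rfl⟩ := k2
      have := hR.ow j (term j hj b1).1 a k1 (by rwa [Sym2.eq_swap])
      rwa [(term j hj b1).2, Sym2.eq_swap] at this
    · push Not at k1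
      obtain ⟨j, hj, rfl⟩ := k1
      have := hR.ow j (term j hj a1).1 b k2 k
      rwa [(term j hj a1).2] at this
    · push Not at k1 k2
      obtain ⟨i, hi, rfl⟩ := k1
      obtain ⟨j, hj, rfl⟩ := k2
      obtain ⟨i1, i2⟩ := term i hi a1
      obtain ⟨j1, j2⟩ := term j hj b1
      have ij : i ≠ j := fun e => ab (e ▸ rfl)
      cases e : tb (fld p.kn i) j
      · have := (hR.un i i1 j j1 ij e k).2
        rwa [i2, j2] at this
      have := hR.ct i (by omega) j (by omega) (by omega) (h1 i i1 j j1 rfl rfl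
        (Bool.eq_false_iff.2 fun c => a1 (hP.lq i hi c))
        (Bool.eq_false_iff.2 fun c => b1 (hP.lq j hj c))
        (Bool.of_not_eq_false fun c => k (hP.kn i hi j hj ij e c)))
      rwa [i2, j2] at this
  · obtain ⟨b1, b2, b3⟩ := mem_nb.1 hb
    have b4 := ((hR.mem b).1 b1).1
    by_cases k2 : ∀ l < p.n, v l ≠ b
    · by_cases k1 : ∀ l < p.n, v l ≠ a
      · exact hO.nbq a a1 b (mem_nb.2 ⟨b4, b2, hR.oo a b k1 k2 ▸ b3⟩)
      · push Not at k1
        obtain ⟨j, hj, rfl⟩ := k1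
        obtain ⟨i, i1, i2, i3⟩ := hR.wo j (((hR.mem _).1 ha).2 j hj rfl) b b4 k2 b3
        exact hO.nbq (v i) ((saf_rho hP hR i1).2.2.elim (fun e => by rw [← e, i2]; exact a1) id) b
          (mem_nb.2 ⟨b4, (k2 i (i1.trans_le hP.sn)).symm, i3⟩)
    · push Not at k2
      obtain ⟨j, hj, rfl⟩ := k2
      exact (hP.mem j hj).imp_right Or.inl
  · by_cases k : ∃ a ∈ V', a ∈ E.Q
    · exact Or.inl k
    have inT : ∀ i, inW p g i → v i ∈ E.T := fun i hi =>
      (hP.mem i (hi.1.trans_le hR.le)).resolve_left fun j => k ⟨_, saf_mem hO hP hR hi, j⟩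
    have sn := hP.sn
    have le := hR.le
    rcases h2 with ((c | c) | ⟨i, i1, i2, i3⟩) | ⟨⟨c1, c2⟩, c | ⟨⟨⟨c3, c4⟩, c5⟩, c6⟩⟩
    · exact (k ⟨v p.s, saf_mem hO hP hR ⟨by omega, fun j => by have := (hR.mg j.1).2.1; omega⟩,
        (hP.int p.s (by omega) le_rfl).1⟩).elim
    · exfalso
      have := card_le_card_of_injOn (s := (range p.s).erase (if g.mg = true then g.b else p.s))
        (t := E.T) v (fun i hi => by
          obtain ⟨i1, i2⟩ := mem_erase.1 hi
          rw [mem_range] at i2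
          exact inT i ⟨by omega, fun j => i1 (by rw [if_pos j.1, j.2])⟩) fun i hi j hj =>
        hP.inj i ((mem_range.1 (mem_erase.1 hi).2).trans_le sn) j
          ((mem_range.1 (mem_erase.1 hj).2).trans_le sn)
      have c3 := hO.cT
      cases e : g.mg
      · simp [e] at this c
        omega
      · have c4 := pred_card_le_card_erase (s := range p.s) (a := g.b)
        simp [e] at this c c4
        omega
    · refine (k ⟨v i, saf_mem hO hP hR ⟨by omega, fun j => ?_⟩, hP.lq i (by omega) i2⟩).elim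
      rcases i3 with i3 | i3
      · simp [i3] at j
      · exact Nat.ne_of_beq_eq_false i3 j.2
    · obtain ⟨a, a1, a2⟩ := exists_mem_ne (s := E.Q) (hO.q2 c1).1 (v p.s)
      refine (k ⟨a, (hR.mem a).2 ⟨hO.subQ a1, ?_⟩, a1⟩).elim
      rintro i hi rfl
      have : i ≠ p.s := fun j => a2 (by rw [j])
      exact ⟨by omega, by simp [c2]⟩
    · have r : ∀ i, rho g i = i := fun i => if_neg (by simp [c2])
      have ne : ∀ i < 3, ∀ j < 3, i ≠ j → v i ≠ v j := fun i hi j hj c e =>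
        c (hP.inj i (by omega) j (by omega) e)
      have eT : ({v 0, v 1, v 2} : Finset α) = E.T := eq_of_subset_of_card_le (fun z hz => by
        simp only [mem_insert, mem_singleton] at hz
        rcases hz with rfl | rfl | rfl <;> exact inT _ ⟨by omega, by simp [c2]⟩) (by
          rw [(hO.q2 c1).2, card_eq_three.2 ⟨_, _, _, ne 0 (by omega) 1 (by omega) (by omega),
            ne 0 (by omega) 2 (by omega) (by omega), ne 1 (by omega) 2 (by omega) (by omega), rfl⟩])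
      have ed : ∀ i < 3, ∀ j < 3, i ≠ j → ty g.ct i j ≠ 0 → τ' s(v i, v j) ≠ 0 :=
        fun i hi j hj c e => by
          have := hR.ct i (by omega) j (by omega) (by rwa [r, r]) e
          rwa [r, r] at this
      have e1 := ed 0 (by omega) 1 (by omega) (by omega) c4
      have e2 := ed 0 (by omega) 2 (by omega) (by omega) c5
      have e3 := ed 1 (by omega) 2 (by omega) (by omega) c6
      refine Or.inr ⟨hO.omn (hO.wm_false c1), fun a ha b hb ab => ?_⟩
      simp only [← eT, mem_insert, mem_singleton] at ha hb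
      rcases ha with rfl | rfl | rfl <;> rcases hb with rfl | rfl | rfl <;>
        first | exact absurd rfl ab | assumption | rwa [Sym2.eq_swap]

theorem cf_chg (hO : Ok m V τ E) (hP : PS m p V τ E v) (hR : Rep p g V τ v V' τ') {T : ℕ}
    (hT : CTab p V τ E v T) (h : cChg m p (cGood p T 0) (cGood p T 1) g = true) :
    Chg V τ E V' τ' := by
  simp only [cChg, cRC, frc_eq, Bool.and_eq_true, Bool.or_eq_true, Bool.not_eq_true', allB_iff,
    nz_iff] at h
  obtain ⟨⟨h1, h2⟩, h3⟩ := h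
  obtain ⟨p1, p2, p3, p4, p5⟩ := cf_parts hO hP hR h2
  have s7 := hP.s7
  have sn := hP.sn
  have half : ∀ i < p.s, ∀ j < i, tb p.lq i = false → tb p.lq j = false →
      tb (fld p.ha i) j = true → ty g.ct i j ≠ 0 := fun i hi j hj k1 k2 k3 => by
    have := h1 i hi j hj
    rw [cf_Row _ hj (by omega), k1, k2, k3] at this
    simpa using this
  refine ⟨p1, p2, fun a ha b hb ab a1 b1 k => p3 a ha b hb ab a1 b1 k
    fun i hi j hj e1 e2 k1 k2 k3 => ?_, p4, fun w hw => saf_om hO hP hR hw, p5,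
    cf_cut hO hP hR hT (fun _ => rfl) h3⟩
  rcases lt_trichotomy i j with c | rfl | c
  · rw [ty_comm]
    exact half j hj i c k2 k1 (hP.has i (by omega) j (by omega) ▸ k3)
  · exact absurd (e1.symm.trans e2) ab
  · exact half i hi j c k1 k2 k3

omit [Fintype α] in
theorem cf_two' (hO : Ok m V τ E) {t : α} (ht : t ∈ E.T) : 2 ≤ (nb V τ t \ E.Q).card := by
  have h1 := hO.dsT t ht
  have h2 := card_sdiff_add_card_inter (nb V τ t) E.Q
  rw [ds_nQ fun k => hO.dis t k ht, dg] at h1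
  omega

omit [Fintype α] in
theorem cf_rho (hO : Ok m V τ E) (hP : PS m p V τ E v) (hr : m.rl = true) (h : cRho p = true)
    {t : α} (ht : t ∈ E.T) : ∃ r ∈ nb V τ t, r ∉ E.Q ∧ r ∉ E.T := by
  simp only [cRho, anyB_iff, Bool.and_eq_true, nz_bit, tb_df, tb_land, tb_ful, tb_bt,
    Bool.not_eq_true', decide_eq_true_eq, decide_eq_false_iff_not] at h
  obtain ⟨a, a1, a2, b, ⟨⟨⟨b1, b2⟩, b3⟩, b4⟩, b5⟩ := h
  have h3 := (hO.q2 hr).2
  have om := hO.omn (hO.wm_false hr)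
  have aT := hP.lt a a1 a2
  have bT := hP.lt b b2 b1
  by_contra k
  push Not at k
  have h4 : ∃ r ∈ V, r ∉ E.Q ∧ r ∉ E.T := by
    by_contra j
    push Not at j
    have h5 : nb V τ (v a) \ E.Q ⊆ (E.T.erase (v a)).erase (v b) := fun z hz => by
      obtain ⟨z1, z2⟩ := mem_sdiff.1 hz
      obtain ⟨z3, z4, z5⟩ := mem_nb.1 z1
      exact mem_erase.2 ⟨fun e => z5 (e ▸ hP.kn a a1 b b2 b5 b3 b4), mem_erase.2 ⟨z4, j z z3 z2⟩⟩
    have h6 := (cf_two' hO aT).trans (card_le_card h5)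
    rw [card_erase_of_mem (mem_erase.2 ⟨fun e => b5 (hP.inj _ b2 _ a1 e).symm, bT⟩),
      card_erase_of_mem aT] at h6
    omega
  obtain ⟨r, r1, r2⟩ := h4
  have h5 := hO.con.three (B := V.filter fun r => r ∉ E.Q ∧ r ∉ E.T) (S := E.T.erase t)
    (filter_subset _ _) ⟨r, mem_filter.2 ⟨r1, r2⟩⟩ (fun x hx y hy => by
      obtain ⟨x1, x2, x3⟩ := mem_filter.1 hx
      have y1 : y ∉ E.Q := fun c => by
        have := hO.nbq y c x (nb_symm x1 hy)
        simp [x2, x3, om] at this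
      by_cases c : y ∈ E.T
      · exact Or.inr (mem_erase.2 ⟨fun e => x3 (k x (e ▸ nb_symm x1 hy) x2), c⟩)
      · exact Or.inl (mem_filter.2 ⟨nb_sub _ hy, y1, c⟩)) (hO.subT ht)
    (fun c => (mem_filter.1 c).2.2 ht) (notMem_erase _ _)
  rw [card_erase_of_mem ht] at h5
  omega

theorem cf_deg (hO : Ok m V τ E) (hP : PS m p V τ E v) (hR : Rep p g V τ v V' τ')
    (hr : m.rl = true) (hg : g.mg = false) {d6 : ℕ}
    (h6 : ∀ i < p.n, tb d6 i = true → 6 ≤ ds V τ E (v i)) {t cm : ℕ} (ht : t < p.s)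
    (hT : v t ∈ E.T) (hc : ∀ j, tb cm j = true → j < p.s + g.ni ∧ v j ∈ nb V' τ' (v t)) :
    pc p.n cm + (bif cRho p then 1 else 0) ≤ dg V' τ' (v t) ∧
      3 + cB1 p.d4 t + cB1 p.d5 t + cB1 d6 t + pc p.n (Nat.land cm (fld p.kn t)) -
        pc p.n (fld p.ha t) ≤ dg V' τ' (v t) := by
  have sn := hP.sn
  have tn : t < p.n := by omega
  have r : ∀ i, rho g i = i := fun i => if_neg (by simp [hg])
  have out : ∀ z ∈ nb V τ (v t), (∀ l < p.n, v l ≠ z) → z ∈ nb V' τ' (v t) := fun z hz k => by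
    obtain ⟨z1, z2, z3⟩ := mem_nb.1 hz
    have := hR.ow t ht z k z3
    rw [r] at this
    exact mem_nb.2 ⟨(hR.mem z).2 ⟨z1, fun l hl e => absurd e (k l hl)⟩, z2, this⟩
  have h1 : (bs p.n cm).image v ⊆ nb V' τ' (v t) := fun z hz => by
    obtain ⟨j, hj, rfl⟩ := mem_image.1 hz
    exact (hc j (mem_bs.1 hj).2).2
  constructor
  · rw [← card_img hP.inj]
    cases e : cRho p
    · exact card_le_card h1
    obtain ⟨z, z1, z2, z3⟩ := cf_rho hO hP hr e hT
    have z4 : ∀ l < p.n, v l ≠ z := fun l hl c => (hP.mem l hl).elim (c ▸ z2) (c ▸ z3)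
    have := card_le_card (insert_subset (out z z1 z4) h1)
    rwa [card_insert_of_notMem fun c => by
      obtain ⟨j, hj, c⟩ := mem_image.1 c
      exact z4 j (mem_bs.1 hj).1 c] at this
  have h2 : 3 + cB1 p.d4 t + cB1 p.d5 t + cB1 d6 t ≤ dg V τ (v t) := by
    refine le_trans ?_ (hO.dsT _ hT)
    have k3 := hO.ds3 _ (Or.inr hT)
    have k4 := hP.d4 t tn
    have k5 := hP.d5 t tn
    have k6 := h6 t tn
    unfold cB1
    revert k4 k5 k6
    cases tb p.d4 t <;> cases tb p.d5 t <;> cases tb d6 t <;> simp <;> omega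
  have h3 : ∀ z ∈ nb V τ (v t) \ (bs p.n (fld p.ha t)).image v, z ∈ nb V' τ' (v t) ∧
      z ∉ (bs p.n (Nat.land cm (fld p.kn t))).image v := fun z hz => by
    obtain ⟨z1, z2⟩ := mem_sdiff.1 hz
    by_cases k : ∀ l < p.n, v l ≠ z
    · refine ⟨out z z1 k, fun c => ?_⟩
      obtain ⟨j, hj, c⟩ := mem_image.1 c
      exact k j (mem_bs.1 hj).1 c
    push Not at k
    obtain ⟨j, hj, rfl⟩ := k
    obtain ⟨-, z4, z5⟩ := mem_nb.1 z1
    have tj : t ≠ j := fun e => z4 (e ▸ rfl)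
    have k1 : tb (fld p.kn t) j = false := Bool.eq_false_iff.2 fun c => z5 (hP.kn t tn j hj tj c
      (Bool.eq_false_iff.2 fun c' => z2 (mem_image_of_mem _ (mem_bs.2 ⟨hj, c'⟩))))
    have k2 : j < p.s := not_le.1 fun c => by
      rw [hP.kns t tn j hj, (hP.int j hj c).2.2 t tn tj.symm] at k1
      cases k1
    have k3 := (hR.un t ht j k2 tj k1 z5).2
    rw [r, r] at k3
    refine ⟨mem_nb.2 ⟨saf_mem hO hP hR ⟨by omega, by simp [hg]⟩, z4, k3⟩, fun c => ?_⟩
    obtain ⟨l, hl, c⟩ := mem_image.1 c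
    obtain ⟨l1, l2⟩ := mem_bs.1 hl
    rw [hP.inj l l1 j hj c, tb_land, k1, Bool.and_false] at l2
    cases l2
  have h4 := card_le_card (union_subset (fun z hz => (h3 z hz).1) (show
    (bs p.n (Nat.land cm (fld p.kn t))).image v ⊆ _ from fun z hz => by
      obtain ⟨j, hj, rfl⟩ := mem_image.1 hz
      have := (mem_bs.1 hj).2
      rw [tb_land, Bool.and_eq_true] at this
      exact (hc j this.1).2))
  rw [card_union_of_disjoint (disjoint_left.2 fun z hz => (h3 z hz).2), card_img hP.inj] at h4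
  have h5 := le_card_sdiff ((bs p.n (fld p.ha t)).image v) (nb V τ (v t))
  rw [card_img hP.inj] at h5
  unfold dg at h2 ⊢
  omega

theorem cf_tt (hO : Ok m V τ E) (hP : PS m p V τ E v) (hR : Rep p g V τ v V' τ') {d6 T : ℕ}
    (h6 : ∀ i < p.n, tb d6 i = true → 6 ≤ ds V τ E (v i)) (hT : CTab p V τ E v T)
    (h : cTT (pc p.n) m p d6 T (cGood p T 0) g = true) : Con3 V' τ' := by
  classical
  simp only [cTT, frc_eq, Bool.and_eq_true, Bool.not_eq_true', allB_iff, Nat.add_eq,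
    Nat.sub_eq] at h
  obtain ⟨⟨⟨⟨hr, hg⟩, h2⟩, h3⟩, h4⟩ := h
  obtain ⟨p1, p2, p3, p4, p5⟩ := cf_parts hO hP hR h2
  have om := hO.omn (hO.wm_false hr)
  have sn := hP.sn
  have le := hR.le
  have n8 := hP.n8
  have r : ∀ i, rho g i = i := fun i => if_neg (by simp [hg])
  have adm : ∀ B ⊆ E.Q, Adm V' τ' E B := fun B k => ⟨k, fun w hw => by rw [om] at hw; cases hw⟩
  have nq : ∀ a ∈ V', a ∈ E.Q → ∀ b ∈ nb V' τ' a, b ∈ E.Q ∨ b ∈ E.T := fun a ha k b hb => by
    simpa [om] using p4 a ha k b hb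
  have l1 : ∀ B S : Finset α, B ⊆ V' → B ⊆ E.Q → B.Nonempty → Cov V' τ' B S → 3 ≤ S.card :=
    fun B S k1 k2 k3 k4 => cf_cut hO hP hR hT (by simp [hg]) h3 B S k1 k3 (adm B k2) k4
  have keep : ∀ z ∈ V, z ∉ E.Q → z ∈ V' := fun z hz k => by_contra fun c => k (p2 z hz c)
  have dis := disjoint_left.2 hO.dis
  refine safe_gen hO.con hO.subT dis (hO.q2 hr).2
    (fun a ha b hb => by simpa [om] using hO.nbq a ha b hb) p1 p2
    (fun a ha b hb ab a1 a2 b1 k => p3 a ha b hb ab a1 b1 k fun i hi j _ e =>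
      ((hP.mem i (by omega)).elim (e ▸ a1) (e ▸ a2)).elim) nq (p5.imp_right And.right) l1
    fun t ht B S hB hBQ hS hC => ?_
  have tQ : t ∉ E.Q := fun k => hO.dis t k ht
  by_cases hl : ∀ i < p.s, v i = t → cLost p g.ct i = false
  · refine l2_of_two dis (hO.q2 hr).2 (fun z hz => keep z (hO.subT hz) fun k => hO.dis z k hz) nq
      (p5.imp_right And.right) l1 ht ((cf_two' hO ht).trans (card_le_card fun z hz => ?_))
      hB hBQ hS hC
    obtain ⟨z1, z2⟩ := mem_sdiff.1 hz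
    obtain ⟨z3, z4, z5⟩ := mem_nb.1 z1
    refine mem_sdiff.2 ⟨mem_nb.2 ⟨keep z z3 z2, z4, p3 t (hO.subT ht) z z3 z4.symm tQ z2 z5
      fun i hi j hj e _ k1 k2 k3 k4 => ?_⟩, z2⟩
    have := hl i hi e
    rw [cLost, k1, (anyB_iff _ _).2 ⟨j, hj, by rw [k2, k3, k4]; rfl⟩] at this
    cases this
  push Not at hl
  obtain ⟨i, hi, rfl, hl⟩ := hl
  replace h4 := h4 i hi
  rw [Bool.of_not_eq_false hl] at h4
  generalize hcm : (msk (p.s + g.ni) fun j => !Nat.beq i j && nz (ty g.ct i j)) = cm at h4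
  have hc : ∀ j, tb cm j = true → j < p.s + g.ni ∧ v j ∈ nb V' τ' (v i) := fun j k => by
    rw [← hcm, tb_msk] at k
    simp only [Bool.and_eq_true, decide_eq_true_eq, Bool.not_eq_true', nz_iff] at k
    obtain ⟨k1, k2, k3⟩ := k
    have k4 := Nat.ne_of_beq_eq_false k2
    have k5 := hR.ct i (by omega) j k1 (by rwa [r, r]) k3
    rw [r, r] at k5
    exact ⟨k1, mem_nb.2 ⟨saf_mem hO hP hR ⟨k1, by simp [hg]⟩,
      fun e => k4 (hP.inj _ (by omega) _ (by omega) e).symm, k5⟩⟩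
  obtain ⟨d1, d2⟩ := cf_deg hO hP hR hr hg h6 hi ht hc
  generalize pc p.n cm + _ = e1 at h4 d1
  generalize _ - pc p.n (fld p.ha i) = e2 at h4 d2
  simp only [Bool.not_true, Bool.false_or, Bool.and_eq_true, Bool.or_eq_true, Nat.ble_eq] at h4
  obtain ⟨h4, h5⟩ := h4
  have nbs : nb V' τ' (v i) ⊆ B ∪ S := fun z hz => mem_union.2
    ((hC _ (mem_insert_self _ _) z hz).imp_left fun k =>
      (mem_insert.1 k).resolve_left (mem_nb.1 hz).2.1)
  have dB := (card_le_card nbs).trans (card_union_le _ _)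
  have cov : Cov V' τ' B (insert (v i) S) := fun a ha b hb => by
    have := hC a (mem_insert_of_mem ha) b hb
    simp only [mem_insert] at this ⊢
    tauto
  unfold dg at d1 d2
  rcases h5 with h5 | h5
  · exfalso
    obtain ⟨z, z1, z2, z3⟩ := cf_rho hO hP hr h5 ht
    have z4 : ∀ l < p.n, v l ≠ z := fun l hl c => (hP.mem l hl).elim (c ▸ z2) (c ▸ z3)
    obtain ⟨z5, z6, z7⟩ := mem_nb.1 z1
    have z8 := hR.ow i hi z z4 z7
    rw [r] at z8
    have zS := (mem_union.1 (nbs (mem_nb.2 ⟨keep z z5 z2, z6, z8⟩))).resolve_left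
      fun k => z2 (hBQ k)
    rcases B.eq_empty_or_nonempty with rfl | hne
    · rw [card_empty] at dB
      omega
    have h7 := (l1 B (insert (v i) (S.erase z)) hB hBQ hne fun a ha b hb =>
      (cov a ha b hb).imp_right fun k => mem_insert.2 ((mem_insert.1 k).imp_right fun k =>
        mem_erase.2 ⟨fun e => (nq a (hB ha) (hBQ ha) b hb).elim (e ▸ z2) (e ▸ z3), k⟩)).trans
      (card_insert_le _ _)
    rw [card_erase_of_mem zS] at h7
    have := card_pos.2 ⟨z, zS⟩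
    omega
  obtain ⟨X, q, q0, q1, q2, hX, c1, -, c0, l2, ed⟩ := cf_pos hO hP hR hB (adm B hBQ) cov (N := 3)
    ((card_insert_le _ _).trans (by omega))
  simp only [r] at q1 q2
  replace c0 := c0 (by simp [hg])
  have iB : v i ∉ B := fun k => tQ (hBQ k)
  have x1 : 0 < pc (p.s + g.ni) X := by
    rw [pc_eq]
    exact card_pos.2 ⟨i, mem_bs.2 ⟨by omega, (hX i).2
      ⟨⟨by omega, by simp [hg]⟩, mem_insert_self _ _, iB⟩⟩⟩
  have cB : B.card ≤ (bs 8 q).card + (B.filter fun z => ∀ l < p.n, v l ≠ z).card := by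
    refine (card_le_card fun z hz => ?_).trans ((card_union_le ((bs 8 q).image v) _).trans
      (Nat.add_le_add_right card_image_le _))
    by_cases k : ∀ l < p.n, v l ≠ z
    · exact mem_union_right _ (mem_filter.2 ⟨hz, k⟩)
    push Not at k
    obtain ⟨l, hl, rfl⟩ := k
    have := (((hR.mem _).1 (hB hz)).2 l hl rfl).1
    exact mem_union_left _ (mem_image_of_mem _ (mem_bs.2 ⟨by omega, (q1 l (by omega)).2 ⟨this, hz⟩⟩))
  have fin : ∀ e, e + 3 ≤ (nb V' τ' (v i)).card → tb (cGT p T e) q = true →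
      E.T.erase (v i) ⊆ S := fun e k1 k2 => by
    rcases cf_GT hO hP hT (t := pc (p.s + g.ni) X - 1)
      (min_le_left 2 (B.filter fun z => ∀ l < p.n, v l ≠ z).card) (by omega) (by omega)
      (fun j hj a b => ((q2 j).1 b).2.2 ((q1 j hj).1 a).2) (fun k => by omega) k2 with k | ⟨k3, k4⟩
    · exact (l2 (k.mono (o' := 3 - pc (p.s + g.ni) X) (by omega))).elim
    have k5 : (bs p.n p.lt).image v = E.T := eq_of_subset_of_card_le (fun z hz => by
      obtain ⟨j, hj, rfl⟩ := mem_image.1 hz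
      exact hP.lt j (mem_bs.1 hj).1 (mem_bs.1 hj).2) (by rw [card_img hP.inj, k3, (hO.q2 hr).2])
    intro z hz
    obtain ⟨z1, z2⟩ := mem_erase.1 hz
    obtain ⟨j, hj, rfl⟩ := mem_image.1 (k5 ▸ z2)
    exact (mem_insert.1 ((q2 j).1 (k4 j (mem_bs.1 hj).1 (mem_bs.1 hj).2)).2.1).resolve_left z1
  have hq := cf_All h5 q0
  simp only [tb_lor, Bool.or_eq_true] at hq
  rcases hq with (k | k) | k | k
  · exact absurd k ed
  · rw [tb_df, cf_MS, (q2 i).2 ⟨by omega, mem_insert_self _ _, iB⟩] at k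
    simp [q0] at k
  · obtain ⟨j, j1, j2, j3⟩ := cf_Un k
    simp only [tb_df, cf_MK, cf_MS, q0, decide_true, Bool.true_and, Bool.and_eq_true,
      Bool.not_eq_true', ← Bool.not_eq_true, q1 j (by omega), q2, j1, true_and] at j3
    exact ((mem_union.1 (nbs (hc j j2).2)).elim j3.1.2
      fun c => j3.2 ⟨mem_insert_of_mem c, j3.1.2⟩).elim
  · cases c5 : (Nat.ble 5 e1 || Nat.ble 5 e2)
    · cases c4 : (Nat.ble 4 e1 || Nat.ble 4 e2)
      · rw [c5, c4] at k
        exact fin 0 (by omega) k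
      · rw [c5, c4] at k
        simp only [Bool.or_eq_true, Nat.ble_eq] at c4
        exact fin 1 (by omega) k
    · rw [c5] at k
      simp only [Bool.or_eq_true, Nat.ble_eq] at c5
      exact fin 2 (by omega) k

theorem cf_typ (hn : p.n ≤ 8) (h : cTyp p g = true) : typOk p g = true := by
  rw [cTyp, Bool.and_eq_true, Bool.and_eq_true] at h
  rw [typOk, Bool.and_eq_true, Bool.and_eq_true]
  refine ⟨⟨h.1.1, (allB_iff _ _).2 fun i hi => (allB_iff _ _).2 fun j hj => ?_⟩, h.2⟩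
  have h1 := Nat.le_of_ble_eq_true h.1.1
  have h2 := (allB_iff _ _).1 h.1.2 i hi
  rw [frc_eq, cRT, allB_iff] at h2
  have h3 := h2 j hj
  rwa [cf_Row _ hj (by omega)] at h3

theorem safeG_sound {ex : Bool} {d6 : ℕ} {hs : List ℕ} {cols : List Col}
    (hm : m.rl = true ∨ m.wm = true) (hN : N1 α) (hO : Ok m V τ E) (hP : PS m p V τ E v)
    (h6 : ∀ i < p.n, tb d6 i = true → 6 ≤ ds V τ E (v i)) (h : safeG ex m p d6 hs cols = true) :
    ∀ g ∈ cols, typOk p g = true ∧ (g.r = 99 → ex = true) ∧ (g.r ≠ 99 → ∀ U σ,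
      ColG p g.ni g.ct V τ v U σ → Con3 (cV g v U) (cT g v σ)) := by
  have s7 := hP.s7
  rw [safeG, frc_eq, frc_eq, frc_eq, frc_eq, frc_eq, cf_Pc hP.n8, cf_Pc (by omega),
    Bool.and_eq_true, List.all_eq_true (l := cols)] at h
  obtain ⟨hh, hc⟩ := h
  have hT := cf_tab hm hO hP h6 hh
  intro g hg
  obtain ⟨h1, hq⟩ := Bool.and_eq_true_iff.1 (hc g hg)
  have ht := cf_typ hP.n8 h1
  refine ⟨ht, fun e => ?_, fun e U σ hG => ?_⟩
  · rwa [e] at hq
  rw [Bool.eq_false_iff.2 fun k => e (Nat.eq_of_beq_eq_true k), cond_false] at hq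
  cases e1 : Nat.beq g.r 97
  swap
  · rw [e1, cond_true] at hq
    exact cf_tt hO hP (rep_of hO hP ht hG) h6 hT hq
  rw [e1, cond_false] at hq
  cases e2 : nz g.r
  · rw [e2, cond_false] at hq
    exact hO.safe hm _ _ (cf_chg hO hP (rep_of hO hP ht hG) hT hq)
  · rw [e2, cond_true] at hq
    exact tri_sound hN hO hP ht hq hG

end Pool.Agent.Lib.MP_efe3d7_co.J
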