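import Pool.Agent.Lib.MP_efe3d7_co.J.CfD

/-! Two more tests for impossible labellings. -/

set_option autoImplicit false

namespace Pool.Agent.Lib.MP_efe3d7_co.J

open H

/-- The single outside vertex is cubic, so a terminal misses one of its neighbours. -/
def cX3 (pn : ℕ → ℕ) (p : Pre) (d6 J1 JS o1 o : ℕ) : Bool :=
  Nat.beq o1 1 && frc (Nat.lor J1 JS) fun J => frc (df J p.cl) fun X =>
  Nat.ble (Nat.add o (pn X)) 3 && anyB p.s fun i => tb J1 i && tb X i && tb p.d4 i &&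
    frc (df (Nat.lor (fld p.ha i) (df J (fld p.kn i))) (bt i)) fun U =>
      !nz (df (df X (bt i)) U) &&
        Nat.ble (Nat.add (pn U) o) (Nat.add (Nat.add 3 (cB1 p.d5 i)) (cB1 d6 i))

/-- A boundary vertex of large degree has too few neighbours in the candidate. -/
def cTry8 (pn ps : ℕ → ℕ) (m : Md) (p : Pre) (d6 J1 JS o1 o c : ℕ) : Bool :=
  let z := tb c 0
  m.q0 && frc (df (df (ful p.s) J1) JS) fun J2 =>
  frc (Nat.land J1 (Nat.shiftRight c 1)) fun J0 =>
  frc (cB p J0 c) fun B =>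
  let opn := nz (df J0 p.cl)
  (bif z then nz o1 else nz B && (Nat.ble o1 1 || !opn)) &&
  frc (cU p J1 JS z J0 B) fun U =>
  Nat.ble (Nat.add (pn U) (bif z then o else bif opn then Nat.add o o1 else 0)) 3 &&
  Nat.ble 2 (Nat.add (pn B) (bif z then o1 else 0)) &&
  anyB p.s fun y => tb U y && tb p.lt y && (tb J2 y || !z || tb p.cl y || Nat.ble o1 1) &&
    frc (Nat.add (pn (Nat.land (fld p.ha y) B))
      (bif tb J2 y then 0 else
        Nat.add (ps (df J0 (fld p.kn y))) (bif z && !tb p.cl y then o1 else 0))) fun k =>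
      (tb p.d5 y && Nat.ble k 2) || (tb d6 y && Nat.ble k 3)

/-- The hint is correct. -/
def cHint2 (l2 : Bool) (pn ps : ℕ → ℕ) (m : Md) (p : Pre) (d6 h : ℕ) : Bool :=
  frc (Nat.mod h 256) fun J1 => frc (Nat.mod (Nat.shiftRight h 8) 256) fun JS =>
  frc (Nat.mod (Nat.shiftRight h 16) 4) fun o1 => frc (Nat.mod (Nat.shiftRight h 18) 4) fun o =>
  frc (Nat.shiftRight h 20) fun c =>
  Nat.blt J1 (bt p.s) && Nat.blt JS (bt p.s) &&
    (cImp pn ps m p d6 c J1 JS o1 o || (l2 && cX3 pn p d6 J1 JS o1 o) ||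
      cTry8 pn ps m p d6 J1 JS o1 (bif p.al then 0 else o) c)

end Pool.Agent.Lib.MP_efe3d7_co.J
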