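import Pool.Agent.Lib.MP_efe3d7_co.J.Cf2
import Pool.Agent.Lib.MP_efe3d7_co.J.CfE

/-! A boundary vertex of large degree has many neighbours in the candidate set. -/

set_option autoImplicit false

open Finset

namespace Pool.Agent.Lib.MP_efe3d7_co.J

open H

variable {α : Type} [Fintype α] [DecidableEq α]

variable {m : Md} {p : Pre} {V : Finset α} {τ : Sym2 α → Fin 3} {E : Env α} {v : ℕ → α}

variable {J1 JS o1 o : ℕ} {O1 So : Finset α}

omit [Fintype α] in
theorem cf5_cnt (hO : Ok m V τ E) (hP : PS m p V τ E v) (hL : Lab p V τ E v J1 JS o1 o O1 So)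
    {J0 J2 B y : ℕ} (z : Bool) (hJ0 : ∀ i, tb J0 i = true → tb J1 i = true)
    (hJ2 : ∀ i, tb J2 i = true → tb J1 i = false ∧ tb JS i = false)
    (hB : ∀ i, tb B i = true → i < p.n ∧ (i < p.s → tb J0 i = true)) (hy : y < p.n)
    (hc : (tb J2 y || !z || tb p.cl y || Nat.ble o1 1) = true) :
    (nb V τ (v y) ∩ ((bs p.n B).image v ∪ (if z = true then O1 else ∅))).card ≤
      Nat.add (pc p.n (Nat.land (fld p.ha y) B)) (bif tb J2 y then 0 else
        Nat.add (pc p.s (df J0 (fld p.kn y))) (bif z && !tb p.cl y then o1 else 0)) := by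
  have hm := fun b => try2_mem (b := b) hO hP hL z hJ0 hB hy
  have hA : ∀ n M, ((bs n M).image v).card ≤ pc n M := fun n M => by
    rw [pc_eq]; exact card_image_le
  simp only [Nat.add_eq]
  cases hf : tb J2 y
  · rw [cond_false]
    cases hg : (z && !tb p.cl y)
    · rw [cond_false]
      refine (card_le_card (t := (bs p.n (Nat.land (fld p.ha y) B)).image v ∪
        (bs p.s (df J0 (fld p.kn y))).image v) fun b hb => ?_).trans
        ((card_union_le _ _).trans (Nat.add_le_add (hA _ _) (hA _ _)))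
      rcases hm b hb with h' | ⟨-, -, h' | ⟨h1, h2, -⟩⟩
      · exact mem_union_left _ h'
      · exact mem_union_right _ h'
      · rw [h1, h2] at hg
        exact Bool.noConfusion hg
    · rw [cond_true]
      have h1 := hL.co1
      rw [Bool.and_eq_true, Bool.not_eq_true'] at hg
      rw [hf, hg.1, hg.2] at hc
      have h2 : o1 ≤ 1 := Nat.le_of_ble_eq_true hc
      refine (card_le_card (t := ((bs p.n (Nat.land (fld p.ha y) B)).image v ∪
        (bs p.s (df J0 (fld p.kn y))).image v) ∪ O1) fun b hb => ?_).trans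
        ((card_union_le _ _).trans ((Nat.add_le_add_right ((card_union_le _ _).trans
          (Nat.add_le_add (hA _ _) (hA _ _))) _).trans (by omega)))
      rcases hm b hb with h' | ⟨-, -, h' | ⟨-, -, h'⟩⟩
      · exact mem_union_left _ (mem_union_left _ h')
      · exact mem_union_left _ (mem_union_right _ h')
      · exact mem_union_right _ h'
  · rw [cond_true]
    refine (card_le_card (t := (bs p.n (Nat.land (fld p.ha y) B)).image v) fun b hb => ?_).trans
      (hA _ _)
    rcases hm b hb with h' | ⟨-, hj, -⟩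
    · exact h'
    · obtain ⟨h1, h2⟩ := hJ2 y hf
      rw [h1, h2] at hj
      exact hj.elim Bool.noConfusion Bool.noConfusion

omit [Fintype α] in
theorem cf5_door (hm : m.rl = true ∨ m.wm = true) (hO : Ok2 m V τ E) (hq : m.q0 = true) {t : α}
    (ht : t ∈ E.T) (h4 : 4 ≤ ds V τ E t) : ∀ d ∈ nb V τ t, d ∉ E.Dr := by
  intro d hd hD
  have hw : m.wm = false := by
    cases e : m.wm
    · rfl
    · rw [(hO.ok.oms e).1] at ht
      exact absurd ht (notMem_empty t)
  have hr : m.rl = true := hm.resolve_right (by rw [hw]; exact Bool.false_ne_true)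
  obtain ⟨-, a, ha, h1⟩ := hO.ok.dr1 d hD
  rw [hO.ok.omn hw] at h1
  obtain ⟨a1, a2⟩ := h1.resolve_right (by simp)
  have h2 := hO.dt hr ((hO.q3 hq).trans (card_le_card sdiff_subset)) d hD
  have e := card_le_one.1 h2 a (mem_inter.2 ⟨ha, a1⟩) t
    (mem_inter.2 ⟨nb_symm (hO.ok.subT ht) hd, ht⟩)
  rw [e] at a2
  omega

omit [Fintype α] in
theorem cf_try8 (hm : m.rl = true ∨ m.wm = true) (hO : Ok2 m V τ E) (hP : PS m p V τ E v)
    {d6 c : ℕ} (h6 : ∀ i < p.n, tb d6 i = true → 6 ≤ ds V τ E (v i))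
    (hL : Lab p V τ E v J1 JS o1 o O1 So)
    (h : cTry8 (pc p.n) (pc p.s) m p d6 J1 JS o1 o c = true) : False := by
  simp only [cTry8, frc_eq] at h
  have hJ0 : ∀ i, tb (Nat.land J1 (Nat.shiftRight c 1)) i = true → tb J1 i = true := fun i hi => by
    rw [tb_land, Bool.and_eq_true] at hi
    exact hi.1
  have hJ2 : ∀ i, tb (df (df (ful p.s) J1) JS) i = true → tb J1 i = false ∧ tb JS i = false :=
    fun i hi => by
      simp only [tb_df, Bool.and_eq_true, Bool.not_eq_true'] at hi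
      exact ⟨hi.1.2, hi.2⟩
  generalize df (df (ful p.s) J1) JS = J2 at h hJ2
  generalize Nat.land J1 (Nat.shiftRight c 1) = J0 at h hJ0
  generalize tb c 0 = z at h
  generalize hB : cB p J0 c = B at h
  generalize hU : cU p J1 JS z J0 B = U at h
  rw [Bool.and_eq_true, Bool.and_eq_true, Bool.and_eq_true, Bool.and_eq_true, anyB_iff] at h
  obtain ⟨hq, h0, ⟨h1, h2⟩, y, hy, h⟩ := h
  rw [Bool.and_eq_true, Bool.and_eq_true, Bool.and_eq_true] at h
  obtain ⟨⟨⟨y1, y2⟩, y3⟩, y4⟩ := h
  have hz : z = false → nz (df J0 p.cl) = true → o1 ≤ 1 := by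
    rintro rfl k
    simpa [k] using (show (Nat.ble o1 1 || !nz (df J0 p.cl)) = true from
      (Bool.and_eq_true _ _ ▸ h0 : _ ∧ _).2)
  obtain ⟨bB, -, Br, Ur, adm, cov, dis, eB, cB', cU', -, -, -⟩ :=
    cand hO.ok hP hL c z hJ0 (Or.inl rfl) hz hB.symm hU.symm
  have co := hL.co1
  have eu : Nat.add (pc p.n U) (bif z then o else bif nz (df J0 p.cl) then
      Nat.add o o1 else 0) = pc p.n U +
      (if z = true then o else if nz (df J0 p.cl) = true then o + o1 - 0 else 0) := by
    cases z <;> cases nz (df J0 p.cl) <;> rfl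
  have eb : Nat.add (pc p.n B) (bif z then o1 else 0) = pc p.n B + if z = true then o1 else 0 := by
    cases z <;> rfl
  rw [eu, Nat.ble_eq] at h1
  rw [eb, Nat.ble_eq] at h2
  have h3 : 2 ≤ Br.card := by
    split_ifs at h2 cB' <;> omega
  obtain ⟨c1, c2, -⟩ := hO.ok.a2 hm Br Ur adm h3 cov dis (cU'.trans h1)
  have hn : y < p.n := hy.trans_le hP.sn
  have hT := hP.lt y hn y2
  have k1 := cf5_cnt hO.ok hP hL z hJ0 hJ2 bB hn y3
  rw [← eB] at k1
  generalize Nat.add (pc p.n (Nat.land (fld p.ha y) B)) _ = k at k1 y4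
  simp only [Bool.or_eq_true, Bool.and_eq_true, Nat.ble_eq] at y4
  have k2 : k + 3 ≤ ds V τ E (v y) ∧ 4 ≤ ds V τ E (v y) := by
    rcases y4 with ⟨e1, e2⟩ | ⟨e1, e2⟩
    · have := hP.d5 y hn e1
      omega
    · have := h6 y hn e1
      omega
  have k3 : nb V τ (v y) ∩ E.Q ⊆ nb V τ (v y) ∩ Br := fun d hd => by
    obtain ⟨d1, d2⟩ := mem_inter.1 hd
    refine mem_inter.2 ⟨d1, ?_⟩
    by_contra e
    by_cases e' : d ∈ Ur
    · exact cf5_door hm hO hq hT k2.2 d d1 (c2 d e' d2)
    · exact hO.ok.dis d d2 (c1 d (Or.inl d2) e e').1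
  have k4 := card_le_card k3
  have k5 := k2.1
  rw [ds_nQ fun e => hO.ok.dis _ e hT] at k5
  omega

end Pool.Agent.Lib.MP_efe3d7_co.J
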