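import Pool.Agent.Lib.MP_efe3d7_co.H.Defs

/-! Cubic vertices with two edges among their neighbours. -/

set_option autoImplicit false

namespace Pool.Agent.Lib.MP_efe3d7_co.J

open H

/-- A cubic vertex of the region has at most one edge among its neighbours. -/
def L2 {α : Type} [DecidableEq α] (V : Finset α) (τ : Sym2 α → Fin 3) (E : Env α) : Prop :=
  ∀ y ∈ E.Q, dg V τ y = 3 → ∀ a ∈ nb V τ y, ∀ b ∈ nb V τ y, ∀ c ∈ nb V τ y, b ≠ c →
    b ∈ nb V τ a → c ∈ nb V τ a → False

end Pool.Agent.Lib.MP_efe3d7_co.J
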