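import Pool.Agent.Lib.MP_efe3d7_co.J.Cf2
import Pool.Agent.Lib.MP_efe3d7_co.J.Cf5
import Pool.Agent.Lib.MP_efe3d7_co.J.L2D

/-! The table of impossible labellings, with two more tests. -/

set_option autoImplicit false

open Finset

namespace Pool.Agent.Lib.MP_efe3d7_co.J

open H

variable {α : Type} [Fintype α] [DecidableEq α]

variable {m : Md} {p : Pre} {V : Finset α} {τ : Sym2 α → Fin 3} {E : Env α} {v : ℕ → α}

omit [Fintype α] in
theorem cf_x3 (hO : Ok m V τ E) (hP : PS m p V τ E v) (hl : L2 V τ E) {d6 J1 JS o1 o : ℕ}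
    {O1 So : Finset α} (h6 : ∀ i < p.n, tb d6 i = true → 6 ≤ ds V τ E (v i))
    (hL : Lab p V τ E v J1 JS o1 o O1 So) (h : cX3 (pc p.n) p d6 J1 JS o1 o = true) : False := by
  simp only [cX3, frc_eq, Bool.and_eq_true, Nat.ble_eq, Nat.beq_eq, anyB_iff, Bool.not_eq_true',
    nz_false, Nat.add_eq] at h
  obtain ⟨h1, h2, i, hi, ⟨⟨i1, i2⟩, i4⟩, h3, h4⟩ := h
  obtain ⟨X, hX⟩ : ∃ X, X = df (Nat.lor J1 JS) p.cl := ⟨_, rfl⟩
  obtain ⟨U, hU⟩ : ∃ U, U = df (Nat.lor (fld p.ha i) (df (Nat.lor J1 JS) (fld p.kn i))) (bt i) :=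
    ⟨_, rfl⟩
  rw [← hX] at h2 i2 h3
  rw [← hU] at h3 h4
  have sn := hP.sn
  have hi' : i < p.n := by omega
  have c1 := hL.co1
  have c2 := hL.co
  obtain ⟨y, hy⟩ := card_eq_one.1 (by omega : O1.card = 1)
  have hy' : y ∈ O1 := hy ▸ mem_singleton_self y
  have yQ := (hL.oQ y hy').1
  have hs : ∀ j, tb J1 j = true ∨ tb JS j = true → j < p.n := fun j h =>
    (h.elim (fun h => (hL.j1 j h).1) (hL.js j)).trans_le sn
  have s1 : nb V τ y ⊆ So ∪ (bs p.n X).image v := fun z hz => by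
    rcases hL.nO y hy' z hz with h | h | ⟨j, hj, rfl⟩
    · exact absurd (mem_singleton.1 (hy ▸ h)) (mem_nb.1 hz).2.1
    · exact mem_union_left _ h
    · refine mem_union_right _ (mem_image_of_mem _ (mem_bs.2 ⟨hs j hj, ?_⟩))
      rw [hX, tb_df, tb_lor, imp_op hO hP hL hy' (hs j hj) hz]
      simpa using hj
  have d3 := hO.ds3 y (Or.inl yQ)
  rw [ds_Q yQ] at d3
  have c3 := card_union_le So ((bs p.n X).image v)
  rw [card_img hP.inj] at c3
  have c4 := card_le_card s1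
  have e1 : nb V τ y = So ∪ (bs p.n X).image v :=
    eq_of_subset_of_card_le s1 (by unfold dg at d3; omega)
  have e3 : dg V τ y = 3 := by unfold dg at d3 ⊢; omega
  have a1 : v i ∈ nb V τ y := e1 ▸ mem_union_right _ (mem_image_of_mem _ (mem_bs.2 ⟨hi', i2⟩))
  obtain ⟨z, z1, z2⟩ : ∃ z ∈ (nb V τ y).erase (v i), z ∉ nb V τ (v i) := by
    by_contra! k
    obtain ⟨b, hb, c, hc, bc⟩ := one_lt_card.1 (show 1 < ((nb V τ y).erase (v i)).card by
      rw [card_erase_of_mem a1]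
      unfold dg at e3
      omega)
    exact hl y yQ e3 _ a1 b (mem_of_mem_erase hb) c (mem_of_mem_erase hc) bc (k b hb) (k c hc)
  have z3 : z ∈ (bs p.n U).image v ∪ (So ∪ O1) := by
    rcases mem_union.1 (e1 ▸ mem_of_mem_erase z1) with h | h
    · exact mem_union_right _ (mem_union_left _ h)
    · obtain ⟨j, hj, rfl⟩ := mem_image.1 h
      refine mem_union_left _ (mem_image_of_mem _ (mem_bs.2 ⟨(mem_bs.1 hj).1, ?_⟩))
      have := h3 j
      have ne : ¬ i = j := fun e => (mem_erase.1 z1).1 (e ▸ rfl)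
      rw [tb_df, tb_df, tb_bt, (mem_bs.1 hj).2] at this
      simpa [ne] using this
  have s2 : nb V τ (v i) ⊆ ((bs p.n U).image v ∪ (So ∪ O1)).erase z := fun w hw => by
    refine mem_erase.2 ⟨fun e => z2 (e ▸ hw), ?_⟩
    by_cases k : ∀ l < p.n, v l ≠ w
    · exact mem_union_right _ (mem_union.2 (hL.nJ i i1 w hw k).symm)
    push Not at k
    obtain ⟨j, hj, rfl⟩ := k
    obtain ⟨-, w1, w2⟩ := mem_nb.1 hw
    have ne : i ≠ j := fun e => w1 (e ▸ rfl)
    refine mem_union_left _ (mem_image_of_mem _ (mem_bs.2 ⟨hj, ?_⟩))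
    rw [hU, tb_df, tb_lor, tb_df, tb_lor, tb_bt]
    cases k1 : tb (fld p.kn i) j
    · have js : j < p.s := by
        by_contra c
        rw [hP.kns i hi' j hj, (hP.int j hj (by omega)).2.2 i hi' ne.symm] at k1
        cases k1
      rcases hL.nU i i1 j js ne k1 w2 with k2 | k2 <;> simp [k2, ne]
    · cases k2 : tb (fld p.ha i) j
      · exact absurd (hP.kn i hi' j hj ne k1 k2) w2
      · simp [ne]
  have c5 := card_le_card s2
  have c6 := card_union_le ((bs p.n U).image v) (So ∪ O1)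
  have c7 := card_union_le So O1
  rw [card_erase_of_mem z3] at c5
  rw [card_img hP.inj] at c6
  have iQ := (hL.j1 i i1).2
  have g4 := hP.d4 i hi' i4
  have g5 := hP.d5 i hi'
  have g6 := h6 i hi'
  rw [ds_Q iQ] at g4 g5 g6
  unfold dg at g4 g5 g6
  unfold cB1 at h4
  revert h4 g5 g6
  cases tb p.d5 i <;> cases tb d6 i <;> simp <;> omega

theorem cf_imp2 (hm : m.rl = true ∨ m.wm = true) (hO : Ok2 m V τ E) (hP : PS m p V τ E v)
    {l2 : Bool} (hl : l2 = true → L2 V τ E) {d6 c J1 JS o1 o : ℕ} {O1 So : Finset α}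
    (h6 : ∀ i < p.n, tb d6 i = true → 6 ≤ ds V τ E (v i)) (hL : Lab p V τ E v J1 JS o1 o O1 So)
    (h : (cImp (pc p.n) (pc p.s) m p d6 c J1 JS o1 o || (l2 && cX3 (pc p.n) p d6 J1 JS o1 o) ||
      cTry8 (pc p.n) (pc p.s) m p d6 J1 JS o1 (bif p.al then 0 else o) c) = true) : False := by
  rw [Bool.or_eq_true, Bool.or_eq_true, Bool.and_eq_true] at h
  rcases h with (h | h) | h
  · exact cf_imp hm hO.ok hP h6 hL h
  · exact cf_x3 hO.ok hP (hl h.1) h6 hL h.2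
  · obtain ⟨-, So', hL'⟩ := imp_al hO.ok hP hL
    exact cf_try8 hm hO hP h6 hL' h

theorem cf_hint2 (hm : m.rl = true ∨ m.wm = true) (hO : Ok2 m V τ E) (hP : PS m p V τ E v)
    {l2 : Bool} (hl : l2 = true → L2 V τ E) {d6 h q : ℕ}
    (h6 : ∀ i < p.n, tb d6 i = true → 6 ≤ ds V τ E (v i))
    (hh : cHint2 l2 (pc p.n) (pc p.s) m p d6 h = true) (hq : tb (Nat.land
      (cEQ p.s (Nat.mod h 256)) (cSB p.s (Nat.mod (Nat.shiftRight h 8) 256))) q = true) :
    q < 65536 ∧ CBad p V τ E v q (Nat.mod (Nat.shiftRight h 16) 4)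
      (Nat.mod (Nat.shiftRight h 18) 4) := by
  simp only [cHint2, frc_eq] at hh
  rw [Bool.and_eq_true, Bool.and_eq_true, Nat.blt_eq, Nat.blt_eq] at hh
  obtain ⟨⟨h1, h2⟩, h3⟩ := hh
  rw [tb_land, Bool.and_eq_true] at hq
  obtain ⟨q1, q2⟩ := cf_EQ hq.1
  obtain ⟨-, q3⟩ := cf_SB hq.2
  generalize Nat.mod h 256 = A at h1 h3 q2
  generalize Nat.mod (Nat.shiftRight h 8) 256 = B at h2 h3 q3
  refine ⟨q1, fun J1 JS k1 k2 o' ho O1 So hL => ?_⟩
  have e : ∀ i, tb A i = true ↔ tb J1 i = true := fun i => by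
    rw [k1]
    exact ⟨fun k => ⟨lt_of_tb h1 k, (q2 i (lt_of_tb h1 k)).trans k⟩,
      fun k => (q2 i k.1).symm.trans k.2⟩
  obtain rfl : A = J1 := Nat.eq_of_testBit_eq fun i => by
    rw [← tb_eq, ← tb_eq, Bool.eq_iff_iff, e]
  have e2 : ∀ i, tb JS i = true → tb B i = true := fun i k => q3 i ((k2 i).1 k).1 ((k2 i).1 k).2
  refine cf_imp2 hm hO hP hl h6 (O1 := O1) (So := So) ⟨hL.j1, fun i k => lt_of_tb h2 k, hL.oQ,
    hL.so,
    hL.co1, hL.co.trans ho, fun y hy z hz => ?_, hL.nJ, fun i hi j hj ij k t => ?_, hL.adm⟩ h3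
  · exact (hL.nO y hy z hz).imp_right (Or.imp_right fun ⟨i, a, b⟩ => ⟨i, a.imp_right (e2 i), b⟩)
  · exact (hL.nU i hi j hj ij k t).imp_right (e2 j)

theorem cf_tab2 (hm : m.rl = true ∨ m.wm = true) (hO : Ok2 m V τ E) (hP : PS m p V τ E v)
    {l2 : Bool} (hl : l2 = true → L2 V τ E) {d6 : ℕ}
    (h6 : ∀ i < p.n, tb d6 i = true → 6 ≤ ds V τ E (v i)) {hs : List ℕ}
    (hh : hs.all (cHint2 l2 (pc p.n) (pc p.s) m p d6) = true) : CTab p V τ E v (cTab p.s hs) := by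
  intro q o1 o h1 hq
  rw [cSl, tb_land, cf_ON, cf_shr, Bool.and_eq_true, decide_eq_true_eq] at hq
  obtain ⟨q1, q2⟩ := hq
  induction hs with
  | nil =>
    have e : cTab p.s [] = 0 := rfl
    rw [e, tb_zero] at q2
    cases q2
  | cons h hs ih =>
    have e : cTab p.s (h :: hs) = Nat.lor (cHM p.s h) (cTab p.s hs) := rfl
    rw [List.all_cons, Bool.and_eq_true] at hh
    rw [e, tb_lor, Bool.or_eq_true] at q2
    refine q2.elim (fun k => ?_) (ih hh.2)
    rw [cHM, frc_eq, frc_eq, cf_shl, Bool.and_eq_true, decide_eq_true_eq] at k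
    obtain ⟨k1, k2⟩ := k
    obtain ⟨k3, k4⟩ := cf_hint2 hm hO hP hl h6 hh.1 k2
    have e1 : Nat.mod (Nat.shiftRight h 16) 16 = h / 65536 % 16 := by
      show h >>> 16 % 16 = _
      rw [Nat.shiftRight_eq_div_pow]
    have e2 : Nat.mod (Nat.shiftRight h 16) 4 = h / 65536 % 4 := by
      show h >>> 16 % 4 = _
      rw [Nat.shiftRight_eq_div_pow]
    have e3 : Nat.mod (Nat.shiftRight h 18) 4 = h / 262144 % 4 := by
      show h >>> 18 % 4 = _
      rw [Nat.shiftRight_eq_div_pow]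
    rw [e1] at k1 k3 k4
    rw [e2, e3] at k4
    simp only [Nat.mul_eq] at k1 k3 k4
    have e4 : h / 65536 % 16 = 4 * o + o1 := by omega
    have e5 : h / 65536 % 4 = o1 := by omega
    have e6 : h / 262144 % 4 = o := by omega
    rwa [e4, e5, e6, Nat.add_sub_cancel_left] at k4

end Pool.Agent.Lib.MP_efe3d7_co.J
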