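import Pool.Agent.Lib.MP_efe3d7_co.H.Chk

/-! A fast test that the columns of a certificate stay in the class. -/

set_option autoImplicit false

namespace Pool.Agent.Lib.MP_efe3d7_co.J

open H

/-- All positions. A position is a pair of masks `A + 256 * S`. -/
def cON : ℕ := ful 65536

/-- The positions below `2 ^ n` with bit `k`. -/
def cMA (k n : ℕ) : ℕ :=
  Nat.rec 0 (fun i r => bif Nat.beq i k then Nat.shiftLeft (ful (bt k)) (bt k) else
    frc r fun t => Nat.lor t (Nat.shiftLeft t (bt i))) n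

/-- The positions with bit `k`. -/
def cMK (k : ℕ) : ℕ := frc k fun j => Nat.lor 0 (cMA j 16)

/-- The positions with `k` in `S`. -/
def cMS (k : ℕ) : ℕ := cMK (Nat.add 8 k)

/-- The union of the masks `g i` over `i < n` with `f i`. -/
def cUn (n : ℕ) (f : ℕ → Bool) (g : ℕ → ℕ) : ℕ :=
  Nat.rec 0 (fun i r => bif f i then Nat.lor (g i) r else r) n

/-- The positions where `A` agrees with `J` below `s`. -/
def cEQ (s J : ℕ) : ℕ :=
  Nat.rec cON (fun k r => bif tb J k then Nat.land r (cMK k) else frc r fun t => df t (cMK k)) s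

/-- The positions where `S` is contained in `J` below `s`. -/
def cSB (s J : ℕ) : ℕ :=
  Nat.rec cON (fun k r => bif tb J k then r else frc r fun t => df t (cMS k)) s

/-- The positions where `S` has at least `t` elements below `k`. -/
def cZA (k : ℕ) : ℕ → ℕ :=
  Nat.rec (fun t => bif Nat.beq t 0 then cON else 0)
    (fun i r t => Nat.lor (r t) (frc (Nat.pred t) fun u => Nat.land (cMS i) (r u))) k

/-- The positions where `S` has at least `t` elements. -/
def cZG (t : ℕ) : ℕ := frc t fun u => Nat.lor 0 (cZA 8 u)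

/-- The positions where `A` meets `S`. -/
def cUT : ℕ := cUn 8 (fun _ => true) fun k => Nat.land (cMK k) (cMS k)

/-- The positions that use an index from `w` on. -/
def cOUT (w : ℕ) : ℕ := cUn 8 (fun k => Nat.ble w k) fun k => Nat.lor (cMK k) (cMS k)

/-- The positions that are excluded by an edge. -/
def cEM (i j : ℕ) : ℕ :=
  Nat.lor (df (df (cMK i) (cMK j)) (cMS j)) (df (df (cMK j) (cMK i)) (cMS i))

/-- The positions that are excluded by a row of edges. -/
def cRW (i r : ℕ) : ℕ := cUn i (fun j => nz (dig r j)) (cEM i)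

/-- Row `i` of a table of types. -/
def cRow (ct i : ℕ) : ℕ := Nat.mod (Nat.shiftRight ct (Nat.mul 48 i)) 16777216

/-- The number of bits of each byte. -/
def cPT : ℕ := 95125173855764218123276304889944061997689682402263585766959741291920687686033329201817409157123347502415384089435969498586180241031507595463600295898153685276653211633572815512294064538494957912327413386667662218713394765509704508661031522276467630197481635010039778342554499416459730172574551513689147646224

/-- The number of bits of `M` in the mask `F`. -/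
def cPc (F M : ℕ) : ℕ := hx cPT (Nat.land M F)

/-- A copy of `tryC` with the counting function as a parameter. -/
def cTry (pn ps : ℕ → ℕ) (m : Md) (p : Pre) (J1 J2 JS o1 o rd np nd c : ℕ) : Bool :=
  let z := tb c 0
  frc (Nat.land J1 (Nat.shiftRight c 1)) fun J0 =>
  frc (cB p J0 c) fun B =>
  let opn := nz (df J0 p.cl)
  (bif z then nz o1 else nz B && (Nat.ble o1 1 || !opn)) &&
  frc (cU p J1 JS z J0 B) fun U =>
  frc (Nat.add (pn U) (bif z then o else bif opn then Nat.sub (Nat.add o o1) rd else 0)) fun u =>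
  frc (Nat.add (pn B) (bif z then o1 else 0)) fun b =>
  Nat.ble u 2 ||
  (!z && Nat.beq b 1 &&
    ((nz (Nat.land B p.d4) && Nat.ble u 3) || (nz (Nat.land B p.d5) && Nat.ble u 4))) ||
  (Nat.ble 2 b && Nat.ble u 3 &&
    (frc (df (df (ful p.n) B) U) (fun C => nz (Nat.land C np) || Nat.ble 4 (pn C)) ||
      nz (Nat.land U nd) || (nz o1 && !z && !opn) ||
      (m.q0 && (!z || Nat.ble o1 1) && Nat.ble b 2) || (m.wm && p.hf U) ||
      ((m.q0 || m.wm) && anyB p.n fun y => tb U y && tb np y &&
        Nat.ble (Nat.add (pn (Nat.land (fld p.ha y) B))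
          (bif Nat.ble p.s y || tb J2 y then 0 else
            Nat.add (ps (df J0 (fld p.kn y))) (bif z && !tb p.cl y then o1 else 0))) 1)))

/-- The candidate is a single vertex of degree at least six with at most five neighbours. -/
def cTry6 (pn : ℕ → ℕ) (p : Pre) (d6 J1 JS o1 o rd c : ℕ) : Bool :=
  frc (Nat.land J1 (Nat.shiftRight c 1)) fun J0 =>
  frc (cB p J0 c) fun B =>
  let opn := nz (df J0 p.cl)
  (Nat.ble o1 1 || !opn) && Nat.beq (pn B) 1 && nz (Nat.land B d6) &&
    Nat.ble (Nat.add (pn (cU p J1 JS false J0 B))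
      (bif opn then Nat.sub (Nat.add o o1) rd else 0)) 5

/-- The vertices that are not pendant. -/
def cNp (pn : ℕ → ℕ) (p : Pre) (J1 : ℕ) : ℕ :=
  frc (Nat.lor (Nat.lor (df (ful p.n) (ful p.s)) p.lq) J1) fun Qk =>
  Nat.lor (Nat.lor Qk p.d4) (msk p.s fun a => Nat.ble 2 (pn (Nat.land (fld p.ha a) Qk)))

/-- The vertices that are not doors. -/
def cNd (p : Pre) (np : ℕ) : ℕ :=
  Nat.lor p.dn (msk p.n fun y => Nat.ble p.s y && !nz (df (fld p.ha y) np))

/-- A copy of `imp` for one candidate. -/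
def cImp (pn ps : ℕ → ℕ) (m : Md) (p : Pre) (d6 c J1 JS o1 o' : ℕ) : Bool :=
  frc (bif p.al then 0 else o') fun o =>
  frc (cNp pn p J1) fun np =>
  frc (cNd p np) fun nd =>
  frc (df (Nat.lor J1 JS) p.cl) fun X =>
  let u := Nat.add o (bif p.hf X then Nat.pred (ps X) else ps X)
  let one := Nat.beq o1 1
  let r := one && m.big && !m.wm && Nat.ble u 3 && !nz (df (df JS np) p.cl)
  (one && Nat.ble u 2) || (r && Nat.beq o 0) ||
    cTry pn ps m p J1 (df (df (ful p.s) J1) JS) JS o1 o (bif r then 1 else 0) np nd c ||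
    cTry6 pn p d6 J1 JS o1 o (bif r then 1 else 0) c

/-- The hint is correct. -/
def cHint (pn ps : ℕ → ℕ) (m : Md) (p : Pre) (d6 h : ℕ) : Bool :=
  frc (Nat.mod h 256) fun J1 => frc (Nat.mod (Nat.shiftRight h 8) 256) fun JS =>
  frc (Nat.mod (Nat.shiftRight h 16) 4) fun o1 => frc (Nat.mod (Nat.shiftRight h 18) 4) fun o =>
  frc (Nat.shiftRight h 20) fun c =>
  Nat.blt J1 (bt p.s) && Nat.blt JS (bt p.s) && cImp pn ps m p d6 c J1 JS o1 o

/-- The positions covered by a hint. -/
def cHM (s h : ℕ) : ℕ :=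
  frc (Nat.mod h 256) fun J1 => frc (Nat.mod (Nat.shiftRight h 8) 256) fun JS =>
  Nat.shiftLeft (Nat.land (cEQ s J1) (cSB s JS)) (Nat.mul 65536 (Nat.mod (Nat.shiftRight h 16) 16))

/-- The table of all hints. -/
def cTab (s : ℕ) (hs : List ℕ) : ℕ := hs.foldr (fun h r => Nat.lor (cHM s h) r) 0

/-- A slice of the table. -/
def cSl (T e : ℕ) : ℕ := Nat.land cON (Nat.shiftRight T (Nat.mul 65536 e))

/-- The positions covered for a given `o1`. -/
def cH (T d o1 : ℕ) : ℕ :=
  Nat.lor (Nat.lor (Nat.land (cZG (Nat.add 2 d)) (cSl T o1))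
    (Nat.land (cZG (Nat.add 1 d)) (cSl T (Nat.add 4 o1)))) (cSl T (Nat.add 8 o1))

/-- The positions that are harmless, if `S` has at most `d` elements too many. -/
def cGood (p : Pre) (T d : ℕ) : ℕ :=
  Nat.lor (Nat.lor (Nat.lor cUT (cZG (Nat.add 3 d))) (cUn p.s (tb p.lt) cMK))
    (Nat.land (Nat.lor (cEQ 8 0) (cH T d 0))
      (bif p.al then cON else Nat.land (cH T d 1) (cH T d 2)))

/-- The types in a row are meaningful. -/
def cRT (p : Pre) (i r : ℕ) : Bool :=
  allB i fun j => Nat.ble (dig r j) 2 && (Nat.ble p.s i || tb (fld p.kn i) j || Nat.ble (dig r j) 1)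

/-- The edges outside the region are kept in a row. -/
def cRC (p : Pre) (i r : ℕ) : Bool :=
  allB i fun j => !tb (fld p.ha i) j || tb p.lq i || tb p.lq j || nz (dig r j)

/-- A copy of `typOk`. -/
def cTyp (p : Pre) (c : Col) : Bool :=
  Nat.ble (Nat.add p.s c.ni) p.n &&
  (allB (Nat.add p.s c.ni) fun i => frc (cRow c.ct i) fun r => cRT p i r) &&
  (!c.mg || (Nat.blt c.a p.s && Nat.blt c.b p.s && !Nat.beq c.a c.b && tb p.lq c.b &&
    tb (fld p.kn c.a) c.b && tb (fld p.fb c.a) c.b && Nat.beq (ty c.ct c.a c.b) 0 &&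
    allB (Nat.add p.s c.ni) fun i => Nat.beq i c.a || Nat.beq i c.b ||
      !(pf p c.ct c.a i && pf p c.ct c.b i)))

/-- The positions that are excluded by the edges of a column on `w` vertices. -/
def cEd (w ct : ℕ) : ℕ :=
  Nat.lor (cUn w (fun _ => true) fun i => frc (cRow ct i) fun r => Nat.lor 0 (cRW i r)) (cOUT w)

/-- The mask contains all positions. -/
def cAll (M : ℕ) : Bool := Nat.beq cON (Nat.land cON M)

/-- All positions are excluded or harmless. -/
def cCut (p : Pre) (G0 G1 : ℕ) (c : Col) : Bool :=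
  frc (Nat.add p.s c.ni) fun w => frc c.ct fun ct =>
  cAll (Nat.lor (cEd w ct)
    (bif c.mg then frc c.a fun a => frc c.b fun b =>
      Nat.lor (Nat.lor (Nat.xor (cMK a) (cMK b)) (Nat.xor (cMS a) (cMS b)))
        (Nat.lor (df G0 (cMS a)) G1) else G0))

/-- The region is not empty in the column, or the boundary is a triangle. -/
def cNem (m : Md) (p : Pre) (c : Col) : Bool :=
  nz c.ni || Nat.ble (bif c.mg then 5 else 4) p.s ||
    (anyB p.s fun i => tb p.lq i && !(c.mg && Nat.beq i c.b)) ||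
    (m.rl && !c.mg && (Nat.ble p.n (Nat.succ p.s) ||
      (Nat.beq p.s 3 && nz (ty c.ct 0 1) && nz (ty c.ct 0 2) && nz (ty c.ct 1 2))))

/-- A fast version of `chgOk`. -/
def cChg (m : Md) (p : Pre) (G0 G1 : ℕ) (c : Col) : Bool :=
  (allB p.s fun i => frc (cRow c.ct i) fun r => cRC p i r) && cNem m p c && cCut p G0 G1 c

/-- The intersection of the masks `g i` over `i < n` with `f i`. -/
def cAn (n : ℕ) (f : ℕ → Bool) (g : ℕ → ℕ) : ℕ :=
  Nat.rec cON (fun i r => bif f i then Nat.land (g i) r else r) n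

/-- Positions where `A` has fewer than `n` elements. -/
def cSK (n : ℕ) : ℕ :=
  bif Nat.beq n 0 then 0 else bif Nat.beq n 1 then cEQ 8 0 else
    Nat.lor (cEQ 8 0) (cUn 8 (fun _ => true) fun k => cEQ 8 (bt k))

/-- The positions that are harmless for a boundary vertex of degree at least `e + 3`. -/
def cGT (p : Pre) (T e : ℕ) : ℕ :=
  Nat.lor (Nat.lor (Nat.lor (Nat.lor cUT (cZG 4)) (cUn p.s (tb p.lt) cMK))
      (bif Nat.beq (pc p.n p.lt) 3 then cAn p.n (tb p.lt) cMS else 0))
    (Nat.land (Nat.lor (cSK (Nat.succ e)) (cH T 1 0))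
      (bif p.al then cON else Nat.land (Nat.lor (cSK e) (cH T 1 1)) (cH T 1 2)))

/-- The terminal may lose an edge outside the region. -/
def cLost (p : Pre) (ct i : ℕ) : Bool :=
  !tb p.lq i && anyB p.s fun j => !tb p.lq j && tb (fld p.ha i) j && !nz (ty ct i j)

/-- Two vertices of the boundary are not adjacent. -/
def cRho (p : Pre) : Bool :=
  anyB p.n fun a => tb p.lt a &&
    nz (df (df (Nat.land (Nat.land p.lt (ful p.n)) (fld p.kn a)) (fld p.ha a)) (bt a))

/-- One if bit `i` is set. -/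
def cB1 (M i : ℕ) : ℕ := bif tb M i then 1 else 0

/-- Edges between two vertices outside the region are deleted. -/
def cTT (pn : ℕ → ℕ) (m : Md) (p : Pre) (d6 T G0 : ℕ) (c : Col) : Bool :=
  m.rl && !c.mg && cNem m p c && cCut p G0 0 c &&
  frc (Nat.add p.s c.ni) fun w => frc c.ct fun ct =>
  allB p.s fun t => !cLost p ct t ||
    frc (msk w fun j => !Nat.beq t j && nz (ty ct t j)) fun cm =>
    frc (Nat.add (pn cm) (bif cRho p then 1 else 0)) fun d1 =>
    frc (Nat.sub (Nat.add (Nat.add (Nat.add (Nat.add 3 (cB1 p.d4 t)) (cB1 p.d5 t)) (cB1 d6 t))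
      (pn (Nat.land cm (fld p.kn t)))) (pn (fld p.ha t))) fun d2 =>
    (Nat.ble 3 d1 || Nat.ble 3 d2) && (cRho p ||
      cAll (Nat.lor (Nat.lor (cEd w ct) (df cON (cMS t)))
        (Nat.lor (cUn w (tb cm) fun j => df (df cON (cMK j)) (cMS j))
          (bif Nat.ble 5 d1 || Nat.ble 5 d2 then cGT p T 2 else
            bif Nat.ble 4 d1 || Nat.ble 4 d2 then cGT p T 1 else cGT p T 0))))

/-- The columns are meaningful and stay in the class. -/
def safeG (ex : Bool) (m : Md) (p : Pre) (d6 : ℕ) (hs : List ℕ) (cols : List Col) : Bool :=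
  frc (ful p.n) fun Fn => frc d6 fun d6 =>
  (frc (ful p.s) fun Fs => hs.all (cHint (cPc Fn) (cPc Fs) m p d6)) &&
  frc (cTab p.s hs) fun T => frc (cGood p T 0) fun G0 =>
  cols.all fun g => cTyp p g &&
    (bif Nat.beq g.r 99 then ex else bif Nat.beq g.r 97 then cTT (cPc Fn) m p d6 T G0 g else
      bif nz g.r then triOk p g else cChg m p G0 (cGood p T 1) g)

end Pool.Agent.Lib.MP_efe3d7_co.J
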