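import Pool.Agent.Lib.MP_efe3d7_co.J.CsD

/-! Deleting edges in the boundary: reduction to small cuts at one vertex. -/

set_option autoImplicit false

open Finset

namespace Pool.Agent.Lib.MP_efe3d7_co.J

open H

variable {α : Type} [Fintype α] [DecidableEq α]

variable {m : Md} {p : Pre} {V : Finset α} {τ : Sym2 α → Fin 3} {E : Env α} {v : ℕ → α}

variable {g : Col} {V' : Finset α} {τ' : Sym2 α → Fin 3} {i q : ℕ} {B S : Finset α}

theorem tc_parts (hO : Ok m V τ E) (hP : PS m p V τ E v) (hR : Rep p g V τ v V' τ') :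
    V' ⊆ V ∧ (∀ a ∈ V, a ∉ V' → a ∈ E.Q) ∧
      (∀ a ∈ V, ∀ b ∈ V, a ≠ b → a ∉ E.Q → b ∉ E.Q → τ s(a, b) ≠ 0 →
        (∀ i < p.s, ∀ j < p.s, v i = a → v j = b → tb p.lq i = false → tb p.lq j = false →
          tb (fld p.ha i) j = true → ty g.ct i j ≠ 0) → τ' s(a, b) ≠ 0) ∧
      (∀ a ∈ V', a ∈ E.Q → ∀ b ∈ nb V' τ' a, b ∈ E.Q ∨ b ∈ E.T ∨ E.om = some b) := by
  have term : ∀ i < p.n, v i ∉ E.Q → i < p.s ∧ rho g i = i := fun i hi k => by
    have : i < p.s := not_le.1 fun j => k (hP.int i hi j).1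
    exact ⟨this, (saf_rho hP hR this).2.2.resolve_right k⟩
  refine ⟨fun z hz => ((hR.mem z).1 hz).1, fun a ha k => ?_, fun a ha b hb ab a1 b1 k h1 => ?_,
    fun a ha a1 b hb => ?_⟩
  · by_contra j
    refine k ((hR.mem a).2 ⟨ha, ?_⟩)
    rintro i hi rfl
    obtain ⟨i1, i2⟩ := term i hi j
    exact i2 ▸ (saf_rho hP hR i1).2.1
  · by_cases k1 : ∀ l < p.n, v l ≠ a <;> by_cases k2 : ∀ l < p.n, v l ≠ b
    · rwa [hR.oo a b k1 k2]
    · push Not at k2
      obtain ⟨j, hj, rfl⟩ := k2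
      have := hR.ow j (term j hj b1).1 a k1 (by rwa [Sym2.eq_swap])
      rwa [(term j hj b1).2, Sym2.eq_swap] at this
    · push Not at k1
      obtain ⟨j, hj, rfl⟩ := k1
      have := hR.ow j (term j hj a1).1 b k2 k
      rwa [(term j hj a1).2] at this
    · push Not at k1 k2
      obtain ⟨i, hi, rfl⟩ := k1
      obtain ⟨j, hj, rfl⟩ := k2
      obtain ⟨i1, i2⟩ := term i hi a1
      obtain ⟨j1, j2⟩ := term j hj b1
      have ij : i ≠ j := fun e => ab (e ▸ rfl)
      cases e : tb (fld p.kn i) j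
      · have := (hR.un i i1 j j1 ij e k).2
        rwa [i2, j2] at this
      have := hR.ct i (by omega) j (by omega) (by omega) (h1 i i1 j j1 rfl rfl
        (Bool.eq_false_iff.2 fun c => a1 (hP.lq i hi c))
        (Bool.eq_false_iff.2 fun c => b1 (hP.lq j hj c))
        (Bool.of_not_eq_false fun c => k (hP.kn i hi j hj ij e c)))
      rwa [i2, j2] at this
  · obtain ⟨b1, b2, b3⟩ := mem_nb.1 hb
    have b4 := ((hR.mem b).1 b1).1
    by_cases k2 : ∀ l < p.n, v l ≠ b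
    · by_cases k1 : ∀ l < p.n, v l ≠ a
      · exact hO.nbq a a1 b (mem_nb.2 ⟨b4, b2, hR.oo a b k1 k2 ▸ b3⟩)
      · push Not at k1
        obtain ⟨j, hj, rfl⟩ := k1
        obtain ⟨i, i1, i2, i3⟩ := hR.wo j (((hR.mem _).1 ha).2 j hj rfl) b b4 k2 b3
        exact hO.nbq (v i) ((saf_rho hP hR i1).2.2.elim (fun e => by rw [← e, i2]; exact a1) id) b
          (mem_nb.2 ⟨b4, (k2 i (i1.trans_le hP.sn)).symm, i3⟩)
    · push Not at k2
      obtain ⟨j, hj, rfl⟩ := k2
      exact (hP.mem j hj).imp_right Or.inl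

theorem tc_nem (hO : Ok2 m V τ E) (hP : PS m p V τ E v) (hR : Rep p g V τ v V' τ')
    (hq : m.q0 = true) (h : p.n - p.s + (bif g.mg then 1 else 0) ≤ 2) : ∃ a ∈ V', a ∈ E.Q := by
  by_contra k
  push Not at k
  have h3 := (hO.q3 hq).trans (card_le_card sdiff_subset)
  have h4 : E.Q ⊆ (Ico p.s p.n ∪ if g.mg = true then {g.b} else ∅).image v := fun z hz => by
    by_contra c
    refine k z ((hR.mem z).2 ⟨hO.ok.subQ hz, ?_⟩) hz
    rintro l hl rfl
    by_contra j
    refine c (mem_image_of_mem _ (mem_union.2 ?_))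
    by_cases e : l < p.s
    · have : g.mg = true ∧ l = g.b := by_contra fun d => j ⟨by omega, d⟩
      exact Or.inr (by rw [if_pos this.1, this.2]; exact mem_singleton_self _)
    · exact Or.inl (mem_Ico.2 ⟨by omega, hl⟩)
  have h5 := ((card_le_card h4).trans card_image_le).trans (card_union_le _ _)
  rw [Nat.card_Ico] at h5
  cases e : g.mg <;> simp [e] at h h5 <;> omega

omit [Fintype α] in
/-- If there is a vertex beyond the boundary, every boundary vertex sees one. -/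
theorem tc_far (hO : Ok m V τ E) (hr : m.rl = true) (h4 : ∃ r ∈ V, r ∉ E.Q ∧ r ∉ E.T) {t : α}
    (ht : t ∈ E.T) : ∃ r ∈ nb V τ t, r ∉ E.Q ∧ r ∉ E.T := by
  have h3 := (hO.q2 hr).2
  have om := hO.omn (hO.wm_false hr)
  by_contra k
  push Not at k
  obtain ⟨r, r1, r2⟩ := h4
  have h5 := hO.con.three (B := V.filter fun r => r ∉ E.Q ∧ r ∉ E.T) (S := E.T.erase t)
    (filter_subset _ _) ⟨r, mem_filter.2 ⟨r1, r2⟩⟩ (fun x hx y hy => by
      obtain ⟨x1, x2, x3⟩ := mem_filter.1 hx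
      have y1 : y ∉ E.Q := fun c => by
        have := hO.nbq y c x (nb_symm x1 hy)
        simp [x2, x3, om] at this
      by_cases c : y ∈ E.T
      · exact Or.inr (mem_erase.2 ⟨fun e => x3 (k x (e ▸ nb_symm x1 hy) x2), c⟩)
      · exact Or.inl (mem_filter.2 ⟨nb_sub _ hy, y1, c⟩)) (hO.subT ht)
    (fun c => (mem_filter.1 c).2.2 ht) (notMem_erase _ _)
  rw [card_erase_of_mem ht] at h5
  omega

theorem tc_core (hO : Ok m V τ E) (hP : PS m p V τ E v) (hR : Rep p g V τ v V' τ')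
    (hr : m.rl = true)
    (nem : (∃ a ∈ V', a ∈ E.Q) ∨ ∀ a ∈ E.T, ∀ b ∈ E.T, a ≠ b → τ' s(a, b) ≠ 0)
    (l1 : ∀ B S : Finset α, B ⊆ V' → B ⊆ E.Q → B.Nonempty → Cov V' τ' B S → 3 ≤ S.card)
    (h : ∀ i < p.s, cLost p g.ct i = true → v i ∈ E.T → 3 ≤ dg V' τ' (v i) ∧
      ∀ (q : ℕ) (B S : Finset α), TC p g V τ E v V' τ' i q B S → E.T.erase (v i) ⊆ S) :
    Con3 V' τ' := by
  classical
  obtain ⟨p1, p2, p3, p4⟩ := tc_parts hO hP hR
  have om := hO.omn (hO.wm_false hr)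
  have sn := hP.sn
  have le := hR.le
  have n8 := hP.n8
  have nq : ∀ a ∈ V', a ∈ E.Q → ∀ b ∈ nb V' τ' a, b ∈ E.Q ∨ b ∈ E.T := fun a ha k b hb => by
    simpa [om] using p4 a ha k b hb
  have keep : ∀ z ∈ V, z ∉ E.Q → z ∈ V' := fun z hz k => by_contra fun c => k (p2 z hz c)
  have dis := disjoint_left.2 hO.dis
  refine safe_gen hO.con hO.subT dis (hO.q2 hr).2
    (fun a ha b hb => by simpa [om] using hO.nbq a ha b hb) p1 p2
    (fun a ha b hb ab a1 a2 b1 k => p3 a ha b hb ab a1 b1 k fun i hi j _ e =>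
      ((hP.mem i (by omega)).elim (e ▸ a1) (e ▸ a2)).elim) nq nem l1
    fun t ht B S hB hBQ hS hC => ?_
  have tQ : t ∉ E.Q := fun k => hO.dis t k ht
  by_cases hl : ∀ i < p.s, v i = t → cLost p g.ct i = false
  · refine l2_of_two dis (hO.q2 hr).2 (fun z hz => keep z (hO.subT hz) fun k => hO.dis z k hz) nq
      nem l1 ht ((cf_two' hO ht).trans (card_le_card fun z hz => ?_)) hB hBQ hS hC
    obtain ⟨z1, z2⟩ := mem_sdiff.1 hz
    obtain ⟨z3, z4, z5⟩ := mem_nb.1 z1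
    refine mem_sdiff.2 ⟨mem_nb.2 ⟨keep z z3 z2, z4, p3 t (hO.subT ht) z z3 z4.symm tQ z2 z5
      fun i hi j hj e _ k1 k2 k3 k4 => ?_⟩, z2⟩
    have := hl i hi e
    rw [cLost, k1, (anyB_iff _ _).2 ⟨j, hj, by rw [k2, k3, k4]; rfl⟩] at this
    cases this
  push Not at hl
  obtain ⟨i, hi, rfl, hl⟩ := hl
  obtain ⟨d3, h4⟩ := h i hi (Bool.of_not_eq_false hl) ht
  have ri : rho g i = i := (saf_rho hP hR hi).2.2.resolve_right tQ
  by_cases tri : ∀ z ∈ V, z ∈ E.Q ∨ z ∈ E.T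
  swap
  · exfalso
    push Not at tri
    obtain ⟨z, z1, z2, z3⟩ := tc_far hO hr tri ht
    have nbs : nb V' τ' (v i) ⊆ B ∪ S := fun z hz => mem_union.2
      ((hC _ (mem_insert_self _ _) z hz).imp_left fun k =>
        (mem_insert.1 k).resolve_left (mem_nb.1 hz).2.1)
    have dB := (card_le_card nbs).trans (card_union_le _ _)
    have z4 : ∀ l < p.n, v l ≠ z := fun l hl c => (hP.mem l hl).elim (c ▸ z2) (c ▸ z3)
    obtain ⟨z5, z6, z7⟩ := mem_nb.1 z1
    have z8 := hR.ow i hi z z4 z7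
    rw [ri] at z8
    have zS := (mem_union.1 (nbs (mem_nb.2 ⟨keep z z5 z2, z6, z8⟩))).resolve_left
      fun k => z2 (hBQ k)
    rcases B.eq_empty_or_nonempty with rfl | hne
    · rw [card_empty] at dB
      unfold dg at d3
      omega
    have h7 := (l1 B (insert (v i) (S.erase z)) hB hBQ hne fun a ha b hb => by
      rcases hC a (mem_insert_of_mem ha) b hb with k | k
      · exact (mem_insert.1 k).symm.imp_right fun k => mem_insert.2 (Or.inl k)
      · exact Or.inr (mem_insert_of_mem (mem_erase.2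
          ⟨fun e => (nq a (hB ha) (hBQ ha) b hb).elim (e ▸ z2) (e ▸ z3), k⟩))).trans
      (card_insert_le _ _)
    rw [card_erase_of_mem zS] at h7
    have := card_pos.2 ⟨z, zS⟩
    omega
  set S' := (S ∩ V') \ insert (v i) B with hS'
  have sub : S' ⊆ S := sdiff_subset.trans inter_subset_left
  refine (h4 (Nat.lor (msk (p.s + g.ni) fun j => decide (v (rho g j) ∈ B ∨ (j ≠ i ∧ rho g j = i)))
    (Nat.shiftLeft (msk (p.s + g.ni) fun j => decide (j = i ∨ v (rho g j) ∈ S')) 8)) B S'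
    ⟨hi, ht, tri, hB, hBQ, sdiff_subset.trans inter_subset_right, fun z hz => ?_,
      (card_le_card sub).trans hS, fun a ha b hb => ?_, ?_, fun j hj => ?_, fun j => ?_⟩).trans sub
  · have := (mem_sdiff.1 hz).2
    rw [mem_insert, not_or] at this
    exact this.symm
  · by_cases k : b ∈ insert (v i) B
    · exact Or.inl k
    · exact Or.inr (mem_sdiff.2 ⟨mem_inter.2 ⟨(hC a ha b hb).resolve_left k, nb_sub _ hb⟩, k⟩)
  · refine lt_bt (n := 16) fun j hj => ?_
    simp only [tb_lor, cf_shl, Bool.or_eq_true, Bool.and_eq_true, decide_eq_true_eq, tb_msk] at hj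
    omega
  · simp only [tb_lor, cf_shl, Bool.or_eq_true, Bool.and_eq_true, decide_eq_true_eq, tb_msk]
    exact ⟨fun k => k.resolve_right (by omega), Or.inl⟩
  · simp only [tb_lor, cf_shl, Bool.or_eq_true, Bool.and_eq_true, decide_eq_true_eq, tb_msk,
      Nat.add_sub_cancel_left]
    exact ⟨fun k => (k.resolve_left (by omega)).2, fun k => Or.inr ⟨by omega, k⟩⟩

theorem tc_rho (hO : Ok m V τ E) (hP : PS m p V τ E v) (hr : m.rl = true)
    (hC : TC p g V τ E v V' τ' i q B S) : cRho p = false := by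
  cases e : cRho p
  · rfl
  obtain ⟨z, z1, z2, z3⟩ := cf_rho hO hP hr e hC.iT
  exact ((hC.tri z (nb_sub _ z1)).elim z2 z3).elim

end Pool.Agent.Lib.MP_efe3d7_co.J
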