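import Pool.Agent.Lib.MP_efe3d7_co.J.CsD

/-! Degrees of a boundary vertex of a column. -/

set_option autoImplicit false

open Finset

namespace Pool.Agent.Lib.MP_efe3d7_co.J

open H

variable {α : Type} [Fintype α] [DecidableEq α]

variable {m : Md} {p : Pre} {V : Finset α} {τ : Sym2 α → Fin 3} {E : Env α} {v : ℕ → α}

variable {g : Col} {V' : Finset α} {τ' : Sym2 α → Fin 3} {i q : ℕ} {B S : Finset α}

theorem tc_cm (hO : Ok m V τ E) (hP : PS m p V τ E v) (hR : Rep p g V τ v V' τ') (hi : i < p.s)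
    (hT : v i ∈ E.T) (hb : g.mg = true → ∀ j < p.s + g.ni, ty g.ct g.b j = 0) (j : ℕ)
    (hj : tb (msk (p.s + g.ni) fun j => !Nat.beq i j && nz (ty g.ct i j)) j = true) :
    inW p g j ∧ v j ∈ nb V' τ' (v i) := by
  have sn := hP.sn
  have le := hR.le
  rw [tb_msk] at hj
  simp only [Bool.and_eq_true, decide_eq_true_eq, Bool.not_eq_true', nz_iff] at hj
  obtain ⟨k1, k2, k3⟩ := hj
  have k4 := Nat.ne_of_beq_eq_false k2
  have k5 : ¬ (g.mg = true ∧ j = g.b) := fun c => k3 (by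
    rw [c.2, ty_comm]
    exact hb c.1 i (by omega))
  have r1 : rho g i = i := (saf_rho hP hR hi).2.2.resolve_right fun c => hO.dis _ c hT
  have r2 : rho g j = j := if_neg k5
  have k6 := hR.ct i (by omega) j k1 (by rwa [r1, r2]) k3
  rw [r1, r2] at k6
  exact ⟨⟨k1, k5⟩, mem_nb.2 ⟨saf_mem hO hP hR ⟨k1, k5⟩,
    fun e => k4 (hP.inj _ (by omega) _ (by omega) e).symm, k6⟩⟩

omit [Fintype α] in
theorem tc_el (hO : Ok m V τ E) (hP : PS m p V τ E v) {d6 : ℕ}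
    (h6 : ∀ i < p.n, tb d6 i = true → 6 ≤ ds V τ E (v i)) {z : ℕ} (hz : z < p.n) :
    3 + cB1 p.d4 z + cB1 p.d5 z + cB1 d6 z ≤ ds V τ E (v z) ∧ ds V τ E (v z) ≤ dg V τ (v z) := by
  refine ⟨?_, hO.ds_le (hP.mem z hz)⟩
  have k3 := hO.ds3 _ (hP.mem z hz)
  have k4 := hP.d4 z hz
  have k5 := hP.d5 z hz
  have k6 := h6 z hz
  unfold cB1
  revert k4 k5 k6
  cases tb p.d4 z <;> cases tb p.d5 z <;> cases tb d6 z <;> simp <;> omega

theorem cs2_out (hP : PS m p V τ E v) (hR : Rep p g V τ v V' τ') {z : ℕ} (hz : z < p.s) {y : α}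
    (hy : y ∈ nb V τ (v z)) (k : ∀ l < p.n, v l ≠ y) : y ∈ nb V' τ' (v (rho g z)) := by
  obtain ⟨z1, -, z3⟩ := mem_nb.1 hy
  exact mem_nb.2 ⟨(hR.mem y).2 ⟨z1, fun l hl e => absurd e (k l hl)⟩,
    (k _ ((saf_rho hP hR hz).1.trans_le hP.sn)).symm, hR.ow z hz y k z3⟩

theorem tc_deg1 (hO : Ok m V τ E) (hP : PS m p V τ E v) (hR : Rep p g V τ v V' τ')
    (hr : m.rl = true) (hi : i < p.s) (hT : v i ∈ E.T) {cm : ℕ}
    (hc : ∀ j, tb cm j = true → inW p g j ∧ v j ∈ nb V' τ' (v i)) :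
    pc p.n cm + (bif cRho p then 1 else 0) ≤ dg V' τ' (v i) := by
  have r1 : rho g i = i := (saf_rho hP hR hi).2.2.resolve_right fun c => hO.dis _ c hT
  have h1 : (bs p.n cm).image v ⊆ nb V' τ' (v i) := fun z hz => by
    obtain ⟨j, hj, rfl⟩ := mem_image.1 hz
    exact (hc j (mem_bs.1 hj).2).2
  rw [← card_img hP.inj]
  cases e : cRho p
  · exact card_le_card h1
  obtain ⟨z, z1, z2, z3⟩ := cf_rho hO hP hr e hT
  have z4 : ∀ l < p.n, v l ≠ z := fun l hl c => (hP.mem l hl).elim (c ▸ z2) (c ▸ z3)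
  have := card_le_card (insert_subset (r1 ▸ cs2_out hP hR hi z1 z4) h1)
  rwa [card_insert_of_notMem fun c => by
    obtain ⟨j, hj, c⟩ := mem_image.1 c
    exact z4 j (mem_bs.1 hj).1 c] at this

theorem tc_deg2 (hO : Ok m V τ E) (hP : PS m p V τ E v) (hR : Rep p g V τ v V' τ') {cm z : ℕ}
    (hc : ∀ j, tb cm j = true → inW p g j ∧ v j ∈ nb V' τ' (v i)) (hz : z < p.s)
    (hzi : rho g z = i) (hk : g.mg = true → z = g.b ∨ tb (fld p.kn z) g.b = true) :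
    ∃ D ⊆ nb V' τ' (v i), D ⊆ nb V τ (v z) ∪ (bs p.n cm).image v ∧
      dg V τ (v z) + pc p.n (Nat.land cm (fld p.kn z)) - pc p.n (fld p.ha z) ≤ D.card := by
  have sn := hP.sn
  have tn : z < p.n := by omega
  have h3 : ∀ y ∈ nb V τ (v z) \ (bs p.n (fld p.ha z)).image v, y ∈ nb V' τ' (v i) ∧
      y ∉ (bs p.n (Nat.land cm (fld p.kn z))).image v := fun y hy => by
    obtain ⟨z1, z2⟩ := mem_sdiff.1 hy
    by_cases k : ∀ l < p.n, v l ≠ y
    · refine ⟨hzi ▸ cs2_out hP hR hz z1 k, fun c => ?_⟩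
      obtain ⟨j, hj, c⟩ := mem_image.1 c
      exact k j (mem_bs.1 hj).1 c
    push Not at k
    obtain ⟨j, hj, rfl⟩ := k
    obtain ⟨-, z4, z5⟩ := mem_nb.1 z1
    have tj : z ≠ j := fun e => z4 (e ▸ rfl)
    have k1 : tb (fld p.kn z) j = false := Bool.eq_false_iff.2 fun c => z5 (hP.kn z tn j hj tj c
      (Bool.eq_false_iff.2 fun c' => z2 (mem_image_of_mem _ (mem_bs.2 ⟨hj, c'⟩))))
    have k2 : j < p.s := not_le.1 fun c => by
      rw [hP.kns z tn j hj, (hP.int j hj c).2.2 z tn tj.symm] at k1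
      cases k1
    have k4 : ¬ (g.mg = true ∧ j = g.b) := fun c => (hk c.1).elim (fun e => tj (e.trans c.2.symm))
      fun e => by
        rw [← c.2, k1] at e
        cases e
    obtain ⟨k5, k3⟩ := hR.un z hz j k2 tj k1 z5
    rw [hzi, show rho g j = j from if_neg k4] at k3 k5
    have k6 : i < p.n := hzi ▸ (saf_rho hP hR hz).1.trans_le sn
    refine ⟨mem_nb.2 ⟨saf_mem hO hP hR ⟨by omega, k4⟩, fun e => k5 (hP.inj _ hj _ k6 e).symm, k3⟩,
      fun c => ?_⟩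
    obtain ⟨l, hl, c⟩ := mem_image.1 c
    obtain ⟨l1, l2⟩ := mem_bs.1 hl
    rw [hP.inj l l1 j hj c, tb_land, k1, Bool.and_false] at l2
    cases l2
  have h4 : ∀ y ∈ (bs p.n (Nat.land cm (fld p.kn z))).image v,
      y ∈ nb V' τ' (v i) ∧ y ∈ (bs p.n cm).image v := fun y hy => by
    obtain ⟨j, hj, rfl⟩ := mem_image.1 hy
    obtain ⟨j1, j2⟩ := mem_bs.1 hj
    rw [tb_land, Bool.and_eq_true] at j2
    exact ⟨(hc j j2.1).2, mem_image_of_mem _ (mem_bs.2 ⟨j1, j2.1⟩)⟩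
  refine ⟨_, union_subset (fun y hy => (h3 y hy).1) fun y hy => (h4 y hy).1,
    union_subset_union sdiff_subset fun y hy => (h4 y hy).2, ?_⟩
  rw [card_union_of_disjoint (disjoint_left.2 fun y hy => (h3 y hy).2), card_img hP.inj]
  have h5 := le_card_sdiff ((bs p.n (fld p.ha z)).image v) (nb V τ (v z))
  rw [card_img hP.inj] at h5
  have h6 : pc p.n (fld p.ha z) ≤ (nb V τ (v z)).card := by
    rw [← card_img hP.inj]
    refine card_le_card fun y hy => ?_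
    obtain ⟨j, hj, rfl⟩ := mem_image.1 hy
    obtain ⟨j1, j2, j3⟩ := hP.ha z tn j (mem_bs.1 hj).2
    exact mem_nb.2 ⟨hO.memV (hP.mem j j1), fun e => j2 (hP.inj _ j1 _ tn e).symm, j3⟩
  unfold dg
  omega

end Pool.Agent.Lib.MP_efe3d7_co.J
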