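import Pool.Agent.Lib.MP_efe3d7_co.J.CsD

/-! The position of a small cut at a boundary vertex. -/

set_option autoImplicit false

open Finset

namespace Pool.Agent.Lib.MP_efe3d7_co.J

open H

variable {α : Type} [Fintype α] [DecidableEq α]

variable {m : Md} {p : Pre} {V : Finset α} {τ : Sym2 α → Fin 3} {E : Env α} {v : ℕ → α}

variable {g : Col} {V' : Finset α} {τ' : Sym2 α → Fin 3} {i q : ℕ} {B S : Finset α}

theorem tc_ri (hO : Ok m V τ E) (hP : PS m p V τ E v) (hR : Rep p g V τ v V' τ')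
    (hC : TC p g V τ E v V' τ' i q B S) : rho g i = i :=
  (saf_rho hP hR hC.is).2.2.resolve_right fun k => hO.dis _ k hC.iT

theorem tc_i (hO : Ok m V τ E) (hP : PS m p V τ E v) (hR : Rep p g V τ v V' τ')
    (hC : TC p g V τ E v V' τ' i q B S) : tb q (8 + i) = true ∧ tb q i = false := by
  have h1 := hC.is
  have h2 := hP.s7
  refine ⟨(hC.q2 i).2 ⟨by omega, Or.inl rfl⟩, Bool.eq_false_iff.2 fun k => ?_⟩
  rcases ((hC.q1 i (by omega)).1 k).2 with c | c
  · rw [tc_ri hO hP hR hC] at c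
    exact hO.dis _ (hC.bQ c) hC.iT
  · exact c.1 rfl

theorem tc_mg (hO : Ok m V τ E) (hP : PS m p V τ E v) (hR : Rep p g V τ v V' τ')
    (hC : TC p g V τ E v V' τ' i q B S) (hg : g.mg = true) :
    (g.a = i → tb q g.b = true ∧ tb q (8 + g.b) = false) ∧
      (g.a ≠ i → tb q g.a = tb q g.b ∧ tb q (8 + g.a) = tb q (8 + g.b)) := by
  obtain ⟨a1, a2, a3, a4, -⟩ := hR.mg hg
  have s7 := hP.s7
  have sn := hP.sn
  have ra : rho g g.a = g.a := if_neg fun j => a3 j.2
  have rb : rho g g.b = g.a := if_pos ⟨hg, rfl⟩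
  have bi : g.b ≠ i := fun e => hO.dis _ (hP.lq _ (by omega) a4) (e ▸ hC.iT)
  refine ⟨fun e => ⟨(hC.q1 _ (by omega)).2 ⟨by omega, Or.inr ⟨bi, rb.trans e⟩⟩,
    Bool.eq_false_iff.2 fun k => ?_⟩, fun e => ⟨?_, ?_⟩⟩
  · rcases ((hC.q2 _).1 k).2 with c | c
    · exact bi c
    · rw [rb, e] at c
      exact (hC.sB _ c).2 rfl
  · rw [Bool.eq_iff_iff, hC.q1 _ (by omega), hC.q1 _ (by omega), ra, rb]
    simp only [e, and_false, or_false]
    exact and_congr_left fun _ => by omega
  · rw [Bool.eq_iff_iff, hC.q2, hC.q2, ra, rb]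
    simp only [e, bi, false_or]
    exact and_congr_left fun _ => by omega

theorem tc_pos (hO : Ok m V τ E) (hP : PS m p V τ E v) (hR : Rep p g V τ v V' τ')
    (hr : m.rl = true) (hC : TC p g V τ E v V' τ' i q B S)
    (hb : g.mg = true → ∀ j < p.s + g.ni, ty g.ct g.b j = 0) :
    ∃ t ≤ 2, (cnt 8 fun j => tb q (8 + j)) ≤ t + 2 ∧
      ((g.mg = true → tb q (8 + g.b) = false) → (cnt 8 fun j => tb q (8 + j)) ≤ t + 1) ∧
      ¬ CBad p V τ E v q (min 2 (tcO p v B)) (2 - t) ∧
      ¬ tb (cEd (p.s + g.ni) g.ct) q = true ∧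
      (∀ k < 8, tb q k = true → tb q (8 + k) = true → False) ∧
      (∀ j, inW p g j → v j ∈ nb V' τ' (v i) → tb q j = true ∨ tb q (8 + j) = true) ∧
      dg V' τ' (v i) ≤
        ((bs 8 q).filter fun j => ¬ (g.mg = true ∧ j = g.b)).card + tcO p v B + 2 := by
  classical
  have sn := hP.sn
  have s7 := hP.s7
  have n8 := hP.n8
  have le := hR.le
  have is := hC.is
  have cS := hC.cS
  have ri := tc_ri hO hP hR hC
  have om := hO.omn (hO.wm_false hr)
  have hw : ∀ j < p.s + g.ni, inW p g (rho g j) := fun j hj => by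
    unfold rho inW
    split_ifs with k
    · obtain ⟨a1, -, a3, -⟩ := hR.mg k.1
      exact ⟨by omega, fun c => a3 c.2⟩
    · exact ⟨hj, k⟩
  have ho : ∀ z ∈ V, (∀ l < p.n, v l ≠ z) → z ∈ V' := fun z hz h =>
    (hR.mem z).2 ⟨hz, fun l hl e => (h l hl e).elim⟩
  have hA : ∀ j < 8, tb q j = true → j < p.s + g.ni ∧ v (rho g j) ∈ insert (v i) B :=
    fun j hj k => by
      obtain ⟨k1, k2⟩ := (hC.q1 j hj).1 k
      exact ⟨k1, k2.elim mem_insert_of_mem fun c => c.2.symm ▸ mem_insert_self _ _⟩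
  have hl : ∀ j < p.s + g.ni, v (rho g j) ∈ insert (v i) B ∨ v (rho g j) ∈ S →
      tb q j = true ∨ tb q (8 + j) = true := fun j hj k => by
    by_cases e : j = i
    · exact Or.inr ((hC.q2 j).2 ⟨hj, Or.inl e⟩)
    rcases k with k | k
    · refine Or.inl ((hC.q1 j (by omega)).2 ⟨hj, (mem_insert.1 k).symm.imp_right fun c => ⟨e, ?_⟩⟩)
      have := (hw j hj).1
      exact hP.inj _ (by omega) _ (by omega) c
    · exact Or.inr ((hC.q2 j).2 ⟨hj, Or.inr k⟩)
  have out : ∀ a ∈ insert (v i) B, ∀ z ∈ nb V' τ' a, (∀ l < p.n, v l ≠ z) →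
      z ∈ B.filter (fun z => ∀ l < p.n, v l ≠ z) ∨ z ∈ S.filter fun z => ∀ l < p.n, v l ≠ z :=
    fun a ha z hz k => (hC.cov a ha z hz).imp (fun c => mem_filter.2
      ⟨(mem_insert.1 c).resolve_left fun e => k i (by omega) e.symm, k⟩) fun c => mem_filter.2 ⟨c, k⟩
  set X := (range (p.s + g.ni)).filter fun j => inW p g j ∧ v j ∈ S with hX
  have hc : (S.filter fun z => ∀ l < p.n, v l ≠ z).card + X.card ≤ 2 := by
    rw [← card_image_of_injOn (s := X) (f := v) fun a ha b hb => hP.inj a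
      ((mem_range.1 (mem_filter.1 ha).1).trans_le le) b
      ((mem_range.1 (mem_filter.1 hb).1).trans_le le), ← card_union_of_disjoint]
    · refine (card_le_card (union_subset (filter_subset _ _) fun z hz => ?_)).trans cS
      obtain ⟨j, hj, rfl⟩ := mem_image.1 hz
      exact (mem_filter.1 hj).2.2
    · refine disjoint_left.2 fun z hz hz' => ?_
      obtain ⟨j, hj, e⟩ := mem_image.1 hz'
      exact (mem_filter.1 hz).2 j ((mem_range.1 (mem_filter.1 hj).1).trans_le le) e
  have hS : ∀ j, tb q (8 + j) = true → ¬ (g.mg = true ∧ j = g.b) → j ∈ insert i X :=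
    fun j k c => by
      obtain ⟨k1, k2⟩ := (hC.q2 j).1 k
      rw [rho, if_neg c] at k2
      exact mem_insert.2 (k2.imp_right fun k2 => mem_filter.2 ⟨mem_range.2 k1, ⟨k1, c⟩, k2⟩)
  have ed : ∀ j < p.s + g.ni, ∀ l < p.s + g.ni, j ≠ l → ty g.ct j l ≠ 0 →
      tb (df (df (cMK j) (cMK l)) (cMS l)) q = true → False := fun j hj l hl' jl k1 k2 => by
    simp only [tb_df, cf_MK, cf_MS, hC.q0, decide_true, Bool.true_and, Bool.and_eq_true,
      Bool.not_eq_true'] at k2
    obtain ⟨⟨k3, k4⟩, k5⟩ := k2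
    have rj : rho g j = j := if_neg fun c => k1 (by rw [c.2]; exact hb c.1 l hl')
    have rl : rho g l = l := if_neg fun c => k1 (by rw [ty_comm, c.2]; exact hb c.1 j hj)
    have k6 := hR.ct j hj l hl' (by rwa [rj, rl]) k1
    have k7 := hl l hl' (hC.cov _ (hA j (by omega) k3).2 _ (mem_nb.2
      ⟨saf_mem hO hP hR (hw l hl'), fun e => jl (by
        rw [rj, rl] at e
        exact (hP.inj _ (by omega) _ (by omega) e).symm), k6⟩))
    rw [k4, k5] at k7
    simp at k7
  refine ⟨X.card, by omega, ?_, fun c => ?_, fun k => k (msk p.s (tb q))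
    (msk p.s fun j => tb q (8 + j)) (fun j => by simp [tb_msk]) (fun j => by simp [tb_msk]) _ le_rfl
    (B.filter fun z => ∀ l < p.n, v l ≠ z) (S.filter fun z => ∀ l < p.n, v l ≠ z) ?_, fun k => ?_,
    fun k hk k1 k2 => ?_, fun j hj k => ?_, ?_⟩
  · rw [cnt_eq]
    refine (card_le_card (t := insert g.b (insert i X)) fun j hj => ?_).trans
      ((card_insert_le _ _).trans (Nat.add_le_add_right (card_insert_le _ _) _))
    by_cases e : j = g.b
    · exact e ▸ mem_insert_self _ _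
    · exact mem_insert_of_mem (hS j (mem_filter.1 hj).2 fun c => e c.2)
  · rw [cnt_eq]
    refine (card_le_card fun j hj => hS j (mem_filter.1 hj).2 fun e => ?_).trans
      (card_insert_le _ _)
    have := (mem_filter.1 hj).2
    rw [e.2, c e.1] at this
    cases this
  · have hJ : ∀ j, tb (msk p.s (tb q)) j = true → j < p.s ∧ tb q j = true := fun j h => by
      simpa [tb_msk] using h
    have hl' : ∀ j < p.s, v (rho g j) ∈ insert (v i) B ∨ v (rho g j) ∈ S →
        tb (msk p.s (tb q)) j = true ∨ tb (msk p.s fun j => tb q (8 + j)) j = true :=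
      fun j hj h => by simpa [tb_msk, hj] using hl j (by omega) h
    refine ⟨fun j h => ⟨(hJ j h).1, ?_⟩, fun j h => by simpa [tb_msk] using (by
        rw [tb_msk, Bool.and_eq_true, decide_eq_true_eq] at h
        exact h.1), fun z hz => ⟨hC.bQ (mem_filter.1 hz).1, (mem_filter.1 hz).2⟩,
      fun z hz => (mem_filter.1 hz).2, by unfold tcO; congr, by omega, fun y hy z hz => ?_,
      fun j h z hz hz' => ?_, fun j h l hl jl hk ht => ?_, fun w hw => by rw [om] at hw; cases hw⟩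
    · obtain ⟨a1, a2⟩ := hJ j h
      refine (saf_rho hP hR a1).2.2.elim (fun e => ?_) id
      rcases ((hC.q1 j (by omega)).1 a2).2 with c | c
      · exact hC.bQ (e ▸ c)
      · exact absurd (e.symm.trans c.2) c.1
    · obtain ⟨y1, y2⟩ := mem_filter.1 hy
      obtain ⟨z1, z2, z3⟩ := mem_nb.1 hz
      by_cases h : ∀ l < p.n, v l ≠ z
      · exact (out y (mem_insert_of_mem y1) z
          (mem_nb.2 ⟨ho z z1 h, z2, hR.oo y z y2 h ▸ z3⟩) h).imp_right Or.inl
      push Not at h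
      obtain ⟨l, hln, rfl⟩ := h
      have hls : l < p.s := by
        by_contra hls
        obtain ⟨a1, a2, -⟩ := hP.int l hln (not_lt.1 hls)
        obtain ⟨j, hj, -, e⟩ := hP.cl l hln a2 y
          (nb_symm ((hR.mem y).1 (hC.bV y1)).1 hz) (Or.inl a1)
        exact y2 j hj e
      have r1 := saf_rho hP hR hls
      refine Or.inr (Or.inr ⟨l, hl' l hls (hC.cov y (mem_insert_of_mem y1) _ (mem_nb.2
        ⟨saf_mem hO hP hR r1.2.1, y2 _ (by omega), ?_⟩)), rfl⟩)
      rw [Sym2.eq_swap] at z3 ⊢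
      exact hR.ow l hls y y2 z3
    · obtain ⟨a1, a2⟩ := hJ j h
      obtain ⟨z1, -, z3⟩ := mem_nb.1 hz
      have r1 := saf_rho hP hR a1
      exact out _ (hA j (by omega) a2).2 z (mem_nb.2 ⟨ho z z1 hz', (hz' _ (by omega)).symm,
        hR.ow j a1 z hz' z3⟩) hz'
    · obtain ⟨a1, a2⟩ := hJ j h
      obtain ⟨b1, b2⟩ := hR.un j a1 l hl jl hk ht
      have r1 := saf_rho hP hR a1
      have r2 := saf_rho hP hR hl
      exact hl' l hl (hC.cov _ (hA j (by omega) a2).2 _ (mem_nb.2 ⟨saf_mem hO hP hR r2.2.1,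
        fun e => b1 (hP.inj _ (by omega) _ (by omega) e).symm, b2⟩))
  · simp only [cEd, frc_eq, cf_lor0, tb_lor, Bool.or_eq_true] at k
    rcases k with k | k
    · obtain ⟨j, i1, -, i2⟩ := cf_Un k
      obtain ⟨l, j1, j2, j3⟩ := cf_Un i2
      rw [cf_Row _ j1 (by omega), nz_iff] at j2
      rw [cEM, tb_lor, Bool.or_eq_true] at j3
      exact j3.elim (ed j i1 l (by omega) (by omega) j2)
        (ed l (by omega) j i1 (by omega) (by rwa [ty_comm]))
    · obtain ⟨j, i1, i2, i3⟩ := cf_Un k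
      simp only [tb_lor, cf_MK, cf_MS, Bool.or_eq_true, Bool.and_eq_true, hC.q1 j i1, hC.q2] at i3
      rw [Nat.ble_eq] at i2
      omega
  · rcases ((hC.q2 k).1 k2).2 with c | c
    · rw [c, (tc_i hO hP hR hC).2] at k1
      cases k1
    · exact (mem_insert.1 (hA k hk k1).2).elim (hC.sB _ c).2 (hC.sB _ c).1
  · have rj : rho g j = j := if_neg hj.2
    exact hl j hj.1 (rj.symm ▸ hC.cov _ (mem_insert_self _ _) _ k)
  · have nbs : nb V' τ' (v i) ⊆ B ∪ S := fun z hz => mem_union.2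
      ((hC.cov _ (mem_insert_self _ _) z hz).imp_left fun k =>
        (mem_insert.1 k).resolve_left (mem_nb.1 hz).2.1)
    have dB := (card_le_card nbs).trans (card_union_le _ _)
    have cB : B.card ≤ ((bs 8 q).filter fun j => ¬ (g.mg = true ∧ j = g.b)).card + tcO p v B := by
      unfold tcO
      refine (card_le_card fun z hz => ?_).trans ((card_union_le
        (((bs 8 q).filter fun j => ¬ (g.mg = true ∧ j = g.b)).image v) _).trans
        (Nat.add_le_add_right card_image_le _))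
      by_cases k : ∀ l < p.n, v l ≠ z
      · exact mem_union_right _ (mem_filter.2 ⟨hz, k⟩)
      push Not at k
      obtain ⟨l, hl, rfl⟩ := k
      obtain ⟨k1, k2⟩ := ((hR.mem _).1 (hC.bV hz)).2 l hl rfl
      exact mem_union_left _ (mem_image_of_mem _ (mem_filter.2 ⟨mem_bs.2 ⟨by omega,
        (hC.q1 l (by omega)).2 ⟨k1, Or.inl (by rwa [rho, if_neg k2])⟩⟩, k2⟩))
    unfold dg
    omega

end Pool.Agent.Lib.MP_efe3d7_co.J
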