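import Pool.Agent.Lib.MP_efe3d7_co.J.Cs2

/-! Small cuts at a boundary vertex of a column: three easy cases. -/

set_option autoImplicit false

open Finset

namespace Pool.Agent.Lib.MP_efe3d7_co.J

open H

variable {α : Type} [Fintype α] [DecidableEq α]

variable {m : Md} {p : Pre} {V : Finset α} {τ : Sym2 α → Fin 3} {E : Env α} {v : ℕ → α}

variable {g : Col} {V' : Finset α} {τ' : Sym2 α → Fin 3} {i q : ℕ} {B S : Finset α}

omit [Fintype α] in
theorem cs4_rho (hO : Ok m V τ E) (hP : PS m p V τ E v) (hR : Rep p g V τ v V' τ') {k : ℕ}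
    (hk : v k ∈ E.T) : rho g k = k := by
  refine if_neg fun c => ?_
  obtain ⟨-, h2, -, h4, -⟩ := hR.mg c.1
  exact hO.dis _ (hP.lq _ (h2.trans_le hP.sn) h4) (c.2 ▸ hk)

omit [Fintype α] in
theorem cs4_bit (hO : Ok m V τ E) (hP : PS m p V τ E v) (hR : Rep p g V τ v V' τ')
    (hC : TC p g V τ E v V' τ' i q B S) {k : ℕ} (hk : v k ∈ E.T.erase (v i))
    (h : tb q (8 + k) = true) : v k ∈ S := by
  obtain ⟨k1, k2⟩ := mem_erase.1 hk
  have := ((hC.q2 k).1 h).2.resolve_left fun e => k1 (by rw [e])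
  rwa [cs4_rho hO hP hR k2] at this

theorem tc_t3 (hO : Ok m V τ E) (hP : PS m p V τ E v) (hR : Rep p g V τ v V' τ')
    (hr : m.rl = true) (hC : TC p g V τ E v V' τ' i q B S) (h3 : pc p.n p.lt = 3)
    (h : ∀ k < p.n, tb p.lt k = true → tb q (8 + k) = true) : E.T.erase (v i) ⊆ S := by
  have k5 : (bs p.n p.lt).image v = E.T := eq_of_subset_of_card_le (fun z hz => by
    obtain ⟨j, hj, rfl⟩ := mem_image.1 hz
    exact hP.lt j (mem_bs.1 hj).1 (mem_bs.1 hj).2) (by rw [card_img hP.inj, h3, (hO.q2 hr).2])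
  intro z hz
  obtain ⟨j, hj, rfl⟩ := mem_image.1 (k5 ▸ (mem_erase.1 hz).2)
  exact cs4_bit hO hP hR hC hz (h j (mem_bs.1 hj).1 (mem_bs.1 hj).2)

theorem tc_s2 (hO : Ok m V τ E) (hP : PS m p V τ E v) (hR : Rep p g V τ v V' τ')
    (hr : m.rl = true) (hC : TC p g V τ E v V' τ' i q B S)
    (hty : ∀ j < p.s, tb p.lq j = true ∨ tb p.lt j = true)
    (h : ∀ j < p.s, tb p.lt j = true → tb q (8 + j) = true) : E.T.erase (v i) ⊆ S := by
  intro z hz
  obtain ⟨z1, z2⟩ := mem_erase.1 hz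
  by_cases k : ∀ l < p.n, v l ≠ z
  · have h1 : nb V τ (v i) \ E.Q = E.T.erase (v i) := eq_of_subset_of_card_le (fun x hx => by
      obtain ⟨x1, x2⟩ := mem_sdiff.1 hx
      obtain ⟨x3, x4, -⟩ := mem_nb.1 x1
      exact mem_erase.2 ⟨x4, (hC.tri x x3).resolve_left x2⟩) (by
        rw [card_erase_of_mem hC.iT, (hO.q2 hr).2]
        exact cf_two' hO hC.iT)
    obtain ⟨z3, -, z5⟩ := mem_nb.1 (mem_sdiff.1 (h1 ▸ hz)).1
    have z6 := hR.ow i hC.is z k z5
    rw [cs4_rho hO hP hR hC.iT] at z6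
    refine (hC.cov _ (mem_insert_self _ _) z (mem_nb.2
      ⟨(hR.mem z).2 ⟨z3, fun l hl e => absurd e (k l hl)⟩, z1, z6⟩)).resolve_left fun c => ?_
    exact hO.dis z (hC.bQ ((mem_insert.1 c).resolve_left z1)) z2
  · push Not at k
    obtain ⟨j, hj, rfl⟩ := k
    have j1 : j < p.s := not_le.1 fun c => hO.dis _ (hP.int j hj c).1 z2
    exact cs4_bit hO hP hR hC hz
      (h j j1 ((hty j j1).resolve_left fun c => hO.dis _ (hP.lq j hj c) z2))

theorem tc_s4 (hO : Ok m V τ E) (hP : PS m p V τ E v) (hR : Rep p g V τ v V' τ')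
    (hr : m.rl = true) (hC : TC p g V τ E v V' τ' i q B S) (hL : L2 V τ E) {cm e : ℕ}
    (hc : ∀ j, tb cm j = true → inW p g j ∧ v j ∈ nb V' τ' (v i))
    (hk : g.mg = true → tb (fld p.kn i) g.b = true) (he : e ≤ dg V τ (v i))
    (hd : 3 ≤ pc p.n cm ∨ 3 ≤ e + pc p.n (Nat.land cm (fld p.kn i)) - pc p.n (fld p.ha i))
    (hA : ∀ j < 8, tb q j = false)
    (hh : ∀ j < p.s, tb cm j = true → tb (fld p.ha i) j = true)
    (ha : g.mg = true → tb q (8 + g.a) = false) (h1 : min 2 (tcO p v B) = 1) : False := by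
  classical
  have _ := hr
  have n8 := hP.n8
  have sn := hP.sn
  have le := hR.le
  have is := hC.is
  have out : ∀ z ∈ B, ∀ l < p.n, v l ≠ z := by
    rintro z hz l hl rfl
    have k := ((hR.mem _).1 (hC.bV hz)).2 l hl rfl
    have r : rho g l = l := if_neg k.2
    have := (hC.q1 l (by omega)).2 ⟨k.1, Or.inl (by rwa [r])⟩
    rw [hA l (by omega)] at this
    cases this
  have h2 : B.card = 1 := by
    have : tcO p v B = B.card := by
      unfold tcO
      rw [filter_true_of_mem out]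
    omega
  obtain ⟨y, rfl⟩ := card_eq_one.1 h2
  have yo := out y (mem_singleton_self y)
  have yQ := hC.bQ (mem_singleton_self y)
  have yV := hO.subQ yQ
  have yc := hC.cov y (mem_insert_of_mem (mem_singleton_self y))
  have term : ∀ l < p.n, v l ∈ nb V τ y → l < p.s := fun l hl k => not_le.1 fun c => by
    obtain ⟨k1, k2, -⟩ := hP.int l hl c
    obtain ⟨j, j1, -, j3⟩ := hP.cl l hl k2 y (nb_symm yV k) (Or.inl k1)
    exact yo j j1 j3
  have h3 : nb V τ y ⊆ insert (v i) S := fun z hz => by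
    obtain ⟨z1, z2, z3⟩ := mem_nb.1 hz
    by_cases k : ∀ l < p.n, v l ≠ z
    · have := yc z (mem_nb.2 ⟨(hR.mem z).2 ⟨z1, fun l hl e => absurd e (k l hl)⟩, z2,
        by rwa [hR.oo y z yo k]⟩)
      simp only [mem_insert, mem_singleton] at this ⊢
      tauto
    push Not at k
    obtain ⟨l, hl, rfl⟩ := k
    have l1 := term l hl hz
    obtain ⟨r1, r2, -⟩ := saf_rho hP hR l1
    have r3 := yo _ (r1.trans_le sn)
    have r4 := yc (v (rho g l)) (mem_nb.2 ⟨saf_mem hO hP hR r2, r3, by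
      rw [Sym2.eq_swap]
      exact hR.ow l l1 y yo (by rwa [Sym2.eq_swap])⟩)
    replace r4 : v (rho g l) = v i ∨ v (rho g l) ∈ S := by
      simp only [mem_insert, mem_singleton] at r4
      tauto
    by_cases c : g.mg = true ∧ l = g.b
    · exfalso
      have r : rho g l = g.a := if_pos c
      obtain ⟨a1, -, a3, -⟩ := hR.mg c.1
      have r' : rho g g.a = g.a := if_neg fun k => a3 k.2
      rw [r] at r4
      have := (hC.q2 g.a).2 ⟨by omega, r4.imp (hP.inj _ (by omega) _ (by omega)) fun k => by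
        rwa [r']⟩
      rw [ha c.1] at this
      cases this
    · have r : rho g l = l := if_neg c
      rw [r] at r4
      exact mem_insert.2 r4
  have h4 := hO.ds3 y (Or.inl yQ)
  rw [ds_Q yQ, dg] at h4
  have cS := hC.cS
  have h5 := card_insert_le (v i) S
  have h6 := card_le_card h3
  have h7 : nb V τ y = insert (v i) S := eq_of_subset_of_card_le h3 (by omega)
  have h8 : ∀ D ⊆ nb V' τ' (v i), 3 ≤ D.card → D = insert y S := fun D k1 k2 =>
    eq_of_subset_of_card_le (fun z hz => by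
      have k3 := hC.cov _ (mem_insert_self _ _) z (k1 hz)
      have k4 := (mem_nb.1 (k1 hz)).2.1
      simp only [mem_insert, mem_singleton] at k3 ⊢
      tauto) ((card_insert_le _ _).trans (by omega))
  rcases hd with hd | hd
  · have := h8 ((bs p.n cm).image v) (fun z hz => by
      obtain ⟨j, hj, rfl⟩ := mem_image.1 hz
      exact (hc j (mem_bs.1 hj).2).2) (by rwa [card_img hP.inj])
    obtain ⟨j, hj, k⟩ := mem_image.1 (this ▸ mem_insert_self y S)
    exact yo j (mem_bs.1 hj).1 k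
  obtain ⟨D, d1, d2, d3⟩ := tc_deg2 hO hP hR hc is (cs4_rho hO hP hR hC.iT) fun k => Or.inr (hk k)
  have h9 := h8 D d1 (by omega)
  have sy : ∀ s ∈ S, s ∈ nb V τ y := fun s hs => h7 ▸ mem_insert_of_mem hs
  have si : ∀ s ∈ S, s ∈ nb V τ (v i) := fun s hs =>
    (mem_union.1 (d2 (h9 ▸ mem_insert_of_mem hs))).elim id fun k => by
      obtain ⟨j, hj, rfl⟩ := mem_image.1 k
      obtain ⟨j1, j2⟩ := mem_bs.1 hj
      obtain ⟨-, -, j5⟩ := hP.ha i (by omega) j (hh j (term j j1 (sy _ hs)) j2)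
      exact mem_nb.2 ⟨nb_sub _ (sy _ hs), (hC.sB _ hs).2, j5⟩
  obtain ⟨s1, a1, s2, a2, ne⟩ := one_lt_card.1 (show 1 < S.card by omega)
  exact hL y yQ (by rw [dg]; omega) (v i) (h7 ▸ mem_insert_self _ _) s1 (sy _ a1) s2 (sy _ a2) ne
    (si _ a1) (si _ a2)

end Pool.Agent.Lib.MP_efe3d7_co.J
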