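import Pool.Agent.Lib.MP_efe3d7_co.J.CsD

/-! Small cuts at a boundary vertex of a column: the far side. -/

set_option autoImplicit false

open Finset

namespace Pool.Agent.Lib.MP_efe3d7_co.J

open H

variable {α : Type} [Fintype α] [DecidableEq α]

variable {m : Md} {p : Pre} {V : Finset α} {τ : Sym2 α → Fin 3} {E : Env α} {v : ℕ → α}

variable {g : Col} {V' : Finset α} {τ' : Sym2 α → Fin 3} {i q : ℕ} {B S : Finset α}

theorem tc_s3 (hO : Ok m V τ E) (hP : PS m p V τ E v) (hR : Rep p g V τ v V' τ')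
    (hr : m.rl = true) (hC : TC p g V τ E v V' τ' i q B S) {l2 : Bool} (hL : l2 = true → L2 V τ E)
    (hty : ∀ j < p.s, tb p.lq j = true ∨ tb p.lt j = true) {u M e : ℕ} (hu : u < p.s)
    (u1 : tb p.lt u = true) (u2 : tb q (8 + u) = false)
    (u3 : ∀ j < p.s, tb p.lt j = true → j ≠ u → tb q j = true ∨ tb q (8 + j) = true)
    (ha : g.mg = true → tb q (8 + g.b) = false)
    (hy : ∀ y < p.s, tb p.lq y = true → tb q y = false → tb q (8 + y) = false →
      ∀ l < p.n, tb (fld p.ha y) l = true → l < p.s ∧ tb q l = false ∧ l ≠ i)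
    (hw : p.s < p.n ∨ (∃ l < p.s, tb q l = true) ∨
      ∃ l < p.s, tb p.dn l = true ∧ tb q (8 + l) = true)
    (hM : ∀ l < p.n, tb (fld p.ha u) l = true → p.s ≤ l ∨ tb q l = true → tb M l = true)
    (he : e ≤ ds V τ E (v u)) (hn : 4 + pc p.n M < e + (bif l2 then 1 else 0)) : False := by
  classical
  have s7 := hP.s7
  have sn := hP.sn
  have hi := hC.is
  have T3 := (hO.q2 hr).2
  have om := hO.omn (hO.wm_false hr)
  have nT : ∀ z ∈ E.T, z ∉ E.Q := fun z hz k => hO.dis z k hz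
  have uT : v u ∈ E.T := hP.lt u (by omega) u1
  have rT : ∀ j < p.s, v j ∈ E.T → rho g j = j := fun j hj k =>
    (saf_rho hP hR hj).2.2.resolve_right (nT _ k)
  have ri := rT i hi hC.iT
  have ru := rT u hu uT
  have rb : ∀ j, rho g j = j ∨ (g.mg = true ∧ j = g.b) := fun j => by
    unfold rho
    split_ifs with k
    · exact Or.inr k
    · exact Or.inl rfl
  have vb : ∀ j < p.s, g.mg = true → j = g.b → v j ∉ V' := fun j hj k1 k2 c =>
    (((hR.mem _).1 c).2 j (by omega) rfl).2 ⟨k1, k2⟩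
  have vr : ∀ j < p.s, v (rho g j) ∈ V' := fun j hj => saf_mem hO hP hR (saf_rho hP hR hj).2.1
  have oV : ∀ z ∈ V, (∀ l < p.n, v l ≠ z) → z ∈ V' := fun z hz k =>
    (hR.mem z).2 ⟨hz, fun l hl c => absurd c (k l hl)⟩
  have vinj : ∀ j < p.s, ∀ l < p.s, v j = v l → j = l := fun j hj l hl =>
    hP.inj j (by omega) l (by omega)
  have qf : ∀ j < p.s, tb q j = false ↔ v (rho g j) ∉ B ∧ (j = i ∨ rho g j ≠ i) := fun j hj => by
    rw [← Bool.not_eq_true, hC.q1 j (by omega)]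
    have : j < p.s + g.ni := by omega
    tauto
  have qs : ∀ j < p.s, tb q (8 + j) = false ↔ j ≠ i ∧ v (rho g j) ∉ S := fun j hj => by
    rw [← Bool.not_eq_true, hC.q2 j]
    have : j < p.s + g.ni := by omega
    tauto
  -- an edge of the column does not join the cut to the far side
  have far : ∀ x ∈ V', x ∉ B → x ∉ S → x ≠ v i → ∀ z, τ' s(x, z) ≠ 0 → z ∉ B ∧ z ≠ v i := by
    intro x hx x1 x2 x3 z hz
    have : z ∉ insert (v i) B := fun c => by
      rcases hC.cov z c x (mem_nb.2 ⟨hx, fun k => by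
        rcases mem_insert.1 (k ▸ c) with k | k
        · exact x3 k
        · exact x1 k, by rwa [Sym2.eq_swap]⟩) with k | k
      · exact (mem_insert.1 k).elim x3 x1
      · exact x2 k
    rw [mem_insert, not_or] at this
    exact this.symm
  have tri : ∀ a ∈ E.T, ∀ b ∈ E.T, b ≠ a → b ∈ nb V τ a := fun a h1 b h2 h3 => by
    have h4 : nb V τ a \ E.Q = E.T.erase a := eq_of_subset_of_card_le (fun z hz => by
      obtain ⟨z1, z2⟩ := mem_sdiff.1 hz
      exact mem_erase.2 ⟨(mem_nb.1 z1).2.1, (hC.tri z (nb_sub _ z1)).resolve_left z2⟩)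
      (by rw [card_erase_of_mem h1, T3]; exact cf_two' hO h1)
    exact (mem_sdiff.1 (h4 ▸ mem_erase.2 ⟨h3, h2⟩)).1
  have tS : ∀ t ∈ E.T, t = v u ∨ t = v i ∨ t ∈ S := fun t ht => by
    by_cases k : ∀ l < p.n, v l ≠ t
    · have t1 : t ≠ v i := (k i (by omega)).symm
      have t2 := hR.ow i hi t k (mem_nb.1 (tri _ hC.iT t ht t1)).2.2
      rw [ri] at t2
      rcases hC.cov _ (mem_insert_self _ _) t (mem_nb.2 ⟨oV t (hO.subT ht) k, t1, t2⟩) with c | c
      · exact ((mem_insert.1 c).elim t1 fun c => nT t ht (hC.bQ c)).elim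
      · exact Or.inr (Or.inr c)
    push Not at k
    obtain ⟨j, hj, rfl⟩ := k
    have j1 : j < p.s := not_le.1 fun c => nT _ ht (hP.int j hj c).1
    by_cases c : j = u
    · exact Or.inl (c ▸ rfl)
    refine Or.inr ?_
    rcases u3 j j1 ((hty j j1).resolve_left fun k => nT _ ht (hP.lq j hj k)) c with k | k
    · have := ((hC.q1 j (by omega)).1 k).2
      rw [rT j j1 ht] at this
      exact (this.elim (fun k => nT _ ht (hC.bQ k)) fun k => k.1 k.2).elim
    · have := ((hC.q2 j).1 k).2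
      rw [rT j j1 ht] at this
      exact this.imp_left (congrArg v)
  obtain ⟨ui, uS⟩ := (qs u hu).1 u2
  rw [ru] at uS
  have uB : v u ∉ B := fun k => nT _ uT (hC.bQ k)
  have uV : v u ∈ V' := ru ▸ vr u hu
  have vui : v u ≠ v i := fun k => ui (vinj u hu i hi k)
  obtain ⟨t, tT, t1⟩ : ∃ t ∈ E.T, t ∉ ({v u, v i} : Finset α) :=
    exists_mem_notMem_of_card_lt_card (card_le_two.trans_lt (by omega))
  rw [mem_insert, mem_singleton, not_or] at t1
  have t2 : t ∈ S := ((tS t tT).resolve_left t1.1).resolve_left t1.2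
  obtain ⟨C, hCm⟩ : ∃ C : Finset α, ∀ z, z ∈ C ↔ z ∈ E.Q ∧ z ∉ B ∧ z ∉ S ∧
      ∀ l < p.n, v l = z → l < p.s ∧ tb q l = false :=
    ⟨E.Q.filter fun z => z ∉ B ∧ z ∉ S ∧ ∀ l < p.n, v l = z → l < p.s ∧ tb q l = false,
      fun z => mem_filter⟩
  obtain ⟨U, hU⟩ : ∃ U : Finset α, ∀ z, z ∈ U ↔ z = v u ∨ z ∈ S ∧ ∀ l < p.n, v l = z → l < p.s :=
    ⟨insert (v u) (S.filter fun z => ∀ l < p.n, v l = z → l < p.s), fun z => by
      rw [mem_insert, mem_filter]⟩
  have U1 : U ⊆ insert (v u) S := fun z hz => mem_insert.2 (((hU z).1 hz).imp_right And.left)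
  have cS := hC.cS
  have U3 : (insert (v u) S).card ≤ 3 := (card_insert_le _ _).trans (by omega)
  have good : ∀ z ∈ V, z ∉ B → z ≠ v i → (∀ l < p.n, v l = z → l < p.s ∧ tb q l = false) →
      z ∈ C ∨ z ∈ U := fun z hz z1 z2 z3 => by
    by_cases k : z ∈ S
    · exact Or.inr ((hU z).2 (Or.inr ⟨k, fun l hl c => (z3 l hl c).1⟩))
    rcases hC.tri z hz with c | c
    · exact Or.inl ((hCm z).2 ⟨c, z1, k, z3⟩)
    · exact Or.inr ((hU z).2 (Or.inl (((tS z c).imp_right fun c => c.elim z2 k).resolve_right id)))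
  have gO : ∀ z ∈ V, (∀ l < p.n, v l ≠ z) → z ∉ B → z ∈ C ∨ z ∈ U := fun z hz k z1 =>
    good z hz z1 (k i (by omega)).symm fun l hl c => absurd c (k l hl)
  have gW : ∀ l < p.s, tb q l = false → l ≠ i → v l ∈ C ∨ v l ∈ U := fun l hl k1 k2 => by
    refine good _ (hO.memV (hP.mem l (by omega))) (fun c => ?_) (fun c => k2 (vinj l hl i hi c))
      fun j hj c => hP.inj j hj l (by omega) c ▸ ⟨hl, k1⟩
    rcases rb l with k | k
    · exact ((qf l hl).1 k1).1 (k.symm ▸ c)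
    · exact vb l hl k.1 k.2 (hC.bV c)
  have gR : ∀ l < p.s, v (rho g l) ∉ B ∧ v (rho g l) ≠ v i → v l ∈ C ∨ v l ∈ U := fun l hl k => by
    have k1 : rho g l ≠ i := fun c => k.2 (by rw [c])
    exact gW l hl ((qf l hl).2 ⟨k.1, Or.inr k1⟩) fun c => k1 (c ▸ ri)
  -- the neighbours of a terminal of the far side
  have nW : ∀ k < p.s, v (rho g k) ∉ B → v (rho g k) ∉ S → rho g k ≠ i → ∀ z ∈ nb V τ (v k),
      (z ∈ C ∨ z ∈ U) ∨ ∃ l < p.n, tb (fld p.ha k) l = true ∧ v l = z := by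
    intro k hk k1 k2 k3 z hz
    obtain ⟨z1, z2, z3⟩ := mem_nb.1 hz
    have k4 := far _ (vr k hk) k1 k2 fun c => k3 (vinj _ (saf_rho hP hR hk).1 i hi c)
    by_cases c : ∀ l < p.n, v l ≠ z
    · exact Or.inl (gO z z1 c (k4 z (hR.ow k hk z c z3)).1)
    push Not at c
    obtain ⟨l, hl, rfl⟩ := c
    cases c : tb (fld p.ha k) l
    swap
    · exact Or.inr ⟨l, hl, c, rfl⟩
    have kl : k ≠ l := fun e => z2 (e ▸ rfl)
    have c1 : tb (fld p.kn k) l = false :=
      Bool.eq_false_iff.2 fun c' => z3 (hP.kn k (by omega) l hl kl c' c)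
    have c2 : l < p.s := not_le.1 fun c' => by
      rw [hP.kns k (by omega) l hl, (hP.int l hl c').2.2 k (by omega) kl.symm] at c1
      cases c1
    exact Or.inl (gR l c2 (k4 _ (hR.un k hk l c2 kl c1 z3).2))
  have cov : Cov V τ C U := fun y hy' z hz => by
    obtain ⟨y1, y2, y3, y4⟩ := (hCm y).1 hy'
    obtain ⟨z1, z2, z3⟩ := mem_nb.1 hz
    have y5 : y ≠ v i := fun c => nT _ hC.iT (c ▸ y1)
    by_cases k : ∀ l < p.n, v l ≠ y
    · have k4 := far y (oV y (hO.subQ y1) k) y2 y3 y5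
      by_cases c : ∀ l < p.n, v l ≠ z
      · exact gO z z1 c (k4 z (by rwa [hR.oo y z k c])).1
      push Not at c
      obtain ⟨l, hl, rfl⟩ := c
      have l1 : l < p.s := not_le.1 fun c => by
        obtain ⟨c1, c2, -⟩ := hP.int l hl c
        obtain ⟨j, hj, -, c3⟩ := hP.cl l hl c2 y (nb_symm (hO.subQ y1) hz) (Or.inl c1)
        exact k j hj c3
      refine gR l l1 (k4 _ ?_)
      rw [Sym2.eq_swap] at z3 ⊢
      exact hR.ow l l1 y k z3
    push Not at k
    obtain ⟨k, hk, rfl⟩ := k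
    obtain ⟨k1, k2⟩ := y4 k hk rfl
    have ki : k ≠ i := fun c => y5 (c ▸ rfl)
    have k3 : tb q (8 + k) = false := by
      rcases rb k with c | c
      · exact (qs k k1).2 ⟨ki, c.symm ▸ y3⟩
      · exact c.2 ▸ ha c.1
    obtain ⟨k4, k5⟩ := (qf k k1).1 k2
    rcases nW k k1 k4 ((qs k k1).1 k3).2 (k5.resolve_left ki) z hz with c | ⟨l, hl, c, rfl⟩
    · exact c
    · obtain ⟨l1, l2, l3⟩ := hy k k1 ((hty k k1).resolve_right fun c =>
        nT _ (hP.lt k hk c) y1) k2 k3 l hl c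
      exact gW l l1 l2 l3
  have C1 : C.card ≤ 1 := by
    by_contra k
    obtain ⟨a1, a2, -⟩ := hO.a2 (Or.inl hr) C U
      ⟨fun z hz => ((hCm z).1 hz).1, fun w hw => by rw [om] at hw; cases hw⟩ (by omega) cov
      (disjoint_left.2 fun z h1 h2 => by
        obtain ⟨z1, -, z2, -⟩ := (hCm z).1 h1
        rcases (hU z).1 h2 with c | c
        · exact nT _ uT (c ▸ z1)
        · exact z2 c.1) ((card_le_card U1).trans U3)
    have wit : ∀ l < p.n, v l ∈ E.Q → ¬ (l < p.s ∧ tb q l = false) → (l < p.s → v l ∉ S) → False :=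
      fun l hl l1 l2 l3 => nT _ (a1 (v l) (Or.inl l1) (fun c => l2 (((hCm _).1 c).2.2.2 l hl rfl))
        fun c => ((hU _).1 c).elim (fun c => nT _ uT (c ▸ l1))
          fun c => l3 (c.2 l hl rfl) c.1).1 l1
    rcases hw with c | ⟨l, hl, c⟩ | ⟨l, hl, c1, c2⟩
    · exact wit p.s c (hP.int _ c le_rfl).1 (fun k => lt_irrefl _ k.1)
        fun k => (lt_irrefl _ k).elim
    · have c1 := ((hC.q1 l (by omega)).1 c).2
      rcases rb l with k | k
      · rw [k] at c1
        have c2 := c1.resolve_right fun k => k.1 k.2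
        exact wit l (by omega) (hC.bQ c2) (by simp [c]) fun _ k => (hC.sB _ k).1 c2
      · obtain ⟨-, b1, -, b2, -⟩ := hR.mg k.1
        exact wit l (by omega) (k.2 ▸ hP.lq _ (by omega) b2) (by simp [c])
          fun _ j => vb l hl k.1 k.2 (hC.sV j)
    · obtain ⟨d1, d2⟩ := hP.dn l (by omega) c1
      have c3 := ((hC.q2 l).1 c2).2.resolve_left fun k => nT _ hC.iT (k ▸ d1)
      rcases rb l with k | k
      · rw [k] at c3
        exact d2 (a2 _ ((hU _).2 (Or.inr ⟨c3, fun j hj c =>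
          hP.inj j hj l (by omega) c ▸ hl⟩)) d1)
      · rw [k.2, ha k.1] at c2
        cases c2
  have N1 : nb V τ (v u) ∩ E.Q ⊆
      (C ∪ S.erase t ∩ (nb V τ (v u) ∩ E.Q)) ∪ (bs p.n M).image v := fun z hz => by
    obtain ⟨z1, z2⟩ := mem_inter.1 hz
    have fin : z ∈ C ∨ z ∈ U →
        z ∈ (C ∪ S.erase t ∩ (nb V τ (v u) ∩ E.Q)) ∪ (bs p.n M).image v := fun c =>
      mem_union_left _ (mem_union.2 (c.imp_right fun c => mem_inter.2 ⟨mem_erase.2
        ⟨fun k => nT t tT (k ▸ z2), (((hU z).1 c).resolve_left fun k => nT _ uT (k ▸ z2)).1⟩, hz⟩))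
    rcases nW u hu (ru.symm ▸ uB) (ru.symm ▸ uS) (ru.symm ▸ ui) z z1 with c | ⟨l, hl, c, rfl⟩
    · exact fin c
    by_cases k : p.s ≤ l ∨ tb q l = true
    · exact mem_union_right _ (mem_image_of_mem _ (mem_bs.2 ⟨hl, hM l hl c k⟩))
    · rw [not_or, not_le, Bool.not_eq_true] at k
      exact fin (gW l k.1 k.2 fun c => nT _ hC.iT (c ▸ z2))
  have N2 := (card_le_card N1).trans ((card_union_le _ _).trans
    (Nat.add_le_add_right (card_union_le _ _) _))
  have N3 : (S.erase t ∩ (nb V τ (v u) ∩ E.Q)).card ≤ 1 :=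
    (card_le_card inter_subset_left).trans (by rw [card_erase_of_mem t2]; omega)
  rw [card_img hP.inj] at N2
  rw [ds_nQ (nT _ uT)] at he
  cases l2
  · simp only [cond_false] at hn
    omega
  simp only [cond_true] at hn
  obtain ⟨y, hy'⟩ : C.Nonempty := card_pos.1 (by omega)
  obtain ⟨s, hs⟩ : (S.erase t ∩ (nb V τ (v u) ∩ E.Q)).Nonempty := card_pos.1 (by omega)
  simp only [mem_inter, mem_erase] at hs
  have yQ := ((hCm y).1 hy').1
  have y3 := hO.ds3 y (Or.inl yQ)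
  rw [ds_Q yQ, dg] at y3
  have y4 : nb V τ y = insert (v u) S := eq_of_subset_of_card_le (fun z hz =>
    U1 ((cov y hy' z hz).resolve_left fun c =>
      (mem_nb.1 hz).2.1 (card_le_one.1 C1 z c y hy'))) (by omega)
  exact hL rfl y yQ (by rw [dg, y4]; rw [y4] at y3; omega) (v u) (y4 ▸ mem_insert_self _ _)
    t (y4 ▸ mem_insert_of_mem t2) s (y4 ▸ mem_insert_of_mem hs.1.2) hs.1.1.symm
    (tri _ uT t tT t1.1) hs.2.1

end Pool.Agent.Lib.MP_efe3d7_co.J
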