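import Pool.Agent.Lib.MP_efe3d7_co.J.CfS
import Pool.Agent.Lib.MP_efe3d7_co.J.Cf6
import Pool.Agent.Lib.MP_efe3d7_co.J.Cs1
import Pool.Agent.Lib.MP_efe3d7_co.J.Cs2
import Pool.Agent.Lib.MP_efe3d7_co.J.Cs3
import Pool.Agent.Lib.MP_efe3d7_co.J.Cs4
import Pool.Agent.Lib.MP_efe3d7_co.J.Cs5

/-! Soundness of the test for columns with merges. -/

set_option autoImplicit false

open Finset

namespace Pool.Agent.Lib.MP_efe3d7_co.J

open H

theorem cf_FB {F G k n q : ℕ} (hq : q < 65536) (h : tb (cFB F G k n) q = true) :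
    (cnt k fun j => tb F j && (tb G j || tb q j)) < n := by
  induction k generalizing n with
  | zero =>
    have e : cFB F G 0 n = bif Nat.beq n 0 then 0 else cON := rfl
    rw [e] at h
    cases n with
    | zero => simp [Nat.beq, tb_zero] at h
    | succ n => exact Nat.succ_pos n
  | succ k ih =>
    have e : cFB F G (k + 1) n = bif Nat.beq n 0 then 0 else bif tb F k then
      frc (Nat.pred n) fun u => bif tb G k then cFB F G k u else
        Nat.lor (df (cFB F G k n) (cMK k)) (cFB F G k u) else cFB F G k n := rfl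
    have e2 : (cnt (k + 1) fun j => tb F j && (tb G j || tb q j)) =
      bif tb F k && (tb G k || tb q k) then
        Nat.succ (cnt k fun j => tb F j && (tb G j || tb q j)) else
        cnt k fun j => tb F j && (tb G j || tb q j) := rfl
    rw [e, frc_eq] at h
    rw [e2]
    cases n with
    | zero => simp [Nat.beq, tb_zero] at h
    | succ n =>
      rw [show Nat.beq (n + 1) 0 = false from rfl, cond_false, Nat.pred_succ] at h
      cases hF : tb F k
      · rw [hF] at h
        exact ih h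
      rw [hF, cond_true] at h
      cases hG : tb G k
      · rw [hG, cond_false, tb_lor, tb_df, cf_MK, Bool.or_eq_true, Bool.and_eq_true] at h
        rcases h with ⟨h, k1⟩ | h
        · have := ih h
          simp only [hq, decide_true, Bool.true_and, Bool.not_eq_true'] at k1
          rw [k1]
          exact this
        · have := ih h
          cases tb q k
          · exact Nat.lt_succ_of_lt this
          · exact Nat.succ_lt_succ this
      · rw [hG, cond_true] at h
        exact Nat.succ_lt_succ (ih h)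

theorem cf_NK {k q : ℕ} (h : tb (cNK k) q = true) : tb q k = false := by
  rw [cNK, tb_df, cf_ON, cf_MK] at h
  revert h
  cases decide (q < 65536) <;> simp

theorem cf_NS {k q : ℕ} (h : tb (cNS k) q = true) : tb q (8 + k) = false := by
  rw [cNS, tb_df, cf_ON, cf_MS] at h
  revert h
  cases decide (q < 65536) <;> simp

theorem cf_KS {k q : ℕ} (h : tb (Nat.lor (cMK k) (cMS k)) q = true) :
    tb q k = true ∨ tb q (8 + k) = true := by
  rw [tb_lor, cf_MK, cf_MS] at h
  revert h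
  cases decide (q < 65536) <;> simp

theorem cf_MK' {k q : ℕ} (h : tb (cMK k) q = true) : tb q k = true := by
  rw [cf_MK, Bool.and_eq_true] at h
  exact h.2

theorem cf_MS' {k q : ℕ} (h : tb (cMS k) q = true) : tb q (8 + k) = true := by
  rw [cf_MS, Bool.and_eq_true] at h
  exact h.2

theorem cf_if0 {b : Bool} {M q : ℕ} (h : tb (bif b then M else 0) q = true) :
    b = true ∧ tb M q = true := by
  cases b
  · rw [cond_false, tb_zero] at h
    cases h
  · exact ⟨rfl, h⟩

variable {α : Type} [Fintype α] [DecidableEq α]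

variable {m : Md} {p : Pre} {V : Finset α} {τ : Sym2 α → Fin 3} {E : Env α} {v : ℕ → α}

variable {g : Col} {V' : Finset α} {τ' : Sym2 α → Fin 3} {i q : ℕ} {B S : Finset α}

theorem cf_nem2 (hO : Ok2 m V τ E) (hP : PS m p V τ E v) (hR : Rep p g V τ v V' τ')
    (h : cNem2 m p g = true) : (∃ a ∈ V', a ∈ E.Q) ∨
      (E.om = none ∧ ∀ a ∈ E.T, ∀ b ∈ E.T, a ≠ b → τ' s(a, b) ≠ 0) := by
  rw [cNem2, Bool.or_eq_true, Bool.and_eq_true] at h
  rcases h with h | h
  · exact (cf_parts hO.ok hP hR h).2.2.2.2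
  · exact Or.inl (tc_nem hO hP hR h.1 (Nat.le_of_ble_eq_true h.2))

theorem cf_chg2 (hO : Ok2 m V τ E) (hP : PS m p V τ E v) (hR : Rep p g V τ v V' τ') {T : ℕ}
    (hT : CTab p V τ E v T) (h : cChg2 m p (cGood p T 0) (cGood p T 1) g = true) :
    Chg V τ E V' τ' := by
  have n8 := hP.n8
  have sn := hP.sn
  simp only [cChg2, cRC, frc_eq, Bool.and_eq_true, allB_iff] at h
  obtain ⟨⟨h1, h2⟩, h3⟩ := h
  obtain ⟨p1, p2, p3, p4⟩ := tc_parts hO.ok hP hR
  have half : ∀ i < p.s, ∀ j < i, tb p.lq i = false → tb p.lq j = false →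
      tb (fld p.ha i) j = true → ty g.ct i j ≠ 0 := fun i hi j hj k1 k2 k3 => by
    have := h1 i hi j hj
    rw [cf_Row _ hj (by omega), k1, k2, k3] at this
    simpa [nz_iff] using this
  refine ⟨p1, p2, fun a ha b hb ab a1 b1 k => p3 a ha b hb ab a1 b1 k
    fun i hi j hj e1 e2 k1 k2 k3 => ?_, p4, fun w hw => saf_om hO.ok hP hR hw,
    cf_nem2 hO hP hR h2, cf_cut hO.ok hP hR hT (fun _ => rfl) h3⟩
  rcases lt_trichotomy i j with c | rfl | c
  · rw [ty_comm]
    exact half j hj i c k2 k1 (hP.has i (by omega) j (by omega) ▸ k3)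
  · exact absurd (e1.symm.trans e2) ab
  · exact half i hi j c k1 k2 k3

theorem cf_S3 (hO : Ok m V τ E) (hP : PS m p V τ E v) (hR : Rep p g V τ v V' τ')
    (hr : m.rl = true) (hC : TC p g V τ E v V' τ' i q B S) {l2 : Bool} (hL : l2 = true → L2 V τ E)
    {d6 : ℕ} (h6 : ∀ i < p.n, tb d6 i = true → 6 ≤ ds V τ E (v i))
    (hty : ∀ j < p.s, tb p.lq j = true ∨ tb p.lt j = true) {u : ℕ} (hu : u < p.s)
    (u1 : tb p.lt u = true) (ha : g.mg = true → tb q (8 + g.b) = false)
    (h : tb (cS3 l2 p d6 i u) q = true) : False := by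
  have sn := hP.sn
  simp only [cS3, tb_land, Bool.and_eq_true, frc_eq] at h
  obtain ⟨⟨⟨h1, h2⟩, h3⟩, h4, h5⟩ := h
  have h7 := cf_FB hC.q0 h5
  refine tc_s3 hO hP hR hr hC hL hty hu u1 (cf_NS h1) (fun j hj a b => cf_KS (cf_An h2 j hj ?_)) ha
    (fun y hy a b c l hl d => ?_) ?_
    (M := msk p.n fun j => tb (fld p.ha u) j && (tb (df (ful p.n) (ful p.s)) j || tb q j))
    (fun l hl a b => ?_) (tc_el hO hP h6 (by omega : u < p.n)).1 ?_
  · rw [a, Bool.eq_false_iff.2 fun k => b (Nat.eq_of_beq_eq_true k)]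
    rfl
  · have k := cf_An h3 y hy a
    rw [tb_lor, Bool.or_eq_true] at k
    rcases k with k | k
    · rcases cf_KS k with k | k
      · rw [b] at k
        cases k
      · rw [c] at k
        cases k
    cases e : nz (df (fld p.ha y) (df (ful p.s) (bt i)))
    · rw [e, cond_false] at k
      have k1 := (nz_false _).1 e l
      simp only [tb_df, tb_ful, tb_bt, d, Bool.true_and, Bool.not_eq_false', Bool.and_eq_true,
        decide_eq_true_eq, Bool.not_eq_true', decide_eq_false_iff_not] at k1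
      exact ⟨k1.1, cf_NK (cf_An k l k1.1 d), fun f => k1.2 f.symm⟩
    · rw [e, cond_true, tb_zero] at k
      cases k
  · cases e : Nat.blt p.s p.n
    · rw [e, cond_false, tb_lor, Bool.or_eq_true] at h4
      rcases h4 with k | k
      · obtain ⟨l, l1, -, l2⟩ := cf_Un k
        exact Or.inr (Or.inl ⟨l, l1, cf_MK' l2⟩)
      · obtain ⟨l, l1, l2, l3⟩ := cf_Un k
        exact Or.inr (Or.inr ⟨l, l1, l2, cf_MS' l3⟩)
    · exact Or.inl (Nat.blt_eq ▸ e)
  · rw [tb_msk, a, tb_df, tb_ful, tb_ful]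
    rcases b with b | b
    · simp [hl, b]
    · simp [hl, b]
  · have e : pc p.n (msk p.n fun j => tb (fld p.ha u) j &&
        (tb (df (ful p.n) (ful p.s)) j || tb q j)) = cnt p.n fun j => tb (fld p.ha u) j &&
        (tb (df (ful p.n) (ful p.s)) j || tb q j) := by
      rw [pc, cnt_eq, cnt_eq]
      exact congrArg card (filter_congr fun j hj => by rw [tb_msk]; simp [mem_range.1 hj])
    rw [e]
    simp only [cEl, Nat.add_eq, Nat.sub_eq] at h7
    omega

theorem cf_S23 (hO : Ok m V τ E) (hP : PS m p V τ E v) (hR : Rep p g V τ v V' τ')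
    (hr : m.rl = true) (hC : TC p g V τ E v V' τ' i q B S) {l2 : Bool} (hL : l2 = true → L2 V τ E)
    {d6 : ℕ} (h6 : ∀ i < p.n, tb d6 i = true → 6 ≤ ds V τ E (v i))
    (h : tb (cS23 l2 p d6 i g) q = true) : E.T.erase (v i) ⊆ S := by
  rw [cS23, tb_lor, Bool.or_eq_true] at h
  rcases h with h | h
  · obtain ⟨a, b⟩ := cf_if0 h
    exact tc_t3 hO hP hR hr hC (Nat.eq_of_beq_eq_true a) fun k k1 k2 => cf_MS' (cf_An b k k1 k2)
  obtain ⟨a, b⟩ := cf_if0 h
  have hty : ∀ j < p.s, tb p.lq j = true ∨ tb p.lt j = true := fun j hj =>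
    Bool.or_eq_true_iff.1 ((allB_iff _ _).1 a j hj)
  rw [tb_lor, tb_land, Bool.or_eq_true, Bool.and_eq_true] at b
  rcases b with b | ⟨b, c⟩
  · exact tc_s2 hO hP hR hr hC hty fun k k1 k2 => cf_MS' (cf_An b k k1 k2)
  · obtain ⟨u, u1, u2, u3⟩ := cf_Un c
    exact (cf_S3 hO hP hR hr hC hL h6 hty u1 u2 (fun e => cf_NS (by rwa [e] at b)) u3).elim

omit [Fintype α] in
theorem cf_GU (hO : Ok m V τ E) (hP : PS m p V τ E v) {T : ℕ} (hT : CTab p V τ E v T)
    {o1 d t M0 M1 : ℕ} (h1 : o1 ≤ 2) (ht : (cnt 8 fun i => tb q (8 + i)) ≤ t + d) (h2 : t ≤ 2)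
    (h3 : ∀ k < 8, tb q k = true → tb q (8 + k) = true → False)
    (h4 : o1 = 0 → tb M0 q = true → False) (h5 : o1 = 1 → tb M1 q = true → False)
    (hq : tb (cGU p T d M0 M1) q = true) : CBad p V τ E v q o1 (2 - t) := by
  rw [cGU, tb_lor, Bool.or_eq_true] at hq
  rcases hq with k | k
  · exact cf_free hO hP (by simp only [Nat.add_eq]; omega) h3 k
  · refine cf_two hO hP hT h1 ht h4 (fun c j => ?_) k
    rw [tb_lor, Bool.or_eq_true] at j
    exact j.resolve_left (h5 c)

theorem cf_TA (hO : Ok m V τ E) (hP : PS m p V τ E v) (hR : Rep p g V τ v V' τ')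
    (hr : m.rl = true) (hC : TC p g V τ E v V' τ' i q B S) {l2 : Bool} (hL : l2 = true → L2 V τ E)
    {d6 T cm e : ℕ} (h6 : ∀ i < p.n, tb d6 i = true → 6 ≤ ds V τ E (v i)) (hT : CTab p V τ E v T)
    (hb : g.mg = true → ∀ j < p.s + g.ni, ty g.ct g.b j = 0)
    (hc : ∀ j, tb cm j = true → inW p g j ∧ v j ∈ nb V' τ' (v i))
    (hk : g.mg = true → tb (fld p.kn i) g.b = true) (he : e + 2 ≤ dg V' τ' (v i))
    (hd : (g.mg = true → g.a ≠ i) → 3 ≤ pc p.n cm ∨
      3 ≤ cEl p d6 i + pc p.n (Nat.land cm (fld p.kn i)) - pc p.n (fld p.ha i))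
    (h : cTA l2 p d6 T (p.s + g.ni) g.ct i cm e g = true) : E.T.erase (v i) ⊆ S := by
  have q0 := hC.q0
  have sn := hP.sn
  have le := hR.le
  have n8 := hP.n8
  have is := hC.is
  obtain ⟨t, t2, c2, c1, nb, ed, dj, bits, dd⟩ := tc_pos hO hP hR hr hC hb
  obtain ⟨i1, i2⟩ := tc_i hO hP hR hC
  simp only [cTA, frc_eq] at h
  generalize hF : (bif g.mg then df 255 (bt g.b) else 255) = F at h
  have cF : ((bs 8 q).filter fun j => ¬ (g.mg = true ∧ j = g.b)).card ≤
      cnt 8 fun j => tb F j && (tb 0 j || tb q j) := by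
    rw [cnt_eq]
    refine card_le_card fun j hj => ?_
    obtain ⟨j1, j2⟩ := mem_filter.1 hj
    obtain ⟨j3, j4⟩ := mem_bs.1 j1
    refine mem_filter.2 ⟨mem_range.2 j3, ?_⟩
    have f : tb 255 j = true := (tb_ful 8 j).trans (decide_eq_true j3)
    rw [j4, Bool.or_true, Bool.and_true, ← hF]
    cases hg : g.mg
    · exact f
    · rw [cond_true, tb_df, f, tb_bt, decide_eq_false fun c => j2 ⟨hg, c.symm⟩]
      rfl
  have h4 : min 2 (tcO p v B) = 0 → tb (cFB F 0 8 e) q = true → False := fun a b => by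
    have := cf_FB q0 b
    omega
  generalize hM : Nat.lor (cFB F 0 8 (Nat.pred e)) _ = M1 at h
  have h5 : min 2 (tcO p v B) = 1 → tb M1 q = true → False := fun a b => by
    rw [← hM, tb_lor, Bool.or_eq_true] at b
    rcases b with b | b
    · have := cf_FB q0 b
      rw [Nat.pred_eq_sub_one] at this
      omega
    obtain ⟨b1, b2⟩ := cf_if0 b
    rw [Bool.and_eq_true, Bool.not_eq_true'] at b1
    rw [tb_land, Bool.and_eq_true] at b2
    have ha : g.mg = true → tb q (8 + g.a) = false := fun c => cf_NS (by simpa [c] using b2.2)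
    have el := tc_el hO hP h6 (by omega : i < p.n)
    refine tc_s4 hO hP hR hr hC (hL b1.1) hc hk (el.1.trans el.2) (hd fun c f => ?_)
      (fun j hj => ((cf_EQ b2.1).2 j hj).trans (tb_zero j)) (fun j hj k => ?_) ha a
    · rw [← f, ha c] at i1
      cases i1
    · have := (nz_false _).1 b1.2 j
      rw [tb_df, tb_land, tb_ful, k, decide_eq_true hj] at this
      simpa using this
  have hq := cf_All h q0
  simp only [tb_lor, Bool.or_eq_true] at hq
  rcases hq with ((k | k) | k | k) | k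
  · exact absurd k ed
  · rw [cf_NS k] at i1
    cases i1
  · obtain ⟨j, -, j2, j3⟩ := cf_Un k
    rw [tb_df, cf_MS, Bool.and_eq_true] at j3
    rcases bits j (hc j j2).1 (hc j j2).2 with c | c
    · rw [cf_NK j3.1] at c
      cases c
    · simp [c, q0] at j3
  · exact cf_S23 hO hP hR hr hC hL h6 k
  refine (nb ?_).elim
  cases hg : g.mg
  · rw [hg, cond_false] at k
    exact cf_GU hO hP hT (min_le_left _ _) (c1 (by simp [hg])) t2 dj h4 h5 k
  rw [hg, cond_true, tb_lor, tb_lor, Bool.or_eq_true, Bool.or_eq_true] at k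
  obtain ⟨m1, m2⟩ := tc_mg hO hP hR hC hg
  rcases k with (k | k) | k
  · exfalso
    rw [cMG] at k
    cases c : Nat.beq g.a i
    · obtain ⟨a, b⟩ := m2 (Nat.ne_of_beq_eq_false c)
      rw [c, cond_false, tb_lor, cf_xor, cf_xor, cf_MK, cf_MK, cf_MS, cf_MS, a, b] at k
      simp at k
    · obtain ⟨a, b⟩ := m1 (Nat.eq_of_beq_eq_true c)
      rw [c, cond_true, tb_lor, Bool.or_eq_true] at k
      rcases k with k | k
      · rw [cf_NK k] at a
        cases a
      · rw [cf_MS' k] at b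
        cases b
  · rw [tb_df, cf_MS, Bool.and_eq_true] at k
    exact cf_GU hO hP hT (min_le_left _ _) (c1 fun _ => by simpa [q0] using k.2) t2 dj h4 h5 k.1
  · exact cf_GU hO hP hT (min_le_left _ _) c2 t2 dj h4 h5 k

theorem cf_tt2 (hO : Ok2 m V τ E) (hP : PS m p V τ E v) (hR : Rep p g V τ v V' τ') {l2 : Bool}
    (hL : l2 = true → L2 V τ E) {d6 T : ℕ}
    (h6 : ∀ i < p.n, tb d6 i = true → 6 ≤ ds V τ E (v i)) (hT : CTab p V τ E v T)
    (h : cTT2 l2 (pc p.n) m p d6 T (cGood p T 0) (cGood p T 1) g = true) : Con3 V' τ' := by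
  simp only [cTT2, frc_eq, Bool.and_eq_true, allB_iff, Nat.add_eq, Nat.sub_eq] at h
  obtain ⟨⟨⟨hr, h2⟩, h3⟩, h1, h4⟩ := h
  have o := hO.ok
  have om := o.omn (o.wm_false hr)
  have sn := hP.sn
  have hb : g.mg = true → ∀ j < p.s + g.ni, ty g.ct g.b j = 0 := fun c j hj => by
    rw [c, Bool.not_true, Bool.false_or, allB_iff] at h1
    have := h1 j hj
    rw [Bool.not_eq_true', ← Bool.not_eq_true, nz_iff] at this
    exact not_not.1 this
  refine tc_core o hP hR hr ((cf_nem2 hO hP hR h2).imp_right And.right)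
    (fun B S k1 k2 k3 k4 => cf_cut o hP hR hT (fun _ => rfl) h3 B S k1 k3
      ⟨k2, fun w hw => by rw [om] at hw; cases hw⟩ k4) fun i hi hl ht => ?_
  replace h4 := h4 i hi
  rw [hl, Bool.not_true, Bool.false_or, Bool.and_eq_true, Bool.and_eq_true] at h4
  obtain ⟨h5, h7, h8⟩ := h4
  have hk : g.mg = true → tb (fld p.kn i) g.b = true := fun c => by simpa [c] using h5
  have hc := tc_cm o hP hR hi ht hb
  generalize (msk (p.s + g.ni) fun j => !Nat.beq i j && nz (ty g.ct i j)) = cm at h7 h8 hc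
  have d1 := tc_deg1 o hP hR hr hi ht hc
  have fix : rho g i = i := (saf_rho hP hR hi).2.2.resolve_right fun k => o.dis _ k ht
  generalize hz : (bif g.mg && Nat.beq g.a i then g.b else i) = z at h7 h8
  have z1 : z < p.s ∧ rho g z = i ∧ (g.mg = true → z = g.b ∨ tb (fld p.kn z) g.b = true) ∧
      ((g.mg = true → g.a ≠ i) → z = i) := by
    cases c : (g.mg && Nat.beq g.a i)
    · rw [c, cond_false] at hz
      subst hz
      exact ⟨hi, fix, fun e => Or.inr (hk e), fun _ => rfl⟩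
    · rw [c, cond_true] at hz
      subst hz
      obtain ⟨a, b⟩ := Bool.and_eq_true_iff.1 c
      have b := Nat.eq_of_beq_eq_true b
      exact ⟨(hR.mg a).2.1, (if_pos ⟨a, rfl⟩).trans b, fun _ => Or.inl rfl, fun e => absurd b (e a)⟩
  obtain ⟨z1, z2, z3, z4⟩ := z1
  obtain ⟨D, D1, -, D2⟩ := tc_deg2 o hP hR hc z1 z2 z3
  have el := tc_el o hP h6 (by omega : z < p.n)
  have d2 : cEl p d6 z + pc p.n (Nat.land cm (fld p.kn z)) - pc p.n (fld p.ha z) ≤
      dg V' τ' (v i) := by
    have := card_le_card D1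
    simp only [cEl, Nat.add_eq]
    unfold dg at D2 el ⊢
    omega
  simp only [Bool.or_eq_true, Nat.ble_eq] at h7
  refine ⟨by omega, fun q B S hC => ?_⟩
  have r := tc_rho o hP hr hC
  rw [r, cond_false, add_zero] at h7 h8 d1
  rw [Bool.false_or] at h8
  refine cf_TA o hP hR hr hC hL h6 hT hb hc hk ?_ (fun e => z4 e ▸ h7) h8
  cases c : Nat.ble (pc p.n cm)
    (cEl p d6 z + pc p.n (Nat.land cm (fld p.kn z)) - pc p.n (fld p.ha z))
  · have := mt Nat.ble_eq_true_of_le (Bool.eq_false_iff.1 c)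
    rw [cond_false]
    omega
  · have := Nat.le_of_ble_eq_true c
    rw [cond_true]
    omega

theorem safeH_sound {l2 ex : Bool} {d6 : ℕ} {hs : List ℕ} {cols : List Col}
    (hm : m.rl = true ∨ m.wm = true) (hN : N1 α) (hO : Ok2 m V τ E) (hL : l2 = true → L2 V τ E)
    (hP : PS m p V τ E v) (h6 : ∀ i < p.n, tb d6 i = true → 6 ≤ ds V τ E (v i))
    (h : safeH l2 ex m p d6 hs cols = true) :
    ∀ g ∈ cols, typOk p g = true ∧ (g.r = 99 → ex = true) ∧ (g.r ≠ 99 → ∀ U σ,
      ColG p g.ni g.ct V τ v U σ → Con3 (cV g v U) (cT g v σ)) := by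
  have s7 := hP.s7
  have o := hO.ok
  rw [safeH, frc_eq, frc_eq, frc_eq, frc_eq, frc_eq, cf_Pc hP.n8, cf_Pc (by omega),
    Bool.and_eq_true, List.all_eq_true (l := cols)] at h
  obtain ⟨hh, hc⟩ := h
  have hT := cf_tab2 hm hO hP hL h6 hh
  intro g hg
  obtain ⟨h1, hq⟩ := Bool.and_eq_true_iff.1 (hc g hg)
  have ht := cf_typ hP.n8 h1
  refine ⟨ht, fun e => ?_, fun e U σ hG => ?_⟩
  · rwa [e] at hq
  rw [Bool.eq_false_iff.2 fun k => e (Nat.eq_of_beq_eq_true k), cond_false] at hq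
  cases e1 : Nat.beq g.r 97
  swap
  · rw [e1, cond_true] at hq
    exact cf_tt2 hO hP (rep_of o hP ht hG) hL h6 hT hq
  rw [e1, cond_false] at hq
  cases e2 : nz g.r
  · rw [e2, cond_false] at hq
    exact o.safe hm _ _ (cf_chg2 hO hP (rep_of o hP ht hG) hT hq)
  · rw [e2, cond_true] at hq
    exact tri_sound hN o hP ht hq hG

end Pool.Agent.Lib.MP_efe3d7_co.J
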