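import Pool.Agent.Lib.MP_efe3d7_co.H.Chk

/-! Case trees with the additional rules. -/

set_option autoImplicit false

namespace Pool.Agent.Lib.MP_efe3d7_co.J

open H

/-- The closed vertices in the mask `i` form a smaller thick fragment. -/
def minOk (m : Md) (k : K) (i : ℕ) : Bool :=
  m.rl && !nz (df i (ful k.n)) && Nat.ble 2 (pc k.n i) &&
    (allB k.n fun j => !tb i j || (tb k.lq j && k.cl j)) &&
    (nz (df (Nat.land k.lq (ful k.n)) i) || Nat.ble 4 (pc k.n (df (ful k.n) i))) &&
    frc (df (un k.n i k.nm) i) fun U => Nat.ble (pc k.n U) 3 &&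
      allB k.n fun u => !tb U u || tb k.lt u || frc (k.nm u) fun N =>
        Nat.ble 2 (pc k.n (df N i)) || Nat.ble (Nat.add 2 (pc k.n (Nat.land N i))) (k.el m u)

/-- The region without the vertices in the mask `Y` has too few neighbours. -/
def cplOk (m : Md) (k : K) (Y : ℕ) : Bool :=
  m.rl && nz Y && !nz (df Y (Nat.land k.lq (ful k.n))) &&
  frc (msk k.n fun y => tb Y y && k.cl y && !nz (df (df (k.nm y) Y) k.lt)) fun Yi =>
  frc (msk k.n fun t => tb k.lt t && Nat.ble 4 (dig k.ex t) && k.cl t &&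
    !nz (df (Nat.land (k.nm t) k.lq) Y)) fun Tk =>
  frc (pc k.n (df Y Yi)) fun a => frc (Nat.add (pc k.n (Nat.land Y k.dy)) (pc k.n Tk)) fun b =>
  frc (pc k.n (df k.lq Y)) fun r1 => frc (pc k.n (df Y k.dy)) fun r2 =>
  Nat.ble a b && ((Nat.blt a b && (Nat.ble 1 r1 || (m.q0 && Nat.ble r2 2))) ||
    ((Nat.ble 2 r1 || (m.q0 && Nat.ble r2 1)) && (nz Yi || nz Tk || nz (Nat.land Y k.dn) ||
      allB k.n fun y => !tb Y y || Nat.ble 2 (pc k.n (Nat.land (k.nm y) (Nat.lor Y k.lt))))))

/-- The contradiction rules. -/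
def conJ (m : Md) (k : K) (r i : ℕ) : Bool :=
  bif Nat.beq r 16 then minOk m k i else bif Nat.beq r 17 then cplOk m k i else conOk m k r i

/-- The new vertex `z` is a neighbour of `i`: it is not adjacent to `l` if `F i l`. -/
def nfx (k : K) (i z : ℕ) : K :=
  { k with pr := bif Nat.beq k.fb 0 then k.pr else
      Nat.rec k.pr (fun l r => bif k.F i l && !Nat.beq i l then
        frc r fun t => sdg t (px l z) 1 else r) z }

/-- Change the unused digits. -/
def sl3 (x : ℕ) : ℕ := Nat.xor x (Nat.shiftLeft (Nat.mod x 35184372088777) 3)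

/-- Evaluate the fields of a configuration whose pairs have changed. -/
def frs {β : Type} (k : K) (c : K → β) : β :=
  frc k.pr fun t => K.frc { k with pr := sl3 t } c

/-- Case trees. -/
inductive Tr where
  | con : ℕ → ℕ → Tr
  | ref : ℕ → ℕ → Tr
  | rfw : ℕ → ℕ → ℕ → Tr
  | loc : ℕ → Tr → Tr → Tr
  | door : ℕ → Tr → Tr → Tr
  | deg : ℕ → Tr → Tr → Tr
  | adj : ℕ → ℕ → Tr → Tr → Tr
  | typ : ℕ → ℕ → Tr → Tr → Tr
  | fbd : ℕ → ℕ → Tr → Tr → Tr
  | exp : ℕ → Tr → Tr
  | prm : ℕ → Tr → Tr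
  | alx : Tr → Tr → Tr
  | ext : ℕ → Tr → Tr

/-- The entry `(m', k')` occurs in `k` outside the cubic vertex `z`. -/
def rfwOk (m : Md) (k : K) (m' : Md) (k' : K) (σ z : ℕ) : Bool :=
  m.fr && m'.le mdW && !k'.al && Nat.beq k'.dy 0 && Nat.blt z k.n && tb k.lq z &&
    Nat.beq (dig k.ex z) 3 &&
    (allB k'.n fun l => frc (hx σ l) fun a =>
      !Nat.beq a z && (!tb k'.dn l || Nat.beq (k.eP a z) 1)) &&
    subOk m k { k' with dn := 0 } σ

/-- The tree shows that the configuration is reducible, given the first `N` entries of `L`. -/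
def chk (L : BT) (N : ℕ) (m : Md) : Tr → K → Bool
  | .con r i, k => conJ m k r i
  | .ref j σ, k => Nat.blt j N && (L.get j).1.le m && subOk m k (L.get j).2 σ
  | .rfw j σ z, k => Nat.blt j N && rfwOk m k (L.get j).1 (L.get j).2 σ z
  | .loc i a b, k => Nat.blt i k.n &&
    (K.frc { k with lq := Nat.lor k.lq (bt i) } fun k => chk L N m a k) &&
    K.frc { k with lt := Nat.lor k.lt (bt i) } fun k => chk L N m b k
  | .door i a b, k => Nat.blt i k.n && tb k.lq i &&
    (K.frc { k with dy := Nat.lor k.dy (bt i) } fun k => chk L N m a k) &&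
    K.frc { k with dn := Nat.lor k.dn (bt i) } fun k => chk L N m b k
  | .deg i a b, k => Nat.blt i k.n && frc (k.el m i) fun e => Nat.ble e 6 &&
    (K.frc { k with ex := sdg k.ex i e } fun k => chk L N m a k) &&
    K.frc { k with lo := sdg k.lo i (Nat.succ e) } fun k => chk L N m b k
  | .adj i j a b, k => Nat.blt i k.n && Nat.blt j k.n && !Nat.beq i j && Nat.ble k.n 16 &&
    (frs (k.sP i j 1) fun k => chk L N m a k) && frs (k.sP i j 4) fun k => chk L N m b k
  | .typ i j a b, k => Nat.blt i k.n && Nat.blt j k.n && k.aj i j && Nat.ble k.n 16 &&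
    (frs (k.sP i j 2) fun k => chk L N m a k) && frs (k.sP i j 3) fun k => chk L N m b k
  | .fbd i j a b, k => Nat.blt i k.n && Nat.blt j k.n && !Nat.beq i j && !m.wm && k.fresh &&
    (tb k.lq i || tb k.lq j) &&
    (K.frc { k with fb := Nat.lor k.fb (bt (px i j)) } fun k => chk L N m a k) &&
    K.frc ((k.sP j k.n 4).add i) fun k1 => K.frc (nfx k1 i k.n) fun k2 =>
      frs (nfx k2 j k.n) fun k => chk L N m b k
  | .exp i a, k => Nat.blt i k.n && !m.wm && k.fresh && tb k.lq i &&
    Nat.blt (cnt k.n fun j => !Nat.beq i j && !Nat.beq (k.eP i j) 1) (k.el m i) &&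
    K.frc (k.add i) fun k1 => frs (nfx k1 i k.n) fun k => chk L N m a k
  | .prm i a, k => Nat.blt i k.n && !m.wm && k.fresh && tb k.dy i &&
    (allB k.n fun l => Nat.beq i l || Nat.beq (k.eP i l) 1 || k.np m l) &&
    K.frc { k.add i with lt := Nat.lor k.lt (bt k.n), ex := sdg k.ex k.n 3 } fun k1 =>
      frs (nfx k1 i k.n) fun k => chk L N m a k
  | .alx a b, k => k.fresh && chk L N m a { k with al := true } &&
    K.frc { k with n := Nat.succ k.n } fun k => chk L N m b k
  | .ext i a, k => Nat.blt i k.n && !m.wm && k.fresh && tb k.lt i &&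
    Nat.blt (Nat.add 2 (cnt k.n fun j => !Nat.beq i j && !tb k.lt j && !Nat.beq (k.eP i j) 1))
      (k.el m i) &&
    K.frc { k.add i with lq := Nat.lor k.lq (bt k.n) } fun k1 =>
      frs (nfx k1 i k.n) fun k => chk L N m a k

/-- The entries `N, N + 1, ...` are reducible by the listed trees. -/
def chkL (L : BT) : List Tr → ℕ → Bool
  | [], _ => true
  | t :: ts, N => chk L N (L.get N).1 t (L.get N).2 && frc (Nat.succ N) fun M => chkL L ts M

end Pool.Agent.Lib.MP_efe3d7_co.J
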