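import Pool.Agent.Lib.MP_efe3d7_co.J.TS

/-! Counting vertices and edges of a column. -/

set_option autoImplicit false

open Finset

namespace Pool.Agent.Lib.MP_efe3d7_co.J.Tw

open H
open H.Fn (T5 pr pev)

variable {α : Type} [DecidableEq α] {V U : Finset α} {τ σ : Sym2 α → Fin 3} {w : ℕ → α} {md : Mo}
  {n ct : ℕ}

theorem cu_card (hp : Pl U w n) : (cU U w n).card = U.card + n := by
  rw [cU, card_union_of_disjoint (disjoint_right.2 fun a ha => ?_), card_image_of_injOn
    fun i hi j hj => hp.inj i (mem_Ico.1 (mem_coe.1 hi)).2 j (mem_Ico.1 (mem_coe.1 hj)).2,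
    Nat.card_Ico, Nat.add_sub_cancel_left]
  obtain ⟨i, hi, rfl⟩ := mem_image.1 ha
  exact hp.nU i (mem_Ico.1 hi).1 (mem_Ico.1 hi).2

theorem tc2_ins {d : α} (hd : d ∉ U) (G : Sym2 α → ℕ) :
    ∑ e ∈ pairs (insert d U), G e = ∑ u ∈ U, G s(d, u) + ∑ e ∈ pairs U, G e := by
  have h1 : pairs (insert d U) = U.image (fun z => s(d, z)) ∪ pairs U := by
    ext e
    induction e using Sym2.ind with
    | h a b =>
      simp only [mk_mem_pairs, mem_insert, mem_union, mem_image, Sym2.eq_iff]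
      grind
  rw [h1, sum_union (disjoint_left.2 fun e he he' => ?_),
    sum_image fun z _ w _ h => Sym2.congr_right.1 h]
  obtain ⟨z, _, rfl⟩ := mem_image.1 he
  exact hd (mk_mem_pairs.1 he').1

theorem tc2_sum (hp : Pl U w n) (g : CG md U w τ n ct σ) {G : ℕ → ℕ} (G0 : G 0 = 0) :
    ∀ k ≤ n, ∑ e ∈ pairs (cU U w k), G (σ e) + (G (ty ct 1 0) + G (ty ct 2 0) + G (ty ct 2 1)) =
      ∑ e ∈ pairs U, G (σ e) + ∑ i ∈ range (3 + k), ∑ j ∈ range i, G (ty ct i j) := by
  intro k hk
  induction k with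
  | zero => simp [cU, sum_range_succ, add_assoc]
  | succ k ih =>
    have h1 : cU U w (k + 1) = insert (w (3 + k)) (cU U w k) := by
      rw [cU, cU, ← add_assoc, Nat.Ico_succ_right_eq_insert_Ico (by omega), image_insert,
        union_insert]
    have h2 : w (3 + k) ∉ cU U w k := fun h => by
      rcases mem_union.1 h with h | h
      · exact hp.nU _ (by omega) (by omega) h
      · obtain ⟨i, hi, e⟩ := mem_image.1 h
        have := mem_Ico.1 hi
        have := hp.inj i (by omega) _ (by omega) e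
        omega
    have h3 : ∑ u ∈ cU U w k, G (σ s(w (3 + k), u)) = ∑ j ∈ range (3 + k), G (ty ct (3 + k) j) := by
      rw [← sum_subset (s₁ := (range (3 + k)).image w) (fun a ha => ?_) fun a ha na => ?_,
        sum_image fun i hi j hj => hp.inj i (by have := mem_range.1 (mem_coe.1 hi); omega) j
          (by have := mem_range.1 (mem_coe.1 hj); omega)]
      · exact sum_congr rfl fun j hj => by
          have := mem_range.1 hj
          rw [g.inn _ (by omega) (by omega) j (by omega) (by omega)]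
      · obtain ⟨i, hi, rfl⟩ := mem_image.1 ha
        by_cases c : i < 3
        · exact mem_union_left _ (hp.tU i c)
        · exact mem_union_right _ (mem_image_of_mem _ (mem_Ico.2 ⟨not_lt.1 c, mem_range.1 hi⟩))
      · rcases mem_union.1 ha with h | h
        · rw [g.far _ (by omega) (by omega) a h fun j hj e =>
            na (mem_image.2 ⟨j, mem_range.2 (by omega), e⟩)]
          exact G0
        · obtain ⟨i, hi, rfl⟩ := mem_image.1 h
          exact absurd (mem_image_of_mem _ (mem_range.2 (mem_Ico.1 hi).2)) na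
    have h4 := ih (by omega)
    rw [h1, tc2_ins h2, h3, ← add_assoc 3, sum_range_succ]
    omega

theorem tc2_three (hp : Pl U w n) (A : Sym2 α → ℕ) : ∑ e ∈ pairs U, A e =
    ∑ e ∈ pairs U \ {s(w 1, w 0), s(w 2, w 0), s(w 2, w 1)}, A e +
      (A s(w 1, w 0) + A s(w 2, w 0) + A s(w 2, w 1)) := by
  have d : ∀ i < 3, ∀ j < 3, i ≠ j → w i ≠ w j := fun i hi j hj c e =>
    c (hp.inj i (by omega) j (by omega) e)
  have n1 := d 1 (by omega) 0 (by omega) (by omega)
  have n2 := d 2 (by omega) 0 (by omega) (by omega)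
  have n3 := d 2 (by omega) 1 (by omega) (by omega)
  rw [← sum_sdiff (s₁ := {s(w 1, w 0), s(w 2, w 0), s(w 2, w 1)}) (by
      simp [insert_subset_iff, mk_mem_pairs, hp.tU, n1, n2, n3]),
    sum_insert (by simp [n2.symm, n3.symm]), sum_pair (by simp [n1.symm, n3]), add_assoc (A _)]

theorem tc2_out (g : CG md U w τ n ct σ) {e : Sym2 α}
    (he : e ∈ pairs U \ {s(w 1, w 0), s(w 2, w 0), s(w 2, w 1)}) :
    σ e = τ e ∧ ∀ i < 3, ∀ j < 3, e ≠ s(w i, w j) := by
  obtain ⟨h1, h2⟩ := mem_sdiff.1 he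
  have h3 : ∀ i < 3, ∀ j < 3, e ≠ s(w i, w j) := fun i hi j hj c => by
    subst c
    have := (mk_mem_pairs.1 h1).2.2
    interval_cases i <;> interval_cases j <;> simp_all
  refine ⟨?_, h3⟩
  induction e using Sym2.ind with
  | h a b =>
    obtain ⟨ha, hb, -⟩ := mk_mem_pairs.1 h1
    by_cases c : ∀ j < 3, w j ≠ a
    · exact g.out a ha b hb c
    · rw [Sym2.eq_swap]
      exact g.out b hb a ha fun j hj c' => c fun i hi c'' => h3 i hi j hj (by rw [c', c''])

omit [DecidableEq α] in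
theorem tc2_pm (hp : Pl U w n) {i j : ℕ} (hi : i < 3) (hj : j < 3) :
    (∀ a < 3, ∀ b < 3, s(w i, w j) = s(w a, w b) → md.pm a b = 0) ↔ md.pm i j = 0 := by
  refine ⟨fun h => h i hi j hj rfl, fun h a ha b hb e => ?_⟩
  rcases Sym2.eq_iff.1 e with ⟨e1, e2⟩ | ⟨e1, e2⟩
  all_goals
    rw [← hp.inj i (by omega) _ (by omega) e1, ← hp.inj j (by omega) _ (by omega) e2, ← h]
  simp only [Mo.pm, Nat.add_eq, Nat.add_comm]

theorem tc2_main (hp : Pl U w n) (g : CG md U w τ n ct σ) {f : ℕ → Bool} (f0 : f 0 = false)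
    {p : Fin 3 → Prop} [DecidablePred p] (hf : ∀ t, p t ↔ f t.val = true) :
    ((pairs (cU U w n)).filter fun e => p (σ e)).card ≤
      n0 p md U w τ + cp (3 + n) (fun i j => f (ty ct i j)) ∧
    ((∀ i < 3, ∀ j < 3, i ≠ j → md.pm i j = 0 → ty ct i j = 0) →
      ((pairs (cU U w n)).filter fun e => p (σ e)).card =
        n0 p md U w τ + cp (3 + n) fun i j => f (ty ct i j)) := by
  classical
  have h1 := tc2_sum hp g (G := fun t => if f t = true then 1 else 0) (by simp [f0]) n le_rfl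
  have k : ∀ i < 3, ∀ j < 3, i ≠ j → ∀ a b c : ℕ, a = (if f (σ s(w i, w j)) = true then 1 else 0) →
      b = (if f (τ s(w i, w j)) = true ∧ md.pm i j = 0 then 1 else 0) →
      c = (if f (ty ct i j) = true then 1 else 0) →
      a ≤ b + c ∧ ((md.pm i j = 0 → ty ct i j = 0) → a = b + c) := by
    rintro i hi j hj c _ _ _ rfl rfl rfl
    rw [g.tt i hi j hj c]
    by_cases q : md.pm i j = 0 <;> by_cases r : ty ct i j = 1 <;> simp +contextual [q, r, f0]
  have k1 := k 1 (by omega) 0 (by omega) (by omega) _ _ _ rfl rfl rfl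
  have k2 := k 2 (by omega) 0 (by omega) (by omega) _ _ _ rfl rfl rfl
  have k3 := k 2 (by omega) 1 (by omega) (by omega) _ _ _ rfl rfl rfl
  have h2 : n0 p md U w τ = ∑ e ∈ pairs U \ {s(w 1, w 0), s(w 2, w 0), s(w 2, w 1)},
      (if f (σ e) = true then 1 else 0) +
      ((if f (τ s(w 1, w 0)) = true ∧ md.pm 1 0 = 0 then 1 else 0) +
        (if f (τ s(w 2, w 0)) = true ∧ md.pm 2 0 = 0 then 1 else 0) +
        if f (τ s(w 2, w 1)) = true ∧ md.pm 2 1 = 0 then 1 else 0) := by
    rw [n0, card_filter, tc2_three hp]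
    simp only [hf, tc2_pm hp (by omega : 1 < 3) (by omega : 0 < 3), tc2_pm hp (by omega : 2 < 3)
      (by omega : 0 < 3), tc2_pm hp (by omega : 2 < 3) (by omega : 1 < 3)]
    refine congrArg (· + _) (sum_congr rfl fun e he => ?_)
    simp +contextual [(tc2_out g he).1, (tc2_out g he).2]
  rw [tc2_three hp] at h1
  simp only [h2, cp_eq, hf, card_filter]
  refine ⟨by omega, fun hu => ?_⟩
  have := k1.2 (hu 1 (by omega) 0 (by omega) (by omega))
  have := k2.2 (hu 2 (by omega) 0 (by omega) (by omega))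
  have := k3.2 (hu 2 (by omega) 1 (by omega) (by omega))
  omega

theorem cg_ne_le (hp : Pl U w n) (g : CG md U w τ n ct σ) :
    ne (cU U w n) σ ≤ n0 (· ≠ 0) md U w τ + ce n ct := by
  exact (tc2_main hp g (f := nz) rfl (p := (· ≠ 0)) (by decide)).1

theorem cg_ne_eq (hp : Pl U w n) (g : CG md U w τ n ct σ)
    (hu : ∀ i < 3, ∀ j < 3, i ≠ j → md.pm i j = 0 → ty ct i j = 0) :
    ne (cU U w n) σ = n0 (· ≠ 0) md U w τ + ce n ct ∧
      nh (cU U w n) σ = n0 (· = 1) md U w τ + ch n ct := by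
  exact ⟨(tc2_main hp g (f := nz) rfl (p := (· ≠ 0)) (by decide)).2 hu,
    (tc2_main hp g (f := fun t => Nat.beq t 1) rfl (p := (· = 1)) (by decide)).2 hu⟩

theorem wgt_eq (h : n ≤ 4) (ct : ℕ) :
    (wgt n ct : ℝ) = 6 ^ 21 * 5 ^ 4 * ((6 / 5) ^ n / (6 / 5) ^ ch n ct) := by
  have h1 : ch n ct ≤ 21 := by
    rw [ch, cp_eq]
    refine (sum_le_sum (g := fun i => i) fun i _ => (card_filter_le _ _).trans (card_range i).le).trans
      ((sum_le_sum_of_subset (range_subset_range.2 (by change 3 + n ≤ 7; omega))).trans (by decide))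
  obtain ⟨a, ha⟩ := Nat.exists_eq_add_of_le h1
  obtain ⟨b, hb⟩ := Nat.exists_eq_add_of_le h
  simp only [wgt, Nat.add_eq, Nat.sub_eq, Nat.mul_eq, Nat.pow_eq]
  rw [show n + 21 - ch n ct = n + a by omega, show 4 + ch n ct - n = b + ch n ct by omega,
    show (6 : ℝ) ^ 21 = 6 ^ (ch n ct + a) by rw [← ha], show (5 : ℝ) ^ 4 = 5 ^ (n + b) by rw [← hb]]
  push_cast
  simp only [pow_add, div_pow]
  field_simp

end Pool.Agent.Lib.MP_efe3d7_co.J.Tw
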