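import Pool.Agent.Lib.MP_efe3d7_co.J.TS
import Pool.Agent.Lib.MP_efe3d7_co.H.Fr2

/-! Admissible columns give three-connected graphs. -/

set_option autoImplicit false

open Finset

namespace Pool.Agent.Lib.MP_efe3d7_co.J.Tw

open H
open H.Fn (T5 pr pev)

variable {α : Type} [DecidableEq α] {V U : Finset α} {τ σ : Sym2 α → Fin 3} {w : ℕ → α} {md : Mo}
  {n ct : ℕ}

theorem tc3_mem {z : α} : z ∈ cU U w n ↔ z ∈ U ∨ ∃ i, 3 ≤ i ∧ i < 3 + n ∧ w i = z := by
  simp only [cU, mem_union, mem_image, mem_Ico, and_assoc]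

theorem tc3_w (hp : Pl U w n) {i : ℕ} (hi : i < 3 + n) : w i ∈ cU U w n := by
  by_cases k : i < 3
  · exact tc3_mem.2 (Or.inl (hp.tU i k))
  · exact tc3_mem.2 (Or.inr ⟨i, by omega, hi, rfl⟩)

theorem tc3_nb (g : CG md U w τ n ct σ) {a z : α} (h1 : a ∈ cU U w n) (h2 : a ∉ U)
    (hz : z ∈ nb (cU U w n) σ a) : ∃ j < 3 + n, w j = z := by
  obtain ⟨i, i1, i2, rfl⟩ := (tc3_mem.1 h1).resolve_left h2
  obtain ⟨k1, -, k3⟩ := mem_nb.1 hz
  by_contra k
  rcases tc3_mem.1 k1 with u | ⟨j, -, j2, e⟩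
  · exact k3 (g.far i i1 i2 z u fun j hj e => k ⟨j, by omega, e⟩)
  · exact k ⟨j, j2, e⟩

theorem tc3_val {t : Fin 3} {k : ℕ} (e : t.val = k) (h : k ≠ 0) : t ≠ 0 := fun u => h (by
  rw [← e, u]; rfl)

theorem tc3_edge (hp : Pl U w n) (g : CG md U w τ n ct σ)
    (hu : ∀ i < 3, ∀ j < 3, i ≠ j → md.pm i j = 0 → ty ct i j ≤ 1) {i j : ℕ} (hi : i < 3 + n)
    (hj : j < 3 + n) (ij : j ≠ i) (h : ty ct i j ≠ 0) : w j ∈ nb (cU U w n) σ (w i) := by
  refine mem_nb.2 ⟨tc3_w hp hj, fun e => ij (hp.inj j hj i hi e), ?_⟩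
  by_cases a : 3 ≤ i
  · exact tc3_val (g.inn i a hi j hj ij) h
  by_cases b : 3 ≤ j
  · rw [Sym2.eq_swap]
    exact tc3_val (g.inn j b hj i hi ij.symm) (by rwa [ty_comm])
  have e := g.tt i (by omega) j (by omega) ij.symm
  have := hu i (by omega) j (by omega) ij.symm
  rw [if_neg fun k => by have := this k.1; have := k.2; omega] at e
  exact tc3_val e h

theorem cg_l1 (hp : Pl U w n) (g : CG md U w τ n ct σ) (h : l1 n ct = true) (B : Finset α)
    (h1 : B ⊆ cU U w n) (h2 : ∀ z ∈ B, z ∉ U) (h3 : B.Nonempty) :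
    3 ≤ (bd (cU U w n) σ B).card ∧ ∀ z ∈ bd (cU U w n) σ B, ∃ i < 3 + n, w i = z := by
  refine ⟨?_, fun z hz => ?_⟩
  swap
  · obtain ⟨⟨a, ha, hb⟩, -⟩ := mem_bd.1 hz
    exact tc3_nb g (h1 ha) (h2 a ha) hb
  have e : ∀ u, tb (msk n fun u => decide (w (3 + u) ∈ B)) u = true ↔ u < n ∧ w (3 + u) ∈ B :=
    fun u => by simp [tb_msk]
  have k := (allB_iff _ _).1 h _ (msk_lt n fun u => decide (w (3 + u) ∈ B))
  generalize msk n (fun u => decide (w (3 + u) ∈ B)) = m at e k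
  have k0 : nz m = true := by
    obtain ⟨a, ha⟩ := h3
    obtain ⟨i, i1, i2, rfl⟩ := (tc3_mem.1 (h1 ha)).resolve_left (h2 a ha)
    exact (nz_bit m).2 ⟨i - 3, (e _).2 ⟨by omega, by rwa [Nat.add_sub_cancel' i1]⟩⟩
  rw [k0, Bool.not_true, Bool.false_or, Nat.ble_eq, cnt_eq] at k
  refine k.trans (card_le_card_of_injOn w (fun z hz => ?_) fun i hi j hj =>
    hp.inj i (mem_range.1 (mem_filter.1 hi).1) j (mem_range.1 (mem_filter.1 hj).1))
  obtain ⟨z1, z2⟩ := mem_filter.1 (mem_coe.1 hz)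
  have z3 : z < 3 + n := mem_range.1 z1
  rw [Bool.and_eq_true, anyB_iff] at z2
  obtain ⟨z4, u, -, z5⟩ := z2
  rw [Bool.and_eq_true, e, nz_iff] at z5
  have z6 : w z ∉ B := fun b => by
    have c : 3 ≤ z := not_lt.1 fun c => h2 _ b (hp.tU z c)
    have d := (e (z - 3)).2 ⟨by omega, by rwa [Nat.add_sub_cancel' c]⟩
    rw [show Nat.sub z 3 = z - 3 from rfl, d, Nat.ble_eq_true_of_le c] at z4
    exact absurd z4 (by decide)
  have z7 : z ≠ 3 + u := fun c => z6 (c ▸ z5.1.2)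
  have z8 : 3 + u < 3 + n := by have := z5.1.1; omega
  exact mem_coe.2 (mem_bd.2 ⟨⟨_, z5.1.2, mem_nb.2 ⟨tc3_w hp z3, fun c => z7 (hp.inj _ z3 _ z8 c),
    tc3_val (g.inn _ (by omega) z8 z z3 z7) z5.2⟩⟩, z6⟩)

theorem tc3_ok {q t : ℕ} (h : pOk q t = true) : (q = 0 → t ≤ 1) ∧ (q = 2 → t ≠ 0) := by
  refine ⟨fun e => ?_, fun e => ?_⟩ <;> subst e
  · exact Nat.ble_eq.mp h
  · exact (nz_iff t).1 h

theorem cg_safe (h : Win md V τ U w) (hs : safe md n ct = true) (g : CG md U w τ n ct σ) :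
    Con3 (cU U w n) σ := by
  simp only [safe, Bool.and_eq_true, Nat.ble_eq] at hs
  obtain ⟨⟨⟨⟨⟨hn, -⟩, o1⟩, o2⟩, o3⟩, hb⟩ := hs
  have hp : Pl U w n := ⟨fun i hi j hj => h.pl.inj i (by omega) j (by omega), h.pl.tU,
    fun i a b => h.pl.nU i a (by omega)⟩
  have ok : ∀ i < 3, ∀ j < 3, i ≠ j → pOk (md.pm i j) (ty ct i j) = true ∧ md.pm i j ≤ 2 := by
    intro i hi j hj ij
    obtain ⟨q1, q2, q3⟩ := h.q2
    interval_cases i <;> interval_cases j <;> first
      | exact absurd rfl ij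
      | exact ⟨by assumption, by assumption⟩
  have hu := fun i hi j hj ij => (tc3_ok (ok i hi j hj ij).1).1
  have kept : ∀ i < 3, ∀ j < 3, i ≠ j → md.pm i j ≠ 1 → τ s(w i, w j) ≠ 0 → σ s(w i, w j) ≠ 0 := by
    intro i hi j hj ij a b
    have e := g.tt i hi j hj ij
    split_ifs at e with c
    · rwa [Fin.ext e]
    · obtain ⟨d1, d2⟩ := ok i hi j hj ij
      refine tc3_val e fun d => ?_
      have := (tc3_ok d1).2
      rw [d] at c this
      omega
  have ed := fun i j (hi : i < 3) (hj : j < 3) ij =>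
    tc3_edge hp g hu (i := i) (j := j) (by omega) (by omega) ij
  by_cases hA : n = 0 ∧ md.pa = true
  · obtain ⟨rfl, hA⟩ := hA
    have hb' : ty ct 0 1 ≠ 0 ∧ ty ct 1 2 ≠ 0 := by
      simp only [Nat.beq_refl, cond_true, Bool.and_eq_true, nz_iff] at hb
      exact hb.1
    have key : ∀ a b, w 1 ≠ a → w 1 ≠ b ∨ (w 0 ≠ a ∧ w 2 ≠ a) →
        pth τ (w 1) (w 2) (w 0) s(a, b) = τ s(a, b) := by
      intro a b c d
      rw [pth, Function.update_of_ne, Function.update_of_ne] <;> rw [Ne, Sym2.eq_iff] <;>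
        rintro (⟨rfl, -⟩ | ⟨rfl, rfl⟩) <;> simp at c d
    have far : ∀ a ∈ U, ∀ b ∈ U, (∀ j < 3, w j ≠ a) → pth τ (w 1) (w 2) (w 0) s(a, b) ≠ 0 →
        σ s(a, b) ≠ 0 := fun a ha b hb c e => by
      rwa [key a b (c 1 (by omega)) (Or.inr ⟨c 0 (by omega), c 2 (by omega)⟩),
        ← g.out a ha b hb c] at e
    have e0 : cU U w 0 = U := by simp [cU]
    rw [e0]
    refine (h.pa hA).1.mono fun a ha b hb ab e => ?_
    by_cases c : ∀ j < 3, w j ≠ a
    · exact far a ha b hb c e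
    by_cases d : ∀ j < 3, w j ≠ b
    · rw [Sym2.eq_swap] at e ⊢
      exact far b hb a ha d e
    push Not at c d
    obtain ⟨i, hi, rfl⟩ := c
    obtain ⟨j, hj, rfl⟩ := d
    have k : pth τ (w 1) (w 2) (w 0) s(w 0, w 2) ≠ 0 → σ s(w 0, w 2) ≠ 0 := fun e => by
      rw [key _ _ (fun c => absurd (hp.inj 1 (by omega) 0 (by omega) c) (by omega))
        (Or.inl fun c => absurd (hp.inj 1 (by omega) 2 (by omega) c) (by omega))] at e
      exact kept 0 (by omega) 2 (by omega) (by omega) (fun c => e ((h.pa hA).2 c)) e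
    have k' := fun u => (mem_nb.1 (ed i j hi hj (fun c => ab (c ▸ rfl)) u)).2.2
    obtain ⟨b1, b2⟩ := hb'
    interval_cases i <;> interval_cases j <;> first
      | exact absurd rfl ab
      | exact k' (by with_reducible assumption)
      | exact k' (by rw [ty_comm]; with_reducible assumption)
      | exact k e
      | (rw [Sym2.eq_swap] at e ⊢; exact k e)
  have mT : ∀ t, t ∈ (range 3).image w ↔ ∃ i < 3, w i = t := fun t => by simp
  have hd : Disjoint (V \ U) ((range 3).image w) := disjoint_left.2 fun v a b => by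
    obtain ⟨i, hi, rfl⟩ := (mT v).1 b
    exact (mem_sdiff.1 a).2 (hp.tU i hi)
  have h3 : ((range 3).image w).card = 3 := by
    rw [card_image_of_injOn fun i hi j hj => hp.inj i (by have := mem_range.1 hi; omega) j
      (by have := mem_range.1 hj; omega), card_range]
  have hT : (range 3).image w ⊆ cU U w n := fun t ht => by
    obtain ⟨i, hi, rfl⟩ := (mT t).1 ht
    exact tc3_w hp (by omega)
  have sub : cU U w n ⊆ V := fun a ha => by
    rcases tc3_mem.1 ha with u | ⟨i, -, hi, rfl⟩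
    exacts [h.sub u, h.mem i (by omega)]
  have nq : ∀ a ∈ cU U w n, a ∈ V \ U → ∀ b ∈ nb (cU U w n) σ a,
      b ∈ V \ U ∨ b ∈ (range 3).image w := fun a a1 a2 b hb => by
    obtain ⟨j, hj, rfl⟩ := tc3_nb g a1 (mem_sdiff.1 a2).2 hb
    by_cases k : j < 3
    · exact Or.inr ((mT _).2 ⟨j, k, rfl⟩)
    · exact Or.inl (mem_sdiff.2 ⟨h.mem j (by omega), hp.nU j (by omega) hj⟩)
  have tri : n = 0 → ∀ a ∈ (range 3).image w, ∀ b ∈ (range 3).image w, a ≠ b → σ s(a, b) ≠ 0 := by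
    rintro rfl a ha b hb' ab
    obtain ⟨i, hi, rfl⟩ := (mT a).1 ha
    obtain ⟨j, hj, rfl⟩ := (mT b).1 hb'
    simp only [Nat.beq_refl, cond_true, Bool.and_eq_true, Bool.or_eq_true, nz_iff] at hb
    obtain ⟨⟨b1, b2⟩, b3⟩ := hb
    have b4 := b3.resolve_left fun c => hA ⟨rfl, c⟩
    refine (mem_nb.1 (ed i j hi hj (fun c => ab (c ▸ rfl)) ?_)).2.2
    interval_cases i <;> interval_cases j <;> first
      | exact absurd rfl ab
      | with_reducible assumption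
      | (rw [ty_comm]; with_reducible assumption)
  have big : n ≠ 0 → l1 n ct = true ∧ ∀ t < 3, md.tf t = true → dg2 n ct t = true := fun c => by
    rw [show Nat.beq n 0 = false from by
      rw [← Bool.not_eq_true, Nat.beq_eq]; exact c, cond_false, Bool.and_eq_true,
      allB_iff] at hb
    exact ⟨hb.1, fun t ht e => by simpa [e] using hb.2 t ht⟩
  have nem : (∃ a ∈ cU U w n, a ∈ V \ U) ∨
      ∀ a ∈ (range 3).image w, ∀ b ∈ (range 3).image w, a ≠ b → σ s(a, b) ≠ 0 := by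
    by_cases c : n = 0
    · exact Or.inr (tri c)
    · exact Or.inl ⟨w 3, tc3_w hp (by omega),
        mem_sdiff.2 ⟨h.mem 3 (by omega), hp.nU 3 le_rfl (by omega)⟩⟩
  have cl : ∀ B : Finset α, B ⊆ cU U w n → B ⊆ V \ U → B.Nonempty →
      3 ≤ (bd (cU U w n) σ B).card ∧ ∀ z ∈ bd (cU U w n) σ B, ∃ i < 3 + n, w i = z :=
    fun B b1 b2 b3 => cg_l1 hp g (big fun c => by
      obtain ⟨a, ha⟩ := b3
      obtain ⟨i, i1, i2, -⟩ := (tc3_mem.1 (b1 ha)).resolve_left (mem_sdiff.1 (b2 ha)).2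
      omega).1 B b1 (fun z hz => (mem_sdiff.1 (b2 hz)).2) b3
  have hl : ∀ B S : Finset α, B ⊆ cU U w n → B ⊆ V \ U → B.Nonempty → Cov (cU U w n) σ B S →
      3 ≤ S.card := fun B S b1 b2 b3 b4 => (cl B b1 b2 b3).1.trans (card_le_card b4.bd_sub)
  have out : ∀ i < 3, ∀ z ∈ nb V τ (w i), z ∈ U → (∀ j < 3, w j ≠ z) →
      z ∈ nb (cU U w n) σ (w i) := fun i hi z z1 z2 z3 => by
    obtain ⟨-, k2, k3⟩ := mem_nb.1 z1
    refine mem_nb.2 ⟨tc3_mem.2 (Or.inl z2), k2, ?_⟩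
    rwa [Sym2.eq_swap, g.out z z2 _ (hp.tU i hi) z3, Sym2.eq_swap]
  have inU : ∀ a ∈ V, a ∉ V \ U → a ∈ U := fun a a1 a2 => by
    by_contra k
    exact a2 (mem_sdiff.2 ⟨a1, k⟩)
  refine safe_gen h.con (hT.trans sub) hd h3 (fun a ha b hb' => ?_) sub
    (fun a a1 a2 => mem_sdiff.2 ⟨a1, fun k => a2 (tc3_mem.2 (Or.inl k))⟩)
    (fun a a1 b b1 _ a2 a3 b2 e => by
      rwa [g.out a (inU a a1 a2) b (inU b b1 b2) fun j hj c => a3 ((mT a).2 ⟨j, hj, c⟩)])
    nq nem hl fun t ht B S b1 b2 hS hc => ?_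
  · by_cases k : b ∈ V \ U
    · exact Or.inl k
    · exact Or.inr ((mT b).2 (h.cov a (mem_sdiff.1 ha).1 (mem_sdiff.1 ha).2 b hb'
        (inU b (nb_sub _ hb') k)))
  by_cases c : n = 0
  · intro t' ht'
    obtain ⟨n1, n2⟩ := mem_erase.1 ht'
    refine (hc t (mem_insert_self _ _) t'
      (mem_nb.2 ⟨hT n2, n1, tri c t ht t' n2 n1.symm⟩)).resolve_left fun k => ?_
    rcases mem_insert.1 k with k | k
    exacts [n1 k, disjoint_left.1 hd (b2 k) n2]
  obtain ⟨i, hi, rfl⟩ := (mT t).1 ht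
  rcases h.th i hi with k | ⟨k, z, z1, z2, z3⟩
  · refine l2_of_two hd h3 hT nq nem hl ht (k.trans (card_le_card fun z hz => ?_)) b1 b2 hS hc
    simp only [kp, mem_filter] at hz
    obtain ⟨z1, z2, z3⟩ := hz
    refine mem_sdiff.2 ⟨?_, fun u => (mem_sdiff.1 u).2 z2⟩
    by_cases u : ∃ j < 3, w j = z
    · obtain ⟨j, hj, rfl⟩ := u
      obtain ⟨-, k2, k3⟩ := mem_nb.1 z1
      exact mem_nb.2 ⟨tc3_w hp (by omega), k2,
        kept i hi j hj (fun e => k2 (e ▸ rfl)) (z3 j hj rfl) k3⟩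
    · exact out i hi z z1 z2 fun j hj e => u ⟨j, hj, e⟩
  · exfalso
    have zS : z ∈ S := (hc _ (mem_insert_self _ _) z (out i hi z z1 z2 z3)).resolve_left fun u => by
      rcases mem_insert.1 u with u | u
      exacts [z3 i hi u.symm, (mem_sdiff.1 (b2 u)).2 z2]
    obtain ⟨W, w1, w2, w3⟩ : ∃ W : Finset α, W ⊆ S ∧ 2 ≤ W.card ∧ ∀ y ∈ W, ∃ j < 3 + n, w j = y := by
      rcases B.eq_empty_or_nonempty with rfl | b3
      · have d := (big c).2 i hi k
        rw [dg2, Nat.ble_eq, cnt_eq] at d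
        refine ⟨image w (filter _ (range (3 + n))), fun y hy => ?_, d.trans (card_image_of_injOn
          fun a ha b hb => hp.inj a (mem_range.1 (mem_filter.1 ha).1) b
            (mem_range.1 (mem_filter.1 hb).1)).ge, fun y hy => ?_⟩
        · obtain ⟨j, hj, rfl⟩ := mem_image.1 hy
          obtain ⟨j1, j2⟩ := mem_filter.1 hj
          simp only [Bool.and_eq_true, Bool.not_eq_true', nz_iff] at j2
          have j3 := tc3_edge hp g hu (i := i) (by omega) (mem_range.1 j1)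
            (Nat.ne_of_beq_eq_false j2.1) j2.2
          exact (hc _ (mem_insert_self _ _) _ j3).resolve_left fun u =>
            (mem_nb.1 j3).2.1 (by simpa using u)
        · obtain ⟨j, hj, rfl⟩ := mem_image.1 hy
          exact ⟨j, mem_range.1 (mem_filter.1 hj).1, rfl⟩
      · obtain ⟨d1, d2⟩ := cl B b1 b2 b3
        refine ⟨(bd (cU U w n) σ B).erase (w i), fun y hy => ?_, ?_,
          fun y hy => d2 y (mem_of_mem_erase hy)⟩
        · obtain ⟨y1, y2⟩ := mem_erase.1 hy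
          obtain ⟨⟨a, ha, y3⟩, y4⟩ := mem_bd.1 y2
          exact (hc a (mem_insert_of_mem ha) y y3).resolve_left fun u =>
            (mem_insert.1 u).elim y1 y4
        · have := pred_card_le_card_erase (s := bd (cU U w n) σ B) (a := w i)
          omega
    have zW : z ∉ W := fun u => by
      obtain ⟨j, hj, rfl⟩ := w3 z u
      exact hp.nU j (not_lt.1 fun e => z3 j e rfl) hj z2
    have := card_le_card (insert_subset zS w1)
    rw [card_insert_of_notMem zW] at this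
    omega

end Pool.Agent.Lib.MP_efe3d7_co.J.Tw
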