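import Pool.Agent.Lib.MP_efe3d7_co.J.TX1
import Pool.Agent.Lib.MP_efe3d7_co.J.TC2

/-! An exceptional column determines the rest of the graph. -/

set_option autoImplicit false

open Finset

namespace Pool.Agent.Lib.MP_efe3d7_co.J.Tw

open H
open H.Fn (T5 pr pev)

variable {α : Type} [DecidableEq α] {V U : Finset α} {τ σ : Sym2 α → Fin 3} {w : ℕ → α} {md : Mo}
  {n ct : ℕ}

theorem tx2_pm (md : Mo) (i j : ℕ) : md.pm i j = md.pm j i := by
  rw [Mo.pm, Mo.pm, show Nat.add i j = Nat.add j i from Nat.add_comm i j]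

theorem tx2_set (T : ℕ) {k : ℕ → ℕ → ℕ} (hk : ∀ i j, k i j < 3) (hs : ∀ i j, k i j = k j i)
    {i j : ℕ} (hi : i < 16) (hj : j < 16) (hij : i ≠ j) :
    ty (setT T (k 0 1) (k 0 2) (k 1 2)) i j = if i < 3 ∧ j < 3 then k i j else ty T i j := by
  have h8 : ∀ i j, k i j < 8 := fun i j => (hk i j).trans (by norm_num)
  rw [setT, ty_sdg _ hi hj (by norm_num) (by norm_num) (h8 _ _),
    ty_sdg _ hi hj (by norm_num) (by norm_num) (h8 _ _),
    ty_sdg _ hi hj (by norm_num) (by norm_num) (h8 _ _)]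
  by_cases h : i < 3 ∧ j < 3
  · obtain ⟨h1, h2⟩ := h
    interval_cases i <;> interval_cases j <;> simp [hs 1 0, hs 2 0, hs 2 1] at hij ⊢
  · rw [if_neg h, if_neg (by omega), if_neg (by omega), if_neg (by omega)]

theorem tx2_th (h : Win md V τ U w) {r t : ℕ} (ho : Out md U w τ r t) {i : ℕ} (hi : i < 3) :
    thOk md r t i = true := by
  obtain ⟨u, -, u2, u3, u4, u5⟩ := ho
  have e : ∀ l, 3 ≤ l → l < 3 + r → τ s(w i, u l) ≠ 0 → ty t i l ≠ 0 := fun l h1 h2 h3 h4 =>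
    h3 (Fin.ext (by
      rw [← u2 i hi, Sym2.eq_swap, u4 l h1 h2 i (by omega) (by omega), ty_comm, h4]; rfl))
  simp only [thOk, Bool.or_eq_true, Bool.and_eq_true, Nat.ble_eq, cnt_eq, anyB_iff, nz_iff,
    Nat.add_eq, Bool.not_eq_true', ← Bool.not_eq_true, Nat.beq_eq, Nat.blt_eq]
  rcases h.th i hi with a | ⟨a, z, z1, z2, z3⟩
  · refine Or.inl (a.trans ((card_le_card fun z hz => ?_).trans (card_image_le (f := u))))
    simp only [kp, mem_filter] at hz
    obtain ⟨z1, z2, z3⟩ := hz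
    obtain ⟨-, z4, z5⟩ := mem_nb.1 z1
    obtain ⟨l, hl, rfl⟩ := mem_image.1 (u3 ▸ z2)
    have li : l ≠ i := fun c => z4 (c ▸ u2 l (c ▸ hi))
    refine mem_image_of_mem u (mem_filter.2 ⟨hl, li, ?_⟩)
    rcases le_or_gt 3 l with b | b
    · exact Or.inl (e l b (mem_range.1 hl) z5)
    have c1 := z3 l b (u2 l b).symm
    have c2 : md.pm i l ≤ 2 := by
      obtain ⟨q1, q2, q3⟩ := h.q2
      simp only [Mo.pm, Bool.cond_eq_ite]
      split_ifs <;> assumption
    by_cases c : md.pm i l = 0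
    · refine Or.inl fun d => z5 (Fin.ext ?_)
      rw [u5 i hi l b li.symm, if_pos c] at d
      rw [u2 l b, d]; rfl
    · exact Or.inr ⟨b, by omega⟩
  · obtain ⟨l, hl, rfl⟩ := mem_image.1 (u3 ▸ z2)
    have b : 3 ≤ l := not_lt.1 fun b => z3 l b (u2 l b).symm
    obtain ⟨l, rfl⟩ := Nat.exists_eq_add_of_le b
    exact Or.inr ⟨a, l, by simpa using hl, e _ b (mem_range.1 hl) (mem_nb.1 z1).2.2⟩

theorem tx2_ok {q c s k : ℕ} (h : pOk q c = true) (e : s = if q = 0 ∧ c ≠ 1 then k else c) :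
    kOk q s (if q = 0 then k else 0) = true ∧ (c ≠ 0 → s ≠ 0) := by
  simp only [pOk, kOk, Bool.cond_eq_ite, Nat.beq_eq] at h ⊢
  by_cases a : q = 0
  · simp only [a, if_true, Nat.ble_eq, true_and, Bool.or_eq_true, Nat.beq_eq] at h e ⊢
    split_ifs at e <;> omega
  · simp only [a, if_false, false_and] at h e ⊢
    subst e
    exact ⟨by rw [h]; rfl, id⟩

theorem cg_exc {G : List (ℕ × ℕ × ℕ)} (hG : XE G) (h : Win md V τ U w) (m3 : md.m ≤ 3)
    (hs : safe md n ct = true) (g : CG md U w τ n ct σ) (he : Exc (cU U w n) σ) :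
    ∃ r t, XIn G md r t ∧ Out md U w τ r t := by
  simp only [safe, Bool.and_eq_true, Nat.ble_eq] at hs
  obtain ⟨⟨⟨⟨⟨s1, -⟩, s2⟩, s3⟩, s4⟩, s5⟩ := hs
  have k1 := tx2_ok (q := md.pm 0 1) s2 (g.tt 0 (by omega) 1 (by omega) (by omega))
  have k2 := tx2_ok (q := md.pm 0 2) s3 (g.tt 0 (by omega) 2 (by omega) (by omega))
  have k3 := tx2_ok (q := md.pm 1 2) s4 (g.tt 1 (by omega) 2 (by omega) (by omega))
  have s6 : n = 0 → (ty ct 0 1 ≠ 0 ∧ ty ct 1 2 ≠ 0) ∧ (md.pa = true ∨ ty ct 0 2 ≠ 0) := by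
    rintro rfl
    simpa only [Nat.beq, cond_true, Bool.and_eq_true, Bool.or_eq_true, nz_iff] using s5
  have hc : (cU U w n \ U).card = n := by
    rw [card_sdiff_of_subset (t := cU U w n) subset_union_left, cu_card ⟨fun i hi j hj =>
      h.pl.inj i (by omega) j (by omega), h.pl.tU, fun i h1 h2 => h.pl.nU i h1 (by omega)⟩,
      Nat.add_sub_cancel_left]
  obtain ⟨g0, g1, g2, u, u1, u2, u3, u4, u5⟩ := xen_sound hG he subset_union_left h.pl.tU
    (fun i hi j hj => h.pl.inj i (by omega) j (by omega)) (by omega)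
    (fun q hq hU z hz hw => by
      obtain ⟨i, hi, rfl⟩ := mem_image.1 ((mem_union.1 hq).resolve_left hU)
      exact g.far i (mem_Ico.1 hi).1 (mem_Ico.1 hi).2 z hz hw)
    (fun e => by
      obtain ⟨a, b⟩ := (s6 (by rw [← hc, e, card_empty])).1
      exact ⟨fun c => k1.2 a (by rw [c]; rfl), fun c => k3.2 b (by rw [c]; rfl)⟩)
  obtain ⟨k, hk⟩ : ∃ k : ℕ → ℕ → ℕ,
      k = fun i j => if md.pm i j = 0 then (τ s(w i, w j)).val else 0 := ⟨_, rfl⟩
  have k4 : ∀ i j, k i j < 3 := fun i j => by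
    simp only [hk]
    split_ifs
    exacts [Fin.is_lt _, by omega]
  have k5 := fun i j => tx2_set g0.2.2 k4 (fun i j => by
    simp only [hk]; rw [tx2_pm, Sym2.eq_swap]) (i := i) (j := j)
  have hU : ∀ i < 3 + g0.2.1, u i ∈ U := fun i hi => u3 ▸ mem_image_of_mem u (mem_range.2 hi)
  have ho : Out md U w τ g0.2.1 (setT g0.2.2 (k 0 1) (k 0 2) (k 1 2)) := by
    refine ⟨u, u1, u2, u3, fun i h1 h2 j h3 h4 => ?_, fun i h1 j h2 h3 => ?_⟩
    · rw [k5 i j (by omega) (by omega) h4.symm, if_neg (by omega), ← u5 i h2 j h3 h4.symm,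
        g.out _ (hU i h2) _ (hU j h3) fun l hl c => by
          have := u1 l (by omega) i h2 ((u2 l hl).trans c)
          omega]
    · rw [k5 i j (by omega) (by omega) h3, if_pos ⟨h1, h2⟩, hk]
  refine ⟨_, _, fun p hp => ?_, ho⟩
  have e : ∀ i < 3, ∀ j < 3, i ≠ j → (σ s(w i, w j)).val = ty g0.2.2 i j := fun i hi j hj c => by
    rw [← u2 i hi, ← u2 j hj, u5 i (by omega) j (by omega) c]
  rw [e _ (by omega) _ (by omega) (by omega)] at k1 k2 k3
  have x := (allL_iff _ _).1 hp g0 g1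
  simp only [xone, frc_eq, Bool.or_eq_true, allB_iff, Bool.not_eq_true', ← Bool.not_eq_true,
    Bool.and_eq_true, Nat.ble_eq, nz_iff] at x
  refine (((((((x.resolve_left fun c => c ⟨by omega, ?_⟩) _ (k4 0 1)).resolve_left
    fun c => c (hk ▸ k1.1)) _ (k4 0 2)).resolve_left fun c => c (hk ▸ k2.1)) _
      (k4 1 2)).resolve_left fun c => c (hk ▸ k3.1)).resolve_left
        fun c => c fun i hi => tx2_th h ho hi
  by_cases c : n = 0
  · exact (s6 c).2.elim (fun a => Or.inl (Or.inr a)) fun a => Or.inr (k2.2 a)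
  · exact Or.inl (Or.inl (by omega))

end Pool.Agent.Lib.MP_efe3d7_co.J.Tw
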