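import Pool.Agent.Lib.MP_efe3d7_co.J.TS

/-! Gluing a window to a known rest. -/

set_option autoImplicit false

open Finset

namespace Pool.Agent.Lib.MP_efe3d7_co.J.Tw

open H
open H.Fn (T5 pr pev)

variable {α : Type} [DecidableEq α] {V U : Finset α} {τ σ : Sym2 α → Fin 3} {w : ℕ → α} {md : Mo}
  {n ct : ℕ}

theorem tx3_glT (md : Mo) (ct r t i j : ℕ) : glT md ct r t i j =
    if i < 3 ∧ j < 3 then (if md.pm i j = 0 then ty t i j else ty ct i j)
    else if i < 3 + r ∧ j < 3 + r then ty t i j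
    else if (i < 3 ∨ 3 + r ≤ i) ∧ (j < 3 ∨ 3 + r ≤ j) then
      ty ct (if i < 3 then i else i - r) (if j < 3 then j else j - r)
    else 0 := by
  simp only [glT, Bool.cond_eq_ite, Bool.and_eq_true, Bool.or_eq_true, Nat.blt_eq, Nat.ble_eq,
    Nat.beq_eq, Nat.add_eq, Nat.sub_eq]

theorem tx3_bij {N : ℕ} {d : ℕ → ℕ} (h1 : ∀ a < N, d a < N)
    (h2 : ∀ a < N, ∀ b < N, d a = d b → a = b) : (range N).image d = range N := by
  refine eq_of_subset_of_card_le (fun k hk => ?_) ?_
  · obtain ⟨a, ha, rfl⟩ := mem_image.1 hk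
    exact mem_range.2 (h1 a (mem_range.1 ha))
  · rw [card_image_of_injOn fun a ha b hb e =>
      h2 a (mem_range.1 (mem_coe.1 ha)) b (mem_range.1 (mem_coe.1 hb)) e]

theorem tx3_glue (hp : Pl U w n) (g : CG md U w τ n ct τ) {r t : ℕ} (ho : Out md U w τ r t) :
    ∃ v : ℕ → α, (∀ i < 3 + r + n, ∀ j < 3 + r + n, v i = v j → i = j) ∧
      cU U w n = (range (3 + r + n)).image v ∧
      ∀ i < 3 + r + n, ∀ j < 3 + r + n, i ≠ j → (τ s(v i, v j)).val = glT md ct r t i j := by
  obtain ⟨u, ui, uw, hU, h4, h5⟩ := ho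
  have uU : ∀ i < 3 + r, u i ∈ U := fun i hi => by
    rw [hU]; exact mem_image.2 ⟨i, mem_range.2 hi, rfl⟩
  have far : ∀ i, 3 + r ≤ i → i < 3 + r + n → ∀ j, 3 ≤ j → j < 3 + r →
      τ s(w (i - r), u j) = 0 := fun i h1 h2 j h3 h4 => by
    refine g.far (i - r) (by omega) (by omega) (u j) (uU j h4) fun l hl e => ?_
    have := ui l (by omega) j h4 ((uw l hl).trans e)
    omega
  refine ⟨fun k => if k < 3 + r then u k else w (k - r), fun i hi j hj e => ?_, ?_,
    fun i hi j hj hij => ?_⟩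
  · by_cases a : i < 3 + r <;> by_cases b : j < 3 + r
    · simp only [if_pos a, if_pos b] at e
      exact ui i a j b e
    · simp only [if_pos a, if_neg b] at e
      exact absurd (e ▸ uU i a) (hp.nU (j - r) (by omega) (by omega))
    · simp only [if_neg a, if_pos b] at e
      exact absurd (e ▸ uU j b) (hp.nU (i - r) (by omega) (by omega))
    · simp only [if_neg a, if_neg b] at e
      have := hp.inj (i - r) (by omega) (j - r) (by omega) e
      omega
  · ext z
    rw [cU, mem_union, mem_image, mem_image]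
    constructor
    · rintro (hz | ⟨k, hk, rfl⟩)
      · rw [hU] at hz
        obtain ⟨k, hk, rfl⟩ := mem_image.1 hz
        have hk := mem_range.1 hk
        exact ⟨k, mem_range.2 (by omega), by simp only [if_pos hk]⟩
      · have hk := mem_Ico.1 hk
        refine ⟨k + r, mem_range.2 (by omega), ?_⟩
        have a : ¬ k + r < 3 + r := by omega
        simp only [if_neg a, Nat.add_sub_cancel]
    · rintro ⟨k, hk, rfl⟩
      have hk := mem_range.1 hk
      by_cases a : k < 3 + r
      · simp only [if_pos a]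
        exact Or.inl (uU k a)
      · simp only [if_neg a]
        exact Or.inr ⟨k - r, mem_Ico.2 (by omega), rfl⟩
  · rw [tx3_glT]
    by_cases c1 : i < 3 ∧ j < 3
    · have a : i < 3 + r := by omega
      have b : j < 3 + r := by omega
      simp only [if_pos c1, if_pos a, if_pos b, uw i c1.1, uw j c1.2]
      by_cases q : md.pm i j = 0
      · rw [if_pos q, h5 i c1.1 j c1.2 hij, if_pos q]
      · rw [if_neg q, g.tt i c1.1 j c1.2 hij, if_neg fun e => q e.1]
    rw [if_neg c1]
    by_cases c2 : i < 3 + r ∧ j < 3 + r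
    · simp only [if_pos c2, if_pos c2.1, if_pos c2.2]
      by_cases a : 3 ≤ i
      · exact h4 i a c2.1 j c2.2 hij.symm
      · rw [Sym2.eq_swap, ty_comm]
        exact h4 j (by omega) c2.2 i c2.1 hij
    rw [if_neg c2]
    have ev : ∀ k, k < 3 ∨ 3 + r ≤ k →
        (if k < 3 + r then u k else w (k - r)) = w (if k < 3 then k else k - r) := fun k hk => by
      by_cases a : k < 3
      · rw [if_pos a, if_pos (by omega), uw k a]
      · rw [if_neg a, if_neg (by omega)]
    by_cases c3 : (i < 3 ∨ 3 + r ≤ i) ∧ (j < 3 ∨ 3 + r ≤ j)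
    · simp only [if_pos c3, ev i c3.1, ev j c3.2]
      by_cases a : i < 3
      · have b : ¬ j < 3 := fun b => c1 ⟨a, b⟩
        rw [if_pos a, if_neg b, Sym2.eq_swap, ty_comm]
        exact g.inn (j - r) (by omega) (by omega) i (by omega) (by omega)
      · rw [if_neg a]
        refine g.inn (i - r) (by omega) (by omega) _ ?_ ?_ <;> split_ifs <;> omega
    rw [if_neg c3]
    by_cases a : i < 3 + r
    · have b : ¬ j < 3 + r := fun b => c2 ⟨a, b⟩
      simp only [if_pos a, if_neg b]
      rw [Sym2.eq_swap, far j (by omega) hj i (by omega) a]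
      rfl
    · have b : j < 3 + r := by omega
      simp only [if_neg a, if_pos b]
      rw [far i (by omega) hi j (by omega) b]
      rfl

theorem isx_sound (hp : Pl U w n) (g : CG md U w τ n ct τ) {r t : ℕ} (ho : Out md U w τ r t)
    {u : ℕ × ℕ} (h : isx md n ct r t u = true) : Exc (cU U w n) τ := by
  obtain ⟨v, vi, hv, vt⟩ := tx3_glue hp g ho
  simp only [isx, frc_eq, Bool.and_eq_true, Nat.blt_eq, Nat.beq_eq, Nat.add_eq, allB_iff,
    Bool.not_eq_true', ← Bool.not_eq_true] at h
  obtain ⟨⟨h1, h2⟩, h3⟩ := h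
  refine ⟨u.1, h1, ?_⟩
  rw [h2] at h3 ⊢
  have d1 : ∀ a < 3 + r + n, dig u.2 a < 3 + r + n := fun a ha => (h3 a ha).1
  have d2 : ∀ a < 3 + r + n, ∀ b < 3 + r + n, dig u.2 a = dig u.2 b → a = b := by
    intro a ha b hb e
    rcases lt_trichotomy a b with c | c | c
    · exact absurd e.symm ((h3 b hb).2 a c).1
    · exact c
    · exact absurd e ((h3 a ha).2 b c).1
  refine ⟨fun a => v (dig u.2 a), fun a ha b hb e => d2 a ha b hb (vi _ (d1 a ha) _ (d1 b hb) e),
    ?_, fun a ha b hb hab => ?_⟩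
  · rw [hv]
    conv_lhs => rw [← tx3_bij d1 d2]
    rw [image_image]
    rfl
  · rcases lt_or_gt_of_ne hab with c | c
    · rw [Sym2.eq_swap, ty_comm, ((h3 b hb).2 a c).2]
      exact vt _ (d1 b hb) _ (d1 a ha) ((h3 b hb).2 a c).1
    · rw [((h3 a ha).2 b c).2]
      exact vt _ (d1 a ha) _ (d1 b hb) ((h3 a ha).2 b c).1

end Pool.Agent.Lib.MP_efe3d7_co.J.Tw
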