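import Pool.Agent.Lib.MP_efe3d7_co.J.TC1
import Pool.Agent.Lib.MP_efe3d7_co.J.TC2
import Pool.Agent.Lib.MP_efe3d7_co.J.TC3
import Pool.Agent.Lib.MP_efe3d7_co.J.TX2
import Pool.Agent.Lib.MP_efe3d7_co.J.TX3

/-! Reducible windows. -/

set_option autoImplicit false

open Finset

namespace Pool.Agent.Lib.MP_efe3d7_co.J.Tw

open H
open H.Fn (T5 pr pev)

variable {α : Type} [DecidableEq α] [Fintype α] {V U : Finset α} {τ σ : Sym2 α → Fin 3}
  {w : ℕ → α} {md : Mo} {n ct : ℕ} {x : ℝ}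

omit [Fintype α] in
theorem te_ww (V : Finset α) (τ : Sym2 α → Fin 3) : 0 ≤ ww V τ := by
  unfold ww
  positivity

theorem te_sc (a : ℝ) (f g : T5 ℝ) : pr f (sc a g) = a * pr f g := by
  simp only [pr, sc]
  ring

theorem te_fm (hx : 0 < x) (hp : Pl U w n) (y : Sym2 α → ℝ) : ∃ β, Fm x U y w β := by
  obtain ⟨a, b, c, d, e, h⟩ := exists_form hx y (hp.tU 0 (by omega)) (hp.tU 1 (by omega))
    (hp.tU 2 (by omega)) (fun h => by have := hp.inj 0 (by omega) 1 (by omega) h; omega)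
    (fun h => by have := hp.inj 0 (by omega) 2 (by omega) h; omega)
    (fun h => by have := hp.inj 1 (by omega) 2 (by omega) h; omega)
  exact ⟨⟨a, b, c, d, e⟩, h⟩

omit [Fintype α] in
theorem te_wgt (n4 : n ≤ 4) (hp : Pl U w n) (g : CG md U w τ n ct σ) (hu : pur md ct = true)
    (μ : ℝ) :
    μ * ((6 / 5) ^ U.card / (6 / 5) ^ n0 (· = 1) md U w τ / (6 ^ 21 * 5 ^ 4)) * wgt n ct =
      μ * ww (cU U w n) σ := by
  unfold ww
  rw [wgt_eq n4, cu_card hp, (cg_ne_eq hp g (pur_un hu)).2, pow_add, pow_add]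
  field_simp

theorem red_pos (h : 0 < FF x V τ ∨ Exc V τ) : Red x V τ := by
  intro he _ μ hμ _
  rcases h with h | h
  · exact lt_of_le_of_lt (mul_nonpos_of_nonpos_of_nonneg hμ (te_ww V τ)) h
  · exact absurd h he

/-- Either the rest is one of the listed ones or all columns are controlled. -/
theorem dich {G : List (ℕ × ℕ × ℕ)} (hG : XE G) (hx : 0 < x) (h : Win md V τ U w) (m3 : md.m ≤ 3)
    {β : T5 ℝ} (hf : Fm x U (fun e => wt (ee x) (τ e)) w β) (sm : Sm x V τ) {μ : ℝ}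
    (eq : Eqs x μ V τ) : (∃ r t, XIn G md r t ∧ Out md U w τ r t) ∨
      ((∀ n ct, safe md n ct = true → n0 (· ≠ 0) md U w τ + ce n ct < ne V τ →
        0 < pr (cv (rOps x) n ct) (gm x md w τ β)) ∧
      ∀ n ct, safe md n ct = true → n0 (· ≠ 0) md U w τ + ce n ct = ne V τ → pur md ct = true →
        μ * ((6 / 5) ^ U.card / (6 / 5) ^ n0 (· = 1) md U w τ / (6 ^ 21 * 5 ^ 4)) * wgt n ct ≤
          pr (cv (rOps x) n ct) (gm x md w τ β)) := by
  by_cases hE : ∃ n ct σ, safe md n ct = true ∧ CG md U w τ n ct σ ∧ Exc (cU U w n) σ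
  · obtain ⟨n, ct, σ, hs, g, he⟩ := hE
    exact Or.inl (cg_exc hG h m3 hs g he)
  · refine Or.inr ⟨fun n ct hs hl => ?_, fun n ct hs hl hu => ?_⟩
    · obtain ⟨h1, h2, h3⟩ := safe_un hs
      have hp := h.pl.mono h1
      obtain ⟨σ, g⟩ := cg_ex md hp τ h2
      rw [← cg_val hx hp g h3 hf]
      exact sm _ _ (cg_safe h hs g) (fun he => hE ⟨n, ct, σ, hs, g, he⟩)
        (lt_of_le_of_lt (cg_ne_le hp g) hl)
    · obtain ⟨h1, h2, h3⟩ := safe_un hs
      have hp := h.pl.mono h1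
      obtain ⟨σ, g⟩ := cg_ex md hp τ h2
      rw [← cg_val hx hp g h3 hf, te_wgt (by omega) hp g hu]
      exact eq _ _ (cg_safe h hs g) (fun he => hE ⟨n, ct, σ, hs, g, he⟩)
        ((cg_ne_eq hp g (pur_un hu)).1.trans hl)

/-- A window whose rest is known. -/
theorem out_red (hx : 0 < x) (hp : Pl U w n) (hV : V = cU U w n) (g : CG md U w τ n ct τ)
    (hu : pur md ct = true) {r t : ℕ} (ho : Out md U w τ r t)
    (h : 0 < pr (cv (rOps x) n ct) (gam (rOps x) r t) ∨ ∃ u, isx md n ct r t u = true) :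
    Red x V τ := by
  subst hV
  refine red_pos ?_
  rcases h with h | ⟨u, h⟩
  · obtain ⟨β, hf⟩ := te_fm hx hp fun e => wt (ee x) (τ e)
    left
    rw [cg_val hx hp g (fun i hi j hj hij hm => by rw [pur_un hu i hi j hj hij hm]; omega) hf,
      out_val hx ho hf, te_sc]
    exact mul_pos (by linarith) h
  · exact Or.inr (isx_sound hp g ho h)

/-- A window given by a table. -/
theorem win_red {G : List (ℕ × ℕ × ℕ)} (hG : XE G) (hx : 0 < x) (h : Win md V τ U w)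
    (m3 : md.m ≤ 3) (n4 : n ≤ 4) (hp : Pl U w n) (hV : V = cU U w n) (g : CG md U w τ n ct τ)
    (hu : pur md ct = true) (hc : Cone x md (ce n ct) true (wgt n ct) (cv (rOps x) n ct))
    (hX : XP G x md n ct) : Red x V τ := by
  intro he sm μ hμ eq
  obtain ⟨β, hf⟩ := te_fm hx hp fun e => wt (ee x) (τ e)
  rcases dich hG hx h m3 hf sm eq with ⟨r, t, hi, ho⟩ | ⟨h1, h2⟩
  · exact out_red hx hp hV g hu ho (hX r t hi) he sm μ hμ eq
  · have hn : ne V τ = n0 (· ≠ 0) md U w τ + ce n ct := by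
      rw [hV]
      exact (cg_ne_eq hp g (pur_un hu)).1
    have := hc (gm x md w τ β)
      (μ * ((6 / 5) ^ U.card / (6 / 5) ^ n0 (· = 1) md U w τ / (6 ^ 21 * 5 ^ 4)))
      (mul_nonpos_of_nonpos_of_nonneg hμ (by positivity))
      (fun n' ct' hs hl => h1 n' ct' hs (by omega))
      (fun _ n' ct' hs hl hu' => h2 n' ct' hs (by omega) hu')
    rw [te_wgt n4 hp g hu, ← cg_val hx hp g
      (fun i hi j hj hij hm => by rw [pur_un hu i hi j hj hij hm]; omega) hf, ← hV] at this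
    exact this

/-- A window given by its vector. -/
theorem vec_red {G : List (ℕ × ℕ × ℕ)} (hG : XE G) (hx : 0 < x) (h : Win md V τ U w)
    (m3 : md.m ≤ 3) {N : ℕ} (hN : n0 (· ≠ 0) md U w τ + N ≤ ne V τ)
    (hf : ∀ β, Fm x U (fun e => wt (ee x) (τ e)) w β →
      ((∀ n ct, safe md n ct = true → ce n ct < N → 0 < pr (cv (rOps x) n ct) (gm x md w τ β)) ∨
        ∃ r t, XIn G md r t ∧ gm x md w τ β = sc (1 + x) (gam (rOps x) r t)) → 0 < FF x V τ) :
    Red x V τ := by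
  intro _ sm μ hμ eq
  obtain ⟨β, hb⟩ := te_fm hx h.pl fun e => wt (ee x) (τ e)
  refine lt_of_le_of_lt (mul_nonpos_of_nonpos_of_nonneg hμ (te_ww V τ)) (hf β hb ?_)
  rcases dich hG hx h m3 hb sm eq with ⟨r, t, hi, ho⟩ | ⟨h1, _⟩
  · exact Or.inr ⟨r, t, hi, out_val hx ho hb⟩
  · exact Or.inl fun n ct hs hl => h1 n ct hs (by omega)

end Pool.Agent.Lib.MP_efe3d7_co.J.Tw
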