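import Pool.Agent.Lib.MP_efe3d7_co.J.All
import Pool.Agent.Lib.MP_efe3d7_co.J.TE
import Pool.Agent.Lib.MP_efe3d7_co.J.CV3
import Pool.Agent.Lib.MP_efe3d7_co.J.CS
import Pool.Agent.Lib.MP_efe3d7_co.J.CK

/-! The clusters are reducible. -/

set_option autoImplicit false

open Finset

namespace Pool.Agent.Lib.MP_efe3d7_co.J

open H Tw Cl
open H.Fn (T5 pr)

variable {α : Type} [DecidableEq α] {x : ℝ} {V Q T C U : Finset α} {τ : Sym2 α → Fin 3}

theorem clu_ne {v : α} (hv : v ∈ V) : ne (V.erase v) τ + dg V τ v ≤ ne V τ := by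
  unfold ne dg
  rw [← card_image_of_injOn (s := nb V τ v) (f := fun z => s(v, z)) fun a _ b _ e =>
    Sym2.congr_right.1 e, ← card_union_of_disjoint (disjoint_left.2 fun e h1 h2 => ?_)]
  · refine card_le_card (union_subset (fun e he => ?_) fun e he => ?_)
    · induction e using Sym2.ind with
      | _ a b =>
        simp only [mem_filter, mk_mem_pairs, mem_erase] at he ⊢
        tauto
    · obtain ⟨z, hz, rfl⟩ := mem_image.1 he
      obtain ⟨a, b, c⟩ := mem_nb.1 hz
      exact mem_filter.2 ⟨mk_mem_pairs.2 ⟨hv, a, b.symm⟩, c⟩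
  · obtain ⟨z, -, rfl⟩ := mem_image.1 h2
    exact notMem_erase v V (mk_mem_pairs.1 (mem_filter.1 h1).1).1

theorem clu_mem (n : ℕ) (hn : n < 11) (d k : ℕ) (h : 4 ≤ n ∧ 2 ≤ d ∧ d ≤ n ∧
    (d = n ∨ 5 ≤ n ∧ n ≤ 7) ∧ k ≤ d ∧ (d = 2 ∨ k = d)) : (n, n - d, k) ∈ pA := by
  obtain ⟨h1, h2, h3, h4, h5, rfl | rfl⟩ := h
  · interval_cases n <;> interval_cases k <;> first | decide | omega
  · interval_cases n <;> interval_cases k <;> first | decide | omega

variable [Fintype α]

theorem clu_red (h : Iv x) (hb : Big V τ Q T) (hQ : C ⊆ Q) (cr : Cr V τ C U)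
    (hs : ∀ s ∈ U, s ∈ T ∨ (s ∈ Q ∧ ∃ t ∈ T, nb V τ t ∩ Q = {s})) {p a b : α} (pa : p ≠ a)
    (pb : p ≠ b) (ab : a ≠ b) (hU : U = {p, a, b})
    (ya : ∀ u ∈ C, wt (ee x) (τ s(a, u)) = -ee x) (yb : ∀ u ∈ C, wt (ee x) (τ s(b, u)) = -ee x)
    {val : ℝ → List ℝ → ℝ}
    (hv : ∀ (L : List α) (c : α → ℝ) (e : ℝ) (y' : Sym2 α → ℝ), (p :: L).Nodup → L.length ≤ 2 →
      (∀ g ∈ p :: L, g ∉ C) → (∀ g ∈ p :: L, ∀ g' ∈ p :: L, g ≠ g' → y' s(g, g') = 0) →
      (∀ u ∈ C, ∀ v ∈ C, y' s(u, v) = wt (ee x) (τ s(u, v))) →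
      (∀ u ∈ C, y' s(p, u) = e * wt (ee x) (τ s(p, u))) → (∀ g ∈ L, ∀ u ∈ C, y' s(g, u) = c g) →
      ff x ((p :: L).toFinset ∪ C) y' = cl x (L.length + 1) * val e (L.map c))
    (hf : Vec x ⟨val 1 [-ee x, -ee x], val (-ee x) [-ee x], val (-ee x) [-ee x],
      val 1 [-ee x * -ee x], val (-ee x * -ee x) []⟩) : Red x V τ := by
  obtain ⟨c, hc, d, hd, cd⟩ := one_lt_card.1 (lt_of_lt_of_le (by omega) cr.c3)
  have sl : ∀ s ∈ U, s ∈ V \ C := fun s k => mem_sdiff.2 ⟨cr.subU k, cr.dis s k⟩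
  have hp : p ∈ U := by simp [hU]
  have ha : a ∈ U := by simp [hU]
  have hb' : b ∈ U := by simp [hU]
  have n : ∀ s ∈ U, ∀ u ∈ C, s ≠ u := fun s k u hu e => cr.dis s k (e ▸ hu)
  have wU : ∀ i < 3, [p, a, b, c, d].getD i p ∈ U := fun i hi => by
    interval_cases i <;> assumption
  have pm : ∀ i j, mK.pm i j = 0 := fun i j => by simp [mK, Mo.pm]
  have hx : Inn 1997 312 1560 x := by
    constructor <;> push_cast <;> linarith [h.1, h.2]
  refine vec_red xeG h.pos (md := mK) (U := V \ C) (w := fun i => [p, a, b, c, d].getD i p) (N := 8)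
    ⟨hb.con, sdiff_subset, ⟨fun i hi j hj e => ?_, fun i hi => sl _ (wU i hi), fun i h1 h2 => ?_⟩,
      fun i hi => ?_, by decide, fun q hq k z hz hz' => ?_, fun i hi => ?_, fun k => by cases k⟩
    (by decide) ?_ fun β hβ k => ?_
  · have nd : [p, a, b, c, d].Nodup := by
      simp [pa, pb, ab, cd, n p hp c hc, n p hp d hd, n a ha c hc, n a ha d hd, n b hb' c hc,
        n b hb' d hd]
    simp only [List.getD_eq_getElem [p, a, b, c, d] p hi, List.getD_eq_getElem [p, a, b, c, d] p hj]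
      at e
    exact nd.getElem_inj_iff.1 e
  · change i < 5 at h2
    interval_cases i <;> simp [hc, hd]
  · change i < 5 at hi
    interval_cases i
    exacts [cr.subU hp, cr.subU ha, cr.subU hb', cr.sub hc, cr.sub hd]
  · have := (cr.cov q (by simpa [hq] using k) z hz).resolve_left (mem_sdiff.1 hz').2
    simp only [hU, mem_insert, mem_singleton] at this
    rcases this with rfl | rfl | rfl
    exacts [⟨0, by omega, rfl⟩, ⟨1, by omega, rfl⟩, ⟨2, by omega, rfl⟩]
  · rcases hs _ (wU i hi) with k | ⟨k, t, ht, e⟩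
    · refine Or.inl ((hb.min.1.out _ k).trans (card_le_card fun z hz => ?_))
      obtain ⟨z1, z2⟩ := mem_sdiff.1 hz
      simp only [kp, mem_filter, pm]
      exact ⟨z1, mem_sdiff.2 ⟨nb_sub _ z1, fun k => z2 (hQ k)⟩, fun _ _ _ => zero_ne_one⟩
    · have tV := hb.min.1.subT ht
      refine Or.inr ⟨by simp [mK, Mo.tf], t,
        nb_symm tV (mem_inter.1 (e ▸ mem_singleton_self _ : _ ∈ nb V τ t ∩ Q)).1,
        mem_sdiff.2 ⟨tV, fun k => disjoint_left.1 hb.min.1.dis (hQ k) ht⟩, fun j hj k => ?_⟩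
      have := (cr.two t (k ▸ wU j hj)).trans (card_le_card (inter_subset_inter_left hQ))
      rw [e, card_singleton] at this
      omega
  · have e1 := clu_ne (τ := τ) (cr.sub hc)
    have e2 := clu_ne (τ := τ) (mem_erase.2 ⟨cd.symm, cr.sub hd⟩)
    have e3 : n0 (· ≠ 0) mK (V \ C) (fun i => [p, a, b, c, d].getD i p) τ ≤
        ne ((V.erase c).erase d) τ := by
      refine card_le_card fun e he => ?_
      induction e using Sym2.ind with
      | _ u v =>
        simp only [mem_filter, mk_mem_pairs, mem_erase, mem_sdiff] at he ⊢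
        obtain ⟨⟨⟨u1, u2⟩, ⟨v1, v2⟩, k⟩, k', -⟩ := he
        exact ⟨⟨⟨fun e => u2 (e ▸ hd), fun e => u2 (e ▸ hc), u1⟩,
          ⟨fun e => v2 (e ▸ hd), fun e => v2 (e ▸ hc), v1⟩, k⟩, k'⟩
    have e4 : dg V τ d - 1 ≤ dg (V.erase c) τ d :=
      pred_card_le_card_erase.trans (card_le_card (t := nb (V.erase c) τ d) fun z hz => by
        simp only [mem_nb, mem_erase] at hz ⊢
        exact ⟨⟨hz.1, hz.2.1⟩, hz.2.2⟩)
    have := cr.deg c hc
    have := cr.deg d hd
    omega
  · have e := glue5 h.pos (by linarith [h.2]) pa pb ab (sl p hp) (sl a ha) (sl b hb') (K := C)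
      (fun u hu k => (mem_sdiff.1 k).2 hu) (y := fun e => wt (ee x) (τ e))
      (fun u hu v k k1 k2 k3 => by
        obtain ⟨v1, v2⟩ := mem_sdiff.1 k
        by_contra z
        have := (cr.cov u hu v (mem_nb.2 ⟨v1, fun e => v2 (e ▸ hu), fun e => z (by
          simp only [e, wt0])⟩)).resolve_left v2
        simp [hU, k1, k2, k3] at this) ya yb hv hβ
    rw [union_sdiff_of_subset cr.sub] at e
    have e' : FF x V τ = pr ⟨val 1 [-ee x, -ee x], val (-ee x) [-ee x], val (-ee x) [-ee x],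
        val 1 [-ee x * -ee x], val (-ee x * -ee x) []⟩
        (Tw.gm x mK (fun i => [p, a, b, c, d].getD i p) τ β) := by
      rw [FF, e]
      simp only [pr, Tw.gm, kap, pm, if_true, List.getD_cons_zero, List.getD_cons_succ]
      ring
    rw [e']
    rcases k with k | ⟨r, t, k, k'⟩
    · obtain ⟨c, s, o, g, z⟩ := onN_sound hx ck1
      simpa using chk1_sound g z hf _ 0 le_rfl k fun k => by cases k
    · obtain ⟨c, s, o, g, z⟩ := onN_sound hx ck2
      have := mul_pos (by linarith [h.1] : 0 < 1 + x) (chk2_sound g z hf k)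
      rw [k']
      simp only [pr, sc] at this ⊢
      linarith

/-- The closed values of a clique without an edge. -/
noncomputable def vB (x r : ℝ) (n : ℕ) (e : ℝ) : List ℝ → ℝ
  | [] => (0 - x) * wB x r n 2 1 [e * r] - e * r * wB x r n 1 (e * r) []
  | [u] => (1 - x) * wB x r n 3 1 [e * r, u] -
      (e * r * wB x r n 2 (e * r) [u] + u * wB x r n 2 u [e * r])
  | u :: v :: _ => (2 - x) * wB x r n 4 1 [e * r, u, v] - (e * r * wB x r n 3 (e * r) [u, v] +
      (u * wB x r n 3 u [e * r, v] + v * wB x r n 3 v [e * r, u]))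

theorem clu (h : Iv x) (_hK : HK α x) : Clus α x := by
  intro V τ Q T hb hv U cr hs k
  have hQ : core V τ Q T ⊆ Q := fun a ha => (mem_core.1 ha).1
  generalize core V τ Q T = C at *
  have w2 : ∀ u ∈ C, ∀ v ∈ nb V τ u, 4 ≤ dg V τ v → wt (ee x) (τ s(u, v)) = -ee x :=
    fun u hu v k k' => by rw [hv u hu v k fun _ => by omega, wt2]
  have w3 : ∀ s, 4 ≤ C.card → (∀ u ∈ C, s ∈ nb V τ u) → ∀ u ∈ C, wt (ee x) (τ s(s, u)) = -ee x :=
    fun s k k' u hu => by
      rw [Sym2.eq_swap]
      exact w2 u hu s (k' u hu) (k.trans (card_le_card fun z hz => nb_symm (cr.sub hz) (k' z hz)))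
  have w0 : ∀ u ∈ C, ∀ v ∈ V, v ≠ u → v ∉ nb V τ u → τ s(u, v) = 0 := fun u _ v h1 h2 h3 => by
    by_contra e
    exact h3 (mem_nb.2 ⟨h1, h2, e⟩)
  rcases k with ⟨p, hp, D, hD, d2, c4, c10, hne, n1, n2⟩ | ⟨z, hz, q, hq, zq, c5, c7, n1, n2, n3⟩
  · obtain ⟨a, b, ab, e⟩ := card_eq_two.1 (by rw [card_erase_of_mem hp, cr.u3] :
      (U.erase p).card = 2)
    have ha : a ∈ U.erase p := by simp [e]
    have hb' : b ∈ U.erase p := by simp [e]
    have s1 : ∀ u ∈ C, C.erase u ∪ U.erase p ⊆ nb V τ u := fun u hu => by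
      by_cases k : u ∈ D
      · rw [n1 u k]; exact union_subset_union_right (erase_subset _ _)
      · rw [n2 u hu k]
    have pD : ∀ u ∈ D, p ∈ nb V τ u := fun u k => by rw [n1 u k]; exact mem_union_right _ hp
    have dn := card_le_card hD
    refine clu_red h hb hQ cr hs (mem_erase.1 ha).1.symm (mem_erase.1 hb').1.symm ab
      (by rw [← e, insert_erase hp])
      (w3 a c4 fun u hu => s1 u hu (mem_union_right _ ha))
      (w3 b c4 fun u hu => s1 u hu (mem_union_right _ hb'))
      (val := vA x (-ee x) C.card (C \ D).card (D.filter fun u => τ s(p, u) = 2).card)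
      (fun L c e y' nd l2 k1 k2 k3 k4 k5 => ?_) (Or.inl ⟨(C.card, (C \ D).card,
        (D.filter fun u => τ s(p, u) = 2).card), ?_, rfl⟩)
    · have c0 := List.toFinset_card_of_nodup nd
      rw [List.length_cons] at c0
      rw [valA h.pos (ps_tb x (-ee x)) (Or.inl (by omega)) c10 (c := c) nd.of_cons
        (fun g hg => by simp [hg]) (h := p) (by simp) (List.nodup_cons.1 nd).1
        (fun g hg k => by simpa [k] using hg)
        ⟨fun g hg => k1 g (List.mem_toFinset.1 hg),
          fun g hg g' hg' => k2 g (List.mem_toFinset.1 hg) g' (List.mem_toFinset.1 hg'),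
          fun u hu v hv' k => by
            rw [k3 u hu v hv', w2 u hu v (s1 u hu (mem_union_left _ (mem_erase.2 ⟨k.symm, hv'⟩)))
              (by have := cr.deg v hv'; omega)]⟩ k5 (A := C \ D) sdiff_subset
        ((filter_subset (fun u => τ s(p, u) = 2) D).trans hD)
        (fun u hu k => (mem_sdiff.1 hu).2 (mem_filter.1 k).1) (a := e) (b := e * -ee x)
        fun u hu => ?_, c0, vA, List.length_map]
      rw [k4 u hu]
      by_cases k : u ∈ D
      · have := (mem_nb.1 (pD u k)).2.2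
        rw [Sym2.eq_swap] at this
        simp only [mem_sdiff, mem_filter, k, not_true, and_false, if_false, true_and]
        revert this
        generalize τ s(p, u) = t
        intro k
        fin_cases t
        exacts [(k rfl).elim, by simp [wt], by simp [wt]]
      · rw [Sym2.eq_swap, w0 u hu p (cr.subU hp) (fun e => cr.dis p hp (e ▸ hu))
          (by simp [n2 u hu k, cr.dis p hp]), wt0, if_pos (mem_sdiff.2 ⟨hu, k⟩), mul_one]
    · rw [card_sdiff_of_subset hD]
      have f := card_filter_le D fun u => τ s(p, u) = 2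
      refine clu_mem _ (by omega) _ _ ⟨c4, d2, dn,
        or_iff_not_imp_left.2 fun k => hne fun e => k (by rw [e]), f,
        or_iff_not_imp_left.2 fun k => congrArg card (filter_true_of_mem fun u hu => ?_)⟩
      rw [Sym2.eq_swap]
      refine hv u (hD hu) p (pD u hu) fun pQ => ?_
      obtain ⟨t, ht, e'⟩ := ((hs p hp).resolve_left (disjoint_left.1 hb.min.1.dis pQ)).2
      have := card_le_card (insert_subset (nb_symm (hb.min.1.subT ht)
        (mem_inter.1 (e' ▸ mem_singleton_self _ : p ∈ nb V τ t ∩ Q)).1)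
        fun z hz => nb_symm (cr.sub (hD hz)) (pD z hz))
      rw [card_insert_of_notMem fun k => disjoint_left.1 hb.min.1.dis (hQ (hD k)) ht] at this
      unfold dg
      omega
  · obtain ⟨p, a, b, pa, pb, ab, e⟩ := card_eq_three.1 cr.u3
    have s1 : ∀ s ∈ U, ∀ u ∈ C, wt (ee x) (τ s(s, u)) = -ee x := fun s hs' =>
      w3 s (by omega) fun u hu => by
        by_cases k : u = z
        · rw [k, n1]; exact mem_union_right _ hs'
        by_cases k' : u = q
        · rw [k', n2]; exact mem_union_right _ hs'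
        · rw [n3 u hu k k']; exact mem_union_right _ hs'
    have w4 : ∀ u ∈ C, ∀ v ∈ C, v ∈ nb V τ u → wt (ee x) (τ s(u, v)) = -ee x :=
      fun u hu v hv' k => w2 u hu v k (by have := cr.deg v hv'; omega)
    refine clu_red h hb hQ cr hs pa pb ab e (s1 a (by simp [e])) (s1 b (by simp [e]))
      (val := vB x (-ee x) C.card) (fun L c e' y' nd l2 k1 k2 k3 k4 k5 => ?_)
      (Or.inr ⟨C.card, by simp only [List.mem_cons]; omega, ?_⟩)
    · rw [valB h.pos (ps_tb x (-ee x)) (by omega) (c := fun g => if g = p then e' * -ee x else c g)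
        nd (Nat.succ_le_succ l2) k1 k2 (fun g hg u hu => ?_) hz hq zq
        (fun u hu v hv' h1 h2 k => ?_) fun u hu k => ?_]
      · rcases L with _ | ⟨g, _ | ⟨g', _ | _⟩⟩
        · simp [vB, wB]
        · have : g ≠ p := by rintro rfl; simp at nd
          simp [vB, wB, this, this.symm]
          norm_num
        · have h1 : g ≠ p := by rintro rfl; simp at nd
          have h2 : g' ≠ p := by rintro rfl; simp at nd
          have h3 : g' ≠ g := by rintro rfl; simp at nd
          simp [vB, wB, h1, h2, h1.symm, h2.symm, h3.symm]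
          norm_num
        · simp at l2
      · by_cases k : g = p
        · rw [if_pos k, k, k4 u hu, s1 p (by simp [e]) u hu]
        · rw [if_neg k, k5 g ((List.mem_cons.1 hg).resolve_left k) u hu]
      · rw [k3 u hu v hv']
        by_cases k' : u = q
        · refine w4 u hu v hv' ?_
          simp [k', n2, hv', h2, k' ▸ k.symm]
        · refine w4 u hu v hv' ?_
          simp [n3 u hu h1 k', hv', k.symm]
      · rw [k3 z hz u hu]
        split_ifs with k'
        · rw [w0 z hz u (cr.sub hu) k (by simpa [k', n1] using fun k => cr.dis q k hq), wt0]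
        · exact w4 z hz u hu (by simp [n1, hu, k, k'])
    · simp only [vB, fB, one_mul, T5.mk.injEq, true_and, and_true]
      constructor <;> ring

end Pool.Agent.Lib.MP_efe3d7_co.J
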