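import Pool.Agent.Lib.MP_efe3d7_co.J.PSz
import Pool.Agent.Lib.MP_efe3d7_co.H.Bit2

/-! Counting pairs with masks. -/

set_option autoImplicit false

open Finset

namespace Pool.Agent.Lib.MP_efe3d7_co.J

open H

theorem pcnt_mod (c n : ℕ) (f : ℕ → Bool) (h : ∀ i, f i = true → 2 ^ i * c % 63 = 1) :
    msk n f * c % 63 = cnt n f % 63 := by
  induction n with
  | zero => simp [msk, cnt]
  | succ n ih =>
    have e : msk (n + 1) f = bif f n then Nat.lor (bt n) (msk n f) else msk n f := rfl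
    have e' : cnt (n + 1) f = bif f n then Nat.succ (cnt n f) else cnt n f := rfl
    rw [e, e']
    cases hf : f n
    · exact ih
    · have h1 := msk_lt n f
      have h2 := h n hf
      rw [bt_eq] at h1
      have h3 : Nat.lor (2 ^ n) (msk n f) = 2 ^ n + msk n f := by
        simpa using (Nat.two_pow_add_eq_or_of_lt h1 1).symm
      rw [cond_true, cond_true, bt_eq, h3, add_mul]
      omega

theorem pcnt_part (Y c r M : ℕ) (hc : ∀ i, i % 6 = r → 2 ^ i * c % 63 = 1)
    (hM : M = msk 384 fun b => decide (b % 6 = r ∧ b / 3 % 16 < b / 48))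
    (hb : (cnt 384 fun b => decide (b % 6 = r ∧ b / 3 % 16 < b / 48)) < 63) :
    Nat.land Y M * c % 63 =
      ((range 384).filter fun b => (b % 6 = r ∧ b / 3 % 16 < b / 48) ∧ tb Y b = true).card := by
  have e : Nat.land Y M =
      msk 384 fun b => decide ((b % 6 = r ∧ b / 3 % 16 < b / 48) ∧ tb Y b = true) :=
    Nat.eq_of_testBit_eq fun i => by
      rw [← tb_eq, ← tb_eq, tb_land, hM, tb_msk, tb_msk]
      cases tb Y i <;> simp
  rw [e, pcnt_mod c 384 _ fun i hi => hc i (of_decide_eq_true hi).1.1, cnt_eq]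
  simp only [decide_eq_true_eq]
  rw [cnt_eq] at hb
  exact Nat.mod_eq_of_lt (lt_of_le_of_lt
    (card_le_card (monotone_filter_right _ fun b _ k => decide_eq_true k.1)) hb)

theorem pcnt_pow (r c : ℕ) (h : 2 ^ r * c % 63 = 1) (i : ℕ) (hi : i % 6 = r) :
    2 ^ i * c % 63 = 1 := by
  have e : 2 ^ i = 64 ^ (i / 6) * 2 ^ r := by
    rw [← hi, show 64 = 2 ^ 6 by norm_num, ← pow_mul, ← pow_add, Nat.div_add_mod]
  rw [e, mul_assoc, Nat.mul_mod, h, Nat.pow_mod]
  simp

theorem pcT_eq {w : ℕ} (hw : w ≤ 8) (N : ℕ) :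
    pcT w N = cp w fun i j => tb N (3 * px i j) := by
  have h1 := pcnt_part (N % 2 ^ (48 * w)) 1 0 pE (pcnt_pow 0 1 rfl) (by decide +kernel)
    (by decide +kernel)
  have h2 := pcnt_part (N % 2 ^ (48 * w)) 8 3 pO (pcnt_pow 3 8 rfl) (by decide +kernel)
    (by decide +kernel)
  rw [mul_one] at h1
  have e : pcT w N = Nat.land (N % 2 ^ (48 * w)) pE % 63 +
      Nat.land (N % 2 ^ (48 * w)) pO * 8 % 63 := by
    rw [pcT, frc_eq, bt_eq]
    rfl
  rw [e, h1, h2, ← card_union_of_disjoint (disjoint_filter.2 fun b _ k k' => by omega), cp_eq,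
    ← card_sigma]
  refine card_nbij' (fun b => ⟨b / 48, b / 3 % 16⟩) (fun q => 3 * (16 * q.1 + q.2))
    (fun b hb => ?_) (fun q hq => ?_) (fun b hb => ?_) fun q hq => ?_
  · simp only [coe_union, coe_filter, Set.mem_union, Set.mem_ofPred_eq, mem_range, tb_eq,
      Nat.testBit_mod_two_pow, Bool.and_eq_true, decide_eq_true_eq] at hb
    have k : b < 48 * w ∧ b / 3 % 16 < b / 48 ∧ b % 3 = 0 ∧ N.testBit b = true := by
      rcases hb with hb | hb <;> exact ⟨hb.2.2.1, hb.2.1.2, by omega, hb.2.2.2⟩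
    simp only [mem_coe, mem_sigma, mem_filter, mem_range, bit2_px, tb_eq]
    refine ⟨by omega, k.2.1, ?_⟩
    rw [if_neg (by omega), show 3 * (16 * (b / 48) + b / 3 % 16) = b by omega]
    exact k.2.2.2
  · simp only [mem_coe, mem_sigma, mem_filter, mem_range, bit2_px, tb_eq] at hq
    obtain ⟨k1, k2, k3⟩ := hq
    rw [if_neg (by omega)] at k3
    simp only [mem_coe, mem_union, mem_filter, mem_range, tb_eq, Nat.testBit_mod_two_pow,
      Bool.and_eq_true, decide_eq_true_eq, k3, and_true]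
    have k4 : 3 * (16 * q.1 + q.2) / 48 = q.1 := by omega
    have k5 : 3 * (16 * q.1 + q.2) / 3 % 16 = q.2 := by omega
    rw [k4, k5]
    omega
  · simp only [coe_union, coe_filter, Set.mem_union, Set.mem_ofPred_eq] at hb
    show 3 * (16 * (b / 48) + b / 3 % 16) = b
    omega
  · simp only [mem_coe, mem_sigma, mem_filter, mem_range] at hq
    obtain ⟨i, j⟩ := q
    have k1 : 3 * (16 * i + j) / 48 = i := by dsimp only at hq; omega
    have k2 : 3 * (16 * i + j) / 3 % 16 = j := by dsimp only at hq; omega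
    simp only [k1, k2]

theorem pcnt_dig (ct a : ℕ) : tb (Nat.lor ct (hiT ct)) (3 * a) = nz (dig ct a) ∧
    tb (df ct (hiT ct)) (3 * a) = Nat.beq (dig ct a) 1 := by
  have e : ∀ b < 3, ct.testBit (b + 3 * a) = (dig ct a).testBit b := fun b hb => by
    rw [bit2_dig, show 8 = 2 ^ 3 by norm_num, Nat.testBit_mod_two_pow, ← pow_mul,
      Nat.testBit_div_two_pow, decide_eq_true hb, Bool.true_and]
  have e0 := e 0 (by norm_num)
  rw [zero_add] at e0
  have e1 : tb (hiT ct) (3 * a) = ((dig ct a).testBit 1 || (dig ct a).testBit 2) := by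
    rw [hiT, tb_lor, tb_eq, tb_eq, ← e 1 (by norm_num), ← e 2 (by norm_num)]
    exact congrArg₂ _ (Nat.testBit_shiftRight ct) (Nat.testBit_shiftRight ct)
  rw [tb_lor, tb_df, e1, tb_eq, e0]
  have := dig_lt ct a
  generalize dig ct a = d at *
  interval_cases d <;> decide

theorem pcT_ne {w : ℕ} (hw : w ≤ 8) (ct : ℕ) :
    pcT w (Nat.lor ct (hiT ct)) = cp w fun i j => nz (ty ct i j) := by
  simp only [pcT_eq hw, (pcnt_dig ct _).1, ty]

theorem pcT_nh {w : ℕ} (hw : w ≤ 8) (ct : ℕ) :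
    pcT w (df ct (hiT ct)) = cp w fun i j => Nat.beq (ty ct i j) 1 := by
  simp only [pcT_eq hw, (pcnt_dig ct _).2, ty]

theorem unT_spec {p : Pre} {s ct : ℕ} (h : Nat.land (Nat.lor ct (hiT ct)) (unT p s) = 0) {i j : ℕ}
    (hi : i < s) (hj : j < i) : tb (fld p.kn i) j = true ∨ ty ct i j = 0 := by
  by_contra n
  rw [not_or, Bool.not_eq_true] at n
  have h1 : tb (unT p s) (3 * px i j) = true :=
    (tb_un _ _ _ _).2 ⟨i, hi, by simp [tb_ful, hi], (tb_un _ _ _ _).2
      ⟨j, hj, by simp [tb_df, tb_ful, hj, n.1], by simp [tb_bt]⟩⟩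
  have h2 := tb_land (Nat.lor ct (hiT ct)) (unT p s) (3 * px i j)
  rw [h, tb_zero, h1, (pcnt_dig ct _).1, (nz_iff (dig ct _)).2 n.2] at h2
  exact Bool.noConfusion h2

end Pool.Agent.Lib.MP_efe3d7_co.J
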