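import Pool.Agent.Lib.MP_efe3d7_co.J.Sem
import Pool.Agent.Lib.MP_efe3d7_co.H.Exp
import Pool.Agent.Lib.MP_efe3d7_co.H.Col2

/-! The expansion along the partitions of the terminals, values of columns. -/

set_option autoImplicit false

open Finset

namespace Pool.Agent.Lib.MP_efe3d7_co.J

open H

variable {α : Type} [Fintype α] [DecidableEq α]

theorem expand {x : ℝ} (hx : 0 < x) (U : Finset α) (y : Sym2 α → ℝ) (v : ℕ → α) (s : ℕ)
    (hU : ∀ i < s, v i ∈ U) (hinj : ∀ i < s, ∀ j < s, v i = v j → i = j) :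
    ∃ R : ℕ → ℝ, ∀ (ni ct : ℕ) (y' : Sym2 α → ℝ), s + ni ≤ 8 →
      (∀ i < s + ni, ∀ j < s + ni, v i = v j → i = j) → (∀ i, s ≤ i → i < s + ni → v i ∉ U) →
      (∀ a ∈ U, ∀ b ∈ U, a ≠ b → (∀ i < s, v i ≠ a) → y' s(a, b) = y s(a, b)) →
      (∀ i < s, ∀ j < i, y' s(v i, v j) = y s(v i, v j) * wn (ee x) (ty ct i j)) →
      (∀ i, s ≤ i → i < s + ni → ∀ z ∈ U, (∀ l < s, v l ≠ z) → y' s(v i, z) = 1) →
      (∀ i, s ≤ i → i < s + ni → ∀ j < i, y' s(v i, v j) = wn (ee x) (ty ct i j)) →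
      ff x (U ∪ (Ico s (s + ni)).image v) y' =
        ((parts s).map fun p => R p.1 * valR x s ni ct p.1 p.2).sum := by
  choose Rp hRp using fun cs => pol_pat U y v s cs hU hinj
  refine ⟨fun cs => (-1) ^ U.card * (1 + x) ^ U.card / (1 + x) ^ Fintype.card α *
    (Rp cs).eval (1 + x), fun ni ct y' h8 hi hn h1 h2 h3 h4 => ?_⟩
  have hs : s ≤ 8 := by omega
  have ev : ∀ (t : ℝ) (l : List (ℕ × ℕ)) (f : ℕ × ℕ → Polynomial ℝ),
      ((l.map f).sum).eval t = (l.map fun p => (f p).eval t).sum := fun t l f => by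
    induction l with
    | nil => simp
    | cons a l ih => simp only [List.map_cons, List.sum_cons, Polynomial.eval_add, ih]
  have key : Polynomial.X ^ ni * Zp (U ∪ (Ico s (s + ni)).image v) y' =
      ((parts s).map fun p => locP (ee x) ct ni s p.1 p.2 *
        (Polynomial.C (∏ u ∈ range s, facR (ee x) ct p.1 u (dig p.1 u)) * Rp p.1)).sum := by
    refine poly_ext fun n => ?_
    rw [Polynomial.eval_mul, Polynomial.eval_pow, Polynomial.eval_X, eval_Zp,
      sum_parts n _ y' v hs, ← List.sum_map_mul_left, ev]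
    refine congrArg _ (List.map_congr_left fun p hp => ?_)
    rw [SS_loc (ee x) n y' v ct ni U s p.1 p.2 h8 (parts_RG hs hp) hU hn hi h3 h4,
      SS_term (ee x) n U y y' v s ct p.1 hU hinj h1 h2, Polynomial.eval_mul, Polynomial.eval_mul,
      Polynomial.eval_C, hRp]
  have hc : (U ∪ (Ico s (s + ni)).image v).card = U.card + ni := by
    rw [card_union_of_disjoint, card_image_of_injOn, Nat.card_Ico, Nat.add_sub_cancel_left]
    · intro i hi' j hj e
      exact hi i (mem_Ico.1 hi').2 j (mem_Ico.1 hj).2 e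
    · refine disjoint_right.2 fun z hz => ?_
      obtain ⟨i, hi', rfl⟩ := mem_image.1 hz
      exact hn i (mem_Ico.1 hi').1 (mem_Ico.1 hi').2
  have k2 := congrArg (Polynomial.eval (1 + x)) key
  rw [Polynomial.eval_mul, Polynomial.eval_pow, Polynomial.eval_X, ev] at k2
  have k3 : ff x (U ∪ (Ico s (s + ni)).image v) y' =
      (-1) ^ U.card * (1 + x) ^ U.card / (1 + x) ^ Fintype.card α * (-1) ^ ni *
        ((1 + x) ^ ni * (Zp (U ∪ (Ico s (s + ni)).image v) y').eval (1 + x)) := by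
    rw [ff, hc]
    ring
  rw [k3, k2, ← List.sum_map_mul_left]
  refine congrArg _ (List.map_congr_left fun p _ => ?_)
  rw [valR, Polynomial.eval_mul, Polynomial.eval_mul, Polynomial.eval_C]
  ring

variable {m : Md} {p : Pre} {k : K} {V : Finset α} {τ : Sym2 α → Fin 3} {E : Env α} {v : ℕ → α}

theorem colG_ff {x : ℝ} (hx : 0 < x) (hO : Ok m V τ E) (hP : PS m p V τ E v) :
    ∃ R : ℕ → ℝ, ∀ ni ct U σ, TyB p ni ct → ColG p ni ct V τ v U σ →
      FF x U σ = ((parts p.s).map fun q => R q.1 * valR x p.s ni ct q.1 q.2).sum := by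
  classical
  have hs := hP.sn
  have hV : ∀ i < p.n, v i ∈ V := fun i hi => hO.memV (hP.mem i hi)
  obtain ⟨R, hR⟩ := expand hx (V.filter fun z => ∀ i < p.n, v i = z → i < p.s)
    (fun e => if ∃ i < p.s, ∃ j < p.s, tb (fld p.kn i) j = true ∧ e = s(v i, v j) then 1
      else wt (ee x) (τ e)) v p.s
    (fun i hi => mem_filter.2 ⟨hV i (by omega), fun j hj e => by
      rwa [hP.inj j hj i (by omega) e]⟩)
    fun i hi j hj => hP.inj i (by omega) j (by omega)
  refine ⟨R, fun ni ct U σ hT hC => ?_⟩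
  have hn := hT.1
  have hU : U = (V.filter fun z => ∀ i < p.n, v i = z → i < p.s) ∪
      (Ico p.s (p.s + ni)).image v := by
    ext z
    rw [hC.mem, mem_union, mem_filter, mem_image]
    constructor
    · rintro ⟨h1, h2⟩
      by_cases h : ∀ i < p.n, v i = z → i < p.s
      · exact Or.inl ⟨h1, h⟩
      · push Not at h
        obtain ⟨i, hi, e, h3⟩ := h
        exact Or.inr ⟨i, mem_Ico.2 ⟨h3, h2 i hi e⟩, e⟩
    · rintro (⟨h1, h2⟩ | ⟨i, hi, rfl⟩)
      · exact ⟨h1, fun i hi e => by have := h2 i hi e; omega⟩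
      · have := (mem_Ico.1 hi).2
        exact ⟨hV i (by omega), fun j hj e => by rwa [hP.inj j hj i (by omega) e]⟩
  have ho : ∀ z ∈ V.filter fun z => ∀ i < p.n, v i = z → i < p.s, (∀ l < p.s, v l ≠ z) →
      ∀ l < p.n, v l ≠ z := fun z hz h l hl e => h l ((mem_filter.1 hz).2 l hl e) e
  rw [FF, hU]
  refine hR ni ct _ (hn.trans hP.n8) (fun i hi j hj => hP.inj i (by omega) j (by omega))
    (fun i h1 h2 h => by have := (mem_filter.1 h).2 i (by omega) rfl; omega)
    (fun a ha b _ _ h => ?_) (fun i hi j hj => ?_) (fun i h1 h2 z hz h => ?_) fun i h1 h2 j hj => ?_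
  · rw [hC.out a b (ho a ha h), if_neg]
    rintro ⟨i, hi, j, hj, -, e⟩
    rcases Sym2.eq_iff.1 e with ⟨e, -⟩ | ⟨e, -⟩
    exacts [h i hi e.symm, h j hj e.symm]
  · have h1 := hC.inn i (by omega) j (by omega) (by omega)
    have h2 := (hT.2 i (by omega) j (by omega) (by omega)).2
    by_cases hk : tb (fld p.kn i) j = true
    · rw [if_pos ⟨i, hi, j, by omega, hk, rfl⟩, one_mul, wt_wn, h1, if_pos hk]
    · rw [if_neg, wt_wn, h1, if_neg hk]
      · by_cases h3 : ty ct i j = 1
        · simp [h3, wn]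
        · have h4 : ty ct i j = 0 := by have := h2.resolve_left hk; omega
          rw [if_neg h3, h4, wt_wn]
          simp [wn]
      · rintro ⟨a, ha, b, hb, h3, e⟩
        rcases Sym2.eq_iff.1 e with ⟨e1, e2⟩ | ⟨e1, e2⟩
        · rw [hP.inj i (by omega) a (by omega) e1, hP.inj j (by omega) b (by omega) e2] at hk
          exact hk h3
        · rw [hP.inj i (by omega) b (by omega) e1, hP.inj j (by omega) a (by omega) e2,
            hP.kns b (by omega) a (by omega)] at hk
          exact hk h3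
  · have h3 := ho z hz h
    have h4 := hP.int i (by omega) h1
    have h5 : τ s(v i, z) = 0 := by
      by_contra h5
      obtain ⟨j, hj, -, e⟩ := hP.cl i (by omega) h4.2.1 z
        (mem_nb.2 ⟨(mem_filter.1 hz).1, (h3 i (by omega)).symm, h5⟩) (Or.inl h4.1)
      exact h3 j hj e
    rw [Sym2.eq_swap, hC.out z _ h3, Sym2.eq_swap, h5, wt, if_pos rfl]
  · rw [wt_wn, hC.inn i h2 j (by omega) (by omega),
      if_pos ((hP.int i (by omega) h1).2.2 j (by omega) (by omega))]

theorem col_ff {x : ℝ} (hx : 0 < x) (hO : Ok m V τ E) (hP : PS m p V τ E v) {R : ℕ → ℝ}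
    (hR : ∀ ni ct U σ, TyB p ni ct → ColG p ni ct V τ v U σ →
      FF x U σ = ((parts p.s).map fun q => R q.1 * valR x p.s ni ct q.1 q.2).sum)
    {g : Col} (h : typOk p g = true) {U : Finset α} {σ : Sym2 α → Fin 3}
    (hG : ColG p g.ni g.ct V τ v U σ) :
    FF x (cV g v U) (cT g v σ) =
      ((parts p.s).map fun q => R q.1 * cvalR x p.s g q.1 q.2).sum := by
  have hT := typ_tyB hP h
  cases hm : g.mg
  · simpa only [cV, cT, cvalR, hm, Bool.false_eq_true, if_false] using
      hR _ _ U σ hT hG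
  obtain ⟨ha, hb, hab, -, hk, hf, h0, hpf⟩ := typ_mg h hm
  have h1 := hT.1
  have hU : ∀ i < p.s, v i ∈ U := fun i hi => (hG.mem _).2 ⟨hO.memV (hP.mem i (by omega)),
    fun l hl e => by
      have := hP.inj l hl i (by omega) e
      omega⟩
  have hne : v g.a ≠ v g.b := fun e => hab (hP.inj _ (by omega) _ (by omega) e)
  have h2 : ∀ z ∈ U, z ≠ v g.a → z ≠ v g.b →
      wt (ee x) (mg σ (v g.a) (v g.b) s(v g.a, z)) =
        mergeW (fun e => wt (ee x) (σ e)) (v g.a) (v g.b) s(v g.a, z) := by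
    intro z hz za zb
    rw [mg_self, mergeW_self]
    refine col2_par (ee x) fun k => ?_
    obtain ⟨hzV, hz2⟩ := (hG.mem z).1 hz
    by_cases hw : ∃ i < p.n, v i = z
    · obtain ⟨i, hi, rfl⟩ := hw
      have hi2 := hz2 i hi rfl
      have ia : i ≠ g.a := fun e => za (congrArg v e)
      have ib : i ≠ g.b := fun e => zb (congrArg v e)
      have k1 := col2_pf hP hT hG ha hi2 ia.symm k.1
      have k2 := col2_pf hP hT hG hb hi2 ib.symm k.2
      simpa [k1, k2] using hpf i hi2 ia ib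
    · have hw' : ∀ i < p.n, v i ≠ z := fun i hi e => hw ⟨i, hi, e⟩
      have k1 : ∀ c, z ≠ c → σ s(c, z) = 2 → z ∈ nb V τ c := fun c hc e => mem_nb.2 ⟨hzV, hc, by
        rw [Sym2.eq_swap, ← hG.out z c hw', Sym2.eq_swap, e]
        decide⟩
      exact hw ((hP.fb _ (by omega) _ hf).2.2 z (k1 _ za k.1) (k1 _ zb k.2))
  have h3 : FF x (U.erase (v g.b)) (mg σ (v g.a) (v g.b)) =
      ff x (U.erase (v g.b)) (mergeW (fun e => wt (ee x) (σ e)) (v g.a) (v g.b)) := by
    refine ff_congr fun c hc d hd hcd => ?_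
    by_cases ca : c = v g.a
    · subst ca
      exact h2 d (mem_of_mem_erase hd) hcd.symm (ne_of_mem_erase hd)
    by_cases da : d = v g.a
    · subst da
      rw [Sym2.eq_swap]
      exact h2 c (mem_of_mem_erase hc) hcd (ne_of_mem_erase hc)
    · rw [mg_of_ne σ _ ca da, mergeW_of_ne _ _ ca da]
  have h4 : σ s(v g.a, v g.b) = 0 := by
    have := hG.inn g.a (by omega) g.b (by omega) hab
    rw [if_pos hk, h0] at this
    exact Fin.ext this
  have h5 : Function.update (fun e => wt (ee x) (σ e)) s(v g.a, v g.b) 1 = fun e => wt (ee x) (σ e) :=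
    Function.update_eq_self_iff.2 (by simp [h4, wt])
  have h6 : Function.update (fun e => wt (ee x) (σ e)) s(v g.a, v g.b) 0 =
      fun e => wt (ee x) (Function.update σ s(v g.a, v g.b) 1 e) := by
    funext e
    by_cases k : e = s(v g.a, v g.b)
    · rw [k, Function.update_self, Function.update_self]
      simp [wt]
    · rw [Function.update_of_ne k, Function.update_of_ne k]
  obtain ⟨t1, t2⟩ := col2_upd hP hT hG ha hb
  have h7 := hR _ _ U _ t1 t2
  have h8 := hR _ _ U σ hT hG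
  rw [FF] at h7 h8
  simp only [cV, cT, cvalR, hm, if_true]
  rw [h3, ← Sv_merge hx (hU _ ha) (hU _ hb) hne, Sv, h5, h6, h7, h8, col2_sum]
  refine congrArg List.sum (List.map_congr_left fun q _ => ?_)
  ring

end Pool.Agent.Lib.MP_efe3d7_co.J
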