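import Pool.Agent.Lib.MP_efe3d7_co.J.Defs
import Pool.Agent.Lib.MP_efe3d7_co.H.Pos

/-! The induction and the triangle. -/

set_option autoImplicit false

open Finset

namespace Pool.Agent.Lib.MP_efe3d7_co.J

open H

variable {α : Type} [Fintype α] [DecidableEq α] {x : ℝ} {V : Finset α} {τ : Sym2 α → Fin 3}

omit [Fintype α] in
theorem pos_ww (V : Finset α) (τ : Sym2 α → Fin 3) : 0 < ww V τ := by
  unfold ww
  positivity

theorem Iv.x_pos (h : Iv x) : 0 < x := by linarith [h.1]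

theorem Iv.ee_ge (h : Iv x) : 1 / 5 ≤ ee x := by
  unfold ee
  linarith [h.1]

theorem pos_of_red (h : ∀ (V : Finset α) (τ : Sym2 α → Fin 3), Con3 V τ → Red x V τ)
    (V : Finset α) (τ : Sym2 α → Fin 3) (hc : Con3 V τ) (hn : ¬ Exc V τ) : 0 < FF x V τ := by
  classical
  suffices H : ∀ (N : ℕ) (V : Finset α) (τ : Sym2 α → Fin 3), Con3 V τ → ¬ Exc V τ → ne V τ = N →
      0 < FF x V τ from H _ V τ hc hn rfl
  intro N
  induction N using Nat.strong_induction_on with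
  | _ N ih =>
  intro V τ hc hn hN
  obtain ⟨p, hp, hmin⟩ := exists_min_image
    (univ.filter fun p : Finset α × (Sym2 α → Fin 3) =>
      Con3 p.1 p.2 ∧ ¬ Exc p.1 p.2 ∧ ne p.1 p.2 = N)
    (fun p => FF x p.1 p.2 / ww p.1 p.2) ⟨(V, τ), mem_filter.2 ⟨mem_univ _, hc, hn, hN⟩⟩
  have hp' := (mem_filter.1 hp).2
  by_cases hμ : FF x p.1 p.2 / ww p.1 p.2 ≤ 0
  · have k := h p.1 p.2 hp'.1 hp'.2.1
      (fun V' τ' hc' hn' hl => ih _ (hp'.2.2 ▸ hl) V' τ' hc' hn' rfl) _ hμ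
      (fun V' τ' hc' hn' he => (le_div_iff₀ (pos_ww V' τ')).1
        (hmin (V', τ') (mem_filter.2 ⟨mem_univ _, hc', hn', he.trans hp'.2.2⟩)))
    rw [div_mul_cancel₀ _ (pos_ww _ _).ne'] at k
    exact absurd k (lt_irrefl _)
  · have k := (not_le.1 hμ).trans_le (hmin (V, τ) (mem_filter.2 ⟨mem_univ _, hc, hn, hN⟩))
    exact (div_pos_iff_of_pos_right (pos_ww V τ)).1 k

theorem red_of_pos (h : 0 < FF x V τ) : Red x V τ := fun _ _ _ hμ _ =>
  (mul_nonpos_of_nonpos_of_nonneg hμ (pos_ww V τ).le).trans_lt h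

theorem red_exc (h : Exc V τ) : Red x V τ := fun hn => absurd h hn

theorem red_or (h : Exc V τ ∨ 0 < FF x V τ) : Red x V τ := h.elim red_exc red_of_pos

theorem red_three (h : Iv x) (hc : Con3 V τ) (h3 : V.card = 3) : Red x V τ := by
  have hx := h.x_pos
  have he : 0 < ee x := by linarith [h.ee_ge]
  refine red_of_pos ?_
  obtain ⟨a, b, p, hab, hap, hbp, hV⟩ := card_eq_three.1 h3
  have k1 := pos_wt he (pos_adj hc h3 (a := a) (c := b) (by simp [hV]) (by simp [hV]) hab)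
  have k2 := pos_wt he (pos_adj hc h3 (a := a) (c := p) (by simp [hV]) (by simp [hV]) hap)
  have k3 := pos_wt he (pos_adj hc h3 (a := b) (c := p) (by simp [hV]) (by simp [hV]) hbp)
  rw [FF, hV, ff_three hx hab hap hbp]
  have k4 := mul_nonpos_of_nonneg_of_nonpos (mul_nonneg_of_nonpos_of_nonpos k1 k2) k3
  refine mul_pos (by linarith) ?_
  have k5 : 0 < x * (1 - x - wt (ee x) (τ s(a, b)) - wt (ee x) (τ s(a, p)) -
      wt (ee x) (τ s(b, p))) := mul_pos hx (by linarith [h.2])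
  linarith

end Pool.Agent.Lib.MP_efe3d7_co.J
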