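import Pool.Agent.Lib.MP_efe3d7_co.J.PIneq
import Pool.Agent.Lib.MP_efe3d7_co.J.PCnt
import Pool.Agent.Lib.MP_efe3d7_co.J.PCol
import Pool.Agent.Lib.MP_efe3d7_co.J.PPos
import Pool.Agent.Lib.MP_efe3d7_co.H.Core

/-! A certificate whose columns are in the class reduces the graph. -/

set_option autoImplicit false

open Finset

namespace Pool.Agent.Lib.MP_efe3d7_co.J

open H

variable {α : Type} [Fintype α] [DecidableEq α]

variable {m : Md} {k : K} {V : Finset α} {τ : Sym2 α → Fin 3} {E : Env α} {v : ℕ → α}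

/-- The weight of a column. -/
def wF (s nI e h : ℕ) (g : Col) : ℕ := if g.ne s < e then 0 else
  6 ^ (30 + (g.ni + h) - (nI + g.nh s)) * 5 ^ (30 + (nI + g.nh s) - (g.ni + h))

theorem wsK_spec (p : Pre) (s nI e h : ℕ) : ∀ (l : List Col) (k : List ℕ → Bool),
    (∀ g ∈ l, s + g.ni ≤ 8) → wsK (unT p s) s nI e h l k = true →
      k (l.map (wF s nI e h)) = true ∧ ∀ g ∈ l, g.ne s < e ∨
      (g.ne s = e ∧ g.mg = false ∧ ∀ i < s, ∀ j < i, tb (fld p.kn i) j = true ∨ ty g.ct i j = 0)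
  | [], k, _, a => ⟨a, by simp⟩
  | g :: l, k, b, a => by
    have b1 := b g List.mem_cons_self
    have b2 := fun r hr => b r (List.mem_cons_of_mem g hr)
    have e1 : pcT (s + g.ni) (Nat.lor g.ct (hiT g.ct)) = g.ne s := pcT_ne b1 _
    have e2 : pcT (s + g.ni) (df g.ct (hiT g.ct)) = g.nh s := pcT_nh b1 _
    simp only [wsK, frc_eq, Nat.add_eq, e1, e2] at a
    by_cases c : g.ne s < e
    · have c' : Nat.blt (g.ne s) e = true := by rwa [Nat.blt_eq]
      rw [c', cond_true] at a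
      obtain ⟨a1, a2⟩ := wsK_spec p s nI e h l _ b2 a
      exact ⟨by rwa [List.map_cons, wF, if_pos c], List.forall_mem_cons.2 ⟨.inl c, a2⟩⟩
    · have c' : Nat.blt (g.ne s) e = false := by rwa [← Bool.not_eq_true, Nat.blt_eq]
      simp only [c', cond_false, Bool.and_eq_true, Nat.beq_eq, Bool.not_eq_true'] at a
      obtain ⟨a1, a2⟩ := wsK_spec p s nI e h l _ b2 a.2
      exact ⟨by rwa [List.map_cons, wF, if_neg c], List.forall_mem_cons.2
        ⟨.inr ⟨a.1.1.1, a.1.1.2, fun i hi j hj => unT_spec a.1.2 hi hj⟩, a2⟩⟩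

theorem pcore_w {a u n1 n2 A B : ℕ} (hAB : A + B = 60) (h : a + A + n2 = 30 + u + n1) :
    (6 / 5 : ℝ) ^ a / (6 / 5) ^ n1 * ((6 ^ A * 5 ^ B : ℕ) : ℝ) =
      ((30 ^ 30 : ℕ) : ℝ) * ((6 / 5) ^ u / (6 / 5) ^ n2) := by
  have e1 : ((6 ^ A * 5 ^ B : ℕ) : ℝ) = (6 / 5) ^ A * 5 ^ 60 := by
    push_cast
    rw [← hAB, pow_add, div_pow]
    field_simp
  have e2 : ((30 ^ 30 : ℕ) : ℝ) = (6 / 5) ^ 30 * 5 ^ 60 := by norm_num
  have e3 : (6 / 5 : ℝ) ^ (a + A + n2) = (6 / 5) ^ (30 + u + n1) := by rw [h]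
  have e4 : (6 / 5 : ℝ) ≠ 0 := by norm_num
  rw [e1, e2]
  generalize (6 / 5 : ℝ) = q at *
  generalize (5 : ℝ) ^ 60 = c
  rw [div_mul_eq_mul_div, mul_div_assoc', div_eq_div_iff (pow_ne_zero _ e4) (pow_ne_zero _ e4)]
  simp only [pow_add] at e3
  linear_combination c * e3

theorem cert_core {x : ℝ} (hI : Iv x) (hO : Ok m V τ E) (hS : Sat k V τ E v)
    {c : Cert} (hs : strOk k c.s = true) (hz : szF (preOf m k c.s) k.ct c = true)
    (ht : ∀ g ∈ c.cols, typOk (preOf m k c.s) g = true)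
    (hi : ∀ q ∈ c.pcs, IdR x c.s (k.n - c.s) k.ct c.cols q)
    (hc : ∀ g ∈ c.cols, ∀ U σ, ColG (preOf m k c.s) g.ni g.ct V τ v U σ →
      Con3 (cV g v U) (cT g v σ))
    (hX : ∀ g ∈ c.cols, ∀ U σ, ColG (preOf m k c.s) g.ni g.ct V τ v U σ →
      Exc (cV g v U) (cT g v σ) → Exc V τ ∨ 0 < FF x V τ) : Red x V τ := by
  by_cases h00 : Exc V τ ∨ 0 < FF x V τ
  · exact red_or h00
  replace hX := fun g hg U σ hG he => h00 (hX g hg U σ hG he)
  intro _ hSm μ hμ hE
  have hx := hI.x_pos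
  have hP := ps_of hO hS hs
  obtain ⟨hT, hPu, hG0⟩ := colG_self hO hS hs
  obtain ⟨R, hR⟩ := colG_ff hx hO hP
  obtain ⟨r, hr⟩ := col_cnt hO hP nz rfl
  obtain ⟨r', hr'⟩ := col_cnt hO hP (fun t => Nat.beq t 1) rfl
  have en := preOf_n m k c.s
  have es := preOf_s m k c.s
  generalize preOf m k c.s = p at *
  have sn : c.s + (k.n - c.s) = k.n := by have := hP.sn; omega
  have n0 := (hr _ _ _ _ hT hG0).1 hPu
  have h0 := (hr' _ _ _ _ hT hG0).1 hPu
  rw [← core_ne, es, sn] at n0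
  rw [← core_nh, es, sn] at h0
  have he := core_cp k.n k.ct
  have n8 : k.n ≤ 8 := en ▸ hP.n8
  simp only [szF, frc_eq, Bool.and_eq_true, Nat.ble_eq, Nat.sub_eq, Nat.add_eq, en, pcT_ne n8,
    pcT_nh n8] at hz
  obtain ⟨⟨⟨e16, i4⟩, hch⟩, hw⟩ := hz
  obtain ⟨hw, hcol⟩ := wsK_spec _ _ _ _ _ _ _
    (fun g hg => by have := (typ_tyB hP (ht g hg)).1; omega) hw
  obtain ⟨q, hq, hin⟩ := chain_spec hI.2 _ _ _ hch (by norm_num)
    (by push_cast; linarith [hI.1]) (.inr (by norm_num))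
  generalize (cp k.n fun i j => nz (ty k.ct i j)) = e at *
  generalize (cp k.n fun i j => Nat.beq (ty k.ct i j) 1) = h at *
  have key : ∀ g ∈ c.cols, ∃ U σ, TyB p g.ni g.ct ∧ ColG p g.ni g.ct V τ v U σ ∧
      ((parts c.s).map fun q => R q.1 * cvalR x c.s g q.1 q.2).sum =
        FF x (cV g v U) (cT g v σ) := fun g hg => by
    have b := typ_tyB hP (ht g hg)
    obtain ⟨U, σ, hG⟩ := colG_ex hP b
    exact ⟨U, σ, b, hG, by rw [col_ff hx hO hP hR (ht g hg) hG, es]⟩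
  refine pc_ineq hin c.cols (wF c.s (k.n - c.s) e h)
    (fun g => ((parts c.s).map fun q => R q.1 * cvalR x c.s g q.1 q.2).sum) _ _
    (mul_nonpos_of_nonpos_of_nonneg hμ (pos_ww _ _).le) (List.all_eq_true.1 hw q hq)
    (fun g hg sm => ?_) (fun g hg sm => ?_) ?_
  · have sm' : g.ne c.s < e := by
      by_contra n
      rw [wF, if_neg n] at sm
      exact absurd sm (by positivity)
    obtain ⟨U, σ, b, hG, eq⟩ := key g hg
    rw [eq]
    refine hSm _ _ (hc g hg U σ hG) (hX g hg U σ hG) ?_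
    have n1 := (hr _ _ _ _ b hG).2 rfl
    rw [← core_ne, es] at n1
    rw [Col.ne, Nat.add_eq] at sm'
    refine lt_of_le_of_lt ?_ (by omega : ne U σ < ne V τ)
    unfold cV cT
    split_ifs with hm
    · obtain ⟨a1, a2, a3, -⟩ := typ_mg (ht g hg) hm
      have sn' := hP.sn
      have mU : ∀ i < p.s, v i ∈ U := fun i li => (hG.mem _).2
        ⟨hO.memV (hP.mem i (by omega)), fun j lj ej => by
          rw [hP.inj j lj i (by omega) ej]; omega⟩
      exact ne_mg U σ (mU _ a1) (mU _ a2) fun q => a3 (hP.inj _ (by omega) _ (by omega) q)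
    · exact le_rfl
  · obtain ⟨U, σ, b, hG, eq⟩ := key g hg
    have sm' : ¬ g.ne c.s < e := fun n => sm (by rw [wF, if_pos n])
    obtain ⟨a1, a2, a3⟩ := (hcol g hg).resolve_left sm'
    have pu : Pure p g.ct := fun i li j lj ne kn => by
      rw [es] at li lj
      rcases lt_or_gt_of_ne ne with l | l
      · rw [ty_comm]
        refine (a3 j lj i l).resolve_left ?_
        rw [← hP.kns i (by omega) j (by omega), kn]; exact Bool.false_ne_true
      · exact (a3 i li j l).resolve_left (by rw [kn]; exact Bool.false_ne_true)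
    have n1 := (hr _ _ _ _ b hG).1 pu
    have n2 := (hr' _ _ _ _ b hG).1 pu
    have n3 := col_card hO hP b.1 hG
    have n4 := core_cp (c.s + g.ni) g.ct
    have n5 := b.1
    have c3 := hc g hg U σ hG
    have c4 := hX g hg U σ hG
    rw [← core_ne, es] at n1
    rw [← core_nh, es] at n2
    rw [eq]
    rw [cV, cT, if_neg (by simp [a2]), if_neg (by simp [a2])] at c3 c4 ⊢
    rw [wF, if_neg sm', Col.nh, mul_assoc, ww]
    rw [Col.ne, Nat.add_eq] at a1
    rw [Nat.add_eq, pcore_w (u := U.card) (n2 := nh U σ) (by omega) (by omega), mul_left_comm]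
    exact mul_le_mul_of_nonneg_left (hE U σ c3 c4 (by omega)) (Nat.cast_nonneg _)
  · rw [hR _ _ _ _ hT hG0, es]
    exact idR_sum (hi q hq) R

end Pool.Agent.Lib.MP_efe3d7_co.J
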