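import Pool.Agent.Lib.MP_efe3d7_co.J.Defs
import Pool.Agent.Lib.MP_efe3d7_co.J.Chk
import Pool.Agent.Lib.MP_efe3d7_co.H.Rul3

/-! The contradiction rule that uses the minimality of the fragment. -/

set_option autoImplicit false

open Finset

namespace Pool.Agent.Lib.MP_efe3d7_co.J

open H

variable {α : Type} [Fintype α] [DecidableEq α]

variable {m : Md} {k : K} {V : Finset α} {τ : Sym2 α → Fin 3} {E : Env α} {v : ℕ → α}

theorem min_sound (hO : Ok3 m V τ E) (hS : Sat k V τ E v) {i : ℕ} (h : minOk m k i = true) :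
    False := by
  simp only [minOk, frc_eq, Bool.and_eq_true, Bool.or_eq_true, Bool.not_eq_true', allB_iff,
    Nat.ble_eq, Nat.add_eq] at h
  obtain ⟨⟨⟨⟨⟨hr, h2⟩, h1⟩, h3⟩, h4⟩, h5, h6⟩ := h
  have h0 : nz i = true := by
    rw [pc_eq] at h1
    obtain ⟨j, hj⟩ := card_pos.1 (by omega : 0 < (bs k.n i).card)
    exact (nz_bit i).2 ⟨j, (mem_bs.1 hj).2⟩
  generalize hU : df (un k.n i k.nm) i = U at h5 h6
  obtain ⟨a1, -, a3, a4, -, -⟩ := rul3_aux hO.ok hS hU h0 h2 h3
  have c1 := card_img hS.inj i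
  have c2 := card_img hS.inj U
  have e := hO.d3 hr _ _ a1 (by omega) a3 a4 (by omega) fun z hz => by
    obtain ⟨u, hu, rfl⟩ := mem_image.1 hz
    obtain ⟨u1, u2⟩ := mem_bs.1 hu
    rcases h6 u u1 with (k1 | k1) | k1 | k1
    · rw [u2] at k1
      cases k1
    · exact .inl (hS.lt u u1 k1)
    · refine .inr (k1.trans ?_)
      rw [← card_img hS.inj]
      refine card_le_card fun z hz => ?_
      obtain ⟨j, hj, rfl⟩ := mem_image.1 hz
      obtain ⟨j1, j2⟩ := mem_bs.1 hj
      rw [tb_df, Bool.and_eq_true, Bool.not_eq_true'] at j2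
      exact mem_sdiff.2 ⟨aj_sound hO.ok hS u1 j1 ((k.tb_nm u j).1 j2.1).2, by
        rw [rul3_mem hS i j1, j2.2]; decide⟩
    · refine (hS.mem u u1).symm.imp_right fun hq => ?_
      have k2 := el_sound hO.ok hS u1
      have k3 := card_sdiff_add_card_inter (nb V τ (v u)) ((bs k.n i).image v)
      have k4 : nb V τ (v u) ∩ (bs k.n i).image v ⊆ (bs k.n (Nat.land (k.nm u) i)).image v :=
        fun z hz => by
          obtain ⟨j, hj, rfl⟩ := mem_image.1 (mem_inter.1 hz).2
          obtain ⟨j1, j2⟩ := mem_bs.1 hj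
          have j3 := (h3 j j1).resolve_left (by simp [j2])
          obtain ⟨l, hl, l1, l2⟩ := cl_sound hO.ok hS j1 j3.2
            (nb_symm (hO.ok.subQ hq) (mem_inter.1 hz).1) (.inl (hS.lq j j1 j3.1))
          obtain rfl := hS.inj l hl u u1 l2
          rw [rul3_mem hS _ j1, tb_land, j2, (k.tb_nm l j).2 ⟨j1, k.aj_comm j l ▸ l1⟩]
          rfl
      have k5 := card_le_card k4
      rw [card_img hS.inj] at k5
      rw [ds_Q hq, dg] at k2
      omega
  rcases h4 with h4 | h4
  · obtain ⟨j, hj⟩ := (nz_bit _).1 h4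
    simp only [tb_df, tb_land, tb_ful, Bool.and_eq_true, Bool.not_eq_true', decide_eq_true_eq] at hj
    have := hS.lq j hj.1.2 hj.1.1
    rw [← e, rul3_mem hS i hj.1.2, hj.2] at this
    cases this
  · have k3 := card_le_card (show (bs k.n (df (ful k.n) i)).image v ⊆ E.T from fun z hz => by
      obtain ⟨j, hj, rfl⟩ := mem_image.1 hz
      obtain ⟨j1, j2⟩ := mem_bs.1 hj
      rw [tb_df, Bool.and_eq_true, Bool.not_eq_true'] at j2
      refine (hS.mem j j1).resolve_left fun hq => ?_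
      rw [← e, rul3_mem hS i j1, j2.2] at hq
      cases hq)
    rw [card_img hS.inj] at k3
    have := hO.ok.cT
    omega

end Pool.Agent.Lib.MP_efe3d7_co.J
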