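import Pool.Agent.Lib.MP_efe3d7_co.J.Defs
import Pool.Agent.Lib.MP_efe3d7_co.J.Chk
import Pool.Agent.Lib.MP_efe3d7_co.H.Rul3

/-! The contradiction rule on the complement of a set of vertices. -/

set_option autoImplicit false

open Finset

namespace Pool.Agent.Lib.MP_efe3d7_co.J

open H

variable {α : Type} [Fintype α] [DecidableEq α]

variable {m : Md} {k : K} {V : Finset α} {τ : Sym2 α → Fin 3} {E : Env α} {v : ℕ → α}

theorem rul6_core (hO : Ok3 m V τ E) (hr : m.rl = true) {Y Yi Yd Tk : Finset α} (hY : Y ⊆ E.Q)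
    (hne : Y.Nonempty) (hi : ∀ y ∈ Yi, y ∈ Y ∧ ∀ z ∈ nb V τ y, z ∈ Y ∨ z ∈ E.T)
    (hd : ∀ y ∈ Yd, y ∈ Y ∧ y ∈ E.Dr)
    (hk : ∀ t ∈ Tk, t ∈ E.T ∧ 4 ≤ ds V τ E t ∧ ∀ z ∈ nb V τ t, z ∈ E.Q → z ∈ Y) :
    ((Y \ Yi).card < Yd.card + Tk.card → (E.Q \ Y).card = 0) ∧
    ((Y \ Yi).card ≤ Yd.card + Tk.card → 2 ≤ (E.Q \ Y).card → (∀ y, y ∉ Yi) ∧ (∀ t, t ∉ Tk) ∧
      Y ⊆ E.Dr ∧ ∃ y ∈ Y, (nb V τ y \ (E.Q \ Y)).card < 2) := by
  have om := hO.ok.omn (hO.ok.wm_false hr)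
  obtain ⟨X, hX⟩ : ∃ X : Finset α, ∀ t, t ∈ X ↔ t ∈ E.T ∧ nb V τ t ∩ E.Q ⊆ Y :=
    ⟨E.T.filter fun t => nb V τ t ∩ E.Q ⊆ Y, fun t => mem_filter⟩
  have one : ∀ q ∈ E.T, ds V τ E q = 3 → ∀ a ∈ E.Q, q ∈ nb V τ a → ∀ b ∈ nb V τ q ∩ E.Q, b = a :=
    fun q hq h2 a ha hn b hb => by
      rw [ds_nQ fun e => hO.ok.dis q e hq] at h2
      exact card_le_one.1 (show (nb V τ q ∩ E.Q).card ≤ 1 by omega) b hb a
        (mem_inter.2 ⟨nb_symm (hO.ok.subQ ha) hn, ha⟩)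
  have k1 : Tk ⊆ X := fun t ht => (hX t).2 ⟨(hk t ht).1, fun z hz =>
    (hk t ht).2.2 z (mem_inter.1 hz).1 (mem_inter.1 hz).2⟩
  have k2 : Yd.card ≤ (X \ Tk).card := by
    refine card_le_card_of_forall_subsingleton (fun d q => q ∈ nb V τ d ∧ ds V τ E q = 3)
      (fun d hd' => ?_) fun q hq a ha b hb => ?_
    · obtain ⟨h1, q, h2, h3 | h3⟩ := hO.ok.dr1 d (hd d hd').2
      · refine ⟨q, mem_sdiff.2 ⟨(hX q).2 ⟨h3.1, fun z hz => ?_⟩, fun e => ?_⟩, h2, h3.2⟩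
        · rw [one q h3.1 h3.2 d h1 h2 z hz]
          exact (hd d hd').1
        · have := (hk q e).2.1
          omega
      · simp [om] at h3
    · have h4 := hY (hd b hb.1).1
      exact (one q ((hX q).1 (mem_sdiff.1 hq).1).1 ha.2.2 a (hY (hd a ha.1).1) ha.2.1 b
        (mem_inter.2 ⟨nb_symm (hO.ok.subQ h4) hb.2.1, h4⟩)).symm
  have k3 := card_sdiff_add_card_eq_card k1
  have k4 := card_sdiff_add_card_eq_card (show X ⊆ E.T from fun t ht => ((hX t).1 ht).1)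
  have k5 := hO.ok.cT
  have k6 := card_union_le (E.T \ X) (Y \ Yi)
  have hA : Adm V τ E (E.Q \ Y) := ⟨sdiff_subset, fun w hw => by simp [om] at hw⟩
  have hC : Cov V τ (E.Q \ Y) (E.T \ X ∪ Y \ Yi) := fun b hb z hz => by
    obtain ⟨b1, b2⟩ := mem_sdiff.1 hb
    have b3 := nb_symm (hO.ok.subQ b1) hz
    rcases hO.ok.nbq b b1 z hz with q | q | q
    · by_cases y : z ∈ Y
      · exact .inr (mem_union_right _ (mem_sdiff.2 ⟨y, fun e =>
          ((hi z e).2 b b3).elim b2 (hO.ok.dis b b1)⟩))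
      · exact .inl (mem_sdiff.2 ⟨q, y⟩)
    · exact .inr (mem_union_left _ (mem_sdiff.2 ⟨q, fun e =>
        b2 (((hX z).1 e).2 (mem_inter.2 ⟨b3, b1⟩))⟩))
    · simp [om] at q
  have hD : Disjoint (E.Q \ Y) (E.T \ X ∪ Y \ Yi) := disjoint_left.2 fun z hz hz' =>
    (mem_union.1 hz').elim (fun e => hO.ok.dis z (mem_sdiff.1 hz).1 (mem_sdiff.1 e).1)
      fun e => (mem_sdiff.1 hz).2 (mem_sdiff.1 e).1
  refine ⟨fun h => by_contra fun h0 => ?_, fun h h2 => ?_⟩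
  · have := hO.ok.a1 (.inl hr) _ _ hA (card_pos.1 (by omega)) hC
    omega
  obtain ⟨b1, b2, -⟩ := hO.ok.a2 (.inl hr) _ _ hA h2 hC hD (by omega)
  have c1 : ∀ y, y ∉ Yi := fun y hy => by
    have q := hY (hi y hy).1
    exact hO.ok.dis y q (b1 y (.inl q) (fun e => (mem_sdiff.1 e).2 (hi y hy).1) fun e =>
      (mem_union.1 e).elim (fun e => hO.ok.dis y q (mem_sdiff.1 e).1)
        fun e => (mem_sdiff.1 e).2 hy).1
  refine ⟨c1, fun t ht => ?_, fun y hy => b2 y (mem_union_right _ (mem_sdiff.2 ⟨hy, c1 y⟩)) (hY hy),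
    by_contra fun h3 => ?_⟩
  · obtain ⟨q, q4, -⟩ := hk t ht
    have := (b1 t (.inr q) (fun e => hO.ok.dis t (mem_sdiff.1 e).1 q) fun e =>
      (mem_union.1 e).elim (fun e => (mem_sdiff.1 e).2 (k1 ht))
        fun e => hO.ok.dis t (hY (mem_sdiff.1 e).1) q).2
    omega
  · have e := hO.d3 hr _ _ sdiff_subset h2 hC hD (by omega) fun u hu =>
      (mem_union.1 hu).imp (fun e => (mem_sdiff.1 e).1) fun e =>
        not_lt.1 fun l => h3 ⟨u, (mem_sdiff.1 e).1, l⟩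
    obtain ⟨y, hy⟩ := hne
    have := hY hy
    rw [← e] at this
    exact (mem_sdiff.1 this).2 hy

theorem cpl_sound (hO : Ok3 m V τ E) (hS : Sat k V τ E v) {Y : ℕ} (h : cplOk m k Y = true) :
    False := by
  simp only [cplOk, frc_eq] at h
  obtain ⟨Yi, hYi⟩ : ∃ Yi, Yi = msk k.n fun y =>
    tb Y y && k.cl y && !nz (df (df (k.nm y) Y) k.lt) := ⟨_, rfl⟩
  obtain ⟨Tk, hTk⟩ : ∃ Tk, Tk = msk k.n fun t => tb k.lt t && Nat.ble 4 (dig k.ex t) && k.cl t &&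
    !nz (df (Nat.land (k.nm t) k.lq) Y) := ⟨_, rfl⟩
  rw [← hYi, ← hTk] at h
  simp only [Bool.and_eq_true, Bool.or_eq_true, Bool.not_eq_true', allB_iff,
    Nat.ble_eq, Nat.blt_eq, Nat.add_eq] at h
  obtain ⟨⟨⟨hr, h0⟩, h1⟩, h2, h3⟩ := h
  have y1 : ∀ j, tb Y j = true → j < k.n ∧ tb k.lq j = true := fun j hj => by
    have := (nz_false _).1 h1 j
    rw [tb_df, tb_land, tb_ful, hj] at this
    simpa [and_comm] using this
  have i1 : ∀ j, tb Yi j = true → j < k.n ∧ tb Y j = true ∧ k.cl j = true ∧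
      ∀ l < k.n, k.aj j l = true → tb Y l = true ∨ tb k.lt l = true := fun j hj => by
    rw [hYi, tb_msk] at hj
    simp only [Bool.and_eq_true, decide_eq_true_eq, Bool.not_eq_true', nz_false] at hj
    refine ⟨hj.1, hj.2.1.1, hj.2.1.2, fun l hl e => ?_⟩
    have := hj.2.2 l
    rw [tb_df, tb_df, (k.tb_nm j l).2 ⟨hl, e⟩] at this
    revert this
    cases tb Y l <;> cases tb k.lt l <;> simp
  have t1 : ∀ j, tb Tk j = true → j < k.n ∧ tb k.lt j = true ∧ 4 ≤ dig k.ex j ∧ k.cl j = true ∧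
      ∀ l, tb (Nat.land (k.nm j) k.lq) l = true → tb Y l = true := fun j hj => by
    rw [hTk, tb_msk] at hj
    simp only [Bool.and_eq_true, decide_eq_true_eq, Bool.not_eq_true', nz_false, Nat.ble_eq] at hj
    refine ⟨hj.1, hj.2.1.1.1, hj.2.1.1.2, hj.2.1.2, fun l e => ?_⟩
    have := hj.2.2 l
    rw [tb_df, e] at this
    simpa using this
  have hY : (bs k.n Y).image v ⊆ E.Q := fun z hz => by
    obtain ⟨j, hj, rfl⟩ := mem_image.1 hz
    exact hS.lq j (mem_bs.1 hj).1 (y1 j (mem_bs.1 hj).2).2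
  obtain ⟨c1, c2⟩ := rul6_core hO hr (Y := (bs k.n Y).image v) (Yi := (bs k.n Yi).image v)
    (Yd := (bs k.n (Nat.land Y k.dy)).image v) (Tk := (bs k.n Tk).image v) hY
    (by
      obtain ⟨j, hj⟩ := (nz_bit Y).1 h0
      exact ⟨v j, (rul3_mem hS Y (y1 j hj).1).2 hj⟩)
    (fun z hz => by
      obtain ⟨j, hj, rfl⟩ := mem_image.1 hz
      obtain ⟨a1, a2, a3, a4⟩ := i1 j (mem_bs.1 hj).2
      refine ⟨(rul3_mem hS Y a1).2 a2, fun z hz => ?_⟩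
      obtain ⟨l, hl, l1, rfl⟩ := cl_sound hO.ok hS a1 a3 hz (.inl (hS.lq j a1 (y1 j a2).2))
      exact (a4 l hl l1).imp (rul3_mem hS Y hl).2 (hS.lt l hl))
    (fun z hz => by
      obtain ⟨j, hj, rfl⟩ := mem_image.1 hz
      obtain ⟨a1, a2⟩ := mem_bs.1 hj
      rw [tb_land, Bool.and_eq_true] at a2
      exact ⟨(rul3_mem hS Y a1).2 a2.1, hS.dy j a1 a2.2⟩)
    (fun z hz => by
      obtain ⟨j, hj, rfl⟩ := mem_image.1 hz
      obtain ⟨a1, a2, a3, a4, a5⟩ := t1 j (mem_bs.1 hj).2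
      have a6 := hS.ex j a1 (by omega)
      have a7 : v j ∉ E.Q := fun e => hO.ok.dis _ e (hS.lt j a1 a2)
      refine ⟨hS.lt j a1 a2, by omega, fun z hz hq => ?_⟩
      simp only [K.cl, Bool.and_eq_true, Bool.or_eq_true, Nat.beq_eq, nz_iff, Nat.add_eq] at a4
      rcases a4 with ⟨⟨a8, -⟩, -⟩ | ⟨-, a8⟩
      · exact absurd (hS.lq j a1 a8) a7
      rw [ds_nQ a7, ← a8, ← card_img hS.inj] at a6
      have h5 := mem_inter.2 ⟨hz, hq⟩
      rw [← eq_of_subset_of_card_le (kf_b hO.ok hS a1) (by omega)] at h5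
      obtain ⟨l, hl, rfl⟩ := mem_image.1 h5
      exact (rul3_mem hS Y (mem_bs.1 hl).1).2 (a5 l (mem_bs.1 hl).2))
  have e1 : ((bs k.n Y).image v \ (bs k.n Yi).image v).card ≤ pc k.n (df Y Yi) := by
    rw [← card_img hS.inj]
    refine card_le_card fun z hz => ?_
    obtain ⟨z1, z2⟩ := mem_sdiff.1 hz
    obtain ⟨j, hj, rfl⟩ := mem_image.1 z1
    obtain ⟨a1, a2⟩ := mem_bs.1 hj
    rw [rul3_mem hS _ a1] at z2 ⊢
    simp [tb_df, a2, z2]
  have e2 : pc k.n (df k.lq Y) ≤ (E.Q \ (bs k.n Y).image v).card := by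
    rw [← card_img hS.inj]
    refine card_le_card fun z hz => ?_
    obtain ⟨j, hj, rfl⟩ := mem_image.1 hz
    obtain ⟨a1, a2⟩ := mem_bs.1 hj
    rw [tb_df, Bool.and_eq_true, Bool.not_eq_true'] at a2
    exact mem_sdiff.2 ⟨hS.lq j a1 a2.1, by rw [rul3_mem hS _ a1, a2.2]; decide⟩
  have e3 : m.q0 = true → 3 ≤ (E.Q \ (bs k.n Y).image v).card + pc k.n (df Y k.dy) := fun q => by
    rw [← card_img hS.inj]
    refine (hO.q3 q).trans ((card_le_card fun z hz => ?_).trans (card_union_le _ _))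
    obtain ⟨z1, z2⟩ := mem_sdiff.1 hz
    by_cases y : z ∈ (bs k.n Y).image v
    · obtain ⟨j, hj, rfl⟩ := mem_image.1 y
      obtain ⟨a1, a2⟩ := mem_bs.1 hj
      refine mem_union_right _ ((rul3_mem hS _ a1).2 ?_)
      rw [tb_df, a2, Bool.true_and, Bool.not_eq_true', ← Bool.not_eq_true]
      exact fun e => z2 (hS.dy j a1 e)
    · exact mem_union_left _ (mem_sdiff.2 ⟨z1, y⟩)
  rw [card_img hS.inj, card_img hS.inj] at c1 c2
  rcases h3 with ⟨h3, h4⟩ | ⟨h3, h4⟩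
  · have := c1 (by omega)
    rcases h4 with h4 | ⟨h4, h5⟩
    · omega
    · have := e3 h4
      omega
  obtain ⟨d1, d2, d3, y, hy, d4⟩ := c2 (by omega) (h3.elim (fun h5 => by omega) fun h5 => by
    have := e3 h5.1
    omega)
  rcases h4 with ((h4 | h4) | h4) | h4
  · obtain ⟨j, hj⟩ := (nz_bit _).1 h4
    exact d1 _ ((rul3_mem hS _ (i1 j hj).1).2 hj)
  · obtain ⟨j, hj⟩ := (nz_bit _).1 h4
    exact d2 _ ((rul3_mem hS _ (t1 j hj).1).2 hj)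
  · obtain ⟨j, hj⟩ := (nz_bit _).1 h4
    rw [tb_land, Bool.and_eq_true] at hj
    have a1 := (y1 j hj.1).1
    exact (hS.dn j a1 hj.2).2 (d3 ((rul3_mem hS _ a1).2 hj.1))
  · obtain ⟨j, hj, rfl⟩ := mem_image.1 hy
    obtain ⟨a1, a2⟩ := mem_bs.1 hj
    have h5 := (h4 j a1).resolve_left (by simp [a2])
    rw [← card_img hS.inj] at h5
    refine absurd (h5.trans (card_le_card fun z hz => ?_)) (not_le.2 d4)
    obtain ⟨l, hl, rfl⟩ := mem_image.1 hz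
    obtain ⟨l1, l2⟩ := mem_bs.1 hl
    rw [tb_land, tb_lor, Bool.and_eq_true, Bool.or_eq_true] at l2
    refine mem_sdiff.2 ⟨aj_sound hO.ok hS a1 l1 ((k.tb_nm j l).1 l2.1).2, fun e => ?_⟩
    rcases l2.2 with l3 | l3
    · exact (mem_sdiff.1 e).2 ((rul3_mem hS _ l1).2 l3)
    · exact hO.ok.dis _ (mem_sdiff.1 e).1 (hS.lt l l1 l3)

end Pool.Agent.Lib.MP_efe3d7_co.J
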