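import Pool.Agent.Lib.MP_efe3d7_co.J.Tre3
import Pool.Agent.Lib.MP_efe3d7_co.J.Rul5
import Pool.Agent.Lib.MP_efe3d7_co.J.Rul6
import Pool.Agent.Lib.MP_efe3d7_co.H.Snd

/-! Soundness of case trees. -/

set_option autoImplicit false

open Finset

namespace Pool.Agent.Lib.MP_efe3d7_co.J

open H

variable {α : Type} [Fintype α] [DecidableEq α] {x : ℝ}

omit [Fintype α] in
theorem le_ok3 {m m' : Md} {V : Finset α} {τ : Sym2 α → Fin 3} {E : Env α} (h : m'.le m = true)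
    (hO : Ok3 m V τ E) : Ok3 m' V τ E := by
  refine ⟨le_sound h hO.toOk2, fun e => hO.d3 ?_⟩
  simp only [Md.le, Bool.and_eq_true, beq_iff_eq] at h
  exact h.1.1.1.1.1 ▸ e

theorem conJ_sound {m : Md} {k : K} {V : Finset α} {τ : Sym2 α → Fin 3} {E : Env α} {v : ℕ → α}
    (hO : Ok3 m V τ E) (hS : Sat k V τ E v) {r i : ℕ} (h : conJ m k r i = true) : False := by
  unfold conJ at h
  cases e1 : Nat.beq r 16
  · cases e2 : Nat.beq r 17
    · rw [e1, e2] at h
      exact con_sound hO.toOk2 hS h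
    · rw [e1, e2] at h
      exact cpl_sound hO hS h
  · rw [e1] at h
    exact min_sound hO hS h

theorem rfw_sound {m m' : Md} {k k' : K} {σ z : ℕ} (h : rfwOk m k m' k' σ z = true)
    (hV : Valid α x m' k') : Valid α x m k := by
  intro V τ E v hO hS
  simp only [rfwOk, Bool.and_eq_true, Bool.not_eq_true', allB_iff, frc_eq, Bool.or_eq_true,
    Nat.beq_eq] at h
  obtain ⟨⟨⟨⟨⟨⟨⟨⟨a2, a4⟩, a5⟩, a6⟩, a8⟩, a9⟩, e3⟩, a11⟩, a12⟩ := h
  have hz := blt_lt a8
  have hq := hS.lq z hz a9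
  have hd : dg V τ (v z) = 3 := by rw [← ds_Q hq, hS.ex z hz (by omega), e3]
  have n : ∀ {P : Prop}, false = true → P := fun h => by cases h
  have hW : Ok3 mdW V τ (envW V τ (v z)) :=
    ⟨⟨hO.w a2 _ (hO.ok.subQ hq) hd, n, n, n, n, n⟩, n⟩
  have hb : ∀ i < k'.n, hx σ i < k.n := fun i hi => by
    simp only [subOk, Bool.and_eq_true, allB_iff, frc_eq] at a12
    exact blt_lt (a12.2 i hi).1.1.1.1.1.1.1
  have hn : ∀ i < k'.n, v (hx σ i) ≠ v z := fun i hi e =>
    nbeq (a11 i hi).1 (hS.inj _ (hb i hi) _ hz e)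
  have hs := sat_envW hO.ok a2 (sub_sound hO.ok hS a12) a5 a6 rfl hn
  refine hV V τ _ _ (le_ok3 a4 hW) { hs with dn := fun i hi e => ⟨?_, fun c => ?_⟩ }
  · exact (hs.mem i hi).resolve_right (notMem_empty _)
  · rcases (a11 i hi).2 with e1 | e1
    · rw [e] at e1
      cases e1
    · refine (mem_nb.1 c).2.2 ?_
      rw [Sym2.eq_swap]
      exact eP_one hO.ok hS (hb i hi) hz (nbeq (a11 i hi).1) e1

theorem chk_sound (L : BT) (N : ℕ) (hL : ∀ j < N, Valid α x (L.get j).1 (L.get j).2) (m : Md)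
    (t : Tr) : ∀ k, chk L N m t k = true → Valid α x m k := by
  induction t with
  | con r i => exact fun k h V τ E v hO hS => (conJ_sound hO hS h).elim
  | ref j σ =>
    intro k h V τ E v hO hS
    simp only [chk, Bool.and_eq_true] at h
    exact hL j (blt_lt h.1.1) V τ E _ (le_ok3 h.1.2 hO) (sub_sound hO.ok hS h.2)
  | rfw j σ z =>
    intro k h
    simp only [chk, Bool.and_eq_true] at h
    exact rfw_sound h.2 (hL j (blt_lt h.1))
  | loc i a b ia ib =>
    intro k h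
    simp only [chk, Bool.and_eq_true, K.frc_eq] at h
    exact v_loc (blt_lt h.1.1) (ia _ h.1.2) (ib _ h.2)
  | door i a b ia ib =>
    intro k h
    simp only [chk, Bool.and_eq_true, K.frc_eq] at h
    exact v_door (blt_lt h.1.1.1) h.1.1.2 (ia _ h.1.2) (ib _ h.2)
  | deg i a b ia ib =>
    intro k h
    simp only [chk, Bool.and_eq_true, K.frc_eq, frc_eq] at h
    exact v_deg (blt_lt h.1) (Nat.le_of_ble_eq_true h.2.1.1) (ia _ h.2.1.2) (ib _ h.2.2)
  | adj i j a b ia ib =>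
    intro k h
    simp only [chk, Bool.and_eq_true, Bool.not_eq_true'] at h
    exact v_adj (blt_lt h.1.1.1.1.1) (blt_lt h.1.1.1.1.2) (nbeq h.1.1.1.2)
      (Nat.le_of_ble_eq_true h.1.1.2) (v_frs ia h.1.2) (v_frs ib h.2)
  | typ i j a b ia ib =>
    intro k h
    simp only [chk, Bool.and_eq_true] at h
    exact v_typ (blt_lt h.1.1.1.1.1) (blt_lt h.1.1.1.1.2) h.1.1.1.2
      (Nat.le_of_ble_eq_true h.1.1.2) (v_frs ia h.1.2) (v_frs ib h.2)
  | fbd i j a b ia ib =>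
    intro k h
    simp only [chk, Bool.and_eq_true, K.frc_eq, Bool.not_eq_true', Bool.or_eq_true] at h
    obtain ⟨⟨⟨⟨⟨⟨⟨a1, a2⟩, -⟩, a4⟩, a5⟩, a6⟩, a7⟩, a8⟩ := h
    exact w_fbd (blt_lt a1) (blt_lt a2) a4 a5 a6 (ia _ a7) (v_frs ib a8)
  | exp i a ia =>
    intro k h
    simp only [chk, Bool.and_eq_true, K.frc_eq, Bool.not_eq_true'] at h
    obtain ⟨⟨⟨⟨⟨a1, a2⟩, a3⟩, a4⟩, a5⟩, a6⟩ := h
    exact w_exp (blt_lt a1) a2 a3 a4 (blt_lt a5) (v_frs ia a6)
  | prm i a ia =>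
    intro k h
    simp only [chk, Bool.and_eq_true, K.frc_eq, Bool.not_eq_true'] at h
    obtain ⟨⟨⟨⟨⟨a1, a2⟩, a3⟩, a4⟩, a5⟩, a6⟩ := h
    exact w_prm (blt_lt a1) a2 a3 a4 a5 (v_frs ia a6)
  | alx a b ia ib =>
    intro k h
    simp only [chk, Bool.and_eq_true, K.frc_eq] at h
    exact v_alx h.1.1 (ia _ h.1.2) (ib _ h.2)
  | ext i a ia =>
    intro k h
    simp only [chk, Bool.and_eq_true, K.frc_eq, Bool.not_eq_true'] at h
    obtain ⟨⟨⟨⟨⟨a1, -⟩, a3⟩, a4⟩, a5⟩, a6⟩ := h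
    exact w_ext (blt_lt a1) a3 a4 (blt_lt a5) (v_frs ia a6)

/-- The first `N` entries of the table are valid. -/
def VU (α : Type) [Fintype α] [DecidableEq α] (x : ℝ) (L : BT) (N : ℕ) : Prop :=
  ∀ j < N, Valid α x (L.get j).1 (L.get j).2

theorem VU.zero (L : BT) : VU α x L 0 := fun _ h => absurd h (Nat.not_lt_zero _)

theorem VU.succ {L : BT} {N : ℕ} (h : VU α x L N) (h' : Valid α x (L.get N).1 (L.get N).2) :
    VU α x L (N + 1) := fun j hj => by
  rcases Nat.lt_succ_iff_lt_or_eq.1 hj with e | e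
  · exact h j e
  · exact e ▸ h'

theorem chkL_sound (L : BT) (ts : List Tr) :
    ∀ N, chkL L ts N = true → VU α x L N → VU α x L (N + ts.length) := by
  induction ts with
  | nil => exact fun N _ h => h
  | cons t ts ih =>
    intro N h hL
    simp only [chkL, Bool.and_eq_true, frc_eq] at h
    have := ih _ h.2 (hL.succ (chk_sound L N hL _ t _ h.1))
    rwa [List.length_cons, ← add_assoc, add_right_comm]

end Pool.Agent.Lib.MP_efe3d7_co.J
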