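import Pool.Agent.Lib.MP_efe3d7_co.J.XB

/-! The leaves: isomorphisms. -/

set_option autoImplicit false

open Finset

namespace Pool.Agent.Lib.MP_efe3d7_co.J

open H

variable {α : Type} [Fintype α] [DecidableEq α]
variable {p : Pre} {h : ℕ} {g : Col} {V U : Finset α} {τ σ : Sym2 α → Fin 3} {v w : ℕ → α}
variable {fb : Bool} {n c M T o k : ℕ}

theorem isoC_sound {G code : ℕ} (hI : Iso n G V τ) (h : isoC n G code = true) :
    ∃ j ≤ 10, xn j = n ∧ Iso n (xt j) V τ := by
  obtain ⟨u, hu, hV, ht⟩ := hI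
  simp only [isoC, frc_eq, Bool.and_eq_true, allB_iff, Nat.ble_eq, Nat.beq_eq, Nat.blt_eq,
    Bool.not_eq_true', ← Bool.not_eq_true] at h
  obtain ⟨⟨hj, hn⟩, hall⟩ := h
  generalize Nat.mod code 16 = j at hj hn hall
  generalize Nat.shiftRight code 4 = s at hall
  have hlt : ∀ a < n, dig s a < n := fun a ha => (hall a ha).1
  have hinj : ∀ a < n, ∀ b < n, dig s a = dig s b → a = b := by
    intro a ha b hb e
    rcases lt_trichotomy a b with hab | hab | hab
    · exact absurd e.symm ((hall b hb).2 a hab).1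
    · exact hab
    · exact absurd e ((hall a ha).2 b hab).1
  have him : (range n).image (dig s) = range n := by
    refine eq_of_subset_of_card_le (fun z hz => ?_) ?_
    · obtain ⟨a, ha, rfl⟩ := mem_image.1 hz
      exact mem_range.2 (hlt a (mem_range.1 ha))
    · rw [card_image_of_injOn]
      intro a ha b hb e
      exact hinj a (mem_range.1 (mem_coe.1 ha)) b (mem_range.1 (mem_coe.1 hb)) e
  refine ⟨j, hj, hn, fun a => u (dig s a), fun a ha b hb e => ?_, ?_, fun a ha b hb hab => ?_⟩
  · exact hinj a ha b hb (hu _ (hlt a ha) _ (hlt b hb) e)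
  · rw [hV]
    conv_lhs => rw [← him, image_image]
    rfl
  · have e := ht _ (hlt a ha) _ (hlt b hb) fun e => hab (hinj a ha b hb e)
    refine e.trans ?_
    rcases lt_or_gt_of_ne hab with hab | hab
    · rw [ty_comm G, ty_comm (xt j)]
      exact ((hall b hb).2 a hab).2.symm
    · exact ((hall a ha).2 b hab).2.symm

theorem xi_lo {s o i : ℕ} (hi : i < s + o) : ww3 s o v w i = w i := if_pos hi

theorem xi_hi {s o i : ℕ} (hi : ¬ i < s + o) : ww3 s o v w i = v (i - o) := if_neg hi

theorem xi_ent (hS : XS p h V τ v) (hW : XW p o V v w) {co : ℕ}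
    (hc : ∀ i < p.s + o, ∀ l < p.s + o, i ≠ l → ty co i l = cs p τ w i l) {i l : ℕ}
    (hl : l < p.s + o + (p.n - p.s)) (hi : i < l) :
    (bif Nat.blt l (Nat.add p.s o) then
      Nat.add (ty co i l) (bif Nat.blt l p.s then ty h i l else 0) else
      bif Nat.blt i p.s then ty h i (Nat.sub l o) else
        bif Nat.blt i (Nat.add p.s o) then 0 else ty h (Nat.sub i o) (Nat.sub l o)) =
      (τ s(ww3 p.s o v w i, ww3 p.s o v w l)).val := by
  have sn := hS.sn
  simp only [Bool.cond_eq_ite, Nat.blt_eq, Nat.add_eq, Nat.sub_eq]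
  by_cases h1 : l < p.s + o
  · rw [if_pos h1, xi_lo h1, xi_lo (hi.trans h1), hc i (hi.trans h1) l h1 hi.ne, cs]
    by_cases h2 : l < p.s
    · rw [if_pos h2]
      have h3 : i < p.s := hi.trans h2
      by_cases hk : tb (fld p.kn i) l = true
      · rw [if_pos ⟨h3, h2, hk⟩, Nat.zero_add, ← hW.eq i h3, ← hW.eq l h2]
        exact (hS.hk i (by omega) l (by omega) hi.ne hk).symm
      · rw [if_neg (fun e => hk e.2.2), hS.pure i h3 l h2 hi.ne (by simpa using hk), Nat.add_zero]
    · rw [if_neg h2, if_neg (fun e => h2 e.2.1), Nat.add_zero]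
  · rw [if_neg h1, xi_hi h1]
    have a1 : l - o < p.n := by omega
    have a2 : p.s ≤ l - o := by omega
    by_cases h2 : i < p.s
    · rw [if_pos h2, xi_lo (by omega), ← hW.eq i h2]
      refine (hS.hk i (by omega) _ a1 (by omega) ?_).symm
      rw [hS.kns i (by omega) _ a1]
      exact hS.int _ a1 a2 i (by omega) (by omega)
    · rw [if_neg h2]
      by_cases h3 : i < p.s + o
      · rw [if_pos h3, xi_lo h3, Sym2.eq_swap]
        have h4 := hW.out i (by omega) h3
        rw [hS.cl _ a1 a2 _ h4.1 h4.2]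
        rfl
      · rw [if_neg h3, xi_hi h3]
        exact (hS.hk _ (by omega) _ a1 (by omega)
          (hS.int _ (by omega) (by omega) _ a1 (by omega))).symm

theorem xi_mix (hS : XS p h V τ v) (hW : XW p o V v w) {i l : ℕ} (hi : i < p.s + o)
    (hl : l < p.n) (hs : p.s ≤ l) : w i ≠ v l := by
  intro e
  by_cases h2 : i < p.s
  · rw [← hW.eq i h2] at e
    have := hS.inj i (by omega) l hl e
    omega
  · exact (hW.out i (by omega) hi).2 l hl e.symm

theorem whole_iso (hS : XS p h V τ v) (hW : XW p o V v w) {co : ℕ}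
    (hc : ∀ i < p.s + o, ∀ l < p.s + o, i ≠ l → ty co i l = cs p τ w i l) :
    Iso (p.s + o + (p.n - p.s)) (whole p.s o (Nat.sub p.n p.s) h co) V τ := by
  have sn := hS.sn
  have n8 := hS.n8
  have o8 := hW.o8
  have key : ∀ l < p.s + o + (p.n - p.s), ∀ i < l,
      ty (whole p.s o (Nat.sub p.n p.s) h co) i l =
        (τ s(ww3 p.s o v w i, ww3 p.s o v w l)).val := by
    intro l hl i hi
    refine (ty_bld (n := p.s + o + (p.n - p.s)) (by omega) (fun l hl i hi => ?_) hl hi).trans
      (xi_ent hS hW hc hl hi)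
    refine lt_of_eq_of_lt (xi_ent hS hW hc hl hi) ?_
    exact (Fin.is_lt _).trans (by norm_num)
  refine ⟨ww3 p.s o v w, fun i hi j hj e => ?_, ?_, fun i hi j hj hij => ?_⟩
  · by_cases h1 : i < p.s + o <;> by_cases h2 : j < p.s + o
    · rw [xi_lo h1, xi_lo h2] at e
      exact hW.inj i h1 j h2 e
    · rw [xi_lo h1, xi_hi h2] at e
      exact absurd e (xi_mix hS hW h1 (by omega) (by omega))
    · rw [xi_hi h1, xi_lo h2] at e
      exact absurd e.symm (xi_mix hS hW h2 (by omega) (by omega))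
    · rw [xi_hi h1, xi_hi h2] at e
      have := hS.inj _ (by omega) _ (by omega) e
      omega
  · ext z
    rw [mem_image]
    constructor
    · intro hz
      by_cases hv : ∃ l < p.n, v l = z
      · obtain ⟨l, hl, rfl⟩ := hv
        by_cases h2 : l < p.s
        · exact ⟨l, mem_range.2 (by omega), by rw [xi_lo (by omega), hW.eq l h2]⟩
        · exact ⟨l + o, mem_range.2 (by omega), by rw [xi_hi (by omega), Nat.add_sub_cancel]⟩
      · obtain ⟨j, -, h2, rfl⟩ := hW.all z hz fun l hl e => hv ⟨l, hl, e⟩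
        exact ⟨j, mem_range.2 (by omega), xi_lo h2⟩
    · rintro ⟨i, hi, rfl⟩
      rw [mem_range] at hi
      by_cases h1 : i < p.s + o
      · rw [xi_lo h1]
        by_cases h2 : i < p.s
        · rw [← hW.eq i h2]
          exact hS.mem i (by omega)
        · exact (hW.out i (by omega) h1).1
      · rw [xi_hi h1]
        exact hS.mem _ (by omega)
  · rcases lt_or_gt_of_ne hij with hij | hij
    · exact (key j hj i hij).symm
    · rw [ty_comm, Sym2.eq_swap]
      exact (key i hi j hij).symm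

theorem leaf_iso {x : ℝ} (hK : HK α x) (hS : XS p h V τ v) (hW : XW p o V v w) {co : ℕ}
    (hc : ∀ i < p.s + o, ∀ l < p.s + o, i ≠ l → ty co i l = cs p τ w i l)
    (hi : isoF p.s o (Nat.sub p.n p.s) h co = true) : Exc V τ ∨ 0 < FF x V τ := by
  have hI := whole_iso hS hW hc
  have hx : ∃ code, isoC (p.s + o + (p.n - p.s)) (whole p.s o (Nat.sub p.n p.s) h co) code
      = true := by
    rw [isoF, frc_eq, Bool.and_eq_true, frc_eq, frc_eq, Bool.or_eq_true, List.any_eq_true] at hi
    rcases hi.2 with h1 | ⟨c, -, h1⟩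
    · exact ⟨_, h1⟩
    · exact ⟨c, h1⟩
  obtain ⟨code, hx⟩ := hx
  obtain ⟨j, hj, hn, hJ⟩ := isoC_sound hI hx
  rw [← hn] at hJ
  rcases Nat.lt_or_eq_of_le hj with hj | rfl
  · exact Or.inl ⟨j, hj, hJ⟩
  · exact Or.inr (hK V τ hJ)

end Pool.Agent.Lib.MP_efe3d7_co.J
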