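import Pool.Agent.Lib.MP_efe3d7_co.J.Sem
import Pool.Agent.Lib.MP_efe3d7_co.H.Base

/-! The value of two windows glued along the terminals. -/

set_option autoImplicit false

open Finset

namespace Pool.Agent.Lib.MP_efe3d7_co.J

open H

variable {α : Type} [Fintype α] [DecidableEq α]

theorem pglue_ty0 (i j : ℕ) : ty 0 i j = 0 := by simp [ty, dig]

theorem pglue_one (n : ℕ) (w : ℕ → α) (s : ℕ) (hs : s ≤ 8)
    (hw : ∀ i < s, ∀ j < s, w i = w j → i = j) : ∀ q ∈ parts s,
    (n : ℝ) ^ s * SS n ((range s).image w) (fun _ => 1) w s q.1 =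
      (n : ℝ) ^ Fintype.card α * ∏ i ∈ range q.2, ((n : ℝ) - i) := by
  induction s with
  | zero =>
    intro q hq
    obtain rfl : q = (0, 0) := by simpa [parts] using hq
    simp [SS, Pat, W, pairs]
  | succ s ih =>
    intro q hq
    simp only [parts, List.mem_flatMap, List.mem_map, List.mem_range] at hq
    obtain ⟨p, hp, c, hc, rfl⟩ := hq
    have h1 := ih (by omega) (fun i hi j hj => hw i (by omega) j (by omega)) p hp
    have h2 := SS_peel 0 n ((range s).image w) (fun _ => 1) w (u := s) (ct := 0) (cs := p.1)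
      (d := p.2) (c := c) (by omega) (parts_RG (by omega) hp) (by omega)
      (fun h => by
        obtain ⟨i, hi, e⟩ := mem_image.1 h
        have := mem_range.1 hi
        have := hw i (by omega) s (by omega) e
        omega)
      (fun i hi => mem_image_of_mem w (mem_range.2 hi))
      (fun i hi j hj => hw i (by omega) j (by omega)) (fun _ _ _ => rfl)
      (fun j _ => by simp [pglue_ty0, wn])
    have h3 : facR 0 0 p.1 s c = 1 := prod_eq_one fun j _ => by simp [pglue_ty0, wn]
    rw [range_add_one, image_insert, pow_succ, mul_assoc, h2, h3, pat1_cond]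
    split_ifs
    · rw [prod_range_succ, mul_left_comm, h1]
      ring
    · rw [one_mul, h1]

theorem ff_glue {x : ℝ} (hx : 0 < x) {s o co ni ct : ℕ} {v w : ℕ → α} {y : Sym2 α → ℝ}
    (ho : s + o ≤ 8) (hn : s + ni ≤ 8) (hvw : ∀ i < s, v i = w i)
    (hv : ∀ i < s + ni, ∀ j < s + ni, v i = v j → i = j)
    (hw : ∀ i < s + o, ∀ j < s + o, w i = w j → i = j)
    (hd : ∀ i, s ≤ i → i < s + ni → ∀ j < s + o, v i ≠ w j)
    (h1 : ∀ i < s, ∀ j < i, y s(v i, v j) = wn (ee x) (ty co i j) * wn (ee x) (ty ct i j))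
    (h2 : ∀ i, s ≤ i → i < s + o → ∀ j < i, y s(w i, w j) = wn (ee x) (ty co i j))
    (h3 : ∀ i, s ≤ i → i < s + ni → ∀ j < i, y s(v i, v j) = wn (ee x) (ty ct i j))
    (h4 : ∀ i, s ≤ i → i < s + ni → ∀ j, s ≤ j → j < s + o → y s(v i, w j) = 1) :
    ff x ((range (s + o)).image w ∪ (Ico s (s + ni)).image v) y = glueR x s o co ni ct := by
  classical
  have hs : s ≤ 8 := by omega
  have hT : (range (s + o)).image w = (range s).image w ∪ (Ico s (s + o)).image w := by
    rw [← image_union, range_eq_Ico, range_eq_Ico, Ico_union_Ico_eq_Ico (by omega) (by omega)]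
  have hw' : ∀ i < s, ∀ j < s, w i = w j → i = j := fun i hi j hj => hw i (by omega) j (by omega)
  have mT : ∀ i < s, w i ∈ (range s).image w := fun i hi => mem_image_of_mem w (mem_range.2 hi)
  have nT : ∀ a ∈ (range s).image w, ¬ ∀ i < s, w i ≠ a := fun a ha h => by
    obtain ⟨i, hi, e⟩ := mem_image.1 ha
    exact h i (mem_range.1 hi) e
  let y0 : Sym2 α → ℝ := fun e =>
    if h : ∃ q : ℕ × ℕ, q.1 < s ∧ q.2 < q.1 ∧ e = s(w q.1, w q.2) then
      wn (ee x) (ty co h.choose.1 h.choose.2) else 1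
  have e0 : ∀ i < s, ∀ j < i, y0 s(w i, w j) = wn (ee x) (ty co i j) := fun i hi j hj => by
    have h : ∃ q : ℕ × ℕ, q.1 < s ∧ q.2 < q.1 ∧ s(w i, w j) = s(w q.1, w q.2) :=
      ⟨(i, j), hi, hj, rfl⟩
    obtain ⟨q1, q2, q3⟩ := h.choose_spec
    simp only [y0, dif_pos h]
    rcases Sym2.eq_iff.1 q3 with q4 | q4
    · rw [← hw' i hi _ q1 q4.1, ← hw' j (by omega) _ (by omega) q4.2]
    · rw [← hw' i hi _ (by omega) q4.1, ← hw' j (by omega) _ q1 q4.2, ty_comm]
  have ev : ∀ (t : ℝ) (l : List (ℕ × ℕ)) (f : ℕ × ℕ → Polynomial ℝ),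
      ((l.map f).sum).eval t = (l.map fun p => (f p).eval t).sum := fun t l f => by
    induction l with
    | nil => simp
    | cons a l ih => simp only [List.map_cons, List.sum_cons, Polynomial.eval_add, ih]
  have key : Polynomial.X ^ (s + o + ni) *
      Zp ((range (s + o)).image w ∪ (Ico s (s + ni)).image v) y =
      ((parts s).map fun p => Polynomial.X ^ Fintype.card α *
        (∏ i ∈ range p.2, (Polynomial.X - Polynomial.C (i : ℝ))) *
        (Polynomial.C (∏ u ∈ range s, facR (ee x) co p.1 u (dig p.1 u)) *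
          locP (ee x) co o s p.1 p.2 *
        (Polynomial.C (∏ u ∈ range s, facR (ee x) ct p.1 u (dig p.1 u)) *
          locP (ee x) ct ni s p.1 p.2))).sum := by
    refine poly_ext fun n => ?_
    rw [Polynomial.eval_mul, Polynomial.eval_pow, Polynomial.eval_X, eval_Zp,
      sum_parts n _ y v hs, ← List.sum_map_mul_left, ev]
    refine congrArg _ (List.map_congr_left fun p hp => ?_)
    have a1 := SS_loc (ee x) n y v ct ni ((range (s + o)).image w) s p.1 p.2 hn (parts_RG hs hp)
      (fun i hi => hvw i hi ▸ mem_image_of_mem w (mem_range.2 (by omega)))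
      (fun i h5 h6 h => by
        obtain ⟨j, hj, e⟩ := mem_image.1 h
        exact hd i h5 h6 j (mem_range.1 hj) e.symm) hv
      (fun i h5 h6 z hz h => by
        obtain ⟨j, hj, rfl⟩ := mem_image.1 hz
        refine h4 i h5 h6 j (not_lt.1 fun l => h j l (hvw j l)) (mem_range.1 hj)) h3
    have a2 : SS n ((range (s + o)).image w) y v s p.1 = SS n ((range (s + o)).image w) y w s p.1 :=
      sum_congr rfl fun c _ => @if_congr _ _ _ (_) (_) _ _ _ _
        (forall₂_congr fun i hi => forall₂_congr fun j hj => by rw [hvw i hi, hvw j hj]) rfl rfl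
    have a3 := SS_loc (ee x) n y w co o ((range s).image w) s p.1 p.2 ho (parts_RG hs hp) mT
      (fun i h5 h6 h => by
        obtain ⟨j, hj, e⟩ := mem_image.1 h
        have := mem_range.1 hj
        have := hw j (by omega) i h6 e
        omega) hw (fun i _ _ z hz h => (nT z hz h).elim) h2
    have a4 := SS_term (ee x) n _ y0 y w s ct p.1 mT hw' (fun a ha _ _ _ h => (nT a ha h).elim)
      fun i hi j hj => by rw [e0 i hi j hj, ← hvw i hi, ← hvw j (by omega), h1 i hi j hj]
    have a5 := SS_term (ee x) n _ (fun _ => 1) y0 w s co p.1 mT hw'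
      (fun a ha _ _ _ h => (nT a ha h).elim) fun i hi j hj => by rw [e0 i hi j hj, one_mul]
    have a6 := pglue_one n w s hs hw' p hp
    rw [← hT] at a3
    simp only [Polynomial.eval_mul, Polynomial.eval_pow, Polynomial.eval_X, Polynomial.eval_C,
      Polynomial.eval_prod, Polynomial.eval_sub]
    rw [← a6, pow_add, mul_assoc, a1, a2, pow_add, mul_assoc, mul_left_comm ((n : ℝ) ^ o), a3, a4,
      a5]
    ring
  have hc : ((range (s + o)).image w ∪ (Ico s (s + ni)).image v).card = s + o + ni := by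
    rw [card_union_of_disjoint, card_image_of_injOn, card_image_of_injOn, Nat.card_Ico,
      Nat.add_sub_cancel_left, card_range]
    · intro i hi j hj e
      exact hv i (mem_Ico.1 hi).2 j (mem_Ico.1 hj).2 e
    · intro i hi j hj e
      exact hw i (mem_range.1 hi) j (mem_range.1 hj) e
    · refine disjoint_left.2 fun z hz hz' => ?_
      obtain ⟨i, hi, rfl⟩ := mem_image.1 hz'
      obtain ⟨j, hj, e⟩ := mem_image.1 hz
      exact hd i (mem_Ico.1 hi).1 (mem_Ico.1 hi).2 j (mem_range.1 hj) e.symm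
  have k2 := congrArg (Polynomial.eval (1 + x)) key
  rw [Polynomial.eval_mul, Polynomial.eval_pow, Polynomial.eval_X, ev] at k2
  have hq : (1 + x) ^ Fintype.card α ≠ 0 := pow_ne_zero _ (by linarith)
  rw [ff, hc, div_eq_iff hq, mul_assoc, mul_comm (Polynomial.eval _ _), k2, glueR,
    ← List.sum_map_mul_left, ← List.sum_map_mul_right]
  refine congrArg _ (List.map_congr_left fun p _ => ?_)
  simp only [Polynomial.eval_mul, Polynomial.eval_pow, Polynomial.eval_X, Polynomial.eval_C,
    Polynomial.eval_prod, Polynomial.eval_sub, valR, falR]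
  ring

theorem ff_iso {x : ℝ} (hx : 0 < x) {n ct : ℕ} {V : Finset α} {τ : Sym2 α → Fin 3} (hn : n ≤ 8)
    (h : Iso n ct V τ) : FF x V τ = glueR x 0 n ct 0 0 := by
  obtain ⟨u, h1, h2, h3⟩ := h
  have := ff_glue hx (s := 0) (o := n) (co := ct) (ni := 0) (ct := 0) (v := u) (w := u)
    (y := fun e => wt (ee x) (τ e)) (by omega) (by omega) (fun _ _ => rfl) (by simp)
    (by simpa using h1) (by simp) (by simp)
    (fun i _ hi j hj => by rw [wt_wn, h3 i (by omega) j (by omega) (by omega)]) (by simp) (by simp)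
  simpa [FF, h2] using this

/-- A configuration all of whose vertices are closed is the whole graph. -/
theorem base_iso {m : Md} {k : K} {V : Finset α} {τ : Sym2 α → Fin 3} {E : Env α} {v : ℕ → α}
    (hO : Ok m V τ E) (hS : Sat k V τ E v) (h1 : 1 ≤ k.n) (h2 : k.n ≤ 16)
    (h : (allB k.n fun i => tb k.lq i && k.cl i && allB i fun j => Nat.ble (k.eP i j) 3) = true) :
    Iso k.n k.ct V τ := by
  simp only [Bool.and_eq_true, allB_iff, Nat.ble_eq] at h
  have hB : (range k.n).image v ⊆ V := fun z hz => by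
    obtain ⟨i, hi, rfl⟩ := mem_image.1 hz
    exact hO.memV (hS.mem i (mem_range.1 hi))
  have key : ∀ i < k.n, ∀ j < i, (τ s(v i, v j)).val = ty k.ct i j := fun i hi j hj =>
    base_ty hO hS h2 hi hj (h i hi).1.1 (h i hi).1.2 ((h i hi).2 j hj)
  refine ⟨v, hS.inj, Subset.antisymm ?_ hB, fun i hi j hj hij => ?_⟩
  · have := hO.con.2 _ ∅ hB ((nonempty_range_iff.2 (by omega)).image v) (by simp)
      fun a ha' b hb => by
        obtain ⟨i, hi, rfl⟩ := mem_image.1 ha'
        have hi' := mem_range.1 hi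
        obtain ⟨j, hj, -, rfl⟩ := cl_sound hO hS hi' (h i hi').1.2 hb
          (Or.inl (hS.lq i hi' (h i hi').1.1))
        exact Or.inl (mem_image_of_mem v (mem_range.2 hj))
    rwa [union_empty] at this
  · rcases lt_or_gt_of_ne hij with l | l
    · rw [Sym2.eq_swap, ty_comm, key j hj i l]
    · exact key i hi j l

end Pool.Agent.Lib.MP_efe3d7_co.J
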