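import Pool.Agent.Lib.MP_efe3d7_co.J.XB
import Pool.Agent.Lib.MP_efe3d7_co.J.PGlue

/-! The leaves: degrees and positivity. -/

set_option autoImplicit false

open Finset

namespace Pool.Agent.Lib.MP_efe3d7_co.J

open H

variable {α : Type} [Fintype α] [DecidableEq α]
variable {p : Pre} {h : ℕ} {g : Col} {V U : Finset α} {τ σ : Sym2 α → Fin 3} {v w : ℕ → α}
variable {fb : Bool} {n c M T o k : ℕ}

omit [Fintype α] in
theorem xl_sub (hS : XS p h V τ v) (hW : XW p o V v w) {co : ℕ}
    (hc : ∀ i < p.s + o, ∀ l < p.s + o, i ≠ l → ty co i l = cs p τ w i l) {i : ℕ} (hi : i < p.s) :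
    nb V τ (v i) ⊆ ((range p.n).filter fun l => nz (ty h i l) = true).image v ∪
      ((range (p.s + o)).filter fun l => nz (ty co i l) = true).image w := by
  intro z hz
  obtain ⟨z1, z2, z3⟩ : z ∈ V ∧ z ≠ v i ∧ τ s(v i, z) ≠ 0 := by simpa [nb] using hz
  have z4 : (τ s(v i, z)).val ≠ 0 := fun e => z3 (Fin.ext e)
  have hn := hS.sn
  by_cases hz' : ∃ l < p.n, v l = z
  · obtain ⟨l, hl, rfl⟩ := hz'
    have hil : i ≠ l := fun e => z2 (by rw [e])
    by_cases hk : tb (fld p.kn i) l = true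
    · refine mem_union_left _ (mem_image_of_mem v (mem_filter.2 ⟨mem_range.2 hl, ?_⟩))
      rw [nz_iff, ← hS.hk i (by omega) l hl hil hk]
      exact z4
    · have hls : l < p.s := by
        by_contra hs
        exact hk (by rw [hS.kns i (by omega) l hl]; exact hS.int l hl (by omega) i (by omega) hil.symm)
      refine mem_union_right _ (mem_image.2 ⟨l, mem_filter.2 ⟨mem_range.2 (by omega), ?_⟩,
        (hW.eq l hls).symm⟩)
      rw [nz_iff, hc i (by omega) l (by omega) hil, cs, if_neg (fun e => hk e.2.2), ← hW.eq i hi,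
        ← hW.eq l hls]
      exact z4
  · obtain ⟨j, j1, j2, rfl⟩ := hW.all z z1 fun l hl e => hz' ⟨l, hl, e⟩
    refine mem_union_right _ (mem_image_of_mem w (mem_filter.2 ⟨mem_range.2 j2, ?_⟩))
    rw [nz_iff, hc i (by omega) j j2 (by omega), cs, if_neg (fun e => by omega), ← hW.eq i hi]
    exact z4

theorem leaf_deg (hS : XS p h V τ v) (hW : XW p o V v w) {co : ℕ}
    (hc : ∀ i < p.s + o, ∀ l < p.s + o, i ≠ l → ty co i l = cs p τ w i l) :
    dgBad p.s (Nat.add p.s o) (rqM p h) co = false := by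
  rw [← Bool.not_eq_true, dgBad, anyB_iff]
  rintro ⟨i, hi, hb⟩
  have e : fld (rqM p h) i = (bif tb p.d5 i then 5 else bif tb p.d4 i then 4 else 3) -
      cnt p.n fun l => nz (ty h i l) := by
    refine fld_pk (g := fun i => (bif tb p.d5 i then 5 else bif tb p.d4 i then 4 else 3) -
      cnt p.n fun l => nz (ty h i l)) (fun l _ => ?_) hi
    refine lt_of_le_of_lt (Nat.sub_le _ _) ?_
    cases tb p.d5 l <;> cases tb p.d4 l <;> simp
  rw [frc_eq, Bool.and_eq_true, Nat.blt_eq, e, cnt_eq, cnt_eq] at hb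
  have h1 := (hS.deg i hi).trans ((card_le_card (xl_sub hS hW hc hi)).trans
    ((card_union_le _ _).trans (Nat.add_le_add card_image_le card_image_le)))
  have h2 := hb.2
  have h3 : Nat.add p.s o = p.s + o := rfl
  rw [h3] at h2
  omega

theorem leaf_glue {x : ℝ} (hx : 0 < x) (hS : XS p h V τ v) (hW : XW p o V v w) {co : ℕ}
    (hc : ∀ i < p.s + o, ∀ l < p.s + o, i ≠ l → ty co i l = cs p τ w i l) :
    FF x V τ = glueR x p.s o co (Nat.sub p.n p.s) h := by
  have hn := hS.sn
  have e : p.s + Nat.sub p.n p.s = p.n := Nat.add_sub_cancel' hn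
  have hV : V = (range (p.s + o)).image w ∪ (Ico p.s p.n).image v := by
    ext z
    simp only [mem_union, mem_image, mem_range, mem_Ico]
    constructor
    · intro hz
      by_cases hz' : ∃ l < p.n, v l = z
      · obtain ⟨l, hl, rfl⟩ := hz'
        by_cases hls : l < p.s
        · exact Or.inl ⟨l, by omega, (hW.eq l hls).symm⟩
        · exact Or.inr ⟨l, ⟨by omega, hl⟩, rfl⟩
      · obtain ⟨j, -, j2, rfl⟩ := hW.all z hz fun l hl e => hz' ⟨l, hl, e⟩
        exact Or.inl ⟨j, j2, rfl⟩
    · rintro (⟨j, hj, rfl⟩ | ⟨l, hl, rfl⟩)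
      · by_cases hs : j < p.s
        · rw [← hW.eq j hs]
          exact hS.mem j (by omega)
        · exact (hW.out j (by omega) hj).1
      · exact hS.mem l hl.2
  have w0 : wn (ee x) 0 = 1 := by simp [wn]
  have key := ff_glue (α := α) hx (s := p.s) (o := o) (co := co) (ni := Nat.sub p.n p.s) (ct := h)
    (v := v) (w := w) (y := fun e => wt (ee x) (τ e)) hW.o8 (by rw [e]; exact hS.n8) hW.eq
    (by rw [e]; exact hS.inj) hW.inj ?_ ?_ ?_ ?_ ?_
  · rw [e, ← hV] at key
    exact key
  · intro i i1 i2 j hj he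
    rw [e] at i2
    by_cases hs : j < p.s
    · have := hS.inj i i2 j (by omega) (he.trans (hW.eq j hs).symm)
      omega
    · exact (hW.out j (by omega) hj).2 i i2 he
  · intro i hi j hj
    rw [wt_wn, hc i (by omega) j (by omega) (by omega), cs]
    by_cases hk : tb (fld p.kn i) j = true
    · rw [if_pos ⟨hi, by omega, hk⟩, w0, one_mul, hS.hk i (by omega) j (by omega) (by omega) hk]
    · rw [if_neg (fun e => hk e.2.2), hS.pure i hi j (by omega) (by omega) (by simpa using hk), w0,
        mul_one, hW.eq i hi, hW.eq j (by omega)]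
  · intro i i1 i2 j hj
    rw [wt_wn, hc i i2 j (by omega) (by omega), cs, if_neg (fun e => by omega)]
  · intro i i1 i2 j hj
    rw [e] at i2
    rw [wt_wn, hS.hk i i2 j (by omega) (by omega) (hS.int i i2 i1 j (by omega) (by omega))]
  · intro i i1 i2 j j1 j2
    rw [e] at i2
    rw [hS.cl i i2 i1 (w j) (hW.out j j1 j2).1 (hW.out j j1 j2).2]
    simp [wt]

end Pool.Agent.Lib.MP_efe3d7_co.J
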