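import Pool.Agent.Lib.MP_efe3d7_co.J.XB

/-! The types at the merged vertices. -/

set_option autoImplicit false

open Finset

namespace Pool.Agent.Lib.MP_efe3d7_co.J

open H

variable {α : Type} [Fintype α] [DecidableEq α]
variable {p : Pre} {h : ℕ} {g : Col} {V U : Finset α} {τ σ : Sym2 α → Fin 3} {v w : ℕ → α}
variable {fb : Bool} {n c M T o k : ℕ}

theorem xn2_in (hm : g.mg = true) (i : ℕ) : inM g i = true ↔ i = g.a ∨ i = g.b := by
  simp only [inM, hm, Bool.true_and, Bool.or_eq_true, Nat.beq_eq]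

omit [Fintype α] [DecidableEq α] in
theorem xn2_lt (i l : ℕ) : cs p τ w i l < 3 := by
  unfold cs
  split_ifs
  exacts [by omega, Fin.is_lt _]

omit [Fintype α] in
theorem xn2_comm (hS : XS p h V τ v) (i l : ℕ) : cs p τ w i l = cs p τ w l i := by
  have := hS.sn
  rw [cs, cs, Sym2.eq_swap]
  exact if_congr ⟨fun ⟨a, b, e⟩ => ⟨b, a, hS.kns i (by omega) l (by omega) ▸ e⟩,
    fun ⟨a, b, e⟩ => ⟨b, a, hS.kns l (by omega) i (by omega) ▸ e⟩⟩ rfl rfl

omit [Fintype α] in
theorem xn2_sig (hS : XS p h V τ v) (hB : TyB p g.ni g.ct) (hC : ColG p g.ni g.ct V τ v U σ)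
    (hW : XW p o V v w) {a l : ℕ} (ha : a < p.s) (hl : l < p.s + o) (e : a ≠ l) :
    (σ s(v a, w l)).val = sig p g a l (cs p τ w a l) := by
  have := hS.sn
  simp only [sig, fx, cs, Bool.cond_eq_ite, Bool.and_eq_true, Bool.or_eq_true, Nat.blt_eq, nz_iff]
  rw [← hW.eq a ha]
  rcases lt_or_ge l p.s with b | b
  · have b1 := (hB.2 a (by omega) l (by omega) e).2
    rw [← hW.eq l b, hC.inn a (by omega) l (by omega) e, hS.kns l (by omega) a (by omega),
      ty_comm g.ct l a]
    by_cases b2 : tb (fld p.kn a) l = true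
    · simp [b, b2]
    · obtain b3 | b3 : ty g.ct a l = 0 ∨ ty g.ct a l = 1 := by
        have := b1.resolve_left b2
        omega
      all_goals simp [b, b2, b3]
  · rw [if_neg (by omega), if_neg (by omega), Sym2.eq_swap, hC.out _ _ (hW.out l b hl).2]

omit [Fintype α] in
theorem xn2_ok (hS : XS p h V τ v) (hG : XG fb p g V τ v) (hW : XW p o V v w) (hm : g.mg = true)
    {l : ℕ} (hl : l < p.s + o) : okM fb p g l (cs p τ w g.a l) (cs p τ w g.b l) = true := by
  obtain ⟨a1, a2, -⟩ := hG.mg hm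
  rw [xn2_comm hS g.a, xn2_comm hS g.b]
  simp only [okM, cs, Bool.cond_eq_ite, Nat.blt_eq]
  rcases lt_or_ge l p.s with b | b
  · simp only [b, a1, a2, true_and, if_true]
    cases tb (fld p.kn l) g.a <;> cases tb (fld p.kn l) g.b <;> rfl
  · have b1 := hG.fb hm _ (hW.out l b hl).1 (hW.out l b hl).2
    rw [hW.eq _ a1, hW.eq _ a2, Sym2.eq_swap, Sym2.eq_swap (a := w g.b)] at b1
    simp only [b.not_gt, false_and, if_false]
    generalize τ s(w l, w g.a) = x at b1 ⊢
    generalize τ s(w l, w g.b) = y at b1 ⊢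
    clear hG
    revert fb x y
    decide

omit [Fintype α] in
theorem dM_sound (hS : XS p h V τ v) (hG : XG fb p g V τ v) (hC : ColG p g.ni g.ct V τ v U σ)
    (hL : Lb n c M T) (hT : XT p g n c M T o k V σ v w) (hm : g.mg = true) {q : ℕ → ℕ → Bool}
    {N R ad : ℕ} (hN : N ≤ p.s + o) (hR : tb R k = true) (hd : dM fb p g M c q N R ad = true) :
    ∃ R' ad', tb R' k = true ∧ q R' ad' = true ∧ ∀ i < p.s + o, ∀ l < p.s + o, i ≠ l →
      ty ad' i l = if (inM g i = true ∧ inM g l = false ∧ l < N) ∨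
        (inM g l = true ∧ inM g i = false ∧ i < N) then cs p τ w i l else ty ad i l := by
  obtain ⟨a1, a2, a3, -⟩ := hG.mg hm
  have o8 := hT.xw.o8
  have sz := hT.sz
  rw [if_pos hm] at sz
  simp only [← Bool.not_eq_true, xn2_in hm]
  induction N generalizing R ad with
  | zero => exact ⟨R, ad, hR, hd, fun i _ l _ _ => (if_neg (by omega)).symm⟩
  | succ N ih =>
    replace hd : (bif inM g N then dM fb p g M c q N R ad else allB 3 fun t => allB 3 fun t' =>
      !okM fb p g N t t' || frc (Nat.land R (gm M c (rh g g.a) (rh g N)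
        (parN (sig p g g.a N t) (sig p g g.b N t')))) fun R => !big R ||
          frc (slt (sdg (sdg ad (px g.a N) t) (px g.b N) t')) (dM fb p g M c q N R)) = true := hd
    rw [Bool.cond_eq_ite] at hd
    simp only [xn2_in hm] at hd
    split_ifs at hd with b
    · obtain ⟨R', ad', h1, h2, h3⟩ := ih (by omega) hR hd
      exact ⟨R', ad', h1, h2, fun i hi l hl e => (h3 i hi l hl e).trans (if_congr (by omega) rfl rfl)⟩
    have e1 : ∀ i, rh g i = if g.b < i then i - 1 else i := fun i => by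
      simp only [rh, hm, Bool.true_and, Bool.cond_eq_ite, Nat.blt_eq, Nat.pred_eq_sub_one]
    have e2 := hT.xtab g.a (by omega) N (by omega) (by omega) (by omega) (by omega)
    rw [cT, if_pos hm, ww3, ww3, if_pos (by omega), if_pos (by omega), ← hT.xw.eq _ a1, mg_self,
      parN_val, xn2_sig hS hG.tyb hC hT.xw a1 hN (by omega),
      xn2_sig hS hG.tyb hC hT.xw a2 hN (by omega)] at e2
    have e3 := hL.m k hT.k1 hT.k2 (rh g g.a) (by rw [e1]; split_ifs <;> omega) (rh g N)
      (by rw [e1]; split_ifs <;> omega) (by rw [e1, e1]; split_ifs <;> omega)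
    rw [← e2] at e3
    replace e3 := (tb_land R _ k).trans ((Bool.and_eq_true _ _).mpr ⟨hR, e3⟩)
    have e4 := (allB_iff _ _).1 ((allB_iff _ _).1 hd _ (xn2_lt (p := p) (τ := τ) (w := w) g.a N)) _
      (xn2_lt (p := p) (τ := τ) (w := w) g.b N)
    rw [xn2_ok hS hG hT.xw hm hN, frc_eq, frc_eq, big_of hT.k1 e3] at e4
    obtain ⟨R', ad', h1, h2, h3⟩ := ih (by omega) e3 e4
    refine ⟨R', ad', h1, h2, fun i hi l hl e => ?_⟩
    rw [h3 i hi l hl e, ty_slt _ e, ty_sdg _ (by omega) (by omega) (by omega) (by omega)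
      ((xn2_lt _ _).trans (by omega)), ty_sdg _ (by omega) (by omega) (by omega) (by omega)
      ((xn2_lt _ _).trans (by omega))]
    by_cases c1 : (i = g.b ∧ l = N) ∨ (i = N ∧ l = g.b)
    · rw [if_neg (by omega), if_pos c1, if_pos (by omega)]
      rcases c1 with ⟨rfl, rfl⟩ | ⟨rfl, rfl⟩
      exacts [rfl, xn2_comm hS _ _]
    by_cases c2 : (i = g.a ∧ l = N) ∨ (i = N ∧ l = g.a)
    · rw [if_neg (by omega), if_neg c1, if_pos c2, if_pos (by omega)]
      rcases c2 with ⟨rfl, rfl⟩ | ⟨rfl, rfl⟩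
      exacts [rfl, xn2_comm hS _ _]
    rw [if_neg c1, if_neg c2]
    exact if_congr (by omega) rfl rfl

end Pool.Agent.Lib.MP_efe3d7_co.J
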