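import Pool.Agent.Lib.MP_efe3d7_co.J.XN1
import Pool.Agent.Lib.MP_efe3d7_co.J.XN2

/-! The search reaches the true outer part. -/

set_option autoImplicit false

open Finset

namespace Pool.Agent.Lib.MP_efe3d7_co.J

open H

variable {α : Type} [Fintype α] [DecidableEq α]
variable {p : Pre} {h : ℕ} {g : Col} {V U : Finset α} {τ σ : Sym2 α → Fin 3} {v w : ℕ → α}
variable {fb : Bool} {n c M T o k : ℕ}

omit [Fintype α] in
theorem xn3_cs_comm (hS : XS p h V τ v) (i l : ℕ) : cs p τ w i l = cs p τ w l i := by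
  unfold cs
  rw [Sym2.eq_swap (a := w i)]
  by_cases k : i < p.s ∧ l < p.s
  · have := hS.sn
    rw [hS.kns i (by omega) l (by omega)]
    simp only [k.1, k.2, true_and]
  · rw [if_neg fun e => k ⟨e.1, e.2.1⟩, if_neg fun e => k ⟨e.2.1, e.1⟩]

theorem xn3_inM {i : ℕ} : inM g i = true ↔ g.mg = true ∧ (i = g.a ∨ i = g.b) := by
  simp [inM]

omit [Fintype α] in
theorem xn3_read (hS : XS p h V τ v) (hG : XG fb p g V τ v) (hC : ColG p g.ni g.ct V τ v U σ)
    (hT : XT p g n c M T o k V σ v w) {i l : ℕ} (hil : i < l) (hl : l < p.s + o)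
    (mi : inM g i = false) (ml : inM g l = false) (hf : l < p.s → fx p g i l = false) :
    ty (xtab T k) (rh g i) (rh g l) = cs p τ w i l := by
  have ni : ¬ (g.mg = true ∧ (i = g.a ∨ i = g.b)) := by rw [← xn3_inM, mi]; simp
  have nl : ¬ (g.mg = true ∧ (l = g.a ∨ l = g.b)) := by rw [← xn3_inM, ml]; simp
  have sn := hS.sn
  rw [← hT.xtab i (by omega) l (by omega) hil.ne (fun e => ni ⟨e.1, Or.inr e.2⟩)
    (fun e => nl ⟨e.1, Or.inr e.2⟩), ww3, ww3, if_pos (by omega), if_pos hl]
  have e1 : cT g v σ s(w i, w l) = σ s(w i, w l) := by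
    unfold cT
    split_ifs with hm
    · have ha := (hG.mg hm).1
      refine mg_of_ne σ _ ?_ ?_
      · intro e
        rw [hT.xw.eq _ ha] at e
        exact ni ⟨hm, Or.inl (hT.xw.inj _ (by omega) _ (by omega) e)⟩
      · intro e
        rw [hT.xw.eq _ ha] at e
        exact nl ⟨hm, Or.inl (hT.xw.inj _ (by omega) _ (by omega) e)⟩
    · rfl
  rw [e1, cs]
  by_cases ls : l < p.s
  · have k1 := hf ls
    rw [fx, Bool.or_eq_false_iff, ← hS.kns i (by omega) l (by omega), ← Bool.not_eq_true (nz _),
      nz_iff, not_not, ty_comm] at k1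
    rw [if_neg (by simp [k1.1]), ← hT.xw.eq i (by omega), ← hT.xw.eq l ls,
      hC.inn i (by omega) l (by omega) hil.ne, if_neg (by simp [k1.1]), if_neg (by simp [k1.2])]
  · rw [if_neg fun e => ls e.2.1, Sym2.eq_swap, hC.out _ _ (hT.xw.out l (by omega) hl).2]

theorem xN_sound (hS : XS p h V τ v) (hG : XG fb p g V τ v) (hC : ColG p g.ni g.ct V τ v U σ)
    (hL : Lb n c M T) (hT : XT p g n c M T o k V σ v w) {P : PD} {RQ R : ℕ} (hR : tb R k = true)
    (hx : xN fb P p h RQ g n c M T R = true) :
    ∃ co, leaf P p h RQ o co = true ∧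
      ∀ i < p.s + o, ∀ l < p.s + o, i ≠ l → ty co i l = cs p τ w i l := by
  have o8 := hT.xw.o8
  have sn := hS.sn
  have e1 : (bif g.mg then Nat.succ n else n) = p.s + g.ni + o := by
    rw [hT.sz]
    cases g.mg <;> rfl
  have e2 : Nat.blt (p.s + g.ni + o) (Nat.add p.s g.ni) = false := by
    rw [← Bool.not_eq_true, Nat.blt_eq]
    show ¬ p.s + g.ni + o < p.s + g.ni
    omega
  have e3 : Nat.sub (p.s + g.ni + o) (Nat.add p.s g.ni) = o := Nat.add_sub_cancel_left _ _
  have b1 := base_bit hS hG hC hL hT ((tb_salt R g.ct hT.k1).trans hR)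
  unfold xN at hx
  simp only [frc_eq] at hx
  rw [e1, e2, e3, big_of hT.k1 b1, Bool.false_or, Bool.not_true, Bool.false_or] at hx
  generalize base p g M c o _ = R1 at hx b1
  have e4 : Nat.add p.s o = p.s + o := rfl
  rw [e4] at hx
  obtain ⟨R2, ad, b2, hq, had⟩ : ∃ R2 ad, tb R2 k = true ∧ bits (fun k => dF (frM p g)
      (fun ad => leaf P p h RQ o (slt (Nat.lor (slt (Nat.land (bif g.mg then bld (p.s + o) fun i l =>
        ty (xtab T k) (rh g i) (rh g l) else xtab T k) (rdM p g (p.s + o)))) ad)))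
      (bif nz (frM p g) then p.s else 0) ad) c R2 = true ∧ ∀ i < p.s + o, ∀ l < p.s + o, i ≠ l →
      ty ad i l = if inM g i = inM g l then 0 else cs p τ w i l := by
    cases hm : g.mg with
    | true =>
      rw [hm] at hx
      obtain ⟨R2, ad, k1, k2, k3⟩ := dM_sound hS hG hC hL hT hm le_rfl b1 hx
      refine ⟨R2, ad, k1, k2, fun i hi l hl hil => ?_⟩
      rw [k3 i hi l hl hil, ty, dig_zero]
      cases inM g i <;> cases inM g l <;> simp [hi, hl]
    | false =>
      rw [hm] at hx
      refine ⟨R1, 0, b1, hx, fun i _ l _ _ => ?_⟩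
      rw [ty, dig_zero, if_pos (by simp [inM, hm])]
  have hq2 := bits_sound hq hT.k1 b2
  obtain ⟨ad', k1, k2⟩ := dF_sound (by cases nz (frM p g) <;> simp; omega)
    hq2 (fun m => cs p τ w (m % 16) (m / 16)) (fun m => by
      unfold cs
      split_ifs
      · norm_num
      · exact Fin.is_lt _)
  refine ⟨_, k1, ?_⟩
  have key : ∀ l < p.s + o, ∀ i < l, ty (slt (Nat.lor (slt (Nat.land (bif g.mg then
      bld (p.s + o) fun i l => ty (xtab T k) (rh g i) (rh g l) else xtab T k) (rdM p g (p.s + o))))
      ad')) i l = cs p τ w i l := by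
    intro l hl i hi
    have px' : px i l = 16 * l + i := by rw [bit2_px, if_pos hi.le]
    have d1 : (16 * l + i) / 16 = l := by omega
    have d2 : (16 * l + i) % 16 = i := by omega
    have eX : ty (bif g.mg then bld (p.s + o) fun i l => ty (xtab T k) (rh g i) (rh g l)
        else xtab T k) i l = ty (xtab T k) (rh g i) (rh g l) := by
      cases hm : g.mg with
      | true => exact ty_bld (by omega) (fun _ _ _ _ => dig_lt _ _) hl hi
      | false => simp [rh, hm]
    have eD : ty (rdM p g (p.s + o)) i l =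
        bif inM g i || inM g l || (Nat.blt l p.s && fx p g i l) then 0 else 7 :=
      ty_bld (by omega) (fun l _ i _ => by
        cases (inM g i || inM g l || (Nat.blt l p.s && fx p g i l)) <;> simp) hl hi
    have eA : ty ad' i l = if l < p.s ∧ (!(inM g i || inM g l) && !tb (fld p.kn l) i &&
        nz (ty g.ct l i)) = true then cs p τ w i l else
          if inM g i = inM g l then 0 else cs p τ w i l := by
      rw [← had i (by omega) l hl hi.ne, ty, k2, px', d1, d2]
      refine if_congr ⟨fun ⟨a1, a2, _⟩ => ?_, fun ⟨a1, a2⟩ => ?_⟩ rfl (by rw [ty, px'])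
      · have ls : l < p.s := by
          revert a2
          cases nz (frM p g) <;> simp
        exact ⟨ls, by rwa [tb_frM p g (by omega) ls hi] at a1⟩
      · rw [← tb_frM p g (by omega) a1 hi] at a2
        exact ⟨a2, by rw [(nz_bit _).2 ⟨_, a2⟩]; exact a1, hi⟩
    rw [ty_slt _ hi.ne, ty, dig_lor, ← ty, ← ty, ty_slt _ hi.ne, ty, dig_land, ← ty, ← ty, eX, eD,
      eA]
    have z1 : ∀ x y : ℕ, Nat.lor (Nat.land x 0) y = y := fun x y => by
      show (x &&& 0) ||| y = y
      simp
    cases mi : inM g i <;> cases ml : inM g l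
    · by_cases ls : l < p.s ∧ fx p g i l = true
      · have k3 : Nat.blt l p.s = true := by rw [Nat.blt_eq]; exact ls.1
        have k4 := ls.2
        rw [k3, k4]
        simp only [Bool.or_false, Bool.and_true, Bool.false_or, cond_true, z1, Bool.not_false,
          Bool.true_and, if_true]
        split_ifs with k5
        · rfl
        · rw [cs, if_pos]
          refine ⟨by omega, ls.1, ?_⟩
          rw [hS.kns i (by omega) l (by omega)]
          rw [fx] at k4
          revert k4 k5
          cases tb (fld p.kn l) i <;> simp [ls.1]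
      · have k3 : (Nat.blt l p.s && fx p g i l) = false := by
          rw [← Bool.not_eq_true, Bool.and_eq_true, Nat.blt_eq]
          exact ls
        have k4 : l < p.s → fx p g i l = false := fun e => by simpa [e] using ls
        rw [k3, if_neg, if_pos rfl, ← xn3_read hS hG hC hT hi hl mi ml k4]
        · have := dig_lt (xtab T k) (px (rh g i) (rh g l))
          rw [ty]
          generalize dig _ _ = x at this
          interval_cases x <;> rfl
        · rintro ⟨a1, a2⟩
          have := k4 a1
          rw [fx, Bool.or_eq_false_iff] at this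
          simp [this.2] at a2
    · simp
    · simp
    · obtain ⟨hm, a1⟩ := xn3_inM.1 mi
      obtain ⟨-, a2⟩ := xn3_inM.1 ml
      obtain ⟨c1, c2, c3, c4⟩ := hG.mg hm
      have c5 := (hS.kns _ (by omega) _ (by omega)).symm.trans c4
      have : cs p τ w i l = 0 := by
        rw [cs, if_pos]
        rcases a1 with rfl | rfl <;> rcases a2 with rfl | rfl
        exacts [absurd hi (lt_irrefl _), ⟨c1, c2, c4⟩, ⟨c2, c1, c5⟩, absurd hi (lt_irrefl _)]
      simp [this]
  intro i hi l hl hil
  rcases lt_or_gt_of_ne hil with k3 | k3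
  · exact key l hl i k3
  · rw [ty_comm, xn3_cs_comm hS]
    exact key i hi l k3

end Pool.Agent.Lib.MP_efe3d7_co.J
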