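import Pool.Agent.Lib.MP_efe3d7_co.J.XA

/-! The labelling of an exceptional column. -/

set_option autoImplicit false

open Finset

namespace Pool.Agent.Lib.MP_efe3d7_co.J

open H

variable {α : Type} [Fintype α] [DecidableEq α]
variable {p : Pre} {h : ℕ} {g : Col} {V U : Finset α} {τ σ : Sym2 α → Fin 3} {v w : ℕ → α}
variable {fb : Bool} {n c M T o k : ℕ}

omit [Fintype α] [DecidableEq α] in
theorem xu_enum (O : Finset α) (a : α) : ∃ e : ℕ → α,
    (∀ i < O.card, ∀ j < O.card, e i = e j → i = j) ∧ (∀ i < O.card, e i ∈ O) ∧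
      ∀ z ∈ O, ∃ i < O.card, e i = z := by
  refine ⟨fun i => if h : i < O.card then (O.equivFin.symm ⟨i, h⟩).1 else a, ?_, ?_, ?_⟩
  · intro i hi j hj e
    simp only [hi, hj, dif_pos] at e
    have := O.equivFin.symm.injective (Subtype.ext e)
    exact congrArg Fin.val this
  · intro i hi
    simp only [hi, dif_pos]
    exact (O.equivFin.symm ⟨i, hi⟩).2
  · intro z hz
    refine ⟨(O.equivFin ⟨z, hz⟩).1, (O.equivFin ⟨z, hz⟩).2, ?_⟩
    simp only [(O.equivFin ⟨z, hz⟩).2, dif_pos, Fin.eta, Equiv.symm_apply_apply]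

theorem xu_rh (g : Col) : ∃ d : ℕ, d ≤ 1 ∧ (g.mg = true ↔ d = 1) ∧
    ∀ i, (d = 1 ∧ g.b < i ∧ rh g i + 1 = i) ∨ ((d = 0 ∨ i ≤ g.b) ∧ rh g i = i) := by
  cases hm : g.mg
  · refine ⟨0, by omega, by simp, fun i => Or.inr ⟨Or.inl rfl, ?_⟩⟩
    simp [rh, hm]
  · refine ⟨1, le_rfl, by simp, fun i => ?_⟩
    by_cases hi : g.b < i
    · refine Or.inl ⟨rfl, hi, ?_⟩
      have : Nat.blt g.b i = true := Nat.blt_eq.mpr hi
      simp only [rh, hm, this, Bool.and_self, cond_true, Nat.pred_eq_sub_one]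
      omega
    · refine Or.inr ⟨Or.inr (by omega), ?_⟩
      have : Nat.blt g.b i = false := by
        cases hb : Nat.blt g.b i
        · rfl
        · exact absurd (Nat.blt_eq.mp hb) hi
      simp only [rh, hm, this, Bool.and_false, cond_false]

theorem xu_ih (d b : ℕ) : ∃ ih : ℕ → ℕ,
    ∀ j, (d = 1 ∧ b ≤ j ∧ ih j = j + 1) ∨ ((d ≠ 1 ∨ j < b) ∧ ih j = j) := by
  refine ⟨fun j => if d = 1 ∧ b ≤ j then j + 1 else j, fun j => ?_⟩
  by_cases hc : d = 1 ∧ b ≤ j
  · exact Or.inl ⟨hc.1, hc.2, if_pos hc⟩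
  · exact Or.inr ⟨by omega, if_neg hc⟩

theorem x_setup (hS : XS p h V τ v) (hG : XG fb p g V τ v) (hC : ColG p g.ni g.ct V τ v U σ)
    (hL : Lb n c M T) {j : ℕ} (hj : j < 10) (hn : xn j = n)
    (hI : Iso n (xt j) (cV g v U) (cT g v σ)) : ∃ o w k, XT p g n c M T o k V σ v w := by
  classical
  obtain ⟨d, hd1, hmg, hrh⟩ := xu_rh g
  obtain ⟨ih, hih⟩ := xu_ih d g.b
  have hB : d = 1 → g.b < p.s := fun e => (hG.mg (hmg.2 e)).2.1
  have hni : p.s + g.ni ≤ p.n := hG.tyb.1
  have hn7 := hL.n7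
  obtain ⟨e, e1, e2, e3⟩ := xu_enum (V.filter fun z => ∀ l < p.n, v l ≠ z) (v 0)
  generalize (V.filter fun z => ∀ l < p.n, v l ≠ z).card = o at e1 e2 e3
  simp only [mem_filter] at e2 e3
  have hcV : ∀ z, z ∈ cV g v U ↔
      z ∈ V ∧ ∀ i < p.n, v i = z → i < p.s + g.ni ∧ ¬ (d = 1 ∧ i = g.b) := by
    intro z
    by_cases hm : g.mg = true
    · have hd := hmg.1 hm
      have hb := hB hd
      rw [cV, if_pos hm, mem_erase, hC.mem]
      constructor
      · rintro ⟨a1, a2, a3⟩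
        exact ⟨a2, fun i hi e => ⟨a3 i hi e, fun q => a1 (by rw [← e, q.2])⟩⟩
      · rintro ⟨a1, a2⟩
        exact ⟨fun q => (a2 g.b (by omega) q.symm).2 ⟨hd, rfl⟩, a1, fun i hi e => (a2 i hi e).1⟩
    · rw [cV, if_neg hm, hC.mem]
      exact ⟨fun a => ⟨a.1, fun i hi e => ⟨a.2 i hi e, fun q => hm (hmg.2 q.1)⟩⟩,
        fun a => ⟨a.1, fun i hi e => (a.2 i hi e).1⟩⟩
  obtain ⟨Z, z1, z2, z3⟩ : ∃ Z : ℕ → α, (∀ i < p.s, Z i = v i) ∧
      (∀ i, p.s ≤ i → i < p.s + o → Z i = e (i - p.s)) ∧ ∀ i, p.s + o ≤ i → Z i = v (i - o) :=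
    ⟨fun i => if i < p.s then v i else if i < p.s + o then e (i - p.s) else v (i - o),
      fun i hi => if_pos hi, fun i a b => (if_neg (by omega)).trans (if_pos b),
      fun i a => (if_neg (by omega)).trans (if_neg (by omega))⟩
  have zc : ∀ i < p.s + o + g.ni, (∃ l, l < p.s + g.ni ∧ Z i = v l ∧
      ((i < p.s ∧ l = i) ∨ (p.s + o ≤ i ∧ l + o = i))) ∨
      (p.s ≤ i ∧ i < p.s + o ∧ Z i = e (i - p.s)) := by
    intro i hi
    by_cases a : i < p.s
    · exact Or.inl ⟨i, by omega, z1 i a, Or.inl ⟨a, rfl⟩⟩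
    · by_cases b : i < p.s + o
      · exact Or.inr ⟨by omega, b, z2 i (by omega) b⟩
      · exact Or.inl ⟨i - o, by omega, z3 i (by omega), Or.inr ⟨by omega, by omega⟩⟩
  have zi : ∀ i < p.s + o + g.ni, ∀ l < p.s + o + g.ni, Z i = Z l → i = l := by
    intro i hi l hl q
    rcases zc i hi with ⟨a, a1, a2, a3⟩ | ⟨a1, a2, a3⟩ <;>
      rcases zc l hl with ⟨b, b1, b2, b3⟩ | ⟨b1, b2, b3⟩
    · have := hS.inj a (by omega) b (by omega) (by rw [← a2, ← b2, q])
      omega
    · exact absurd (by rw [← a2, q, b3]) ((e2 (l - p.s) (by omega)).2 a (by omega))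
    · exact absurd (by rw [← b2, ← q, a3]) ((e2 (i - p.s) (by omega)).2 b (by omega))
    · have := e1 (i - p.s) (by omega) (l - p.s) (by omega) (by rw [← a3, ← b3, q])
      omega
  have wv : ∀ l, l < p.s + g.ni → ¬ (d = 1 ∧ l = g.b) → ∃ m < p.s + o + g.ni - d,
      (m < p.s - d ∨ p.s - d + o ≤ m) ∧ Z (ih m) = v l := by
    intro l hl hb
    by_cases a : l < p.s
    · have r1 := hrh l
      have r2 := hih (rh g l)
      refine ⟨rh g l, by omega, by omega, ?_⟩
      rw [show ih (rh g l) = l by omega, z1 l a]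
    · have r1 := hrh (l + o)
      have r2 := hih (rh g (l + o))
      refine ⟨rh g (l + o), by omega, by omega, ?_⟩
      rw [show ih (rh g (l + o)) = l + o by omega, z3 _ (by omega), Nat.add_sub_cancel]
  have yi : ∀ i < p.s + o + g.ni - d, ∀ l < p.s + o + g.ni - d,
      Z (ih i) = Z (ih l) → i = l := by
    intro i hi l hl q
    have r1 := hih i
    have r2 := hih l
    have := zi _ (by omega) _ (by omega) q
    omega
  have yv : cV g v U = (range (p.s + o + g.ni - d)).image fun i => Z (ih i) := by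
    ext z
    rw [hcV, mem_image]
    constructor
    · rintro ⟨a1, a2⟩
      by_cases b : ∀ l < p.n, v l ≠ z
      · obtain ⟨i, hi, q⟩ := e3 z ⟨a1, b⟩
        have r := hih (p.s + i - d)
        refine ⟨p.s + i - d, mem_range.2 (by omega), ?_⟩
        rw [show ih (p.s + i - d) = p.s + i by omega, z2 _ (by omega) (by omega),
          Nat.add_sub_cancel_left, q]
      · push Not at b
        obtain ⟨l, hl, q⟩ := b
        obtain ⟨m, m1, -, m2⟩ := wv l (a2 l hl q).1 (a2 l hl q).2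
        exact ⟨m, mem_range.2 m1, m2.trans q⟩
    · rintro ⟨m, hm, rfl⟩
      have hm' := mem_range.1 hm
      have r := hih m
      rcases zc (ih m) (by omega) with ⟨a, a1, a2, a3⟩ | ⟨a1, a2, a3⟩
      · rw [a2]
        refine ⟨hS.mem a (by omega), fun i hi q => ?_⟩
        have := hS.inj i hi a (by omega) q
        omega
      · rw [a3]
        have := e2 (ih m - p.s) (by omega)
        exact ⟨this.1, fun i hi q => absurd q (this.2 i hi)⟩
  have hN : p.s + o + g.ni - d = n := by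
    obtain ⟨u, u1, u2, -⟩ := hI
    have c1 : (cV g v U).card = n := by
      rw [u2, card_image_of_injOn, card_range]
      intro a ha b hb q
      exact u1 a (mem_range.1 ha) b (mem_range.1 hb) q
    rw [← c1, yv, card_image_of_injOn, card_range]
    intro a ha b hb q
    exact yi a (mem_range.1 ha) b (mem_range.1 hb) q
  rw [hN] at yi yv wv
  obtain ⟨Y, k, y1, y2, y3, k1, k2, y4, y5⟩ :=
    lab_ex (o := o) (a := p.s - d) hL hj hn hI yi yv (by omega)
  have blk : ∀ m, p.s - d ≤ m → m < p.s - d + o → Y m ∈ V ∧ ∀ l < p.n, v l ≠ Y m := by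
    intro m a b
    have hm : m < n := by omega
    have hy : Y m ∈ cV g v U := by
      rw [y2]; exact mem_image_of_mem _ (mem_range.2 hm)
    obtain ⟨c1, c2⟩ := (hcV _).1 hy
    refine ⟨c1, fun l hl q => ?_⟩
    obtain ⟨m', m1, m2, m3⟩ := wv l (c2 l hl q).1 (c2 l hl q).2
    have := y1 m' m1 m hm (by rw [y3 m' m1 m2, m3, q])
    omega
  obtain ⟨w, w1, w2⟩ : ∃ w : ℕ → α, (∀ i < p.s, w i = v i) ∧ ∀ i, p.s ≤ i → w i = Y (rh g i) :=
    ⟨fun i => if i < p.s then v i else Y (rh g i), fun i hi => if_pos hi,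
      fun i hi => if_neg (by omega)⟩
  have wo : ∀ j, p.s ≤ j → j < p.s + o → w j ∈ V ∧ ∀ l < p.n, v l ≠ w j := by
    intro i a b
    have r := hrh i
    rw [w2 i a]
    exact blk _ (by omega) (by omega)
  have w3 : ∀ i < p.s + o + g.ni, ¬ (d = 1 ∧ i = g.b) → ww3 p.s o v w i = Y (rh g i) := by
    intro i hi hb
    have r1 := hrh i
    have r2 := hih (rh g i)
    by_cases a : i < p.s
    · rw [ww3, if_pos (by omega), w1 i a, y3 _ (by omega) (by omega),
        show ih (rh g i) = i by omega, z1 i a]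
    · by_cases b : i < p.s + o
      · rw [ww3, if_pos b, w2 i (by omega)]
      · rw [ww3, if_neg b, y3 _ (by omega) (by omega), show ih (rh g i) = i by omega,
          z3 i (by omega)]
  refine ⟨o, w, k, ?_, ⟨by omega, fun i hi => (w1 i hi).symm, ?_, wo, ?_⟩, k1, k2, ?_, ?_⟩
  · by_cases hm : g.mg = true
    · have := hmg.1 hm
      rw [if_pos hm]; omega
    · have : d ≠ 1 := fun q => hm (hmg.2 q)
      rw [if_neg hm]; omega
  · intro i hi l hl q
    by_cases a : i < p.s <;> by_cases b : l < p.s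
    · exact hS.inj i (by omega) l (by omega) (by rw [← w1 i a, ← w1 l b, q])
    · exact absurd (by rw [← w1 i a, q]) ((wo l (by omega) hl).2 i (by omega))
    · exact absurd (by rw [← w1 l b, q]) ((wo i (by omega) hi).2 l (by omega))
    · have r1 := hrh i
      have r2 := hrh l
      have := y1 (rh g i) (by omega) (rh g l) (by omega)
        (by rw [← w2 i (by omega), ← w2 l (by omega), q])
      omega
  · intro z hz ho
    have hc : z ∈ cV g v U := (hcV z).2 ⟨hz, fun i hi q => absurd q (ho i hi)⟩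
    rw [y2, mem_image] at hc
    obtain ⟨m, hm, q⟩ := hc
    have hm' := mem_range.1 hm
    have r := hih m
    by_cases a : m < p.s - d ∨ p.s - d + o ≤ m
    · rw [y3 m hm' a] at q
      rcases zc (ih m) (by omega) with ⟨l, a1, a2, -⟩ | ⟨a1, a2, -⟩
      · exact absurd (a2.symm.trans q) (ho l (by omega))
      · omega
    · have r1 := hrh (m + d)
      refine ⟨m + d, by omega, by omega, ?_⟩
      rw [w2 _ (by omega), show rh g (m + d) = m by omega, q]
  · intro i hi l hl hil hbi hbl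
    rw [hmg] at hbi hbl
    have r1 := hrh i
    have r2 := hrh l
    rw [w3 i hi hbi, w3 l hl hbl]
    exact y4 _ (by omega) _ (by omega) (by omega)
  · intro z hz
    have r := hrh (p.s + z)
    rw [show rh g (p.s + z) = p.s - d + z by omega]
    exact y5 z hz

end Pool.Agent.Lib.MP_efe3d7_co.J
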