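import Pool.Agent.Lib.MP_efe3d7_co.J.XV0

/-! The lists of labelled graphs are in order. -/

set_option autoImplicit false

namespace Pool.Agent.Lib.MP_efe3d7_co.J

open H

theorem xv_5 : chkR 5 260 MM5 TB5 SW5 64 196 = true := by decide +kernel

theorem xv_6 : chkR 6 556 MM6 TB6 SW6 64 492 = true := by decide +kernel

theorem xv_70 : chkR 7 2584 MM7 TB7 SW7 64 420 = true := by decide +kernel

theorem xv_71 : chkR 7 2584 MM7 TB7 SW7 484 420 = true := by decide +kernel

theorem xv_72 : chkR 7 2584 MM7 TB7 SW7 904 420 = true := by decide +kernel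

theorem xv_73 : chkR 7 2584 MM7 TB7 SW7 1324 420 = true := by decide +kernel

theorem xv_74 : chkR 7 2584 MM7 TB7 SW7 1744 420 = true := by decide +kernel

theorem xv_75 : chkR 7 2584 MM7 TB7 SW7 2164 420 = true := by decide +kernel

theorem xv_b0 : chkB 5 260 TB5 0 223 = true := by decide +kernel

theorem xv_b1 : chkB 5 260 TB5 1 225 = true := by decide +kernel

theorem xv_b2 : chkB 5 260 TB5 2 226 = true := by decide +kernel

theorem xv_b3 : chkB 5 260 TB5 3 231 = true := by decide +kernel

theorem xv_b4 : chkB 5 260 TB5 4 232 = true := by decide +kernel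

theorem xv_b5 : chkB 5 260 TB5 5 259 = true := by decide +kernel

theorem xv_b6 : chkB 6 556 TB6 6 412 = true := by decide +kernel

theorem xv_b7 : chkB 6 556 TB6 7 533 = true := by decide +kernel

theorem xv_b8 : chkB 6 556 TB6 8 530 = true := by decide +kernel

theorem xv_b9 : chkB 7 2584 TB7 9 1093 = true := by decide +kernel

theorem lb5 : Lb 5 260 MM5 TB5 := by
  refine lb_of (S := SW5) (by omega) (fun k h1 h2 => ?_) fun j hj hn => ?_
  · exact chkR_at xv_5 h1 h2
  · interval_cases j
    · exact ⟨_, xv_b0⟩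
    · exact ⟨_, xv_b1⟩
    · exact ⟨_, xv_b2⟩
    · exact ⟨_, xv_b3⟩
    · exact ⟨_, xv_b4⟩
    · exact ⟨_, xv_b5⟩
    · exact absurd hn (by decide)
    · exact absurd hn (by decide)
    · exact absurd hn (by decide)
    · exact absurd hn (by decide)

theorem lb6 : Lb 6 556 MM6 TB6 := by
  refine lb_of (S := SW6) (by omega) (fun k h1 h2 => ?_) fun j hj hn => ?_
  · exact chkR_at xv_6 h1 h2
  · interval_cases j
    · exact absurd hn (by decide)
    · exact absurd hn (by decide)
    · exact absurd hn (by decide)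
    · exact absurd hn (by decide)
    · exact absurd hn (by decide)
    · exact absurd hn (by decide)
    · exact ⟨_, xv_b6⟩
    · exact ⟨_, xv_b7⟩
    · exact ⟨_, xv_b8⟩
    · exact absurd hn (by decide)

theorem lb7 : Lb 7 2584 MM7 TB7 := by
  refine lb_of (S := SW7) (by omega) (fun k h1 h2 => ?_) fun j hj hn => ?_
  · rcases (by omega : k < 484 ∨ (484 ≤ k ∧ k < 904) ∨ (904 ≤ k ∧ k < 1324) ∨
      (1324 ≤ k ∧ k < 1744) ∨ (1744 ≤ k ∧ k < 2164) ∨ 2164 ≤ k) with q | q | q | q | q | q
    · exact chkR_at xv_70 h1 q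
    · exact chkR_at xv_71 q.1 q.2
    · exact chkR_at xv_72 q.1 q.2
    · exact chkR_at xv_73 q.1 q.2
    · exact chkR_at xv_74 q.1 q.2
    · exact chkR_at xv_75 q h2
  · interval_cases j
    · exact absurd hn (by decide)
    · exact absurd hn (by decide)
    · exact absurd hn (by decide)
    · exact absurd hn (by decide)
    · exact absurd hn (by decide)
    · exact absurd hn (by decide)
    · exact absurd hn (by decide)
    · exact absurd hn (by decide)
    · exact absurd hn (by decide)
    · exact ⟨_, xv_b9⟩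

end Pool.Agent.Lib.MP_efe3d7_co.J
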