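import Pool.Agent.Lib.MP_efe3d7_co.J.Ev
import Pool.Agent.Lib.MP_efe3d7_co.J.XV
import Pool.Agent.Lib.MP_efe3d7_co.J.XU
import Pool.Agent.Lib.MP_efe3d7_co.J.XL
import Pool.Agent.Lib.MP_efe3d7_co.J.XI
import Pool.Agent.Lib.MP_efe3d7_co.J.XN3
import Pool.Agent.Lib.MP_efe3d7_co.H.Col1

/-! The test for exceptional columns is sound. -/

set_option autoImplicit false

open Finset

namespace Pool.Agent.Lib.MP_efe3d7_co.J

open H

variable {α : Type} [Fintype α] [DecidableEq α]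
variable {p : Pre} {h : ℕ} {g : Col} {V U : Finset α} {τ σ : Sym2 α → Fin 3} {v w : ℕ → α}
variable {fb : Bool} {n c M T o k : ℕ} {x : ℝ}

theorem xo_n (hx : Iv x) (hK : HK α x) (hS : XS p h V τ v) (hG : XG fb p g V τ v)
    (hC : ColG p g.ni g.ct V τ v U σ) (hL : Lb n c M T) (hT : XT p g n c M T o k V σ v w) {R : ℕ}
    (hR : tb R k = true)
    (hN : xN fb (pdOf p.s (Nat.sub p.n p.s) h) p h (rqM p h) g n c M T R = true) :
    Exc V τ ∨ 0 < FF x V τ := by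
  obtain ⟨co, h1, h2⟩ := xN_sound hS hG hC hL hT hR hN
  rw [leaf, leaf_deg hS hT.xw h2, Bool.false_or, Bool.or_eq_true] at h1
  rcases h1 with h1 | h1
  · rw [leaf_glue (lt_of_lt_of_le (by norm_num) hx.1) hS hT.xw h2]
    exact Or.inr (posF_sound hx h1)
  · exact leaf_iso hK hS hT.xw h2 h1

theorem x_core (hx : Iv x) (hK : HK α x) (hS : XS p h V τ v) (hG : XG fb p g V τ v)
    (hC : ColG p g.ni g.ct V τ v U σ) (hE : Exc (cV g v U) (cT g v σ)) :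
    ∃ n k, ((n = 5 ∧ k < 260) ∨ (n = 6 ∧ k < 556) ∨ (n = 7 ∧ k < 2584)) ∧
      ∀ (cols : List Col) (R5 R6 R7 : ℕ), g ∈ cols → (n = 5 → tb R5 k = true) →
        (n = 6 → tb R6 k = true) → (n = 7 → tb R7 k = true) →
        xCore fb p h cols R5 R6 R7 = true → Exc V τ ∨ 0 < FF x V τ := by
  obtain ⟨j, hj, hI⟩ := hE
  have key : ∀ (cols : List Col) (R5 R6 R7 : ℕ), g ∈ cols → xCore fb p h cols R5 R6 R7 = true →
      xN fb (pdOf p.s (Nat.sub p.n p.s) h) p h (rqM p h) g 5 260 MM5 TB5 R5 = true ∧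
      xN fb (pdOf p.s (Nat.sub p.n p.s) h) p h (rqM p h) g 6 556 MM6 TB6 R6 = true ∧
      xN fb (pdOf p.s (Nat.sub p.n p.s) h) p h (rqM p h) g 7 2584 MM7 TB7 R7 = true := by
    intro cols R5 R6 R7 hg hc
    rw [xCore, mkPD_eq, frc_eq, List.all_eq_true] at hc
    have e := hc g hg
    rw [Bool.and_eq_true, Bool.and_eq_true] at e
    exact ⟨e.1.1, e.1.2, e.2⟩
  have hn : xn j = 5 ∨ xn j = 6 ∨ xn j = 7 := by
    interval_cases j <;> decide
  rcases hn with hn | hn | hn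
  · obtain ⟨o, w, k, hT⟩ := x_setup hS hG hC lb5 hj hn (hn ▸ hI)
    exact ⟨5, k, Or.inl ⟨rfl, hT.k2⟩, fun cols R5 R6 R7 hg h5 _ _ hc =>
      xo_n hx hK hS hG hC lb5 hT (h5 rfl) (key cols R5 R6 R7 hg hc).1⟩
  · obtain ⟨o, w, k, hT⟩ := x_setup hS hG hC lb6 hj hn (hn ▸ hI)
    exact ⟨6, k, Or.inr (Or.inl ⟨rfl, hT.k2⟩), fun cols R5 R6 R7 hg _ h6 _ hc =>
      xo_n hx hK hS hG hC lb6 hT (h6 rfl) (key cols R5 R6 R7 hg hc).2.1⟩
  · obtain ⟨o, w, k, hT⟩ := x_setup hS hG hC lb7 hj hn (hn ▸ hI)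
    exact ⟨7, k, Or.inr (Or.inr ⟨rfl, hT.k2⟩), fun cols R5 R6 R7 hg _ _ h7 hc =>
      xo_n hx hK hS hG hC lb7 hT (h7 rfl) (key cols R5 R6 R7 hg hc).2.2⟩

theorem x_full (hx : Iv x) (hK : HK α x) (hS : XS p h V τ v) (hG : XG fb p g V τ v)
    (hC : ColG p g.ni g.ct V τ v U σ) (hE : Exc (cV g v U) (cT g v σ)) {cols : List Col}
    (hg : g ∈ cols) (hc : xCore fb p h cols (ful 260) (ful 556) (ful 2584) = true) :
    Exc V τ ∨ 0 < FF x V τ := by
  obtain ⟨n, k, h1, h2⟩ := x_core hx hK hS hG hC hE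
  refine h2 cols _ _ _ hg (fun e => ?_) (fun e => ?_) (fun e => ?_) hc <;>
    rw [tb_ful, decide_eq_true_eq] <;> omega

theorem x_sound {m : Md} {E : Env α} {cols : List Col} (hx : Iv x) (hK : HK α x)
    (hO : Ok m V τ E) (hP : PS m p V τ E v) (_hT : TyB p (p.n - p.s) h) (hu : Pure p h)
    (hG : ColG p (p.n - p.s) h V τ v V τ) (hc : xOk m p h cols = true) :
    ∀ g ∈ cols, typOk p g = true → ∀ U σ, ColG p g.ni g.ct V τ v U σ →
      Exc (cV g v U) (cT g v σ) → Exc V τ ∨ 0 < FF x V τ := by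
  intro g hg ht U σ hC hE
  have sn := hP.sn
  have mV : ∀ i < p.n, v i ∈ V := fun i hi => hO.memV (hP.mem i hi)
  have hS : XS p h V τ v := by
    refine ⟨hP.n8, sn, hP.inj, mV, hP.kns, fun i hi hs => (hP.int i hi hs).2.2,
      fun i hi hs z hz ho => ?_, fun i hi j hj hij hk => ?_, hu, fun i hi => ?_⟩
    · by_contra e
      obtain ⟨q1, q2, -⟩ := hP.int i hi hs
      obtain ⟨j, hj, -, e2⟩ := hP.cl i hi q2 z (mem_nb.mpr ⟨hz, (ho i hi).symm, e⟩) (Or.inl q1)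
      exact ho j hj e2
    · rw [hG.inn i (by omega) j (by omega) hij, if_pos hk]
    · have hi' : i < p.n := by omega
      have e := hO.ds_le (hP.mem i hi')
      cases h5 : tb p.d5 i
      · cases h4 : tb p.d4 i
        · exact (hO.ds3 _ (hP.mem i hi')).trans e
        · exact (hP.d4 i hi' h4).trans e
      · exact (hP.d5 i hi' h5).trans e
  have hX : XG true p g V τ v := by
    refine ⟨typ_tyB hP ht, fun hm => ?_, fun hm z hz ho => ?_⟩
    · obtain ⟨e1, e2, e3, -, e4, -⟩ := typ_mg ht hm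
      exact ⟨e1, e2, e3, e4⟩
    · obtain ⟨e1, e2, -, -, -, e5, -⟩ := typ_mg ht hm
      rw [if_pos rfl]
      by_contra e
      rw [not_or] at e
      obtain ⟨-, -, q⟩ := hP.fb g.a (by omega) g.b e5
      obtain ⟨l, hl, e6⟩ := q z (mem_nb.mpr ⟨hz, (ho g.a (by omega)).symm, e.1⟩)
        (mem_nb.mpr ⟨hz, (ho g.b (by omega)).symm, e.2⟩)
      exact ho l hl e6
  exact x_full hx hK hS hX hC hE hg hc

end Pool.Agent.Lib.MP_efe3d7_co.J
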