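import Pool.Agent.Lib.MP_efe3d7_co.J.CrtD
import Pool.Agent.Lib.MP_efe3d7_co.J.Cf4
import Pool.Agent.Lib.MP_efe3d7_co.J.XO
import Pool.Agent.Lib.MP_efe3d7_co.J.PCore
import Pool.Agent.Lib.MP_efe3d7_co.J.Snd
import Pool.Agent.Lib.MP_efe3d7_co.H.Fr6

/-! Soundness of certificates. -/

set_option autoImplicit false

open Finset

namespace Pool.Agent.Lib.MP_efe3d7_co.J

open H

variable {α : Type} [Fintype α] [DecidableEq α] {x : ℝ}

variable {m : Md} {k : K} {c : Cert} {V : Finset α} {τ : Sym2 α → Fin 3} {E : Env α} {v : ℕ → α}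

/-- A certificate whose columns are meaningful and in the class. -/
theorem cert_win (hI : Iv x) (hK : HK α x) (hO : Ok m V τ E) (hS : Sat k V τ E v)
    (h1 : certS m k c = true) (h3 : certI k c = true) (h4 : certX m k c = true)
    (ht : ∀ g ∈ c.cols, typOk (preOf m k c.s) g = true)
    (hc : ∀ g ∈ c.cols, ∀ U σ, ColG (preOf m k c.s) g.ni g.ct V τ v U σ →
      Con3 (cV g v U) (cT g v σ)) : Red x V τ := by
  simp only [certS, certI, certX, frc_eq, mkPre_eq, Bool.and_eq_true, Nat.sub_eq] at h1 h3 h4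
  obtain ⟨a1, a2, a3⟩ := colG_self hO hS h1.1
  rw [← preOf_n m k c.s] at a1 a3
  nth_rewrite 3 [← preOf_s m k c.s] at a1 a3
  exact cert_core hI hO hS h1.1 h1.2 ht (fun q hq => idF_sound h3 q hq x) hc fun g hg =>
    x_sound hI hK hO (ps_of hO hS h1.1) a1 a2 a3 h4 g hg (ht g hg)

theorem certC_sound {ex : Bool} (hO : Ok m V τ E) (hS : Sat k V τ E v) (h1 : certS m k c = true)
    (h2 : certC ex m k c = true) : ∀ g ∈ c.cols, typOk (preOf m k c.s) g = true ∧
      (g.r = 99 → ex = true) ∧ (g.r ≠ 99 → ∀ U σ, ColG (preOf m k c.s) g.ni g.ct V τ v U σ →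
        Con3 (cV g v U) (cT g v σ)) := by
  simp only [certS, certC, mkPre_eq, Bool.and_eq_true, Bool.or_eq_true] at h1 h2
  refine safeG_sound h2.1 (fun _ _ _ _ _ hc hr h3 ha hb hab da db =>
    tri_del hc hr h3 ha hb (mem_nb.1 hab).2.1.symm da db) hO (ps_of hO hS h1.1)
    (fun i hi e => ?_) h2.2
  rw [preOf_n] at hi
  rw [tb_msk, Bool.and_eq_true, Nat.ble_eq] at e
  exact e.2.trans (el_sound hO hS hi)

/-- The columns with `r = 99` are assumed to be in the class. -/
theorem certEx_sound {ex : Bool} (hI : Iv x) (hK : HK α x) (hO : Ok m V τ E) (hS : Sat k V τ E v)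
    (h : certF ex m k c = true) (hc : ex = true → ∀ g ∈ c.cols, g.r = 99 → ∀ U σ,
      ColG (preOf m k c.s) g.ni g.ct V τ v U σ → Con3 (cV g v U) (cT g v σ)) : Red x V τ := by
  simp only [certF, Bool.and_eq_true] at h
  have a := certC_sound hO hS h.1.1.1 h.1.1.2
  refine cert_win hI hK hO hS h.1.1.1 h.1.2 h.2 (fun g hg => (a g hg).1) fun g hg => ?_
  by_cases e : g.r = 99
  · exact hc ((a g hg).2.1 e) g hg e
  · exact (a g hg).2.2 e

theorem certF_sound (hI : Iv x) (hK : HK α x) (h : certF false m k c = true) : Valid α x m k :=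
  fun _ _ _ _ hO hS => certEx_sound hI hK hO.ok hS h fun e => by cases e

theorem certF_of {ex : Bool} (h1 : certS m k c = true) (h2 : certC ex m k c = true)
    (h3 : certI k c = true) (h4 : certX m k c = true) : certF ex m k c = true := by
  simp only [certF, h1, h2, h3, h4, Bool.and_self]

omit [Fintype α] in
theorem iso_of {n t t' σ : ℕ} (h : Iso n t V τ) (e : isoOk n t t' σ = true) : Iso n t' V τ := by
  obtain ⟨u, h1, h2, h3⟩ := h
  simp only [isoOk, allB_iff, Bool.and_eq_true, Bool.not_eq_true', Nat.blt_eq, Nat.beq_eq] at e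
  have key : ∀ i < n, ∀ j < n, i ≠ j → hx σ i ≠ hx σ j ∧ ty t (hx σ i) (hx σ j) = ty t' i j := by
    intro i hi j hj hij
    rcases lt_or_gt_of_ne hij with l | l
    · exact ⟨(nbeq ((e j hj).2 i l).1).symm, by rw [ty_comm, ((e j hj).2 i l).2, ty_comm]⟩
    · exact ⟨nbeq ((e i hi).2 j l).1, ((e i hi).2 j l).2⟩
  have inj : ∀ i < n, ∀ j < n, u (hx σ i) = u (hx σ j) → i = j := fun i hi j hj q => by
    by_contra c
    exact (key i hi j hj c).1 (h1 _ (e i hi).1 _ (e j hj).1 q)
  refine ⟨fun i => u (hx σ i), inj, ?_, fun i hi j hj hij => ?_⟩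
  · refine (eq_of_subset_of_card_le (fun z hz => ?_) ?_).symm
    · obtain ⟨i, hi, rfl⟩ := mem_image.1 hz
      exact h2 ▸ mem_image_of_mem u (mem_range.2 (e i (mem_range.1 hi)).1)
    · rw [h2, card_image_of_injOn (s := range n) (f := fun i => u (hx σ i)) fun i hi j hj =>
        inj i (mem_range.1 hi) j (mem_range.1 hj)]
      exact card_image_le
  · rw [h3 _ (e i hi).1 _ (e j hj).1 (key i hi j hj hij).1, (key i hi j hj hij).2]

theorem ff_isoS (hx : 0 < x) {n ct s : ℕ} (hn : n ≤ 8) (hs : s ≤ n) (h : Iso n ct V τ) :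
    FF x V τ = glueR x s (n - s) ct 0 0 := by
  obtain ⟨u, h1, h2, h3⟩ := h
  have e : s + (n - s) = n := by omega
  have := ff_glue hx (s := s) (o := n - s) (co := ct) (ni := 0) (ct := 0) (v := u) (w := u)
    (y := fun e => wt (ee x) (τ e)) (by omega) (by omega) (fun _ _ => rfl)
    (fun i hi j hj => h1 i (by omega) j (by omega)) (by rwa [e]) (by omega)
    (fun i hi j hj => by
      rw [wt_wn, h3 i (by omega) j (by omega) (by omega), ty, ty, dig_zero]
      simp [wn])
    (fun i _ hi j hj => by rw [wt_wn, h3 i (by omega) j (by omega) (by omega)]) (by omega)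
    (by omega)
  simpa [FF, h2, e] using this

theorem baseF_sound (hI : Iv x) (hK : HK α x) {j σ : ℕ} (h : baseF k j σ = true) :
    Valid α x m k := by
  intro V τ E v hO hS
  simp only [baseF, frc_eq, Bool.and_eq_true, Nat.ble_eq, mkPD_eq] at h
  obtain ⟨⟨⟨a1, a2⟩, a3⟩, a4⟩ := h
  have b := base_iso hO.ok hS a1 (by omega) a3
  cases e : Nat.beq j 11
  · simp only [e, cond_false, Bool.and_eq_true, Nat.ble_eq, Nat.beq_eq] at a4
    have b2 := iso_of b a4.2
    rw [a4.1.2] at b2
    rcases a4.1.1.eq_or_lt with rfl | l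
    · exact red_of_pos (hK V τ b2)
    · exact red_exc ⟨j, l, b2⟩
  · rw [e, cond_true, Bool.and_eq_true, Nat.ble_eq] at a4
    exact red_of_pos (ff_isoS hI.x_pos a2 a4.1 b ▸ posF_sound hI a4.2)

variable {L : BT} {N : ℕ}

theorem VU.cert (h : VU α x L N) (hI : Iv x) (hK : HK α x)
    (e : certF false (L.get N).1 (L.get N).2 c = true) : VU α x L (N + 1) :=
  h.succ (certF_sound hI hK e)

theorem VU.base (h : VU α x L N) (hI : Iv x) (hK : HK α x) {j σ : ℕ}
    (e : baseF (L.get N).2 j σ = true) : VU α x L (N + 1) :=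
  h.succ (baseF_sound hI hK e)

/-- A configuration that contains an entry of the table. -/
theorem VU.root (h : VU α x L N) {j σ : ℕ} (e : chk L N m (.ref j σ) k = true) : Valid α x m k :=
  chk_sound L N h m _ k e

end Pool.Agent.Lib.MP_efe3d7_co.J
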