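import Pool.Agent.Lib.MP_efe3d7_co.J.CrtRD
import Pool.Agent.Lib.MP_efe3d7_co.J.Crt

/-! Soundness of certificates whose test for exceptional columns is split. -/

set_option autoImplicit false

open Finset

namespace Pool.Agent.Lib.MP_efe3d7_co.J

open H

variable {α : Type} [Fintype α] [DecidableEq α] {x : ℝ}

variable {m : Md} {k : K} {c : Cert} {V : Finset α} {τ : Sym2 α → Fin 3} {E : Env α} {v : ℕ → α}

theorem crtr_lor {β : Type} (f : β → ℕ) {l : List β} {i : ℕ} (h : tb (lorL (l.map f)) i = true) :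
    ∃ r ∈ l, tb (f r) i = true := by
  induction l with
  | nil => simp [lorL, tb_zero] at h
  | cons a l ih =>
    have e : lorL ((a :: l).map f) = Nat.lor (f a) (lorL (l.map f)) := rfl
    rw [e, tb_lor, Bool.or_eq_true] at h
    rcases h with h | h
    · exact ⟨a, List.mem_cons_self, h⟩
    · obtain ⟨r, h1, h2⟩ := ih h
      exact ⟨r, List.mem_cons_of_mem _ h1, h2⟩

theorem x_soundR {p : Pre} {h : ℕ} {cols : List Col} (hx : Iv x) (hK : HK α x)
    (hO : Ok m V τ E) (hP : PS m p V τ E v) (hu : Pure p h)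
    (hG : ColG p (p.n - p.s) h V τ v V τ) {Rs : List (ℕ × ℕ × ℕ)} (hR : covR Rs = true)
    (hc : ∀ r ∈ Rs, xCore true p h cols r.1 r.2.1 r.2.2 = true) :
    ∀ g ∈ cols, typOk p g = true → ∀ U σ, ColG p g.ni g.ct V τ v U σ →
      Exc (cV g v U) (cT g v σ) → Exc V τ ∨ 0 < FF x V τ := by
  intro g hg ht U σ hC hE
  have sn := hP.sn
  have mV : ∀ i < p.n, v i ∈ V := fun i hi => hO.memV (hP.mem i hi)
  have hS : XS p h V τ v := by
    refine ⟨hP.n8, sn, hP.inj, mV, hP.kns, fun i hi hs => (hP.int i hi hs).2.2,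
      fun i hi hs z hz ho => ?_, fun i hi j hj hij hk => ?_, hu, fun i hi => ?_⟩
    · by_contra e
      obtain ⟨q1, q2, -⟩ := hP.int i hi hs
      obtain ⟨j, hj, -, e2⟩ := hP.cl i hi q2 z (mem_nb.mpr ⟨hz, (ho i hi).symm, e⟩) (Or.inl q1)
      exact ho j hj e2
    · rw [hG.inn i (by omega) j (by omega) hij, if_pos hk]
    · have hi' : i < p.n := by omega
      have e := hO.ds_le (hP.mem i hi')
      cases h5 : tb p.d5 i
      · cases h4 : tb p.d4 i
        · exact (hO.ds3 _ (hP.mem i hi')).trans e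
        · exact (hP.d4 i hi' h4).trans e
      · exact (hP.d5 i hi' h5).trans e
  have hX : XG true p g V τ v := by
    refine ⟨typ_tyB hP ht, fun hm => ?_, fun hm z hz ho => ?_⟩
    · obtain ⟨e1, e2, e3, -, e4, -⟩ := typ_mg ht hm
      exact ⟨e1, e2, e3, e4⟩
    · obtain ⟨e1, e2, -, -, -, e5, -⟩ := typ_mg ht hm
      rw [if_pos rfl]
      by_contra e
      rw [not_or] at e
      obtain ⟨-, -, q⟩ := hP.fb g.a (by omega) g.b e5
      obtain ⟨l, hl, e6⟩ := q z (mem_nb.mpr ⟨hz, (ho g.a (by omega)).symm, e.1⟩)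
        (mem_nb.mpr ⟨hz, (ho g.b (by omega)).symm, e.2⟩)
      exact ho l hl e6
  obtain ⟨n, j, h1, h2⟩ := x_core hx hK hS hX hC hE
  simp only [covR, Bool.and_eq_true, Nat.beq_eq] at hR
  obtain ⟨⟨r5, r6⟩, r7⟩ := hR
  rcases h1 with ⟨rfl, h1⟩ | ⟨rfl, h1⟩ | ⟨rfl, h1⟩
  · obtain ⟨r, a, b⟩ := crtr_lor _ (r5 ▸ (tb_ful 260 j).trans (decide_eq_true h1))
    exact h2 cols _ _ _ hg (fun _ => b) (by omega) (by omega) (hc r a)
  · obtain ⟨r, a, b⟩ := crtr_lor _ (r6 ▸ (tb_ful 556 j).trans (decide_eq_true h1))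
    exact h2 cols _ _ _ hg (by omega) (fun _ => b) (by omega) (hc r a)
  · obtain ⟨r, a, b⟩ := crtr_lor _ (r7 ▸ (tb_ful 2584 j).trans (decide_eq_true h1))
    exact h2 cols _ _ _ hg (by omega) (by omega) (fun _ => b) (hc r a)

/-- A certificate whose columns are meaningful and in the class. -/
theorem cert_winR (hI : Iv x) (hK : HK α x) (hO : Ok m V τ E) (hS : Sat k V τ E v)
    (h1 : certS m k c = true) (h3 : certI k c = true) {Rs : List (ℕ × ℕ × ℕ)}
    (hR : covR Rs = true) (h4 : ∀ r ∈ Rs, certXR m k c r.1 r.2.1 r.2.2 = true)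
    (ht : ∀ g ∈ c.cols, typOk (preOf m k c.s) g = true)
    (hc : ∀ g ∈ c.cols, ∀ U σ, ColG (preOf m k c.s) g.ni g.ct V τ v U σ →
      Con3 (cV g v U) (cT g v σ)) : Red x V τ := by
  simp only [certS, certI, certXR, frc_eq, mkPre_eq, Bool.and_eq_true, Nat.sub_eq] at h1 h3 h4
  obtain ⟨a1, a2, a3⟩ := colG_self hO hS h1.1
  rw [← preOf_n m k c.s] at a3
  nth_rewrite 3 [← preOf_s m k c.s] at a3
  exact cert_core hI hO hS h1.1 h1.2 ht (fun q hq => idF_sound h3 q hq x) hc fun g hg =>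
    x_soundR hI hK hO (ps_of hO hS h1.1) a2 a3 hR h4 g hg (ht g hg)

theorem certR_sound (hI : Iv x) (hK : HK α x) (h1 : certS m k c = true)
    (h2 : certC false m k c = true) (h3 : certI k c = true) (Rs : List (ℕ × ℕ × ℕ))
    (hR : covR Rs = true) (h4 : ∀ r ∈ Rs, certXR m k c r.1 r.2.1 r.2.2 = true) :
    Valid α x m k := fun _ _ _ _ hO hS => by
  have a := certC_sound hO.ok hS h1 h2
  refine cert_winR hI hK hO.ok hS h1 h3 hR h4 (fun g hg => (a g hg).1) fun g hg => (a g hg).2.2 ?_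
  exact fun e => by cases (a g hg).2.1 e

variable {L : BT} {N : ℕ}

theorem VU.certR (h : VU α x L N) (hI : Iv x) (hK : HK α x)
    (h1 : certS (L.get N).1 (L.get N).2 c = true) (h2 : certC false (L.get N).1 (L.get N).2 c = true)
    (h3 : certI (L.get N).2 c = true) (Rs : List (ℕ × ℕ × ℕ)) (hR : covR Rs = true)
    (h4 : ∀ r ∈ Rs, certXR (L.get N).1 (L.get N).2 c r.1 r.2.1 r.2.2 = true) : VU α x L (N + 1) :=
  h.succ (certR_sound hI hK h1 h2 h3 Rs hR h4)

end Pool.Agent.Lib.MP_efe3d7_co.J
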