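import Pool.Agent.Lib.MP_efe3d7_co.J.Defs

/-! The configurations that the tables have to reduce. -/

set_option autoImplicit false

namespace Pool.Agent.Lib.MP_efe3d7_co.J

open H

/-- A minimal thick fragment with at least three vertices that are not doors. -/
def mQ : Md := ⟨true, false, true, false, false, false⟩

/-- The same, and every cubic vertex of the fragment is a door. -/
def mB : Md := ⟨true, false, true, true, false, false⟩

/-- A minimal thick fragment with at most two vertices that are not doors. -/
def mS : Md := ⟨true, false, false, false, true, false⟩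

/-- No thick fragment, all edges hard. -/
def mF : Md := ⟨false, false, false, false, false, true⟩

/-- A cubic vertex that is no door, with a heavy edge. -/
def kA : K := ⟨2, 1, 0, 0, 1, 0, 3, mkT [(0, 1, 3)], 0, false⟩

/-- A cubic vertex that is no door, with a hard edge to a vertex of larger degree. -/
def kM : K := ⟨2, 1, 0, 0, 1, 32, 3, mkT [(0, 1, 2)], 0, false⟩

/-- An induced cycle of four cubic vertices with hard edges. -/
def kC : K :=
  ⟨4, 15, 0, 0, 0, 0, 1755, mkT [(0, 1, 2), (1, 2, 2), (2, 3, 2), (0, 3, 2), (0, 2, 1), (1, 3, 1)],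
    0, false⟩

/-- A vertex of degree four in the fragment. -/
def k4 : K := ⟨1, 1, 0, 0, 0, 0, 4, 0, 0, false⟩

/-- Nothing is known. -/
def k0 : K := ⟨0, 0, 0, 0, 0, 0, 0, 0, 0, false⟩

/-- A cubic vertex with a hard edge to a vertex of larger degree. -/
def kF : K := ⟨2, 3, 0, 0, 0, 32, 3, mkT [(0, 1, 2)], 0, false⟩

/-- The configurations are reducible. -/
structure Roots (α : Type) [Fintype α] [DecidableEq α] (x : ℝ) : Prop where
  ra : Valid α x mQ kA
  rm : Valid α x mQ kM
  rc : Valid α x mQ kC
  r4 : Valid α x mB k4
  rs : Valid α x mS k0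
  fm : Valid α x mF kF
  fc : Valid α x mF kC

end Pool.Agent.Lib.MP_efe3d7_co.J
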