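import Pool.Agent.Lib.MP_efe3d7_co.J.L2D
import Pool.Agent.Lib.MP_efe3d7_co.J.Roots
import Pool.Agent.Lib.MP_efe3d7_co.J.Snd

/-! A graph is reducible, or its cubic vertices lie in few triangles. -/

set_option autoImplicit false

open Finset

namespace Pool.Agent.Lib.MP_efe3d7_co.J

open H

variable {α : Type} [Fintype α] [DecidableEq α] {x : ℝ} {m : Md} {V : Finset α}
  {τ : Sym2 α → Fin 3} {E : Env α}

/-- A cubic vertex that is no door, with two edges among its neighbours. -/
def kL : K :=
  ⟨4, 1, 0, 0, 1, 32, 3, mkT [(0, 1, 4), (0, 2, 4), (1, 2, 4), (0, 3, 4), (1, 3, 4)], 0, false⟩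

omit [Fintype α] in
theorem l2_sat {y a b c : α} (hy : y ∈ E.Q) (hd : y ∉ E.Dr) (h3 : dg V τ y = 3)
    (ha : a ∈ nb V τ y) (hb : b ∈ nb V τ y) (hc : c ∈ nb V τ y) (hbc : b ≠ c)
    (ab : b ∈ nb V τ a) (ac : c ∈ nb V τ a) (h4 : 4 ≤ ds V τ E a)
    (mem : ∀ z ∈ nb V τ y, z ∈ E.Q ∨ z ∈ E.T) :
    Sat kL V τ E fun i => if i = 0 then y else if i = 1 then a else if i = 2 then b else c := by
  obtain ⟨-, a1, a2⟩ := mem_nb.1 ha
  obtain ⟨-, b1, b2⟩ := mem_nb.1 hb
  obtain ⟨-, c1, c2⟩ := mem_nb.1 hc
  obtain ⟨-, d1, d2⟩ := mem_nb.1 ab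
  obtain ⟨-, e1, e2⟩ := mem_nb.1 ac
  have z := tb_zero
  have sw : ∀ {u w : α}, τ s(u, w) ≠ 0 → τ s(w, u) ≠ 0 := fun h => by rwa [Sym2.eq_swap]
  have P : ∀ i < 4, ∀ j < 4, i ≠ j → kL.P i j = if i + j = 5 then 0 else 4 := by decide
  refine ⟨fun i hi j hj e => ?_, fun i hi => ?_, fun i hi e => ?_, fun i _ e => ?_,
    fun i _ e => ?_, fun i hi e => ?_, fun i hi => ?_, fun i hi e => ?_, fun i hi j hj e => ?_,
    fun i _ j _ _ e => ?_, fun e => by cases e⟩
  · change i < 4 at hi
    change j < 4 at hj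
    interval_cases i <;> interval_cases j <;> simp_all
  · change i < 4 at hi
    interval_cases i
    exacts [Or.inl hy, mem a ha, mem b hb, mem c hc]
  · change i < 4 at hi
    interval_cases i
    · exact hy
    all_goals cases e
  · cases (z i).symm.trans e
  · cases (z i).symm.trans e
  · change i < 4 at hi
    interval_cases i
    · exact ⟨hy, hd⟩
    all_goals cases e
  · change i < 4 at hi
    interval_cases i
    exacts [Nat.zero_le _, h4, Nat.zero_le _, Nat.zero_le _]
  · change i < 4 at hi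
    interval_cases i
    · exact (ds_Q hy).trans h3
    all_goals exact absurd rfl e
  · rw [P i hi j hj e]
    change i < 4 at hi
    change j < 4 at hj
    refine ⟨fun f => by split_ifs at f <;> omega, fun f => by split_ifs at f <;> omega,
      fun f => by split_ifs at f <;> omega, fun f => ?_⟩
    interval_cases i <;> interval_cases j <;> first
      | exact absurd rfl e | exact absurd f (by decide) | assumption | exact sw (by assumption)
  · cases (z _).symm.trans e

theorem l2_or (h : Valid α x mQ kL) (hm : mQ.le m = true) (hO : Ok3 m V τ E) :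
    L2 V τ E ∨ Red x V τ := by
  refine or_iff_not_imp_right.2 fun nr y hy h3 a ha b hb c hc hbc ab ac => ?_
  have o := le_ok3 hm hO
  have k := o.ok
  have yV := k.subQ hy
  have mem : ∀ z ∈ nb V τ y, z ∈ E.Q ∨ z ∈ E.T := fun z hz => by
    have := k.nbq y hy z hz
    rw [k.omn rfl] at this
    simpa using this
  have an : a ≠ b := (mem_nb.1 ab).2.1.symm
  have an' : a ≠ c := (mem_nb.1 ac).2.1.symm
  have all : nb V τ y = {a, b, c} := by
    refine (eq_of_subset_of_card_le (fun z hz => ?_) ?_).symm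
    · simp only [mem_insert, mem_singleton] at hz
      rcases hz with rfl | rfl | rfl <;> assumption
    · rw [card_eq_three.2 ⟨a, b, c, an, an', hbc, rfl⟩]
      exact h3.le
  have aV : a ∈ V := nb_sub _ ha
  by_cases hd : y ∈ E.Dr
  · obtain ⟨p, hp, e⟩ := (k.dr1 y hd).2
    rw [k.omn rfl] at e
    obtain ⟨pT, p3⟩ := e.resolve_right (by simp)
    have q3 : 3 ≤ E.Q.card := (o.q3 rfl).trans (card_le_card sdiff_subset)
    have one := card_le_one.1 (o.dt rfl q3 y hd)
    have pQ : p ∉ E.Q := fun e => k.dis p e pT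
    rw [ds_nQ pQ] at p3
    have key : ∀ z ∈ nb V τ y, z ∈ nb V τ p → False := fun z hz hz' => by
      have n : z ≠ p := (mem_nb.1 hz').2.1
      have zQ : z ∈ E.Q := (mem z hz).resolve_right fun e =>
        n (one z (mem_inter.2 ⟨hz, e⟩) p (mem_inter.2 ⟨hp, pT⟩))
      exact (mem_nb.1 hz).2.1 (card_le_one.1 (show (nb V τ p ∩ E.Q).card ≤ 1 by omega) z
        (mem_inter.2 ⟨hz', zQ⟩) y (mem_inter.2 ⟨nb_symm yV hp, hy⟩))
    have hp' := hp
    rw [all] at hp'
    simp only [mem_insert, mem_singleton] at hp'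
    rcases hp' with rfl | rfl | rfl
    exacts [key b hb ab, key a ha (nb_symm aV ab), key a ha (nb_symm aV ac)]
  refine nr (h V τ E _ o (l2_sat hy hd h3 ha hb hc hbc ab ac ?_ mem))
  refine (k.ds3 a (mem a ha)).lt_of_ne fun e => ?_
  rcases mem a ha with aQ | aT
  · rw [ds_Q aQ] at e
    have yb : y ≠ b := (mem_nb.1 hb).2.1.symm
    have yc : y ≠ c := (mem_nb.1 hc).2.1.symm
    have all' : nb V τ a = {y, b, c} := by
      refine (eq_of_subset_of_card_le (fun z hz => ?_) ?_).symm
      · simp only [mem_insert, mem_singleton] at hz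
        rcases hz with rfl | rfl | rfl
        exacts [nb_symm yV ha, ab, ac]
      · rw [card_eq_three.2 ⟨y, b, c, yb, yc, hbc, rfl⟩]
        exact e.ge
    have := k.a1 (Or.inl rfl) {y, a} {b, c} ⟨insert_subset hy (singleton_subset_iff.2 aQ),
      fun w hw => by rw [k.omn rfl] at hw; cases hw⟩ (insert_nonempty _ _) fun u hu z hz => by
        simp only [mem_insert, mem_singleton] at hu ⊢
        rcases hu with rfl | rfl
        · rw [all] at hz
          simp only [mem_insert, mem_singleton] at hz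
          tauto
        · rw [all'] at hz
          simp only [mem_insert, mem_singleton] at hz
          tauto
    have := card_le_two (a := b) (b := c)
    omega
  · exact hd (k.dr2 y hy a aT ha e.symm)

end Pool.Agent.Lib.MP_efe3d7_co.J
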