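import Pool.Agent.Lib.MP_efe3d7_co.J.Crt2D
import Pool.Agent.Lib.MP_efe3d7_co.J.CrtR
import Pool.Agent.Lib.MP_efe3d7_co.J.CfT
import Pool.Agent.Lib.MP_efe3d7_co.J.L2

/-! Soundness of certificates with the additional clauses. -/

set_option autoImplicit false

open Finset

namespace Pool.Agent.Lib.MP_efe3d7_co.J

open H

variable {α : Type} [Fintype α] [DecidableEq α] {x : ℝ} {l2 : Bool}

variable {m : Md} {k : K} {c : Cert} {V : Finset α} {τ : Sym2 α → Fin 3} {E : Env α} {v : ℕ → α}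

theorem certC2_sound (hl : l2 = true → Valid α x mQ kL) (hO : Ok3 m V τ E) (hS : Sat k V τ E v)
    (h1 : certS m k c = true) (h2 : certC2 l2 m k c = true) : Red x V τ ∨
      ((∀ g ∈ c.cols, typOk (preOf m k c.s) g = true) ∧ ∀ g ∈ c.cols, ∀ U σ,
        ColG (preOf m k c.s) g.ni g.ct V τ v U σ → Con3 (cV g v U) (cT g v σ)) := by
  simp only [certS, certC2, mkPre_eq, Bool.and_eq_true, Bool.or_eq_true, Bool.not_eq_true'] at h1 h2
  refine or_iff_not_imp_left.2 fun nr => ?_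
  have hL : l2 = true → L2 V τ E := fun e => by
    obtain ⟨⟨a, b⟩, d⟩ := h2.1.2.resolve_left (by simp [e])
    exact (l2_or (hl e) (by simp [Md.le, mQ, a, b, d]) hO).resolve_right nr
  have a := safeH_sound h2.1.1 (fun _ _ _ _ _ hc hr h3 ha hb hab da db =>
    tri_del hc hr h3 ha hb (mem_nb.1 hab).2.1.symm da db) hO.toOk2 hL (ps_of hO.ok hS h1.1)
    (fun i hi e => by
      rw [preOf_n] at hi
      rw [tb_msk, Bool.and_eq_true, Nat.ble_eq] at e
      exact e.2.trans (el_sound hO.ok hS hi)) h2.2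
  exact ⟨fun g hg => (a g hg).1, fun g hg => (a g hg).2.2 fun e => by cases (a g hg).2.1 e⟩

theorem cert2_sound (hI : Iv x) (hK : HK α x) (hl : l2 = true → Valid α x mQ kL)
    (h1 : certS m k c = true) (h2 : certC2 l2 m k c = true) (h3 : certI k c = true)
    (h4 : certX m k c = true) : Valid α x m k := fun _ _ _ _ hO hS =>
  (certC2_sound hl hO hS h1 h2).elim id fun a => cert_win hI hK hO.ok hS h1 h3 h4 a.1 a.2

theorem certR2_sound (hI : Iv x) (hK : HK α x) (hl : l2 = true → Valid α x mQ kL)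
    (h1 : certS m k c = true) (h2 : certC2 l2 m k c = true) (h3 : certI k c = true)
    (Rs : List (ℕ × ℕ × ℕ)) (hR : covR Rs = true)
    (h4 : ∀ r ∈ Rs, certXR m k c r.1 r.2.1 r.2.2 = true) : Valid α x m k := fun _ _ _ _ hO hS =>
  (certC2_sound hl hO hS h1 h2).elim id fun a => cert_winR hI hK hO.ok hS h1 h3 hR h4 a.1 a.2

variable {L : BT} {N : ℕ}

theorem VU.cert2 (h : VU α x L N) (hI : Iv x) (hK : HK α x) (hl : l2 = true → Valid α x mQ kL)
    (h1 : certS (L.get N).1 (L.get N).2 c = true) (h2 : certC2 l2 (L.get N).1 (L.get N).2 c = true)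
    (h3 : certI (L.get N).2 c = true) (h4 : certX (L.get N).1 (L.get N).2 c = true) :
    VU α x L (N + 1) :=
  h.succ (cert2_sound hI hK hl h1 h2 h3 h4)

theorem VU.certR2 (h : VU α x L N) (hI : Iv x) (hK : HK α x) (hl : l2 = true → Valid α x mQ kL)
    (h1 : certS (L.get N).1 (L.get N).2 c = true) (h2 : certC2 l2 (L.get N).1 (L.get N).2 c = true)
    (h3 : certI (L.get N).2 c = true) (Rs : List (ℕ × ℕ × ℕ)) (hR : covR Rs = true)
    (h4 : ∀ r ∈ Rs, certXR (L.get N).1 (L.get N).2 c r.1 r.2.1 r.2.2 = true) : VU α x L (N + 1) :=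
  h.succ (certR2_sound hI hK hl h1 h2 h3 Rs hR h4)

end Pool.Agent.Lib.MP_efe3d7_co.J
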