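import Pool.Agent.Lib.MP_efe3d7_co.J.Crt3D
import Pool.Agent.Lib.MP_efe3d7_co.J.Crt2

/-! Entries of the table that have a certificate. -/

set_option autoImplicit false

namespace Pool.Agent.Lib.MP_efe3d7_co.J

open H

variable {α : Type} [Fintype α] [DecidableEq α] {x : ℝ} {l2 : Bool} {m : Md} {k : K} {c : Cert}
  {hs : List ℕ}

theorem cert3_sound (hI : Iv x) (hK : HK α x) (hl : l2 = true → Valid α x mQ kL)
    (h1 : certG m k c = true) (h2 : certC2 l2 m k (c.wh hs) = true) : Valid α x m k := by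
  simp only [certG, certH, Bool.and_eq_true] at h1
  exact cert2_sound (c := c.wh hs) hI hK hl h1.1.1 h2 h1.1.2 h1.2

theorem certR3_sound (hI : Iv x) (hK : HK α x) (hl : l2 = true → Valid α x mQ kL)
    (h1 : certH m k c = true) (h2 : certC2 l2 m k (c.wh hs) = true) (Rs : List (ℕ × ℕ × ℕ))
    (hR : covR Rs = true) (h4 : ∀ r ∈ Rs, certXR m k c r.1 r.2.1 r.2.2 = true) :
    Valid α x m k := by
  simp only [certH, Bool.and_eq_true] at h1
  exact certR2_sound (c := c.wh hs) hI hK hl h1.1 h2 h1.2 Rs hR h4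

/-- Equality of configurations. -/
def kEq (a b : Md × K) : Bool :=
  a.1.rl == b.1.rl && a.1.wm == b.1.wm && a.1.q0 == b.1.q0 && a.1.big == b.1.big &&
  a.1.nf == b.1.nf && a.1.fr == b.1.fr && Nat.beq a.2.n b.2.n && Nat.beq a.2.lq b.2.lq &&
  Nat.beq a.2.lt b.2.lt && Nat.beq a.2.dy b.2.dy && Nat.beq a.2.dn b.2.dn &&
  Nat.beq a.2.lo b.2.lo && Nat.beq a.2.ex b.2.ex && Nat.beq a.2.pr b.2.pr &&
  Nat.beq a.2.fb b.2.fb && a.2.al == b.2.al

theorem kEq_eq {a b : Md × K} (h : kEq a b = true) : a = b := by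
  obtain ⟨⟨⟩, ⟨⟩⟩ := a
  obtain ⟨⟨⟩, ⟨⟩⟩ := b
  simpa only [kEq, Bool.and_eq_true, beq_iff_eq, Nat.beq_eq, Prod.mk.injEq, Md.mk.injEq,
    K.mk.injEq, and_assoc] using h

/-- The list is the part of the table from `N` to `M`. -/
def tabB (L : BT) (M : ℕ) : List (Md × K) → ℕ → Bool
  | [], N => Nat.beq N M
  | e :: l, N => kEq (L.get N) e && frc (Nat.succ N) fun N' => tabB L M l N'

/-- All configurations of the list are reducible. -/
def AV (α : Type) [Fintype α] [DecidableEq α] (x : ℝ) (l : List (Md × K)) : Prop :=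
  ∀ e ∈ l, Valid α x e.1 e.2

theorem AV.nil : AV α x [] := fun _ h => by cases h

theorem AV.cons {l : List (Md × K)} (h : Valid α x m k) (h' : AV α x l) : AV α x ((m, k) :: l) :=
  List.forall_mem_cons.2 ⟨h, h'⟩

theorem VU.app {L : BT} {M : ℕ} : ∀ {l : List (Md × K)} {N : ℕ}, VU α x L N → AV α x l →
    tabB L M l N = true → VU α x L M
  | [], _, h, _, e => Nat.eq_of_beq_eq_true e ▸ h
  | e :: l, N, h, h2, h1 => by
    simp only [tabB, frc_eq, Bool.and_eq_true] at h1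
    exact VU.app (h.succ (kEq_eq h1.1 ▸ h2 e List.mem_cons_self))
      (fun e he => h2 e (List.mem_cons_of_mem _ he)) h1.2

end Pool.Agent.Lib.MP_efe3d7_co.J
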