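import Pool.Agent.Lib.MP_efe3d7_co.J.CrtRD

/-! The tests of a certificate that do not use its hints. -/

set_option autoImplicit false

namespace Pool.Agent.Lib.MP_efe3d7_co.J

open H

/-- Sizes and identities. -/
def certH (m : Md) (k : K) (c : Cert) : Bool := certS m k c && certI k c

/-- Sizes, identities and exceptional columns. -/
def certG (m : Md) (k : K) (c : Cert) : Bool := certH m k c && certX m k c

/-- The certificate with the hints `hs`. -/
def Cert.wh (c : Cert) (hs : List ℕ) : Cert := { c with hs := hs }

end Pool.Agent.Lib.MP_efe3d7_co.J
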