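import Pool.Agent.Lib.MP_efe3d7_co.J.Sem

/-! The test of sizes, weights and pieces of a certificate. -/

set_option autoImplicit false

namespace Pool.Agent.Lib.MP_efe3d7_co.J

open H

/-- The lowest bits of the pairs `j < i < 8` with `j` even. -/
def pE : ℕ := 37278451472853761462643215859053291952006127655342007396170120296666136788179136582930677466063641147080704

/-- The lowest bits of the pairs `j < i < 8` with `j` odd. -/
def pO : ℕ := 4659788936100938214960652273701311149470044531484289838445235559894789526095168482175560540196193857175552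

/-- The number of pairs below `w` whose lowest bit is set. -/
def pcT (w N : ℕ) : ℕ :=
  frc (Nat.mod N (bt (Nat.mul 48 w))) fun Y =>
    Nat.add (Nat.mod (Nat.land Y pE) 63) (Nat.mod (Nat.mul (Nat.land Y pO) 8) 63)

/-- The lowest bit of a digit is set if one of the two higher bits of the digit is. -/
def hiT (ct : ℕ) : ℕ := Nat.lor (Nat.shiftRight ct 1) (Nat.shiftRight ct 2)

/-- The lowest bits of the pairs of terminals with unknown status. -/
def unT (p : Pre) (s : ℕ) : ℕ :=
  un s (ful s) fun i => un i (df (ful i) (fld p.kn i)) fun j => bt (Nat.mul 3 (px i j))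

/-- The scaled weight of a column with as many edges as the window. -/
def wC (a b : ℕ) : ℕ :=
  Nat.mul (Nat.pow 6 (Nat.sub (Nat.add 30 b) a)) (Nat.pow 5 (Nat.sub (Nat.add 30 a) b))

/-- The weights of the columns, zero for columns with fewer edges than the window. -/
def wsK (u s nI e h : ℕ) : List Col → (List ℕ → Bool) → Bool
  | [], k => k []
  | g :: l, k => frc (Nat.add s g.ni) fun w => frc (hiT g.ct) fun t => frc (Nat.lor g.ct t) fun z =>
    frc (pcT w z) fun n => bif Nat.blt n e then wsK u s nI e h l fun ws => k (0 :: ws) else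
      Nat.beq n e && !g.mg && Nat.beq (Nat.land z u) 0 &&
        frc (Nat.add nI (pcT w (df g.ct t))) fun a => frc (wC a (Nat.add g.ni h)) fun c =>
          wsK u s nI e h l fun ws => k (c :: ws)

/-- Add `w` times the first list to the second. -/
def axp (w : ℕ) (c : List ℕ) : List ℕ → List ℕ :=
  List.rec (fun _ => [])
    (fun a _ ih S => List.casesOn S [] fun b r => Nat.add (Nat.mul w a) b :: ih r) c

/-- The length of a list. -/
def len (c : List ℕ) : ℕ := List.rec 0 (fun _ _ r => Nat.succ r) c

/-- The weighted sum of the coefficients is added to `S`; the result is passed on. -/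
def accK (L : ℕ) : List ℕ → List (List ℕ) → List ℕ → (List ℕ → Bool) → Bool
  | w :: ws, c :: cs, S, k => bif Nat.beq w 0 then accK L ws cs S k else
      Nat.beq (len c) L && accK L ws cs (axp w c S) k
  | _, _, S, k => k S

/-- The first list is at most `M` times the second. -/
def leL (M : ℕ) : List ℕ → List ℕ → Bool
  | a :: l, b :: r => Nat.ble a (Nat.mul M b) && leL M l r
  | _, _ => true

/-- Some column with fewer edges has a coefficient with the property `f`. -/
def anyS (f : List ℕ → Bool) : List ℕ → List (List ℕ) → Bool
  | w :: ws, c :: cs => (Nat.beq w 0 && f c) || anyS f ws cs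
  | _, _ => false

/-- The first entry is not zero. -/
def hdP (l : List ℕ) : Bool := nz (l.headD 0)

/-- The last entry is not zero. -/
def lsP (l : List ℕ) : Bool := nz (l.getLastD 0)

/-- The weights are in order on a piece. -/
def pcOk (ws : List ℕ) (q : Pc) : Bool :=
  hdP q.D && lsP q.D && anyS hdP ws q.cf && anyS lsP ws q.cf &&
    frc (len q.D) fun L => frc (Nat.pow 30 30) fun M =>
      accK L ws q.cf (List.replicate L 0) fun S => leL M S q.D

/-- The pieces cover the interval from `a / b` to `371 / 475`. -/
def chain : List Pc → ℕ → ℕ → Bool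
  | [], a, b => Nat.ble (Nat.mul 371 b) (Nat.mul 475 a)
  | q :: l, a, b => nz q.b1 && nz q.b2 && Nat.ble (Nat.mul q.a1 b) (Nat.mul a q.b1) &&
      Nat.blt (Nat.mul q.a1 q.b2) (Nat.mul q.a2 q.b1) && chain l q.a2 q.b2

/-- The sizes, the weights and the pieces are in order; `t` is the table of the window. -/
def szF (p : Pre) (t : ℕ) (c : Cert) : Bool :=
  frc (pcT p.n (Nat.lor t (hiT t))) fun e => frc (pcT p.n (df t (hiT t))) fun h =>
  frc (Nat.sub p.n c.s) fun nI => frc (unT p c.s) fun u =>
  Nat.ble (Nat.add e nI) 30 && Nat.ble nI 5 && chain c.pcs 1 4 &&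
    wsK u c.s nI e h c.cols fun ws => c.pcs.all (pcOk ws)

end Pool.Agent.Lib.MP_efe3d7_co.J
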