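import Pool.Agent.Lib.MP_efe3d7_co.J.Sem

/-! A fast evaluator: vectors over the partitions of the terminals, packed in numbers. -/

set_option autoImplicit false

namespace Pool.Agent.Lib.MP_efe3d7_co.J

open H

/-- The bits that describe a partition. -/
def tqB (q : ℕ × ℕ) (p : ℕ) : Bool :=
  bif Nat.blt p 48 then Nat.beq (dig q.1 (p / 8)) (dig q.1 (p % 8)) else
  bif Nat.blt p 56 then allB (p - 48) fun i => !Nat.beq (dig q.1 i) (dig q.1 (p - 48)) else
  bif Nat.blt p 59 then tb (q.2 - 1) (p - 56) else Nat.ble (p - 57) q.2

/-- The bits as a number. -/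
def tq (q : ℕ × ℕ) : ℕ := msk 64 (tqB q)

/-- The tables of these numbers. -/
def tab : ℕ → List ℕ
  | 1 => [562949953421311]
  | 2 => [562949953421311, 649642038601253629]
  | 3 => [562949953421311, 650202780891675643, 649642038601253629, 649637623291578105,
    1875742621843063545]
  | 4 => [562949953421311, 651324261511198711, 650202780891675643, 650193946429682675,
    1877424844820509683, 649642038601253629, 649633204071107317, 1876864102496010997,
    649637623291578105, 649628788896698097, 1876859687253968625, 1875742621843063545,
    1875733787380550385, 1875733787414627057, 4255886190412301041]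
  | 5 => [562949953421311, 653566276969426927, 651324261511198711, 651305711814830055,
    1880788375458801639, 650202780891675643, 650184196300794859, 1879666877392022507,
    650193946429682675, 650175431095149539, 1879658077558203363, 1877424844820509683,
    1877406294857802723, 1877406312305058787, 4259810480555877347, 649642038601253629,
    649623436828414701, 1879106126510621421, 649633204071107317, 649614671554616037,
    1879097326608648933, 1876864102496010997, 1876845535351345893, 1876845561389581029,
    4259249729640399589, 649637623291578105, 649619055880574697, 1879101728381863657,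
    649628788896698097, 649610290742042337, 1879092928615157473, 1876859687253968625,
    1876841154471139041, 1876841163328456417, 4259245331579274977, 1875742621843063545,
    1875724037251142377, 1875724045842121449, 4258128231540196073, 1875733787380550385,
    1875715272044976865, 1875715246007782113, 4258119431705856737, 1875733787414627057,
    1875715237450879713, 1875715280670032609, 4258119431739933409, 4255886190412301041,
    4255867640448553697, 4255867649039532769, 4255867666486788833, 8944114843951301345]
  | 6 => [562949953421311, 657843166478589919, 653566276969426927, 653356407148498895,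
    1887324975423016911, 651324261511198711, 651096525700061143, 1885074026969683927,
    651305711814830055, 651113435253688263, 1885073206898313159, 1880788375458801639,
    1880578369272661959, 1880587302267766727, 4267477375149131719, 650202780891675643,
    649966247917968347, 1883948147768875995, 650184196300794859, 649983122577083339,
    1883947292802993099, 1879666877392022507, 1879448074043313099, 1879461405619702731,
    4266351478501067723, 650193946429682675, 649975006715761619, 1883948109936776147,
    650175431095149539, 649991950631224259, 1883947324227240899, 1879658077558203363,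
    1879456867469280195, 1879461402415776707, 4266351475297141699, 1877424844820509683,
    1877197108476695507, 1877201507057980371, 4264100512934450131, 1877406294857802723,
    1877214017763984323, 1877200686720271299, 4264099692596741059, 1877406312305058787,
    1877196305586242499, 1877218433792525251, 4264099710043997123, 4259810480555877347,
    4259600473837061059, 4259604872418345923, 4259613805413450691, 8952346887508509635,
    649642038601253629, 649401107576857309, 1883385206453109469, 649623436828414701,
    649417965054014157, 1883384334305268429, 1879106126510621421, 1878882925111222989,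
    1878898455712957133, 4265788528594322125, 649633204071107317, 649409866306497237,
    1883385168552856277, 649614671554616037, 649426793040001733, 1883384365661362885,
    1879097326608648933, 1878891718469036741, 1878898452440877765, 4265788525322242757,
    1876864102496010997, 1876631968101507797, 1876638565708137173, 4263537571584606933,
    1876845535351345893, 1876648860206838469, 1876637728188469957, 4263536734064939717,
    1876845561389581029, 1876631156620075717, 1876655483851702981, 4263536760103174853,
    4259249729640399589, 4259035324870894277, 4259041922477523653, 4259050855472628421,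
    8951783937567687365, 649637623291578105, 649405488364398297, 1883385189192042201,
    649619055880574697, 649422380203390665, 1883384351406036681, 1879101728381863657,
    1878887323079681737, 1878898455632807625, 4265788528514172617, 649628788896698097,
    649414247229304529, 1883385151427055313, 649610290742042337, 649431208324644545,
    1883384382897397441, 1879092928615157473, 1878896116572761793, 1878898452495994561,
    4265788525377359553, 1876859687253968625, 1876636348956681937, 1876638548514703057,
    4263537554391172817, 1876841154471139041, 1876653275423848129, 1876637745356871361,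
    4263536751233341121, 1876841163328456417, 1876635554656167617, 1876655483839186625,
    4263536760090658497, 4259245331579274977, 4259039722906986177, 4259041922465007297,
    4259050855460112065, 8951783937555171009, 1875742621843063545, 1875506088867275481,
    1875508287892619993, 4262411692350374617, 1875724037251142377, 1875522963525350089,
    1875507432925696713, 4262410837383451337, 1875724045842121449, 1875505242491331273,
    1875525171141673673, 4262410845974430409, 4258128231540196073, 4257909428189405897,
    4257911627214750409, 4257924958791140041, 8950658040886198985, 1875733787380550385,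
    1875514847664548561, 1875508250059999953, 4262411654517754577, 1875715272044976865,
    1875531791578970817, 1875507464349424321, 4262410868807178945, 1875715246007782113,
    1875514035916778177, 1875525167937227457, 4262410842769984193, 4258119431705856737,
    4257918221614852801, 4257911624010304193, 4257924955586693825, 8950658037681752769,
    1875733787414627057, 1875506051068732113, 1875517046723969745, 4262411654551831249,
    1875715237450879713, 1875522960354980545, 1875516226385220289, 4262410834213081793,
    1875715280670032609, 1875505273949135553, 1875533999229371073, 4262410877432234689,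
    4258119431739933409, 4257909425019036353, 4257920420674273985, 4257924955620770497,
    8950658037715829441, 4255886190412301041, 4255658454066406097, 4255660653091750609,
    4255665051673035473, 8948407066763199185, 4255867640448553697, 4255675363352654529,
    4255659832753001153, 4255664231334286017, 8948406246424449729, 4255867649039532769,
    4255657642318635713, 4255677570968978113, 4255664239925265089, 8948406255015428801,
    4255867666486788833, 4255657659765891777, 4255659858791236289, 4255681986997519041,
    8948406272462684865, 8944114843951301345, 8943904837230404289, 8943907036255748801,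
    8943911434837033665, 8943920367832138433, 18248339468354585281]
  | _ => []

/-- Evaluate a large number before it is used. -/
def sq {β : Type} (m : ℕ) (k : ℕ → β) : β := Bool.rec (k m) (k 0) (Nat.beq m 0)

/-- Evaluate a list before it is used. -/
def frcL {β : Type} (l : List ℕ) (k : List ℕ → β) : β :=
  List.rec (motive := fun _ => (List ℕ → β) → β) (fun k => k [])
    (fun a _ r k => frc a fun b => r fun t => k (b :: t)) l k

/-- Pack a list in fields of width `W`. -/
def pkL (W : ℕ) (l : List ℕ) : ℕ := List.rec 0 (fun a _ r => Nat.add a (Nat.shiftLeft r W)) l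

/-- Repeat a row `2 ^ m` times. -/
def rep (m row V : ℕ) : ℕ :=
  Nat.rec V (fun i r => sq r fun t => Nat.add t (Nat.shiftLeft t (Nat.shiftLeft row i))) m

/-- The data of a packing. -/
structure MD where
  /-- number of terminals -/
  s : ℕ
  /-- width of a field -/
  W : ℕ
  /-- width of a row -/
  row : ℕ
  /-- the table in all rows -/
  G : ℕ
  /-- ones in all rows -/
  ON : ℕ
  /-- ones in the first row -/
  O1 : ℕ

/-- The data of the packing for a table. -/
def mkMD {β : Type} (s W m : ℕ) (T : List ℕ) (k : MD → β) : β :=
  frc (Nat.mul W T.length) fun row => sq (pkL W (T.map fun _ => 1)) fun O1 =>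
  sq (rep m row (pkL W T)) fun G => sq (rep m row O1) fun ON => k ⟨s, W, row, G, ON, O1⟩

/-- The mask of bit `p` of the table. -/
def mk (D : MD) (p : ℕ) : ℕ :=
  sq (Nat.land (Nat.shiftRight D.G p) D.ON) fun U => Nat.sub (Nat.shiftLeft U D.W) U

/-- The mask of the partitions with `i` and `j` in one block. -/
def mo (D : MD) (i j : ℕ) : ℕ := mk D (Nat.add (Nat.mul 8 i) j)

/-- The partitions where `j` leads a block without a member of `hm`. -/
def amk (D : MD) (j hm : ℕ) : ℕ :=
  Nat.rec (mk D (Nat.add 48 j))
    (fun i r => bif tb hm i then sq r fun A => df A (mo D i j) else r) D.s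

/-- A heavy edge. -/
def hvy (row m T : ℕ) : ℕ :=
  bif Nat.beq (Nat.land T m) 0 then T else
    Nat.add (Nat.xor T (Nat.land T m)) (Nat.shiftLeft (Nat.land T m) row)

/-- The heavy edges to the terminals `ys` for the colour of `j`. -/
def apY (D : MD) (j : ℕ) (ys : List ℕ) (T : ℕ) : ℕ :=
  List.rec (motive := fun _ => ℕ → ℕ) (fun T => T)
    (fun i _ r T => sq (hvy D.row (mo D i j) T) r) ys T

/-- The weights of the edges to the earlier inner vertices, by colour. -/
def pen (ws cl : List ℕ) : ℕ :=
  List.rec (motive := fun _ => List ℕ → ℕ) (fun _ => 0)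
    (fun w _ r cl => List.rec 0 (fun v c _ => Nat.add (Nat.shiftLeft w (Nat.mul 16 v)) (r c)) cl)
    ws cl

/-- The factor of a new colour; `V7` is `287 * V`. -/
def nw (D : MD) (a V V7 : ℕ) : ℕ :=
  Nat.add (Nat.add (Nat.add (Nat.land V7 (mk D 56)) (Nat.mul 2 (Nat.land V7 (mk D 57))))
    (Nat.add (Nat.mul 4 (Nat.land V7 (mk D 58))) (Nat.mul a V7)))
    (Nat.shiftLeft (Nat.mul 312 V) D.row)

/-- The sum over the colours of the inner vertices. -/
def lev {β : Type} (D : MD) (ls : List (ℕ × List ℕ × List ℕ)) :
    ℕ → List ℕ → ℕ → ℕ → ℕ → (ℕ → ℕ → β) → β :=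
  List.rec (motive := fun _ => ℕ → List ℕ → ℕ → ℕ → ℕ → (ℕ → ℕ → β) → β)
    (fun V _ _ P N k => sq (Nat.add P V) fun Q => k Q N)
    (fun L _ nx V cl a P N k =>
      frc (pen L.2.2 cl) fun pe => sq (Nat.mul 287 V) fun V7 =>
      Nat.rec (motive := fun _ => ℕ → ℕ → β)
        (Nat.rec (motive := fun _ => ℕ → ℕ → β)
          (fun P N => sq (nw D a V V7) fun T => frc (Nat.add D.s a) fun c =>
            frc (Nat.succ a) fun b => nx T (c :: cl) b N P fun N' P' => k P' N')
          (fun b r P N => frc (Nat.add D.s b) fun c => frc (fld pe c) fun e =>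
            bif Nat.ble 64 e then r P N else
              sq (Nat.shiftLeft V7 (Nat.mul e D.row)) fun T => nx T (c :: cl) a P N r) a)
        (fun j r P N => frc (fld pe j) fun e =>
          bif Nat.ble 64 e || Nat.beq (Nat.land V7 (amk D j L.1)) 0 then r P N else
            sq (Nat.shiftLeft (apY D j L.2.1 (Nat.land V7 (amk D j L.1))) (Nat.mul e D.row))
              fun T => nx T (j :: cl) a P N r) D.s P N) ls

/-- The terminals joined by a heavy edge. -/
def ysOf (s r : ℕ) : List ℕ :=
  Nat.rec [] (fun i t => bif Nat.beq (dig r i) 2 then i :: t else t) s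

/-- The code of a type. -/
def wg (t : ℕ) : ℕ := bif Nat.beq t 1 then 64 else bif Nat.beq t 2 then 1 else 0

/-- The codes of the edges to the earlier inner vertices. -/
def wsOf (s r m : ℕ) : List ℕ := Nat.rec [] (fun i t => wg (dig r (Nat.add s i)) :: t) m

/-- The data of the inner vertices `s + m, ..., s + m + n - 1`. -/
def mkL {β : Type} (s ct n : ℕ) : ℕ → (List (ℕ × List ℕ × List ℕ) → β) → β :=
  Nat.rec (motive := fun _ => ℕ → (List (ℕ × List ℕ × List ℕ) → β) → β) (fun _ k => k [])
    (fun _ r m k => frc (Nat.shiftRight ct (Nat.mul 48 (Nat.add s m))) fun w =>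
      frc (msk s fun i => Nat.beq (dig w i) 1) fun hm => frcL (ysOf s w) fun ys =>
      frcL (wsOf s w m) fun ws => frc (Nat.succ m) fun m' => r m' fun t => k ((hm, ys, ws) :: t)) n

/-- The edges between terminals. -/
def trm (D : MD) (ct V : ℕ) : ℕ :=
  Nat.rec V (fun i r => frc (Nat.shiftRight ct (Nat.mul 48 i)) fun w =>
    Nat.rec r (fun j t => frc (dig w j) fun e =>
      bif Nat.beq e 1 then sq t fun U => df U (mo D i j) else
      bif Nat.beq e 2 then sq t fun U => hvy D.row (mo D i j) U else t) i) D.s

/-- The positive and the negative part of the value of a window. -/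
def win {β : Type} (D : MD) (ni ct V : ℕ) (k : ℕ → ℕ → β) : β :=
  sq (trm D ct V) fun U => mkL D.s ct ni 0 fun ls => lev D ls U [] 0 0 0 k

/-- The value of a window as a sign and a number; `1` is the positive sign. -/
def winS {β : Type} (D : MD) (ni ct V sg : ℕ) (k : ℕ → ℕ → β) : β :=
  sq (Nat.mul (Nat.pow 287 (Nat.sub 5 ni)) V) fun U => win D ni ct U fun P N =>
    frc (Nat.mod (Nat.add sg ni) 2) fun e =>
    bif Nat.ble N P then sq (Nat.sub P N) (k e) else
      sq (Nat.sub N P) fun M => frc (Nat.sub 1 e) fun f => k f M

/-- The values of the columns. -/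
def colsX (D : MD) (cols : List Col) : (List (ℕ × ℕ) → Bool) → Bool :=
  List.rec (motive := fun _ => (List (ℕ × ℕ) → Bool) → Bool) (fun k => k [])
    (fun g _ r k => Nat.ble g.ni 5 && Nat.ble (Nat.add D.s g.ni) 8 &&
      bif g.mg then Nat.blt g.a D.s && Nat.blt g.b D.s && !Nat.beq g.a g.b &&
        Nat.beq (ty g.ct g.a g.b) 0 &&
        winS D g.ni g.ct (Nat.land D.O1 (mo D g.a g.b)) 0 fun e M => r fun t => k ((e, M) :: t)
      else winS D g.ni g.ct D.O1 1 fun e M => r fun t => k ((e, M) :: t)) cols

/-- Add `X * c` to `A`, for lists of the same length. -/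
def za (X : ℕ) (c : List ℕ) : List ℕ → (List ℕ → Bool) → Bool :=
  List.rec (motive := fun _ => List ℕ → (List ℕ → Bool) → Bool)
    (fun A k => List.rec (k []) (fun _ _ _ => false) A)
    (fun x _ r A k => List.rec false (fun a t _ =>
      sq (Nat.add a (Nat.mul x X)) fun v => r t fun u => k (v :: u)) A) c

/-- Add all columns. -/
def acc (xs : List (ℕ × ℕ)) :
    List (List ℕ) → List ℕ → List ℕ → (List ℕ → List ℕ → Bool) → Bool :=
  List.rec (motive := fun _ => List (List ℕ) → List ℕ → List ℕ → (List ℕ → List ℕ → Bool) → Bool)
    (fun _ A B k => k A B)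
    (fun x _ r cf A B k => List.rec (k A B) (fun c t _ =>
      bif Nat.beq x.1 1 then za x.2 c A fun A' => r t A' B k else
        za x.2 c B fun B' => r t A B' k) cf) xs

/-- The product with `u + v * 2 ^ row`. -/
def lin (row u v X : ℕ) : ℕ := Nat.add (Nat.mul u X) (Nat.shiftLeft (Nat.mul v X) row)

/-- The sum of `(A t - B t) * (-α) ^ t * β ^ (L - 1 - t)` as a difference, and `β ^ L`. -/
def hor (row u1 v1 u2 v2 : ℕ) (A : List ℕ) : List ℕ → (ℕ → ℕ → ℕ → Bool) → Bool :=
  List.rec (motive := fun _ => List ℕ → (ℕ → ℕ → ℕ → Bool) → Bool) (fun _ k => k 1 0 0)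
    (fun a _ r B k => List.rec false (fun b t _ => r t fun w P N =>
      sq (lin row u2 v2 w) fun w' => sq (lin row u1 v1 N) fun P' =>
      sq (lin row u1 v1 P) fun N' =>
      bif Nat.ble b a then sq (Nat.add P' (Nat.mul (Nat.sub a b) w)) fun Q => k w' Q N' else
        sq (Nat.add N' (Nat.mul (Nat.sub b a) w)) fun Q => k w' P' Q) B) A

/-- The sum of a list. -/
def sumL (l : List ℕ) : ℕ := List.rec 0 (fun a _ r => Nat.add a r) l

/-- A bound for the coefficients of a piece. -/
def nrm (p : Pc) : ℕ :=
  Nat.mul (sumL ((p.D :: p.cf).map sumL))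
    (Nat.pow (Nat.succ (Nat.mul 312 (Nat.add (Nat.add p.a1 p.b1) (Nat.add p.a2 p.b2)))) p.D.length)

/-- A number of blocks of `w` bits that hold `x`. -/
def blk (w f : ℕ) : ℕ → ℕ :=
  Nat.rec (motive := fun _ => ℕ → ℕ) (fun _ => 0)
    (fun _ r x => bif Nat.beq x 0 then 0 else Nat.succ (r (Nat.shiftRight x w))) f

/-- The identity holds on a piece. -/
def pcF (row : ℕ) (xs : List (ℕ × ℕ)) (p : Pc) : Bool :=
  frcL (p.D.map fun _ => 0) fun Z => acc xs (p.D :: p.cf) Z Z fun A B =>
    hor row (Nat.mul 287 p.a1) (Nat.mul 312 p.b1) (Nat.mul 287 p.a2) (Nat.mul 312 p.b2) A B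
      fun _ P N => Nat.beq P N

/-- The identities between the window and the columns hold. -/
def idF (s ni h : ℕ) (cols : List Col) (pcs : List Pc) : Bool :=
  Nat.ble 1 s && Nat.ble s 6 && Nat.ble ni 5 && Nat.ble (Nat.add s ni) 8 &&
  sq (sumL (pcs.map nrm)) fun b => frc (Nat.mul 16 (blk 16 999 b)) fun w => Nat.blt b (bt w) &&
  frc (Nat.add w 70) fun W => mkMD s W 5 (tab s) fun D =>
    winS D ni h D.O1 0 fun e M => colsX D cols fun xs => pcs.all (pcF D.row ((e, M) :: xs))

/-- The data of a window for gluing. -/
structure PD where
  /-- the packing -/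
  D : MD
  /-- number of inner vertices -/
  ni : ℕ
  /-- the value of the window -/
  V : ℕ

/-- The falling factorials without the first factor and without the sign. -/
def falV (D : MD) : ℕ :=
  Nat.rec D.O1 (fun i r => sq r fun F => sq (Nat.land F (mk D (Nat.add 59 i))) fun U =>
    Nat.add (Nat.mul 287 (Nat.xor F U)) (lin D.row (Nat.mul 287 i) 312 U)) (Nat.pred D.s)

/-- The data of a window. -/
def mkPD {β : Type} (s ni ct : ℕ) (k : PD → β) : β :=
  frc (Nat.add (Nat.mul 13 ni) 114) fun W =>
  frcL (tab s ++ (tab s).map (Nat.add 18446744073709551616)) fun T => mkMD s W 6 T fun D =>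
  sq (falV D) fun F => win D ni ct F fun P N =>
  sq (df (Nat.add (df P (mk D 56)) (Nat.land N (mk D 56))) (mk D 64)) fun A =>
  sq (df (Nat.add (Nat.land P (mk D 56)) (df N (mk D 56))) (mk D 64)) fun B =>
  sq (Nat.add A (Nat.shiftLeft B (Nat.div D.row 2))) fun V =>
  k ⟨D, ni, V⟩

/-- The data of a window. -/
def pdOf (s ni ct : ℕ) : PD := mkPD s ni ct id

/-- The alternating sums of the rows against the powers of `φ` and `ψ`. -/
def bl (row Y z φ ψ m : ℕ) : ℕ → ℕ → ℕ → ℕ → ℕ → (ℕ → ℕ → Bool) → Bool :=
  Nat.rec (motive := fun _ => ℕ → ℕ → ℕ → ℕ → ℕ → (ℕ → ℕ → Bool) → Bool)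
    (fun A B _ P N k => Nat.beq A 0 && Nat.beq B 0 && k P N)
    (fun _ r A B w P N k =>
      sq (Nat.mul (Nat.add P (Nat.mul (Nat.mod (Nat.mod A Y) z) w)) ψ) fun P' =>
      sq (Nat.mul (Nat.add N (Nat.mul (Nat.mod (Nat.mod B Y) z) w)) ψ) fun N' =>
      sq (Nat.shiftRight A row) fun A' => sq (Nat.shiftRight B row) fun B' =>
      sq (Nat.mul w φ) fun w' => r B' A' w' P' N' k) m

/-- The difference is positive between `a1 / b1` and `a2 / b2`. -/
def bern1 (W row m A B a1 b1 a2 b2 : ℕ) : Bool :=
  Nat.blt (Nat.mul a1 b2) (Nat.mul a2 b1) &&
  Nat.ble (Nat.mul 312 (Nat.add (Nat.add a1 b1) (Nat.add a2 b2))) 524288 && Nat.ble m 99 &&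
  frc (Nat.add (Nat.add W 10) (Nat.mul m 19)) fun K =>
  sq (bt row) fun Y => sq (ful W) fun z =>
  sq (Nat.mul 287 (Nat.add (Nat.shiftLeft a2 K) a1)) fun φ =>
  sq (Nat.mul 312 (Nat.add (Nat.shiftLeft b2 K) b1)) fun ψ =>
  bl row Y z φ ψ m A B 1 0 0 fun P N =>
    sq (Nat.div (ful (Nat.mul K (Nat.succ m))) (ful K)) fun O =>
    sq (Nat.shiftLeft O (Nat.pred K)) fun T =>
    Nat.beq (Nat.land (Nat.sub (Nat.add P T) (Nat.add N O)) T) T

/-- The difference is positive between `a / b` and `371 / 475`. -/
def bis (W row m A B : ℕ) (cs : List (ℕ × ℕ)) : ℕ → ℕ → Bool :=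
  List.rec (motive := fun _ => ℕ → ℕ → Bool) (fun a b => bern1 W row m A B a b 371 475)
    (fun c _ r a b => bern1 W row m A B a b 371 475 ||
      (bern1 W row m A B a b c.1 c.2 && r c.1 c.2)) cs

/-- The glued graph has a positive value. -/
def posF (P : PD) (o co : ℕ) : Bool :=
  Nat.ble 1 P.D.s && Nat.ble P.D.s 6 && Nat.ble (Nat.add P.D.s P.ni) 8 &&
  Nat.ble (Nat.add P.D.s o) 8 &&
  win P.D o co P.V fun X Y =>
    sq (Nat.add (df X (mk P.D 64)) (Nat.land Y (mk P.D 64))) fun A =>
    sq (Nat.add (df Y (mk P.D 64)) (Nat.land X (mk P.D 64))) fun B =>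
    frc (blk P.D.row 70 (Nat.lor A B)) fun m =>
    bif tb (Nat.add (Nat.add P.D.s P.ni) o) 0 then
      bis P.D.W P.D.row m B A [(1, 2), (2, 3), (3, 4), (10, 13), (7, 9)] 1 4
    else bis P.D.W P.D.row m A B [(1, 2), (2, 3), (3, 4), (10, 13), (7, 9)] 1 4

end Pool.Agent.Lib.MP_efe3d7_co.J
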