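import Pool.Agent.Lib.MP_efe3d7_co.J.XD
import Pool.Agent.Lib.MP_efe3d7_co.J.EvD

/-! The test for columns that are exceptional graphs. -/

set_option autoImplicit false

open Finset

namespace Pool.Agent.Lib.MP_efe3d7_co.J

open H

/-- Table number `k`. -/
def xtab (T k : ℕ) : ℕ := Nat.land (Nat.shiftRight T (Nat.mul 336 k)) (Nat.pred (Nat.shiftLeft 1 336))

/-- The tables with type `t` on the pair `i, l`. -/
def gm (M c i l t : ℕ) : ℕ := Nat.shiftRight M (Nat.mul c (Nat.add (Nat.mul 3 (px i l)) t))

/-- Some bit from `64` on is set. -/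
def big (R : ℕ) : Bool := Nat.ble 18446744073709551616 R

/-- Change the digits `1, ..., 15`. -/
def slt (x : ℕ) : ℕ := Nat.xor x (Nat.mul (Nat.mod x 20000000000021) 8)

/-- Shrink a set of tables. -/
def fo (n : ℕ) (f : ℕ → ℕ → ℕ) (R : ℕ) : ℕ :=
  Nat.rec R (fun i r => frc r fun r => bif big r then f i r else 0) n

/-- The table with the entries `f i l`, `i < l < n`. -/
def bld (n : ℕ) (f : ℕ → ℕ → ℕ) : ℕ :=
  Nat.rec 0 (fun l r => Nat.rec r (fun i t =>
    Nat.lor t (Nat.shiftLeft (f i l) (Nat.mul 3 (Nat.add (Nat.mul 16 l) i)))) l) n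

/-- The first bit from `64` on. -/
def low (R : ℕ) : ℕ :=
  Nat.land (Nat.shiftRight DL
    (Nat.mul 12 (Nat.mod (Nat.gcd (Nat.shiftRight R 64) (Nat.shiftLeft 1 2600)) 2621))) 4095

/-- `f k` for all bits `k` from `64` on. -/
def bits (f : ℕ → Bool) (fuel : ℕ) : ℕ → Bool :=
  Nat.rec (fun _ => false) (fun _ r R => !big R ||
    frc (low R) fun k => f k && frc (Nat.xor R (Nat.lor (bt k) k)) r) fuel

/-- All values of the digits of the pairs in the set `F`. -/
def dF (F : ℕ) (k : ℕ → Bool) (s : ℕ) : ℕ → Bool :=
  Nat.rec k (fun l r => Nat.rec r (fun i q ad => frc (Nat.add (Nat.mul 16 l) i) fun e =>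
    bif tb F e then frc (sdg ad e 0) q && frc (sdg ad e 1) q && frc (sdg ad e 2) q else q ad) l) s

/-- The type of two parallel edges. -/
def parN (s t : ℕ) : ℕ :=
  bif Nat.beq s 1 || Nat.beq t 1 then 1 else bif Nat.beq s 2 || Nat.beq t 2 then 2 else 0

/-- One of the merged vertices. -/
def inM (g : Col) (i : ℕ) : Bool := g.mg && (Nat.beq i g.a || Nat.beq i g.b)

/-- The index after the merge. -/
def rh (g : Col) (i : ℕ) : ℕ := bif g.mg && Nat.blt g.b i then Nat.pred i else i

/-- The index of a vertex of the window, the `o` outer vertices coming after the terminals. -/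
def wi (s o i : ℕ) : ℕ := bif Nat.blt i s then i else Nat.add i o

/-- The type in the column does not depend on the graph. -/
def fx (p : Pre) (g : Col) (i l : ℕ) : Bool := tb (fld p.kn l) i || nz (ty g.ct l i)

/-- The tables that fit the column. -/
def base (p : Pre) (g : Col) (M c o R : ℕ) : ℕ :=
  fo (Nat.pred o) (fun z r => frc (rh g (Nat.add p.s z)) fun l => Nat.land r (gm M c l l 0))
    (fo g.ni (fun u r => frc (rh g (Nat.add (Nat.add p.s o) u)) fun U =>
      fo o (fun z r => Nat.land r (gm M c U (rh g (Nat.add p.s z)) 0))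
        (bif g.mg then Nat.land r (gm M c (rh g g.a) U
          (parN (ty g.ct g.a (Nat.add p.s u)) (ty g.ct g.b (Nat.add p.s u)))) else r))
      (fo (Nat.add p.s g.ni) (fun l r => fo l (fun i r =>
        bif inM g i || inM g l || !fx p g i l then r else
          Nat.land r (gm M c (rh g (wi p.s o i)) (rh g (wi p.s o l)) (ty g.ct l i))) r) R))

/-- The type in the column of a pair with type `t` in the graph. -/
def sig (p : Pre) (g : Col) (i l t : ℕ) : ℕ := bif Nat.blt l p.s && fx p g i l then ty g.ct l i else t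

/-- The types allowed at the merged vertices. -/
def okM (fb : Bool) (p : Pre) (g : Col) (l t t' : ℕ) : Bool :=
  bif Nat.blt l p.s then !(tb (fld p.kn l) g.a && nz t) && !(tb (fld p.kn l) g.b && nz t') else
    bif fb then !(nz t && nz t') else !(Nat.beq t 2 && Nat.beq t' 2)

/-- All types at the merged vertices. -/
def dM (fb : Bool) (p : Pre) (g : Col) (M c : ℕ) (k : ℕ → ℕ → Bool) (N : ℕ) : ℕ → ℕ → Bool :=
  Nat.rec k (fun l r R ad => bif inM g l then r R ad else
    allB 3 fun t => allB 3 fun t' => !okM fb p g l t t' ||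
      frc (Nat.land R (gm M c (rh g g.a) (rh g l) (parN (sig p g g.a l t) (sig p g g.b l t'))))
        fun R => !big R || frc (slt (sdg (sdg ad (px g.a l) t) (px g.b l) t')) (r R)) N

/-- The pairs of terminals whose type is overwritten. -/
def frM (p : Pre) (g : Col) : ℕ :=
  pk p.s fun l => msk l fun i => !(inM g i || inM g l) && !tb (fld p.kn l) i && nz (ty g.ct l i)

/-- The pairs whose type is read from the table. -/
def rdM (p : Pre) (g : Col) (N : ℕ) : ℕ :=
  bld N fun i l => bif inM g i || inM g l || (Nat.blt l p.s && fx p g i l) then 0 else 7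

/-- The number of further neighbours that the terminals need. -/
def rqM (p : Pre) (h : ℕ) : ℕ :=
  pk p.s fun i => Nat.sub (bif tb p.d5 i then 5 else bif tb p.d4 i then 4 else 3)
    (cnt p.n fun l => nz (ty h i l))

/-- Some terminal has too few neighbours. -/
def dgBad (s N RQ co : ℕ) : Bool :=
  anyB s fun i => frc (fld RQ i) fun q => nz q && Nat.blt (cnt N fun l => nz (ty co i l)) q

/-- The table of the whole graph: terminals, outer vertices, inner vertices. -/
def whole (s o nI h co : ℕ) : ℕ :=
  bld (Nat.add (Nat.add s o) nI) fun i l =>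
    bif Nat.blt l (Nat.add s o) then Nat.add (ty co i l) (bif Nat.blt l s then ty h i l else 0) else
      bif Nat.blt i s then ty h i (Nat.sub l o) else
        bif Nat.blt i (Nat.add s o) then 0 else ty h (Nat.sub i o) (Nat.sub l o)

/-- The code gives an isomorphism with one of the eleven graphs. -/
def isoC (n G code : ℕ) : Bool :=
  frc (Nat.mod code 16) fun j => frc (Nat.shiftRight code 4) fun σ => frc (xt j) fun X =>
    Nat.ble j 10 && Nat.beq (xn j) n && allB n fun a => Nat.blt (dig σ a) n &&
      allB a fun b => !Nat.beq (dig σ a) (dig σ b) && Nat.beq (ty X a b) (ty G (dig σ a) (dig σ b))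

/-- A guess for the code. -/
def fnd (n G M c J : ℕ) : ℕ :=
  Nat.mod (Nat.shiftRight J (Nat.mul 32 (low
    (fo n (fun l r => fo l (fun i r => Nat.land r (gm M c i l (ty G i l))) r) (ful c))))) 4294967296

/-- The graph is one of the eleven graphs. -/
def isoF (s o nI h co : ℕ) : Bool :=
  frc (Nat.add (Nat.add s o) nI) fun n => Nat.ble n 7 && frc (whole s o nI h co) fun G =>
    frc (bif Nat.ble n 5 then fnd n G MM5 260 PJ5 else bif Nat.ble n 6 then fnd n G MM6 556 PJ6 else
      fnd n G MM7 2584 PJ7) (isoC n G) || k34.any (isoC n G)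

/-- The graph with the outer part `co` is impossible, positive or exceptional. -/
def leaf (P : PD) (p : Pre) (h RQ o co : ℕ) : Bool :=
  dgBad p.s (Nat.add p.s o) RQ co || posF P o co || isoF p.s o (Nat.sub p.n p.s) h co

/-- The test against the exceptional graphs with `n` vertices, for the tables in `R`. -/
def xN (fb : Bool) (P : PD) (p : Pre) (h RQ : ℕ) (g : Col) (n c M T R : ℕ) : Bool :=
  frc (bif g.mg then Nat.succ n else n) fun n' => Nat.blt n' (Nat.add p.s g.ni) ||
    frc (Nat.sub n' (Nat.add p.s g.ni)) fun o =>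
    frc (base p g M c o (Nat.xor R (Nat.mod g.ct 200000000000027))) fun R => !big R ||
      frc (Nat.add p.s o) fun N => frc (rdM p g N) fun D => frc (frM p g) fun F =>
        let k : ℕ → ℕ → Bool := fun R ad => bits (fun k => frc (xtab T k) fun X =>
          frc (slt (Nat.land (bif g.mg then bld N fun i l => ty X (rh g i) (rh g l) else X) D))
            fun Y => dF F (fun ad => frc (slt (Nat.lor Y ad)) (leaf P p h RQ o))
              (bif nz F then p.s else 0) ad) c R
        bif g.mg then dM fb p g M c k N R 0 else k R 0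

/-- The test of all columns. -/
def xCore (fb : Bool) (p : Pre) (h : ℕ) (cols : List Col) (R5 R6 R7 : ℕ) : Bool :=
  mkPD p.s (Nat.sub p.n p.s) h fun P => frc (rqM p h) fun RQ => cols.all fun g =>
    xN fb P p h RQ g 5 260 MM5 TB5 R5 && xN fb P p h RQ g 6 556 MM6 TB6 R6 &&
      xN fb P p h RQ g 7 2584 MM7 TB7 R7

/-- The test of all columns of a certificate. -/
def xOk (_m : Md) (p : Pre) (h : ℕ) (cols : List Col) : Bool :=
  xCore true p h cols (ful 260) (ful 556) (ful 2584)

end Pool.Agent.Lib.MP_efe3d7_co.J
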