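import Pool.Agent.Lib.MP_efe3d7_co.J.CfD
import Pool.Agent.Lib.MP_efe3d7_co.J.PSz
import Pool.Agent.Lib.MP_efe3d7_co.J.XC

/-! The test of certificates and of closed graphs. -/

set_option autoImplicit false

namespace Pool.Agent.Lib.MP_efe3d7_co.J

open H

/-- The shape of the window, the sizes and the weights are in order. -/
def certS (m : Md) (k : K) (c : Cert) : Bool :=
  strOk k c.s && frc k.ct fun t => mkPre m k c.s fun p => szF p t c

/-- The columns stay in the class; if `ex` holds, columns with `r = 99` are not tested. -/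
def certC (ex : Bool) (m : Md) (k : K) (c : Cert) : Bool :=
  (m.rl || m.wm) && mkPre m k c.s fun p =>
    safeG ex m p (msk k.n fun i => Nat.ble 6 (k.el m i)) c.hs c.cols

/-- The identities hold. -/
def certI (k : K) (c : Cert) : Bool := frc k.ct fun t => idF c.s (Nat.sub k.n c.s) t c.cols c.pcs

/-- Exceptional columns do no harm. -/
def certX (m : Md) (k : K) (c : Cert) : Bool :=
  frc k.ct fun t => mkPre m k c.s fun p => xOk m p t c.cols

/-- The certificate is in order. -/
def certF (ex : Bool) (m : Md) (k : K) (c : Cert) : Bool :=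
  certS m k c && certC ex m k c && certI k c && certX m k c

/-- The table `t` on `n` vertices is the table `t'` along `σ`. -/
def isoOk (n t t' σ : ℕ) : Bool :=
  (allB n fun i => Nat.blt (hx σ i) n && allB i fun j => !Nat.beq (hx σ i) (hx σ j) &&
    Nat.beq (ty t (hx σ i) (hx σ j)) (ty t' i j))

/-- The whole graph is known, and it is positive or exceptional. -/
def baseF (k : K) (j σ : ℕ) : Bool :=
  Nat.ble 1 k.n && Nat.ble k.n 8 &&
  (allB k.n fun i => tb k.lq i && k.cl i && allB i fun l => Nat.ble (k.eP i l) 3) &&
  frc k.ct fun t => bif Nat.beq j 11 then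
    Nat.ble σ k.n && mkPD σ 0 0 fun P => posF P (Nat.sub k.n σ) t else
    Nat.ble j 10 && Nat.beq k.n (xn j) && frc (xt j) fun t' => isoOk k.n t t' σ

end Pool.Agent.Lib.MP_efe3d7_co.J
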