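import Pool.Agent.Lib.MP_efe3d7_co.J.CrtD

/-! The test for exceptional columns, split into ranges of tables. -/

set_option autoImplicit false

namespace Pool.Agent.Lib.MP_efe3d7_co.J

open H

/-- Exceptional columns with tables in `R5`, `R6`, `R7` do no harm. -/
def certXR (m : Md) (k : K) (c : Cert) (R5 R6 R7 : ℕ) : Bool :=
  frc k.ct fun t => mkPre m k c.s fun p => xCore true p t c.cols R5 R6 R7

/-- The union of the masks in a list. -/
def lorL (l : List ℕ) : ℕ := l.foldr Nat.lor 0

/-- The ranges cover all tables. -/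
def covR (Rs : List (ℕ × ℕ × ℕ)) : Bool :=
  Nat.beq (lorL (Rs.map fun r => r.1)) (ful 260) &&
    Nat.beq (lorL (Rs.map fun r => r.2.1)) (ful 556) &&
    Nat.beq (lorL (Rs.map fun r => r.2.2)) (ful 2584)

end Pool.Agent.Lib.MP_efe3d7_co.J
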