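import Pool.Agent.Lib.MP_efe3d7_co.J.Cf4
import Pool.Agent.Lib.MP_efe3d7_co.J.L2D

/-! Small cuts at a boundary vertex of a column. -/

set_option autoImplicit false

open Finset

namespace Pool.Agent.Lib.MP_efe3d7_co.J

open H

variable {α : Type} [Fintype α] [DecidableEq α]

open Classical in
/-- The number of vertices of `B` outside the window. -/
noncomputable def tcO (p : Pre) (v : ℕ → α) (B : Finset α) : ℕ :=
  (B.filter fun z => ∀ l < p.n, v l ≠ z).card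

/-- A small cut `(B + v i, S)` of a column at the boundary vertex `v i`, with position `q`. -/
structure TC (p : Pre) (g : Col) (V : Finset α) (τ : Sym2 α → Fin 3) (E : Env α) (v : ℕ → α)
    (V' : Finset α) (τ' : Sym2 α → Fin 3) (i q : ℕ) (B S : Finset α) : Prop where
  is : i < p.s
  iT : v i ∈ E.T
  tri : ∀ z ∈ V, z ∈ E.Q ∨ z ∈ E.T
  bV : B ⊆ V'
  bQ : B ⊆ E.Q
  sV : S ⊆ V'
  sB : ∀ z ∈ S, z ∉ B ∧ z ≠ v i
  cS : S.card ≤ 2
  cov : Cov V' τ' (insert (v i) B) S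
  q0 : q < 65536
  q1 : ∀ j < 8, tb q j = true ↔ j < p.s + g.ni ∧ (v (rho g j) ∈ B ∨ (j ≠ i ∧ rho g j = i))
  q2 : ∀ j, tb q (8 + j) = true ↔ j < p.s + g.ni ∧ (j = i ∨ v (rho g j) ∈ S)

end Pool.Agent.Lib.MP_efe3d7_co.J
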