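import Pool.Agent.Lib.MP_efe3d7_co.J.DL

/-! Certificates. -/

set_option autoImplicit false

namespace Pool.Agent.Lib.MP_efe3d7_co.J.Tw

open H

noncomputable section

/-- A node. -/
def h3_0 : Nd :=
  ⟨311, 16, 12584, 14469, 154517671358409722401094274902523975706195055962609594776267817271551850084302786711428495117195747611006384275713, []⟩

/-- A node. -/
def h3_1 : Nd :=
  ⟨371, 19, 12584, 14469, 6088306244316505628035213680245108059830925557320378867211968776572748834064223083650503564033907756668579336067180524722217190782884714166290929927166180625353664747349733165713180548665988029861378764421417975824517804807159808, []⟩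

/-- A node. -/
def h3_2 : Nd :=
  ⟨337, 17, 12584, 14469, 55854087780254463383994041229146922417291653491776508744984461223706327119524388265254436113888043355412048816223534012807008069395037833046584875972876060259093910961237369010144557552726640719747993709639194140409360790254865763697439049380831109514028556297796786337328753880569518598405693506625862858282302037472063175636910342144, []⟩

/-- A node. -/
def h3_3 : Nd :=
  ⟨337, 17, 12584, 14469, 1030326062752862107049318922716154963051883425635267063593285189554568364495871372504409848946319750282537941374907911796229487255852460980259567879833822548799647349415234119032011010124236446227535424951930817165033469978790790519778819367815676930039241683332066473847053123637168607784383262509059634925969328053779272619198858252984842169744409755648, []⟩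

theorem h3_h0 : onN 18525 (ckG L1 148 512 (fK bT 3 0)) h3_0 = true := by
  decide +kernel

theorem h3_h1 : onN 18525 (ckG L1 148 512 (fK bT 3 0)) h3_1 = true := by
  decide +kernel

theorem h3_h2 : onN 18525 (ckG L1 148 512 (fK bT 3 0)) h3_2 = true := by
  decide +kernel

theorem h3_h3 : onN 18525 (ckG L1 148 512 (fK bT 3 0)) h3_3 = true := by
  decide +kernel

theorem h3_c : Cf 12584 14469 148 no
    (ckG L1 148 512 (fK bT 3 0)) :=
  ⟨[h3_0, h3_1, h3_2, h3_3], allL_cons h3_h0 (allL_cons h3_h1 (allL_cons h3_h2 (allL_cons h3_h3 rfl))),
    by decide +kernel⟩

end

end Pool.Agent.Lib.MP_efe3d7_co.J.Tw
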