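import Pool.Agent.Lib.MP_efe3d7_co.J.DL

/-! Certificates. -/

set_option autoImplicit false

namespace Pool.Agent.Lib.MP_efe3d7_co.J.Tw

open H

noncomputable section

/-- A node. -/
def u50_0 : Nd :=
  ⟨289, 15, 12584, 14469, 257, []⟩

theorem u50_h0 : onN 18525 (ckG LW 2 2048 (fK hT 5 (2048 * 0))) u50_0 = true := by
  decide +kernel

theorem u50_c : Cf 12584 14469 2 no
    (ckG LW 2 2048 (fK hT 5 (2048 * 0))) :=
  ⟨[u50_0], allL_cons u50_h0 rfl,
    by decide +kernel⟩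

/-- A node. -/
def u51_0 : Nd :=
  ⟨289, 15, 12584, 14469, 257, []⟩

theorem u51_h0 : onN 18525 (ckG LW 2 2048 (fK hT 5 (2048 * 1))) u51_0 = true := by
  decide +kernel

theorem u51_c : Cf 12584 14469 2 no
    (ckG LW 2 2048 (fK hT 5 (2048 * 1))) :=
  ⟨[u51_0], allL_cons u51_h0 rfl,
    by decide +kernel⟩

/-- A node. -/
def u52_0 : Nd :=
  ⟨289, 15, 12584, 14469, 257, []⟩

theorem u52_h0 : onN 18525 (ckG LW 2 2048 (fK hT 5 (2048 * 2))) u52_0 = true := by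
  decide +kernel

theorem u52_c : Cf 12584 14469 2 no
    (ckG LW 2 2048 (fK hT 5 (2048 * 2))) :=
  ⟨[u52_0], allL_cons u52_h0 rfl,
    by decide +kernel⟩

/-- A node. -/
def u53_0 : Nd :=
  ⟨329, 17, 12584, 14469, 257, []⟩

theorem u53_h0 : onN 18525 (ckG LW 2 2048 (fK hT 5 (2048 * 3))) u53_0 = true := by
  decide +kernel

theorem u53_c : Cf 12584 14469 2 no
    (ckG LW 2 2048 (fK hT 5 (2048 * 3))) :=
  ⟨[u53_0], allL_cons u53_h0 rfl,
    by decide +kernel⟩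

end

end Pool.Agent.Lib.MP_efe3d7_co.J.Tw
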