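import Pool.Agent.Lib.MP_efe3d7_co.J.DL

/-! Certificates. -/

set_option autoImplicit false

namespace Pool.Agent.Lib.MP_efe3d7_co.J.Tw

open H

noncomputable section

/-- A node. -/
def ks_0 : Nd :=
  ⟨276, 16, 4576, 9360, 18446744073709551616,
    [6694532065781168430250307193933881211552482339224812527812872]⟩

/-- A node. -/
def ks_1 : Nd :=
  ⟨289, 14, 4576, 14469, 72058697878078208,
    [4095836467259740763438220021961030334980186065392254270319625,
    4899673288319043803738187865541115452603943297872780798722344,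
    4899673288319043714535207074245782068519570577816623029158032]⟩

/-- A node. -/
def ks_2 : Nd :=
  ⟨245, 17, 9360, 12168, 18446744073709551616,
    [7665128921615372880459532767973294568757839521712633190304785]⟩

/-- A node. -/
def ks_3 : Nd :=
  ⟨261, 14, 12168, 14469, 18446744073709551616,
    [6743204124158878227296362026372544980484570835935334848539665]⟩

theorem ks_h0 : onN 18525 (ckF (mL 2) 9 (fN 3 T3) (fun i => ce 3 (T3 i)) true fun i => wgt 3 (T3 i)) ks_0 = true := by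
  decide +kernel

theorem ks_h1 : onN 18525 (ckF (mL 2) 9 (fN 3 T3) (fun i => ce 3 (T3 i)) true fun i => wgt 3 (T3 i)) ks_1 = true := by
  decide +kernel

theorem ks_h2 : onN 18525 (ckF (mL 2) 9 (fN 3 T3) (fun i => ce 3 (T3 i)) true fun i => wgt 3 (T3 i)) ks_2 = true := by
  decide +kernel

theorem ks_h3 : onN 18525 (ckF (mL 2) 9 (fN 3 T3) (fun i => ce 3 (T3 i)) true fun i => wgt 3 (T3 i)) ks_3 = true := by
  decide +kernel

theorem ks_c : Cf 4576 14469 9 (tb 69)
    (ckF (mL 2) 9 (fN 3 T3) (fun i => ce 3 (T3 i)) true fun i => wgt 3 (T3 i)) :=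
  ⟨[ks_0, ks_1, ks_2, ks_3], allL_cons ks_h0 (allL_cons ks_h1 (allL_cons ks_h2 (allL_cons ks_h3 rfl))),
    by decide +kernel⟩

/-- A node. -/
def ksx_0 : Nd :=
  ⟨272, 14, 4576, 14469, 18518802771570852096, []⟩

theorem ksx_h0 : onN 18525 (ckX (mL 2) L1 [] 9 3 T3) ksx_0 = true := by
  decide +kernel

theorem ksx_c : Cf 4576 14469 9 (tb 69)
    (ckX (mL 2) L1 [] 9 3 T3) :=
  ⟨[ksx_0], allL_cons ksx_h0 rfl,
    by decide +kernel⟩

/-- A node. -/
def yt_0 : Nd :=
  ⟨275, 16, 4576, 9360, 562949953486849,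
    [4095836467259545643024549335297673683762993210411231022678280,
    8113181577907020952766786191133175717502489203937807280655361]⟩

/-- A node. -/
def yt_1 : Nd :=
  ⟨223, 15, 9360, 12168, 281474976907266,
    [3529695834570705495113630144619215927179931691782763068784904,
    8113181577907021310972505942528814241300764631999392312732161,
    1264862681960278329151158374446442944276671348358941198816116880]⟩

/-- A node. -/
def yt_2 : Nd :=
  ⟨208, 14, 12168, 13104, 844424930263041,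
    [4899330009317885440236738888835805599450816141676613506607618,
    3529303515712243481904339830532520410432659012897186863120520,
    4899280969460386536310755673616970464211279814877200982737032]⟩

/-- A node. -/
def yt_3 : Nd :=
  ⟨223, 13, 13104, 13832, 281474976710656,
    [8113157057978367456750772208962711740380076848276801167818888]⟩

/-- A node. -/
def yt_4 : Nd :=
  ⟨365, 16, 13104, 14469, 65538,
    [6743179604230224032988264015214697062672350758207484359344272,
    1252030716737739661110049384947737550180600009352897179502510344]⟩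

/-- A node. -/
def yt_5 : Nd :=
  ⟨244, 12, 13832, 14469, 281474976710656,
    [8113157057978505864975606457356071913146441505323798002401544]⟩

theorem yt_h0 : onN 18525 (ckF (mT 3) 9 (fN 3 T3) (fun i => ce 3 (T3 i)) true fun i => wgt 3 (T3 i)) yt_0 = true := by
  decide +kernel

theorem yt_h1 : onN 18525 (ckF (mT 3) 9 (fN 3 T3) (fun i => ce 3 (T3 i)) true fun i => wgt 3 (T3 i)) yt_1 = true := by
  decide +kernel

theorem yt_h2 : onN 18525 (ckF (mT 3) 9 (fN 3 T3) (fun i => ce 3 (T3 i)) true fun i => wgt 3 (T3 i)) yt_2 = true := by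
  decide +kernel

theorem yt_h3 : onN 18525 (ckF (mT 3) 9 (fN 3 T3) (fun i => ce 3 (T3 i)) true fun i => wgt 3 (T3 i)) yt_3 = true := by
  decide +kernel

theorem yt_h4 : onN 18525 (ckF (mT 3) 9 (fN 3 T3) (fun i => ce 3 (T3 i)) true fun i => wgt 3 (T3 i)) yt_4 = true := by
  decide +kernel

theorem yt_h5 : onN 18525 (ckF (mT 3) 9 (fN 3 T3) (fun i => ce 3 (T3 i)) true fun i => wgt 3 (T3 i)) yt_5 = true := by
  decide +kernel

theorem yt_c : Cf 4576 14469 9 (fun i => !tb 69 i)
    (ckF (mT 3) 9 (fN 3 T3) (fun i => ce 3 (T3 i)) true fun i => wgt 3 (T3 i)) :=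
  ⟨[yt_0, yt_1, yt_2, yt_3, yt_4, yt_5], allL_cons yt_h0 (allL_cons yt_h1 (allL_cons yt_h2 (allL_cons yt_h3 (allL_cons yt_h4 (allL_cons yt_h5 rfl))))),
    by decide +kernel⟩

/-- A node. -/
def ytx_0 : Nd :=
  ⟨252, 13, 4576, 14469, 281474976776193, []⟩

theorem ytx_h0 : onN 18525 (ckX (mT 3) L2 [] 9 3 T3) ytx_0 = true := by
  decide +kernel

theorem ytx_c : Cf 4576 14469 9 (fun i => !tb 69 i)
    (ckX (mT 3) L2 [] 9 3 T3) :=
  ⟨[ytx_0], allL_cons ytx_h0 rfl,
    by decide +kernel⟩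

/-- A node. -/
def xa_0 : Nd :=
  ⟨272, 16, 4576, 9360, 1,
    [6898537872181149909759933680767952720392339033838652024160400]⟩

/-- A node. -/
def xa_1 : Nd :=
  ⟨199, 14, 9360, 12168, 1,
    [4244500794688053200819075726521657266334683224570882015887632]⟩

/-- A node. -/
def xa_2 : Nd :=
  ⟨377, 17, 12168, 14469, 1,
    [4250385577564927203868123292958888592749526234303132499705992]⟩

theorem xa_h0 : onN 18525 (ckF (mA 2) 3 (fN 2 TA) (fun i => ce 2 (TA i)) true fun i => wgt 2 (TA i)) xa_0 = true := by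
  decide +kernel

theorem xa_h1 : onN 18525 (ckF (mA 2) 3 (fN 2 TA) (fun i => ce 2 (TA i)) true fun i => wgt 2 (TA i)) xa_1 = true := by
  decide +kernel

theorem xa_h2 : onN 18525 (ckF (mA 2) 3 (fN 2 TA) (fun i => ce 2 (TA i)) true fun i => wgt 2 (TA i)) xa_2 = true := by
  decide +kernel

theorem xa_c : Cf 4576 14469 3 (tb 6)
    (ckF (mA 2) 3 (fN 2 TA) (fun i => ce 2 (TA i)) true fun i => wgt 2 (TA i)) :=
  ⟨[xa_0, xa_1, xa_2], allL_cons xa_h0 (allL_cons xa_h1 (allL_cons xa_h2 rfl)),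
    by decide +kernel⟩

/-- A node. -/
def xax_0 : Nd :=
  ⟨229, 12, 4576, 14469, 1, []⟩

theorem xax_h0 : onN 18525 (ckX (mA 2) L4 [] 3 2 TA) xax_0 = true := by
  decide +kernel

theorem xax_c : Cf 4576 14469 3 (tb 6)
    (ckX (mA 2) L4 [] 3 2 TA) :=
  ⟨[xax_0], allL_cons xax_h0 rfl,
    by decide +kernel⟩

/-- A node. -/
def xp_0 : Nd :=
  ⟨277, 14, 4576, 14469, 256,
    [3730244331030579171886243720164084165899335250660636189786448]⟩

theorem xp_h0 : onN 18525 (ckF (mP 2) 3 (fN 2 TA) (fun i => ce 2 (TA i)) true fun i => wgt 2 (TA i)) xp_0 = true := by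
  decide +kernel

theorem xp_c : Cf 4576 14469 3 (tb 5)
    (ckF (mP 2) 3 (fN 2 TA) (fun i => ce 2 (TA i)) true fun i => wgt 2 (TA i)) :=
  ⟨[xp_0], allL_cons xp_h0 rfl,
    by decide +kernel⟩

/-- A node. -/
def xpx_0 : Nd :=
  ⟨210, 11, 4576, 14469, 256, []⟩

theorem xpx_h0 : onN 18525 (ckX (mP 2) L5 [] 3 2 TA) xpx_0 = true := by
  decide +kernel

theorem xpx_c : Cf 4576 14469 3 (tb 5)
    (ckX (mP 2) L5 [] 3 2 TA) :=
  ⟨[xpx_0], allL_cons xpx_h0 rfl,
    by decide +kernel⟩

/-- A node. -/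
def xb_0 : Nd :=
  ⟨236, 14, 4576, 9360, 65536,
    [6895497401027966896050341364100887912575026953032161378173104]⟩

/-- A node. -/
def xb_1 : Nd :=
  ⟨296, 16, 9360, 14469, 65536,
    [4899673288319055133213647006541691349282505430638106865828136]⟩

theorem xb_h0 : onN 18525 (ckF (mB 2) 3 (fN 2 TA) (fun i => ce 2 (TA i)) true fun i => wgt 2 (TA i)) xb_0 = true := by
  decide +kernel

theorem xb_h1 : onN 18525 (ckF (mB 2) 3 (fN 2 TA) (fun i => ce 2 (TA i)) true fun i => wgt 2 (TA i)) xb_1 = true := by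
  decide +kernel

theorem xb_c : Cf 4576 14469 3 (tb 3)
    (ckF (mB 2) 3 (fN 2 TA) (fun i => ce 2 (TA i)) true fun i => wgt 2 (TA i)) :=
  ⟨[xb_0, xb_1], allL_cons xb_h0 (allL_cons xb_h1 rfl),
    by decide +kernel⟩

/-- A node. -/
def xbx_0 : Nd :=
  ⟨249, 13, 4576, 14469, 65536, []⟩

theorem xbx_h0 : onN 18525 (ckX (mB 2) L6 [] 3 2 TA) xbx_0 = true := by
  decide +kernel

theorem xbx_c : Cf 4576 14469 3 (tb 3)
    (ckX (mB 2) L6 [] 3 2 TA) :=
  ⟨[xbx_0], allL_cons xbx_h0 rfl,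
    by decide +kernel⟩

/-- A node. -/
def xc_0 : Nd :=
  ⟨339, 17, 4576, 14469, 65536,
    [7665227001329858005939543574460694130304520119576888541708592]⟩

theorem xc_h0 : onN 18525 (ckF (mC 2) 3 (fN 2 TA) (fun i => ce 2 (TA i)) true fun i => wgt 2 (TA i)) xc_0 = true := by
  decide +kernel

theorem xc_c : Cf 4576 14469 3 (tb 3)
    (ckF (mC 2) 3 (fN 2 TA) (fun i => ce 2 (TA i)) true fun i => wgt 2 (TA i)) :=
  ⟨[xc_0], allL_cons xc_h0 rfl,
    by decide +kernel⟩

/-- A node. -/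
def xcx_0 : Nd :=
  ⟨249, 13, 4576, 14469, 65536, []⟩

theorem xcx_h0 : onN 18525 (ckX (mC 2) L7 [] 3 2 TA) xcx_0 = true := by
  decide +kernel

theorem xcx_c : Cf 4576 14469 3 (tb 3)
    (ckX (mC 2) L7 [] 3 2 TA) :=
  ⟨[xcx_0], allL_cons xcx_h0 rfl,
    by decide +kernel⟩

end

end Pool.Agent.Lib.MP_efe3d7_co.J.Tw
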