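import Pool.Agent.Lib.MP_efe3d7_co.J.DL

/-! Certificates. -/

set_option autoImplicit false

namespace Pool.Agent.Lib.MP_efe3d7_co.J.Tw

open H

noncomputable section

/-- A node. -/
def y111_0 : Nd :=
  ⟨310, 15, 4576, 14469, 258,
    [4949497783343671167450483425315509728092717077110770355941889,
    4899673288318986981439422012340212896042776120362839736070657]⟩

theorem y111_h0 : onN 18525 (ckF (mV 1 1 2) 18 (fN 4 TY) (fun i => ce 4 (TY i)) true fun i => wgt 4 (TY i)) y111_0 = true := by
  decide +kernel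

theorem y111_c : Cf 4576 14469 18 (fun i =>
    !(Nat.beq (stt (i / 6)) 1 && Nat.beq (stt (i / 2 % 3)) 1))
    (ckF (mV 1 1 2) 18 (fN 4 TY) (fun i => ce 4 (TY i)) true fun i => wgt 4 (TY i)) :=
  ⟨[y111_0], allL_cons y111_h0 rfl,
    by decide +kernel⟩

/-- A node. -/
def y111x_0 : Nd :=
  ⟨255, 13, 4576, 14469, 257, []⟩

theorem y111x_h0 : onN 18525 (ckX (mV 1 1 2) L11 [] 18 4 TY) y111x_0 = true := by
  decide +kernel

theorem y111x_c : Cf 4576 14469 18 (fun i =>
    !(Nat.beq (stt (i / 6)) 1 && Nat.beq (stt (i / 2 % 3)) 1))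
    (ckX (mV 1 1 2) L11 [] 18 4 TY) :=
  ⟨[y111x_0], allL_cons y111x_h0 rfl,
    by decide +kernel⟩

/-- A node. -/
def y112_0 : Nd :=
  ⟨267, 15, 4576, 9360, 8606777344,
    [4899722328176386044885595261249578630290199825004438417853057,
    4096204266189353434049810140056260373956828805190051797401896]⟩

/-- A node. -/
def y112_1 : Nd :=
  ⟨369, 18, 4576, 14469, 1099511627776,
    [4899673288319039400037909446024286154530995442442815261395713]⟩

/-- A node. -/
def y112_2 : Nd :=
  ⟨382, 20, 9360, 14469, 8606777344,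
    [4902885398972641890061727407477731256350048160028349109052178,
    4949693942772810668522392708731222439533275020277939244649217]⟩

theorem y112_h0 : onN 18525 (ckF (mV 1 2 2) 18 (fN 4 TY) (fun i => ce 4 (TY i)) true fun i => wgt 4 (TY i)) y112_0 = true := by
  decide +kernel

theorem y112_h1 : onN 18525 (ckF (mV 1 2 2) 18 (fN 4 TY) (fun i => ce 4 (TY i)) true fun i => wgt 4 (TY i)) y112_1 = true := by
  decide +kernel

theorem y112_h2 : onN 18525 (ckF (mV 1 2 2) 18 (fN 4 TY) (fun i => ce 4 (TY i)) true fun i => wgt 4 (TY i)) y112_2 = true := by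
  decide +kernel

theorem y112_c : Cf 4576 14469 18 (fun i =>
    !(Nat.beq (stt (i / 6)) 1 && Nat.beq (stt (i / 2 % 3)) 2))
    (ckF (mV 1 2 2) 18 (fN 4 TY) (fun i => ce 4 (TY i)) true fun i => wgt 4 (TY i)) :=
  ⟨[y112_0, y112_1, y112_2], allL_cons y112_h0 (allL_cons y112_h1 (allL_cons y112_h2 rfl)),
    by decide +kernel⟩

/-- A node. -/
def y112x_0 : Nd :=
  ⟨275, 14, 4576, 14469, 1103823437824, []⟩

theorem y112x_h0 : onN 18525 (ckX (mV 1 2 2) L12 [] 18 4 TY) y112x_0 = true := by
  decide +kernel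

theorem y112x_c : Cf 4576 14469 18 (fun i =>
    !(Nat.beq (stt (i / 6)) 1 && Nat.beq (stt (i / 2 % 3)) 2))
    (ckX (mV 1 2 2) L12 [] 18 4 TY) :=
  ⟨[y112x_0], allL_cons y112x_h0 rfl,
    by decide +kernel⟩

/-- A node. -/
def y121_0 : Nd :=
  ⟨228, 13, 4576, 9360, 79228162514264337593543950336,
    [3529315775676570409712104984776408453890354778107993315617297]⟩

/-- A node. -/
def y121_1 : Nd :=
  ⟨372, 18, 4576, 14469, 40564819207303413186963517210624,
    [4899697808247732180210387214789565218396398937951944713449993,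
    4949522303272233655170689632330450682953325788680229662763537]⟩

/-- A node. -/
def y121_2 : Nd :=
  ⟨322, 17, 9360, 14469, 79228162514264337593543950336,
    [4899697808247601898908488252327039478313514125457382017346065]⟩

theorem y121_h0 : onN 18525 (ckF (mV 2 1 2) 18 (fN 4 TY) (fun i => ce 4 (TY i)) true fun i => wgt 4 (TY i)) y121_0 = true := by
  decide +kernel

theorem y121_h1 : onN 18525 (ckF (mV 2 1 2) 18 (fN 4 TY) (fun i => ce 4 (TY i)) true fun i => wgt 4 (TY i)) y121_1 = true := by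
  decide +kernel

theorem y121_h2 : onN 18525 (ckF (mV 2 1 2) 18 (fN 4 TY) (fun i => ce 4 (TY i)) true fun i => wgt 4 (TY i)) y121_2 = true := by
  decide +kernel

theorem y121_c : Cf 4576 14469 18 (fun i =>
    !(Nat.beq (stt (i / 6)) 2 && Nat.beq (stt (i / 2 % 3)) 1))
    (ckF (mV 2 1 2) 18 (fN 4 TY) (fun i => ce 4 (TY i)) true fun i => wgt 4 (TY i)) :=
  ⟨[y121_0, y121_1, y121_2], allL_cons y121_h0 (allL_cons y121_h1 (allL_cons y121_h2 rfl)),
    by decide +kernel⟩

/-- A node. -/
def y121x_0 : Nd :=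
  ⟨275, 14, 4576, 14469, 20361637766166007100609809874944, []⟩

theorem y121x_h0 : onN 18525 (ckX (mV 2 1 2) L21 [] 18 4 TY) y121x_0 = true := by
  decide +kernel

theorem y121x_c : Cf 4576 14469 18 (fun i =>
    !(Nat.beq (stt (i / 6)) 2 && Nat.beq (stt (i / 2 % 3)) 1))
    (ckX (mV 2 1 2) L21 [] 18 4 TY) :=
  ⟨[y121x_0], allL_cons y121x_h0 rfl,
    by decide +kernel⟩

/-- A node. -/
def y122_0 : Nd :=
  ⟨333, 19, 4576, 9360, 87113620352053511485195713759485070671872,
    [3529720354499359082423319783250826966635529235325146393215144,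
    4902836359115300022800251234692240616438265641632718856913200]⟩

/-- A node. -/
def y122_1 : Nd :=
  ⟨426, 21, 4576, 14469, 680564733841876931667562441806891188224,
    [8113573896765581168048012668212834523099733805963308546859658,
    4949914622130695333868801968447389238874473158239684969638673]⟩

/-- A node. -/
def y122_2 : Nd :=
  ⟨398, 21, 9360, 14469, 174225906283813449855735611531578182729728,
    [4096228786118112609856384667363734903109244658528823443399306,
    4096032626688881776082514798944259663533742147881211393649426,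
    3735099276904146210489450500782593571705840733633489856889136]⟩

theorem y122_h0 : onN 18525 (ckF (mV 2 2 2) 18 (fN 4 TY) (fun i => ce 4 (TY i)) true fun i => wgt 4 (TY i)) y122_0 = true := by
  decide +kernel

theorem y122_h1 : onN 18525 (ckF (mV 2 2 2) 18 (fN 4 TY) (fun i => ce 4 (TY i)) true fun i => wgt 4 (TY i)) y122_1 = true := by
  decide +kernel

theorem y122_h2 : onN 18525 (ckF (mV 2 2 2) 18 (fN 4 TY) (fun i => ce 4 (TY i)) true fun i => wgt 4 (TY i)) y122_2 = true := by
  decide +kernel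

theorem y122_c : Cf 4576 14469 18 (fun i =>
    !(Nat.beq (stt (i / 6)) 2 && Nat.beq (stt (i / 2 % 3)) 2))
    (ckF (mV 2 2 2) 18 (fN 4 TY) (fun i => ce 4 (TY i)) true fun i => wgt 4 (TY i)) :=
  ⟨[y122_0, y122_1, y122_2], allL_cons y122_h0 (allL_cons y122_h1 (allL_cons y122_h2 rfl)),
    by decide +kernel⟩

/-- A node. -/
def y122x_0 : Nd :=
  ⟨295, 15, 4576, 14469, 87453902718974139259464260634162294161408, []⟩

theorem y122x_h0 : onN 18525 (ckX (mV 2 2 2) L22 [] 18 4 TY) y122x_0 = true := by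
  decide +kernel

theorem y122x_c : Cf 4576 14469 18 (fun i =>
    !(Nat.beq (stt (i / 6)) 2 && Nat.beq (stt (i / 2 % 3)) 2))
    (ckX (mV 2 2 2) L22 [] 18 4 TY) :=
  ⟨[y122x_0], allL_cons y122x_h0 rfl,
    by decide +kernel⟩

/-- A node. -/
def y2_0 : Nd :=
  ⟨231, 13, 4576, 9360, 65537,
    [4095811947330991216718839393505210583322483624935088707351041]⟩

/-- A node. -/
def y2_1 : Nd :=
  ⟨290, 14, 4576, 14469, 16777728,
    [4899280969460485088922530425849186245592003220488426771993217,
    4095811947330989945576363080045949158946972443665316129549321]⟩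

/-- A node. -/
def y2_2 : Nd :=
  ⟨208, 14, 9360, 12168, 65538,
    [6743179604230224373074628292829974481770659309482772170549761,
    4949693942772811013835494142220441961523901303544674804313089]⟩

/-- A node. -/
def y2_3 : Nd :=
  ⟨305, 16, 12168, 14469, 65538,
    [4952636334211173774393450153983114028020449552186006663350785,
    4902419520328185782975177533247513357042724444321032123200521]⟩

theorem y2_h0 : onN 18525 (ckF (mV 0 0 2) 4 (fN 4 TV) (fun i => ce 4 (TV i)) true fun i => wgt 4 (TV i)) y2_0 = true := by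
  decide +kernel

theorem y2_h1 : onN 18525 (ckF (mV 0 0 2) 4 (fN 4 TV) (fun i => ce 4 (TV i)) true fun i => wgt 4 (TV i)) y2_1 = true := by
  decide +kernel

theorem y2_h2 : onN 18525 (ckF (mV 0 0 2) 4 (fN 4 TV) (fun i => ce 4 (TV i)) true fun i => wgt 4 (TV i)) y2_2 = true := by
  decide +kernel

theorem y2_h3 : onN 18525 (ckF (mV 0 0 2) 4 (fN 4 TV) (fun i => ce 4 (TV i)) true fun i => wgt 4 (TV i)) y2_3 = true := by
  decide +kernel

theorem y2_c : Cf 4576 14469 4 no
    (ckF (mV 0 0 2) 4 (fN 4 TV) (fun i => ce 4 (TV i)) true fun i => wgt 4 (TV i)) :=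
  ⟨[y2_0, y2_1, y2_2, y2_3], allL_cons y2_h0 (allL_cons y2_h1 (allL_cons y2_h2 (allL_cons y2_h3 rfl))),
    by decide +kernel⟩

/-- A node. -/
def y2x_0 : Nd :=
  ⟨315, 16, 4576, 14469, 16843009, []⟩

theorem y2x_h0 : onN 18525 (ckX (mV 0 0 2) L3 [] 4 4 TV) y2x_0 = true := by
  decide +kernel

theorem y2x_c : Cf 4576 14469 4 no
    (ckX (mV 0 0 2) L3 [] 4 4 TV) :=
  ⟨[y2x_0], allL_cons y2x_h0 rfl,
    by decide +kernel⟩

/-- A node. -/
def xu_0 : Nd :=
  ⟨431, 21, 4576, 14469, 16908547,
    [7665913559332261727452562719590678337519938443205859139203074,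
    7665128921615281531032013289698172998748733983310124541063170,
    7464261666082964607914337984216746331275038082414880938436610]⟩

theorem xu_h0 : onN 18525 (ckF (mU 2) 4 (fN 4 TU) (fun i => ce 4 (TU i)) true fun i => wgt 4 (TU i)) xu_0 = true := by
  decide +kernel

theorem xu_c : Cf 4576 14469 4 no
    (ckF (mU 2) 4 (fN 4 TU) (fun i => ce 4 (TU i)) true fun i => wgt 4 (TU i)) :=
  ⟨[xu_0], allL_cons xu_h0 rfl,
    by decide +kernel⟩

/-- A node. -/
def xux_0 : Nd :=
  ⟨354, 18, 4576, 14469, 16843009, []⟩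

theorem xux_h0 : onN 18525 (ckX (mU 2) L8 [] 4 4 TU) xux_0 = true := by
  decide +kernel

theorem xux_c : Cf 4576 14469 4 no
    (ckX (mU 2) L8 [] 4 4 TU) :=
  ⟨[xux_0], allL_cons xux_h0 rfl,
    by decide +kernel⟩

end

end Pool.Agent.Lib.MP_efe3d7_co.J.Tw
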