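import Pool.Agent.Lib.MP_efe3d7_co.J.DL
import Pool.Agent.Lib.MP_efe3d7_co.J.TG0

/-! The lists of rests are complete. -/

set_option autoImplicit false

namespace Pool.Agent.Lib.MP_efe3d7_co.J.Tw

open H

/-- The test for completeness with keys. -/
noncomputable def xsubK (G : List (ℕ × ℕ × ℕ)) (md : Mo) (L : List (ℕ × ℕ)) : Bool :=
  mkL (fun (g : ℕ × ℕ) k => frc (Nat.mod g.2 281474976710597) fun y => k (y, g)) L fun s =>
    allL (fun g => xone md g fun r t => frc (Nat.mod t 281474976710597) fun y =>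
      anyL (fun u => Nat.beq u.1 y && (Nat.beq u.2.2 t && Nat.beq u.2.1 r)) s) G

theorem xsubK_sound {G : List (ℕ × ℕ × ℕ)} {md : Mo} {L : List (ℕ × ℕ)}
    (h : xsubK G md L = true) : xsub G md L = true := by
  obtain ⟨s, h1, _, h3⟩ := mkL_sound (fun (g : ℕ × ℕ) (b : ℕ × ℕ × ℕ) => b.2 = g)
    (fun a k hk => by rw [frc_eq] at hk; exact ⟨_, rfl, hk⟩) h
  rw [xsub]
  rw [allL_iff] at h3 ⊢
  intro g hg
  have h4 := h3 g hg
  simp only [xone, allB_iff, Bool.or_eq_true, frc_eq] at h4 ⊢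
  refine h4.imp_right fun h5 a ha => (h5 a ha).imp_right fun h6 b hb =>
    (h6 b hb).imp_right fun h7 c hc => (h7 c hc).imp_right fun h8 => h8.imp_right fun k => ?_
  simp only [Bool.and_eq_true, anyL_iff] at k ⊢
  obtain ⟨u, hu, _, k1⟩ := k
  obtain ⟨u', hu', e⟩ := h1 u hu
  exact ⟨u', hu', e ▸ k1⟩

theorem len_L1 : L1.length = 148 := by decide +kernel

end Pool.Agent.Lib.MP_efe3d7_co.J.Tw
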