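import Pool.Agent.Lib.MP_efe3d7_co.J.DS

/-! The lists of rests are complete. -/

set_option autoImplicit false

namespace Pool.Agent.Lib.MP_efe3d7_co.J.Tw

open H

theorem sub_y2 : xsub GX (mV 0 0 2) L3 = true := xsubK_sound (by decide +kernel)

theorem sub_xu : xsub GX (mU 2) L8 = true := xsubK_sound (by decide +kernel)

end Pool.Agent.Lib.MP_efe3d7_co.J.Tw
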