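import Pool.Agent.Lib.MP_efe3d7_co.J.DS

/-! The lists of rests are complete. -/

set_option autoImplicit false

namespace Pool.Agent.Lib.MP_efe3d7_co.J.Tw

open H

theorem sub_y111 : xsub GX (mV 1 1 2) L11 = true := xsubK_sound (by decide +kernel)

theorem sub_y112 : xsub GX (mV 1 2 2) L12 = true := xsubK_sound (by decide +kernel)

theorem sub_y121 : xsub GX (mV 2 1 2) L21 = true := xsubK_sound (by decide +kernel)

theorem sub_y122 : xsub GX (mV 2 2 2) L22 = true := xsubK_sound (by decide +kernel)

theorem sub_xa : xsub GX (mA 2) L4 = true := xsubK_sound (by decide +kernel)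

end Pool.Agent.Lib.MP_efe3d7_co.J.Tw
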