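import Pool.Agent.Lib.MP_efe3d7_co.J.DS

/-! The lists of rests are complete. -/

set_option autoImplicit false

namespace Pool.Agent.Lib.MP_efe3d7_co.J.Tw

open H

theorem sub_ks : xsub GX (mL 2) L1 = true := xsubK_sound (by decide +kernel)

theorem sub_yt : xsub GX (mT 3) L2 = true := xsubK_sound (by decide +kernel)

theorem sub_kt : xsub GX (mT 2) L2 = true := xsubK_sound (by decide +kernel)

theorem sub_xp : xsub GX (mP 2) L5 = true := xsubK_sound (by decide +kernel)

theorem sub_xb : xsub GX (mB 2) L6 = true := xsubK_sound (by decide +kernel)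

theorem sub_xc : xsub GX (mC 2) L7 = true := xsubK_sound (by decide +kernel)

end Pool.Agent.Lib.MP_efe3d7_co.J.Tw
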