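import Pool.Agent.Lib.MP_efe3d7_co.J.VF

/-! From the certificates to the facts on fans. -/

set_option autoImplicit false

namespace Pool.Agent.Lib.MP_efe3d7_co.J.Tw

open H
open H.Fn (T5 pr pev)

variable {x : ℝ} {G : List (ℕ × ℕ × ℕ)} {L : List (ℕ × ℕ)}

theorem vg1_cone {md : Mo} {N N' : ℕ} {f γ : T5 ℝ} (hc : Cone x md N' false 0 f) (hN : N' ≤ N)
    (h : ∀ n ct, safe md n ct = true → ce n ct < N → 0 < pr (cv (rOps x) n ct) γ) :
    0 < pr f γ := by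
  simpa using hc γ 0 le_rfl (fun n ct h1 h2 => h n ct h1 (h2.trans_le hN)) (by simp)

theorem vg1_rest (C : Crt G L) {r t : ℕ} (h : XIn G (mL 2) r t) :
    ∃ j < 148, r = (L.getD j (0, 0)).1 ∧ t = (L.getD j (0, 0)).2 := by
  obtain ⟨j, hj, e⟩ := mem_getD (xsub_sound C.sub h)
  exact ⟨j, C.len ▸ hj, by rw [e], by rw [e]⟩

theorem vg1_ind {t : ℕ} {b : Bool} (h : t = 0 → b = false) : bT b ≤ 1 + ind t := by
  cases t with
  | zero => rw [h rfl]; decide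
  | succ t =>
    change _ ≤ 2
    cases b <;> decide

theorem Crt.long (C : Crt G L) (h : Iv x) (g : ℕ → Bool) {k ca ab : ℕ} (hk : 4 ≤ k) (h1 : ca ≤ 2)
    (h2 : ab ≤ 2) : VOk G x (mL 2) 9 (fv x g k ca ab) := by
  obtain ⟨h0, -, hx⟩ := inn_of h
  intro γ hγ
  refine mix h0 h2 h1 fun t s _ _ _ _ => ?_
  obtain ⟨k, rfl⟩ : ∃ k', k = k' + 1 := ⟨k - 1, by omega⟩
  rcases hγ with hγ | ⟨r, u, hr, rfl⟩
  · rcases hx with hx | hx
    · exact box1 (fun i hi => vg1_cone (C.c3.cone (fC_ok _ _ _) hx hi rfl) le_rfl hγ)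
        (box_in (j := 3) C.e3 C.i3 hx g (by omega)) t s _ _
    · rcases hk.eq_or_lt with e | e
      · obtain ⟨i, -, hi, -, -, -, -, e'⟩ := typ_idx (x := x) bT 4 g t s false
        rw [← e, ← e']
        exact vg1_cone (C.k4.cone (fK_ok _ _ _) hx (hi rfl) rfl) le_rfl hγ
      · exact box1 (fun i hi => vg1_cone (C.c4.cone (fC_ok _ _ _) hx hi rfl) le_rfl hγ)
          (box_in (j := 4) C.e4 C.i4 hx g (by omega)) t s _ _
  · obtain ⟨j, hj, rfl, rfl⟩ := vg1_rest C hr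
    rw [pr_sc]
    refine mul_pos (by linarith) ?_
    rcases hx with hx | hx
    · exact box0 (fun i hi => C.g3.gam (fC_ok _ _ _) hx hj rfl hi)
        (box_in (j := 3) C.e3 C.i3 hx g (by omega)) t s
    · cases hb : tb 101 j
      · exact box0 (fun i hi => C.g4.gam (fC_ok _ _ _) hx hj hb hi)
          (box_in (j := 4) C.e4 C.i4 hx g hk) t s
      · have hb' : (!tb 101 j) = false := by rw [hb]; rfl
        rcases hk.eq_or_lt with e | e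
        · obtain ⟨i, -, hi, -, -, -, -, e'⟩ := typ_idx (x := x) bT 4 g t s false
          rw [← e, ← e']
          exact C.h4.gam (fK_ok _ _ _) hx hj hb' (hi rfl)
        · exact box1 (fun i hi => C.g5.gam (fC_ok _ _ _) hx hj hb' hi)
            (box_in (j := 4) C.e4 C.i4 hx g (by omega)) t s _ _

theorem Crt.three (C : Crt G L) (h : Iv x) (g : ℕ → Bool) {ca ab : ℕ} (h1 : ca ≤ 2)
    (h2 : ab ≤ 2) (hg : ¬ Sp 7 42 g) :
    VOk G x (mL 2) (7 + ind ca + ind ab) (fv x g 3 ca ab) := by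
  obtain ⟨h0, hw, hx⟩ := inn_of h
  intro γ hγ
  refine mix h0 h2 h1 fun t s a1 _ a2 _ => ?_
  obtain ⟨i, -, hi, b0, b1, -, hs, e⟩ := typ_idx (x := x) bT 3 g t s false
  rcases hγ with hγ | ⟨r, u, hr, rfl⟩
  · rw [← e]
    refine vg1_cone (C.k3.cone (fK_ok _ _ _) hw (hi rfl) ?_) ?_ hγ
    · exact Bool.eq_false_iff.2 fun e' => hg (Nat.eq_of_beq_eq_true e' ▸ hs)
    · have := vg1_ind a1
      have := vg1_ind a2
      rw [n3, b0, b1]
      omega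
  · obtain ⟨j, hj, rfl, rfl⟩ := vg1_rest C hr
    rw [pr_sc]
    refine mul_pos (by linarith) ?_
    rcases hx with hx | hx
    · exact box0 (fun i hi => C.g3.gam (fC_ok _ _ _) hx hj rfl hi)
        (box_in (j := 3) C.e3 C.i3 hx g le_rfl) t s
    · rw [← e]
      exact C.h3.gam (fK_ok _ _ _) hx hj rfl (hi rfl)

theorem vg2_fv (g : ℕ → Bool) (k : ℕ) (ca ab : Bool) :
    fv x g k (bT ca) (bT ab) = fin (rOps x) (hT ab) (hT ca) (sta (rOps x) g k) := by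
  cases ca <;> cases ab <;> rfl

theorem vg2_gam {lo hi M : ℕ} {F : Fa} (h : Cf lo hi 2 no (ckG LW 2 M F)) (hF : FaOk F)
    (hx : Inn 18525 lo hi x) (b : Bool) (i : ℕ) (hi' : i < M) :
    0 < pr (F (rOps x) i) (gam (rOps x) 0 (mkT [(0, 2, bT b)])) := by
  cases b
  · exact h.gam (j := 0) hF hx (by omega) rfl hi'
  · exact h.gam (j := 1) hF hx (by omega) rfl hi'

theorem vg2_w {k : ℕ} {e : (ℕ → Bool) → List (ℕ × ℕ × ℕ)} {xc : List (ℕ × ℕ)}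
    (he : ∀ m g, Sp (2 * k + 1) m g → e g = e (tb m))
    (h : Cf 4576 14469 (2 ^ (2 * k + 4)) (xw k e xc)
      (ckP (2 ^ (2 * k + 4)) (fK hT k 0) (fG (2 * k + 3))))
    (hx : Inn 18525 4576 14469 x) (g : ℕ → Bool) (ca ab bc : Bool) :
    0 < pr (fv x g k (bT ca) (bT ab)) (gam (rOps x) 0 (mkT [(0, 2, bT bc)])) ∨
    ∃ u, isx (mL 0) k (fT (e g) (bT ca) (bT ab)) 0 (mkT [(0, 2, bT bc)]) u = true := by
  obtain ⟨i, hi, -, h0, h1, h2, h3, h4⟩ := typ_idx (x := x) hT k g ab ca bc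
  cases q : xw k e xc i
  · have := h.pair (fK_ok _ _ _) (fG_ok _) hx hi q
    rw [h4, fG, gamS_eq, h2] at this
    exact Or.inl (by rwa [vg2_fv])
  · rw [xw, anyL_iff, h0, h1, h2, ← he _ _ h3] at q
    obtain ⟨u, -, q⟩ := q
    exact Or.inr ⟨u, q⟩

theorem Crt.wh (C : Crt G L) (h : Iv x) (g : ℕ → Bool) {k : ℕ} (ca ab bc : Bool) (hk : 4 ≤ k) :
    0 < pr (fv x g k (bT ca) (bT ab)) (gam (rOps x) 0 (mkT [(0, 2, bT bc)])) := by
  rw [vg2_fv]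
  rcases (inn_of h).2.2 with hx | hx
  · exact box0 (vg2_gam C.u3 (fC_ok _ _ _) hx bc) (box_in (j := 3) C.e3 C.i3 hx g (by omega)) _ _
  obtain rfl | hk := hk.eq_or_lt
  · obtain ⟨i, -, hi, -, -, -, -, e⟩ := typ_idx (x := x) hT 4 g ab ca false
    rw [← e]
    exact vg2_gam C.u4 (fK_ok _ _ _) hx bc i (hi rfl)
  obtain rfl | hk := (show 5 ≤ k from hk).eq_or_lt
  · obtain ⟨i, -, hi, -, -, -, -, e⟩ := typ_idx (x := x) hT 5 g ab ca false
    have hi : i < 8192 := hi rfl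
    rw [← e, ← Nat.div_add_mod i 2048, ← fK_add]
    exact vg2_gam (C.u5 _ (by omega)) (fK_ok _ _ _) hx bc _ (Nat.mod_lt _ (by omega))
  · obtain ⟨j, rfl⟩ : ∃ j, k = j + 1 + 1 := ⟨k - 2, by omega⟩
    rw [sta_succ, sta_succ]
    exact box2 (vg2_gam C.u6 (fC_ok _ _ _) hx bc)
      (box_in (j := 4) C.e4 C.i4 hx g (by omega)) _ _ _ _ _ _

theorem Crt.w2 (C : Crt G L) (h : Iv x) (g : ℕ → Bool) (ca ab bc : Bool) :
    0 < pr (fv x g 2 (bT ca) (bT ab)) (gam (rOps x) 0 (mkT [(0, 2, bT bc)])) ∨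
    ∃ u, isx (mL 0) 2 (fT (e2 g) (bT ca) (bT ab)) 0 (mkT [(0, 2, bT bc)]) u = true := by
  obtain ⟨xc, hc⟩ := C.v2
  exact vg2_w (k := 2) (fun _ _ => e2_sp) hc (inn_of h).2.1 g ca ab bc

theorem Crt.w3 (C : Crt G L) (h : Iv x) (g : ℕ → Bool) (ca ab bc : Bool) :
    0 < pr (fv x g 3 (bT ca) (bT ab)) (gam (rOps x) 0 (mkT [(0, 2, bT bc)])) ∨
    ∃ u, isx (mL 0) 3 (fT (Tw.e3 g) (bT ca) (bT ab)) 0 (mkT [(0, 2, bT bc)]) u = true := by
  obtain ⟨xc, hc⟩ := C.v3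
  exact vg2_w (k := 3) (fun _ _ => e3_sp) hc (inn_of h).2.1 g ca ab bc

theorem vg3_t3 {ca ab : ℕ} (h : ab ≤ 2) : T3 (3 * ca + ab) = fT (Tw.e3 (tb 42)) ca ab := by
  rw [T3, show (3 * ca + ab) / 3 = ca by omega, show (3 * ca + ab) % 3 = ab by omega]

theorem vg3_x : ∀ ca ≤ 2, ∀ ab ≤ 2, tb 69 (3 * ca + ab) = true ↔ X12 ca ab := by
  unfold X12
  decide

theorem vg3_y : ∀ cu ≤ 2, ∀ ub ≤ 2, ∀ au : Bool, ∃ i < 18, i / 6 = cu ∧ i / 2 % 3 = ub ∧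
    tb i 0 = au := by
  decide

theorem vg3_stt (t : ℕ) : stt t = 1 ∨ stt t = 2 := by
  unfold stt
  cases Nat.beq t 0 <;> simp

theorem vg3_t2 (g : ℕ → Bool) {ca ab Q : ℕ} (h : ab ≤ 2) (hq : 3 * ca + ab < Q) :
    ∃ i < 32 * Q, i / 32 = 3 * ca + ab ∧ Sp 5 i g ∧ T2 i = fT (e2 g) ca ab := by
  obtain ⟨i, h1, h2, h3⟩ := ex_idx 5 g hq
  have hs : Sp 5 i g := fun j hj => (h3 j hj).symm
  have h4 : i / 32 = 3 * ca + ab := h2
  refine ⟨i, h1, h4, hs, ?_⟩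
  rw [T2, e2_sp hs, show i / 96 = ca by omega, show i / 32 % 3 = ab by omega]

theorem vg3_z : ∀ s t u : Bool, ∃ i < 8, tb i 0 = s ∧ tb i 1 = t ∧ tb i 2 = u := by
  decide

theorem data_of (hG : XE G) (C : Crt G L) (W : Crw G) (h : Iv x) : Data G x := by
  obtain ⟨h0, hx, -⟩ := inn_of h
  refine ⟨h0, hG, fun g k ca ab hk h1 h2 => ⟨2, by omega, C.long h g hk h1 h2⟩,
    fun g ca ab h1 h2 hg => ⟨2, by omega, C.three h g h1 h2 hg⟩, fun ca ab h1 h2 hn => ?_,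
    fun ca ab hn => ?_, fun cu ub au h1 h2 => ?_, fun ca ab au hn h1 => ?_,
    fun g ca ab h1 h2 h3 h4 => ?_, fun g => ?_,
    ⟨2, le_rfl, W.xa.ok hx (i := 0) (by decide) (by decide)⟩,
    ⟨2, le_rfl, W.xp.ok hx (i := 1) (by decide) (by decide)⟩,
    ⟨2, le_rfl, W.xb.ok hx (i := 2) (by decide) (by decide)⟩,
    ⟨2, le_rfl, W.xc.ok hx (i := 2) (by decide) (by decide)⟩, fun s t => ?_, fun s t u => ?_,
    fun g k ca ab bc hk => C.wh h g ca ab bc hk, fun g ca ab bc => C.w2 h g ca ab bc,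
    fun g ca ab bc => C.w3 h g ca ab bc⟩
  · refine ⟨2, by omega, vg3_t3 h2 ▸ W.ks.ok hx (i := 3 * ca + ab) (by omega) ?_⟩
    exact Bool.eq_false_iff.2 fun e => hn ((vg3_x ca h1 ab h2).1 e)
  · have h1 : ca ≤ 2 ∧ ab ≤ 2 ∧ 3 * ca + ab < 9 := by
      unfold X12 at hn
      omega
    refine ⟨3, le_rfl, vg3_t3 h1.2.1 ▸ W.yt.ok hx (i := 3 * ca + ab) h1.2.2 ?_⟩
    show (!tb 69 (3 * ca + ab)) = false
    rw [(vg3_x ca h1.1 ab h1.2.1).2 hn, Bool.not_true]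
  · obtain ⟨i, hi, rfl, rfl, rfl⟩ := vg3_y cu h1 ub h2 au
    exact ⟨2, by omega, (W.y1 _ _ (vg3_stt _) (vg3_stt _)).ok hx hi (by simp)⟩
  · refine ⟨2, by omega, ?_⟩
    rcases hn with hn | ⟨rfl, rfl⟩ | ⟨rfl, rfl⟩
    · exact absurd hn h1
    · cases au
      · exact W.y2.ok hx (i := 0) (by decide) rfl
      · exact W.y2.ok hx (i := 1) (by decide) rfl
    · cases au
      · exact W.y2.ok hx (i := 2) (by decide) rfl
      · exact W.y2.ok hx (i := 3) (by decide) rfl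
  · obtain ⟨i, hi, e, hs, e'⟩ := vg3_t2 g h2 (show 3 * ca + ab < 9 by omega)
    refine ⟨2, le_rfl, e' ▸ W.k2.ok hx hi ?_⟩
    show (Nat.blt i 32 || Nat.beq i 266) = false
    rw [Bool.or_eq_false_iff, Bool.eq_false_iff, Bool.eq_false_iff, ne_eq, ne_eq, Nat.blt_eq,
      Nat.beq_eq]
    refine ⟨by omega, fun c => h4 ⟨fun j hj => ?_, by omega, by omega⟩⟩
    rw [hs j hj, c]
    revert j
    decide
  · obtain ⟨i, hi, -, -, e'⟩ := vg3_t2 g (ca := 0) (ab := 0) (Q := 1) (by omega) (by omega)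
    exact ⟨2, le_rfl, e' ▸ W.kt.ok hx hi rfl⟩
  · obtain ⟨i, hi, rfl, rfl, e⟩ := vg3_z s t false
    have h4 : i < 4 := by
      revert i
      decide
    exact ⟨2, by omega, W.xu.ok hx h4 rfl⟩
  · obtain ⟨i, hi, rfl, rfl, rfl⟩ := vg3_z s t u
    rw [← cvS_eq]
    exact W.xz.pair (fN_ok 3 TZ) fZ_ok hx hi rfl

end Pool.Agent.Lib.MP_efe3d7_co.J.Tw
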