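import Pool.Agent.Lib.MP_efe3d7_co.J.TS

/-! The evaluators respect compatible relations. -/

set_option autoImplicit false

open Finset

namespace Pool.Agent.Lib.MP_efe3d7_co.J.Tw

open H
open H.Fn (T5 pr pev)

variable {β γ : Type} {R : β → γ → Prop} {O : Ops β} {O' : Ops γ}

theorem th_cond {a b : β} {a' b' : γ} (c : Bool) (h1 : R a a') (h2 : R b b') :
    R (bif c then a else b) (bif c then a' else b') := by
  cases c
  exacts [h2, h1]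

theorem Hom.wv (h : Hom R O O') (c : ℕ) : R (wv O c) (wv O' c) := by
  cases c with
  | zero => exact h.c 0
  | succ m =>
    induction m with
    | zero => exact h.c 1
    | succ m ih => exact h.mul h.r ih

theorem Hom.had (h : Hom R O O') {f g : T5 β} {f' g' : T5 γ} (hf : R5 R f f') (hg : R5 R g g') :
    R5 R (had O f g) (had O' f' g') := by
  exact ⟨h.mul hf.1 hg.1, h.mul hf.2.1 hg.2.1, h.mul hf.2.2.1 hg.2.2.1,
    h.mul hf.2.2.2.1 hg.2.2.2.1, h.mul hf.2.2.2.2 hg.2.2.2.2⟩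

theorem th_star (h : Hom R O O') (c a b : ℕ) : R5 R (star O c a b) (star O' c a b) :=
  ⟨h.sub (h.sub (h.sub (h.sub (h.c 2) h.x) (h.wv _)) (h.wv _)) (h.wv _),
    h.sub (h.sub (h.sub (h.c 1) h.x) (h.wv _)) (h.wv _),
    h.sub (h.sub (h.sub (h.c 1) h.x) (h.wv _)) (h.wv _),
    h.sub (h.sub (h.sub (h.c 1) h.x) (h.wv _)) (h.wv _),
    h.sub (h.sub (h.c 0) h.x) (h.wv _)⟩

theorem th_axp (h : Hom R O O') {u : β} {u' : γ} {f g : T5 β} {f' g' : T5 γ} (hu : R u u')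
    (hg : R5 R g g') (hf : R5 R f f') : R5 R (axp O u g f) (axp O' u' g' f') :=
  ⟨h.add hf.1 (h.mul hu hg.1), h.add hf.2.1 (h.mul hu hg.2.1),
    h.add hf.2.2.1 (h.mul hu hg.2.2.1), h.add hf.2.2.2.1 (h.mul hu hg.2.2.2.1),
    h.add hf.2.2.2.2 (h.mul hu hg.2.2.2.2)⟩

theorem th_aux (h : Hom R O O') {F : (ℕ → ℕ → ℕ) → T5 β} {F' : (ℕ → ℕ → ℕ) → T5 γ}
    (hF : ∀ t, R5 R (F t) (F' t)) {a : T5 β} {a' : T5 γ} (ha : R5 R a a') (t : ℕ → ℕ → ℕ)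
    (d m : ℕ) : R5 R (aux O F a t d m) (aux O' F' a' t d m) := by
  induction m with
  | zero => exact ha
  | succ j ih => exact th_cond _ ih (th_axp h (h.sub (h.c 1) (h.wv _)) (hF _) ih)

theorem Hom.net (h : Hom R O O') (n : ℕ) (t : ℕ → ℕ → ℕ) : R5 R (net O n t) (net O' n t) := by
  induction n generalizing t with
  | zero => exact ⟨h.c 1, h.c 1, h.c 1, h.c 1, h.c 1⟩
  | succ m ih =>
    exact th_aux h ih (th_cond _ (th_star h _ _ _) (h.had (th_star h _ _ _) (ih t))) t _ m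

theorem Hom.cv (h : Hom R O O') (n ct : ℕ) : R5 R (cv O n ct) (cv O' n ct) := by
  have g := h.net n fun i j => cd (ty ct i j)
  exact ⟨g.1, h.mul (h.wv _) g.2.1, h.mul (h.wv _) g.2.2.1, h.mul (h.wv _) g.2.2.2.1,
    h.mul (h.wv _) g.2.2.2.2⟩

theorem Hom.gam (h : Hom R O O') (n ct : ℕ) : R5 R (gam O n ct) (gam O' n ct) := by
  exact h.had ⟨h.mul h.x (h.sub (h.c 1) h.x), h.x, h.x, h.x, h.c 1⟩ (h.cv n ct)

theorem th_rowT (h : Hom R O O') (s r : Bool) {t u : β} {t' u' : γ} (ht : R t t') (hu : R u u') :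
    R (rowT O s r t u) (rowT O' s r t' u') :=
  th_cond _ (h.sub hu (h.mul (h.mul h.r h.r) ht)) hu

theorem th_rowU (h : Hom R O O') (s r : Bool) {t u : β} {t' u' : γ} (ht : R t t') (hu : R u u') :
    R (rowU O s r t u) (rowU O' s r t' u') := by
  have h1 := h.mul (th_cond r (h.sub (h.sub (h.c 1) h.x) h.r) (h.sub (h.c 1) h.x)) hu
  exact th_cond _ (h.add h1 (h.mul (h.mul h.x h.r) ht)) h1

theorem Hom.stp (h : Hom R O O') (s r : Bool) {a : T5 β} {a' : T5 γ} (ha : R5 R a a') :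
    R5 R (stp O s r a) (stp O' s r a') := by
  exact ⟨th_cond _ (h.mul (h.sub (h.c 1) h.r) ha.1) ha.1, th_rowT h s r ha.2.1 ha.2.2.1,
    th_rowU h s r ha.2.1 ha.2.2.1, th_rowT h s r ha.2.2.2.1 ha.2.2.2.2,
    th_rowU h s r ha.2.2.2.1 ha.2.2.2.2⟩

theorem Hom.sta (h : Hom R O O') (g : ℕ → Bool) (k : ℕ) : R5 R (sta O g k) (sta O' g k) := by
  induction k with
  | zero =>
    exact th_cond (R := R5 R) _ ⟨h.sub (h.c 1) h.r, h.sub (h.c 0) h.r, h.x, h.c 1,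
      h.sub (h.sub (h.c 1) h.x) h.r⟩ ⟨h.c 1, h.c 0, h.x, h.c 1, h.sub (h.c 1) h.x⟩
  | succ k ih => exact h.stp _ _ ih

theorem Hom.fin (h : Hom R O O') (t s : ℕ) {a : T5 β} {a' : T5 γ} (ha : R5 R a a') :
    R5 R (fin O t s a) (fin O' t s a') := by
  exact ⟨h.sub ha.1 ha.2.2.2.2, h.mul (h.wv _) (h.mul h.x ha.2.2.2.1),
    h.sub (h.mul (h.sub (h.c 1) h.x) ha.1) ha.2.2.2.2, h.mul (h.wv _) ha.2.2.1,
    h.sub (h.c 0) (h.mul (h.wv _) (h.mul h.x ha.2.1))⟩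

theorem Hom.en (h : Hom R O O') (L : List (ℤ × ℤ)) (i : ℕ) (b : Bool) :
    R (en O L i b) (en O' L i b) := by
  exact h.add (h.c _) (h.mul (h.c _) h.x)

theorem Hom.crn (h : Hom R O O') (L : List (ℤ × ℤ)) (m : ℕ) : R5 R (crn O L m) (crn O' L m) := by
  exact ⟨h.c 1000, h.en _ _ _, h.en _ _ _, h.en _ _ _, h.en _ _ _⟩

theorem th_m2 (h : Hom R O O') {a b c d : β} {a' b' c' d' : γ} (ha : R a a') (hb : R b b')
    (hc : R c c') (hd : R d d') : R (m2 O a b c d) (m2 O' a' b' c' d') :=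
  h.sub (h.mul ha hd) (h.mul hb hc)

theorem th_d4 (h : Hom R O O') {p1 p2 p3 p4 q1 q2 q3 q4 r1 r2 r3 r4 s1 s2 s3 s4 : β}
    {p1' p2' p3' p4' q1' q2' q3' q4' r1' r2' r3' r4' s1' s2' s3' s4' : γ}
    (a1 : R p1 p1') (a2 : R p2 p2') (a3 : R p3 p3') (a4 : R p4 p4')
    (b1 : R q1 q1') (b2 : R q2 q2') (b3 : R q3 q3') (b4 : R q4 q4')
    (c1 : R r1 r1') (c2 : R r2 r2') (c3 : R r3 r3') (c4 : R r4 r4')
    (d1 : R s1 s1') (d2 : R s2 s2') (d3 : R s3 s3') (d4 : R s4 s4') :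
    R (Tw.d4 O p1 p2 p3 p4 q1 q2 q3 q4 r1 r2 r3 r4 s1 s2 s3 s4)
      (Tw.d4 O' p1' p2' p3' p4' q1' q2' q3' q4' r1' r2' r3' r4' s1' s2' s3' s4') :=
  h.add (h.add
    (h.sub (h.mul (th_m2 h a1 a2 b1 b2) (th_m2 h c3 c4 d3 d4))
      (h.mul (th_m2 h a1 a3 b1 b3) (th_m2 h c2 c4 d2 d4)))
    (h.add (h.mul (th_m2 h a1 a4 b1 b4) (th_m2 h c2 c3 d2 d3))
      (h.mul (th_m2 h a2 a3 b2 b3) (th_m2 h c1 c4 d1 d4))))
    (h.sub (h.mul (th_m2 h a3 a4 b3 b4) (th_m2 h c1 c2 d1 d2))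
      (h.mul (th_m2 h a2 a4 b2 b4) (th_m2 h c1 c3 d1 d3)))

theorem Hom.crs (h : Hom R O O') {p q r s : T5 β} {p' q' r' s' : T5 γ} (hp : R5 R p p')
    (hq : R5 R q q') (hr : R5 R r r') (hs : R5 R s s') :
    R5 R (crs O p q r s) (crs O' p' q' r' s') := by
  obtain ⟨p1, p2, p3, p4, p5⟩ := hp
  obtain ⟨q1, q2, q3, q4, q5⟩ := hq
  obtain ⟨r1, r2, r3, r4, r5⟩ := hr
  obtain ⟨s1, s2, s3, s4, s5⟩ := hs
  exact ⟨th_d4 h p2 p3 p4 p5 q2 q3 q4 q5 r2 r3 r4 r5 s2 s3 s4 s5,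
    th_d4 h p3 p1 p4 p5 q3 q1 q4 q5 r3 r1 r4 r5 s3 s1 s4 s5,
    th_d4 h p1 p2 p4 p5 q1 q2 q4 q5 r1 r2 r4 r5 s1 s2 s4 s5,
    th_d4 h p2 p1 p3 p5 q2 q1 q3 q5 r2 r1 r3 r5 s2 s1 s3 s5,
    th_d4 h p1 p2 p3 p4 q1 q2 q3 q4 r1 r2 r3 r4 s1 s2 s3 s4⟩

variable {x : ℝ}

theorem wv_zero : wv (rOps x) 0 = 0 := by
  show ((0 : ℤ) : ℝ) = 0
  exact Int.cast_zero

theorem wv_succ (c : ℕ) : wv (rOps x) (c + 1) = (-ee x) ^ c := by
  induction c with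
  | zero =>
    show ((1 : ℤ) : ℝ) = _
    rw [Int.cast_one, pow_zero]
  | succ c ih =>
    show -ee x * wv (rOps x) (c + 1) = _
    rw [ih, pow_succ']

theorem wv_cm (a b : ℕ) : wv (rOps x) (cm a b) = wv (rOps x) a * wv (rOps x) b := by
  cases a with
  | zero =>
    show wv (rOps x) 0 = _
    rw [wv_zero, zero_mul]
  | succ a =>
    cases b with
    | zero =>
      show wv (rOps x) 0 = _
      rw [wv_zero, mul_zero]
    | succ b =>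
      have e : cm (a + 1) (b + 1) = a + b + 1 := by
        show a + 1 + b = a + b + 1
        omega
      rw [e, wv_succ, wv_succ, wv_succ, pow_add]

theorem wv_cd (t : Fin 3) : wv (rOps x) (cd t.val) = wt (ee x) t := by
  have h1 : wv (rOps x) 1 = 1 := by rw [wv_succ (c := 0), pow_zero]
  have h2 : wv (rOps x) 2 = -ee x := by rw [wv_succ (c := 1), pow_one]
  fin_cases t
  · exact h1
  · exact wv_zero
  · exact h2

/-- The rule of Cramer. -/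
theorem cramer (u1 u2 u3 u4 u5 t g : T5 ℝ) :
    dot (rOps x) (crs (rOps x) u2 u3 u4 u5) u1 * pr t g =
      dot (rOps x) (crs (rOps x) u2 u3 u4 u5) t * pr u1 g +
      dot (rOps x) (crs (rOps x) u3 u1 u4 u5) t * pr u2 g +
      dot (rOps x) (crs (rOps x) u1 u2 u4 u5) t * pr u3 g +
      dot (rOps x) (crs (rOps x) u3 u2 u1 u5) t * pr u4 g +
      dot (rOps x) (crs (rOps x) u3 u2 u4 u1) t * pr u5 g := by
  obtain ⟨a1, a2, a3, a4, a5⟩ := u1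
  obtain ⟨b1, b2, b3, b4, b5⟩ := u2
  obtain ⟨c1, c2, c3, c4, c5⟩ := u3
  obtain ⟨d1, d2, d3, d4, d5⟩ := u4
  obtain ⟨e1, e2, e3, e4, e5⟩ := u5
  obtain ⟨t1, t2, t3, t4, t5⟩ := t
  obtain ⟨g1, g2, g3, g4, g5⟩ := g
  simp only [dot, crs, Tw.d4, m2, rOps, pr]
  ring

end Pool.Agent.Lib.MP_efe3d7_co.J.Tw
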