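import Pool.Agent.Lib.MP_efe3d7_co.J.VD
import Pool.Agent.Lib.MP_efe3d7_co.J.TH

/-! Boxes for the states along a fan. -/

set_option autoImplicit false

open Finset

namespace Pool.Agent.Lib.MP_efe3d7_co.J.Tw

open H
open H.Fn (T5 pr pev)

variable {x : ℝ} {R R' : List (ℤ × ℤ)} {a : T5 ℝ}

theorem vb1_dot (c a : T5 ℝ) :
    dot (rOps 0) c a = c.a * a.a + c.b * a.b + c.c * a.c + c.d * a.d + c.e * a.e := rfl

theorem vb1_lin {L : T5 ℝ → ℝ}
    (h : ∀ a, L a = L ⟨1, 0, 0, 0, 0⟩ * a.a + L ⟨0, 1, 0, 0, 0⟩ * a.b + L ⟨0, 0, 1, 0, 0⟩ * a.c +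
      L ⟨0, 0, 0, 1, 0⟩ * a.d + L ⟨0, 0, 0, 0, 1⟩ * a.e) : Lin L :=
  ⟨⟨_, _, _, _, _⟩, h⟩

theorem vb1_one {e : Bool → ℝ} {t u : ℝ} (h : e false * t ≤ u ∧ u ≤ e true * t) (c : ℝ) :
    ∃ b, c * (e b * t) ≤ c * u := by
  rcases le_total 0 c with hc | hc
  · exact ⟨false, mul_le_mul_of_nonneg_left h.1 hc⟩
  · exact ⟨true, mul_le_mul_of_nonpos_left h.2 hc⟩

theorem vb1_crn (h : InR x R a) {L : T5 ℝ → ℝ} (hL : Lin L) :
    ∃ m < 16, a.a * L (crn (rOps x) R m) ≤ 1000 * L a := by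
  obtain ⟨c, hc⟩ := hL
  obtain ⟨-, h1, h2, h3, h4⟩ := h
  obtain ⟨b1, h1⟩ := vb1_one h1 c.b
  obtain ⟨b2, h2⟩ := vb1_one h2 c.c
  obtain ⟨b3, h3⟩ := vb1_one h3 c.d
  obtain ⟨b4, h4⟩ := vb1_one h4 c.e
  obtain ⟨m, hm, e1, e2, e3, e4⟩ := (by decide : ∀ b1 b2 b3 b4 : Bool, ∃ m < 16, tb m 0 = b1 ∧
    tb m 1 = b2 ∧ tb m 2 = b3 ∧ tb m 3 = b4) b1 b2 b3 b4
  refine ⟨m, hm, ?_⟩
  have e : (crn (rOps x) R m).a = 1000 := by simp [crn, rOps]
  rw [hc, hc, vb1_dot, vb1_dot, e]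
  simp only [crn, e1, e2, e3, e4]
  linarith

theorem lin_fin (t s : ℕ) (γ : T5 ℝ) : Lin fun a => pr (fin (rOps x) t s a) γ := by
  refine vb1_lin fun a => ?_
  simp only [pr, fin]
  generalize wv (rOps x) s = p
  generalize wv (rOps x) t = q
  generalize wv (rOps x) (cm s t) = r
  simp only [rOps]
  ring

theorem Lin.stp {L : T5 ℝ → ℝ} (h : Lin L) (s r : Bool) : Lin fun a => L (stp (rOps x) s r a) := by
  obtain ⟨c, hc⟩ := h
  refine vb1_lin fun a => ?_
  simp only [hc, vb1_dot]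
  cases s <;> cases r <;>
    simp only [Tw.stp, rowT, rowU, rOps, cond_true, cond_false, Bool.and_self,
      Bool.and_true, Bool.and_false] <;> ring

/-- A linear function that is positive on the corners is positive on the box. -/
theorem InR.pos (h : InR x R a) {L : T5 ℝ → ℝ} (hL : Lin L)
    (hc : ∀ m < 16, 0 < L (crn (rOps x) R m)) : 0 < L a := by
  obtain ⟨m, hm, h1⟩ := vb1_crn h hL
  linarith [mul_pos h.1 (hc m hm)]

theorem InR.step (h : InR x R a) (s r : Bool)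
    (hc : ∀ m < 16, InR x R' (stp (rOps x) s r (crn (rOps x) R m))) :
    InR x R' (stp (rOps x) s r a) := by
  have key : ∀ c : T5 ℝ, (∀ u, InR x R' u → 0 ≤ dot (rOps 0) c u) →
      0 ≤ dot (rOps 0) c (stp (rOps x) s r a) := fun c h0 => by
    obtain ⟨m, hm, h1⟩ := vb1_crn h (Lin.stp (x := x) ⟨c, fun _ => rfl⟩ s r)
    linarith [mul_nonneg h.1.le (h0 _ (hc m hm))]
  have h0 := h.pos (Lin.stp (x := x) ⟨⟨1, 0, 0, 0, 0⟩, fun _ => rfl⟩ s r) fun m hm => by
    simpa [vb1_dot] using (hc m hm).1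
  have h1 := key ⟨-en (rOps x) R' 0 false, 1000, 0, 0, 0⟩ fun u hu => by
    rw [vb1_dot]; linarith [hu.2.1.1]
  have h2 := key ⟨en (rOps x) R' 0 true, -1000, 0, 0, 0⟩ fun u hu => by
    rw [vb1_dot]; linarith [hu.2.1.2]
  have h3 := key ⟨-en (rOps x) R' 1 false, 0, 1000, 0, 0⟩ fun u hu => by
    rw [vb1_dot]; linarith [hu.2.2.1.1]
  have h4 := key ⟨en (rOps x) R' 1 true, 0, -1000, 0, 0⟩ fun u hu => by
    rw [vb1_dot]; linarith [hu.2.2.1.2]
  have h5 := key ⟨-en (rOps x) R' 2 false, 0, 0, 1000, 0⟩ fun u hu => by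
    rw [vb1_dot]; linarith [hu.2.2.2.1.1]
  have h6 := key ⟨en (rOps x) R' 2 true, 0, 0, -1000, 0⟩ fun u hu => by
    rw [vb1_dot]; linarith [hu.2.2.2.1.2]
  have h7 := key ⟨-en (rOps x) R' 3 false, 0, 0, 0, 1000⟩ fun u hu => by
    rw [vb1_dot]; linarith [hu.2.2.2.2.1]
  have h8 := key ⟨en (rOps x) R' 3 true, 0, 0, 0, -1000⟩ fun u hu => by
    rw [vb1_dot]; linarith [hu.2.2.2.2.2]
  simp only [vb1_dot] at h0 h1 h2 h3 h4 h5 h6 h7 h8
  refine ⟨?_, ⟨?_, ?_⟩, ⟨?_, ?_⟩, ⟨?_, ?_⟩, ?_, ?_⟩ <;> linarith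

theorem sta_succ {β : Type} (O : Ops β) (g : ℕ → Bool) (k : ℕ) :
    sta O g (k + 1) = stp O (g (2 * k + 1)) (g (2 * k + 2)) (sta O g k) := rfl

theorem sta_congr {β : Type} (O : Ops β) {g g' : ℕ → Bool} {k : ℕ}
    (h : ∀ j ≤ 2 * k, g j = g' j) : sta O g k = sta O g' k := by
  induction k with
  | zero => exact congrArg (ini O) (h 0 le_rfl)
  | succ k ih =>
    rw [sta_succ, sta_succ, h _ (by omega), h _ (by omega), ih fun j hj => h j (by omega)]

/-- An invariant box. -/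
theorem sta_in {j : ℕ} (h0 : ∀ g, InR x R (sta (rOps x) g j))
    (hc : ∀ s r, ∀ m < 16, InR x R (stp (rOps x) s r (crn (rOps x) R m))) (g : ℕ → Bool) {k : ℕ}
    (hk : j ≤ k) : InR x R (sta (rOps x) g k) := by
  induction k, hk using Nat.le_induction with
  | base => exact h0 g
  | succ k _ ih =>
    rw [sta_succ]
    exact ih.step _ _ (hc _ _)

/-- A number with given low bits and given quotient. -/
theorem ex_idx (n : ℕ) (g : ℕ → Bool) {q Q : ℕ} (hq : q < Q) :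
    ∃ i < 2 ^ n * Q, i / 2 ^ n = q ∧ ∀ j < n, tb i j = g j := by
  have h : msk n g < 2 ^ n := by
    have e := msk_lt n g
    rwa [show bt n = 2 ^ n from Nat.one_shiftLeft n] at e
  refine ⟨2 ^ n * q + msk n g, ?_, ?_, fun j hj => ?_⟩
  · have e : 2 ^ n * (q + 1) ≤ 2 ^ n * Q := Nat.mul_le_mul_left _ hq
    rw [Nat.mul_succ] at e
    omega
  · rw [Nat.mul_add_div (Nat.two_pow_pos n), Nat.div_eq_of_lt h, Nat.add_zero]
  · rw [tb_eq, Nat.testBit_two_pow_mul_add q h, if_pos hj, ← tb_eq, tb_msk]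
    simp [hj]

theorem vb2_mean {e A B : ℝ} (he : 0 < e) (h1 : 0 < A + 1 * B) (h2 : 0 < A + -e * B) :
    0 < A + 0 * B := by
  by_contra k
  nlinarith [mul_pos he h1]

/-- A hard edge is a mean of no edge and a heavy edge. -/
theorem mix (hx : 0 < x) {γ : T5 ℝ} {t s : ℕ} (ht : t ≤ 2) (hs : s ≤ 2)
    (h : ∀ t' s' : Bool, (t = 0 → t' = false) → (t = 2 → t' = true) → (s = 0 → s' = false) →
      (s = 2 → s' = true) → 0 < pr (fin (rOps x) (bT t') (bT s') a) γ) :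
    0 < pr (fin (rOps x) (cd t) (cd s) a) γ := by
  have he : 0 < ee x := by unfold ee; positivity
  have w0 : wv (rOps x) 0 = 0 := wv_zero
  have w1 : wv (rOps x) 1 = 1 := by rw [wv_succ (c := 0), pow_zero]
  have w2 : wv (rOps x) 2 = -ee x := by rw [wv_succ (c := 1), pow_one]
  obtain ⟨A, B, C, D, e⟩ : ∃ A B C D : ℝ, ∀ t s, pr (fin (rOps x) t s a) γ =
      A + wv (rOps x) t * B + wv (rOps x) s * (C + wv (rOps x) t * D) :=
    ⟨(a.a - a.e) * γ.a - ((1 - x) * a.a - a.e) * γ.c, -(a.c * γ.d), -(x * a.d * γ.b),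
      x * a.b * γ.e, fun t s => by
        unfold fin pr
        simp only [wv_cm]
        generalize wv (rOps x) t = p
        generalize wv (rOps x) s = q
        simp only [rOps, Int.cast_one, Int.cast_zero]
        ring⟩
  have k1 : ∀ t' : Bool, (t = 0 → t' = false) → (t = 2 → t' = true) →
      0 < pr (fin (rOps x) (bT t') (cd s) a) γ := fun t' h0 h2 => by
    have a0 := h t' false h0 h2
    have a2 := h t' true h0 h2
    interval_cases s
    · exact a0 (fun _ => rfl) (by simp)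
    · have b0 := a0 (by simp) (by simp)
      have b2 := a2 (by simp) (by simp)
      rw [e, show bT false = 1 from rfl, w1] at b0
      rw [e, show bT true = 2 from rfl, w2] at b2
      rw [e, show cd 1 = 0 from rfl, w0]
      exact vb2_mean he b0 b2
    · exact a2 (by simp) fun _ => rfl
  interval_cases t
  · exact k1 false (fun _ => rfl) (by simp)
  · have b0 := k1 false (by simp) (by simp)
    have b2 := k1 true (by simp) (by simp)
    rw [e, show bT false = 1 from rfl, w1] at b0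
    rw [e, show bT true = 2 from rfl, w2] at b2
    rw [e, show cd 1 = 0 from rfl, w0]
    have := vb2_mean (A := A + wv (rOps x) (cd s) * C) (B := B + wv (rOps x) (cd s) * D) he
      (by linarith) (by linarith)
    linarith
  · exact k1 true (by simp) fun _ => rfl

theorem pr_sc (c : ℝ) (f g : T5 ℝ) : pr f (sc c g) = c * pr f g := by
  simp only [pr, sc]
  ring

/-- A vector in the cone of the smaller columns that is positive on the listed rests. -/
theorem vok_of {G : List (ℕ × ℕ × ℕ)} (hx : 0 < x) {md : Mo} {N N' : ℕ} {f : T5 ℝ} (hN : N' ≤ N)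
    (hc : Cone x md N' false 0 f) (hg : ∀ r t, XIn G md r t → 0 < pr f (gam (rOps x) r t)) :
    VOk G x md N f := by
  rintro γ (h | ⟨r, t, h, rfl⟩)
  · simpa using hc γ 0 le_rfl (fun n ct h1 h2 => h n ct h1 (h2.trans_le hN)) (by simp)
  · rw [pr_sc]
    exact mul_pos (by linarith) (hg r t h)

end Pool.Agent.Lib.MP_efe3d7_co.J.Tw
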