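import Pool.Agent.Lib.MP_efe3d7_co.J.VW
import Pool.Agent.Lib.MP_efe3d7_co.J.TE

/-! The special fan with two vertices. -/

set_option autoImplicit false

open Finset

namespace Pool.Agent.Lib.MP_efe3d7_co.J.Tw

open H
open H.Fn (T5 pr pev)

variable {α : Type} [DecidableEq α] [Fintype α] {V : Finset α} {τ : Sym2 α → Fin 3} {a : α}
  {v : ℕ → α} {G : List (ℕ × ℕ × ℕ)} {x : ℝ}

theorem vx1_win (D : Data G x) (hc : Con3 V τ) {w : ℕ → α}
    (inj : ∀ i < 7, ∀ j < 7, w i = w j → i = j) (mem : ∀ i < 7, w i ∈ V) {s t : Bool}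
    (hl : ∀ e ∈ eU s t, (τ s(w e.1, w e.2.1)).val = e.2.2)
    (K : ∀ i, 3 ≤ i → i < 7 → ∀ z ∈ nb V τ (w i), ∃ j < 7, w j = z ∧
      ∃ e ∈ eU s t, (e.1 = i ∧ e.2.1 = j) ∨ (e.1 = j ∧ e.2.1 = i)) : Red x V τ := by
  obtain ⟨m, m3, hC, hX⟩ := D.xu s t
  obtain ⟨U, hU⟩ : ∃ U : Finset α, ∀ z, z ∈ U ↔ z ∈ V ∧ ∀ i, 3 ≤ i → i < 7 → w i ≠ z :=
    ⟨V \ (Ico 3 7).image w, fun z => by simp⟩
  have tU : ∀ i < 3, w i ∈ U := fun i hi => (hU _).2 ⟨mem i (by omega), fun j h1 h2 e => by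
    have := inj j h2 i (by omega) e
    omega⟩
  have hp : ∀ n ≤ 4, Pl U w n := fun n hn =>
    ⟨fun i hi j hj => inj i (by omega) j (by omega), tU,
      fun i h1 h2 h => ((hU _).1 h).2 i h1 (by omega) rfl⟩
  have out : ∀ z ∈ V, z ∉ U → ∃ i, 3 ≤ i ∧ i < 7 ∧ w i = z := fun z hz h => by
    by_contra k
    exact h ((hU z).2 ⟨hz, fun i h1 h2 e => k ⟨i, h1, h2, e⟩⟩)
  have cov : ∀ q ∈ V, q ∉ U → ∀ z ∈ nb V τ q, z ∈ U → ∃ i < 3, w i = z := fun q hq h z hz hz' => by
    obtain ⟨i, h1, h2, rfl⟩ := out q hq h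
    obtain ⟨j, h3, h4, -⟩ := K i h1 h2 z hz
    exact ⟨j, by_contra fun k => ((hU z).1 hz').2 j (by omega) h3 h4, h4⟩
  have pm0 : ∀ i j, (mU m).pm i j = 0 := fun i j => by simp [Mo.pm, mU]
  have hkp : ∀ i z, z ∈ kp (mU m) V τ U w i ↔ z ∈ nb V τ (w i) ∧ z ∈ U := fun i z => by
    simp [kp, pm0]
  have h4 : 4 ≤ V.card := by
    have := card_le_card (s := (range 4).image w) (t := V) fun z hz => by
      obtain ⟨i, hi, rfl⟩ := mem_image.1 hz
      exact mem i (by have := mem_range.1 hi; omega)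
    rwa [card_image_of_injOn fun i hi j hj => inj i (by have := mem_range.1 hi; omega) j
      (by have := mem_range.1 hj; omega), card_range] at this
  have one : ∀ j < 3, j ≠ 1 → ∀ z ∈ nb V τ (w j), z ∉ U → z = w (5 + j / 2) :=
    fun j hj j1 z hz h => by
      obtain ⟨i, h1, h2, rfl⟩ := out z (nb_sub _ hz) h
      obtain ⟨l, h3, h5, e, he, h6⟩ := K i h1 h2 _ (nb_symm (mem j (by omega)) hz)
      have := inj l h3 j (by omega) h5
      have : i = 5 + j / 2 := by
        simp only [eU, List.mem_cons, List.not_mem_nil, or_false] at he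
        rcases he with rfl | rfl | rfl | rfl | rfl | rfl | rfl | rfl | rfl | rfl <;>
          simp only at h6 <;> omega
      rw [this]
  have two : ∀ j < 3, j ≠ 1 → 2 ≤ (kp (mU m) V τ U w j).card := fun j hj j1 => by
    have h1 := hc.dg3 h4 (mem j (by omega))
    have h2 := card_le_card (s := nb V τ (w j)) (t := insert (w (5 + j / 2)) (kp (mU m) V τ U w j))
      fun z hz => by
        by_cases h : z ∈ U
        · exact mem_insert_of_mem ((hkp _ _).2 ⟨hz, h⟩)
        · exact mem_insert.2 (Or.inl (one j hj j1 z hz h))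
    have := card_insert_le (w (5 + j / 2)) (kp (mU m) V τ U w j)
    unfold dg at h1
    omega
  have hW : Win (mU m) V τ U w := by
    refine ⟨hc, fun z hz => ((hU z).1 hz).1, hp m (by omega), fun i (hi : i < 3 + m) => mem i (by omega),
      by simp [mU], cov, fun i hi => ?_, fun h => by simp [mU] at h⟩
    by_cases i1 : i = 1
    swap
    · exact Or.inl (two i hi i1)
    subst i1
    by_cases hz : ∃ z ∈ nb V τ (w 1), z ∈ U ∧ ∀ j < 3, w j ≠ z
    · exact Or.inr ⟨rfl, hz⟩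
    have emp : ∀ z ∈ U, ∃ j < 3, w j = z := fun z hz' => by
      by_contra k
      obtain ⟨B, hB⟩ : ∃ B : Finset α, ∀ z, z ∈ B ↔ z ∈ U ∧ ∀ j < 3, w j ≠ z :=
        ⟨U \ (range 3).image w, fun z => by simp⟩
      have := hc.three (B := B) (S := {w 0, w 2}) (fun q hq => ((hU q).1 ((hB q).1 hq).1).1)
        ⟨z, (hB z).2 ⟨hz', fun j hj e => k ⟨j, hj, e⟩⟩⟩ (fun q hq y hy => by
          obtain ⟨q1, q2⟩ := (hB q).1 hq
          have q3 := nb_symm ((hU q).1 q1).1 hy
          have yU : y ∈ U := by_contra fun h => by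
            obtain ⟨j, hj, e⟩ := cov y (nb_sub _ hy) h q q3 q1
            exact q2 j hj e
          by_cases k : ∀ j < 3, w j ≠ y
          · exact Or.inl ((hB y).2 ⟨yU, k⟩)
          push Not at k
          obtain ⟨j, hj, rfl⟩ := k
          interval_cases j
          · simp
          · exact absurd ⟨q, q3, q1, q2⟩ hz
          · simp) (mem 1 (by omega)) (fun h => ((hB _).1 h).2 1 (by omega) rfl) (by
          have := inj 1 (by omega) 0 (by omega)
          have := inj 1 (by omega) 2 (by omega)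
          simp only [mem_insert, mem_singleton]
          rintro (e | e) <;> simp [e] at *)
      have := card_le_two (a := w 0) (b := w 2)
      omega
    have adj : ∀ j < 3, j ≠ 1 → w j ∈ kp (mU m) V τ U w 1 := fun j hj j1 => by
      refine (hkp _ _).2 ⟨nb_symm (mem j (by omega)) (by_contra fun k => ?_), tU j hj⟩
      have h1 := hc.dg3 h4 (mem j (by omega))
      have h2 := card_le_card (s := nb V τ (w j)) (t := {w (5 + j / 2), w (2 - j)}) fun z hz => by
        by_cases h : z ∈ U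
        · obtain ⟨l, hl, rfl⟩ := emp z h
          have a1 : l ≠ j := fun e => not_mem_nb _ (e ▸ hz)
          have a2 : l ≠ 1 := fun e => k (e ▸ hz)
          rw [show l = 2 - j by omega]
          simp
        · exact mem_insert.2 (Or.inl (one j hj j1 z hz h))
      have := card_le_two (a := w (5 + j / 2)) (b := w (2 - j))
      unfold dg at h1
      omega
    refine Or.inl (one_lt_card.2 ⟨_, adj 0 (by omega) (by omega), _, adj 2 (by omega) (by omega),
      fun e => ?_⟩)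
    have := inj 0 (by omega) 2 (by omega) e
    omega
  obtain ⟨g, hu⟩ := cg_mkT (md := mU m) (U := U) (w := w) (τ := τ) (n := 4) le_rfl (eU s t)
    (fun e he => by
      have := hl e he
      simp only [eU, List.mem_cons, List.not_mem_nil, or_false] at he
      rcases he with rfl | rfl | rfl | rfl | rfl | rfl | rfl | rfl | rfl | rfl <;>
        exact ⟨by simp, by simp, this, by simp⟩)
    (fun i hi j hj h => by
      by_cases i3 : i < 3
      · exact Or.inl ⟨i3, pm0 i j⟩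
      obtain ⟨l, h3, h5, h6⟩ := K i (by omega) hi (w j) (mem_nb.2 ⟨mem j (by omega), fun e => by
        have := inj j (by omega) i hi e
        omega, h⟩)
      exact Or.inr (inj l h3 j (by omega) h5 ▸ h6))
    (fun i h1 h2 z hz h => by_contra fun k => by
      obtain ⟨j, hj, e⟩ := cov _ (mem i h2) ((hp 4 le_rfl).nU i h1 h2) z
        (mem_nb.2 ⟨((hU z).1 hz).1, (((hU z).1 hz).2 i h1 h2).symm, k⟩) hz
      exact h j hj e)
  refine win_red D.xe D.x0 hW m3 le_rfl (hp 4 le_rfl) ?_ g hu hC hX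
  ext z
  simp only [cU, mem_union, mem_image, mem_Ico]
  refine ⟨fun hz => ?_, fun hz => ?_⟩
  · by_cases h : z ∈ U
    · exact Or.inl h
    · obtain ⟨i, h1, h2, e⟩ := out z hz h
      exact Or.inr ⟨i, ⟨h1, h2⟩, e⟩
  · rcases hz with hz | ⟨i, hi, rfl⟩
    · exact ((hU z).1 hz).1
    · exact mem i hi.2

/-- Both ends have one more neighbour, and these neighbours are different. -/
theorem x3_two (D : Data G x) (hc : Con3 V τ) (h : Fan V τ a v 2) (hg : Sp 5 10 (fg τ a v 2))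
    (h1 : τ s(v 0, a) = 2) (h2 : τ s(a, v 3) = 2) (h3 : τ s(v 0, v 3) = 2) {c b : α}
    (h4 : nb V τ (v 0) \ (fanQ v 2 ∪ {a, v 3}) = {c})
    (h5 : nb V τ (v 3) \ (fanQ v 2 ∪ {a, v 0}) = {b}) (hbc : c ≠ b) : Red x V τ := by
  have q : ∀ z, z ∈ fanQ v 2 ↔ z = v 1 ∨ z = v 2 := fun z => by
    rw [mem_fanQ]
    refine ⟨fun ⟨i, hi, e⟩ => ?_, fun e => e.elim (fun e => ⟨0, by omega, e.symm⟩)
      fun e => ⟨1, by omega, e.symm⟩⟩
    interval_cases i <;> simp [← e]
  have c1 := Finset.ext_iff.1 h4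
  have b1 := Finset.ext_iff.1 h5
  simp only [mem_sdiff, mem_union, q, mem_insert, mem_singleton] at c1 b1
  obtain ⟨c2, c3⟩ := (c1 c).2 rfl
  obtain ⟨b2, b3⟩ := (b1 b).2 rfl
  obtain ⟨c4, c5, c6⟩ := mem_nb.1 c2
  obtain ⟨b4, b5, b6⟩ := mem_nb.1 b2
  have n1 := Finset.ext_iff.1 (h.nbr 0 (by omega))
  have n2 := Finset.ext_iff.1 (h.nbr 1 (by omega))
  simp only [mem_insert, mem_singleton, zero_add, Nat.reduceAdd] at n1 n2
  have vi : ∀ i j, i ≤ 3 → j ≤ 3 → (v i = v j ↔ i = j) := fun i j hi hj =>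
    ⟨h.inj i j hi hj, fun e => by rw [e]⟩
  have va : ∀ i, i ≤ 3 → v i ≠ a := h.na
  have av : ∀ i, i ≤ 3 → a ≠ v i := fun i hi => (va i hi).symm
  simp only [not_or] at c3 b3
  obtain ⟨⟨c7, c8⟩, c9, c10⟩ := c3
  obtain ⟨⟨b7, b8⟩, b9, b10⟩ := b3
  have g0 : decide (τ s(v 2, v 3) = 2) = false := hg 0 (by omega)
  have g1 : decide (τ s(v 2, a) = 2) = true := hg 1 (by omega)
  have g2 : decide (τ s(v 1, v 2) = 2) = false := hg 2 (by omega)
  have g3 : decide (τ s(v 1, a) = 2) = true := hg 3 (by omega)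
  have g4 : decide (τ s(v 0, v 1) = 2) = false := hg 4 (by omega)
  have t1 : ∀ t : Fin 3, t ≠ 0 → decide (t = 2) = false → t.val = 1 := by decide
  refine vx1_win D hc (w := fun i => [c, a, b, v 1, v 2, v 0, v 3].getD i a)
    (s := decide (τ s(v 0, c) = 2)) (t := decide (τ s(v 3, b) = 2)) (fun i hi j hj => ?_)
    (fun i hi => ?_) (fun e he => ?_) fun i i3 i7 z hz => ?_
  · interval_cases i <;> interval_cases j <;> simp [*, Ne.symm c5, Ne.symm c7, Ne.symm c8,
      Ne.symm c9, Ne.symm c10, Ne.symm b5, Ne.symm b7, Ne.symm b8, Ne.symm b9, Ne.symm b10, hbc.symm]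
  · have := h.hv
    interval_cases i <;> simp [c4, b4, h.ha, this]
  · simp only [eU, List.mem_cons, List.not_mem_nil, or_false] at he
    rcases he with rfl | rfl | rfl | rfl | rfl | rfl | rfl | rfl | rfl | rfl
    · exact t1 _ (Sym2.eq_swap (a := v 1) ▸ (mem_nb.1 ((n1 (v 0)).2 (by simp))).2.2) g4
    · exact congrArg Fin.val (of_decide_eq_true g3)
    · exact t1 _ (mem_nb.1 ((n1 (v 2)).2 (by simp))).2.2 g2
    · exact congrArg Fin.val (of_decide_eq_true g1)
    · exact t1 _ (mem_nb.1 ((n2 (v 3)).2 (by simp))).2.2 g0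
    · exact congrArg Fin.val h1
    · exact congrArg Fin.val ((congrArg τ Sym2.eq_swap).trans h2)
    · exact congrArg Fin.val h3
    · exact (congrArg Fin.val (congrArg τ Sym2.eq_swap)).trans (bT_val c6).symm
    · exact (congrArg Fin.val (congrArg τ Sym2.eq_swap)).trans (bT_val b6).symm
  · interval_cases i
    · rcases (n1 z).1 hz with rfl | rfl | rfl
      · exact ⟨1, by omega, rfl, by simp [eU]⟩
      · exact ⟨5, by omega, rfl, by simp [eU]⟩
      · exact ⟨4, by omega, rfl, by simp [eU]⟩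
    · rcases (n2 z).1 hz with rfl | rfl | rfl
      · exact ⟨1, by omega, rfl, by simp [eU]⟩
      · exact ⟨3, by omega, rfl, by simp [eU]⟩
      · exact ⟨6, by omega, rfl, by simp [eU]⟩
    · by_cases k : (z = v 1 ∨ z = v 2) ∨ z = a ∨ z = v 3
      · rcases k with (rfl | rfl) | rfl | rfl
        · exact ⟨3, by omega, rfl, by simp [eU]⟩
        · simpa [vi, va] using (n2 _).1 (nb_symm (h.hv 0 (by omega)) hz)
        · exact ⟨1, by omega, rfl, by simp [eU]⟩
        · exact ⟨6, by omega, rfl, by simp [eU]⟩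
      · exact ⟨0, by omega, ((c1 z).1 ⟨hz, k⟩).symm, by simp [eU]⟩
    · by_cases k : (z = v 1 ∨ z = v 2) ∨ z = a ∨ z = v 0
      · rcases k with (rfl | rfl) | rfl | rfl
        · simpa [vi, va] using (n1 _).1 (nb_symm (h.hv 3 (by omega)) hz)
        · exact ⟨4, by omega, rfl, by simp [eU]⟩
        · exact ⟨1, by omega, rfl, by simp [eU]⟩
        · exact ⟨5, by omega, rfl, by simp [eU]⟩
      · exact ⟨2, by omega, ((b1 z).1 ⟨hz, k⟩).symm, by simp [eU]⟩

/-- Both ends have one more neighbour, the same one. -/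
theorem x3_one (D : Data G x) (hc : Con3 V τ) (h : Fan V τ a v 2) (hg : Sp 5 10 (fg τ a v 2))
    (h1 : τ s(v 0, a) = 2) (h2 : τ s(a, v 3) = 2) (h3 : τ s(v 0, v 3) = 2) {c : α}
    (h4 : nb V τ (v 0) \ (fanQ v 2 ∪ {a, v 3}) = {c})
    (h5 : nb V τ (v 3) \ (fanQ v 2 ∪ {a, v 0}) = {c}) : Red x V τ := by
  have q : ∀ z, z ∈ fanQ v 2 ↔ z = v 1 ∨ z = v 2 := fun z => by
    rw [mem_fanQ]
    constructor
    · rintro ⟨i, hi, rfl⟩
      interval_cases i <;> simp
    · rintro (rfl | rfl)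
      exacts [⟨0, by omega, rfl⟩, ⟨1, by omega, rfl⟩]
  have n1 : nb V τ (v 1) = {a, v 0, v 2} := h.nbr 0 (by omega)
  have n2 : nb V τ (v 2) = {a, v 1, v 3} := h.nbr 1 (by omega)
  have d : ∀ i j, i ≤ 3 → j ≤ 3 → i ≠ j → v i ≠ v j := fun i j hi hj e k => e (h.inj i j hi hj k)
  have d01 := d 0 1 (by omega) (by omega) (by omega)
  have d02 := d 0 2 (by omega) (by omega) (by omega)
  have d03 := d 0 3 (by omega) (by omega) (by omega)
  have d12 := d 1 2 (by omega) (by omega) (by omega)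
  have d13 := d 1 3 (by omega) (by omega) (by omega)
  have d23 := d 2 3 (by omega) (by omega) (by omega)
  have a0 := h.na 0 (by omega)
  have a1 := h.na 1 (by omega)
  have a2 := h.na 2 (by omega)
  have a3 := h.na 3 (by omega)
  have m0 := h.hv 0 (by omega)
  have m1 := h.hv 1 (by omega)
  have m2 := h.hv 2 (by omega)
  have m3 := h.hv 3 (by omega)
  have c4 : c ∈ nb V τ (v 0) \ (fanQ v 2 ∪ {a, v 3}) := by rw [h4]; simp
  have c5 : c ∈ nb V τ (v 3) \ (fanQ v 2 ∪ {a, v 0}) := by rw [h5]; simp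
  simp only [mem_sdiff, mem_union, q, mem_insert, mem_singleton, not_or, mem_nb] at c4 c5
  obtain ⟨⟨cV, c0, t0⟩, ⟨c1, c2⟩, ca, c3⟩ := c4
  have t3 := c5.1.2.2
  have k0 : ∀ z ∈ nb V τ (v 0), z = v 1 ∨ z = v 2 ∨ z = a ∨ z = v 3 ∨ z = c := fun z hz => by
    by_contra k
    have : z ∈ nb V τ (v 0) \ (fanQ v 2 ∪ {a, v 3}) := by
      simp only [mem_sdiff, mem_union, q, mem_insert, mem_singleton]
      tauto
    rw [h4, mem_singleton] at this
    tauto
  have k3 : ∀ z ∈ nb V τ (v 3), z = v 1 ∨ z = v 2 ∨ z = a ∨ z = v 0 ∨ z = c := fun z hz => by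
    by_contra k
    have : z ∈ nb V τ (v 3) \ (fanQ v 2 ∪ {a, v 0}) := by
      simp only [mem_sdiff, mem_union, q, mem_insert, mem_singleton]
      tauto
    rw [h5, mem_singleton] at this
    tauto
  have all : ∀ z ∈ V, z = v 0 ∨ z = v 1 ∨ z = v 2 ∨ z = v 3 ∨ z = a ∨ z = c := by
    intro z hz
    by_contra k
    have := hc.2 (V \ {v 0, v 1, v 2, v 3, a, c}) {a, c} sdiff_subset
      ⟨z, by simp only [mem_sdiff, mem_insert, mem_singleton]; exact ⟨hz, k⟩⟩ card_le_two (by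
        intro b hb y hy
        simp only [mem_sdiff, mem_insert, mem_singleton, not_or] at hb ⊢
        have s := nb_symm hb.1 hy
        by_cases e0 : y = v 0
        · have := k0 b (e0 ▸ s); tauto
        by_cases e1 : y = v 1
        · rw [e1, n1] at s
          simp only [mem_insert, mem_singleton] at s
          tauto
        by_cases e2 : y = v 2
        · rw [e2, n2] at s
          simp only [mem_insert, mem_singleton] at s
          tauto
        by_cases e3 : y = v 3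
        · have := k3 b (e3 ▸ s); tauto
        have := nb_sub _ hy
        tauto) m0
    simp [a0, c0.symm] at this
  have z1 : ∀ z ∈ V, z ≠ v 1 → z ≠ a → z ≠ v 0 → z ≠ v 2 → τ s(v 1, z) = 0 := by
    intro z hz e1 e2 e3 e4
    by_contra k
    have : z ∈ nb V τ (v 1) := mem_nb.2 ⟨hz, e1, k⟩
    rw [n1] at this
    simp [e2, e3, e4] at this
  have z2 : ∀ z ∈ V, z ≠ v 2 → z ≠ a → z ≠ v 1 → z ≠ v 3 → τ s(v 2, z) = 0 := by
    intro z hz e1 e2 e3 e4
    by_contra k
    have : z ∈ nb V τ (v 2) := mem_nb.2 ⟨hz, e1, k⟩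
    rw [n2] at this
    simp [e2, e3, e4] at this
  have y13 := z1 _ m3 d13.symm a3 d03.symm d23.symm
  have y1c := z1 _ cV c1 ca c0 c2
  have y20 := z2 _ m0 d02 a0 d01 d03
  have y2c := z2 _ cV c2 ca c1 c3
  have ta : τ s(c, a) ≠ 0 := by
    intro k
    have h4 : 4 ≤ V.card := by
      have := h.hub
      exact this.trans (card_le_card (nb_sub _))
    have h3 := hc.dg3 h4 cV
    have : nb V τ c ⊆ {v 0, v 3} := by
      intro z hz
      obtain ⟨p1, p2, p3⟩ := mem_nb.1 hz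
      rcases all z p1 with rfl | rfl | rfl | rfl | rfl | rfl
      · simp
      · exact absurd (Sym2.eq_swap ▸ y1c) p3
      · exact absurd (Sym2.eq_swap ▸ y2c) p3
      · simp
      · exact absurd k p3
      · exact absurd rfl p2
    have := (card_le_card this).trans card_le_two
    unfold dg at h3
    omega
  have f1 : τ s(v 1, a) ≠ 0 := (mem_nb.1 (show a ∈ nb V τ (v 1) by simp [n1])).2.2
  have f2 : τ s(v 0, v 1) ≠ 0 :=
    Sym2.eq_swap ▸ (mem_nb.1 (show v 0 ∈ nb V τ (v 1) by simp [n1])).2.2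
  have f3 : τ s(v 1, v 2) ≠ 0 := (mem_nb.1 (show v 2 ∈ nb V τ (v 1) by simp [n1])).2.2
  have f4 : τ s(v 2, a) ≠ 0 := (mem_nb.1 (show a ∈ nb V τ (v 2) by simp [n2])).2.2
  have f5 : τ s(v 2, v 3) ≠ 0 := (mem_nb.1 (show v 3 ∈ nb V τ (v 2) by simp [n2])).2.2
  have g0 : bT (tb 10 0) = (τ s(v 2, v 3)).val := by rw [← hg 0 (by omega)]; exact bT_val f5
  have g1 : bT (tb 10 1) = (τ s(v 2, a)).val := by rw [← hg 1 (by omega)]; exact bT_val f4
  have g2 : bT (tb 10 2) = (τ s(v 1, v 2)).val := by rw [← hg 2 (by omega)]; exact bT_val f3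
  have g3 : bT (tb 10 3) = (τ s(v 1, a)).val := by rw [← hg 3 (by omega)]; exact bT_val f1
  have g4 : bT (tb 10 4) = (τ s(v 0, v 1)).val := by rw [← hg 4 (by omega)]; exact bT_val f2
  rw [Sym2.eq_swap] at t0 t3 y1c y2c
  obtain ⟨w, w0, w1, w2, w3, w4, w5⟩ : ∃ w : ℕ → α, w 0 = v 0 ∧ w 1 = a ∧ w 2 = v 3 ∧ w 3 = v 1 ∧
      w 4 = v 2 ∧ w 5 = c := ⟨fun i => if i = 5 then c else fw a v 2 i, by simp [fw]⟩
  have inj : ∀ i < 3 + 3, ∀ j < 3 + 3, w i = w j → i = j := by
    intro i hi j hj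
    interval_cases i <;> interval_cases j <;> simp only [w0, w1, w2, w3, w4, w5] <;> intro e <;>
      first | rfl | trivial | exact absurd e ‹_› | exact absurd e.symm ‹_›
  have hp : Pl {v 0, a, v 3} w 3 := ⟨inj, fun i hi => by interval_cases i <;> simp [w0, w1, w2],
    fun i hi hj => by
      interval_cases i
      · simp [w3, d01.symm, a1, d13]
      · simp [w4, d02.symm, a2, d23]
      · simp [w5, c0, ca, c3]⟩
  have hV : V = cU {v 0, a, v 3} w 3 := by
    ext z
    have e : Ico 3 (3 + 3) = {3, 4, 5} := by decide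
    simp only [cU, e, image_insert, image_singleton, w3, w4, w5, mem_union, mem_insert,
      mem_singleton]
    refine ⟨fun hz => by have := all z hz; tauto, ?_⟩
    rintro ((rfl | rfl | rfl) | rfl | rfl | rfl)
    exacts [m0, h.ha, m3, m1, m2, cV]
  obtain ⟨g, hu⟩ := cg_mkT (md := mA 0) (U := {v 0, a, v 3}) (w := w) (τ := τ) (n := 3) (by omega)
    (eZ (decide (τ s(c, v 0) = 2)) (decide (τ s(c, a) = 2)) (decide (τ s(c, v 3) = 2))) (by
      intro e he
      simp only [eZ, e2, List.mem_cons, List.not_mem_nil, or_false] at he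
      rcases he with rfl | rfl | rfl | rfl | rfl | rfl | rfl | rfl | rfl | rfl | rfl <;>
        dsimp only <;> refine ⟨by omega, by omega, ?_, by decide⟩ <;>
        simp only [w0, w1, w2, w3, w4, w5, h1, h2, h3, g0, g1, g2, g3, g4, bT_val t0, bT_val ta,
          bT_val t3] <;> rfl) (by
      intro i hi j hj
      interval_cases i <;> interval_cases j <;> simp [w0, w1, w2, w3, w4, w5, eZ, e2, y13, y1c,
        y20, y2c]) (by
      intro i _ _ z hz k
      simp only [mem_insert, mem_singleton] at hz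
      rcases hz with rfl | rfl | rfl
      exacts [absurd w0 (k 0 (by omega)), absurd w1 (k 1 (by omega)), absurd w2 (k 2 (by omega))])
  refine out_red D.x0 hp hV g hu (r := 0) (t := 0) ⟨w, fun i hi j hj => inj i (by omega) j (by omega),
    fun _ _ => rfl, ?_, fun i hi hj => by omega, fun i hi j hj hij => ?_⟩ (Or.inl (D.xz _ _ _))
  · have e : range (3 + 0) = {0, 1, 2} := by decide
    simp only [e, image_insert, image_singleton, w0, w1, w2]
  · have : (mA 0).pm i j ≠ 0 := by interval_cases i <;> interval_cases j <;> decide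
    rw [if_neg this, ty, dig_zero]

theorem x3_red (D : Data G x) (hc : Con3 V τ) (h : MFan V τ a v 2)
    (pa : Con3 (V \ fanQ v 2) (pth τ a (v 3) (v 0))) (hg : Sp 5 10 (fg τ a v 2))
    (h1 : τ s(v 0, a) = 2) (h2 : τ s(a, v 3) = 2) : Red x V τ := by
  have key : ∀ (md : Mo) (t : Fin 3), τ s(v 0, v 3) = t → md.p01 ≠ 0 → md.p02 ≠ 0 → md.p12 ≠ 0 →
      md.m ≤ 2 → Win md V τ (V \ fanQ v 2) (fw a v 2) →
      WOk G x md 2 (fT ((0, 2, t.val) :: e2 (tb 10)) 2 2) → Red x V τ := by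
    intro md t ht p1 p2 p3 hm hw ho
    have g := fan_cg2' h.1 p1 p2 p3
    rw [ht, h1, h2, e2_sp hg] at g
    exact win_red D.xe D.x0 hw (by omega) (by omega) (fw_pl h.1 le_rfl) (fw_cu h.1) g.1 g.2
      ho.1 ho.2
  have tri : ∀ t : Fin 3, t = 0 ∨ t = 1 ∨ t = 2 := by decide
  rcases tri (τ s(v 0, v 3)) with h3 | h3 | h3
  · obtain ⟨m, hm, ho⟩ := D.xa
    exact key (mA m) 0 h3 one_ne_zero one_ne_zero one_ne_zero hm (win_A hc h pa hm h3) ho
  · obtain ⟨m, hm, ho⟩ := D.xp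
    exact key (mP m) 1 h3 one_ne_zero two_ne_zero one_ne_zero hm (win_P hc h hm) ho
  by_cases b1 : 2 ≤ (nb V τ (v 0) \ (fanQ v 2 ∪ {a, v 3})).card
  · obtain ⟨m, hm, ho⟩ := D.xb
    exact key (mB m) 2 h3 one_ne_zero one_ne_zero one_ne_zero hm (win_B hc h hm b1) ho
  by_cases b2 : 2 ≤ (nb V τ (v 3) \ (fanQ v 2 ∪ {a, v 0})).card
  · obtain ⟨m, hm, ho⟩ := D.xc
    exact key (mC m) 2 h3 one_ne_zero one_ne_zero one_ne_zero hm (win_C hc h hm b2) ho
  have one : ∀ (N : Finset α) (p : α), 2 ≤ (N \ insert a (fanQ v 2)).card →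
      ¬ 2 ≤ (N \ (fanQ v 2 ∪ {a, p})).card → ∃ c, N \ (fanQ v 2 ∪ {a, p}) = {c} := by
    intro N p k1 k2
    have : N \ insert a (fanQ v 2) ⊆ insert p (N \ (fanQ v 2 ∪ {a, p})) := by
      intro z hz
      simp only [mem_sdiff, mem_insert, mem_union, mem_singleton] at hz ⊢
      tauto
    have := (card_le_card this).trans (card_insert_le _ _)
    exact card_eq_one.1 (by omega)
  obtain ⟨c, h4⟩ := one _ _ (end_two hc h).1 b1
  obtain ⟨b, h5⟩ := one _ _ (end_two hc h).2 b2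
  by_cases e : c = b
  · exact x3_one D hc h.1 hg h1 h2 h3 h4 (e ▸ h5)
  · exact x3_two D hc h.1 hg h1 h2 h3 h4 h5 e

end Pool.Agent.Lib.MP_efe3d7_co.J.Tw
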