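import Pool.Agent.Lib.MP_efe3d7_co.J.VW
import Pool.Agent.Lib.MP_efe3d7_co.J.TE

/-! The special fans with three vertices. -/

set_option autoImplicit false

open Finset

namespace Pool.Agent.Lib.MP_efe3d7_co.J.Tw

open H
open H.Fn (T5 pr pev)

variable {α : Type} [DecidableEq α] [Fintype α] {V : Finset α} {τ : Sym2 α → Fin 3} {a : α}
  {v : ℕ → α} {G : List (ℕ × ℕ × ℕ)} {x : ℝ}

/-- The window of a fan with three vertices and its hub. -/
def vyw (a u : α) (v : ℕ → α) : ℕ → α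
  | 0 => v 0
  | 1 => u
  | 2 => v 4
  | 3 => v 1
  | 4 => v 2
  | 5 => v 3
  | _ => a

omit [Fintype α] in
theorem vy_mem {z : α} : z ∈ insert a (fanQ v 3) ↔ z = a ∨ z = v 1 ∨ z = v 2 ∨ z = v 3 := by
  simp only [fanQ, range_add_one, range_zero, image_insert, image_empty, mem_insert, notMem_empty]
  tauto

omit [Fintype α] in
theorem vy_u {u : α} (hu : nb V τ a \ (fanQ v 3 ∪ {v 0, v 4}) = {u}) :
    u ∈ nb V τ a ∧ (∀ i ≤ 4, v i ≠ u) ∧ ∀ z ∈ nb V τ a, z = u ∨ ∃ i ≤ 4, v i = z := by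
  have h : ∀ z, z ∈ fanQ v 3 ∪ {v 0, v 4} ↔ ∃ i ≤ 4, v i = z := fun z => by
    simp only [mem_union, mem_fanQ, mem_insert, mem_singleton]
    constructor
    · rintro (⟨i, hi, rfl⟩ | rfl | rfl)
      exacts [⟨_, by omega, rfl⟩, ⟨_, by omega, rfl⟩, ⟨_, le_rfl, rfl⟩]
    · rintro ⟨i, hi, rfl⟩
      rcases i with _ | i
      · exact .inr (.inl rfl)
      · by_cases e : i < 3
        · exact .inl ⟨i, e, rfl⟩
        · exact .inr (.inr (congrArg v (by omega)))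
  have h1 := mem_sdiff.1 (hu ▸ mem_singleton_self u)
  refine ⟨h1.1, fun i hi e => h1.2 ((h u).2 ⟨i, hi, e⟩), fun z hz => ?_⟩
  by_cases e : z ∈ fanQ v 3 ∪ {v 0, v 4}
  · exact .inr ((h z).1 e)
  · exact .inl (mem_singleton.1 (hu ▸ mem_sdiff.2 ⟨hz, e⟩))

omit [Fintype α] in
theorem vy_non (h : Fan V τ a v 3) {i : ℕ} (hi : i < 3) {z : α} (hz : z ∈ V) (h0 : z ≠ v (i + 1))
    (h1 : z ≠ a) (h2 : z ≠ v i) (h3 : z ≠ v (i + 2)) : τ s(v (i + 1), z) = 0 := by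
  by_contra e
  have := h.nbr i hi ▸ mem_nb.2 ⟨hz, h0, e⟩
  simp [h1, h2, h3] at this

omit [Fintype α] in
theorem vy_pl (h : Fan V τ a v 3) {u : α} (hu : nb V τ a \ (fanQ v 3 ∪ {v 0, v 4}) = {u}) :
    Pl (V \ insert a (fanQ v 3)) (vyw a u v) 4 ∧ (∀ i < 7, vyw a u v i ∈ V) ∧
      (∀ q ∈ insert a (fanQ v 3), ∀ z ∈ nb V τ q, z ∉ insert a (fanQ v 3) →
        ∃ i < 3, vyw a u v i = z) ∧ V = cU (V \ insert a (fanQ v 3)) (vyw a u v) 4 := by
  obtain ⟨u1, u2, u3⟩ := vy_u hu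
  have e : ∀ i j, i ≤ 4 → j ≤ 4 → (v i = v j ↔ i = j) := fun i j hi hj =>
    ⟨h.inj i j hi hj, congrArg v⟩
  have e1 : ∀ i, i ≤ 4 → (v i = a ↔ False) := fun i hi => iff_false_intro (h.na i hi)
  have e2 : ∀ i, i ≤ 4 → (a = v i ↔ False) := fun i hi => iff_false_intro (h.na i hi).symm
  have e3 : ∀ i, i ≤ 4 → (v i = u ↔ False) := fun i hi => iff_false_intro (u2 i hi)
  have e4 : ∀ i, i ≤ 4 → (u = v i ↔ False) := fun i hi => iff_false_intro (u2 i hi).symm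
  have e5 := (mem_nb.1 u1).2.1
  have hm : ∀ i < 7, vyw a u v i ∈ V := fun i hi => by
    interval_cases i
    exacts [h.hv 0 (by omega), nb_sub _ u1, h.hv 4 le_rfl, h.hv 1 (by omega), h.hv 2 (by omega),
      h.hv 3 (by omega), h.ha]
  refine ⟨⟨fun i hi j hj => ?_, fun i hi => mem_sdiff.2 ⟨hm i (by omega), ?_⟩,
    fun i h3 hi k => (mem_sdiff.1 k).2 ?_⟩, hm, fun q hq z hz hn => ?_, ?_⟩
  · interval_cases i <;> interval_cases j <;> simp [vyw, e, e1, e2, e3, e4, e5, e5.symm]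
  · rw [vy_mem]
    interval_cases i <;> simp [vyw, e, e1, e4, e5]
  · rw [vy_mem]
    interval_cases i <;> simp [vyw]
  · have k : z = u ∨ ∃ i ≤ 4, v i = z := by
      rcases mem_insert.1 hq with rfl | hq
      · exact u3 z hz
      · obtain ⟨i, hi, rfl⟩ := mem_fanQ.1 hq
        rw [h.nbr i hi] at hz
        simp only [mem_insert, mem_singleton] at hz
        rcases hz with rfl | rfl | rfl
        exacts [absurd (mem_insert_self _ _) hn, .inr ⟨_, by omega, rfl⟩, .inr ⟨_, by omega, rfl⟩]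
    rcases k with rfl | ⟨i, hi, rfl⟩
    · exact ⟨1, by omega, rfl⟩
    · rw [vy_mem] at hn
      interval_cases i
      exacts [⟨0, by omega, rfl⟩, absurd (by simp) hn, absurd (by simp) hn, absurd (by simp) hn,
        ⟨2, by omega, rfl⟩]
  · refine Subset.antisymm (fun z hz => ?_) (union_subset sdiff_subset fun z hz => ?_)
    · by_cases k : z ∈ insert a (fanQ v 3)
      · refine mem_union_right _ (mem_image.2 ?_)
        rcases vy_mem.1 k with rfl | rfl | rfl | rfl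
        exacts [⟨6, by simp, rfl⟩, ⟨3, by simp, rfl⟩, ⟨4, by simp, rfl⟩, ⟨5, by simp, rfl⟩]
      · exact mem_union_left _ (mem_sdiff.2 ⟨hz, k⟩)
    · obtain ⟨i, hi, rfl⟩ := mem_image.1 hz
      exact hm i (mem_Ico.1 hi).2

omit [Fintype α] in
theorem vy_win (hc : Con3 V τ) (h : MFan V τ a v 3) {u : α}
    (hu : nb V τ a \ (fanQ v 3 ∪ {v 0, v 4}) = {u}) {p q m : ℕ} (hp : p ≤ 2) (hq : q ≤ 2)
    (hm : m ≤ 3) (p1 : τ s(v 0, u) ≠ 0 → p ≠ 1) (q1 : τ s(u, v 4) ≠ 0 → q ≠ 1) :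
    Win (mV p q m) V τ (V \ insert a (fanQ v 3)) (vyw a u v) := by
  obtain ⟨u1, u2, u3⟩ := vy_u hu
  obtain ⟨h1, h2, h3, -⟩ := vy_pl h.1 hu
  have hm' : (mV p q m).m = m := rfl
  refine ⟨hc, sdiff_subset, h1.mono (hm.trans (by omega)), fun i hi => h2 i (by omega),
    ⟨hp, Nat.zero_le _, hq⟩, fun z hz hn y hy k => h3 z (by_contra fun e => hn (mem_sdiff.2 ⟨hz, e⟩))
      y hy (mem_sdiff.1 k).2, fun i hi => .inl ?_, fun e => absurd e (by simp [mV])⟩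
  have key : nb V τ (vyw a u v i) \ insert a (fanQ v 3) ⊆
      kp (mV p q m) V τ (V \ insert a (fanQ v 3)) (vyw a u v) i := fun z hz => by
    obtain ⟨z1, z2⟩ := mem_sdiff.1 hz
    simp only [kp, mem_filter]
    refine ⟨z1, mem_sdiff.2 ⟨nb_sub _ z1, z2⟩, fun j hj e => ?_⟩
    subst e
    obtain ⟨-, z3, z4⟩ := mem_nb.1 z1
    interval_cases i <;> interval_cases j
    exacts [absurd rfl z3, p1 z4, Nat.zero_ne_one, p1 (Sym2.eq_swap ▸ z4), absurd rfl z3, q1 z4,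
      Nat.zero_ne_one, q1 (Sym2.eq_swap ▸ z4), absurd rfl z3]
  refine le_trans ?_ (card_le_card key)
  interval_cases i
  · exact (end_two hc h).1
  · have k1 := hc.dg3 (h.1.hub.trans (card_le_card (nb_sub a))) (nb_sub _ u1)
    have k2 : (nb V τ u).erase a ⊆ nb V τ u \ insert a (fanQ v 3) := fun z hz => by
      obtain ⟨z1, z2⟩ := mem_erase.1 hz
      refine mem_sdiff.2 ⟨z2, fun e => ?_⟩
      obtain ⟨i, hi, rfl⟩ := mem_fanQ.1 ((mem_insert.1 e).resolve_left z1)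
      exact (mem_nb.1 z2).2.2 (Sym2.eq_swap ▸ vy_non h.1 hi (nb_sub _ u1) (u2 _ (by omega)).symm
        (mem_nb.1 u1).2.1 (u2 _ (by omega)).symm (u2 _ (by omega)).symm)
    have k3 := pred_card_le_card_erase (s := nb V τ u) (a := a)
    exact le_trans (by unfold dg at k1; omega) (card_le_card k2)
  · exact (end_two hc h).2

omit [Fintype α] in
theorem vy_cg (h : Fan V τ a v 3) (hg : Sp 7 42 (fg τ a v 3)) {u : α}
    (hu : nb V τ a \ (fanQ v 3 ∪ {v 0, v 4}) = {u}) {p q m : ℕ} (l : List (ℕ × ℕ × ℕ))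
    (hl : (p = 0 ∧ q = 0 ∧ l = []) ∨ (p ≠ 0 ∧ q ≠ 0 ∧
      l = [(0, 1, (τ s(v 0, u)).val), (1, 2, (τ s(u, v 4)).val)])) :
    CG (mV p q m) (V \ insert a (fanQ v 3)) (vyw a u v) τ 4
      (mkT (l ++ eY (τ s(v 0, a)) (τ s(a, v 4)) (decide (τ s(a, u) = 2)))) τ ∧
    pur (mV p q m) (mkT (l ++ eY (τ s(v 0, a)) (τ s(a, v 4)) (decide (τ s(a, u) = 2)))) = true := by
  obtain ⟨u1, u2, u3⟩ := vy_u hu
  obtain ⟨h1, h2, h3, -⟩ := vy_pl h hu
  have t1 : ∀ {t : Fin 3}, t ≠ 0 → decide (t = 2) = false → t.val = 1 := by decide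
  have t2 : ∀ {t : Fin 3}, decide (t = 2) = true → t.val = 2 := by decide
  have a1 : ∀ i < 3, τ s(v (i + 1), v (i + 2)) ≠ 0 := fun i hi =>
    (mem_nb.1 (h.nbr i hi ▸ by simp : v (i + 2) ∈ nb V τ (v (i + 1)))).2.2
  have a0 : τ s(v 0, v 1) ≠ 0 :=
    Sym2.eq_swap ▸ (mem_nb.1 (h.nbr 0 (by omega) ▸ by simp : v 0 ∈ nb V τ (v (0 + 1)))).2.2
  have n1 : ∀ i < 3, τ s(v (i + 1), u) = 0 := fun i hi => vy_non h hi (nb_sub _ u1)
    (u2 _ (by omega)).symm (mem_nb.1 u1).2.1 (u2 _ (by omega)).symm (u2 _ (by omega)).symm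
  have n2 : ∀ i < 3, ∀ j ≤ 4, j ≠ i + 1 → j ≠ i → j ≠ i + 2 → τ s(v (i + 1), v j) = 0 :=
    fun i hi j hj e1 e2 e3 => vy_non h hi (h.hv j hj) (fun e => e1 (h.inj _ _ hj (by omega) e))
      (h.na j hj) (fun e => e2 (h.inj _ _ hj (by omega) e)) fun e => e3 (h.inj _ _ hj (by omega) e)
  refine cg_mkT le_rfl _ (fun e he => ?_) (fun i hi j hj hn => ?_) fun i i3 hi z hz hn => ?_
  · rcases List.mem_append.1 he with he | he
    · rcases hl with ⟨-, -, rfl⟩ | ⟨hp, hq, rfl⟩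
      · cases he
      · simp only [List.mem_cons, List.not_mem_nil, or_false] at he
        rcases he with rfl | rfl
        exacts [⟨by simp, by simp, rfl, fun _ _ => hp⟩, ⟨by simp, by simp, rfl, fun _ _ => hq⟩]
    · simp only [eY, List.mem_cons, List.not_mem_nil, or_false] at he
      rcases he with rfl | rfl | rfl | rfl | rfl | rfl | rfl | rfl | rfl | rfl <;>
        refine ⟨by simp, by simp, ?_, by simp⟩
      exacts [t1 a0 (hg 6 (by omega)), t1 (a1 0 (by omega)) (hg 4 (by omega)),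
        t1 (a1 1 (by omega)) (hg 2 (by omega)), t1 (a1 2 (by omega)) (hg 0 (by omega)),
        Sym2.eq_swap ▸ t2 (hg 5 (by omega)), Sym2.eq_swap ▸ t2 (hg 3 (by omega)),
        Sym2.eq_swap ▸ t2 (hg 1 (by omega)), (bT_val (mem_nb.1 u1).2.2).symm,
        congrArg (fun e => (τ e).val) Sym2.eq_swap, rfl]
  · by_cases i3 : i < 3
    · rcases hl with ⟨rfl, rfl, -⟩ | ⟨-, -, rfl⟩ <;> interval_cases i <;> interval_cases j <;>
        first | exact .inl ⟨i3, rfl⟩ | simp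
    · refine .inr ?_
      have b1 := n1 0 (by omega)
      have b2 := n1 1 (by omega)
      have b3 := n1 2 (by omega)
      have b4 := n2 0 (by omega) 4 (by omega) (by omega) (by omega) (by omega)
      have b5 := n2 1 (by omega) 0 (by omega) (by omega) (by omega) (by omega)
      have b6 := n2 1 (by omega) 4 (by omega) (by omega) (by omega) (by omega)
      have b7 := n2 2 (by omega) 0 (by omega) (by omega) (by omega) (by omega)
      have b8 := n2 2 (by omega) 1 (by omega) (by omega) (by omega) (by omega)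
      suffices ∃ e ∈ eY (τ s(v 0, a)) (τ s(a, v 4)) (decide (τ s(a, u) = 2)),
          (e.1 = i ∧ e.2.1 = j) ∨ (e.1 = j ∧ e.2.1 = i) from
        this.imp fun e k => ⟨List.mem_append_right _ k.1, k.2⟩
      push Not at i3
      interval_cases i <;> interval_cases j <;> first | contradiction | simp [eY]
  · by_contra e
    obtain ⟨z1, z2⟩ := mem_sdiff.1 hz
    have k : vyw a u v i ∈ insert a (fanQ v 3) :=
      by_contra fun k => h1.nU i i3 hi (mem_sdiff.2 ⟨h2 i hi, k⟩)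
    obtain ⟨j, hj, e'⟩ := h3 _ k z (mem_nb.2 ⟨z1, fun e' => z2 (e' ▸ k), e⟩) z2
    exact hn j hj e'

/-- The hub has exactly one more neighbour. -/
theorem thin_red (D : Data G x) (hc : Con3 V τ) (h : MFan V τ a v 3) (hg : Sp 7 42 (fg τ a v 3))
    (hX : X12 (τ s(v 0, a)) (τ s(a, v 4))) {u : α}
    (hu : nb V τ a \ (fanQ v 3 ∪ {v 0, v 4}) = {u}) : Red x V τ := by
  obtain ⟨h1, -, -, h4⟩ := vy_pl h.1 hu
  by_cases e : (τ s(v 0, a)).val = 0 ∧ (τ s(a, v 4)).val = 0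
  · have s1 : ∀ t : Fin 3, stt t ≤ 2 ∧ stt t ≠ 0 ∧ (t ≠ 0 → stt t ≠ 1) := by decide
    obtain ⟨m, hm, k⟩ := D.y1 (τ s(v 0, u)) (τ s(u, v 4)) (decide (τ s(a, u) = 2)) (by omega)
      (by omega)
    obtain ⟨g1, g2⟩ := vy_cg (m := m) h.1 hg hu _ (.inr ⟨(s1 (τ s(v 0, u))).2.1,
      (s1 (τ s(u, v 4))).2.1, rfl⟩)
    rw [e.1, e.2] at g1 g2
    exact win_red D.xe D.x0 (vy_win hc h hu (s1 _).1 (s1 _).1 hm (s1 _).2.2 (s1 _).2.2) hm le_rfl
      h1 h4 g1 g2 k.1 k.2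
  · obtain ⟨m, hm, k⟩ := D.y2 _ _ (decide (τ s(a, u) = 2)) hX e
    obtain ⟨g1, g2⟩ := vy_cg (m := m) h.1 hg hu _ (.inl ⟨rfl, rfl, rfl⟩)
    exact win_red D.xe D.x0 (vy_win hc h hu (by omega) (by omega) hm (fun _ => by omega)
      fun _ => by omega) hm le_rfl h1 h4 g1 g2 k.1 k.2

theorem three_red (D : Data G x) (hc : Con3 V τ) (h : MFan V τ a v 3)
    (pa : Con3 (V \ fanQ v 3) (pth τ a (v 4) (v 0))) (hg : Sp 7 42 (fg τ a v 3)) :
    Red x V τ := by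
  by_cases hX : X12 (τ s(v 0, a)) (τ s(a, v 4))
  · by_cases ht : 2 ≤ (nb V τ a \ (fanQ v 3 ∪ {v 0, v 4})).card
    · obtain ⟨m, hm, k⟩ := D.yt _ _ hX
      obtain ⟨g1, g2⟩ := fan_cg3 (md := mT m) h.1 Nat.one_ne_zero rfl Nat.one_ne_zero
      rw [e3_sp hg] at g1 g2
      exact win_red D.xe D.x0 (win_T hc h pa hm ht) hm (by omega) (fw_pl h.1 le_rfl) (fw_cu h.1)
        g1 g2 k.1 k.2
    · obtain ⟨u, u1, u2, u3, u4⟩ := hub_out hc h
      have hu : u ∈ nb V τ a \ (fanQ v 3 ∪ {v 0, v 4}) := by simp [u1, u2, u3, u4]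
      exact thin_red D hc h hg hX (eq_singleton_iff_unique_mem.2
        ⟨hu, fun z hz => card_le_one.1 (by omega) z hz u hu⟩)
  · obtain ⟨m, hm, k⟩ := D.ks (τ s(v 0, a)) (τ s(a, v 4)) (by omega) (by omega) hX
    obtain ⟨g1, g2⟩ := fan_cg3 (md := mL m) h.1 Nat.one_ne_zero rfl Nat.one_ne_zero
    rw [e3_sp hg] at g1 g2
    exact win_red D.xe D.x0 (win_L hc h pa hm) hm (by omega) (fw_pl h.1 le_rfl) (fw_cu h.1)
      g1 g2 k.1 k.2

end Pool.Agent.Lib.MP_efe3d7_co.J.Tw
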