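import Pool.Agent.Lib.MP_efe3d7_co.J.VA
import Pool.Agent.Lib.MP_efe3d7_co.J.VB
import Pool.Agent.Lib.MP_efe3d7_co.J.VX
import Pool.Agent.Lib.MP_efe3d7_co.J.VY
import Pool.Agent.Lib.MP_efe3d7_co.H.Fan2

/-! Graphs in which every minimal thick fragment is a pair of adjacent cubic vertices. -/

set_option autoImplicit false

open Finset

namespace Pool.Agent.Lib.MP_efe3d7_co.J.Tw

open H
open H.Fn (T5 pr pev)

variable {α : Type} [DecidableEq α] [Fintype α] {V : Finset α} {τ : Sym2 α → Fin 3} {a : α}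
  {v : ℕ → α} {k : ℕ} {G : List (ℕ × ℕ × ℕ)} {x : ℝ}

theorem vm1_ty (b : Bool) : ∀ i < 3, ∀ j < 3, i ≠ j → ty (mkT [(0, 2, bT b)]) i j =
    if (mL 0).pm i j = 0 then bT b else 0 := by
  cases b <;> decide +kernel

omit [Fintype α] in
theorem vm1_out (f : Fan V τ a v k) (hU : V \ fanQ v k = {v 0, a, v (k + 1)})
    (t : τ s(v 0, v (k + 1)) ≠ 0) : Out (mL 0) (V \ fanQ v k) (fw a v k) τ 0
      (mkT [(0, 2, bT (decide (τ s(v 0, v (k + 1)) = 2)))]) := by
  refine ⟨fw a v k, (fw_pl f (Nat.zero_le k)).inj, fun _ _ => rfl, ?_,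
    fun i h1 h2 => by omega, fun i hi j hj e => ?_⟩
  · rw [hU]
    ext z
    simp [range_add_one, fw, eq_comm, or_comm, or_left_comm, or_assoc]
  · rw [vm1_ty _ i hi j hj e, bT_val t]
    interval_cases i <;> interval_cases j <;> first
      | exact absurd rfl e
      | rfl
      | exact congrArg (fun z => (τ z).val) Sym2.eq_swap

theorem wheel_red (D : Data G x) (hc : Con3 V τ) (h : Wheel V τ) : Red x V τ := by
  obtain ⟨a, v, k, f, hU⟩ := h
  have hx := D.x0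
  have k2 := f.k2
  have h4 : 4 ≤ V.card := f.hub.trans (card_le_card (nb_sub a))
  have en : ∀ i j l, (i = 0 ∧ j = k + 1 ∧ l = 1) ∨ (i = k + 1 ∧ j = 0 ∧ l = k) →
      a ∈ nb V τ (v i) ∧ v j ∈ nb V τ (v i) := by
    intro i j l hi
    have hiV := f.hv i (by omega)
    have sub : nb V τ (v i) ⊆ {a, v j, v l} := by
      intro w hw
      by_cases hF : w ∈ fanQ v k
      · obtain ⟨m, m1, rfl⟩ := mem_fanQ.1 hF
        have := nb_symm hiV hw
        rw [f.nbr m m1] at this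
        simp only [mem_insert, mem_singleton] at this ⊢
        rcases this with e | e | e
        · exact absurd e (f.na i (by omega))
        · have := f.inj _ _ (by omega) (by omega) e
          exact Or.inr (Or.inr (congrArg v (by omega)))
        · have := f.inj _ _ (by omega) (by omega) e
          exact Or.inr (Or.inr (congrArg v (by omega)))
      · have e : w ∈ V \ fanQ v k := mem_sdiff.2 ⟨nb_sub _ hw, hF⟩
        have ne := (mem_nb.1 hw).2.1
        rw [hU] at e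
        simp only [mem_insert, mem_singleton] at e ⊢
        rcases hi with ⟨rfl, rfl, rfl⟩ | ⟨rfl, rfl, rfl⟩ <;> tauto
    have e := eq_of_subset_of_card_le sub (card_le_three.trans (hc.dg3 h4 hiV))
    rw [e]
    simp
  have e0 := en 0 (k + 1) 1 (Or.inl ⟨rfl, rfl, rfl⟩)
  have e1 := en (k + 1) 0 k (Or.inr ⟨rfl, rfl, rfl⟩)
  have t1 : τ s(a, v (k + 1)) ≠ 0 := by rw [Sym2.eq_swap]; exact (mem_nb.1 e1.1).2.2
  have t0 := (mem_nb.1 e0.1).2.2
  have ho := vm1_out f hU (mem_nb.1 e0.2).2.2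
  generalize decide (τ s(v 0, v (k + 1)) = 2) = bc at ho
  have hp := fw_pl f le_rfl
  have pos : 0 < pr (fv x (fg τ a v k) k (bT (decide (τ s(v 0, a) = 2)))
      (bT (decide (τ s(a, v (k + 1)) = 2)))) (gam (rOps x) 0 (mkT [(0, 2, bT bc)])) →
      Red x V τ := fun p => by
    obtain ⟨β, hf⟩ := te_fm hx hp fun e => wt (ee x) (τ e)
    have e := fan_val (md := mL 0) hx f one_ne_zero rfl one_ne_zero hf
    rw [out_val hx ho hf, pr_sc] at e
    rw [bT_val t0, bT_val t1] at p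
    exact red_pos (Or.inl (pos_of_mul_pos_left (b := x)
      (by rw [mul_comm, e]; exact mul_pos (by linarith) p) hx.le))
  have exc : ∀ ct u, CG (mL 0) (V \ fanQ v k) (fw a v k) τ k ct τ →
      isx (mL 0) k ct 0 (mkT [(0, 2, bT bc)]) u = true → Red x V τ := fun ct u g h =>
    red_pos (Or.inr (by
      have := isx_sound hp g ho h
      rwa [← fw_cu f] at this))
  rcases Nat.lt_or_ge k 4 with k4 | k4
  · obtain rfl | rfl : k = 2 ∨ k = 3 := by omega
    · refine (D.w2 _ _ _ bc).elim pos fun ⟨u, h⟩ => exc _ u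
        (fan_cg2 f one_ne_zero rfl one_ne_zero).1 ?_
      rwa [bT_val t0, bT_val t1] at h
    · refine (D.w3 _ _ _ bc).elim pos fun ⟨u, h⟩ => exc _ u
        (fan_cg3 f one_ne_zero rfl one_ne_zero).1 ?_
      rwa [bT_val t0, bT_val t1] at h
  · exact pos (D.wh _ k _ _ bc k4)

theorem vm2_vec (D : Data G x) (hc : Con3 V τ) (h : MFan V τ a v k)
    (pa : Con3 (V \ fanQ v k) (pth τ a (v (k + 1)) (v 0))) {m N : ℕ} (m3 : m ≤ 3) (mk : m ≤ k)
    (hN : N ≤ 2 * k + 1 + ind (τ s(v 0, a)) + ind (τ s(a, v (k + 1))))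
    (hv : VOk G x (mL m) N (fv x (fg τ a v k) k (τ s(v 0, a)) (τ s(a, v (k + 1))))) :
    Red x V τ := by
  have hn := fan_ne (md := mL m) h.1 Nat.one_ne_zero Nat.one_ne_zero
  refine vec_red D.xe D.x0 (win_L hc h pa mk) m3 (N := N) (by omega) fun β hb hh => ?_
  have e := fan_val (md := mL m) D.x0 h.1 Nat.one_ne_zero rfl Nat.one_ne_zero hb
  have p := hv _ hh
  rw [← e] at p
  exact pos_of_mul_pos_left (by rwa [mul_comm] at p) D.x0.le

theorem vm2_two (D : Data G x) (hc : Con3 V τ) (h : MFan V τ a v 2)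
    (pa : Con3 (V \ fanQ v 2) (pth τ a (v 3) (v 0))) : Red x V τ := by
  by_cases h0 : τ s(v 0, a) = 0 ∧ τ s(a, v 3) = 0
  · obtain ⟨m, hm, W⟩ := D.kt (fg τ a v 2)
    have cg := fan_cg2 (md := mT m) h.1 Nat.one_ne_zero rfl Nat.one_ne_zero
    rw [h0.1, h0.2] at cg
    exact win_red D.xe D.x0 (win_T hc h pa hm (hub_two h.1 h0.1 h0.2)) (hm.trans (by omega))
      (by omega) (fw_pl h.1 le_rfl) (fw_cu h.1) cg.1 cg.2 W.1 W.2
  by_cases h2 : Sp 5 10 (fg τ a v 2) ∧ τ s(v 0, a) = 2 ∧ τ s(a, v 3) = 2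
  · exact x3_red D hc h pa h2.1 h2.2.1 h2.2.2
  obtain ⟨m, hm, W⟩ := D.k2 (fg τ a v 2) (τ s(v 0, a)) (τ s(a, v 3)) (by omega) (by omega)
    (fun e => h0 ⟨Fin.ext e.1, Fin.ext e.2⟩) (fun e => h2 ⟨e.1, Fin.ext e.2.1, Fin.ext e.2.2⟩)
  have cg := fan_cg2 (md := mL m) h.1 Nat.one_ne_zero rfl Nat.one_ne_zero
  exact win_red D.xe D.x0 (win_L hc h pa hm) (hm.trans (by omega)) (by omega) (fw_pl h.1 le_rfl)
    (fw_cu h.1) cg.1 cg.2 W.1 W.2

theorem mfan_red (D : Data G x) (hc : Con3 V τ) (h : MFan V τ a v k)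
    (pa : Con3 (V \ fanQ v k) (pth τ a (v (k + 1)) (v 0))) : Red x V τ := by
  rcases h.1.k2.eq_or_lt with rfl | k3
  · exact vm2_two D hc h pa
  rcases (Nat.succ_le_of_lt k3).eq_or_lt with rfl | k4
  · by_cases hg : Sp 7 42 (fg τ a v 3)
    · exact three_red D hc h pa hg
    obtain ⟨m, hm, W⟩ := D.k3 (fg τ a v 3) (τ s(v 0, a)) (τ s(a, v 4)) (by omega) (by omega) hg
    exact vm2_vec D hc h pa hm hm le_rfl W
  obtain ⟨m, hm, W⟩ := D.long (fg τ a v k) k (τ s(v 0, a)) (τ s(a, v (k + 1))) k4 (by omega)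
    (by omega)
  exact vm2_vec D hc h pa hm (by omega) (by omega) W

theorem fans_of (D : Data G x) (hc : Con3 V τ)
    (H : ∀ Q T, MinThick V τ Q T →
      ∃ u v, Q = {u, v} ∧ τ s(u, v) ≠ 0 ∧ dg V τ u = 3 ∧ dg V τ v = 3)
    (ex : ∃ Q T, Thick V τ Q T) : Red x V τ := by
  by_cases hw : Wheel V τ
  · exact wheel_red D hc hw
  have key : ∀ Q T, Thick V τ Q T → ∃ F a b c wb wc, (∃ v k, MFan V τ a v k ∧ F = fanQ v k ∧
      b = v (k + 1) ∧ c = v 0 ∧ wb = v k ∧ wc = v 1) ∧ ∃ r ∈ F, ∃ s ∈ F, r ≠ s ∧ r ∈ Q ∧ s ∈ Q := by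
    intro Q T h
    obtain ⟨Q', T', hm, hs⟩ := exists_min h
    obtain ⟨r, s, rfl, e1, e2, e3⟩ := H Q' T' hm
    obtain ⟨a, v, f, e⟩ := fan_of_pair hc hm.1 e1 e2 e3
    obtain ⟨v', k', f', e'⟩ := (f.ext hc).resolve_left hw
    rw [e] at e'
    refine ⟨_, a, _, _, _, _, ⟨v', k', f', rfl, rfl, rfl, rfl, rfl⟩, r, e' (by simp), s,
      e' (by simp), ?_, hs (by simp), hs (by simp)⟩
    rintro rfl
    have := hm.1.cQ
    simp at this
  obtain ⟨_, a, _, _, _, _, ⟨v, k, f, rfl, rfl, rfl, rfl, rfl⟩, pa⟩ := fan_cross hc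
    (fun F a b c wb wc => ∃ v k, MFan V τ a v k ∧ F = fanQ v k ∧ b = v (k + 1) ∧ c = v 0 ∧
      wb = v k ∧ wc = v 1) (by
      rintro _ a _ _ _ _ ⟨v, k, f, rfl, rfl, rfl, rfl, rfl⟩
      refine ⟨f.afan, fun i => v (k + 1 - i), k, ⟨f.1.rev.1, by simpa using f.2.2,
        by simpa using f.2.1⟩, f.1.rev.2.symm, by simp, by simp, by simp, by simp⟩) key (by
      obtain ⟨Q, T, h⟩ := ex
      obtain ⟨F, a, b, c, wb, wc, k, _⟩ := key Q T h
      exact ⟨F, a, b, c, wb, wc, k⟩)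
  exact mfan_red D hc f pa

end Pool.Agent.Lib.MP_efe3d7_co.J.Tw
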