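import Pool.Agent.Lib.MP_efe3d7_co.J.D1
import Pool.Agent.Lib.MP_efe3d7_co.J.D2
import Pool.Agent.Lib.MP_efe3d7_co.J.D3
import Pool.Agent.Lib.MP_efe3d7_co.J.D4
import Pool.Agent.Lib.MP_efe3d7_co.J.D5
import Pool.Agent.Lib.MP_efe3d7_co.J.D6
import Pool.Agent.Lib.MP_efe3d7_co.J.D7
import Pool.Agent.Lib.MP_efe3d7_co.J.D8
import Pool.Agent.Lib.MP_efe3d7_co.J.DS1
import Pool.Agent.Lib.MP_efe3d7_co.J.DS2
import Pool.Agent.Lib.MP_efe3d7_co.J.DS3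
import Pool.Agent.Lib.MP_efe3d7_co.J.TG
import Pool.Agent.Lib.MP_efe3d7_co.J.VG
import Pool.Agent.Lib.MP_efe3d7_co.J.VM

/-! Fans are reducible. -/

set_option autoImplicit false

namespace Pool.Agent.Lib.MP_efe3d7_co.J.Tw

open H

theorem crt : Crt GX L1 where
  sub := sub_ks
  len := len_L1
  e3 := e3_c
  i3 := i3_c
  e4 := e4_c
  i4 := i4_c
  c3 := c3_c
  c4 := c4_c
  k4 := k4_c
  k3 := k3_c
  g3 := g3_c
  g4 := g4_c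
  g5 := g5_c
  h4 := h4_c
  h3 := h3_c
  u3 := u3_c
  u6 := u6_c
  u4 := u4_c
  u5 z hz := by
    interval_cases z
    exacts [u50_c, u51_c, u52_c, u53_c]
  v2 := ⟨_, v2_c⟩
  v3 := ⟨_, v3_c⟩

theorem crw : Crw GX where
  ks := ⟨ks_c, _, _, sub_ks, ksx_c⟩
  yt := ⟨yt_c, _, _, sub_yt, ytx_c⟩
  y2 := ⟨y2_c, _, _, sub_y2, y2x_c⟩
  k2 := ⟨k2_c, _, _, sub_ks, k2x_c⟩
  kt := ⟨kt_c, _, _, sub_kt, ktx_c⟩
  xa := ⟨xa_c, _, _, sub_xa, xax_c⟩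
  xp := ⟨xp_c, _, _, sub_xp, xpx_c⟩
  xb := ⟨xb_c, _, _, sub_xb, xbx_c⟩
  xc := ⟨xc_c, _, _, sub_xc, xcx_c⟩
  xu := ⟨xu_c, _, _, sub_xu, xux_c⟩
  y1 p q hp hq := by
    rcases hp with rfl | rfl <;> rcases hq with rfl | rfl
    · exact ⟨y111_c, _, _, sub_y111, y111x_c⟩
    · exact ⟨y112_c, _, _, sub_y112, y112x_c⟩
    · exact ⟨y121_c, _, _, sub_y121, y121x_c⟩
    · exact ⟨y122_c, _, _, sub_y122, y122x_c⟩
  xz := xz_c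

end Pool.Agent.Lib.MP_efe3d7_co.J.Tw

namespace Pool.Agent.Lib.MP_efe3d7_co.J

open H

variable {α : Type} [DecidableEq α] [Fintype α] {V : Finset α} {τ : Sym2 α → Fin 3} {x : ℝ}

/-- Graphs in which every minimal thick fragment is a pair of adjacent cubic vertices. -/
theorem fans_red (h : Iv x) (hc : Con3 V τ)
    (H : ∀ Q T, MinThick V τ Q T →
      ∃ u v, Q = {u, v} ∧ τ s(u, v) ≠ 0 ∧ dg V τ u = 3 ∧ dg V τ v = 3)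
    (ex : ∃ Q T, Thick V τ Q T) : Red x V τ :=
  Tw.fans_of (Tw.data_of Tw.xeG Tw.crt Tw.crw h) hc H ex

end Pool.Agent.Lib.MP_efe3d7_co.J
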