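import Pool.Agent.Lib.MP_efe3d7_co.H.Sem

/-! Graphs with hard and heavy edges, the heavy weight being `-(287 / 312) x`. -/

set_option autoImplicit false

open Finset

namespace Pool.Agent.Lib.MP_efe3d7_co.J

open H

variable {α : Type} [Fintype α] [DecidableEq α]

/-- The size of the weight of a heavy edge. -/
noncomputable def ee (x : ℝ) : ℝ := 287 / 312 * x

/-- The range of the parameter. -/
def Iv (x : ℝ) : Prop := 1 / 4 ≤ x ∧ x ≤ 371 / 475

/-- The signed partition function of a typed graph at `q = 1 + x`. -/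
noncomputable def FF (x : ℝ) (V : Finset α) (τ : Sym2 α → Fin 3) : ℝ :=
  ff x V fun e => wt (ee x) (τ e)

/-- The weight used among graphs with the same number of edges. -/
noncomputable def ww (V : Finset α) (τ : Sym2 α → Fin 3) : ℝ :=
  (6 / 5) ^ V.card / (6 / 5) ^ nh V τ

/-- The graph is given by the table `ct` on `n` vertices. -/
def Iso (n ct : ℕ) (V : Finset α) (τ : Sym2 α → Fin 3) : Prop :=
  ∃ u : ℕ → α, (∀ i < n, ∀ j < n, u i = u j → i = j) ∧ V = (range n).image u ∧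
    ∀ i < n, ∀ j < n, i ≠ j → (τ s(u i, u j)).val = ty ct i j

/-- The number of vertices of the exceptional graphs. -/
def xn (j : ℕ) : ℕ := bif Nat.ble j 5 then 5 else bif Nat.ble j 8 then 6 else 7

/-- The edges of the exceptional graphs `0, ..., 9` and of the complete bipartite graph. -/
def xe : ℕ → List (ℕ × ℕ × ℕ)
  | 0 => [(0, 1, 2), (0, 2, 2), (0, 3, 1), (0, 4, 1), (1, 3, 1), (3, 2, 1), (2, 4, 1), (4, 1, 1)]
  | 1 => [(0, 1, 2), (0, 2, 2), (0, 3, 2), (0, 4, 1), (1, 3, 1), (3, 2, 1), (2, 4, 1), (4, 1, 1)]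
  | 2 => [(0, 1, 2), (0, 2, 2), (0, 3, 2), (0, 4, 2), (1, 3, 1), (3, 2, 1), (2, 4, 1), (4, 1, 1)]
  | 3 => [(0, 1, 2), (0, 2, 2), (0, 3, 2), (0, 4, 2), (1, 3, 2), (3, 2, 1), (2, 4, 1), (4, 1, 1)]
  | 4 => [(0, 1, 2), (0, 2, 2), (0, 3, 2), (0, 4, 2), (1, 3, 2), (3, 2, 1), (2, 4, 2), (4, 1, 1)]
  | 5 => [(0, 1, 2), (0, 2, 2), (0, 3, 2), (0, 4, 2), (1, 2, 2), (1, 3, 2), (1, 4, 2), (2, 3, 2), (2, 4, 2), (3, 4, 2)]
  | 6 => [(0, 3, 1), (0, 4, 1), (0, 5, 1), (1, 3, 1), (1, 4, 1), (1, 5, 1), (2, 3, 1), (2, 4, 1), (2, 5, 1), (0, 1, 2)]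
  | 7 => [(0, 1, 2), (0, 2, 2), (0, 3, 2), (0, 4, 2), (0, 5, 1), (1, 2, 1), (2, 3, 2), (3, 4, 1), (4, 5, 1), (5, 1, 1)]
  | 8 => [(0, 1, 2), (0, 2, 2), (0, 3, 2), (0, 4, 2), (0, 5, 2), (1, 2, 1), (2, 3, 1), (3, 4, 1), (4, 5, 1), (5, 1, 1)]
  | 9 => [(0, 2, 2), (1, 2, 2), (1, 3, 2), (2, 3, 1), (0, 4, 2), (2, 4, 1), (0, 5, 2), (1, 5, 1), (4, 5, 1), (0, 6, 1), (1, 6, 2), (3, 6, 1)]
  | _ => [(0, 3, 1), (0, 4, 1), (0, 5, 1), (0, 6, 1), (1, 3, 1), (1, 4, 1), (1, 5, 1), (1, 6, 1), (2, 3, 1), (2, 4, 1), (2, 5, 1), (2, 6, 1)]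

/-- The table of a list of edges. -/
def mkT (l : List (ℕ × ℕ × ℕ)) : ℕ := l.foldr (fun e r => sdg r (px e.1 e.2.1) e.2.2) 0

/-- The tables of these graphs. -/
def xt (j : ℕ) : ℕ := mkT (xe j)

/-- The ten exceptional graphs. -/
def Exc (V : Finset α) (τ : Sym2 α → Fin 3) : Prop := ∃ j < 10, Iso (xn j) (xt j) V τ

/-- The complete bipartite graph with parts of size three and four is positive. -/
def HK (α : Type) [Fintype α] [DecidableEq α] (x : ℝ) : Prop :=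
  ∀ (V : Finset α) (τ : Sym2 α → Fin 3), Iso 7 (xt 10) V τ → 0 < FF x V τ

/-- All members of the class with fewer edges are positive. -/
def Sm (x : ℝ) (V : Finset α) (τ : Sym2 α → Fin 3) : Prop :=
  ∀ (V' : Finset α) (τ' : Sym2 α → Fin 3), Con3 V' τ' → ¬ Exc V' τ' → ne V' τ' < ne V τ →
    0 < FF x V' τ'

/-- All members of the class with the same number of edges are at least `μ` times the weight. -/
def Eqs (x μ : ℝ) (V : Finset α) (τ : Sym2 α → Fin 3) : Prop :=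
  ∀ (V' : Finset α) (τ' : Sym2 α → Fin 3), Con3 V' τ' → ¬ Exc V' τ' → ne V' τ' = ne V τ →
    μ * ww V' τ' ≤ FF x V' τ'

/-- The graph is not a minimal counterexample. -/
def Red (x : ℝ) (V : Finset α) (τ : Sym2 α → Fin 3) : Prop :=
  ¬ Exc V τ → Sm x V τ → ∀ μ : ℝ, μ ≤ 0 → Eqs x μ V τ → μ * ww V τ < FF x V τ

/-- The facts on a frame, with one more. -/
structure Ok3 (m : Md) (V : Finset α) (τ : Sym2 α → Fin 3) (E : Env α) : Prop
    extends Ok2 m V τ E where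
  d3 : m.rl = true → ∀ B U : Finset α, B ⊆ E.Q → 2 ≤ B.card → Cov V τ B U → Disjoint B U →
    U.card ≤ 3 → (∀ u ∈ U, u ∈ E.T ∨ 2 ≤ (nb V τ u \ B).card) → B = E.Q

/-- Every graph that contains the configuration is reducible. -/
def Valid (α : Type) [Fintype α] [DecidableEq α] (x : ℝ) (m : Md) (k : K) : Prop :=
  ∀ (V : Finset α) (τ : Sym2 α → Fin 3) (E : Env α) (v : ℕ → α), Ok3 m V τ E → Sat k V τ E v →
    Red x V τ

end Pool.Agent.Lib.MP_efe3d7_co.J
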