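import Pool.Agent.Lib.MP_efe3d7_co.J.EvA

/-! The identity on one piece. -/

set_option autoImplicit false

open Finset Polynomial

namespace Pool.Agent.Lib.MP_efe3d7_co.J

open H

variable {W n b b' : ℕ} {N N' : ℤ} {f f' : ℕ → ℝ → ℝ}

theorem evh_add (h : RZ W n N b f) (h' : RZ W n N' b' f') :
    RZ W n (N + N') (b + b') fun i x => f i x + f' i x := by
  obtain ⟨p, q, e, h⟩ := h
  obtain ⟨p', q', e', h'⟩ := h'
  refine ⟨fun i => p i + p' i, fun i => q i + q' i, ?_, fun i hi => ⟨?_, fun x => ?_⟩⟩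
  · rw [← pv_add, ← pv_add, e, e']
    push_cast
    ring
  · have := (h i hi).1
    have := (h' i hi).1
    simp only [eval_add]
    omega
  · simp only [av_add, ← (h i hi).2 x, ← (h' i hi).2 x]
    ring

theorem evh_neg (h : RZ W n N b f) : RZ W n (-N) b fun i x => -f i x := by
  obtain ⟨p, q, e, h⟩ := h
  exact ⟨q, p, by rw [e, neg_sub], fun i hi => ⟨by have := (h i hi).1; omega, fun x => by
    simp only [← (h i hi).2 x, neg_sub]⟩⟩

theorem evh_pol (r : ℕ[X]) (h : RZ W n N b f) :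
    RZ W n ((r.eval (2 ^ (W * n)) : ℕ) * N) (r.eval 1 * b) fun i x => av x r * f i x := by
  obtain ⟨p, q, e, h⟩ := h
  refine ⟨fun i => r * p i, fun i => r * q i, ?_, fun i hi => ⟨?_, fun x => ?_⟩⟩
  · rw [← pv_pol, ← pv_pol, e]
    push_cast
    ring
  · rw [eval_mul, eval_mul, ← mul_add]
    exact Nat.mul_le_mul_left _ (h i hi).1
  · simp only [av_mul, ← (h i hi).2 x]
    ring

theorem evh_mono (h : RZ W n N b f) (e : N = N') (hb : b ≤ b') (hf : ∀ i x, f i x = f' i x) :
    RZ W n N' b' f' := by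
  obtain ⟨p, q, e', h⟩ := h
  exact ⟨p, q, e ▸ e', fun i hi => ⟨(h i hi).1.trans hb, fun x => hf i x ▸ (h i hi).2 x⟩⟩

theorem evh_nil (W n : ℕ) : RZ W n 0 0 fun _ _ => 0 :=
  ⟨fun _ => 0, fun _ => 0, by simp, fun _ _ => ⟨by simp, fun _ => by simp⟩⟩

theorem evh_zero (h : RZ W n 0 b f) (hb : b < 2 ^ W) {i : ℕ} (hi : i < n) (x : ℝ) : f i x = 0 := by
  obtain ⟨p, q, e, h⟩ := h
  rw [← (h i hi).2 x, pv_inj (c := p) (c' := q) (fun j hj => le_of_add_le_left (h j hj).1)
    (fun j hj => le_of_add_le_right (h j hj).1) hb (by omega) i hi, sub_self]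

/-- The sum of `c t * (-α) ^ t * β ^ (L - 1 - t)`. -/
def evh_hv {R : Type} [CommRing R] (α β : R) : List ℕ → R
  | [] => 0
  | a :: l => a * β ^ l.length - α * evh_hv α β l

theorem evh_sum (u v : ℝ) (c : List ℕ) : evh_hv (-u) v c =
    ∑ t ∈ range c.length, (c.getD t 0 : ℝ) * (u ^ t * v ^ (c.length - 1 - t)) := by
  induction c with
  | nil => rfl
  | cons a l ih =>
    rw [evh_hv, ih, List.length_cons, sum_range_succ', neg_mul, sub_neg_eq_add, add_comm, mul_sum]
    simp only [List.getD_cons_succ, List.getD_cons_zero, pow_zero, one_mul, Nat.add_sub_cancel,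
      Nat.sub_zero]
    refine congrArg (· + _) (sum_congr rfl fun t _ => ?_)
    rw [show l.length - (t + 1) = l.length - 1 - t by omega]
    ring

theorem evh_one {α β : ℕ[X]} {M : ℕ} (h1 : α.eval 1 ≤ M) (h2 : β.eval 1 ≤ M) (h3 : 1 ≤ M)
    (h : RZ W n N b f) (c : List ℕ) :
    RZ W n (evh_hv ((α.eval (2 ^ (W * n)) : ℕ) : ℤ) (β.eval (2 ^ (W * n)) : ℕ) c * N)
      (sumL c * M ^ c.length * b) fun i x => evh_hv (av x α) (av x β) c * f i x := by
  induction c with
  | nil => exact evh_mono (evh_nil W n) (by simp [evh_hv]) (Nat.zero_le _) (by simp [evh_hv])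
  | cons a l ih =>
    refine evh_mono (evh_add (evh_pol (C a * β ^ l.length) h) (evh_neg (evh_pol α ih))) ?_ ?_
      fun i x => ?_
    · rw [evh_hv, eval_mul, eval_C, eval_pow]
      push_cast
      ring
    · have e : sumL (a :: l) = a + sumL l := rfl
      have k1 : β.eval 1 ^ l.length ≤ M ^ (l.length + 1) :=
        (Nat.pow_le_pow_left h2 _).trans (Nat.pow_le_pow_right h3 (Nat.le_succ _))
      rw [e, eval_mul, eval_C, eval_pow, List.length_cons, add_mul, add_mul]
      refine Nat.add_le_add (Nat.mul_le_mul_right _ (Nat.mul_le_mul_left _ k1)) ?_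
      refine (Nat.mul_le_mul_right _ h1).trans (le_of_eq ?_)
      ring
    · rw [evh_hv, av_mul, av_C, av_pow]
      ring

theorem evh_za (α β : ℤ) (X : ℕ) (c : List ℕ) : ∀ (A : List ℕ) (k : List ℕ → Bool),
    za X c A k = true → ∃ A', k A' = true ∧ c.length = A.length ∧ A'.length = A.length ∧
      evh_hv α β A' = evh_hv α β A + evh_hv α β c * X := by
  induction c with
  | nil =>
    intro A k h
    cases A with
    | nil => exact ⟨[], h, rfl, rfl, by simp [evh_hv]⟩
    | cons a t => exact absurd h Bool.false_ne_true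
  | cons x c ih =>
    intro A k h
    cases A with
    | nil => exact absurd h Bool.false_ne_true
    | cons a t =>
      have h : sq (a + x * X) (fun v => za X c t fun u => k (v :: u)) = true := h
      rw [sq_eq] at h
      obtain ⟨A', h1, h2, h3, h4⟩ := ih _ _ h
      refine ⟨_, h1, by simp [h2], by simp [h3], ?_⟩
      simp only [evh_hv, h2, h3, h4]
      push_cast
      ring

theorem evh_acc (α β : ℤ) (L : ℕ) (xs : List (ℕ × ℕ)) : ∀ (cf : List (List ℕ)) (A B : List ℕ)
    (k : List ℕ → List ℕ → Bool), A.length = L → B.length = L → acc xs cf A B k = true →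
      ∃ A' B', (k A' B' = true ∧ A'.length = B'.length) ∧ (∀ u ∈ xs.zip cf, u.2.length = L) ∧
        evh_hv α β A' - evh_hv α β B' = evh_hv α β A - evh_hv α β B +
          ((xs.zip cf).map fun u => evh_hv α β u.2 * sgn u.1).sum := by
  induction xs with
  | nil => exact fun cf A B k a b h => ⟨A, B, ⟨h, a.trans b.symm⟩, by simp, by simp⟩
  | cons x xs ih =>
    intro cf A B k hA hB h
    cases cf with
    | nil => exact ⟨A, B, ⟨h, hA.trans hB.symm⟩, by simp, by simp⟩
    | cons c t =>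
      have h : (bif Nat.beq x.1 1 then za x.2 c A fun A' => acc xs t A' B k else
        za x.2 c B fun B' => acc xs t A B' k) = true := h
      by_cases e : x.1 = 1
      · rw [Nat.beq_eq.mpr e, cond_true] at h
        obtain ⟨A1, h1, h2, h3, h4⟩ := evh_za α β _ _ _ _ h
        obtain ⟨A', B', k1, k2, k3⟩ := ih _ _ _ _ (h3.trans hA) hB h1
        refine ⟨A', B', k1, List.forall_mem_cons.2 ⟨h2.trans hA, k2⟩, ?_⟩
        rw [k3, h4, List.zip_cons_cons, List.map_cons, List.sum_cons, sgn, if_pos e]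
        ring
      · rw [Bool.eq_false_iff.2 fun q => e (Nat.eq_of_beq_eq_true q), cond_false] at h
        obtain ⟨B1, h1, h2, h3, h4⟩ := evh_za α β _ _ _ _ h
        obtain ⟨A', B', k1, k2, k3⟩ := ih _ _ _ _ hA (h3.trans hB) h1
        refine ⟨A', B', k1, List.forall_mem_cons.2 ⟨h2.trans hB, k2⟩, ?_⟩
        rw [k3, h4, List.zip_cons_cons, List.map_cons, List.sum_cons, sgn, if_neg e]
        ring

theorem evh_lin (row u v X : ℕ) : lin row u v X = (u + v * 2 ^ row) * X := by
  show u * X + (v * X) <<< row = _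
  rw [Nat.shiftLeft_eq]
  ring

theorem evh_hor (row u1 v1 u2 v2 : ℕ) (A : List ℕ) : ∀ (B : List ℕ) (k : ℕ → ℕ → ℕ → Bool),
    A.length = B.length → hor row u1 v1 u2 v2 A B k = true → ∃ P N : ℕ,
      k ((u2 + v2 * 2 ^ row) ^ A.length) P N = true ∧ (P : ℤ) - N =
        evh_hv ((u1 + v1 * 2 ^ row : ℕ) : ℤ) (u2 + v2 * 2 ^ row : ℕ) A -
          evh_hv ((u1 + v1 * 2 ^ row : ℕ) : ℤ) (u2 + v2 * 2 ^ row : ℕ) B := by
  induction A with
  | nil =>
    intro B k e h
    obtain rfl := List.eq_nil_of_length_eq_zero e.symm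
    exact ⟨0, 0, h, by simp [evh_hv]⟩
  | cons a A ih =>
    intro B k e h
    cases B with
    | nil => exact absurd h Bool.false_ne_true
    | cons b t =>
      have e' : A.length = t.length := by simpa using e
      have h : hor row u1 v1 u2 v2 A t (fun w P N => sq (lin row u2 v2 w) fun w' =>
        sq (lin row u1 v1 N) fun P' => sq (lin row u1 v1 P) fun N' =>
        bif Nat.ble b a then sq (P' + (a - b) * w) fun Q => k w' Q N' else
          sq (N' + (b - a) * w) fun Q => k w' P' Q) = true := h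
      obtain ⟨P, N, h1, h2⟩ := ih _ _ e' h
      simp only [sq_eq, evh_lin] at h1
      rw [List.length_cons, pow_succ', evh_hv, evh_hv, ← e']
      generalize u1 + v1 * 2 ^ row = α at *
      generalize u2 + v2 * 2 ^ row = β at *
      cases c : Nat.ble b a
      · have c' : a ≤ b := by
          have := mt Nat.ble_eq_true_of_le (Bool.eq_false_iff.1 c)
          omega
        rw [c, cond_false] at h1
        refine ⟨_, _, h1, ?_⟩
        push_cast [c']
        linear_combination (-α : ℤ) * h2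
      · rw [c, cond_true] at h1
        refine ⟨_, _, h1, ?_⟩
        push_cast [Nat.le_of_ble_eq_true c]
        linear_combination (-α : ℤ) * h2

theorem evh_all {α β : ℕ[X]} {M L : ℕ} (h1 : α.eval 1 ≤ M) (h2 : β.eval 1 ≤ M) (h3 : 1 ≤ M)
    {xs : List (ℕ × ℕ)} {fs : List (ℕ → ℝ → ℝ)}
    (hx : List.Forall₂ (fun u f => RZ W n (sgn u) b f) xs fs) : ∀ cf : List (List ℕ),
    (∀ u ∈ xs.zip cf, u.2.length = L) → (∀ u ∈ fs.zip cf, u.2.length = L) ∧
    RZ W n ((xs.zip cf).map fun u =>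
      evh_hv ((α.eval (2 ^ (W * n)) : ℕ) : ℤ) (β.eval (2 ^ (W * n)) : ℕ) u.2 * sgn u.1).sum
      (sumL (cf.map sumL) * M ^ L * b)
      fun i x => ((fs.zip cf).map fun u => evh_hv (av x α) (av x β) u.2 * u.1 i x).sum := by
  induction hx with
  | nil => exact fun cf _ => ⟨by simp, evh_mono (evh_nil W n) rfl (Nat.zero_le _) (by simp)⟩
  | cons h _ ih =>
    intro cf hc
    cases cf with
    | nil => exact ⟨by simp, evh_mono (evh_nil W n) rfl (Nat.zero_le _) (by simp)⟩
    | cons c t =>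
      obtain ⟨c1, c2⟩ := List.forall_mem_cons.1 hc
      obtain ⟨k1, k2⟩ := ih t c2
      refine ⟨List.forall_mem_cons.2 ⟨c1, k1⟩, evh_mono (evh_add (evh_one h1 h2 h3 h c) k2) rfl
        (le_of_eq ?_) fun _ _ => rfl⟩
      have e : sumL ((c :: t).map sumL) = sumL c + sumL (t.map sumL) := rfl
      have c3 : c.length = L := c1
      rw [e, c3]
      ring

theorem pcF_sound {W n b : ℕ} {xs : List (ℕ × ℕ)} {fs : List (ℕ → ℝ → ℝ)} {p : Pc}
    (hx : List.Forall₂ (fun u f => RZ W n (sgn u) b f) xs fs) (_hne : xs ≠ [])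
    (hb : b * nrm p < 2 ^ W) (h : pcF (W * n) xs p = true) : ∀ i < n, ∀ x,
      ((fs.zip (p.D :: p.cf)).map fun u => bR x p u.2 * u.1 i x).sum = 0 := by
  intro i hi x
  rw [pcF, frcL_eq] at h
  obtain ⟨A, B, ⟨h1, h2⟩, h3, h4⟩ := evh_acc ((287 * p.a1 + 312 * p.b1 * 2 ^ (W * n) : ℕ) : ℤ)
    (287 * p.a2 + 312 * p.b2 * 2 ^ (W * n) : ℕ) p.D.length _ _ _ _ _ (List.length_map _)
    (List.length_map _) h
  obtain ⟨P, N, h5, h6⟩ := evh_hor _ _ _ _ _ _ _ _ h2 h1
  obtain ⟨k1, k2⟩ := evh_all (α := C (287 * p.a1) + C (312 * p.b1) * X)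
    (β := C (287 * p.a2) + C (312 * p.b2) * X) (M := 312 * (p.a1 + p.b1 + (p.a2 + p.b2)) + 1)
    (by simp only [eval_add, eval_mul, eval_C, eval_X]; omega)
    (by simp only [eval_add, eval_mul, eval_C, eval_X]; omega) (by omega) hx _ h3
  simp only [eval_add, eval_mul, eval_C, eval_X] at k2
  rw [Nat.eq_of_beq_eq_true h5, sub_self] at h6
  rw [sub_self, zero_add] at h4
  have k3 := evh_zero (evh_mono k2 (h4.symm.trans h6.symm) (le_of_eq (mul_comm _ _))
    fun _ _ => rfl) hb hi x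
  refine (mul_eq_zero.1 (?_ : (287 : ℝ) ^ (p.D.length - 1) * _ = 0)).resolve_left (by positivity)
  rw [← k3, ← List.sum_map_mul_left]
  refine congrArg List.sum (List.map_congr_left fun u hu => ?_)
  have e1 : av x (C (287 * p.a1) + C (312 * p.b1) * X) = -(287 * (p.b1 * x - p.a1)) := by
    simp only [av_add, av_mul, av_C, av_X, ee]
    push_cast
    ring
  have e2 : av x (C (287 * p.a2) + C (312 * p.b2) * X) = 287 * (p.a2 - p.b2 * x) := by
    simp only [av_add, av_mul, av_C, av_X, ee]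
    push_cast
    ring
  rw [e1, e2, evh_sum, bR, ← mul_assoc, mul_sum, ← k1 u hu]
  refine congrArg (· * _) (sum_congr rfl fun t ht => ?_)
  have e3 : u.2.length - 1 = t + (u.2.length - 1 - t) := by have := mem_range.1 ht; omega
  rw [mul_pow, mul_pow]
  nth_rewrite 1 [e3]
  rw [pow_add]
  ring

end Pool.Agent.Lib.MP_efe3d7_co.J
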