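import Pool.Agent.Lib.MP_efe3d7_co.J.EvT

/-! The values of the columns. -/

set_option autoImplicit false

open Finset Polynomial

namespace Pool.Agent.Lib.MP_efe3d7_co.J

open H

variable {D : MD} {n R : ℕ} {q : ℕ → ℕ × ℕ}

theorem evu_bd {ni : ℕ} (h5 : ni ≤ 5) : 287 ^ (5 - ni) * 8192 ^ ni ≤ 2 ^ 65 := by
  interval_cases ni <;> norm_num

theorem evu_sg {ni sg : ℕ} (hs : sg ≤ 1) :
    (if sg = 1 then 1 else -1 : ℝ) = (if (sg + ni) % 2 = 1 then 1 else -1) * (-1) ^ ni := by
  rcases Nat.even_or_odd ni with h | h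
  · rw [h.neg_one_pow, mul_one]
    have := Nat.even_iff.1 h
    exact if_congr (by omega) rfl rfl
  · rw [h.neg_one_pow]
    have := Nat.odd_iff.1 h
    by_cases k : sg = 1
    · rw [if_pos k, if_neg (by omega)]
      norm_num
    · rw [if_neg k, if_pos (by omega)]
      norm_num

theorem evu_loc (x : ℝ) {ct ct' s : ℕ} (h : ∀ u < 8, s ≤ u → ∀ j < u, ty ct u j = ty ct' u j)
    (r : ℕ) : ∀ u cs d, s ≤ u → u + r ≤ 8 → locP x ct r u cs d = locP x ct' r u cs d := by
  induction r with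
  | zero => exact fun _ _ _ _ _ => rfl
  | succ r ih =>
    intro u cs d h1 h2
    rw [locP, locP, ih _ _ _ (by omega) (by omega)]
    refine congrArg _ (sum_congr rfl fun c _ => ?_)
    rw [ih _ _ _ (by omega) (by omega)]
    refine congrArg (fun z => C z * _) (prod_congr rfl fun j hj => ?_)
    rw [h u (by omega) h1 j (mem_range.1 hj)]

theorem evu_mg (x : ℝ) {s ni ct a b cs d : ℕ} (h8 : s + ni ≤ 8) (ha : a < s) (hb : b < s)
    (hab : a ≠ b) : valR x s ni (sdg ct (px a b) 1) cs d - valR x s ni ct cs d =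
      if decide (dig cs a = dig cs b) = true then -valR x s ni ct cs d else 0 := by
  have ht : ∀ i < 8, ∀ j < 8, ty (sdg ct (px a b) 1) i j =
      if (i = a ∧ j = b) ∨ (i = b ∧ j = a) then 1 else ty ct i j := fun i hi j hj =>
    ty_sdg ct (by omega) (by omega) (by omega) (by omega) (by omega)
  split_ifs with h
  · have h' := of_decide_eq_true h
    have e : ∏ u ∈ range s, facR (ee x) (sdg ct (px a b) 1) cs u (dig cs u) = 0 := by
      rcases lt_or_gt_of_ne hab with k | k
      · refine prod_eq_zero (mem_range.2 hb) (prod_eq_zero (mem_range.2 k) ?_)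
        rw [if_pos h', ht b (by omega) a (by omega), if_pos (.inr ⟨rfl, rfl⟩), wn, if_pos rfl]
      · refine prod_eq_zero (mem_range.2 ha) (prod_eq_zero (mem_range.2 k) ?_)
        rw [if_pos h'.symm, ht a (by omega) b (by omega), if_pos (.inl ⟨rfl, rfl⟩), wn, if_pos rfl]
    rw [valR, e, zero_mul, mul_zero, zero_sub]
  · have h' : dig cs a ≠ dig cs b := fun k => h (decide_eq_true k)
    have e : ∏ u ∈ range s, facR (ee x) (sdg ct (px a b) 1) cs u (dig cs u) =
        ∏ u ∈ range s, facR (ee x) ct cs u (dig cs u) := by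
      refine prod_congr rfl fun u hu => prod_congr rfl fun j hj => ?_
      have := mem_range.1 hu
      have := mem_range.1 hj
      by_cases k : dig cs j = dig cs u
      · rw [if_pos k, if_pos k, ht u (by omega) j (by omega), if_neg]
        rintro (⟨rfl, rfl⟩ | ⟨rfl, rfl⟩)
        · exact h' k.symm
        · exact h' k
      · rw [if_neg k, if_neg k]
    rw [valR, valR, e, evu_loc (ee x) (ct' := ct) (s := s) (fun u hu h1 j hj => by
      rw [ht u hu j (by omega), if_neg (by omega)]) ni s cs d le_rfl h8, sub_self]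

theorem winS_spec (h : MOk D n R q) (hR : 28 < R) (hW : 66 ≤ D.W) {ni sg : ℕ} (ct : ℕ)
    (m : ℕ → Bool) (h5 : ni ≤ 5) (h8 : D.s + ni ≤ 8) (hs : sg ≤ 1) :
    ∃ u : ℕ × ℕ, (∀ (β : Type) (k : ℕ → ℕ → β),
        winS D ni ct (pv D.W n fun i => if m i = true then 1 else 0) sg k = k u.1 u.2) ∧
      RZ D.W n (sgn u) (2 ^ 65) fun i x => if m i = true then
        (if sg = 1 then 1 else -1) * (287 ^ 5 * valR x D.s ni ct (q i).1 (q i).2) else 0 := by
  have hc : Bd n (fun i => C (287 ^ (5 - ni)) * if m i = true then 1 else 0) 0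
      (287 ^ (5 - ni)) := fun i _ => by
    dsimp only
    split_ifs
    · rw [mul_one, natDegree_C, eval_C]
      exact ⟨le_rfl, le_rfl⟩
    · simp
  obtain ⟨dP, dN, e, hd⟩ := win_spec h ct h8 hc (by omega) ((evu_bd h5).trans_lt
    (Nat.pow_lt_pow_right one_lt_two (by omega)))
  obtain ⟨P, hP⟩ : ∃ P, P = pv D.W n dP := ⟨_, rfl⟩
  obtain ⟨N, hN⟩ : ∃ N, N = pv D.W n dN := ⟨_, rfl⟩
  obtain ⟨z, hz⟩ : ∃ z, z = (sg + ni) % 2 := ⟨_, rfl⟩
  have hv : ∀ i < n, ∀ x, (if z = 1 then 1 else -1) * (av x (dP i) - av x (dN i)) =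
      if m i = true then (if sg = 1 then 1 else -1) *
        (287 ^ 5 * valR x D.s ni ct (q i).1 (q i).2) else 0 := fun i hi x => by
    rw [(hd i hi).2.2.2 x, av_mul, av_C, evu_sg (ni := ni) hs, ← hz]
    by_cases k : m i = true
    · have e5 : (287 : ℝ) ^ 5 = 287 ^ (5 - ni) * 287 ^ ni := by
        rw [← pow_add, Nat.sub_add_cancel h5]
      rw [if_pos k, if_pos k, av_one, e5]
      push_cast
      ring
    · rw [if_neg k, if_neg k, av_zero, mul_zero, zero_mul, mul_zero]
  have hz2 : z < 2 := hz ▸ Nat.mod_lt _ two_pos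
  refine ⟨if N ≤ P then (z, P - N) else (1 - z, N - P), fun β k => ?_, ?_⟩
  · have e1 : Nat.mul (Nat.pow 287 (Nat.sub 5 ni)) (pv D.W n fun i => if m i = true then 1 else 0) =
        pv D.W n fun i => C (287 ^ (5 - ni)) * if m i = true then 1 else 0 := pv_mul _ _ _ _
    rw [winS, sq_eq, e1, e, frc_eq, ← hP, ← hN]
    by_cases k : N ≤ P
    · rw [Nat.ble_eq_true_of_le k, cond_true, sq_eq, if_pos k, hz]
      rfl
    · rw [Bool.eq_false_iff.2 fun k' => k (Nat.le_of_ble_eq_true k'), cond_false, sq_eq, frc_eq,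
        if_neg k, hz]
      rfl
  · have e2 : sgn (if N ≤ P then (z, P - N) else (1 - z, N - P)) =
        if z = 1 then (P : ℤ) - N else N - P := by
      unfold sgn
      split_ifs <;> simp only [] at * <;> omega
    rw [e2]
    by_cases k : z = 1
    · refine ⟨dP, dN, by rw [if_pos k, hP, hN], fun i hi =>
        ⟨(hd i hi).2.2.1.trans (evu_bd h5), fun x => ?_⟩⟩
      have := hv i hi x
      rw [if_pos k, one_mul] at this
      exact this
    · refine ⟨dN, dP, by rw [if_neg k, hP, hN], fun i hi =>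
        ⟨(add_comm _ _).trans_le ((hd i hi).2.2.1.trans (evu_bd h5)), fun x => ?_⟩⟩
      have := hv i hi x
      rw [if_neg k, neg_one_mul, neg_sub] at this
      exact this

theorem colsX_spec (h : MOk D n R q) (hR : 28 < R) (hW : 66 ≤ D.W) (cols : List Col)
    (k : List (ℕ × ℕ) → Bool) (hk : colsX D cols k = true) :
    ∃ xs, k xs = true ∧ List.Forall₂ (fun (u : ℕ × ℕ) (g : Col) => RZ D.W n (sgn u) (2 ^ 65)
      fun i x => 287 ^ 5 * cvalR x D.s g (q i).1 (q i).2) xs cols := by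
  induction cols generalizing k with
  | nil => exact ⟨[], hk, .nil⟩
  | cons g cols ih =>
    have e : colsX D (g :: cols) k = (Nat.ble g.ni 5 && Nat.ble (Nat.add D.s g.ni) 8 &&
      bif g.mg then Nat.blt g.a D.s && Nat.blt g.b D.s && !Nat.beq g.a g.b &&
        Nat.beq (ty g.ct g.a g.b) 0 &&
        winS D g.ni g.ct (Nat.land D.O1 (mo D g.a g.b)) 0 fun e M =>
          colsX D cols fun t => k ((e, M) :: t)
      else winS D g.ni g.ct D.O1 1 fun e M => colsX D cols fun t => k ((e, M) :: t)) := rfl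
    rw [e, Bool.and_eq_true, Bool.and_eq_true, Nat.ble_eq, Nat.ble_eq] at hk
    obtain ⟨⟨h5, h8⟩, hk⟩ := hk
    cases hg : g.mg
    · rw [hg, cond_false, h.o1] at hk
      obtain ⟨u, e1, hu⟩ := winS_spec h hR hW g.ct (fun _ => true) h5 h8 (le_refl 1)
      simp only [if_true] at e1 hu
      rw [e1] at hk
      obtain ⟨xs, h1, h2⟩ := ih _ hk
      refine ⟨u :: xs, h1, .cons ?_ h2⟩
      simpa only [cvalR, hg, Bool.false_eq_true, if_false, one_mul] using hu
    · rw [hg, cond_true] at hk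
      simp only [Bool.and_eq_true, Nat.blt_eq, Bool.not_eq_true', Nat.beq_eq] at hk
      obtain ⟨⟨⟨⟨ha, hb⟩, hab⟩, -⟩, hk⟩ := hk
      have hab' : g.a ≠ g.b := Nat.ne_of_beq_eq_false hab
      obtain ⟨u, e1, hu⟩ := winS_spec h hR hW g.ct
        (fun l => decide (dig (q l).1 g.a = dig (q l).1 g.b)) h5 h8 (Nat.zero_le 1)
      rw [h.o1, h.mo ha hb (fun _ => 1) 0 1 (fun _ _ => by simp) (by omega)
        (Nat.one_lt_two_pow (by omega)), e1] at hk
      obtain ⟨xs, h1, h2⟩ := ih _ hk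
      refine ⟨u :: xs, h1, .cons ?_ h2⟩
      obtain ⟨cp, cn, a1, a2⟩ := hu
      refine ⟨cp, cn, a1, fun i hi => ⟨(a2 i hi).1, fun x => ((a2 i hi).2 x).trans ?_⟩⟩
      simp only [cvalR, hg, if_true]
      rw [evu_mg x h8 ha hb hab']
      split_ifs <;> simp_all

end Pool.Agent.Lib.MP_efe3d7_co.J
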