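import Pool.Agent.Lib.MP_efe3d7_co.J.EvP
import Pool.Agent.Lib.MP_efe3d7_co.J.EvH
import Pool.Agent.Lib.MP_efe3d7_co.J.EvU

/-! Soundness of the fast evaluator. -/

set_option autoImplicit false

open Finset Polynomial

namespace Pool.Agent.Lib.MP_efe3d7_co.J

open H

theorem ev_sumL {l : List ℕ} {a : ℕ} (h : a ∈ l) : a ≤ sumL l := by
  induction l with
  | nil => cases h
  | cons b l ih =>
    show a ≤ b + sumL l
    rcases List.mem_cons.1 h with rfl | h
    · omega
    · have := ih h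
      omega

theorem idF_sound {s ni h : ℕ} {cols : List Col} {pcs : List Pc}
    (hk : idF s ni h cols pcs = true) : ∀ p ∈ pcs, ∀ x, IdR x s ni h cols p := by
  intro p hp x q hq
  simp only [idF, Bool.and_eq_true, Nat.ble_eq, Nat.blt_eq, sq_eq, frc_eq, Nat.add_eq] at hk
  obtain ⟨⟨⟨⟨h1, h6⟩, h5⟩, h8⟩, hw, hk⟩ := hk
  generalize Nat.mul 16 _ = w at hw hk
  obtain ⟨D, e1, rfl, e3, hD⟩ := md_id (W := w + 70) h1 h6 (by omega) 5
  obtain ⟨u, u1, u2⟩ := winS_spec hD (by norm_num) (by omega) h (fun _ => true) h5 h8 (Nat.zero_le 1)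
  simp only [if_true] at u1
  rw [e1, hD.o1, u1] at hk
  obtain ⟨xs, x1, x2⟩ := colsX_spec hD (by norm_num) (by omega) cols _ hk
  have h2 := List.all_eq_true.1 x1 p hp
  rw [hD.row] at h2
  obtain ⟨i, hi, rfl⟩ := List.getElem_of_mem hq
  have h3 := pcF_sound (fs := _ :: cols.map fun g i x => 287 ^ 5 * cvalR x D.s g
    ((parts D.s).getD i (0, 0)).1 ((parts D.s).getD i (0, 0)).2)
    (List.Forall₂.cons u2 (List.forall₂_map_right_iff.2 x2)) (List.cons_ne_nil _ _) (by
      have := (ev_sumL (List.mem_map_of_mem (f := nrm) hp)).trans_lt hw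
      rw [bt_eq] at this
      rw [e3, pow_add, mul_comm]
      exact Nat.mul_lt_mul'' this (by norm_num)) h2 i hi x
  rw [List.zip_cons_cons, List.map_cons, List.sum_cons, List.zip_map_left, List.map_map] at h3
  have h4 : ((fun u : (ℕ → ℝ → ℝ) × List ℕ => bR x p u.2 * u.1 i x) ∘ Prod.map
      (fun (g : Col) i x => 287 ^ 5 * cvalR x D.s g ((parts D.s).getD i (0, 0)).1
        ((parts D.s).getD i (0, 0)).2) id) = fun u : Col × List ℕ =>
      287 ^ 5 * (bR x p u.2 * cvalR x D.s u.1 (parts D.s)[i].1 (parts D.s)[i].2) := by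
    funext u
    simp only [Function.comp, Prod.map, id, List.getD_eq_getElem _ _ hi]
    ring
  rw [h4, List.sum_map_mul_left] at h3
  simp only [if_true, zero_ne_one, if_false, List.getD_eq_getElem _ _ hi] at h3
  linarith

end Pool.Agent.Lib.MP_efe3d7_co.J
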