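import Pool.Agent.Lib.MP_efe3d7_co.J.EvS

/-! Digits of packed numbers. -/

set_option autoImplicit false

open Finset Polynomial

namespace Pool.Agent.Lib.MP_efe3d7_co.J

open H

theorem eva_lt {W n : ℕ} {d : ℕ → ℕ} (h : ∀ i < n, d i < 2 ^ W) :
    ∑ i ∈ range n, 2 ^ (W * i) * d i < 2 ^ (W * n) := by
  induction n with
  | zero => simp
  | succ n ih =>
    have h1 := ih fun i hi => h i (by omega)
    have h2 := Nat.mul_le_mul_left (2 ^ (W * n)) (Nat.succ_le_of_lt (h n (by omega)))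
    rw [sum_range_succ, Nat.mul_succ, pow_add]
    rw [Nat.mul_succ] at h2
    omega

theorem eva_dig {W n j : ℕ} {d : ℕ → ℕ} (h : ∀ i < n, d i < 2 ^ W) (hj : j < n) :
    (∑ i ∈ range n, 2 ^ (W * i) * d i) / 2 ^ (W * j) % 2 ^ W = d j := by
  induction n with
  | zero => omega
  | succ n ih =>
    have h1 : ∀ i < n, d i < 2 ^ W := fun i hi => h i (by omega)
    rw [sum_range_succ]
    rcases Nat.lt_succ_iff_lt_or_eq.1 hj with k | rfl
    · obtain ⟨r, rfl⟩ := Nat.exists_eq_add_of_lt k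
      rw [show W * (j + r + 1) = W * j + (W + W * r) by ring, pow_add, pow_add, mul_assoc,
        Nat.add_mul_div_left _ _ (Nat.two_pow_pos _), mul_assoc, Nat.add_mul_mod_self_left,
        ih h1 k]
    · rw [Nat.add_mul_div_left _ _ (Nat.two_pow_pos _), Nat.div_eq_of_lt (eva_lt h1),
        Nat.zero_add, Nat.mod_eq_of_lt (h j hj)]

theorem eva_split (p : ℕ[X]) (y : ℕ) : p.eval y = p.coeff 0 + y * (divX p).eval y := by
  conv_lhs => rw [← divX_mul_X_add p]
  rw [eval_add, eval_mul, eval_X, eval_C, add_comm, mul_comm]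

theorem eva_cf (p : ℕ[X]) (k : ℕ) {y : ℕ} (hy : 0 < y) : p.coeff k ≤ p.eval y := by
  induction k generalizing p with
  | zero =>
    rw [eva_split]
    omega
  | succ k ih =>
    have h1 := ih (divX p)
    have h2 := Nat.le_mul_of_pos_left ((divX p).eval y) hy
    rw [coeff_divX] at h1
    rw [eva_split]
    omega

theorem eva_row {W n b : ℕ} {c : ℕ → ℕ[X]} (hc : ∀ i < n, (c i).eval 1 ≤ b) (hb : b < 2 ^ W) :
    pv W n c % 2 ^ (W * n) = ∑ i ∈ range n, 2 ^ (W * i) * (c i).coeff 0 ∧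
      pv W n c / 2 ^ (W * n) = pv W n fun i => divX (c i) := by
  have h1 := eva_lt (d := fun i => (c i).coeff 0) fun i hi =>
    ((eva_cf _ 0 one_pos).trans (hc i hi)).trans_lt hb
  have e : pv W n c = ∑ i ∈ range n, 2 ^ (W * i) * (c i).coeff 0 +
      2 ^ (W * n) * pv W n fun i => divX (c i) := by
    rw [pv, pv, mul_sum, ← sum_add_distrib]
    exact sum_congr rfl fun i _ => by rw [eva_split]; ring
  rw [e, Nat.add_mul_mod_self_left, Nat.mod_eq_of_lt h1,
    Nat.add_mul_div_left _ _ (Nat.two_pow_pos _), Nat.div_eq_of_lt h1, Nat.zero_add]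
  exact ⟨rfl, rfl⟩

theorem pv_eq_zero {W n : ℕ} {c : ℕ → ℕ[X]} (h : pv W n c = 0) : ∀ i < n, c i = 0 := by
  intro i hi
  have h1 := (mul_eq_zero.1 (sum_eq_zero_iff.1 h i (mem_range.2 hi))).resolve_left
    (Nat.two_pow_pos _).ne'
  ext k
  have h2 := eva_cf (c i) k (Nat.two_pow_pos (W * n))
  rw [coeff_zero]
  omega

theorem pv_row {W n e b : ℕ} {c : ℕ → ℕ[X]} (hc : Bd n c e b) (hb : b < 2 ^ W) :
    pv W n c % 2 ^ (W * n) = ∑ i ∈ range n, 2 ^ (W * i) * (c i).coeff 0 ∧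
      Nat.shiftRight (pv W n c) (W * n) = pv W n fun i => divX (c i) :=
  have h := eva_row (fun i hi => (hc i hi).2) hb
  ⟨h.1, (Nat.shiftRight_eq_div_pow _ _).trans h.2⟩

theorem pv_sum {W n e b : ℕ} {c : ℕ → ℕ[X]} (hc : Bd n c e b) (hn : 0 < n)
    (hb : n * b + 1 < 2 ^ W) :
    pv W n c % 2 ^ (W * n) % (2 ^ W - 1) = ∑ i ∈ range n, (c i).coeff 0 := by
  have h0 := Nat.le_mul_of_pos_left b hn
  have h1 : ∑ i ∈ range n, (c i).coeff 0 ≤ n * b := by
    simpa using sum_le_card_nsmul (range n) (fun i => (c i).coeff 0) b fun i hi =>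
      (eva_cf _ 0 one_pos).trans (hc i (mem_range.1 hi)).2
  have h2 : 1 ≡ 2 ^ W [MOD 2 ^ W - 1] := (Nat.modEq_iff_dvd' (Nat.two_pow_pos W)).2 dvd_rfl
  rw [(pv_row hc (by omega)).1, ← Nat.mod_eq_of_lt (show _ < 2 ^ W - 1 from h1.trans_lt (by omega))]
  refine Nat.ModEq.sum fun i _ => ?_
  have h3 := (h2.pow i).mul_right ((c i).coeff 0)
  rw [one_pow, one_mul, ← pow_mul] at h3
  exact h3.symm

theorem pv_inj {W n b : ℕ} {c c' : ℕ → ℕ[X]} (hc : ∀ i < n, (c i).eval 1 ≤ b)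
    (hc' : ∀ i < n, (c' i).eval 1 ≤ b) (hb : b < 2 ^ W) (h : pv W n c = pv W n c') :
    ∀ i < n, c i = c' i := by
  intro i hi
  ext k
  induction k generalizing c c' with
  | zero =>
    have h1 := (eva_row hc hb).1
    rw [h, (eva_row hc' hb).1] at h1
    rw [← eva_dig (d := fun i => (c i).coeff 0)
      (fun i hi => ((eva_cf _ 0 one_pos).trans (hc i hi)).trans_lt hb) hi, ← h1]
    exact eva_dig (d := fun i => (c' i).coeff 0)
      (fun i hi => ((eva_cf _ 0 one_pos).trans (hc' i hi)).trans_lt hb) hi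
  | succ k ih =>
    have h1 := (eva_row hc hb).2
    rw [h, (eva_row hc' hb).2] at h1
    have q : ∀ p : ℕ[X], (divX p).eval 1 ≤ p.eval 1 := fun p => by
      rw [eva_split p]
      omega
    rw [← coeff_divX, ← coeff_divX]
    exact ih (c := fun i => divX (c i)) (c' := fun i => divX (c' i))
      (fun i hi => (q _).trans (hc i hi)) (fun i hi => (q _).trans (hc' i hi)) h1.symm

theorem eva_bit {K J j r : ℕ} {d : ℕ → ℕ} (h : ∀ i < J, d i < 2 ^ K) (hj : j < J) (hr : r < K) :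
    (∑ i ∈ range J, 2 ^ (K * i) * d i).testBit (r + K * j) = (d j).testBit r := by
  rw [← eva_dig h hj, Nat.testBit_mod_two_pow, Nat.testBit_div_two_pow, decide_eq_true hr,
    Bool.true_and]

theorem top_test {K m : ℕ} {p q : ℕ[X]} (hK : 1 ≤ K) (hp : p.natDegree ≤ m) (hq : q.natDegree ≤ m)
    (bp : p.eval 1 < 2 ^ (K - 1)) (bq : q.eval 1 < 2 ^ (K - 1)) {O T : ℕ}
    (hO : O = ful (K * (m + 1)) / ful K) (hT : T = Nat.shiftLeft O (K - 1))
    (h : Nat.land (p.eval (2 ^ K) + T - (q.eval (2 ^ K) + O)) T = T) :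
    ∀ j ≤ m, q.coeff j < p.coeff j := by
  intro j hj
  obtain ⟨k, rfl⟩ := Nat.exists_eq_add_of_le' hK
  rw [Nat.add_sub_cancel] at bp bq hT
  have e2 : 2 ^ (k + 1) = 2 * 2 ^ k := by ring
  have p2 := Nat.two_pow_pos k
  have eO : O = ∑ i ∈ range (m + 1), 2 ^ ((k + 1) * i) := by
    simp only [pow_mul]
    rw [Nat.geomSum_eq (by omega), hO, ful, ful, bt_eq, bt_eq, pow_mul]
    rfl
  have eT : T = ∑ i ∈ range (m + 1), 2 ^ ((k + 1) * i) * 2 ^ k := by
    rw [← sum_mul, ← eO, hT]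
    exact Nat.shiftLeft_eq _ _
  have cp := fun i => (eva_cf p i one_pos).trans_lt bp
  have cq := fun i => (eva_cf q i one_pos).trans_lt bq
  have eD : p.eval (2 ^ (k + 1)) + T - (q.eval (2 ^ (k + 1)) + O) =
      ∑ i ∈ range (m + 1), 2 ^ ((k + 1) * i) * (p.coeff i + 2 ^ k - (q.coeff i + 1)) := by
    refine Nat.sub_eq_of_eq_add ?_
    rw [eval_eq_sum_range' (Nat.lt_succ_of_le hp), eval_eq_sum_range' (Nat.lt_succ_of_le hq), eT,
      eO, ← sum_add_distrib, ← sum_add_distrib, ← sum_add_distrib]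
    refine sum_congr rfl fun i _ => ?_
    obtain ⟨d, hd⟩ : ∃ d, p.coeff i + 2 ^ k = d + (q.coeff i + 1) :=
      ⟨_, (Nat.sub_add_cancel (by have := cq i; omega)).symm⟩
    rw [← pow_mul, mul_comm (p.coeff i), ← mul_add, hd, Nat.add_sub_cancel]
    ring
  have b1 : T.testBit (k + (k + 1) * j) = true := by
    rw [eT, eva_bit (d := fun _ => 2 ^ k) (fun _ _ => by omega) (by omega) (by omega),
      Nat.testBit_two_pow_self]
  have b2 := congrArg (fun z => tb z (k + (k + 1) * j)) h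
  simp only [tb_land, tb_eq T, b1, Bool.and_true] at b2
  rw [tb_eq, eD, eva_bit (d := fun i => p.coeff i + 2 ^ k - (q.coeff i + 1))
    (fun i _ => by have := cp i; omega) (by omega) (by omega)] at b2
  have := Nat.ge_two_pow_of_testBit b2
  omega

end Pool.Agent.Lib.MP_efe3d7_co.J
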