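import Pool.Agent.Lib.MP_efe3d7_co.J.EvS

/-! The masks of a packing. -/

set_option autoImplicit false

open Finset Polynomial

namespace Pool.Agent.Lib.MP_efe3d7_co.J

open H

/-- The number with the digits `f j`, `j < J`, in base `2 ^ W`. -/
def evbDs (W J : ℕ) (f : ℕ → ℕ) : ℕ := ∑ j ∈ range J, 2 ^ (W * j) * f j

theorem evb_succ (W J : ℕ) (f : ℕ → ℕ) :
    evbDs W (J + 1) f = 2 ^ (W * J) * f J + evbDs W J f := by
  rw [evbDs, sum_range_succ, add_comm, evbDs]

theorem evb_lt {W J : ℕ} {f : ℕ → ℕ} (h : ∀ j < J, f j < 2 ^ W) : evbDs W J f < 2 ^ (W * J) := by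
  induction J with
  | zero => simp [evbDs]
  | succ J ih =>
    have h1 := ih fun j hj => h j (by omega)
    have h2 := Nat.mul_le_mul_left (2 ^ (W * J)) (Nat.succ_le_of_lt (h J (by omega)))
    rw [evb_succ, Nat.mul_succ W, pow_add]
    rw [Nat.mul_succ] at h2
    omega

theorem evb_bit {W J : ℕ} {f : ℕ → ℕ} (hW : 0 < W) (h : ∀ j < J, f j < 2 ^ W) (b : ℕ) :
    (evbDs W J f).testBit b = (decide (b / W < J) && (f (b / W)).testBit (b % W)) := by
  induction J with
  | zero => simp [evbDs]
  | succ J ih =>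
    have h0 : ∀ j < J, f j < 2 ^ W := fun j hj => h j (by omega)
    rw [evb_succ, Nat.testBit_two_pow_mul_add _ (evb_lt h0), ih h0]
    have h1 := Nat.div_lt_iff_lt_mul (x := b) (y := J) hW
    rw [mul_comm J W] at h1
    have h2 := Nat.div_add_mod b W
    split_ifs with h3
    · simp [h1.2 h3, Nat.lt_succ_of_lt (h1.2 h3)]
    · by_cases h4 : b / W = J
      · rw [h4] at h2
        simp [h4, show b - W * J = b % W by omega]
      · have h5 : J + 1 ≤ b / W := by
          have := mt h1.1 h3
          omega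
        have h6 := Nat.mul_le_mul_left W h5
        rw [Nat.mul_succ] at h6
        rw [Nat.testBit_lt_two_pow ((h J (by omega)).trans_le
          (Nat.pow_le_pow_right two_pos (by omega)))]
        simp [not_lt.2 h5]

theorem evb_mul (W n R : ℕ) (f : ℕ → ℕ) : evbDs W (n * R) f =
    ∑ k ∈ range R, 2 ^ (W * n * k) * evbDs W n fun i => f (n * k + i) := by
  induction R with
  | zero => simp [evbDs]
  | succ R ih =>
    rw [sum_range_succ, ← ih, Nat.mul_succ, evbDs, sum_range_add, evbDs, evbDs, mul_sum]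
    congr 1
    exact sum_congr rfl fun i _ => by rw [mul_add, pow_add, mul_assoc, mul_assoc]

theorem evb_pv {W n R : ℕ} {c : ℕ → ℕ[X]} (h : ∀ i < n, (c i).natDegree < R) :
    pv W n c = evbDs W (n * R) fun j => (c (j % n)).coeff (j / n) := by
  rw [evb_mul, pv]
  simp only [evbDs, mul_sum]
  rw [sum_comm]
  refine sum_congr rfl fun i hi => ?_
  have h1 := mem_range.1 hi
  rw [eval_eq_sum_range' (h i h1), mul_sum]
  refine sum_congr rfl fun k _ => ?_
  rw [Nat.mul_add_mod, Nat.mod_eq_of_lt h1, Nat.mul_add_div (by omega), Nat.div_eq_of_lt h1,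
    add_zero, ← pow_mul]
  ring

theorem evb_pk (W : ℕ) (l : List ℕ) : pkL W l = evbDs W l.length fun i => l.getD i 0 := by
  induction l with
  | nil => rfl
  | cons a l ih =>
    have e : pkL W (a :: l) = a + (pkL W l) <<< W := rfl
    rw [e, ih, Nat.shiftLeft_eq, List.length_cons, evbDs, evbDs, sum_range_succ', sum_mul, add_comm]
    simp only [List.getD_cons_succ, List.getD_cons_zero, mul_zero, pow_zero, one_mul]
    congr 1
    exact sum_congr rfl fun i _ => by ring

theorem evb_rep (m row V : ℕ) : rep m row V = ∑ k ∈ range (2 ^ m), 2 ^ (row * k) * V := by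
  induction m with
  | zero => simp [rep]
  | succ m ih =>
    have e : rep (m + 1) row V = sq (rep m row V) fun t => t + t <<< (row <<< m) := rfl
    rw [e, sq_eq, ih, pow_succ, mul_two, sum_range_add, Nat.shiftLeft_eq, Nat.shiftLeft_eq, sum_mul]
    congr 1
    exact sum_congr rfl fun i _ => by ring

theorem evb_rep_ds (m W n : ℕ) (f : ℕ → ℕ) :
    rep m (W * n) (evbDs W n f) = evbDs W (n * 2 ^ m) fun j => f (j % n) := by
  rw [evb_rep, evb_mul]
  refine sum_congr rfl fun k _ => congrArg _ (sum_congr rfl fun i hi => ?_)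
  simp only [Nat.mul_add_mod, Nat.mod_eq_of_lt (mem_range.1 hi)]

theorem evb_mask {W J p : ℕ} {f : ℕ → ℕ} (hp : p < W) (h : ∀ j < J, f j < 2 ^ W) :
    (evbDs W J f >>> p) &&& evbDs W J (fun _ => 1) =
      evbDs W J fun j => if (f j).testBit p = true then 1 else 0 := by
  have hW : 0 < W := by omega
  have h1 : 1 < 2 ^ W := Nat.one_lt_two_pow hW.ne'
  refine Nat.eq_of_testBit_eq fun b => ?_
  rw [Nat.testBit_and, Nat.testBit_shiftRight, evb_bit hW h, evb_bit hW fun _ _ => h1,
    evb_bit hW fun j _ => by split_ifs <;> omega]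
  by_cases h2 : b % W = 0
  · obtain ⟨k, rfl⟩ := Nat.dvd_of_mod_eq_zero h2
    rw [h2, Nat.add_mul_div_left _ _ hW, Nat.div_eq_of_lt hp, zero_add, Nat.add_mul_mod_self_left,
      Nat.mod_eq_of_lt hp, Nat.mul_div_cancel_left _ hW]
    cases (f k).testBit p <;> simp
  · have h3 : Nat.testBit 1 (b % W) = false :=
      Nat.testBit_lt_two_pow (Nat.one_lt_two_pow h2)
    split_ifs <;> simp [h3]

theorem evb_full (W J : ℕ) (g : ℕ → Bool) :
    (evbDs W J fun j => if g j = true then 1 else 0) <<< W -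
      (evbDs W J fun j => if g j = true then 1 else 0) =
      evbDs W J fun j => if g j = true then 2 ^ W - 1 else 0 := by
  rw [Nat.shiftLeft_eq, ← Nat.mul_sub_one, evbDs, evbDs, sum_mul]
  exact sum_congr rfl fun j _ => by split_ifs <;> simp

theorem evb_land {W J : ℕ} {f : ℕ → ℕ} (hW : 0 < W) (h : ∀ j < J, f j < 2 ^ W) (g : ℕ → Bool) :
    evbDs W J f &&& evbDs W J (fun j => if g j = true then 2 ^ W - 1 else 0) =
      evbDs W J fun j => if g j = true then f j else 0 := by
  have h1 : 0 < 2 ^ W := Nat.two_pow_pos W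
  refine Nat.eq_of_testBit_eq fun b => ?_
  rw [Nat.testBit_and, evb_bit hW h, evb_bit hW fun j _ => by split_ifs <;> omega,
    evb_bit hW fun j hj => by
      have := h j hj
      split_ifs <;> omega]
  split_ifs <;> simp +contextual [Nat.testBit_two_pow_sub_one, Nat.mod_lt _ hW]

theorem evb_coeff (p : ℕ[X]) (k : ℕ) : p.coeff k ≤ p.eval 1 := by
  rw [eval_eq_sum_range' (Nat.lt_succ_of_le (le_max_left p.natDegree k))]
  simp only [one_pow, mul_one]
  exact single_le_sum (f := fun i => p.coeff i) (fun _ _ => Nat.zero_le _)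
    (mem_range.2 (Nat.lt_succ_of_le (le_max_right _ _)))

theorem mkMD_spec (s m : ℕ) {W : ℕ} (T : List ℕ) (hW : 0 < W) (hT : ∀ t ∈ T, t < 2 ^ W) :
    ∃ D : MD, (∀ (β : Type) (k : MD → β), mkMD s W m T k = k D) ∧ D.s = s ∧ D.W = W ∧
      D.row = W * T.length ∧ D.O1 = pv W T.length (fun _ => 1) ∧
      ∀ p < W, IsM W T.length (2 ^ m) (mk D p) fun i => tb (T.getD i 0) p := by
  have h1 : pkL W (T.map fun _ => 1) = evbDs W T.length fun _ => 1 := by
    rw [evb_pk, List.length_map]
    exact sum_congr rfl fun i hi => by simp [mem_range.1 hi]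
  have h2 : ∀ i, T.getD i 0 < 2 ^ W := fun i => by
    rcases lt_or_ge i T.length with h | h
    · rw [List.getD_eq_getElem _ _ h]
      exact hT _ (List.getElem_mem h)
    · rw [List.getD_eq_default _ _ h]
      exact Nat.two_pow_pos W
  refine ⟨⟨s, W, W * T.length, rep m (W * T.length) (pkL W T),
    rep m (W * T.length) (pkL W (T.map fun _ => 1)), pkL W (T.map fun _ => 1)⟩,
    fun β k => by simp only [mkMD, frc_eq, sq_eq, Nat.mul_eq], rfl, rfl, rfl,
    h1.trans (by simp [evbDs, pv]), fun p hp c e b hc he hb => ?_⟩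
  rcases Nat.eq_zero_or_pos T.length with h0 | h0
  · simp [pv, h0]
  have h3 : ∀ i < T.length, (c i).natDegree < 2 ^ m := fun i hi => (hc i hi).1.trans_lt he
  rw [mk, sq_eq]
  change pv W T.length c &&& ((rep m (W * T.length) (pkL W T) >>> p &&&
    rep m (W * T.length) (pkL W (T.map fun _ => 1))) <<< W - (rep m (W * T.length) (pkL W T) >>> p &&&
    rep m (W * T.length) (pkL W (T.map fun _ => 1)))) = _
  rw [h1, evb_pk, evb_rep_ds, evb_rep_ds, evb_mask hp fun j _ => h2 _, evb_full, evb_pv h3,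
    evb_land hW fun j _ => ((evb_coeff _ _).trans (hc _ (Nat.mod_lt _ h0)).2).trans_lt hb,
    evb_pv (R := 2 ^ m) fun i hi => by
      have := h3 i hi
      split_ifs
      · exact this
      · simp]
  refine sum_congr rfl fun j _ => ?_
  simp only [tb_eq]
  split_ifs <;> simp

end Pool.Agent.Lib.MP_efe3d7_co.J
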