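import Pool.Agent.Lib.MP_efe3d7_co.J.EvB

/-! The tables of the partitions and the elementary steps. -/

set_option autoImplicit false

open Finset Polynomial

namespace Pool.Agent.Lib.MP_efe3d7_co.J

open H

theorem tab_eq {s : ℕ} (h1 : 1 ≤ s) (h6 : s ≤ 6) : tab s = (parts s).map tq := by
  interval_cases s <;> decide +kernel

theorem evc_lt (q : ℕ × ℕ) : tq q < 2 ^ 64 := bt_eq 64 ▸ msk_lt 64 (tqB q)

theorem evc_tb (q : ℕ × ℕ) {p : ℕ} (hp : p < 64) : tb (tq q) p = tqB q p := by
  rw [tq, tb_msk, decide_eq_true hp, Bool.true_and]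

theorem evc_get {s i : ℕ} (hi : i < (parts s).length) :
    ((parts s).map tq).getD i 0 = tq ((parts s).getD i (0, 0)) := by
  rw [List.getD_eq_getElem _ _ hi, List.getD_eq_getElem _ _ (by simpa using hi), List.getElem_map]

theorem evc_rg {s i : ℕ} (h6 : s ≤ 6) (hi : i < (parts s).length) :
    RG ((parts s).getD i (0, 0)).1 s ((parts s).getD i (0, 0)).2 := by
  rw [List.getD_eq_getElem _ _ hi]
  exact parts_RG (by omega) (List.getElem_mem hi)

theorem evc_get2 (l : List ℕ) (c : ℕ) {i : ℕ} (hi : i < 2 * l.length) :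
    (l ++ l.map (Nat.add c)).getD i 0 =
      if i < l.length then l.getD (i % l.length) 0 else c + l.getD (i % l.length) 0 := by
  split_ifs with h
  · rw [List.getD_append _ _ _ _ h, Nat.mod_eq_of_lt h]
  · have h1 : i - l.length < l.length := by omega
    have h2 : i % l.length = i - l.length := by
      rw [Nat.mod_eq_sub_mod (by omega), Nat.mod_eq_of_lt h1]
    rw [List.getD_append_right _ _ _ _ (by omega), h2, List.getD_eq_getElem _ _ h1,
      List.getD_eq_getElem _ _ (by simpa using h1), List.getElem_map]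
    rfl

theorem md_id {s W : ℕ} (h1 : 1 ≤ s) (h6 : s ≤ 6) (hW : 65 ≤ W) (m : ℕ) :
    ∃ D : MD, (∀ (β : Type) (k : MD → β), mkMD s W m (tab s) k = k D) ∧ D.s = s ∧ D.W = W ∧
      MOk D (parts s).length (2 ^ m) fun i => (parts s).getD i (0, 0) := by
  rw [tab_eq h1 h6]
  obtain ⟨D, a, b, c, d, e, f⟩ := mkMD_spec s m (W := W) ((parts s).map tq) (by omega) (by
    intro t ht
    obtain ⟨u, -, rfl⟩ := List.mem_map.1 ht
    exact (evc_lt u).trans_le (Nat.pow_le_pow_right (by omega) (by omega)))
  rw [List.length_map] at d e f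
  subst b c
  exact ⟨D, a, rfl, rfl, h1, h6, hW, d, e, fun i hi => evc_rg h6 hi, fun p hp =>
    (f p (by omega)).congr fun i hi => by rw [evc_get hi, evc_tb _ hp]⟩

theorem md_pos {s W : ℕ} (h1 : 1 ≤ s) (h6 : s ≤ 6) (hW : 65 ≤ W) (m : ℕ) :
    ∃ D : MD, (∀ (β : Type) (k : MD → β),
        mkMD s W m (tab s ++ (tab s).map (Nat.add 18446744073709551616)) k = k D) ∧
      D.s = s ∧ D.W = W ∧
      MOk D (2 * (parts s).length) (2 ^ m) (fun i => (parts s).getD (i % (parts s).length) (0, 0)) ∧
      IsM W (2 * (parts s).length) (2 ^ m) (mk D 64) fun i => decide ((parts s).length ≤ i) := by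
  rw [tab_eq h1 h6]
  have e64 : 18446744073709551616 = 2 ^ 64 := by norm_num
  obtain ⟨D, a, b, c, d, e, f⟩ := mkMD_spec s m (W := W)
    ((parts s).map tq ++ ((parts s).map tq).map (Nat.add 18446744073709551616)) (by omega) (by
    intro t ht
    have k : t < 2 ^ 65 := by
      rcases List.mem_append.1 ht with ht | ht
      · obtain ⟨u, -, rfl⟩ := List.mem_map.1 ht
        exact (evc_lt u).trans (by norm_num)
      · obtain ⟨v, hv, rfl⟩ := List.mem_map.1 ht
        obtain ⟨u, -, rfl⟩ := List.mem_map.1 hv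
        have := evc_lt u
        show 18446744073709551616 + tq u < 2 ^ 65
        omega
    exact k.trans_le (Nat.pow_le_pow_right (by omega) hW))
  simp only [List.length_append, List.length_map, ← two_mul] at d e f
  subst b c
  have g : ∀ i < 2 * (parts D.s).length, i % (parts D.s).length < (parts D.s).length :=
    fun i hi => Nat.mod_lt _ (by omega)
  have g2 : ∀ i < 2 * (parts D.s).length, ((parts D.s).map tq ++
      ((parts D.s).map tq).map (Nat.add 18446744073709551616)).getD i 0 =
      if i < (parts D.s).length then tq ((parts D.s).getD (i % (parts D.s).length) (0, 0)) else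
        2 ^ 64 + tq ((parts D.s).getD (i % (parts D.s).length) (0, 0)) := fun i hi => by
    rw [evc_get2 _ _ (by simpa using hi), List.length_map, evc_get (g i hi), e64]
  refine ⟨D, a, rfl, rfl, ⟨h1, h6, hW, d, e, fun i hi => evc_rg h6 (g i hi), fun p hp =>
    (f p (by omega)).congr fun i hi => ?_⟩, (f 64 (by omega)).congr fun i hi => ?_⟩
  · rw [g2 i hi]
    split_ifs
    · exact evc_tb _ hp
    · rw [tb_eq, Nat.testBit_two_pow_add_gt hp, ← tb_eq, evc_tb _ hp]
  · rw [g2 i hi]
    split_ifs with h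
    · rw [tb_eq, Nat.testBit_lt_two_pow (evc_lt _), decide_eq_false (by omega)]
    · rw [tb_eq, Nat.testBit_two_pow_add_eq, Nat.testBit_lt_two_pow (evc_lt _),
        decide_eq_true (by omega)]
      rfl

theorem parts_len {s : ℕ} (h6 : s ≤ 6) : 0 < (parts s).length ∧ (parts s).length ≤ 203 := by
  interval_cases s <;> decide +kernel

variable {D : MD} {n R : ℕ} {q : ℕ → ℕ × ℕ}

theorem MOk.mo (h : MOk D n R q) {i j : ℕ} (hi : i < D.s) (hj : j < D.s) :
    IsM D.W n R (mo D i j) fun l => decide (dig (q l).1 i = dig (q l).1 j) := by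
  have := h.s6
  refine (h.ms (8 * i + j) (by omega)).congr fun l _ => ?_
  have e : Nat.blt (8 * i + j) 48 = true := by rw [Nat.blt_eq]; omega
  rw [tqB, e, cond_true, show (8 * i + j) / 8 = i by omega, show (8 * i + j) % 8 = j by omega,
    Bool.eq_iff_iff, Nat.beq_eq, decide_eq_true_eq]

open Classical in
theorem evc_amk (h : MOk D n R q) {j : ℕ} (hj : j < D.s) (hm : ℕ) {t : ℕ} (ht : t ≤ D.s) :
    IsM D.W n R (Nat.rec (mk D (Nat.add 48 j))
      (fun i r => bif tb hm i then sq r fun A => df A (mo D i j) else r) t) fun l =>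
      decide ((∀ i < j, dig (q l).1 i ≠ dig (q l).1 j) ∧
        ∀ i < t, tb hm i = true → dig (q l).1 i ≠ dig (q l).1 j) := by
  induction t with
  | zero =>
    have := h.s6
    refine (h.ms (48 + j) (by omega)).congr fun l _ => ?_
    have e : Nat.blt (48 + j) 48 = false := by
      rw [← Bool.not_eq_true, Nat.blt_eq]; omega
    have e' : Nat.blt (48 + j) 56 = true := by rw [Nat.blt_eq]; omega
    rw [tqB, e, cond_false, e', cond_true, Nat.add_sub_cancel_left, Bool.eq_iff_iff, allB_iff,
      decide_eq_true_eq]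
    simp only [Bool.not_eq_true', ← Bool.not_eq_true, Nat.beq_eq, Nat.not_lt_zero, false_imp_iff,
      implies_true, and_true, ne_eq]
  | succ t ih =>
    have k := ih (by omega)
    show IsM D.W n R (bif tb hm t then sq _ fun A => df A (mo D t j) else _) _
    cases e : tb hm t
    · refine k.congr fun l _ => ?_
      simp only [Nat.forall_lt_succ_right, e, Bool.false_eq_true, false_imp_iff, and_true]
    · rw [cond_true, sq_eq]
      refine (k.df (h.mo (by omega) hj)).congr fun l _ => ?_
      rw [Bool.eq_iff_iff]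
      simp only [Nat.forall_lt_succ_right, e, Bool.and_eq_true, decide_eq_true_eq,
        Bool.not_eq_true', decide_eq_false_iff_not, forall_const, and_assoc, ne_eq]

open Classical in
theorem MOk.amk (h : MOk D n R q) {j : ℕ} (hj : j < D.s) (hm : ℕ) :
    IsM D.W n R (amk D j hm) fun l => decide (ld D.s (q l).1 hm j) :=
  (evc_amk h hj hm le_rfl).congr fun _ _ => decide_eq_decide.2 Iff.rfl

theorem MOk.d (h : MOk D n R q) {i : ℕ} (hi : i < n) : 1 ≤ (q i).2 ∧ (q i).2 ≤ D.s := by
  refine ⟨?_, RG_le (h.rg i hi)⟩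
  have k : dig (q i).1 0 ∈ range (q i).2 :=
    h.rg i hi ▸ mem_image_of_mem _ (mem_range.2 h.s1)
  have := mem_range.1 k
  omega

end Pool.Agent.Lib.MP_efe3d7_co.J
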