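import Pool.Agent.Lib.MP_efe3d7_co.J.EvC
import Pool.Agent.Lib.MP_efe3d7_co.J.EvA

/-! The elementary steps on packed numbers. -/

set_option autoImplicit false

open Finset Polynomial

namespace Pool.Agent.Lib.MP_efe3d7_co.J

open H

variable {D : MD} {n R : ℕ} {q : ℕ → ℕ × ℕ}

theorem hvy_eq {W M : ℕ} {m : ℕ → Bool} (h : IsM W n R M m) {c : ℕ → ℕ[X]} {e b : ℕ}
    (hc : Bd n c e b) (he : e < R) (hb : b < 2 ^ W) :
    hvy (W * n) M (pv W n c) = pv W n fun i => (if m i = true then X else 1) * c i := by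
  have h1 := h c e b hc he hb
  have h2 := h.df_eq hc he hb
  by_cases h0 : Nat.land (pv W n c) M = 0
  · have e1 : hvy (W * n) M (pv W n c) = pv W n c := by
      unfold hvy
      rw [h0]
      rfl
    rw [e1]
    refine pv_congr fun i hi => ?_
    have h4 := pv_eq_zero (h1.symm.trans h0) i hi
    by_cases k : m i = true
    · rw [if_pos k] at h4
      rw [h4, mul_zero]
    · rw [if_neg k, one_mul]
  · have e1 : hvy (W * n) M (pv W n c) =
        df (pv W n c) M + Nat.shiftLeft (Nat.land (pv W n c) M) (W * n) := by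
      unfold hvy
      rw [Bool.eq_false_iff.2 fun k => h0 (Nat.eq_of_beq_eq_true k)]
      rfl
    rw [e1, h1, h2, pv_shift1, pv_add]
    exact pv_congr fun i _ => by by_cases k : m i = true <;> simp [k]

theorem eve_bd {c : ℕ → ℕ[X]} {e b : ℕ} (hc : Bd n c e b) (m : ℕ → Bool) :
    Bd n (fun i => (if m i = true then X else 1) * c i) (e + 1) b := fun i hi => by
  have h1 := hc i hi
  by_cases k : m i = true
  · simp only [if_pos k, eval_mul, eval_X, one_mul]
    refine ⟨natDegree_mul_le.trans ?_, h1.2⟩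
    have := natDegree_X_le (R := ℕ)
    omega
  · simp only [if_neg k, one_mul]
    exact ⟨h1.1.trans (Nat.le_succ e), h1.2⟩

theorem MOk.apY (h : MOk D n R q) {j : ℕ} (hj : j < D.s) (ys : List ℕ) (hy : ∀ i ∈ ys, i < D.s)
    {c : ℕ → ℕ[X]} {e b : ℕ} (hc : Bd n c e b) (he : e + ys.length ≤ R) (hb : b < 2 ^ D.W) :
    apY D j ys (pv D.W n c) = pv D.W n fun l =>
      (ys.map fun i => if dig (q l).1 i = dig (q l).1 j then (X : ℕ[X]) else 1).prod * c l := by
  induction ys generalizing c e with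
  | nil => exact pv_congr fun l _ => (one_mul _).symm
  | cons i ys ih =>
    have e1 : J.apY D j (i :: ys) (pv D.W n c) =
        sq (hvy D.row (J.mo D i j) (pv D.W n c)) (J.apY D j ys) := rfl
    rw [List.length_cons] at he
    rw [e1, sq_eq, h.row, hvy_eq (h.mo (hy i List.mem_cons_self) hj) hc (by omega) hb,
      ih (fun t ht => hy t (List.mem_cons_of_mem _ ht)) (e := e + 1) (eve_bd hc _) (by omega)]
    refine pv_congr fun l _ => ?_
    simp only [List.map_cons, List.prod_cons, decide_eq_true_eq]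
    ring

theorem MOk.nw (h : MOk D n R q) (a : ℕ) {c : ℕ → ℕ[X]} {e b : ℕ} (hc : Bd n c e b) (he : e < R)
    (hb : 287 * b < 2 ^ D.W) :
    nw D a (pv D.W n c) (287 * pv D.W n c) = pv D.W n fun l =>
      (C (287 * ((q l).2 - 1 + a)) + C 312 * X) * c l := by
  have b7 : Bd n (fun i => C 287 * c i) e (287 * b) := fun i hi =>
    ⟨(natDegree_C_mul_le _ _).trans (hc i hi).1, by
      rw [eval_mul, eval_C]
      exact Nat.mul_le_mul_left _ (hc i hi).2⟩
  have e1 : ∀ V V7, J.nw D a V V7 = Nat.land V7 (J.mk D 56) + 2 * Nat.land V7 (J.mk D 57) +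
      (4 * Nat.land V7 (J.mk D 58) + a * V7) + Nat.shiftLeft (312 * V) D.row := fun _ _ => rfl
  rw [e1, pv_mul, pv_mul D.W n 312, h.ms 56 (by omega) _ e _ b7 he hb,
    h.ms 57 (by omega) _ e _ b7 he hb, h.ms 58 (by omega) _ e _ b7 he hb, h.row, pv_shift1, pv_mul,
    pv_mul, pv_mul, pv_add, pv_add, pv_add, pv_add]
  refine pv_congr fun l hl => ?_
  have k0 : tqB (q l) 56 = tb ((q l).2 - 1) 0 := rfl
  have k1 : tqB (q l) 57 = tb ((q l).2 - 1) 1 := rfl
  have k2 : tqB (q l) 58 = tb ((q l).2 - 1) 2 := rfl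
  have k3 : (q l).2 - 1 ≤ 5 := by
    have := (h.d hl).2
    have := h.s6
    omega
  beta_reduce
  rw [k0, k1, k2]
  generalize (q l).2 - 1 = d at k3
  have k4 : d = (if tb d 0 = true then 1 else 0) + 2 * (if tb d 1 = true then 1 else 0) +
      4 * (if tb d 2 = true then 1 else 0) := by
    interval_cases d <;> rfl
  generalize tb d 0 = x0, tb d 1 = x1, tb d 2 = x2 at k4
  subst k4
  simp only [eq_natCast]
  cases x0 <;> cases x1 <;> cases x2 <;> simp only [Bool.false_eq_true, if_true, if_false] <;>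
    push_cast <;> ring

theorem eve_cons (w v : ℕ) (ws cl : List ℕ) (c : ℕ) :
    pnS (w :: ws) (v :: cl) c = (if v = c then w else 0) + pnS ws cl c := rfl

theorem eve_nil (ws : List ℕ) (c : ℕ) : pnS ws [] c = 0 := by
  cases ws <;> rfl

theorem eve_le (ws cl : List ℕ) (hw : ∀ w ∈ ws, w ≤ 64) (c : ℕ) :
    pnS ws cl c ≤ 64 * ws.length := by
  induction ws generalizing cl with
  | nil => exact le_rfl
  | cons w ws ih =>
    cases cl with
    | nil => exact (eve_nil _ c).le.trans (Nat.zero_le _)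
    | cons v cl =>
      have h1 := ih cl fun t ht => hw t (List.mem_cons_of_mem _ ht)
      have h2 := hw w List.mem_cons_self
      rw [eve_cons, List.length_cons]
      split_ifs <;> omega

theorem eve_pk (B : ℕ) (g : ℕ → ℕ) : pk B g = ∑ i ∈ range B, g i * 65536 ^ i := by
  induction B with
  | zero => rfl
  | succ B ih => rw [bit2_pk, ih, sum_range_succ]

theorem eve_pen (ws cl : List ℕ) {B : ℕ} (hB : ∀ v ∈ cl, v < B) :
    pen ws cl = ∑ i ∈ range B, pnS ws cl i * 65536 ^ i := by
  induction ws generalizing cl with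
  | nil => exact (sum_eq_zero fun i _ => zero_mul _).symm
  | cons w ws ih =>
    cases cl with
    | nil => exact (sum_eq_zero fun i _ => zero_mul _).symm
    | cons v cl =>
      have e1 : pen (w :: ws) (v :: cl) = w <<< (16 * v) + pen ws cl := rfl
      rw [e1, ih cl fun t ht => hB t (List.mem_cons_of_mem _ ht), Nat.shiftLeft_eq, pow_mul,
        show 2 ^ 16 = 65536 by norm_num]
      simp only [eve_cons, add_mul, sum_add_distrib, ite_mul, zero_mul, sum_ite_eq,
        if_pos (mem_range.2 (hB v List.mem_cons_self))]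

theorem fld_pen (ws cl : List ℕ) (hw : ∀ w ∈ ws, w ≤ 64) (hl : ws.length ≤ 8) (c : ℕ) :
    fld (pen ws cl) c = pnS ws cl c := by
  rw [eve_pen ws cl (B := c + cl.sum + 1) fun v hv => by
    have := List.le_sum_of_mem hv
    omega, ← eve_pk]
  refine fld_pk (fun l _ => ?_) (by omega)
  have := eve_le ws cl hw l
  omega

theorem pnS_le (ws cl : List ℕ) (hw : ∀ w ∈ ws, w ≤ 1 ∨ w = 64) (c : ℕ) (h : pnS ws cl c < 64) :
    pnS ws cl c ≤ ws.length := by
  induction ws generalizing cl with
  | nil => exact le_rfl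
  | cons w ws ih =>
    cases cl with
    | nil => exact (eve_nil _ c).le.trans (Nat.zero_le _)
    | cons v cl =>
      have h2 := hw w List.mem_cons_self
      rw [eve_cons] at h ⊢
      have h1 := ih cl (fun t ht => hw t (List.mem_cons_of_mem _ ht)) (by omega)
      rw [List.length_cons]
      split_ifs at h ⊢ <;> omega

end Pool.Agent.Lib.MP_efe3d7_co.J
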