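import Pool.Agent.Lib.MP_efe3d7_co.J.EvS
import Pool.Agent.Lib.MP_efe3d7_co.H.SemEq
import Pool.Agent.Lib.MP_efe3d7_co.J.EvSEq

/-! Colours of inner vertices given by leaders of blocks. -/

set_option autoImplicit false

open Finset Polynomial

namespace Pool.Agent.Lib.MP_efe3d7_co.J

open H

theorem evk_dig (ct : ℕ) {u i : ℕ} (h : i ≤ u) : dig (ct >>> (48 * u)) i = ty ct u i := by
  have e : px u i = 16 * u + i := by
    rw [bit2_px]
    split_ifs <;> omega
  have e1 : dig (ct >>> (48 * u)) i = (ct >>> (48 * u)) >>> (3 * i) % 8 := rfl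
  have e2 : dig ct (16 * u + i) = ct >>> (3 * (16 * u + i)) % 8 := rfl
  rw [ty, e, e1, e2, ← Nat.shiftRight_add, show 48 * u + 3 * i = 3 * (16 * u + i) by ring]

theorem evk_msk {n : ℕ} {f g : ℕ → Bool} (h : ∀ i < n, f i = g i) : msk n f = msk n g :=
  Nat.eq_of_testBit_eq fun i => by
    rw [← tb_eq, ← tb_eq, tb_msk, tb_msk]
    by_cases k : i < n
    · rw [h i k]
    · simp [k]

theorem mkL_eq {β : Type} (s ct n m : ℕ) (k : List (ℕ × List ℕ × List ℕ) → β) :
    mkL s ct n m k = k (lsOf s ct n m) := by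
  induction n generalizing m k with
  | zero => rfl
  | succ n ih =>
    have e : mkL s ct (n + 1) m k = frc (ct >>> (48 * (s + m))) fun w =>
      frc (msk s fun i => Nat.beq (dig w i) 1) fun hm => frcL (ysOf s w) fun ys =>
      frcL (wsOf s w m) fun ws => frc (m + 1) fun m' =>
        mkL s ct n m' fun t => k ((hm, ys, ws) :: t) := rfl
    rw [e, frc_eq, frc_eq, frcL_eq, frcL_eq, frc_eq, ih, lsOf,
      evk_msk (g := fun i => Nat.beq (ty ct (s + m) i) 1) fun i hi => by
        rw [evk_dig ct (by omega)]]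

theorem lsOf_len (s ct n m : ℕ) : (lsOf s ct n m).length = n := by
  induction n generalizing m with
  | zero => rfl
  | succ n ih => rw [lsOf, List.length_cons, ih]

theorem evk_ys (n w : ℕ) : ysOf (n + 1) w = if dig w n = 2 then n :: ysOf n w else ysOf n w := by
  have e : ysOf (n + 1) w = bif Nat.beq (dig w n) 2 then n :: ysOf n w else ysOf n w := rfl
  rw [e]
  by_cases h : dig w n = 2
  · rw [if_pos h, h]
    rfl
  · rw [if_neg h, Bool.eq_false_iff.2 fun k => h (Nat.eq_of_beq_eq_true k)]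
    rfl

theorem evk_ws (s w m : ℕ) : wsOf s w (m + 1) = wg (dig w (s + m)) :: wsOf s w m := rfl

theorem evk_wg (t : ℕ) : wg t = if t = 1 then 64 else if t = 2 then 1 else 0 := by
  rcases t with _ | _ | _ | t <;> rfl

theorem lsOf_ok (s ct n m : ℕ) : LsOk s m (lsOf s ct n m) := by
  have h1 : ∀ w n, (∀ i ∈ ysOf n w, i < n) ∧ (ysOf n w).length ≤ n := by
    intro w n
    induction n with
    | zero => exact ⟨fun i hi => absurd hi List.not_mem_nil, le_rfl⟩
    | succ n ih =>
      rw [evk_ys]
      split_ifs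
      · refine ⟨fun i hi => ?_, Nat.succ_le_succ ih.2⟩
        rcases List.mem_cons.1 hi with rfl | k
        · omega
        · exact (ih.1 i k).trans (by omega)
      · exact ⟨fun i hi => (ih.1 i hi).trans (by omega), ih.2.trans (by omega)⟩
  have h2 : ∀ w m, (wsOf s w m).length ≤ m ∧ ∀ v ∈ wsOf s w m, v ≤ 1 ∨ v = 64 := by
    intro w m
    induction m with
    | zero => exact ⟨le_rfl, fun i hi => absurd hi List.not_mem_nil⟩
    | succ m ih =>
      rw [evk_ws]
      refine ⟨Nat.succ_le_succ ih.1, fun v hv => ?_⟩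
      rcases List.mem_cons.1 hv with rfl | k
      · rw [evk_wg]
        split_ifs <;> omega
      · exact ih.2 v k
  induction n generalizing m with
  | zero => trivial
  | succ n ih => exact ⟨(h1 _ _).1, (h1 _ _).2, (h2 _ _).1, (h2 _ _).2, ih _⟩

/-- The colour given by a code. -/
def evk_code (s cs d c : ℕ) : ℕ := if c < s then dig cs c else d + (c - s)

/-- The code is a leader or a new colour. -/
def evk_val (s cs a c : ℕ) : Prop :=
  (c < s ∧ ∀ i < c, dig cs i ≠ dig cs c) ∨ (s ≤ c ∧ c < s + a)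

/-- The list gives the colours of the inner vertices. -/
def evk_cl (s cs d cs' a : ℕ) : List ℕ → Prop
  | [] => True
  | v :: cl => evk_val s cs a v ∧ dig cs' (s + cl.length) = evk_code s cs d v ∧
      evk_cl s cs d cs' a cl

theorem evk_lt {cs s d i : ℕ} (h : RG cs s d) (hi : i < s) : dig cs i < d := by
  rw [← mem_range, ← h]
  exact mem_image_of_mem _ (mem_range.2 hi)

theorem evk_code_lt {cs s d a c : ℕ} (h : RG cs s d) (hc : evk_val s cs a c) :
    evk_code s cs d c < d + a := by
  rw [evk_code]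
  rcases hc with ⟨h1, -⟩ | ⟨h1, h2⟩
  · rw [if_pos h1]
    have := evk_lt h h1
    omega
  · rw [if_neg (by omega)]
    omega

theorem evk_inj {cs s d a v c : ℕ} (h : RG cs s d) (hv : evk_val s cs a v)
    (hc : evk_val s cs a c) (e : evk_code s cs d v = evk_code s cs d c) : v = c := by
  rw [evk_code, evk_code] at e
  rcases hv with ⟨h1, h2⟩ | ⟨h1, h2⟩ <;> rcases hc with ⟨h3, h4⟩ | ⟨h3, h4⟩
  · rw [if_pos h1, if_pos h3] at e
    rcases lt_trichotomy v c with k | k | k
    · exact absurd e (h4 v k)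
    · exact k
    · exact absurd e.symm (h2 c k)
  · rw [if_pos h1, if_neg (by omega)] at e
    have := evk_lt h h1
    omega
  · rw [if_neg (by omega), if_pos h3] at e
    have := evk_lt h h3
    omega
  · rw [if_neg (by omega), if_neg (by omega)] at e
    omega

theorem evk_val_mono {s cs a a' c : ℕ} (ha : a ≤ a') (h : evk_val s cs a c) : evk_val s cs a' c :=
  h.imp_right fun k => ⟨k.1, by omega⟩

theorem evk_cl_mono {s cs d cs' cs'' a a' : ℕ} (ha : a ≤ a') : ∀ cl : List ℕ,
    (∀ i < cl.length, dig cs'' (s + i) = dig cs' (s + i)) → evk_cl s cs d cs' a cl →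
      evk_cl s cs d cs'' a' cl
  | [], _, _ => trivial
  | _ :: cl, e, h => ⟨evk_val_mono ha h.1, (e _ (Nat.lt_succ_self _)).trans h.2.1,
      evk_cl_mono ha cl (fun i hi => e i (Nat.lt_succ_of_lt hi)) h.2.2⟩

theorem evk_pn {cs s d a c cs' : ℕ} (e : ℝ) (w : ℕ) (h : RG cs s d) (hc : evk_val s cs a c) :
    ∀ cl : List ℕ, evk_cl s cs d cs' a cl →
      (64 ≤ pnS (wsOf s w cl.length) cl c ∧ ∏ v ∈ range cl.length,
        (if dig cs' (s + v) = evk_code s cs d c then wn e (dig w (s + v)) else 1) = 0) ∨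
      (pnS (wsOf s w cl.length) cl c ≤ cl.length ∧ ∏ v ∈ range cl.length,
        (if dig cs' (s + v) = evk_code s cs d c then wn e (dig w (s + v)) else 1) =
          (-e) ^ pnS (wsOf s w cl.length) cl c)
  | [], _ => Or.inr ⟨le_rfl, by simp [pnS]⟩
  | v :: cl, k => by
    have e1 : pnS (wsOf s w (cl.length + 1)) (v :: cl) c =
        (if v = c then wg (dig w (s + cl.length)) else 0) + pnS (wsOf s w cl.length) cl c := rfl
    have ih := evk_pn e w h hc cl k.2.2
    rw [List.length_cons, e1, prod_range_succ, k.2.1]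
    by_cases hv : v = c
    · rw [if_pos hv, if_pos (by rw [hv]), evk_wg, wn]
      rcases ih with ⟨i1, i2⟩ | ⟨i1, i2⟩
      · exact Or.inl ⟨by omega, by rw [i2, zero_mul]⟩
      · split_ifs
        · exact Or.inl ⟨by omega, mul_zero _⟩
        · exact Or.inr ⟨by omega, by rw [i2, pow_add, pow_one, mul_comm]⟩
        · exact Or.inr ⟨by omega, by rw [i2, zero_add, mul_one]⟩
    · rw [if_neg hv, if_neg fun e2 => hv (evk_inj h k.1 hc e2), zero_add, mul_one]
      exact ih.imp_right fun i => ⟨by omega, i.2⟩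

theorem evk_fI {cs s d a c cs' : ℕ} (e : ℝ) (ct : ℕ) (h : RG cs s d) (hc : evk_val s cs a c)
    (cl : List ℕ) (hl : cl.length ≤ 8) (k : evk_cl s cs d cs' a cl) :
    fI (-e) (wsOf s (ct >>> (48 * (s + cl.length))) cl.length) cl c = ∏ v ∈ range cl.length,
      if dig cs' (s + v) = evk_code s cs d c then wn e (ty ct (s + cl.length) (s + v)) else 1 := by
  rw [fI, prod_congr rfl fun v hv => by
    rw [← evk_dig ct (show s + v ≤ s + cl.length by have := mem_range.1 hv; omega)]]
  rcases evk_pn e (ct >>> (48 * (s + cl.length))) h hc cl k with ⟨i1, i2⟩ | ⟨i1, i2⟩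
  · rw [if_pos i1, i2]
  · rw [if_neg (by omega), i2]

theorem evk_prod (w n : ℕ) (g : ℕ → ℝ) :
    ((ysOf n w).map g).prod = ∏ i ∈ range n, if dig w i = 2 then g i else 1 := by
  induction n with
  | zero => rfl
  | succ n ih =>
    rw [evk_ys, prod_range_succ]
    split_ifs
    · rw [List.map_cons, List.prod_cons, ih, mul_comm]
    · rw [ih, mul_one]

theorem evk_fT (e : ℝ) (ct : ℕ) {s cs u j : ℕ} (hu : s ≤ u) (hj : ∀ i < j, dig cs i ≠ dig cs j) :
    fT (-e) s cs (msk s fun i => Nat.beq (ty ct u i) 1) (ysOf s (ct >>> (48 * u))) j =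
      ∏ i ∈ range s, if dig cs i = dig cs j then wn e (ty ct u i) else 1 := by
  rw [fT]
  split_ifs with h
  · rw [evk_prod]
    refine prod_congr rfl fun i hi => ?_
    have hi := mem_range.1 hi
    rw [evk_dig ct (by omega), wn]
    by_cases k : dig cs i = dig cs j
    · have : ty ct u i ≠ 1 := fun k1 => h.2 i hi (by rw [tb_msk, k1]; simp [hi]) k
      rw [if_pos k, if_pos k, if_neg this]
    · rw [if_neg k, if_neg k, ite_self]
  · by_contra k
    refine h ⟨hj, fun i hi k1 k2 => k (prod_eq_zero (mem_range.2 hi) ?_).symm⟩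
    rw [tb_msk, Bool.and_eq_true, Nat.beq_eq] at k1
    rw [if_pos k2, wn, if_pos k1.2]

theorem evk_sum {cs s d : ℕ} (h : RG cs s d) (f g : ℕ → ℝ)
    (h0 : ∀ j < s, (¬∀ i < j, dig cs i ≠ dig cs j) → f j = 0)
    (h1 : ∀ j < s, (∀ i < j, dig cs i ≠ dig cs j) → f j = g (dig cs j)) :
    ∑ j ∈ range s, f j = ∑ c ∈ range d, g c := by
  rw [← sum_filter_of_ne (p := fun j => ∀ i < j, dig cs i ≠ dig cs j) fun j hj k =>
    by_contra fun k1 => k (h0 j (mem_range.1 hj) k1)]
  refine sum_nbij (dig cs) (fun j hj => mem_range.2 (evk_lt h (mem_range.1 (mem_filter.1 hj).1)))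
    (fun i hi j hj e => ?_) (fun c hc => ?_)
    fun j hj => h1 j (mem_range.1 (mem_filter.1 hj).1) (mem_filter.1 hj).2
  · rcases lt_trichotomy i j with k | k | k
    · exact absurd e ((mem_filter.1 hj).2 i k)
    · exact k
    · exact absurd e.symm ((mem_filter.1 hi).2 j k)
  · rw [← h] at hc
    obtain ⟨i, hi, e⟩ := mem_image.1 (mem_coe.1 hc)
    have ex : ∃ j, dig cs j = c := ⟨i, e⟩
    refine ⟨Nat.find ex, mem_coe.2 (mem_filter.2 ⟨mem_range.2
      ((Nat.find_min' ex e).trans_lt (mem_range.1 hi)), fun l hl => ?_⟩), Nat.find_spec ex⟩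
    rw [Nat.find_spec ex]
    exact Nat.find_min ex hl

theorem evk_main (x : ℝ) {s cs d : ℕ} (ct : ℕ) (h : RG cs s d) (r : ℕ) :
    ∀ (a cs' : ℕ) (cl : List ℕ), s + cl.length + r ≤ 8 → RG cs' (s + cl.length) (d + a) →
      (∀ i < s, dig cs' i = dig cs i) → evk_cl s cs d cs' a cl →
      levR (-ee x) s (cs, d) (lsOf s ct r cl.length) cl a =
        287 ^ r * (locP (ee x) ct r (s + cl.length) cs' (d + a)).eval (1 + x) := by
  induction r with
  | zero =>
    intro a cs' cl _ _ _ _
    simp [lsOf, levR, locP]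
  | succ r ih =>
    intro a cs' cl h8 hg he hc
    have hle := RG_le hg
    have st : ∀ c a', a ≤ a' → evk_val s cs a' c → evk_code s cs d c ≤ d + a →
        (if evk_code s cs d c = d + a then d + a + 1 else d + a) = d + a' →
        levR (-ee x) s (cs, d) (lsOf s ct r (cl.length + 1)) (c :: cl) a' =
          287 ^ r * (locP (ee x) ct r (s + cl.length + 1)
            (sdg cs' (s + cl.length) (evk_code s cs d c)) (d + a')).eval (1 + x) := by
      intro c a' ha hv h1 h2
      have h3 : evk_code s cs d c < 8 := by omega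
      refine ih a' _ (c :: cl) (by rw [List.length_cons]; omega) ?_ (fun i hi => ?_)
        ⟨hv, by rw [dig_sdg _ _ _ h3, if_pos rfl], evk_cl_mono ha cl (fun i hi => ?_) hc⟩
      · rw [← h2]
        exact RG_step (by omega) hg h1
      · rw [dig_sdg _ _ _ h3, if_neg (by omega), he i hi]
      · rw [dig_sdg _ _ _ h3, if_neg (by omega)]
    have st1 : ∀ c, evk_val s cs a c →
        levR (-ee x) s (cs, d) (lsOf s ct r (cl.length + 1)) (c :: cl) a =
          287 ^ r * (locP (ee x) ct r (s + cl.length + 1)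
            (sdg cs' (s + cl.length) (evk_code s cs d c)) (d + a)).eval (1 + x) := fun c hv =>
      st c a le_rfl hv (evk_code_lt h hv).le (if_neg (evk_code_lt h hv).ne)
    have cn : ∀ b, evk_code s cs d (s + b) = d + b := fun b => by
      rw [evk_code, if_neg (by omega), Nat.add_sub_cancel_left]
    have st2 := st (s + a) (a + 1) (by omega) (Or.inr ⟨by omega, by omega⟩) (cn a).le
      (if_pos (cn a))
    rw [cn] at st2
    have fa : ∀ c, facR (ee x) ct cs' (s + cl.length) c =
        (∏ i ∈ range s, if dig cs i = c then wn (ee x) (ty ct (s + cl.length) i) else 1) *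
        ∏ v ∈ range cl.length, if dig cs' (s + v) = c then
          wn (ee x) (ty ct (s + cl.length) (s + v)) else 1 := fun c => by
      rw [facR, prod_range_add, prod_congr rfl fun i hi => by rw [he i (mem_range.1 hi)]]
    rw [lsOf, levR, locP, eval_add, eval_mul, eval_finsetSum, sum_range_add, st2,
      evk_sum h _ (fun c => 287 ^ (r + 1) * eval (1 + x) (C (facR (ee x) ct cs' (s + cl.length) c) *
        locP (ee x) ct r (s + cl.length + 1) (sdg cs' (s + cl.length) c) (d + a))),
      sum_congr (s₁ := range a) rfl (g := fun b => 287 ^ (r + 1) * eval (1 + x)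
        (C (facR (ee x) ct cs' (s + cl.length) (d + b)) *
        locP (ee x) ct r (s + cl.length + 1) (sdg cs' (s + cl.length) (d + b)) (d + a))),
      ← mul_sum, ← mul_sum]
    · simp only [eval_sub, eval_X, eval_C, ee, ← add_assoc]
      push_cast
      ring
    · intro b hb
      have hv : evk_val s cs a (s + b) := Or.inr ⟨by omega, by have := mem_range.1 hb; omega⟩
      rw [st1 _ hv, evk_fI _ ct h hv cl (by omega) hc, cn, eval_mul, eval_C, fa,
        prod_eq_one (s := range s) fun i hi =>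
          if_neg (by have := evk_lt h (mem_range.1 hi); omega)]
      ring
    · intro j _ hj
      simp only [fT]
      rw [if_neg fun k => hj k.1, mul_zero, zero_mul, zero_mul]
    · intro j hj hl
      have hv : evk_val s cs a j := Or.inl ⟨hj, hl⟩
      have cj : evk_code s cs d j = dig cs j := if_pos hj
      rw [st1 _ hv, evk_fI _ ct h hv cl (by omega) hc, evk_fT _ ct (by omega) hl, cj, eval_mul,
        eval_C, fa]
      ring

theorem levR_eq (x : ℝ) {s ni cs d : ℕ} (ct : ℕ) (h1 : 1 ≤ s) (h8 : s + ni ≤ 8) (h : RG cs s d) :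
    levR (-ee x) s (cs, d) (lsOf s ct ni 0) [] 0 =
      287 ^ ni * (locP (ee x) ct ni s cs d).eval (1 + x) :=
  (fun _ => evk_main x ct h ni 0 cs [] h8 h (fun _ _ => rfl) trivial) h1

end Pool.Agent.Lib.MP_efe3d7_co.J
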