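import Pool.Agent.Lib.MP_efe3d7_co.J.EvE
import Pool.Agent.Lib.MP_efe3d7_co.J.EvSEq

/-! The recursion over the inner vertices. -/

set_option autoImplicit false

open Finset Polynomial

namespace Pool.Agent.Lib.MP_efe3d7_co.J

open H

/-- The transformer `F` of continuations adds polynomials with values `f` and size `B`. -/
def evl_S (W n E : ℕ) (F : ∀ β : Type, (ℕ → ℕ → β) → ℕ → ℕ → β) (B : ℕ) (f : ℕ → ℝ → ℝ) : Prop :=
  ∀ cP cN : ℕ → ℕ[X], (∀ i < n, (cP i).natDegree ≤ E ∧ (cN i).natDegree ≤ E) →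
    ∃ dP dN : ℕ → ℕ[X],
      (∀ (β : Type) (k : ℕ → ℕ → β), F β k (pv W n cP) (pv W n cN) = k (pv W n dP) (pv W n dN)) ∧
      ∀ i < n, (dP i).natDegree ≤ E ∧ (dN i).natDegree ≤ E ∧
        (dP i).eval 1 + (dN i).eval 1 ≤ (cP i).eval 1 + (cN i).eval 1 + B ∧
        ∀ x, av x (dP i) - av x (dN i) = av x (cP i) - av x (cN i) + f i x

section
variable {W n E B B' : ℕ} {F G : ∀ β : Type, (ℕ → ℕ → β) → ℕ → ℕ → β} {f g : ℕ → ℝ → ℝ}

theorem evl_congr (h : evl_S W n E F B f) (h1 : ∀ β k P N, G β k P N = F β k P N) (h2 : B ≤ B')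
    (h3 : ∀ i < n, ∀ x, f i x = g i x) : evl_S W n E G B' g := fun cP cN hc => by
  obtain ⟨dP, dN, a, b⟩ := h cP cN hc
  refine ⟨dP, dN, fun β k => (h1 _ _ _ _).trans (a β k), fun i hi => ?_⟩
  obtain ⟨b1, b2, b3, b4⟩ := b i hi
  exact ⟨b1, b2, by omega, fun x => by rw [b4, h3 i hi]⟩

theorem evl_id : evl_S W n E (fun _ k => k) 0 fun _ _ => 0 := fun cP cN hc =>
  ⟨cP, cN, fun _ _ => rfl, fun i hi => ⟨(hc i hi).1, (hc i hi).2, le_rfl, fun x => by simp⟩⟩

theorem evl_comp (h : evl_S W n E F B f) (h' : evl_S W n E G B' g) :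
    evl_S W n E (fun β k => F β (G β k)) (B + B') fun i x => f i x + g i x := fun cP cN hc => by
  obtain ⟨dP, dN, a, b⟩ := h cP cN hc
  obtain ⟨eP, eN, a', b'⟩ := h' dP dN fun i hi => ⟨(b i hi).1, (b i hi).2.1⟩
  refine ⟨eP, eN, fun β k => (a β _).trans (a' β k), fun i hi => ?_⟩
  obtain ⟨-, -, b3, b4⟩ := b i hi
  obtain ⟨c1, c2, c3, c4⟩ := b' i hi
  exact ⟨c1, c2, by omega, fun x => by rw [c4, b4, add_assoc]⟩

theorem evl_swap (h : evl_S W n E F B f) :
    evl_S W n E (fun β k P N => F β (fun N' P' => k P' N') N P) B fun i x => -f i x :=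
  fun cP cN hc => by
  obtain ⟨dP, dN, a, b⟩ := h cN cP fun i hi => (hc i hi).symm
  refine ⟨dN, dP, fun β k => a β _, fun i hi => ?_⟩
  obtain ⟨b1, b2, b3, b4⟩ := b i hi
  exact ⟨b2, b1, by omega, fun x => by linarith [b4 x]⟩

theorem evl_loop {F : ℕ → ∀ β : Type, (ℕ → ℕ → β) → ℕ → ℕ → β} {f : ℕ → ℕ → ℝ → ℝ} (t : ℕ)
    (h : ∀ j < t, evl_S W n E (F j) B (f j)) :
    evl_S W n E (fun β k => Nat.rec (motive := fun _ => ℕ → ℕ → β) k (fun j r => F j β r) t)
      (t * B) fun i x => ∑ j ∈ range t, f j i x := by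
  induction t with
  | zero => exact evl_congr evl_id (fun _ _ _ _ => rfl) (by omega) (by simp)
  | succ t ih =>
    exact evl_congr (evl_comp (h t (by omega)) (ih fun j hj => h j (by omega)))
      (fun _ _ _ _ => rfl) (by rw [add_mul]; omega) fun i _ x => by rw [sum_range_succ, add_comm]

end

theorem evl_prod (x : ℝ) (ys : List ℕ) (p : ℕ → Prop) [DecidablePred p] :
    (ys.map fun i => if p i then (X : ℕ[X]) else 1).prod.natDegree ≤ ys.length ∧
    (ys.map fun i => if p i then (X : ℕ[X]) else 1).prod.eval 1 = 1 ∧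
    av x (ys.map fun i => if p i then (X : ℕ[X]) else 1).prod =
      (ys.map fun i => if p i then -ee x else 1).prod := by
  induction ys with
  | nil => simp [av_one]
  | cons y ys ih =>
    obtain ⟨a, b, c⟩ := ih
    simp only [List.map_cons, List.prod_cons, List.length_cons, eval_mul, av_mul, b, c]
    refine ⟨natDegree_mul_le.trans ?_, ?_, ?_⟩
    · have : (if p y then (X : ℕ[X]) else 1).natDegree ≤ 1 := by split_ifs <;> simp
      omega
    · split_ifs <;> simp
    · split_ifs <;> simp [av_X, av_one]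

theorem evl_bd {n e b d t : ℕ} {c p : ℕ → ℕ[X]} (h : Bd n c e b)
    (hp : ∀ i < n, (p i).natDegree ≤ d ∧ (p i).eval 1 ≤ t) :
    Bd n (fun i => p i * c i) (e + d) (t * b) := fun i hi =>
  ⟨natDegree_mul_le.trans (by have := (h i hi).1; have := (hp i hi).1; omega),
    by rw [eval_mul]; exact Nat.mul_le_mul (hp i hi).2 (h i hi).2⟩

theorem evl_cons {β : Type} (D : MD) (L : ℕ × List ℕ × List ℕ) (ls : List (ℕ × List ℕ × List ℕ))
    (V : ℕ) (cl : List ℕ) (a P N : ℕ) (k : ℕ → ℕ → β) : lev D (L :: ls) V cl a P N k =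
      frc (pen L.2.2 cl) fun pe => sq (Nat.mul 287 V) fun V7 =>
      Nat.rec (motive := fun _ => ℕ → ℕ → β)
        (Nat.rec (motive := fun _ => ℕ → ℕ → β)
          (fun P N => sq (nw D a V V7) fun T => frc (Nat.add D.s a) fun c =>
            frc (Nat.succ a) fun b => lev D ls T (c :: cl) b N P fun N' P' => k P' N')
          (fun b r P N => frc (Nat.add D.s b) fun c => frc (fld pe c) fun e =>
            bif Nat.ble 64 e then r P N else
              sq (Nat.shiftLeft V7 (Nat.mul e D.row)) fun T => lev D ls T (c :: cl) a P N r) a)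
        (fun j r P N => frc (fld pe j) fun e =>
          bif Nat.ble 64 e || Nat.beq (Nat.land V7 (amk D j L.1)) 0 then r P N else
            sq (Nat.shiftLeft (apY D j L.2.1 (Nat.land V7 (amk D j L.1))) (Nat.mul e D.row))
              fun T => lev D ls T (j :: cl) a P N r) D.s P N := rfl

theorem evl_main {D : MD} {n R : ℕ} {q : ℕ → ℕ × ℕ} (h : MOk D n R q) {E : ℕ} (hE : E < R)
    (ls : List (ℕ × List ℕ × List ℕ)) : ∀ (m a e b : ℕ) (cl : List ℕ) (c : ℕ → ℕ[X]),
    LsOk D.s m ls → a ≤ m → D.s + m + ls.length ≤ 8 → Bd n c e b →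
    e + rem (D.s + m) ls.length ≤ E → b * 8192 ^ ls.length < 2 ^ D.W →
    evl_S D.W n E (fun β k P N => lev D ls (pv D.W n c) cl a P N k) (b * 8192 ^ ls.length)
      fun i x => av x (c i) * levR (-ee x) D.s (q i) ls cl a := by
  classical
  induction ls with
  | nil =>
    intro m a e b cl c _ _ _ hc he _ cP cN hP
    refine ⟨fun i => cP i + c i, cN, fun β k => ?_, fun i hi => ⟨natDegree_add_le_of_degree_le
      (hP i hi).1 ((hc i hi).1.trans (by omega)), (hP i hi).2, ?_, fun x => ?_⟩⟩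
    · show sq (pv D.W n cP + pv D.W n c) (fun Q => k Q _) = _
      rw [sq_eq, pv_add]
    · have := (hc i hi).2
      simp only [eval_add, List.length_nil, pow_zero, mul_one]
      omega
    · simp only [av_add, levR]
      ring
  | cons L ls ih =>
    intro m a e b cl c ⟨l1, l2, l3, l4, l5⟩ ha h8 hc he hb
    rw [List.length_cons] at h8 he hb
    rw [rem] at he
    rw [List.length_cons]
    have hs := h.s1
    have hpw : 1 ≤ 8192 ^ ls.length := Nat.one_le_pow _ _ (by norm_num)
    obtain ⟨z, hz⟩ : ∃ z, z = b * 8192 ^ ls.length := ⟨_, rfl⟩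
    have hz1 : b * 8192 ^ (ls.length + 1) = 8192 * z := by rw [hz]; ring
    have hz2 : ∀ t, t * b * 8192 ^ ls.length = t * z := fun t => by rw [hz]; ring
    have hz3 : b ≤ z := hz ▸ Nat.le_mul_of_pos_right _ hpw
    rw [hz1] at hb ⊢
    have hpe := fld_pen L.2.2 cl (fun w hw => by have := l4 w hw; omega) (by omega)
    have h7 : Nat.mul 287 (pv D.W n c) = pv D.W n fun i => C 287 * c i := pv_mul _ _ _ _
    have b7 : Bd n (fun i => C 287 * c i) (e + 0) (287 * b) := evl_bd hc fun i _ => by simp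
    have nx : ∀ (cl' : List ℕ) (a' e' t : ℕ) (c' : ℕ → ℕ[X]), a' ≤ m + 1 → Bd n c' e' (t * b) →
        e' ≤ e + (D.s + m) → t ≤ 8192 →
        evl_S D.W n E (fun β k P N => lev D ls (pv D.W n c') cl' a' P N k) (t * z)
          fun i x => av x (c' i) * levR (-ee x) D.s (q i) ls cl' a' := fun cl' a' e' t c' k1 k2 k3 k4 =>
      hz2 t ▸ ih (m + 1) a' e' _ cl' c' l5 k1 (by omega) k2 (by rw [← add_assoc]; omega)
        (by rw [hz2]; exact (Nat.mul_le_mul_right z k4).trans_lt hb)
    have hX : ∀ t i, i < n → ((X : ℕ[X]) ^ t).natDegree ≤ t ∧ ((X : ℕ[X]) ^ t).eval 1 ≤ 1 :=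
      fun t i _ => by simp
    have sN := evl_swap (nx ((D.s + a) :: cl) (a + 1) (e + 1) 2321
      (fun l => (C (287 * ((q l).2 - 1 + a)) + C 312 * X) * c l) (by omega)
      (evl_bd hc fun i hi => ⟨natDegree_add_le_of_degree_le
        ((natDegree_C _).le.trans zero_le_one) (natDegree_mul_le.trans (by simp)), by
          have := h.d hi
          simp only [eval_add, eval_C, eval_mul, eval_X]
          omega⟩) (by omega) (by omega))
    have sO : ∀ j < a, evl_S D.W n E (fun β r P N => frc (Nat.add D.s j) fun c' =>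
        frc (fld (pen L.2.2 cl) c') fun e => bif Nat.ble 64 e then r P N else
          sq (Nat.shiftLeft (Nat.mul 287 (pv D.W n c)) (Nat.mul e D.row)) fun T =>
            lev D ls T (c' :: cl) a P N r) (287 * z) fun i x => av x (c i) *
        (287 * fI (-ee x) L.2.2 cl (D.s + j) * levR (-ee x) D.s (q i) ls ((D.s + j) :: cl) a) :=
      fun j _ => by
      by_cases k : 64 ≤ pnS L.2.2 cl (D.s + j)
      · refine evl_congr evl_id (fun β r P N => ?_) (by omega) fun i _ x => by simp [fI, k]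
        simp only [frc_eq, Nat.add_eq, hpe, Nat.ble_eq_true_of_le k, cond_true]
      · have k1 := pnS_le L.2.2 cl l4 _ (not_le.1 k)
        refine evl_congr (nx ((D.s + j) :: cl) a _ 287 _ (by omega)
          (one_mul (287 * b) ▸ evl_bd b7 (hX (pnS L.2.2 cl (D.s + j)))) (by omega) (by omega))
          (fun β r P N => ?_) le_rfl fun i _ x => ?_
        · simp only [frc_eq, sq_eq, Nat.add_eq, hpe, h7, h.row,
            Bool.eq_false_iff.2 fun e => k (Nat.le_of_ble_eq_true e), cond_false]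
          exact congrArg (lev D ls · _ a P N r) (pv_shift _ _ _ _)
        · simp only [av_mul, av_pow, av_X, av_C, fI, if_neg k]
          push_cast
          ring
    have sT : ∀ j < D.s, evl_S D.W n E (fun β r P N => frc (fld (pen L.2.2 cl) j) fun e =>
        bif Nat.ble 64 e || Nat.beq (Nat.land (Nat.mul 287 (pv D.W n c)) (amk D j L.1)) 0 then r P N
        else sq (Nat.shiftLeft (apY D j L.2.1 (Nat.land (Nat.mul 287 (pv D.W n c)) (amk D j L.1)))
          (Nat.mul e D.row)) fun T => lev D ls T (j :: cl) a P N r) (287 * z) fun i x => av x (c i) *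
        (287 * fT (-ee x) D.s (q i).1 L.1 L.2.1 j * fI (-ee x) L.2.2 cl j *
          levR (-ee x) D.s (q i) ls (j :: cl) a) := fun j hj => by
      have a1 := h.amk hj L.1 _ _ _ b7 (by omega) (by omega)
      have a2 := (b7.ite fun l => decide (ld D.s (q l).1 L.1 j) = true).1
      by_cases k : 64 ≤ pnS L.2.2 cl j
      · refine evl_congr evl_id (fun β r P N => ?_) (by omega) fun i _ x => by simp [fI, k]
        simp only [frc_eq, hpe, Nat.ble_eq_true_of_le k, cond_true, Bool.true_or]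
      by_cases k0 : Nat.land (Nat.mul 287 (pv D.W n c)) (amk D j L.1) = 0
      · refine evl_congr evl_id (fun β r P N => ?_) (by omega) fun i hi x => ?_
        · simp only [frc_eq, k0, Nat.beq_refl, Bool.or_true, cond_true]
        · rw [h7, a1] at k0
          have := pv_eq_zero k0 i hi
          by_cases k2 : ld D.s (q i).1 L.1 j
          · have k3 : c i = 0 := by simpa [k2] using this
            simp [k3, av_zero]
          · simp [fT, k2]
      · have k1 := pnS_le L.2.2 cl l4 _ (not_le.1 k)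
        have a3 := evl_bd a2 (p := fun l => (L.2.1.map fun i =>
          if dig (q l).1 i = dig (q l).1 j then (X : ℕ[X]) else 1).prod) (d := L.2.1.length) (t := 1)
          fun l _ => ⟨(evl_prod 0 _ _).1, (evl_prod 0 _ _).2.1.le⟩
        have a4 := evl_bd a3 (hX (pnS L.2.2 cl j))
        rw [one_mul, one_mul] at a4
        refine evl_congr (nx (j :: cl) a _ 287 _ (by omega) a4 (by omega) (by omega))
          (fun β r P N => ?_) le_rfl fun i _ x => ?_
        · simp only [frc_eq, sq_eq, hpe, Bool.eq_false_iff.2 fun e => k (Nat.le_of_ble_eq_true e),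
            Bool.eq_false_iff.2 fun e => k0 (Nat.eq_of_beq_eq_true e), Bool.or_false, cond_false]
          rw [h7, a1, h.apY hj _ l1 a2 (by omega) (by omega), h.row]
          exact congrArg (lev D ls · _ a P N r) (pv_shift _ _ _ _)
        · simp only [av_mul, av_pow, av_X, fI, if_neg k, fT, (evl_prod x _ _).2.2,
            decide_eq_true_eq]
          split_ifs
          · rw [av_mul, av_C]
            push_cast
            ring
          · simp [av_zero]
    refine evl_congr (evl_comp (evl_loop _ sT) (evl_comp (evl_loop _ sO) sN))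
      (fun β k P N => ?_) ?_ fun i hi x => ?_
    · rw [← h.nw a hc (by omega) (by omega)]
      simp only [evl_cons, frc_eq, sq_eq]
      rfl
    · have : (D.s + a) * (287 * z) ≤ 8 * (287 * z) := Nat.mul_le_mul_right _ (by omega)
      rw [add_mul] at this
      omega
    · have := (h.d hi).1
      rw [levR, ← mul_sum, ← mul_sum, av_mul, av_add, av_mul, av_C, av_C, av_X]
      push_cast [Nat.cast_sub this]
      ring

theorem lev_spec {D : MD} {n R : ℕ} {q : ℕ → ℕ × ℕ} (h : MOk D n R q) {E : ℕ} (hE : E < R)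
    (ls : List (ℕ × List ℕ × List ℕ)) : ∀ (m a e b : ℕ) (cl : List ℕ) (c cP cN : ℕ → ℕ[X]),
    LsOk D.s m ls → a ≤ m → D.s + m + ls.length ≤ 8 → Bd n c e b →
    e + rem (D.s + m) ls.length ≤ E → b * 8192 ^ ls.length < 2 ^ D.W →
    (∀ i < n, (cP i).natDegree ≤ E ∧ (cN i).natDegree ≤ E) →
    ∃ dP dN : ℕ → ℕ[X],
      (∀ (β : Type) (k : ℕ → ℕ → β), lev D ls (pv D.W n c) cl a (pv D.W n cP) (pv D.W n cN) k =
        k (pv D.W n dP) (pv D.W n dN)) ∧
      ∀ i < n, (dP i).natDegree ≤ E ∧ (dN i).natDegree ≤ E ∧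
        (dP i).eval 1 + (dN i).eval 1 ≤ (cP i).eval 1 + (cN i).eval 1 + b * 8192 ^ ls.length ∧
        ∀ x, av x (dP i) - av x (dN i) =
          av x (cP i) - av x (cN i) + av x (c i) * levR (-ee x) D.s (q i) ls cl a :=
  fun m a e b cl c cP cN h1 h2 h3 h4 h5 h6 h7 =>
    evl_main h hE ls m a e b cl c h1 h2 h3 h4 h5 h6 cP cN h7

end Pool.Agent.Lib.MP_efe3d7_co.J
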