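import Pool.Agent.Lib.MP_efe3d7_co.J.EvT

/-! The data of a window. -/

set_option autoImplicit false

open Finset Polynomial

namespace Pool.Agent.Lib.MP_efe3d7_co.J

open H

theorem evo_rec {β γ : Type} (f : β → γ) {g : ℕ → ℕ → β} {g' : ℕ → ℕ → γ}
    {S : ℕ → (ℕ → ℕ → β) → ℕ → ℕ → β} {S' : ℕ → (ℕ → ℕ → γ) → ℕ → ℕ → γ}
    (h0 : ∀ P N, f (g P N) = g' P N)
    (hS : ∀ j r r', (∀ P N, f (r P N) = r' P N) → ∀ P N, f (S j r P N) = S' j r' P N) (t : ℕ) :
    ∀ P N, f (Nat.rec (motive := fun _ => ℕ → ℕ → β) g S t P N) =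
      Nat.rec (motive := fun _ => ℕ → ℕ → γ) g' S' t P N := by
  induction t with
  | zero => exact h0
  | succ t ih => exact hS t _ _ ih

theorem evo_lev {β γ : Type} (f : β → γ) (D : MD) (ls : List (ℕ × List ℕ × List ℕ)) :
    ∀ (V : ℕ) (cl : List ℕ) (a P N : ℕ) (k : ℕ → ℕ → β) (k' : ℕ → ℕ → γ),
      (∀ p n, f (k p n) = k' p n) → f (lev D ls V cl a P N k) = lev D ls V cl a P N k' := by
  induction ls with
  | nil =>
    intro V cl a P N k k' h
    simp only [lev, sq_eq, h]
  | cons L ls ih =>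
    intro V cl a P N k k' h
    simp only [lev, sq_eq, frc_eq] at ih ⊢
    refine evo_rec f (evo_rec f (fun P N => ?_) (fun j r r' hr P N => ?_) a)
      (fun j r r' hr P N => ?_) _ _ _
    · exact ih _ _ _ _ _ _ _ fun p n => h n p
    · cases Nat.ble 64 _
      · exact ih _ _ _ _ _ _ _ hr
      · exact hr _ _
    · cases (Nat.ble 64 _ || Nat.beq _ 0)
      · exact ih _ _ _ _ _ _ _ hr
      · exact hr _ _

theorem evo_win (D : MD) (ni ct V : ℕ) :
    ∃ P N, ∀ (β : Type) (k : ℕ → ℕ → β), win D ni ct V k = k P N := by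
  refine ⟨(win D ni ct V Prod.mk).1, (win D ni ct V Prod.mk).2, fun β k => ?_⟩
  simp only [win, sq_eq, mkL_eq]
  exact (evo_lev (fun u : ℕ × ℕ => k u.1 u.2) D _ _ _ _ _ _ Prod.mk k fun _ _ => rfl).symm

theorem evo_md (s W m : ℕ) (T : List ℕ) :
    ∃ D : MD, D.s = s ∧ ∀ (β : Type) (k : MD → β), mkMD s W m T k = k D :=
  ⟨⟨s, W, _, _, _, _⟩, rfl, fun β k => by rw [mkMD, frc_eq, sq_eq, sq_eq, sq_eq]⟩

theorem evo_pd (s ni ct : ℕ) :
    ∃ (D : MD) (V : ℕ), D.s = s ∧ ∀ (β : Type) (k : PD → β), mkPD s ni ct k = k ⟨D, ni, V⟩ := by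
  obtain ⟨D, h1, h2⟩ := evo_md s (Nat.add (Nat.mul 13 ni) 114) 6
    (tab s ++ (tab s).map (Nat.add 18446744073709551616))
  obtain ⟨P, N, h3⟩ := evo_win D ni ct (falV D)
  exact ⟨D, _, h1, fun β k => by
    rw [mkPD, frc_eq, frcL_eq, h2, sq_eq, h3, sq_eq, sq_eq, sq_eq]⟩

theorem mkPD_eq {β : Type} (s ni ct : ℕ) (k : PD → β) : mkPD s ni ct k = k (pdOf s ni ct) := by
  obtain ⟨D, V, -, h⟩ := evo_pd s ni ct
  rw [pdOf, h, h]
  rfl

theorem pdOf_s (s ni ct : ℕ) : (pdOf s ni ct).D.s = s ∧ (pdOf s ni ct).ni = ni := by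
  obtain ⟨D, V, e, h⟩ := evo_pd s ni ct
  rw [pdOf, h]
  exact ⟨e, rfl⟩

/-- The factors of the falling factorial. -/
noncomputable def evoF (d t : ℕ) : ℕ[X] :=
  ∏ i ∈ range t, if i + 2 ≤ d then C (287 * i) + C 312 * X else C 287

theorem evo_bd (d t : ℕ) (ht : t ≤ 5) : (evoF d t).natDegree ≤ t ∧ (evoF d t).eval 1 ≤ 8192 ^ t := by
  induction t with
  | zero => simp [evoF]
  | succ t ih =>
    obtain ⟨h1, h2⟩ := ih (by omega)
    rw [evoF, prod_range_succ, ← evoF, eval_mul, pow_succ]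
    refine ⟨natDegree_mul_le.trans (Nat.add_le_add h1 ?_), Nat.mul_le_mul h2 ?_⟩
    · split_ifs
      · exact natDegree_add_le_of_degree_le (by rw [natDegree_C]; omega)
          ((natDegree_C_mul_le _ _).trans natDegree_X_le)
      · rw [natDegree_C]
        omega
    · split_ifs
      · rw [eval_add, eval_mul, eval_C, eval_C, eval_X]
        omega
      · rw [eval_C]
        omega

theorem evo_fal {D : MD} {n : ℕ} {q : ℕ → ℕ × ℕ} (h : MOk D n 64 q) :
    falV D = pv D.W n fun l => evoF (q l).2 (D.s - 1) := by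
  have key : ∀ t ≤ 5, Nat.rec (motive := fun _ => ℕ) D.O1 (fun i r => sq r fun F =>
      sq (Nat.land F (mk D (Nat.add 59 i))) fun U => Nat.add (Nat.mul 287 (Nat.xor F U))
        (lin D.row (Nat.mul 287 i) 312 U)) t = pv D.W n fun l => evoF (q l).2 t := by
    intro t ht
    induction t with
    | zero => exact h.o1.trans (pv_congr fun i _ => by simp [evoF])
    | succ t ih =>
      have hb : Bd n (fun l => evoF (q l).2 t) t (8192 ^ t) := fun i _ => evo_bd _ _ (by omega)
      have hw : 8192 ^ t < 2 ^ D.W := by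
        rw [show 8192 = 2 ^ 13 from rfl, ← pow_mul]
        exact Nat.pow_lt_pow_right (by omega) (by have := h.w; omega)
      have hm := h.ms (59 + t) (by omega)
      have e1 := hm _ _ _ hb (by omega) hw
      have e2 := hm.df_eq hb (by omega) hw
      show sq _ _ = _
      rw [sq_eq, sq_eq, ih (by omega)]
      show 287 * df (pv D.W n fun l => evoF (q l).2 t) (mk D (59 + t)) +
        (287 * t * Nat.land (pv D.W n fun l => evoF (q l).2 t) (mk D (59 + t)) +
          Nat.shiftLeft (312 * Nat.land (pv D.W n fun l => evoF (q l).2 t) (mk D (59 + t)))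
            D.row) = _
      rw [e1, e2, h.row, pv_mul, pv_mul, pv_mul, pv_shift1, pv_add, pv_add]
      refine pv_congr fun l _ => ?_
      have e3 : tqB (q l) (59 + t) = decide (t + 2 ≤ (q l).2) := by
        have a1 : Nat.blt (59 + t) 48 = false := by
          rw [← Bool.not_eq_true, Nat.blt_eq]; omega
        have a2 : Nat.blt (59 + t) 56 = false := by
          rw [← Bool.not_eq_true, Nat.blt_eq]; omega
        have a3 : Nat.blt (59 + t) 59 = false := by
          rw [← Bool.not_eq_true, Nat.blt_eq]; omega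
        rw [tqB, a1, a2, a3, cond_false, cond_false, cond_false, Bool.eq_iff_iff, Nat.ble_eq,
          decide_eq_true_iff]
        omega
      rw [evoF.eq_1 _ (t + 1), prod_range_succ, ← evoF]
      simp only [e3]
      by_cases c : t + 2 ≤ (q l).2
      · simp only [c, decide_true, if_true]
        ring
      · simp only [c, decide_false, if_false, Bool.false_eq_true]
        ring
  exact key (D.s - 1) (by have := h.s6; omega)

theorem evo_av (x : ℝ) (e t : ℕ) : (1 + x) * av x (evoF (e + 1) t) =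
    287 ^ t * (-1) ^ min t e * falR x (min t e + 1) := by
  induction t with
  | zero => simp [evoF, av_one, falR]
  | succ t ih =>
    rw [evoF, prod_range_succ, ← evoF, av_mul, ← mul_assoc, ih]
    split_ifs with c
    · rw [min_eq_left (by omega), min_eq_left (by omega), av_add, av_mul, av_C, av_C, av_X,
        falR, falR, prod_range_succ _ (t + 1), ee]
      push_cast
      ring
    · rw [min_eq_right (by omega), min_eq_right (by omega), av_C]
      push_cast
      ring

theorem evo_half (W n : ℕ) (c : ℕ → ℕ[X]) :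
    Nat.shiftLeft (pv W (2 * n) fun i => if n ≤ i then 0 else c i) (W * n) =
      pv W (2 * n) fun i => if n ≤ i then c (i - n) else 0 := by
  refine (Nat.shiftLeft_eq _ _).trans ?_
  rw [pv, pv]
  generalize 2 ^ (W * (2 * n)) = y
  rw [two_mul, sum_range_add, sum_range_add]
  simp only [Nat.le_add_right, if_true, eval_zero, mul_zero, sum_const_zero, add_zero,
    Nat.add_sub_cancel_left, sum_mul]
  rw [sum_eq_zero (s := range n) (f := fun i => 2 ^ (W * i) *
    eval y (if n ≤ i then c (i - n) else 0)) fun i hi => by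
      rw [if_neg (mem_range.1 hi).not_ge, eval_zero, mul_zero], zero_add]
  refine sum_congr rfl fun i hi => ?_
  rw [if_neg (mem_range.1 hi).not_ge]
  ring

theorem evo_par (m : ℕ) : ((-1 : ℝ) ^ m = 1 ∧ tb m 0 = false) ∨ ((-1 : ℝ) ^ m = -1 ∧ tb m 0 = true) := by
  rw [tb_eq, Nat.testBit_zero]
  rcases Nat.even_or_odd m with h | h
  · exact Or.inl ⟨h.neg_one_pow, by simp [Nat.even_iff.1 h]⟩
  · exact Or.inr ⟨h.neg_one_pow, by simp [Nat.odd_iff.1 h]⟩

theorem pd_spec {s ni : ℕ} (ct : ℕ) (h1 : 1 ≤ s) (h6 : s ≤ 6) (h8 : s + ni ≤ 8) {n : ℕ}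
    (hn : n = (parts s).length) : ∃ (D : MD) (c : ℕ → ℕ[X]),
      pdOf s ni ct = ⟨D, ni, pv D.W (2 * n) c⟩ ∧ D.s = s ∧ D.W = 13 * ni + 114 ∧
      MOk D (2 * n) 64 (fun i => (parts s).getD (i % n) (0, 0)) ∧
      IsM D.W (2 * n) 64 (mk D 64) (fun i => decide (n ≤ i)) ∧
      Bd (2 * n) c 33 (8192 ^ (s - 1 + ni)) ∧
      ∀ i < n, ∀ x, (1 + x) * (av x (c i) - av x (c (n + i))) = 287 ^ (s - 1 + ni) * (-1) ^ ni *
        (falR x ((parts s).getD i (0, 0)).2 *
          valR x s ni ct ((parts s).getD i (0, 0)).1 ((parts s).getD i (0, 0)).2) := by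
  obtain ⟨D, hD, rfl, hW, hM, h64⟩ := md_pos (W := 13 * ni + 114) h1 h6 (by omega) 6
  rw [← hn] at hM h64
  rw [← hW] at h64
  have hM : MOk D (2 * n) 64 fun i => (parts D.s).getD (i % n) (0, 0) := hM
  have h64 : IsM D.W (2 * n) 64 (mk D 64) fun i => decide (n ≤ i) := h64
  have hw : 8192 ^ (D.s - 1) * 8192 ^ ni < 2 ^ D.W := by
    rw [← pow_add, show 8192 = 2 ^ 13 from rfl, ← pow_mul]
    exact Nat.pow_lt_pow_right (by omega) (by omega)
  obtain ⟨dP, dN, hv, hd⟩ := win_spec hM (ni := ni) ct h8 (e := D.s - 1)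
    (c := fun l => evoF ((parts D.s).getD (l % n) (0, 0)).2 (D.s - 1))
    (fun i _ => evo_bd _ _ (by omega)) (by omega) hw
  rw [← pow_add] at hw hd
  have bP : Bd (2 * n) dP 33 (8192 ^ (D.s - 1 + ni)) := fun i hi => by
    have := hd i hi
    omega
  have bN : Bd (2 * n) dN 33 (8192 ^ (D.s - 1 + ni)) := fun i hi => by
    have := hd i hi
    omega
  have h56 : IsM D.W (2 * n) 64 (mk D 56) fun i =>
    tb (((parts D.s).getD (i % n) (0, 0)).2 - 1) 0 := hM.ms 56 (by omega)
  generalize hm : (fun i => tb (((parts D.s).getD (i % n) (0, 0)).2 - 1) 0) = m at h56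
  have bA : Bd (2 * n) (fun i => if m i = true then dN i else dP i) 33 (8192 ^ (D.s - 1 + ni)) :=
    fun i hi => by
      dsimp only
      split_ifs
      exacts [bN i hi, bP i hi]
  have bB : Bd (2 * n) (fun i => if m i = true then dP i else dN i) 33 (8192 ^ (D.s - 1 + ni)) :=
    fun i hi => by
      dsimp only
      split_ifs
      exacts [bP i hi, bN i hi]
  have eA : df (pv D.W (2 * n) dP) (mk D 56) + Nat.land (pv D.W (2 * n) dN) (mk D 56) =
      pv D.W (2 * n) fun i => if m i = true then dN i else dP i := by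
    rw [h56.df_eq bP (by omega) hw, h56 _ _ _ bN (by omega) hw, pv_add]
    exact pv_congr fun i _ => by split_ifs <;> simp
  have eB : Nat.land (pv D.W (2 * n) dP) (mk D 56) + df (pv D.W (2 * n) dN) (mk D 56) =
      pv D.W (2 * n) fun i => if m i = true then dP i else dN i := by
    rw [h56.df_eq bN (by omega) hw, h56 _ _ _ bP (by omega) hw, pv_add]
    exact pv_congr fun i _ => by split_ifs <;> simp
  refine ⟨D, fun i => if n ≤ i then (if m (i - n) = true then dP (i - n) else dN (i - n)) else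
    if m i = true then dN i else dP i, ?_, rfl, hW, hM, h64, fun i hi => ?_, fun i hi x => ?_⟩
  · rw [pdOf, mkPD, frc_eq, frcL_eq]
    refine (hD _ _).trans ?_
    rw [sq_eq, evo_fal hM, hv, sq_eq, sq_eq, sq_eq, Nat.add_eq, Nat.add_eq, Nat.add_eq, eA, eB,
      h64.df_eq bA (by omega) hw, h64.df_eq bB (by omega) hw,
      show Nat.div D.row 2 = D.W * n by
        rw [hM.row, Nat.mul_left_comm]
        exact Nat.mul_div_cancel_left _ (by omega)]
    simp only [decide_eq_true_eq]
    rw [evo_half, pv_add]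
    exact congrArg (PD.mk D ni) (pv_congr fun i _ => by split_ifs <;> simp)
  · dsimp only
    split_ifs
    exacts [bP _ (by omega), bN _ (by omega), bN i hi, bP i hi]
  · obtain ⟨d1, d2⟩ := hM.d (i := i) (by omega)
    have e := (hd i (by omega)).2.2.2 x
    have e2 : m i = tb (((parts D.s).getD (i % n) (0, 0)).2 - 1) 0 := by rw [← hm]
    simp only [Nat.mod_eq_of_lt hi] at d1 d2 e e2
    simp only [hi.not_ge, if_false, Nat.le_add_right, if_true, Nat.add_sub_cancel_left]
    generalize (parts D.s).getD i (0, 0) = u at d1 d2 e e2 ⊢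
    obtain ⟨cs, d⟩ := u
    obtain ⟨d, rfl⟩ : ∃ r, d = r + 1 := ⟨d - 1, by dsimp only at d1; omega⟩
    dsimp only at d2 e e2 ⊢
    have e3 := evo_av x d (D.s - 1)
    rw [min_eq_right (by omega)] at e3
    rw [e2, Nat.add_sub_cancel, pow_add]
    rcases evo_par d with ⟨a, b⟩ | ⟨a, b⟩
    · rw [a] at e3
      simp only [b, Bool.false_eq_true, if_false]
      rw [e, ← mul_assoc, e3]
      ring
    · rw [a] at e3
      simp only [b, if_true]
      rw [← neg_sub, e, mul_neg, ← mul_assoc, e3]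
      ring

end Pool.Agent.Lib.MP_efe3d7_co.J
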