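import Pool.Agent.Lib.MP_efe3d7_co.J.EvA

/-! Positivity on an interval. -/

set_option autoImplicit false

open Finset Polynomial

namespace Pool.Agent.Lib.MP_efe3d7_co.J

open H

/-- The homogeneous value of degree `d`. -/
noncomputable def evqH (l u : ℝ) (p : ℕ[X]) (d : ℕ) : ℝ :=
  ∑ j ∈ range (d + 1), (p.coeff j : ℝ) * (l ^ j * u ^ (d - j))

theorem evq_add (l u : ℝ) (p q : ℕ[X]) (d : ℕ) :
    evqH l u (p + q) d = evqH l u p d + evqH l u q d := by
  simp [evqH, add_mul, sum_add_distrib]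

theorem evq_C (l u : ℝ) (a : ℕ) (p : ℕ[X]) (d : ℕ) : evqH l u (C a * p) d = a * evqH l u p d := by
  simp [evqH, mul_sum, mul_assoc]

theorem evq_X (l u : ℝ) (p : ℕ[X]) (d : ℕ) : evqH l u (X * p) (d + 1) = l * evqH l u p d := by
  rw [evqH, sum_range_succ', evqH, mul_sum, coeff_X_mul_zero, Nat.cast_zero, zero_mul, add_zero]
  refine sum_congr rfl fun j _ => ?_
  rw [coeff_X_mul, Nat.add_sub_add_right]
  ring

theorem evq_up (l u : ℝ) {p : ℕ[X]} {d : ℕ} (h : p.natDegree ≤ d) :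
    evqH l u p (d + 1) = u * evqH l u p d := by
  rw [evqH, sum_range_succ, coeff_eq_zero_of_natDegree_lt (Nat.lt_succ_of_le h), Nat.cast_zero,
    zero_mul, add_zero, evqH, mul_sum]
  refine sum_congr rfl fun j hj => ?_
  rw [show d + 1 - j = d - j + 1 by have := mem_range.1 hj; omega]
  ring

theorem evq_lt {l u : ℝ} (hl : 0 ≤ l) (hu : 0 ≤ u) (h0 : 0 < l ∨ 0 < u) {p q : ℕ[X]} {d : ℕ}
    (h : ∀ j ≤ d, q.coeff j < p.coeff j) : evqH l u q d < evqH l u p d := by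
  have k : ∀ j ∈ range (d + 1), (q.coeff j : ℝ) < p.coeff j := fun j hj =>
    Nat.cast_lt.2 (h j (Nat.le_of_lt_succ (mem_range.1 hj)))
  refine sum_lt_sum (fun j hj => mul_le_mul_of_nonneg_right (k j hj).le (by positivity)) ?_
  rcases h0 with h0 | h0
  · have e : d ∈ range (d + 1) := mem_range.2 d.lt_succ_self
    exact ⟨d, e, mul_lt_mul_of_pos_right (k d e) (by rw [Nat.sub_self, pow_zero]; positivity)⟩
  · have e : 0 ∈ range (d + 1) := mem_range.2 d.succ_pos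
    exact ⟨0, e, mul_lt_mul_of_pos_right (k 0 e) (by rw [pow_zero]; positivity)⟩

/-- The number `N` packs a polynomial of degree at most `d` with homogeneous value `r`. -/
def evqR (K : ℕ) (l u : ℝ) (d N : ℕ) (r : ℝ) (b : ℕ) : Prop :=
  ∃ p : ℕ[X], p.natDegree ≤ d ∧ p.eval (2 ^ K) = N ∧ p.eval 1 ≤ b ∧ evqH l u p d = r

theorem evqR.lin {K d N b : ℕ} {l u r : ℝ} (h : evqR K l u d N r b) {c v t B : ℕ}
    (hB : c * (v + t) ≤ B) :
    evqR K l u (d + 1) (N * (c * (v * 2 ^ K + t))) (r * (c * (v * l + t * u))) (b * B) := by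
  obtain ⟨p, h1, h2, h3, h4⟩ := h
  refine ⟨C (c * v) * (X * p) + C (c * t) * p, ?_, ?_, ?_, ?_⟩
  · refine natDegree_add_le_of_degree_le ((natDegree_C_mul_le _ _).trans
      (natDegree_mul_le.trans ?_)) ((natDegree_C_mul_le _ _).trans (by omega))
    have := natDegree_X_le (R := ℕ)
    omega
  · simp only [eval_add, eval_mul, eval_C, eval_X, h2]
    ring
  · simp only [eval_add, eval_mul, eval_C, eval_X]
    exact le_trans (le_of_eq (by ring)) (Nat.mul_le_mul h3 hB)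
  · rw [evq_add, evq_C, evq_C, evq_X, evq_up l u h1, h4]
    push_cast
    ring

theorem evqR.axpy {K d N M b c : ℕ} {l u r s : ℝ} (h : evqR K l u d N r b)
    (h' : evqR K l u d M s c) {a A : ℕ} (ha : a ≤ A) :
    evqR K l u d (N + a * M) (r + a * s) (b + A * c) := by
  obtain ⟨p, h1, h2, h3, h4⟩ := h
  obtain ⟨q, k1, k2, k3, k4⟩ := h'
  refine ⟨p + C a * q, natDegree_add_le_of_degree_le h1 ((natDegree_C_mul_le _ _).trans k1),
    ?_, ?_, ?_⟩
  · rw [eval_add, eval_mul, eval_C, h2, k2]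
  · rw [eval_add, eval_mul, eval_C]
    exact Nat.add_le_add h3 (Nat.mul_le_mul ha k3)
  · rw [evq_add, evq_C, h4, k4]

theorem evq_succ (row Y z φ ψ m A B w P N : ℕ) (k : ℕ → ℕ → Bool) :
    bl row Y z φ ψ (m + 1) A B w P N k = bl row Y z φ ψ m (Nat.shiftRight B row)
      (Nat.shiftRight A row) (w * φ) ((P + A % Y % z * w) * ψ) ((N + B % Y % z * w) * ψ) k := by
  show sq ((P + A % Y % z * w) * ψ) (fun P' => sq ((N + B % Y % z * w) * ψ) fun N' =>
    sq (Nat.shiftRight A row) fun A' => sq (Nat.shiftRight B row) fun B' => sq (w * φ) fun w' =>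
      bl row Y z φ ψ m B' A' w' P' N' k) = _
  simp only [sq_eq]

theorem evq_div {n e b : ℕ} {c : ℕ → ℕ[X]} (h : Bd n c e b) : Bd n (fun i => divX (c i)) e b :=
  fun i hi => ⟨natDegree_divX_le.trans (h i hi).1, le_trans (by
    have k := congrArg (eval 1) (divX_mul_X_add (c i))
    rw [eval_add, eval_mul, eval_X, mul_one] at k
    exact Nat.le.intro k) (h i hi).2⟩

theorem evq_av (x : ℝ) (n : ℕ) (c : ℕ → ℕ[X]) : ∑ i ∈ range n, av x (c i) =
    (∑ i ∈ range n, (c i).coeff 0 : ℕ) - ee x * ∑ i ∈ range n, av x (divX (c i)) := by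
  rw [Nat.cast_sum, mul_sum, ← sum_sub_distrib]
  refine sum_congr rfl fun i _ => ?_
  have k := congrArg (av x) (divX_mul_X_add (c i))
  rw [av_add, av_mul, av_X, av_C] at k
  linarith

theorem evq_bl {W n e b K B v t v' t' : ℕ} {l u x : ℝ} (hn : 0 < n) (hb : n * b + 1 < 2 ^ W)
    (h1 : 287 * (v + t) ≤ B) (h2 : 312 * (v' + t') ≤ B)
    (hx : (287 : ℕ) * (v * l + t * u) = ee x * ((312 : ℕ) * (v' * l + t' * u)))
    (k : ℕ → ℕ → Bool) (m : ℕ) : ∀ (cA cB : ℕ → ℕ[X]) (d w P N : ℕ) (a p q : ℝ), Bd n cA e b →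
      Bd n cB e b → evqR K l u d w a (B ^ d) → evqR K l u d P p (d * (2 ^ W * B ^ d)) →
      evqR K l u d N q (d * (2 ^ W * B ^ d)) →
      bl (W * n) (2 ^ (W * n)) (2 ^ W - 1) (287 * (v * 2 ^ K + t)) (312 * (v' * 2 ^ K + t')) m
        (pv W n cA) (pv W n cB) w P N k = true →
      ∃ P' N' p' q', k P' N' = true ∧
        evqR K l u (d + m) P' p' ((d + m) * (2 ^ W * B ^ (d + m))) ∧
        evqR K l u (d + m) N' q' ((d + m) * (2 ^ W * B ^ (d + m))) ∧
        p' - q' = ((312 : ℕ) * (v' * l + t' * u)) ^ m *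
          (p - q + a * (∑ i ∈ range n, av x (cA i) - ∑ i ∈ range n, av x (cB i))) := by
  induction m with
  | zero =>
    intro cA cB d w P N a p q _ _ _ hP hN h
    have h' : (Nat.beq (pv W n cA) 0 && Nat.beq (pv W n cB) 0 && k P N) = true := h
    simp only [Bool.and_eq_true, Nat.beq_eq] at h'
    have z : ∀ c : ℕ → ℕ[X], pv W n c = 0 → ∑ i ∈ range n, av x (c i) = 0 := fun c hc =>
      sum_eq_zero fun i hi => by rw [pv_eq_zero hc i (mem_range.1 hi), av_zero]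
    exact ⟨P, N, p, q, h'.2, hP, hN, by rw [z _ h'.1.1, z _ h'.1.2]; ring⟩
  | succ m ih =>
    intro cA cB d w P N a p q hA hB hw hP hN h
    have hb' : b < 2 ^ W := lt_of_le_of_lt (by nlinarith) hb
    have bd : ∀ c : ℕ → ℕ[X], Bd n c e b → ∑ i ∈ range n, (c i).coeff 0 ≤ 2 ^ W := fun c hc => by
      rw [← pv_sum hc hn hb]
      exact (Nat.mod_lt _ (by omega)).le.trans (Nat.sub_le _ _)
    rw [evq_succ, (pv_row hA hb').2, (pv_row hB hb').2, pv_sum hA hn hb, pv_sum hB hn hb] at h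
    have eb : (d * (2 ^ W * B ^ d) + 2 ^ W * B ^ d) * B = (d + 1) * (2 ^ W * B ^ (d + 1)) := by ring
    obtain ⟨P', N', p', q', k1, k2, k3, k4⟩ := ih _ _ (d + 1) _ _ _ _ _ _ (evq_div hB) (evq_div hA)
      (pow_succ B d ▸ hw.lin h1) (eb ▸ (hP.axpy hw (bd _ hA)).lin h2)
      (eb ▸ (hN.axpy hw (bd _ hB)).lin h2) h
    rw [show d + 1 + m = d + (m + 1) by omega] at k2 k3
    refine ⟨P', N', p', q', k1, k2, k3, ?_⟩
    rw [k4, hx, evq_av x n cA, evq_av x n cB]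
    ring

theorem bern1_sound {W n m e b a1 b1 a2 b2 : ℕ} {cA cB : ℕ → ℕ[X]} (hA : Bd n cA e b)
    (hB : Bd n cB e b) (hn : 0 < n) (hb : n * b + 1 < 2 ^ W)
    (h : bern1 W (W * n) m (pv W n cA) (pv W n cB) a1 b1 a2 b2 = true) {x : ℝ}
    (h1 : (a1 : ℝ) ≤ b1 * x) (h2 : b2 * x ≤ (a2 : ℝ)) :
    ∑ i ∈ range n, av x (cB i) < ∑ i ∈ range n, av x (cA i) := by
  simp only [bern1, frc_eq, sq_eq, Bool.and_eq_true, Nat.blt_eq, Nat.ble_eq, Nat.add_eq, Nat.mul_eq,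
    bt_eq] at h
  obtain ⟨⟨⟨g1, g2⟩, g3⟩, g4⟩ := h
  have es : ∀ a K : ℕ, Nat.shiftLeft a K = a * 2 ^ K := Nat.shiftLeft_eq
  have ef : ful W = 2 ^ W - 1 := by rw [ful, bt_eq]; rfl
  rw [es a2, es b2, ef] at g4
  have g0 : (0 : ℝ) < a2 * b1 - a1 * b2 := sub_pos.2 (by exact_mod_cast g1)
  have e1 : (b2 : ℝ) * (b1 * x - a1) + b1 * (a2 - b2 * x) = a2 * b1 - a1 * b2 := by ring
  have r0 : ∀ K, evqR K (b1 * x - a1) (a2 - b2 * x) 0 0 0 (0 * (2 ^ W * 524288 ^ 0)) := fun K =>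
    ⟨0, by simp, by simp, by simp, by simp [evqH]⟩
  obtain ⟨P, N, p, q, k1, ⟨f, f1, f2, f3, f4⟩, ⟨g, q1, q2, q3, q4⟩, k4⟩ :=
    evq_bl (B := 524288) (l := b1 * x - a1) (u := a2 - b2 * x) (x := x) hn hb (by omega) (by omega)
      (by rw [e1, ee]; push_cast; ring) _ m cA cB 0 1 0 0 1 0 0 hA hB
      ⟨1, by simp, by simp, by simp, by simp [evqH]⟩ (r0 _) (r0 _) g4
  rw [zero_add] at f1 f3 f4 q1 q3 q4
  have bd : m * (2 ^ W * 524288 ^ m) < 2 ^ (W + 10 + m * 19 - 1) := by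
    rw [show W + 10 + m * 19 - 1 = 9 + (W + 19 * m) by omega, pow_add, pow_add, pow_mul]
    exact Nat.mul_lt_mul_of_pos_right (by omega) (by positivity)
  rw [Nat.beq_eq, ← f2, ← q2] at k1
  have k5 := evq_lt (sub_nonneg.2 h1) (sub_nonneg.2 h2) (by
      by_contra hc
      rw [not_or, not_lt, not_lt] at hc
      rw [← e1, hc.1.antisymm (sub_nonneg.2 h1), hc.2.antisymm (sub_nonneg.2 h2)] at g0
      simp at g0)
    (top_test (by omega) f1 q1 (f3.trans_lt bd) (q3.trans_lt bd) rfl rfl k1)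
  rw [f4, q4, ← sub_pos, k4, e1] at k5
  have k6 := (mul_pos_iff_of_pos_left (by positivity)).1 k5
  linarith

theorem bis_sound {W n m e b : ℕ} {cA cB : ℕ → ℕ[X]} (hA : Bd n cA e b)
    (hB : Bd n cB e b) (hn : 0 < n) (hb : n * b + 1 < 2 ^ W) (cs : List (ℕ × ℕ)) {x : ℝ}
    (h2 : x ≤ 371 / 475) : ∀ a1 b1 : ℕ, bis W (W * n) m (pv W n cA) (pv W n cB) cs a1 b1 = true →
      (a1 : ℝ) ≤ b1 * x → ∑ i ∈ range n, av x (cB i) < ∑ i ∈ range n, av x (cA i) := by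
  have h3 : ((475 : ℕ) : ℝ) * x ≤ (371 : ℕ) := by push_cast; linarith
  induction cs with
  | nil => exact fun a1 b1 h h1 => bern1_sound hA hB hn hb h h1 h3
  | cons c cs ih =>
    intro a1 b1 h h1
    have h' : (bern1 W (W * n) m (pv W n cA) (pv W n cB) a1 b1 371 475 ||
      (bern1 W (W * n) m (pv W n cA) (pv W n cB) a1 b1 c.1 c.2 &&
        bis W (W * n) m (pv W n cA) (pv W n cB) cs c.1 c.2)) = true := h
    rw [Bool.or_eq_true, Bool.and_eq_true] at h'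
    rcases h' with h' | h'
    · exact bern1_sound hA hB hn hb h' h1 h3
    · rcases le_total ((c.2 : ℝ) * x) c.1 with k | k
      · exact bern1_sound hA hB hn hb h'.1 h1 k
      · exact ih _ _ h'.2 k

end Pool.Agent.Lib.MP_efe3d7_co.J
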