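import Pool.Agent.Lib.MP_efe3d7_co.J.EvO
import Pool.Agent.Lib.MP_efe3d7_co.J.EvQ

/-! Positivity of glued windows. -/

set_option autoImplicit false

open Finset Polynomial

namespace Pool.Agent.Lib.MP_efe3d7_co.J

open H

theorem evp_list {β : Type} (l : List β) (d : β) (f : β → ℝ) :
    (l.map f).sum = ∑ i ∈ range l.length, f (l.getD i d) := by
  induction l with
  | nil => simp
  | cons a l ih => rw [List.length_cons, sum_range_succ', List.map_cons, List.sum_cons, ih, add_comm]; rfl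

theorem evp_mix {W n R M e b : ℕ} {m : ℕ → Bool} (h : IsM W n R M m) {c c' : ℕ → ℕ[X]}
    (hc : Bd n c e b) (hc' : Bd n c' e b) (he : e < R) (hb : b < 2 ^ W) :
    Nat.add (df (pv W n c) M) (Nat.land (pv W n c') M) =
      (pv W n fun i => if m i = true then c' i else c i) ∧
    Bd n (fun i => if m i = true then c' i else c i) e b := by
  refine ⟨?_, fun i hi => ?_⟩
  · rw [h.df_eq hc he hb, h c' e b hc' he hb, Nat.add_eq, pv_add]
    exact pv_congr fun i _ => by by_cases k : m i = true <;> simp [k]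
  · by_cases k : m i = true
    · simpa only [k, if_true] using hc' i hi
    · simpa only [k, if_false, Bool.false_eq_true] using hc i hi

theorem posF_sound {x : ℝ} {s ni ct o co : ℕ} (hx : Iv x)
    (h : posF (pdOf s ni ct) o co = true) : 0 < glueR x s o co ni ct := by
  obtain ⟨e1, e2⟩ := pdOf_s s ni ct
  simp only [posF, Bool.and_eq_true, Nat.ble_eq, Nat.add_eq, e1, e2] at h
  obtain ⟨⟨⟨⟨h1, h6⟩, h8⟩, o8⟩, h⟩ := h
  obtain ⟨n0, n1⟩ := parts_len h6
  generalize hn : (parts s).length = n at n0 n1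
  obtain ⟨D, c, eP, hs, hW, hD, hM, hc, hv⟩ := pd_spec ct h1 h6 h8 hn.symm
  have hb : 2 * n * (8192 ^ (s - 1 + ni) * 8192 ^ o) + 1 < 2 ^ D.W := by
    have a1 : 8192 ^ (s - 1 + ni) * 8192 ^ o ≤ 8192 ^ (7 + ni) := by
      rw [← pow_add]
      exact Nat.pow_le_pow_right (by norm_num) (by omega)
    have a2 : 2 ^ D.W = 2 ^ 23 * 8192 ^ (7 + ni) := by
      rw [hW, show 8192 = 2 ^ 13 by norm_num, ← pow_mul, ← pow_add]
      congr 1
      omega
    have a3 : 0 < 8192 ^ (7 + ni) := by positivity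
    have a4 := Nat.mul_le_mul (show 2 * n ≤ 406 by omega) a1
    omega
  have hb' : 8192 ^ (s - 1 + ni) * 8192 ^ o < 2 ^ D.W :=
    lt_of_le_of_lt (Nat.le_mul_of_pos_left _ (show 0 < 2 * n by omega)) (by omega)
  obtain ⟨dP, dN, ew, hd⟩ := win_spec hD co (ni := o) (by omega) hc (by norm_num) hb'
  have bP : Bd (2 * n) dP (33 + 28) (8192 ^ (s - 1 + ni) * 8192 ^ o) :=
    fun i hi => ⟨(hd i hi).1, le_trans (Nat.le_add_right _ _) (hd i hi).2.2.1⟩
  have bN : Bd (2 * n) dN (33 + 28) (8192 ^ (s - 1 + ni) * 8192 ^ o) :=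
    fun i hi => ⟨(hd i hi).2.1, le_trans (Nat.le_add_left _ _) (hd i hi).2.2.1⟩
  obtain ⟨eA, bA⟩ := evp_mix hM bP bN (by norm_num) hb'
  obtain ⟨eB, bB⟩ := evp_mix hM bN bP (by norm_num) hb'
  rw [Nat.add_eq] at eA eB
  rw [eP] at h
  simp only [ew, sq_eq, frc_eq, eA, eB, hD.row] at h
  generalize blk _ _ _ = m at h
  have x1 : ((1 : ℕ) : ℝ) ≤ (4 : ℕ) * x := by
    have := hx.1
    push_cast
    linarith
  have key : (1 + x) * (∑ i ∈ range (2 * n), av x (if decide (n ≤ i) = true then dN i else dP i) -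
      ∑ i ∈ range (2 * n), av x (if decide (n ≤ i) = true then dP i else dN i)) =
      287 ^ (s - 1 + ni) * 287 ^ o * ((-1) ^ (s + ni + o) * glueR x s o co ni ct) := by
    rw [glueR, evp_list _ (0, 0), hn, two_mul, sum_range_add, sum_range_add, ← sum_add_distrib,
      ← sum_add_distrib, ← sum_sub_distrib, mul_sum, mul_sum, mul_sum]
    refine sum_congr rfl fun i hi => ?_
    have hi := mem_range.1 hi
    have u1 := (hd i (by omega)).2.2.2 x
    have u2 := (hd (n + i) (by omega)).2.2.2 x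
    have u3 := hv i hi x
    rw [Nat.add_mod_left] at u2
    rw [Nat.mod_eq_of_lt hi, hs] at u1 u2
    have u4 : ((-1 : ℝ) ^ s) * (-1) ^ s = 1 := by rw [← mul_pow]; norm_num
    simp only [decide_eq_true_eq, if_neg (not_le.2 hi), if_pos (Nat.le_add_right n i)]
    generalize (parts s).getD i (0, 0) = q at u1 u2 u3 ⊢
    rw [pow_add (-1 : ℝ), pow_add (-1 : ℝ)]
    linear_combination (1 + x) * u1 - (1 + x) * u2 +
      (287 ^ o * (-1) ^ o * valR x s o co q.1 q.2) * u3 -
      (287 ^ (s - 1 + ni) * 287 ^ o * (-1) ^ ni * (-1) ^ o * falR x q.2 * valR x s o co q.1 q.2 *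
        valR x s ni ct q.1 q.2) * u4
  have p1 : 0 < 1 + x := by linarith [hx.1]
  have p2 : (0 : ℝ) < 287 ^ (s - 1 + ni) * 287 ^ o := by positivity
  rw [tb_eq, Nat.testBit_zero] at h
  rcases Nat.even_or_odd (s + ni + o) with k | k
  · rw [decide_eq_false (by rw [Nat.even_iff.1 k]; norm_num), cond_false] at h
    have := mul_pos p1 (sub_pos.2 (bis_sound bA bB (by omega) hb _ hx.2 1 4 h x1))
    rw [key, k.neg_one_pow, one_mul] at this
    exact (mul_pos_iff_of_pos_left p2).1 this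
  · rw [decide_eq_true (Nat.odd_iff.1 k), cond_true] at h
    have := mul_neg_of_pos_of_neg p1 (sub_neg.2 (bis_sound bB bA (by omega) hb _ hx.2 1 4 h x1))
    rw [key, k.neg_one_pow, neg_one_mul, mul_neg, neg_lt_zero] at this
    exact (mul_pos_iff_of_pos_left p2).1 this

end Pool.Agent.Lib.MP_efe3d7_co.J
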