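import Pool.Agent.Lib.MP_efe3d7_co.J.EvD
import Pool.Agent.Lib.MP_efe3d7_co.H.Pat1
import Pool.Agent.Lib.MP_efe3d7_co.H.Bit2

/-! The meaning of packed numbers. -/

set_option autoImplicit false

open Finset Polynomial

namespace Pool.Agent.Lib.MP_efe3d7_co.J

open H

/-- The number that packs the polynomials `c i`, `i < n`: coefficient `k` of `c i` is in field
`i + n * k`. -/
noncomputable def pv (W n : ℕ) (c : ℕ → ℕ[X]) : ℕ :=
  ∑ i ∈ range n, 2 ^ (W * i) * (c i).eval (2 ^ (W * n))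

/-- Bounds for the degrees and the sums of the coefficients. -/
def Bd (n : ℕ) (c : ℕ → ℕ[X]) (e b : ℕ) : Prop :=
  ∀ i < n, (c i).natDegree ≤ e ∧ (c i).eval 1 ≤ b

/-- `M` selects the fields with `m i`. -/
def IsM (W n R M : ℕ) (m : ℕ → Bool) : Prop :=
  ∀ (c : ℕ → ℕ[X]) (e b : ℕ), Bd n c e b → e < R → b < 2 ^ W →
    Nat.land (pv W n c) M = pv W n fun i => if m i = true then c i else 0

/-- The packing `D` describes the partitions `q i`, `i < n`. -/
structure MOk (D : MD) (n R : ℕ) (q : ℕ → ℕ × ℕ) : Prop where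
  s1 : 1 ≤ D.s
  s6 : D.s ≤ 6
  w : 65 ≤ D.W
  row : D.row = D.W * n
  o1 : D.O1 = pv D.W n fun _ => 1
  rg : ∀ i < n, RG (q i).1 D.s (q i).2
  ms : ∀ p < 64, IsM D.W n R (J.mk D p) fun i => tqB (q i) p

/-- The value at `-ee x`. -/
noncomputable def av (x : ℝ) (p : ℕ[X]) : ℝ := aeval (-ee x) p

/-- The integer `N` packs differences of polynomials with values `f i`. -/
def RZ (W n : ℕ) (N : ℤ) (b : ℕ) (f : ℕ → ℝ → ℝ) : Prop :=
  ∃ cp cn : ℕ → ℕ[X], N = (pv W n cp : ℤ) - pv W n cn ∧ ∀ i < n,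
    (cp i).eval 1 + (cn i).eval 1 ≤ b ∧ ∀ x, av x (cp i) - av x (cn i) = f i x

/-- The integer given by a sign and a number. -/
def sgn (u : ℕ × ℕ) : ℤ := if u.1 = 1 then u.2 else -u.2

/-- The sum of the codes of the edges to vertices with colour `c`. -/
def pnS (ws cl : List ℕ) (c : ℕ) : ℕ := ((ws.zip cl).map fun u => if u.2 = c then u.1 else 0).sum

/-- The factor of the edges to the earlier inner vertices. -/
noncomputable def fI (y : ℝ) (ws cl : List ℕ) (c : ℕ) : ℝ :=
  if 64 ≤ pnS ws cl c then 0 else y ^ pnS ws cl c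

/-- The terminal `j` is the first of its block, and the block has no member of `hm`. -/
def ld (s cs hm j : ℕ) : Prop :=
  (∀ i < j, dig cs i ≠ dig cs j) ∧ ∀ i < s, tb hm i = true → dig cs i ≠ dig cs j

open Classical in
/-- The factor of the edges to the terminals. -/
noncomputable def fT (y : ℝ) (s cs hm : ℕ) (ys : List ℕ) (j : ℕ) : ℝ :=
  if ld s cs hm j then (ys.map fun i => if dig cs i = dig cs j then y else 1).prod else 0

/-- The value computed by `lev` on one partition. -/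
noncomputable def levR (y : ℝ) (s : ℕ) (q : ℕ × ℕ) :
    List (ℕ × List ℕ × List ℕ) → List ℕ → ℕ → ℝ
  | [], _, _ => 1
  | L :: ls, cl, a =>
    ∑ j ∈ range s, 287 * fT y s q.1 L.1 L.2.1 j * fI y L.2.2 cl j * levR y s q ls (j :: cl) a +
      ∑ b ∈ range a, 287 * fI y L.2.2 cl (s + b) * levR y s q ls ((s + b) :: cl) a -
      (287 * ((q.2 : ℝ) - 1 + a) + 312 * y) * levR y s q ls ((s + a) :: cl) (a + 1)

/-- The data of the inner vertices. -/
def lsOf (s ct : ℕ) : ℕ → ℕ → List (ℕ × List ℕ × List ℕ)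
  | 0, _ => []
  | n + 1, m => (msk s fun i => Nat.beq (ty ct (s + m) i) 1, ysOf s (ct >>> (48 * (s + m))),
      wsOf s (ct >>> (48 * (s + m))) m) :: lsOf s ct n (m + 1)

/-- The data have the right shape. -/
def LsOk (s : ℕ) : ℕ → List (ℕ × List ℕ × List ℕ) → Prop
  | _, [] => True
  | m, L :: ls => (∀ i ∈ L.2.1, i < s) ∧ L.2.1.length ≤ s ∧ L.2.2.length ≤ m ∧
      (∀ w ∈ L.2.2, w ≤ 1 ∨ w = 64) ∧ LsOk s (m + 1) ls

/-- The sum `u + (u + 1) + ...` with `r` terms. -/
def rem : ℕ → ℕ → ℕ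
  | _, 0 => 0
  | u, r + 1 => u + rem (u + 1) r

theorem sq_eq {β : Type} (m : ℕ) (k : ℕ → β) : sq m k = k m := by
  cases m <;> rfl

theorem frcL_eq {β : Type} (l : List ℕ) (k : List ℕ → β) : frcL l k = k l := by
  induction l generalizing k with
  | nil => rfl
  | cons a l ih =>
    show frc a (fun b => frcL l fun t => k (b :: t)) = _
    rw [frc_eq, ih]

theorem pv_congr {W n : ℕ} {c c' : ℕ → ℕ[X]} (h : ∀ i < n, c i = c' i) : pv W n c = pv W n c' :=
  sum_congr rfl fun i hi => by rw [h i (mem_range.1 hi)]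

theorem pv_zero (W n : ℕ) : pv W n (fun _ => 0) = 0 := by simp [pv]

theorem pv_add (W n : ℕ) (c c' : ℕ → ℕ[X]) :
    pv W n c + pv W n c' = pv W n fun i => c i + c' i := by
  simp [pv, mul_add, sum_add_distrib]

theorem pv_mul (W n a : ℕ) (c : ℕ → ℕ[X]) : a * pv W n c = pv W n fun i => C a * c i := by
  simp only [pv, mul_sum, eval_mul, eval_C]
  exact sum_congr rfl fun i _ => by ring

theorem pv_pol (W n : ℕ) (p : ℕ[X]) (c : ℕ → ℕ[X]) :
    p.eval (2 ^ (W * n)) * pv W n c = pv W n fun i => p * c i := by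
  simp only [pv, mul_sum, eval_mul]
  exact sum_congr rfl fun i _ => by ring

theorem pv_shift (W n e : ℕ) (c : ℕ → ℕ[X]) :
    Nat.shiftLeft (pv W n c) (e * (W * n)) = pv W n fun i => X ^ e * c i := by
  rw [← pv_pol, eval_pow, eval_X, ← pow_mul, mul_comm (W * n) e, mul_comm (2 ^ _)]
  exact Nat.shiftLeft_eq _ _

theorem pv_shift1 (W n : ℕ) (c : ℕ → ℕ[X]) :
    Nat.shiftLeft (pv W n c) (W * n) = pv W n fun i => X * c i := by
  simpa using pv_shift W n 1 c

theorem df_add (a b : ℕ) : df a b + Nat.land a b = a := by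
  show (a ^^^ a &&& b) + (a &&& b) = a
  induction a using Nat.strong_induction_on generalizing b with
  | _ a ih =>
    rcases Nat.eq_zero_or_pos a with rfl | h
    · simp
    have h1 := ih (a / 2) (by omega) (b / 2)
    rw [← Nat.and_div_two, ← Nat.xor_div_two] at h1
    have h2 := @Nat.xor_mod_two_eq_one a (a &&& b)
    have h3 := @Nat.and_mod_two_eq_one a b
    omega

theorem IsM.df_eq {W n R M : ℕ} {m : ℕ → Bool} (h : IsM W n R M m) {c : ℕ → ℕ[X]} {e b : ℕ}
    (hc : Bd n c e b) (he : e < R) (hb : b < 2 ^ W) :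
    df (pv W n c) M = pv W n fun i => if m i = true then 0 else c i := by
  have h1 := df_add (pv W n c) M
  rw [h c e b hc he hb] at h1
  have h2 := (pv_add W n (fun i => if m i = true then 0 else c i)
    fun i => if m i = true then c i else 0).trans
      (pv_congr (c' := c) fun i _ => by by_cases k : m i = true <;> simp [k])
  omega

theorem IsM.congr {W n R M : ℕ} {m m' : ℕ → Bool} (h : IsM W n R M m) (e : ∀ i < n, m i = m' i) :
    IsM W n R M m' := fun c e' b h1 h2 h3 =>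
  (h c e' b h1 h2 h3).trans (pv_congr fun i hi => by rw [e i hi])

theorem Bd.ite {n e b : ℕ} {c : ℕ → ℕ[X]} (h : Bd n c e b) (m : ℕ → Prop) [DecidablePred m] :
    Bd n (fun i => if m i then c i else 0) e b ∧ Bd n (fun i => if m i then 0 else c i) e b :=
  ⟨fun i hi => by by_cases k : m i <;> simp [k, h i hi],
    fun i hi => by by_cases k : m i <;> simp [k, h i hi]⟩

theorem Bd.mono {n e b e' b' : ℕ} {c : ℕ → ℕ[X]} (h : Bd n c e b) (he : e ≤ e') (hb : b ≤ b') :
    Bd n c e' b' := fun i hi => ⟨(h i hi).1.trans he, (h i hi).2.trans hb⟩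

theorem IsM.df {W n R M M' : ℕ} {m m' : ℕ → Bool} (h : IsM W n R M m) (h' : IsM W n R M' m') :
    IsM W n R (df M M') fun i => m i && !m' i := fun c e b h1 h2 h3 => by
  have k : Nat.land (pv W n c) (H.df M M') = H.df (Nat.land (pv W n c) M) M' :=
    Nat.eq_of_testBit_eq fun i => by
      simp only [← tb_eq, tb_land, tb_df, Bool.and_assoc]
  rw [k, h c e b h1 h2 h3, h'.df_eq (h1.ite fun i => m i = true).1 h2 h3]
  exact pv_congr fun i _ => by
    by_cases a : m i = true <;> by_cases a' : m' i = true <;> simp [a, a']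

theorem av_add (x : ℝ) (p q : ℕ[X]) : av x (p + q) = av x p + av x q := map_add _ _ _

theorem av_mul (x : ℝ) (p q : ℕ[X]) : av x (p * q) = av x p * av x q := map_mul _ _ _

theorem av_C (x : ℝ) (a : ℕ) : av x (C a) = a := by simp [av]

theorem av_X (x : ℝ) : av x X = -ee x := by simp [av]

theorem av_pow (x : ℝ) (p : ℕ[X]) (e : ℕ) : av x (p ^ e) = av x p ^ e := map_pow _ _ _

theorem av_zero (x : ℝ) : av x 0 = 0 := map_zero _

theorem av_one (x : ℝ) : av x 1 = 1 := map_one _

end Pool.Agent.Lib.MP_efe3d7_co.J
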