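import Pool.Agent.Lib.MP_efe3d7_co.J.EvL
import Pool.Agent.Lib.MP_efe3d7_co.J.EvK

/-! The value of a window and of the columns. -/

set_option autoImplicit false

open Finset Polynomial

namespace Pool.Agent.Lib.MP_efe3d7_co.J

open H

variable {D : MD} {n R : ℕ} {q : ℕ → ℕ × ℕ}

/-- One edge between terminals. -/
def evtS (D : MD) (w i j t : ℕ) : ℕ :=
  frc (dig w j) fun e =>
    bif Nat.beq e 1 then sq t fun U => df U (mo D i j) else
    bif Nat.beq e 2 then sq t fun U => hvy D.row (mo D i j) U else t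

/-- The edges from `i` to the first `j` terminals. -/
def evtI (D : MD) (w i r j : ℕ) : ℕ := Nat.rec r (fun j t => evtS D w i j t) j

/-- The edges among the first `t` terminals. -/
def evtO (D : MD) (ct V t : ℕ) : ℕ :=
  Nat.rec V (fun i r => frc (Nat.shiftRight ct (Nat.mul 48 i)) fun w => evtI D w i r i) t

theorem evt_dig (ct : ℕ) {i j : ℕ} (hj : j < i) :
    dig (Nat.shiftRight ct (Nat.mul 48 i)) j = ty ct i j := by
  have e : px i j = 16 * i + j := by
    have : Nat.ble i j = false := by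
      rw [Bool.eq_false_iff]; intro k; have := Nat.le_of_ble_eq_true k; omega
    unfold px
    rw [this]
    rfl
  unfold ty
  rw [e]
  show (ct >>> (48 * i)) >>> (3 * j) % 8 = ct >>> (3 * (16 * i + j)) % 8
  rw [← Nat.shiftRight_add]
  congr 2
  omega

theorem evt_step (h : MOk D n R q) {w i j e b : ℕ} (hi : i < D.s) (hj : j < D.s) {c : ℕ → ℕ[X]}
    (hc : Bd n c e b) (he : e < R) (hb : b < 2 ^ D.W) :
    ∃ c' : ℕ → ℕ[X], evtS D w i j (pv D.W n c) = pv D.W n c' ∧ Bd n c' (e + 1) b ∧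
      ∀ l < n, ∀ x, av x (c' l) = av x (c l) *
        if dig (q l).1 j = dig (q l).1 i then wn (ee x) (dig w j) else 1 := by
  have hm := h.mo hi hj
  unfold evtS
  rw [frc_eq]
  by_cases e1 : dig w j = 1
  · refine ⟨_, by rw [e1]; exact (sq_eq (pv D.W n c) fun U => df U (mo D i j)).trans (hm.df_eq hc he hb),
      (hc.ite _).2.mono (Nat.le_succ _) le_rfl, fun l _ x => ?_⟩
    by_cases k : dig (q l).1 i = dig (q l).1 j
    · simp [k, e1, wn, av_zero]
    · simp [k, Ne.symm k]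
  by_cases e2 : dig w j = 2
  · refine ⟨_, by rw [e2, h.row]; exact (sq_eq _ _).trans (hvy_eq hm hc he hb), fun l hl => ?_,
      fun l _ x => ?_⟩
    · have := hc l hl
      by_cases k : dig (q l).1 i = dig (q l).1 j
      · simp only [k, decide_true, if_true, eval_mul, eval_X, one_mul]
        refine ⟨natDegree_mul_le.trans ?_, this.2⟩
        have := natDegree_X_le (R := ℕ)
        omega
      · simp only [k, decide_false, Bool.false_eq_true, if_false, one_mul]
        exact ⟨by omega, this.2⟩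
    · by_cases k : dig (q l).1 i = dig (q l).1 j
      · simp [k, e2, wn, av_mul, av_X, mul_comm]
      · simp [k, Ne.symm k]
  · refine ⟨c, ?_, hc.mono (Nat.le_succ _) le_rfl, fun l _ x => by simp [wn, e1, e2]⟩
    have k1 : Nat.beq (dig w j) 1 = false := by
      rw [Bool.eq_false_iff]; exact fun k => e1 (Nat.eq_of_beq_eq_true k)
    have k2 : Nat.beq (dig w j) 2 = false := by
      rw [Bool.eq_false_iff]; exact fun k => e2 (Nat.eq_of_beq_eq_true k)
    rw [k1, k2]
    rfl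

theorem evt_in (h : MOk D n R q) {w i e b : ℕ} (hi : i < D.s) {c : ℕ → ℕ[X]}
    (hc : Bd n c e b) (hb : b < 2 ^ D.W) (j : ℕ) (hj : j ≤ i) (he : e + j ≤ R) :
    ∃ c' : ℕ → ℕ[X], evtI D w i (pv D.W n c) j = pv D.W n c' ∧ Bd n c' (e + j) b ∧
      ∀ l < n, ∀ x, av x (c' l) = av x (c l) * ∏ u ∈ range j,
        if dig (q l).1 u = dig (q l).1 i then wn (ee x) (dig w u) else 1 := by
  induction j with
  | zero => exact ⟨c, rfl, hc, fun l _ x => by simp⟩
  | succ j ih =>
    obtain ⟨c1, k1, k2, k3⟩ := ih (by omega) (by omega)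
    obtain ⟨c2, l1, l2, l3⟩ := evt_step h (w := w) hi (j := j) (by omega) k2 (by omega) hb
    refine ⟨c2, ?_, l2, fun l hl x => ?_⟩
    · show evtS D w i j (evtI D w i (pv D.W n c) j) = _
      rw [k1, l1]
    · rw [l3 l hl, k3 l hl, prod_range_succ, mul_assoc]

theorem evt_out (h : MOk D n R q) (ct : ℕ) {e b : ℕ} {c : ℕ → ℕ[X]}
    (hc : Bd n c e b) (hb : b < 2 ^ D.W) (t : ℕ) (ht : t ≤ D.s)
    (he : e + ∑ i ∈ range t, i ≤ R) :
    ∃ c' : ℕ → ℕ[X], evtO D ct (pv D.W n c) t = pv D.W n c' ∧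
      Bd n c' (e + ∑ i ∈ range t, i) b ∧ ∀ l < n, ∀ x, av x (c' l) = av x (c l) *
        ∏ u ∈ range t, facR (ee x) ct (q l).1 u (dig (q l).1 u) := by
  induction t with
  | zero => exact ⟨c, rfl, by simpa using hc, fun l _ x => by simp⟩
  | succ t ih =>
    rw [sum_range_succ, ← add_assoc] at he ⊢
    obtain ⟨c1, k1, k2, k3⟩ := ih (by omega) (by omega)
    obtain ⟨c2, l1, l2, l3⟩ := evt_in h (w := Nat.shiftRight ct (Nat.mul 48 t)) (i := t)
      (by omega) k2 hb t le_rfl he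
    refine ⟨c2, ?_, l2, fun l hl x => ?_⟩
    · show frc (Nat.shiftRight ct (Nat.mul 48 t))
        (fun w => evtI D w t (evtO D ct (pv D.W n c) t) t) = _
      rw [frc_eq, k1, l1]
    · rw [l3 l hl, k3 l hl, prod_range_succ, mul_assoc]
      congr 2
      exact prod_congr rfl fun u hu => by rw [evt_dig ct (mem_range.1 hu)]

theorem evt_cnt {s ni : ℕ} (h6 : s ≤ 6) (h8 : s + ni ≤ 8) :
    ∑ i ∈ range s, i + rem s ni ≤ 28 := by
  have : ni ≤ 8 := by omega
  interval_cases s <;> interval_cases ni <;> first | omega | decide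

theorem win_spec (h : MOk D n R q) {ni e b : ℕ} (ct : ℕ) {c : ℕ → ℕ[X]} (h8 : D.s + ni ≤ 8)
    (hc : Bd n c e b) (he : e + 28 < R) (hb : b * 8192 ^ ni < 2 ^ D.W) :
    ∃ dP dN : ℕ → ℕ[X],
      (∀ (β : Type) (k : ℕ → ℕ → β), win D ni ct (pv D.W n c) k = k (pv D.W n dP) (pv D.W n dN)) ∧
      ∀ i < n, (dP i).natDegree ≤ e + 28 ∧ (dN i).natDegree ≤ e + 28 ∧
        (dP i).eval 1 + (dN i).eval 1 ≤ b * 8192 ^ ni ∧
        ∀ x, av x (dP i) - av x (dN i) =
          av x (c i) * (287 ^ ni * (-1) ^ ni * valR x D.s ni ct (q i).1 (q i).2) := by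
  have hcnt := evt_cnt h.s6 h8
  have hb' : b < 2 ^ D.W :=
    lt_of_le_of_lt (Nat.le_mul_of_pos_right _ (by positivity)) hb
  obtain ⟨c1, k1, k2, k3⟩ := evt_out h ct hc hb' D.s le_rfl (by omega)
  obtain ⟨dP, dN, l1, l2⟩ := lev_spec h he (lsOf D.s ct ni 0) 0 0 _ b [] c1 (fun _ => 0)
    (fun _ => 0) (lsOf_ok _ _ _ _) le_rfl (by rw [lsOf_len]; omega) k2
    (by rw [lsOf_len, add_zero]; omega) (by rwa [lsOf_len]) (fun i _ => by simp)
  refine ⟨dP, dN, fun β k => ?_, fun i hi => ?_⟩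
  · have e : trm D ct (pv D.W n c) = evtO D ct (pv D.W n c) D.s := rfl
    unfold win
    rw [sq_eq, mkL_eq, e, k1, ← l1 β k, pv_zero]
  · obtain ⟨m1, m2, m3, m4⟩ := l2 i hi
    refine ⟨m1, m2, by simpa [lsOf_len] using m3, fun x => ?_⟩
    have e := levR_eq x ct h.s1 h8 (h.rg i hi)
    have s2 : (-1 : ℝ) ^ ni * (-1) ^ ni = 1 := by rw [← mul_pow]; simp
    rw [m4, k3 i hi, show q i = ((q i).1, (q i).2) from rfl, e, av_zero]
    unfold valR
    linear_combination (-(av x (c i) * 287 ^ ni *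
      (∏ u ∈ range D.s, facR (ee x) ct (q i).1 u (dig (q i).1 u)) *
      (locP (ee x) ct ni D.s (q i).1 (q i).2).eval (1 + x))) * s2

end Pool.Agent.Lib.MP_efe3d7_co.J
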