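import Pool.Agent.Lib.MP_efe3d7_co.J.All
import Pool.Agent.Lib.MP_efe3d7_co.H.Exp
import Pool.Agent.Lib.MP_efe3d7_co.R10

/-! The complete bipartite graph and the passage to graphs. -/

set_option autoImplicit false

open Finset

namespace Pool.Agent.Lib.MP_efe3d7_co.J

open H

/-- The chromatic polynomial of the complete bipartite graph with parts of size three and four. -/
noncomputable def pK (y : ℝ) : ℝ :=
  y * (y - 1) ^ 4 + 3 * y * (y - 1) * (y - 2) ^ 4 + y * (y - 1) * (y - 2) * (y - 3) ^ 4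

theorem hk_val : val 0 7 (xt 10) 0 0 = [0, 13, -23, 2, 17, -15, 5, -1] := by decide +kernel

theorem hk_ty : ∀ i < 7, ∀ j < i, ty (xt 10) i j ≤ 1 := by decide +kernel

variable {α : Type} [Fintype α] [DecidableEq α] {x : ℝ}

theorem hk_eq (hx : 0 < x) {V : Finset α} {τ : Sym2 α → Fin 3} (h : Iso 7 (xt 10) V τ) :
    FF x V τ = -pK (1 + x) := by
  obtain ⟨v, inj, hV, tp⟩ := h
  obtain ⟨R, hR⟩ := H.expand hx (∅ : Finset α) (fun _ => 1) v 0 (by simp) (by simp)
  have r0 := hR 0 0 (fun _ => 1) (by omega) (by simp) (by simp) (by simp) (by simp) (by simp)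
    (by simp)
  have r1 := hR 7 (xt 10) (fun e => wt (ee x) (τ e)) (by omega) inj (by simp)
    (by simp) (by simp) (by simp) fun i _ hi j hj => by
      have k := hk_ty i hi j hj
      rw [wt_wn, tp i hi j (by omega) (by omega), wn, wn, if_neg (show _ ≠ 2 by omega),
        if_neg (show _ ≠ 2 by omega)]
  rw [ff_ones hx (by simp)] at r0
  simp only [parts, List.map_cons, List.map_nil, List.sum_cons, List.sum_nil, add_zero] at r0 r1
  rw [ev_val] at r0
  simp only [locP, Ico_self, image_empty, union_empty, card_empty, pow_zero, range_zero,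
    prod_empty, Polynomial.eval_one, mul_one] at r0
  rw [empty_union, zero_add, ← range_eq_Ico, ← hV, ← r0, hk_val] at r1
  rw [FF, r1, pK]
  simp only [ev_cons, ev_nil]
  push_cast
  ring

theorem pK_neg {q y : ℝ} (h : ∀ y : ℝ, 1 < y → y ≤ q → pK y ≠ 0) (h1 : 5 / 4 ≤ y) (h2 : y ≤ q) :
    pK y < 0 := by
  by_contra k
  obtain ⟨z, hz, e⟩ := intermediate_value_Icc h1 (f := pK)
    (by unfold pK; fun_prop) (show (0 : ℝ) ∈ _ from ⟨by unfold pK; norm_num, not_lt.1 k⟩)
  exact h z (by linarith [hz.1]) (hz.2.trans h2) e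

theorem main_of (P : ∀ (n : ℕ) (x : ℝ), Iv x → HK (Fin n) x →
      Roots (Fin n) x ∧ Fans (Fin n) x ∧ Wins (Fin n) x ∧ Clus (Fin n) x)
    (n : ℕ) (G : SimpleGraph (Fin n)) [DecidableRel G.Adj] (hn : 4 ≤ n)
    (hG : ∀ S : Finset (Fin n), S.card ≤ 2 → (G.induce ((↑S : Set (Fin n))ᶜ)).Connected)
    (q : ℝ) (h1 : 1 < q) (h2 : ∀ y : ℝ, 1 < y → y ≤ q → pK y ≠ 0) :
    0 < (-1 : ℝ) ^ n * ∑ T ∈ G.edgeFinset.powerset, (-1 : ℝ) ^ T.card *
      q ^ Nat.card (SimpleGraph.fromEdgeSet (↑T : Set (Sym2 (Fin n)))).ConnectedComponent := by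
  obtain ⟨x, rfl⟩ : ∃ x, q = 1 + x := ⟨q - 1, by ring⟩
  have hx : 0 < x := by linarith
  rcases le_total x (1 / 4) with k | k
  · obtain ⟨μ, L, p⟩ := pn_of hx k
    exact chrom_pos_root2 p G (by omega) ⟨0, by omega⟩ (hG _ (by simp)) fun S a _ => hG S a
  have i : Iv x := ⟨k, le_of_not_gt fun e => absurd
    (pK_neg h2 (y := 846 / 475) (by norm_num) (by linarith)) (by unfold pK; norm_num)⟩
  have hK : HK (Fin n) x := fun V τ e => by
    rw [hk_eq hx e]
    exact neg_pos.2 (pK_neg h2 (by linarith) le_rfl)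
  obtain ⟨a, b, c, d⟩ := P n x i hK
  have h := pos_of_red (red_all i hK a b c d) _ _ (con3_of_conn G hn hG)
    (nx_not_exc (Or.inr (Or.inl fun a _ b _ _ => by dsimp only; split_ifs <;> decide)))
  have e : (fun e => wt (ee x) (if e ∈ G.edgeFinset then 1 else 0)) =
      fun e => if e ∈ G.edgeFinset then (0 : ℝ) else 1 := by
    funext e
    split_ifs
    exacts [wt1 _, wt0 _]
  rwa [FF, e, whitney_eq hx G] at h

end Pool.Agent.Lib.MP_efe3d7_co.J
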