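import Pool.Agent.Lib.MP_efe3d7_co.J.P0a
import Pool.Agent.Lib.MP_efe3d7_co.H.Fr3
import Pool.Agent.Lib.MP_efe3d7_co.H.Fr5

/-! Regions without the configurations are cubic. -/

set_option autoImplicit false

open Finset

namespace Pool.Agent.Lib.MP_efe3d7_co.J

open H

variable {α : Type} [DecidableEq α] {V Q T : Finset α} {τ : Sym2 α → Fin 3}

theorem p0_doors (h : Thick V τ Q T) : (envR V τ Q T).Dr.card ≤ 3 ∧
    (3 ≤ (envR V τ Q T).Dr.card → ∀ t ∈ T, ∃ d ∈ (envR V τ Q T).Dr, nb V τ t ∩ Q = {d}) := by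
  have k : ∀ d ∈ (envR V τ Q T).Dr, ∃ t ∈ T, nb V τ t ∩ Q = {d} := fun d hd => (fr3_dr.1 hd).2
  choose! g g1 g2 using k
  have a : (envR V τ Q T).Dr.card ≤
      (T.filter fun t => ∃ d ∈ (envR V τ Q T).Dr, nb V τ t ∩ Q = {d}).card :=
    card_le_card_of_injOn g (fun d hd => mem_coe.2 (mem_filter.2 ⟨g1 d hd, d, hd, g2 d hd⟩))
      fun d hd d' hd' e => singleton_injective ((g2 d hd).symm.trans (e ▸ g2 d' hd'))
  refine ⟨a.trans ((card_filter_le _ _).trans h.cT.le), fun b t ht => ?_⟩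
  rw [← eq_of_subset_of_card_le (filter_subset _ T) (h.cT.le.trans (b.trans a))] at ht
  exact (mem_filter.1 ht).2

theorem p0_out {B : Finset α} {a b c : α} (h3 : dg V τ a = 3) (hb : b ∈ nb V τ a)
    (hc : c ∈ nb V τ a) (e : b ≠ c) (b1 : b ∈ B) (c1 : c ∈ B) : (nb V τ a \ B).card ≤ 1 := by
  have := card_sdiff_add_card_inter (nb V τ a) B
  have := fr1a_two (mem_inter.2 ⟨hb, b1⟩) (mem_inter.2 ⟨hc, c1⟩) e
  unfold dg at h3
  omega

theorem cub_R (hc : Con3 V τ) (h : MinThick V τ Q T) (hq : 3 ≤ (core V τ Q T).card)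
    (hA : ∀ v, ¬ Sat kA V τ (envR V τ Q T) v) (hM : ∀ v, ¬ Sat kM V τ (envR V τ Q T) v)
    (hC : ∀ v, ¬ Sat kC V τ (envR V τ Q T) v) {y : α} (hy : y ∈ core V τ Q T)
    (h3 : dg V τ y = 3) : Cub V τ Q (envR V τ Q T).Dr False := by
  have O : Ok mQ V τ (envR V τ Q T) :=
    ok_R hc h mQ rfl rfl rfl (fun _ => hq) (fun e => by cases e) fun e => by cases e
  obtain ⟨d1, d2⟩ := p0_doors h.1
  have dr : ∀ d ∈ (envR V τ Q T).Dr, d ∈ Q ∧ ∃ t ∈ T, nb V τ t ∩ Q = {d} := fun _ => fr3_dr.1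
  have t0 : ∀ d ∈ (envR V τ Q T).Dr, 2 ≤ (nb V τ d ∩ (Q \ (envR V τ Q T).Dr)).card :=
    fun d hd => O.t0 rfl d (Or.inl hd)
  have f1 : ∀ a ∈ Q, a ∉ (envR V τ Q T).Dr → dg V τ a = 3 → ∀ p ∈ nb V τ a,
      τ s(p, a) = 1 ∧ p ∈ Q ∧ dg V τ p = 3 := fun a ha hd e p hp => by
    have m := h.1.cov a ha p hp
    have n := (mem_nb.1 hp).2.1
    have t : τ s(p, a) = 1 := p0_one (mem_nb.1 (nb_symm (h.1.subQ ha) hp)).2.2
      fun f => hA _ (sat_A ha hd e m n f)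
    have k : ds V τ (envR V τ Q T) p = 3 := le_antisymm
      (Nat.le_of_lt_succ (lt_of_not_ge fun f => hM _ (sat_M ha hd e m n t f))) (O.ds3 p m)
    have q : p ∈ Q := m.resolve_right fun f => hd (O.dr2 a ha p f hp k)
    exact ⟨t, q, (fr3_dsQ q).symm.trans k⟩
  have a1 : ∀ B U : Finset α, B ⊆ Q → B.Nonempty → Cov V τ B U → 3 ≤ U.card :=
    fun B U a => O.a1 (Or.inl rfl) B U ⟨a, fun _ e => by cases e⟩
  have a2 : ∀ B U : Finset α, B ⊆ Q → 2 ≤ B.card → Cov V τ B U → U.card ≤ 3 →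
      Q \ (envR V τ Q T).Dr ⊆ B := fun B U a b c d z hz => by
    obtain ⟨k1, k2, -⟩ := O.a2 (Or.inl rfl) B (U \ B) ⟨a, fun _ e => by cases e⟩ b c.sdiff
      disjoint_sdiff ((card_le_card sdiff_subset).trans d)
    obtain ⟨z1, z2⟩ := mem_sdiff.1 hz
    by_contra f
    exact O.dis z z1 (k1 z (Or.inl z1) f fun g => z2 (k2 z g z1)).1
  have sf := O.safe (Or.inl rfl)
  unfold core at hq hy
  generalize hD : (envR V τ Q T).Dr = D at *
  have dQ : D ⊆ Q := fun d hd => (dr d hd).1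
  obtain ⟨B, hB⟩ : ∃ B : Finset α, ∀ z, z ∈ B ↔ (z ∈ Q ∧ z ∉ D) ∧ dg V τ z = 3 :=
    ⟨(Q \ D).filter fun z => dg V τ z = 3, fun z => by rw [mem_filter, mem_sdiff]⟩
  have cB : Cov V τ B D := fun a ha b hb => by
    obtain ⟨⟨a1, a2⟩, a3⟩ := (hB a).1 ha
    obtain ⟨-, b1, b2⟩ := f1 a a1 a2 a3 b hb
    by_cases e : b ∈ D
    exacts [Or.inr e, Or.inl ((hB b).2 ⟨⟨b1, e⟩, b2⟩)]
  have yB : y ∈ B := (hB y).2 ⟨mem_sdiff.1 hy, h3⟩
  have BQ : B ⊆ Q := fun z hz => ((hB z).1 hz).1.1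
  have d3 := a1 B D BQ ⟨y, yB⟩ cB
  have c3 : Q \ D ⊆ B := by
    by_cases e : 2 ≤ B.card
    · exact a2 B D BQ e cB d1
    refine absurd (a2 ((Q \ D).erase y) D ((erase_subset _ _).trans sdiff_subset)
      (by rw [card_erase_of_mem hy]; omega) (fun a ha b hb => ?_) d1 hy) (notMem_erase _ _)
    obtain ⟨a0, a3⟩ := mem_erase.1 ha
    obtain ⟨a1, a2⟩ := mem_sdiff.1 a3
    have k := nb_symm (h.1.subQ a1) hb
    rcases h.1.cov a a1 b hb with f | f
    · by_cases g : b ∈ D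
      · exact Or.inr g
      refine Or.inl (mem_erase.2 ⟨?_, mem_sdiff.2 ⟨f, g⟩⟩)
      rintro rfl
      exact e (fr1a_two ((hB a).2 ⟨⟨a1, a2⟩, (f1 b f g h3 a k).2.2⟩) yB a0)
    · obtain ⟨d, hd, g⟩ := d2 d3 b f
      exact absurd (mem_singleton.1 (g ▸ mem_inter.2 ⟨k, a1⟩) ▸ hd) a2
  have c4 : ∀ z ∈ Q, z ∉ D → dg V τ z = 3 := fun z a b => ((hB z).1 (c3 (mem_sdiff.2 ⟨a, b⟩))).2
  have cub : ∀ z ∈ Q, dg V τ z = 3 := fun z a => by
    by_cases b : z ∈ D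
    · obtain ⟨p, hp⟩ := card_pos.1 (show 0 < _ from lt_of_lt_of_le two_pos (t0 z b))
      obtain ⟨p1, p2⟩ := mem_inter.1 hp
      obtain ⟨p3, p4⟩ := mem_sdiff.1 p2
      exact (f1 p p3 p4 (c4 p p3 p4) z (nb_symm (h.1.subQ a) p1)).2.2
    · exact c4 z a b
  have dd : ∀ d ∈ D, ∀ d' ∈ D, d' ∉ nb V τ d := fun d hd d' hd' => by
    obtain ⟨-, t, ht, e⟩ := dr d hd
    obtain ⟨-, t', ht', e'⟩ := dr d' hd'
    have := card_sdiff_add_card_eq_card dQ
    exact h.door_two hc (by omega) ht ht' e e'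
  have hard : ∀ a ∈ Q, ∀ b ∈ Q, a ≠ b → τ s(a, b) ≠ 2 := fun a ha b hb e f => by
    have k : b ∈ nb V τ a := mem_nb.2 ⟨h.1.subQ hb, e.symm, by rw [f]; decide⟩
    by_cases g : a ∈ D
    · have l := (f1 b hb (fun l => dd a g b l k) (cub b hb) a (nb_symm (h.1.subQ ha) k)).1
      rw [f] at l
      cases l
    · have l := (f1 a ha g (cub a ha) b k).1
      rw [Sym2.eq_swap, f] at l
      cases l
  have tri : ∀ a ∈ Q, ∀ b ∈ nb V τ a, ∀ c ∈ nb V τ a, b ∈ Q → c ∈ Q → c ∉ nb V τ b := by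
    intro a ha b hb c hc' bQ cQ e
    have o : ∀ z ∈ ({a, b, c} : Finset α), (nb V τ z \ {a, b, c}).card ≤ 1 := by
      intro z hz
      simp only [mem_insert, mem_singleton] at hz
      rcases hz with rfl | rfl | rfl
      · exact p0_out (cub _ ha) hb hc' (mem_nb.1 e).2.1.symm (by simp) (by simp)
      · exact p0_out (cub _ bQ) (nb_symm (h.1.subQ ha) hb) e (mem_nb.1 hc').2.1.symm (by simp)
          (by simp)
      · exact p0_out (cub _ cQ) (nb_symm (h.1.subQ ha) hc') (nb_symm (h.1.subQ bQ) e)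
          (mem_nb.1 hb).2.1.symm (by simp) (by simp)
    have k3 : ({a, b, c} : Finset α).card ≤ 3 := card_le_three
    have k := a2 {a, b, c} (({a, b, c} : Finset α).biUnion fun z => nb V τ z \ {a, b, c})
      (by simp [insert_subset_iff, ha, bQ, cQ])
      (fr1a_two (a := a) (b := b) (by simp) (by simp) (mem_nb.1 hb).2.1.symm)
      (fun p hp q hq => (em _).imp id fun f => mem_biUnion.2 ⟨p, hp, mem_sdiff.2 ⟨hq, f⟩⟩)
      ((card_biUnion_le_card_mul _ _ 1 o).trans (by omega))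
    have k4 := eq_of_subset_of_card_le k (k3.trans hq)
    obtain ⟨p, hp, q, hq', f⟩ := one_lt_card.1 (show 1 < D.card by omega)
    have k5 := card_union_add_card_inter (nb V τ p ∩ (Q \ D)) (nb V τ q ∩ (Q \ D))
    have k6 := card_le_card (union_subset (inter_subset_right (s₁ := nb V τ p) (s₂ := Q \ D))
      (inter_subset_right (s₁ := nb V τ q)))
    have k7 := t0 p hp
    have k8 := t0 q hq'
    obtain ⟨z, hz⟩ := card_pos.1 (show 0 < (nb V τ p ∩ (Q \ D) ∩ (nb V τ q ∩ (Q \ D))).card by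
      rw [k4] at *; omega)
    simp only [mem_inter] at hz
    have k9 := o z (k4 ▸ hz.1.2)
    rw [← k4] at k9
    have := fr1a_two (s := nb V τ z \ (Q \ D))
      (mem_sdiff.2 ⟨nb_symm (h.1.subQ (dQ hp)) hz.1.1, fun g => (mem_sdiff.1 g).2 hp⟩)
      (mem_sdiff.2 ⟨nb_symm (h.1.subQ (dQ hq')) hz.2.1, fun g => (mem_sdiff.1 g).2 hq'⟩) f
    omega
  refine ⟨h.1.subQ, dQ, by omega, hq, cub, hard, tri, sat_C' (E := envR V τ Q T) h.1.subQ cub hard
    tri hC, fun v a b p hp => (f1 v a b (cub v a) p hp).2.1, fun d hd => ?_, dd,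
    fun B U a _ => a1 B U a, fun B U a _ => a2 B U a, fun V' τ' s1 s2 s3 s4 => sf V' τ' ?_,
    fun _ => ?_, False.elim⟩
  · obtain ⟨a, t, ht, e⟩ := dr d hd
    have k1 := (t0 d hd).trans (card_le_card (inter_subset_inter_left sdiff_subset))
    have k2 := card_sdiff_add_card_inter (nb V τ d) Q
    have k3 := card_pos.2 ⟨t, mem_sdiff.2 ⟨nb_symm (h.1.subT ht) (fr3_door e).1,
      disjoint_right.1 h.1.dis ht⟩⟩
    have k4 := cub d a
    unfold dg at k4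
    omega
  · have m : ∀ a ∈ V, a ∉ Q → a ∈ V' := fun a b c => by
      by_contra f
      exact c (s2 a b f).1
    obtain ⟨d, hd⟩ := card_pos.1 (show 0 < D.card by omega)
    refine ⟨s1, fun a b c => (s2 a b c).1, fun a ha b hb _ c d e => ?_, fun a ha c b hb => ?_,
      fun _ e => (by cases e), Or.inl ⟨d, ?_, dQ hd⟩,
      fun B S a b c d => s4 B S a c.1 False.elim b d⟩
    · rwa [s3 a (m a ha c) b (m b hb d) d]
    · obtain ⟨b1, b2, b3⟩ := mem_nb.1 hb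
      by_cases e : b ∈ Q
      · exact Or.inl e
      · rw [s3 a ha b b1 e] at b3
        exact Or.inr (Or.inl ((h.1.cov a c b (mem_nb.2 ⟨s1 b1, b2, b3⟩)).resolve_left e))
    · by_contra f
      exact (s2 d (h.1.subQ (dQ hd)) f).2 hd
  · exact h.1.cT.ge.trans (card_le_card fun t ht =>
      mem_sdiff.2 ⟨h.1.subT ht, disjoint_right.1 h.1.dis ht⟩)

theorem cub_W (hc : Con3 V τ) (h : NoThick V τ) (h5 : 5 ≤ V.card)
    (hard : ∀ a ∈ V, ∀ b ∈ V, a ≠ b → τ s(a, b) ≠ 2) (hF : ∀ v, ¬ Sat kF V τ (envF V) v)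
    (hC : ∀ v, ¬ Sat kC V τ (envF V) v) {w : α} (hw : w ∈ V) (h3 : dg V τ w = 3) :
    Cub V τ (V.erase w) (nb V τ w) True := by
  have O := ok_W hc h h5 hw h3
  have cub : ∀ v ∈ V, dg V τ v = 3 := fun v hv => by
    have k := hc.2 (V.filter fun z => dg V τ z = 3) ∅ (filter_subset _ _)
      ⟨w, mem_filter.2 ⟨hw, h3⟩⟩ (by simp) (fun a ha b hb => Or.inl ?_) hv
    · simpa [hv] using k
    obtain ⟨a1, a2⟩ := mem_filter.1 ha
    obtain ⟨b1, b2, -⟩ := mem_nb.1 hb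
    refine mem_filter.2 ⟨b1, le_antisymm (Nat.le_of_lt_succ (lt_of_not_ge fun f => hF _
      (sat_F a1 a2 b1 b2 (p0_one (mem_nb.1 (nb_symm a1 hb)).2.2 (hard b b1 a a1 b2)) f)))
      (hc.dg3 (by omega) b1)⟩
  have tri : ∀ a ∈ V, ∀ b ∈ nb V τ a, ∀ c ∈ nb V τ a, c ∉ nb V τ b :=
    fun a ha b hb c hc' => h.tri h5 ha hb hc'
  have c4 := sat_C' (E := envF V) Subset.rfl cub hard (fun a ha b hb c hc' _ _ =>
    tri a ha b hb c hc') hC
  have sub := erase_subset w V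
  have dQ : nb V τ w ⊆ V.erase w := fun d hd => mem_erase.2 ⟨(mem_nb.1 hd).2.1, nb_sub _ hd⟩
  have dout : ∀ d ∈ nb V τ w, (nb V τ d ∩ V.erase w).card = 2 := fun d hd => by
    rw [inter_erase, inter_eq_left.2 (nb_sub d), card_erase_of_mem (nb_symm hw hd)]
    have := cub d (nb_sub _ hd)
    unfold dg at this
    omega
  refine ⟨sub, dQ, h3, ?_, fun v a => cub v (sub a), fun a ha b hb => hard a (sub ha) b (sub hb),
    fun a ha b hb c hc' _ _ => tri a (sub ha) b hb c hc',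
    fun a ha b hb e u u1 z z1 u2 z2 => c4 a (sub ha) b (sub hb) e u u1 z z1 (sub u2) (sub z2),
    fun v a b p hp => mem_erase.2 ⟨?_, nb_sub _ hp⟩, dout, fun d hd d' hd' => tri w hw d hd d' hd',
    fun B U a b => O.a1 (Or.inr rfl) B U ⟨a, fun _ e => by cases e; exact b trivial⟩,
    fun B U a b c d e z hz => ?_, fun V' τ' s1 s2 s3 s4 => O.safe (Or.inr rfl) V' τ' ?_,
    fun e => absurd trivial e, fun _ => ⟨hard, cub⟩⟩
  · obtain ⟨p, hp, q, hq, f⟩ := one_lt_card.1 (show 1 < (nb V τ w).card by unfold dg at h3; omega)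
    have k : ∀ d ∈ nb V τ w, nb V τ d ∩ V.erase w ⊆ V.erase w \ nb V τ w := fun d hd z hz =>
      mem_sdiff.2 ⟨(mem_inter.1 hz).2, fun g => tri w hw d hd z g (mem_inter.1 hz).1⟩
    have k1 := card_le_card (union_subset (k p hp) (k q hq))
    rw [card_union_of_disjoint (disjoint_left.2 fun z z1 z2 => ?_), dout p hp, dout q hq] at k1
    · omega
    obtain ⟨z3, z4⟩ := mem_inter.1 z1
    exact (mem_erase.1 z4).1 (c4 p (nb_sub _ hp) q (nb_sub _ hq) f w (nb_symm hw hp) z z3 hw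
      (sub z4) (nb_symm hw hq) (mem_inter.1 z2).1)
  · rintro rfl
    exact b (nb_symm (sub a) hp)
  · obtain ⟨k1, k2, -⟩ := O.a2 (Or.inr rfl) B (U \ B) ⟨a, fun _ e => by cases e; exact b trivial⟩ c
      d.sdiff disjoint_sdiff ((card_le_card sdiff_subset).trans e)
    obtain ⟨z1, z2⟩ := mem_sdiff.1 hz
    by_contra f
    exact notMem_empty z (k1 z (Or.inl z1) f fun g => z2 (k2 z g z1)).1
  · have m : ∀ a ∈ V, a ∉ V.erase w → a = w := fun a b c => by simpa [b] using c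
    have w1 : w ∈ V' := by
      by_contra f
      exact notMem_erase w V (s2 w hw f).1
    have n : nb V' τ' w = nb V τ w := by
      ext z
      have e : z ∈ V' → τ' s(w, z) = τ s(w, z) := fun g => by
        rw [Sym2.eq_swap, s3 z g w w1 (notMem_erase w V), Sym2.eq_swap]
      constructor
      · intro g
        obtain ⟨g1, g2, g3⟩ := mem_nb.1 g
        exact mem_nb.2 ⟨s1 g1, g2, e g1 ▸ g3⟩
      · intro g
        obtain ⟨g1, g2, g3⟩ := mem_nb.1 g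
        have g4 : z ∈ V' := by
          by_contra f
          exact (s2 z g1 f).2 g
        exact mem_nb.2 ⟨g4, g2, (e g4).symm ▸ g3⟩
    obtain ⟨d, hd⟩ := card_pos.1 (show 0 < (nb V τ w).card by unfold dg at h3; omega)
    refine ⟨s1, fun a b c => (s2 a b c).1, fun a ha b hb e c d => ?_, fun a _ _ b hb => ?_,
      fun _ e => (by cases e; rw [dg, n]; exact h3), Or.inl ⟨d, nb_sub w (n ▸ hd), dQ hd⟩,
      fun B S a b c d => s4 B S a c.1 (fun _ => n ▸ c.2 w rfl) b d⟩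
    · exact absurd ((m a ha c).trans (m b hb d).symm) e
    · by_cases e : b ∈ V.erase w
      · exact Or.inl e
      · exact Or.inr (Or.inr (congrArg some (m b (s1 (nb_sub _ hb)) e).symm))

end Pool.Agent.Lib.MP_efe3d7_co.J
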