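import Pool.Agent.Lib.MP_efe3d7_co.J.Defs
import Pool.Agent.Lib.MP_efe3d7_co.G.D

/-! Features that exclude the exceptional graphs. -/

set_option autoImplicit false

open Finset

namespace Pool.Agent.Lib.MP_efe3d7_co.J

open H

variable {α : Type} [DecidableEq α] {V : Finset α} {τ : Sym2 α → Fin 3}

/-- Adjacency in a table. -/
def aT (ct i j : ℕ) : Prop := j ≠ i ∧ ty ct i j ≠ 0

instance (ct i j : ℕ) : Decidable (aT ct i j) := inferInstanceAs (Decidable (_ ∧ _))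

/-- The degree in a table. -/
def dT (n ct i : ℕ) : ℕ := ((range n).filter (aT ct i)).card

/-- More features that no exceptional graph has: a hard triangle, a cubic vertex with three heavy
edges, a vertex of degree at least six, two vertices of degree at least five. -/
def NX2 (V : Finset α) (τ : Sym2 α → Fin 3) : Prop :=
  NX V τ ∨
    (∃ a ∈ V, ∃ b ∈ V, ∃ c ∈ V, a ≠ b ∧ a ≠ c ∧ b ≠ c ∧
      τ s(a, b) = 1 ∧ τ s(a, c) = 1 ∧ τ s(b, c) = 1) ∨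
    (∃ v ∈ V, dg V τ v = 3 ∧ ∀ z ∈ nb V τ v, τ s(v, z) = 2) ∨
    (∃ v ∈ V, 6 ≤ dg V τ v) ∨ ∃ a ∈ V, ∃ b ∈ V, a ≠ b ∧ 5 ≤ dg V τ a ∧ 5 ≤ dg V τ b

theorem Iso.spec {n ct : ℕ} (h : Iso n ct V τ) :
    ∃ u : ℕ → α, V.card = n ∧ (∀ a ∈ V, ∃ i < n, u i = a) ∧ (∀ i < n, u i ∈ V) ∧
      (∀ i < n, ∀ j < n, u i = u j ↔ i = j) ∧
      (∀ i < n, ∀ j < n, i ≠ j → (τ s(u i, u j)).val = ty ct i j) ∧
      (∀ i < n, ∀ j < n, u j ∈ nb V τ (u i) ↔ aT ct i j) ∧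
      ∀ i < n, dg V τ (u i) = dT n ct i := by
  obtain ⟨u, h1, h2, h3⟩ := h
  have a1 : ∀ a ∈ V, ∃ i < n, u i = a := fun a ha => by simpa [h2] using ha
  have a2 : ∀ i < n, u i ∈ V := fun i hi => h2 ▸ mem_image_of_mem u (mem_range.2 hi)
  have a3 : ∀ i < n, ∀ j < n, u j ∈ nb V τ (u i) ↔ aT ct i j := fun i hi j hj => by
    rw [mem_nb, aT]
    constructor
    · rintro ⟨-, b, c⟩
      have d : j ≠ i := fun e => b (e ▸ rfl)
      exact ⟨d, fun e => c (Fin.ext ((h3 i hi j hj d.symm).trans e))⟩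
    · rintro ⟨b, c⟩
      exact ⟨a2 j hj, fun e => b (h1 j hj i hi e), fun e => c (by rw [← h3 i hi j hj b.symm, e]; rfl)⟩
  have a4 : ∀ s : Finset ℕ, s ⊆ range n → (s.image u).card = s.card := fun s hs =>
    card_image_of_injOn fun i hi j hj e => h1 i (mem_range.1 (hs hi)) j (mem_range.1 (hs hj)) e
  refine ⟨u, by rw [h2, a4 _ Subset.rfl, card_range], a1, a2,
    fun i hi j hj => ⟨h1 i hi j hj, fun e => e ▸ rfl⟩, h3, a3, fun i hi => ?_⟩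
  rw [dT, ← a4 _ (filter_subset _ _), dg]
  congr 1
  ext z
  rw [mem_image]
  constructor
  · intro hz
    obtain ⟨j, hj, rfl⟩ := a1 z (nb_sub _ hz)
    exact ⟨j, mem_filter.2 ⟨mem_range.2 hj, (a3 i hi j hj).1 hz⟩, rfl⟩
  · rintro ⟨j, hj, rfl⟩
    exact (a3 i hi j (mem_range.1 (mem_filter.1 hj).1)).2 (mem_filter.1 hj).2

/-- A hard pair off four vertices. -/
def X1H (n ct p r s z : ℕ) : Prop :=
  ∃ a < n, ∃ b < n, a ≠ b ∧ (a ≠ p ∧ a ≠ r ∧ a ≠ s ∧ a ≠ z) ∧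
    (b ≠ p ∧ b ≠ r ∧ b ≠ s ∧ b ≠ z) ∧ ty ct a b = 1

instance (n ct p r s z : ℕ) : Decidable (X1H n ct p r s z) := by
  unfold X1H
  infer_instance

/-- Facts on a pair. -/
def X1P (n ct a b : ℕ) : Prop :=
  (dT n ct a ≤ 4 ∨ dT n ct b ≤ 4) ∧
    (ty ct a b = 1 → ∀ c < n, a ≠ c → b ≠ c → ty ct a c = 1 → ty ct b c ≠ 1)

instance (n ct a b : ℕ) : Decidable (X1P n ct a b) := by
  unfold X1P
  infer_instance

/-- Facts on a vertex. -/
def X1V (n ct a : ℕ) : Prop :=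
  dT n ct a ≤ 5 ∧ (n = 7 → dT n ct a ≤ 4) ∧
    (dT n ct a = 3 → ∃ b < n, aT ct a b ∧ ty ct a b ≠ 2) ∧ ∀ b < n, a ≠ b → X1P n ct a b

instance (n ct a : ℕ) : Decidable (X1V n ct a) := by
  unfold X1V
  infer_instance

/-- No cubic triangle. -/
def X1C (n ct : ℕ) : Prop :=
  ¬ ∃ a < n, dT n ct a = 3 ∧ ∃ b < n, aT ct a b ∧ dT n ct b = 3 ∧ ∃ c < n, aT ct a c ∧
    aT ct b c ∧ dT n ct c = 3

instance (n ct : ℕ) : Decidable (X1C n ct) := by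
  unfold X1C
  infer_instance

/-- Two triangles on an edge leave a hard pair. -/
def X1D (n ct : ℕ) : Prop :=
  ¬ ∃ p < n, ∃ r < n, aT ct p r ∧ ∃ s < n, aT ct p s ∧ aT ct r s ∧ ∃ z < n, aT ct p z ∧
    aT ct r z ∧ z ≠ s ∧ ¬ X1H n ct p r s z

instance (n ct : ℕ) : Decidable (X1D n ct) := by
  unfold X1D
  infer_instance

/-- The facts on the tables. -/
def X1T (n ct : ℕ) : Prop :=
  n ≤ 7 ∧ (∃ a < n, ∃ b < n, a ≠ b ∧ ty ct a b = 2) ∧ (∃ a < n, dT n ct a ≠ 3) ∧ X1C n ct ∧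
    (∀ a < n, X1V n ct a) ∧ (n = 7 → X1D n ct)

instance (n ct : ℕ) : Decidable (X1T n ct) := by
  unfold X1T
  infer_instance

theorem x1_tab : ∀ j < 10, X1T (xn j) (xt j) := by decide +kernel

theorem NX2.not_exc (h : NX2 V τ) : ¬ Exc V τ := by
  rintro ⟨j, hj, k⟩
  obtain ⟨t1, t2, t3, t4, t5, t6⟩ := x1_tab j hj
  generalize xn j = n at *
  generalize xt j = ct at *
  obtain ⟨u, c, m, mV, inj, tp, ad, dd⟩ := k.spec
  have one : ∀ a < n, ∀ b < n, u a ≠ u b → τ s(u a, u b) = 1 → ty ct a b = 1 :=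
    fun a ha b hb e f => by rw [← tp a ha b hb fun g => e (g ▸ rfl), f]; rfl
  rcases h with (h | h | h | h | h | h) | h | h | h | h
  · omega
  · obtain ⟨a, ha, b, hb, e, f⟩ := t2
    exact h _ (mV a ha) _ (mV b hb) (fun g => e ((inj a ha b hb).1 g))
      (Fin.ext ((tp a ha b hb e).trans f))
  · obtain ⟨a, ha, e⟩ := t3
    exact e (dd a ha ▸ h _ (mV a ha))
  · obtain ⟨a, ha, b, hb, c, hc, e, d1, d2, d3⟩ := h
    obtain ⟨a, ia, rfl⟩ := m a ha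
    obtain ⟨b, ib, rfl⟩ := m b (nb_sub _ hb)
    obtain ⟨c, ic, rfl⟩ := m c (nb_sub _ hc)
    exact t4 ⟨a, ia, dd a ia ▸ d1, b, ib, (ad a ia b ib).1 hb, dd b ib ▸ d2, c, ic,
      (ad a ia c ic).1 hc, (ad b ib c ic).1 e, dd c ic ▸ d3⟩
  · obtain ⟨e, a, ha, d⟩ := h
    obtain ⟨a, ia, rfl⟩ := m a ha
    have := (t5 a ia).2.1 (c ▸ e)
    have := dd a ia
    omega
  · obtain ⟨e, p, hp, r, hr, s, hs, z, hz, e1, e2, e3, e4⟩ := h
    obtain ⟨p, ip, rfl⟩ := m p hp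
    obtain ⟨r, ir, rfl⟩ := m r (nb_sub _ hr)
    obtain ⟨s, is, rfl⟩ := m s (nb_sub _ hs)
    obtain ⟨z, iz, rfl⟩ := m z (nb_sub _ hz)
    refine t6 (c ▸ e) ⟨p, ip, r, ir, (ad p ip r ir).1 hr, s, is, (ad p ip s is).1 hs,
      (ad r ir s is).1 e1, z, iz, (ad p ip z iz).1 hz, (ad r ir z iz).1 e2,
      fun g => e3 (g ▸ rfl), ?_⟩
    rintro ⟨a, ia, b, ib, f1, f2, f3, f4⟩
    refine e4 _ (mV a ia) _ (mV b ib) (fun g => f1 ((inj a ia b ib).1 g)) ?_ ?_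
      (Fin.ext ((tp a ia b ib f1).trans f4))
    · simpa [inj a ia p ip, inj a ia r ir, inj a ia s is, inj a ia z iz] using f2
    · simpa [inj b ib p ip, inj b ib r ir, inj b ib s is, inj b ib z iz] using f3
  · obtain ⟨a, ha, b, hb, c, hc, e1, e2, e3, f1, f2, f3⟩ := h
    obtain ⟨a, ia, rfl⟩ := m a ha
    obtain ⟨b, ib, rfl⟩ := m b hb
    obtain ⟨c, ic, rfl⟩ := m c hc
    exact ((t5 a ia).2.2.2 b ib fun g => e1 (g ▸ rfl)).2 (one a ia b ib e1 f1) c ic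
      (fun g => e2 (g ▸ rfl)) (fun g => e3 (g ▸ rfl)) (one a ia c ic e2 f2) (one b ib c ic e3 f3)
  · obtain ⟨a, ha, d, e⟩ := h
    obtain ⟨a, ia, rfl⟩ := m a ha
    obtain ⟨b, ib, f, g⟩ := (t5 a ia).2.2.1 (dd a ia ▸ d)
    exact g (by rw [← tp a ia b ib f.1.symm, e _ ((ad a ia b ib).2 f)]; rfl)
  · obtain ⟨a, ha, d⟩ := h
    obtain ⟨a, ia, rfl⟩ := m a ha
    have := (t5 a ia).1
    have := dd a ia
    omega
  · obtain ⟨a, ha, b, hb, e, d1, d2⟩ := h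
    obtain ⟨a, ia, rfl⟩ := m a ha
    obtain ⟨b, ib, rfl⟩ := m b hb
    have := ((t5 a ia).2.2.2 b ib fun g => e (g ▸ rfl)).1
    have := dd a ia
    have := dd b ib
    omega

theorem nx_not_exc (h : NX V τ) : ¬ Exc V τ := NX2.not_exc (Or.inl h)

theorem not_exc_card (h : V.card ≤ 4 ∨ 8 ≤ V.card) : ¬ Exc V τ := by
  rintro ⟨j, hj, k⟩
  obtain ⟨u, c, -⟩ := k.spec
  have := (by decide : ∀ j < 10, 5 ≤ xn j ∧ xn j ≤ 7) j hj
  omega

theorem ww_pos (V : Finset α) (τ : Sym2 α → Fin 3) : 0 < ww V τ := by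
  unfold ww
  positivity

variable [Fintype α] {x : ℝ}

theorem Sm.smX (h : Sm x V τ) : SmX x (ee x) V τ :=
  fun V' τ' a b c => h V' τ' a (nx_not_exc c) b

theorem red_of_sm (h : ¬ Exc V τ → Sm x V τ → 0 < FF x V τ) : Red x V τ := fun a b _ c _ =>
  (mul_nonpos_of_nonpos_of_nonneg c (ww_pos V τ).le).trans_lt (h a b)

theorem red_of_smX (h : SmX x (ee x) V τ → 0 < F2 x (ee x) V τ) : Red x V τ :=
  red_of_sm fun _ b => h b.smX

theorem Iv.pos (h : Iv x) : 0 < x := by linarith [h.1]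

theorem Iv.ee_pos (h : Iv x) : 0 < ee x := by unfold ee; linarith [h.1]

theorem Iv.ee_le (h : Iv x) : ee x ≤ 3 / 4 := by unfold ee; linarith [h.2]

end Pool.Agent.Lib.MP_efe3d7_co.J
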