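import Pool.Agent.Lib.MP_efe3d7_co.J.Roots
import Pool.Agent.Lib.MP_efe3d7_co.J.X1
import Pool.Agent.Lib.MP_efe3d7_co.H.Bit2

/-! The configurations in words. -/

set_option autoImplicit false

open Finset

namespace Pool.Agent.Lib.MP_efe3d7_co.J

open H

variable {α : Type} [DecidableEq α] {V : Finset α} {τ : Sym2 α → Fin 3} {E : Env α}

theorem p0_sat {k : K} {v : ℕ → α} (inj : ∀ i < k.n, ∀ j < i, v i ≠ v j)
    (mem : ∀ i < k.n, v i ∈ E.Q ∨ v i ∈ E.T) (lq : ∀ i < k.n, tb k.lq i = true → v i ∈ E.Q)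
    (dn : ∀ i < k.n, tb k.dn i = true → v i ∈ E.Q ∧ v i ∉ E.Dr)
    (lo : ∀ i < k.n, dig k.lo i ≤ ds V τ E (v i))
    (ex : ∀ i < k.n, dig k.ex i ≠ 0 → ds V τ E (v i) = dig k.ex i)
    (pr : ∀ i < k.n, ∀ j < i, (τ s(v i, v j)).val + 1 = k.P i j)
    (h0 : k.lt = 0 ∧ k.dy = 0 ∧ k.fb = 0 ∧ k.al = false) : Sat k V τ E v := by
  have z := tb_zero
  have p : ∀ i < k.n, ∀ j < k.n, i ≠ j → (τ s(v i, v j)).val + 1 = k.P i j := fun i hi j hj e => by
    rcases lt_or_gt_of_ne e with f | f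
    · rw [Sym2.eq_swap, pr j hj i f, K.P_comm]
    · exact pr i hi j f
  refine ⟨fun i hi j hj e => ?_, mem, lq, fun i _ e => ?_, fun i _ e => ?_, dn, lo, ex,
    fun i hi j hj e => ?_, fun i _ j _ _ e => ?_, fun e => ?_⟩
  · by_contra f
    rcases lt_or_gt_of_ne f with f | f
    exacts [inj j hj i f e.symm, inj i hi j f e]
  · rw [h0.1, z] at e
    cases e
  · rw [h0.2.1, z] at e
    cases e
  · rw [← p i hi j hj e]
    generalize τ s(v i, v j) = t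
    revert t
    decide
  · rw [K.F, h0.2.2.1, z] at e
    cases e
  · rw [h0.2.2.2] at e
    cases e

/-- A list of vertices. -/
def p0_v (a b c d : α) (i : ℕ) : α := if i = 0 then a else if i = 1 then b else if i = 2 then c else d

theorem p0_two {P : ℕ → Prop} (h0 : P 0) (h1 : P 1) : ∀ i < 2, P i := by
  intro i hi
  interval_cases i <;> assumption

theorem p0_four {P : ℕ → Prop} (h0 : P 0) (h1 : P 1) (h2 : P 2) (h3 : P 3) : ∀ i < 4, P i := by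
  intro i hi
  interval_cases i <;> assumption

theorem p0_pair {P : ℕ → ℕ → Prop} (h : P 1 0) : ∀ i < 2, ∀ j < i, P i j := by
  intro i hi j hj
  obtain ⟨rfl, rfl⟩ : i = 1 ∧ j = 0 := by omega
  exact h

theorem p0_six {P : ℕ → ℕ → Prop} (h1 : P 1 0) (h2 : P 2 0) (h3 : P 2 1) (h4 : P 3 0) (h5 : P 3 1)
    (h6 : P 3 2) : ∀ i < 4, ∀ j < i, P i j := by
  intro i hi j hj
  interval_cases i <;> interval_cases j <;> assumption

theorem sat_A {a b : α} (ha : a ∈ E.Q) (hd : a ∉ E.Dr) (h3 : dg V τ a = 3)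
    (hb : b ∈ E.Q ∨ b ∈ E.T) (hab : b ≠ a) (ht : τ s(b, a) = 2) : Sat kA V τ E (p0_v a b a a) :=
  p0_sat (p0_pair hab) (p0_two (Or.inl ha) hb) (p0_two (fun _ => ha) fun e => by cases e)
    (p0_two (fun _ => ⟨ha, hd⟩) fun e => by cases e) (p0_two (Nat.zero_le _) (Nat.zero_le _))
    (p0_two (fun _ => (if_pos ha).trans h3) fun e => absurd rfl e)
    (p0_pair (show (τ s(b, a)).val + 1 = _ by rw [ht]; decide)) (by decide)

theorem sat_M {a b : α} (ha : a ∈ E.Q) (hd : a ∉ E.Dr) (h3 : dg V τ a = 3)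
    (hb : b ∈ E.Q ∨ b ∈ E.T) (hab : b ≠ a) (ht : τ s(b, a) = 1) (h4 : 4 ≤ ds V τ E b) :
    Sat kM V τ E (p0_v a b a a) :=
  p0_sat (p0_pair hab) (p0_two (Or.inl ha) hb) (p0_two (fun _ => ha) fun e => by cases e)
    (p0_two (fun _ => ⟨ha, hd⟩) fun e => by cases e) (p0_two (Nat.zero_le _) h4)
    (p0_two (fun _ => (if_pos ha).trans h3) fun e => absurd rfl e)
    (p0_pair (show (τ s(b, a)).val + 1 = _ by rw [ht]; decide)) (by decide)

theorem sat_F {a b : α} (ha : a ∈ E.Q) (h3 : dg V τ a = 3) (hb : b ∈ E.Q) (hab : b ≠ a)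
    (ht : τ s(b, a) = 1) (h4 : 4 ≤ dg V τ b) : Sat kF V τ E (p0_v a b a a) :=
  p0_sat (p0_pair hab) (p0_two (Or.inl ha) (Or.inl hb)) (p0_two (fun _ => ha) fun _ => hb)
    (p0_two (fun e => by cases e) fun e => by cases e)
    (p0_two (Nat.zero_le _) (h4.trans_eq (if_pos hb).symm))
    (p0_two (fun _ => (if_pos ha).trans h3) fun e => absurd rfl e)
    (p0_pair (show (τ s(b, a)).val + 1 = _ by rw [ht]; decide)) (by decide)

theorem sat_4 {a : α} (ha : a ∈ E.Q) (h4 : dg V τ a = 4) : Sat k4 V τ E fun _ => a :=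
  p0_sat (fun i hi j hj => by simp only [k4] at hi; omega) (fun _ _ => Or.inl ha) (fun _ _ _ => ha)
    (fun i _ e => by cases (tb_zero i).symm.trans e) (fun i _ => (dig_zero i).trans_le (Nat.zero_le _))
    (fun i hi _ => by
      obtain rfl : i = 0 := by simp only [k4] at hi; omega
      exact (if_pos ha).trans h4)
    (fun i hi j hj => by simp only [k4] at hi; omega) (by decide)

theorem sat_0 (a : α) : Sat k0 V τ E fun _ => a :=
  have z : ∀ {P : ℕ → Prop}, ∀ i < k0.n, P i := fun _ hi => absurd hi (Nat.not_lt_zero _)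
  p0_sat z z z z z z z (by decide)

theorem sat_C {a u b z : α} (ha : a ∈ E.Q) (hu : u ∈ E.Q) (hb : b ∈ E.Q) (hz : z ∈ E.Q)
    (h3 : ∀ v ∈ E.Q, dg V τ v = 3) (e1 : u ≠ a) (e2 : b ≠ a) (e3 : b ≠ u) (e4 : z ≠ a) (e5 : z ≠ u)
    (e6 : z ≠ b) (t1 : τ s(u, a) = 1) (t2 : τ s(b, a) = 0) (t3 : τ s(b, u) = 1)
    (t4 : τ s(z, a) = 1) (t5 : τ s(z, u) = 0) (t6 : τ s(z, b) = 1) :
    Sat kC V τ E (p0_v a u b z) :=
  p0_sat (p0_six e1 e2 e3 e4 e5 e6) (p0_four (Or.inl ha) (Or.inl hu) (Or.inl hb) (Or.inl hz))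
    (p0_four (fun _ => ha) (fun _ => hu) (fun _ => hb) fun _ => hz)
    (fun i _ e => by cases (tb_zero i).symm.trans e) (fun i _ => (dig_zero i).trans_le (Nat.zero_le _))
    (p0_four (fun _ => (if_pos ha).trans (h3 a ha)) (fun _ => (if_pos hu).trans (h3 u hu))
      (fun _ => (if_pos hb).trans (h3 b hb)) fun _ => (if_pos hz).trans (h3 z hz))
    (p0_six (show (τ s(u, a)).val + 1 = _ by rw [t1]; decide)
      (show (τ s(b, a)).val + 1 = _ by rw [t2]; decide)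
      (show (τ s(b, u)).val + 1 = _ by rw [t3]; decide)
      (show (τ s(z, a)).val + 1 = _ by rw [t4]; decide)
      (show (τ s(z, u)).val + 1 = _ by rw [t5]; decide)
      (show (τ s(z, b)).val + 1 = _ by rw [t6]; decide)) (by decide)

theorem p0_one {t : Fin 3} (h0 : t ≠ 0) (h2 : t ≠ 2) : t = 1 := by
  revert t
  decide

/-- Cycles of length four in a cubic region without triangles. -/
theorem sat_C' (sub : E.Q ⊆ V) (h3 : ∀ v ∈ E.Q, dg V τ v = 3)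
    (hard : ∀ a ∈ E.Q, ∀ b ∈ E.Q, a ≠ b → τ s(a, b) ≠ 2)
    (tri : ∀ a ∈ E.Q, ∀ b ∈ nb V τ a, ∀ c ∈ nb V τ a, b ∈ E.Q → c ∈ E.Q → c ∉ nb V τ b)
    (h : ∀ v, ¬ Sat kC V τ E v) : ∀ a ∈ E.Q, ∀ b ∈ E.Q, a ≠ b → ∀ u ∈ nb V τ a, ∀ z ∈ nb V τ a,
      u ∈ E.Q → z ∈ E.Q → u ∈ nb V τ b → z ∈ nb V τ b → z = u := by
  intro a ha b hb e u u1 z z1 hu hz u2 z2
  by_contra f
  have one : ∀ p ∈ E.Q, ∀ q ∈ E.Q, q ∈ nb V τ p → τ s(p, q) = 1 := fun p hp q hq g =>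
    p0_one (mem_nb.1 g).2.2 (hard p hp q hq (mem_nb.1 g).2.1.symm)
  have zero : ∀ p ∈ E.Q, ∀ q ∈ E.Q, q ≠ p → q ∉ nb V τ p → τ s(p, q) = 0 := fun p _ q hq g k => by
    by_contra l
    exact k (mem_nb.2 ⟨sub hq, g, l⟩)
  have u3 := nb_symm (sub ha) u1
  have z3 := nb_symm (sub ha) z1
  exact h _ (sat_C ha hu hb hz h3 (mem_nb.1 u1).2.1 e.symm (mem_nb.1 u2).2.1.symm (mem_nb.1 z1).2.1
    f (mem_nb.1 z2).2.1 (one u hu a ha u3)
    (zero b hb a ha e (tri u hu b (nb_symm (sub hb) u2) a u3 hb ha)) (one b hb u hu u2)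
    (one z hz a ha z3) (zero z hz u hu (Ne.symm f) (tri a ha z z1 u u1 hz hu))
    (one z hz b hb (nb_symm (sub hb) z2)))

end Pool.Agent.Lib.MP_efe3d7_co.J
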