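import Pool.Agent.Lib.MP_efe3d7_co.J.PSz
import Pool.Agent.Lib.MP_efe3d7_co.H.Ids

/-! The inequality behind a certificate. -/

set_option autoImplicit false

open Finset

namespace Pool.Agent.Lib.MP_efe3d7_co.J

open H

theorem len_eq : ∀ c : List ℕ, len c = c.length
  | [] => rfl
  | _ :: c => congrArg Nat.succ (len_eq c)

theorem axp_spec (w : ℕ) : ∀ c S : List ℕ, c.length = S.length →
    (axp w c S).length = S.length ∧ ∀ t, (axp w c S).getD t 0 = w * c.getD t 0 + S.getD t 0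
  | [], [], _ => by simp [axp]
  | [], _ :: _, h => by simp at h
  | _ :: _, [], h => by simp at h
  | a :: c, b :: S, h => by
    obtain ⟨h1, h2⟩ := axp_spec w c S (by simpa using h)
    have e : axp w (a :: c) (b :: S) = (w * a + b) :: axp w c S := rfl
    refine ⟨by simp [e, h1], fun t => ?_⟩
    cases t with
    | zero => simp [e]
    | succ t => simpa [e] using h2 t

theorem leL_spec (M : ℕ) : ∀ S D : List ℕ, S.length = D.length → leL M S D = true →
    ∀ t, S.getD t 0 ≤ M * D.getD t 0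
  | [], [], _, _, _ => by simp
  | [], _ :: _, h, _, _ => by simp at h
  | _ :: _, [], h, _, _ => by simp at h
  | a :: S, b :: D, h, k, t => by
    simp only [leL, Bool.and_eq_true, Nat.ble_eq, Nat.mul_eq] at k
    cases t with
    | zero => simpa using k.1
    | succ t => simpa using leL_spec M S D (by simpa using h) k.2 t

theorem anyS_spec (f : List ℕ → Bool) : ∀ (ws : List ℕ) (cs : List (List ℕ)),
    anyS f ws cs = true → ∃ u ∈ ws.zip cs, u.1 = 0 ∧ f u.2 = true
  | [], _, h => by simp [anyS] at h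
  | _ :: _, [], h => by simp [anyS] at h
  | w :: ws, c :: cs, h => by
    simp only [anyS, Bool.or_eq_true, Bool.and_eq_true, Nat.beq_eq] at h
    rcases h with h | h
    · exact ⟨(w, c), by simp, h⟩
    · obtain ⟨u, hu, k⟩ := anyS_spec f ws cs h
      exact ⟨u, by simp [hu], k⟩

theorem accK_spec (x : ℝ) (q : Pc) (L : ℕ) (k : List ℕ → Bool) :
    ∀ (ws : List ℕ) (cs : List (List ℕ)) (S : List ℕ), S.length = L → accK L ws cs S k = true →
      ∃ S', k S' = true ∧ S'.length = L ∧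
        bR x q S' = bR x q S + ((ws.zip cs).map fun u => (u.1 : ℝ) * bR x q u.2).sum
  | [], _, S, h, e => ⟨S, by simpa [accK] using e, h, by simp⟩
  | _ :: _, [], S, h, e => ⟨S, by simpa [accK] using e, h, by simp⟩
  | w :: ws, c :: cs, S, h, e => by
    rw [accK] at e
    cases hw : Nat.beq w 0
    · rw [hw, cond_false, Bool.and_eq_true, Nat.beq_eq, len_eq] at e
      obtain ⟨h1, h2⟩ := axp_spec w c S (e.1.trans h.symm)
      obtain ⟨S', a, b, d⟩ := accK_spec x q L k ws cs _ (h1.trans h) e.2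
      refine ⟨S', a, b, ?_⟩
      have : bR x q (axp w c S) = w * bR x q c + bR x q S := by
        rw [bR, bR, bR, h1, e.1, h, mul_sum, ← sum_add_distrib]
        refine sum_congr rfl fun t _ => ?_
        rw [h2]
        push_cast
        ring
      rw [d, this, List.zip_cons_cons, List.map_cons, List.sum_cons]
      ring
    · rw [hw, cond_true] at e
      obtain ⟨S', a, b, d⟩ := accK_spec x q L k ws cs S h e
      refine ⟨S', a, b, ?_⟩
      rw [d, List.zip_cons_cons, List.map_cons, List.sum_cons, Nat.eq_of_beq_eq_true hw]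
      simp

/-- The point lies in the piece. -/
def InP (x : ℝ) (q : Pc) : Prop :=
  (q.a1 : ℝ) ≤ q.b1 * x ∧ q.b2 * x ≤ (q.a2 : ℝ) ∧ (q.b2 * x < (q.a2 : ℝ) ∨ (q.a1 : ℝ) < q.b1 * x)

variable {x : ℝ} {q : Pc}

theorem InP.B (h : InP x q) (a b : ℕ) : 0 ≤ (q.b1 * x - q.a1) ^ a * (q.a2 - q.b2 * x) ^ b :=
  mul_nonneg (pow_nonneg (sub_nonneg.2 h.1) _) (pow_nonneg (sub_nonneg.2 h.2.1) _)

theorem InP.nn (h : InP x q) (l : List ℕ) : 0 ≤ bR x q l :=
  sum_nonneg fun _ _ => mul_nonneg (Nat.cast_nonneg _) (h.B _ _)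

theorem InP.hd (h : InP x q) (k : q.b2 * x < (q.a2 : ℝ)) {l : List ℕ} (e : hdP l = true) :
    0 < bR x q l := by
  rw [hdP, nz_iff] at e
  obtain _ | ⟨a, l⟩ := l
  · simp at e
  refine sum_pos' (fun _ _ => mul_nonneg (Nat.cast_nonneg _) (h.B _ _)) ⟨0, by simp, ?_⟩
  rw [pow_zero, one_mul]
  exact mul_pos (Nat.cast_pos.2 (Nat.pos_of_ne_zero e)) (pow_pos (sub_pos.2 k) _)

theorem InP.ls (h : InP x q) (k : (q.a1 : ℝ) < q.b1 * x) {l : List ℕ} (e : lsP l = true) :
    0 < bR x q l := by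
  rw [lsP, nz_iff] at e
  induction l using List.reverseRecOn with
  | nil => simp at e
  | append_singleton l a _ =>
    refine sum_pos' (fun _ _ => mul_nonneg (Nat.cast_nonneg _) (h.B _ _)) ⟨l.length, by simp, ?_⟩
    have e1 : (l ++ [a]).length - 1 - l.length = 0 := by simp
    have e2 : (l ++ [a]).getD l.length 0 = a := by simp
    rw [e1, e2, pow_zero, mul_one]
    exact mul_pos (Nat.cast_pos.2 (Nat.pos_of_ne_zero (by simpa using e))) (pow_pos (sub_pos.2 k) _)

theorem chain_spec (hx : x ≤ 371 / 475) : ∀ (l : List Pc) (a b : ℕ), chain l a b = true → b ≠ 0 →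
    (a : ℝ) ≤ b * x → ((a : ℝ) < b * x ∨ 475 * a < 371 * b) → ∃ q ∈ l, InP x q
  | [], a, b, h, _, _, k => by
    simp only [chain, Nat.ble_eq, Nat.mul_eq] at h
    have h1 : (371 * b : ℝ) ≤ 475 * a := by exact_mod_cast h
    have h2 : (0 : ℝ) ≤ b := Nat.cast_nonneg _
    have h3 := k.resolve_right (by omega)
    nlinarith
  | q :: l, a, b, h, hb, h1, _ => by
    simp only [chain, Bool.and_eq_true, Nat.ble_eq, Nat.blt_eq, Nat.mul_eq, nz_iff] at h
    obtain ⟨⟨⟨⟨b1, b2⟩, c1⟩, c2⟩, c3⟩ := h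
    have d0 : (0 : ℝ) < b := Nat.cast_pos.2 (Nat.pos_of_ne_zero hb)
    have d1 : (0 : ℝ) < q.b1 := Nat.cast_pos.2 (Nat.pos_of_ne_zero b1)
    have d2 : (0 : ℝ) < q.b2 := Nat.cast_pos.2 (Nat.pos_of_ne_zero b2)
    have e1 : (q.a1 * b : ℝ) ≤ a * q.b1 := by exact_mod_cast c1
    have e2 : (q.a1 * q.b2 : ℝ) < q.a2 * q.b1 := by exact_mod_cast c2
    by_cases k : q.b2 * x ≤ (q.a2 : ℝ)
    · refine ⟨q, List.mem_cons_self, le_of_mul_le_mul_right (by nlinarith) d0, k, ?_⟩
      refine k.lt_or_eq.imp_right fun e => lt_of_mul_lt_mul_right ?_ d2.le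
      rw [← e] at e2
      linarith
    · obtain ⟨r, hr, k2⟩ := chain_spec hx l _ _ c3 b2 (not_le.1 k).le (.inl (not_le.1 k))
      exact ⟨r, List.mem_cons_of_mem _ hr, k2⟩

theorem pc_ineq (h : InP x q) (cols : List Col) (w : Col → ℕ) (F : Col → ℝ) (F0 ν : ℝ)
    (hν : ν ≤ 0) (hp : pcOk (cols.map w) q = true) (hs : ∀ g ∈ cols, w g = 0 → 0 < F g)
    (hn : ∀ g ∈ cols, w g ≠ 0 → ν * w g ≤ (30 ^ 30 : ℕ) * F g)
    (hid : bR x q q.D * F0 = ((cols.zip q.cf).map fun u => bR x q u.2 * F u.1).sum) : ν < F0 := by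
  simp only [pcOk, frc_eq, Bool.and_eq_true, Nat.pow_eq, len_eq] at hp
  obtain ⟨⟨⟨⟨a1, a2⟩, a3⟩, a4⟩, a5⟩ := hp
  obtain ⟨S, s1, s2, s3⟩ := accK_spec x q _ _ _ _ _ List.length_replicate a5
  have hM : (0 : ℝ) < (30 ^ 30 : ℕ) := by norm_num
  generalize 30 ^ 30 = M at *
  have z : bR x q (List.replicate q.D.length 0) = 0 := sum_eq_zero fun t ht => by
    rw [List.getD_replicate 0 (by simpa using ht), Nat.cast_zero, zero_mul]
  rw [z, zero_add, List.zip_map_left, List.map_map] at s3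
  have b2 : bR x q S ≤ M * bR x q q.D := by
    rw [bR, bR, s2, mul_sum]
    refine sum_le_sum fun t _ => ?_
    rw [← mul_assoc (M : ℝ), ← Nat.cast_mul]
    exact mul_le_mul_of_nonneg_right (Nat.cast_le.2 (leL_spec M _ _ s2 s1 t)) (h.B _ _)
  have key : 0 < bR x q q.D ∧ ∃ u ∈ cols.zip q.cf, w u.1 = 0 ∧ 0 < bR x q u.2 := by
    have aux : ∀ f : List ℕ → Bool, anyS f (cols.map w) q.cf = true →
        ∃ u ∈ cols.zip q.cf, w u.1 = 0 ∧ f u.2 = true := fun f e => by
      obtain ⟨u, hu, k⟩ := anyS_spec f _ _ e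
      rw [List.zip_map_left, List.mem_map] at hu
      obtain ⟨r, hr, rfl⟩ := hu
      exact ⟨r, hr, k⟩
    rcases h.2.2 with k | k
    · obtain ⟨u, hu, k1, k2⟩ := aux _ a3
      exact ⟨h.hd k a1, u, hu, k1, h.hd k k2⟩
    · obtain ⟨u, hu, k1, k2⟩ := aux _ a4
      exact ⟨h.ls k a2, u, hu, k1, h.ls k k2⟩
  obtain ⟨hD, u0, hu0, u1, u2⟩ := key
  have b1 : ((cols.zip q.cf).map fun u => ν * ((w u.1 : ℝ) * bR x q u.2)).sum <
      ((cols.zip q.cf).map fun u => M * (bR x q u.2 * F u.1)).sum := by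
    refine List.sum_lt_sum _ _ (fun u hu => ?_) ⟨u0, hu0, ?_⟩
    · have hg := (List.of_mem_zip hu).1
      have := h.nn u.2
      by_cases e : w u.1 = 0
      · rw [e, Nat.cast_zero, zero_mul, mul_zero]
        exact mul_nonneg hM.le (mul_nonneg this (hs _ hg e).le)
      · nlinarith [mul_le_mul_of_nonneg_left (hn _ hg e) this]
    · rw [u1, Nat.cast_zero, zero_mul, mul_zero]
      exact mul_pos hM (mul_pos u2 (hs _ (List.of_mem_zip hu0).1 u1))
  rw [List.sum_map_mul_left, List.sum_map_mul_left, ← hid] at b1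
  have b3 : ν * (M * bR x q q.D) < M * (bR x q q.D * F0) :=
    (mul_le_mul_of_nonpos_left b2 hν).trans_lt (by rw [s3]; exact b1)
  refine lt_of_mul_lt_mul_left (a := M * bR x q q.D) ?_ (mul_pos hM hD).le
  linarith

theorem idR_sum {s ni h : ℕ} {cols : List Col} (hi : IdR x s ni h cols q) (R : ℕ → ℝ) :
    bR x q q.D * ((parts s).map fun r => R r.1 * valR x s ni h r.1 r.2).sum =
      ((cols.zip q.cf).map fun u => bR x q u.2 *
        ((parts s).map fun r => R r.1 * cvalR x s u.1 r.1 r.2).sum).sum := by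
  simp only [← List.sum_map_mul_left]
  rw [ids_swap]
  refine congrArg _ (List.map_congr_left fun r hr => ?_)
  simp only [mul_left_comm _ (R r.1), List.sum_map_mul_left]
  rw [hi r hr]

end Pool.Agent.Lib.MP_efe3d7_co.J
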