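import Pool.Agent.Lib.MP_efe3d7_co.J.Defs
import Pool.Agent.Lib.MP_efe3d7_co.H.Tre1
import Pool.Agent.Lib.MP_efe3d7_co.H.Tre2

/-! Case distinctions. -/

set_option autoImplicit false

open Finset

namespace Pool.Agent.Lib.MP_efe3d7_co.J

open H

variable {α : Type} [Fintype α] [DecidableEq α]

variable {x : ℝ} {m : Md} {k : K}

theorem v_loc {i : ℕ} (hi : i < k.n) (ha : Valid α x m { k with lq := Nat.lor k.lq (bt i) })
    (hb : Valid α x m { k with lt := Nat.lor k.lt (bt i) }) : Valid α x m k := by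
  intro V τ E v hO h
  rcases h.mem i hi with h1 | h1
  · exact ha V τ E v hO { h with lq := fun j hj => tre1_bit (R := (v · ∈ E.Q)) h1 (h.lq j hj) }
  · exact hb V τ E v hO { h with lt := fun j hj => tre1_bit (R := (v · ∈ E.T)) h1 (h.lt j hj) }

theorem v_door {i : ℕ} (hi : i < k.n) (hq : tb k.lq i = true)
    (ha : Valid α x m { k with dy := Nat.lor k.dy (bt i) })
    (hb : Valid α x m { k with dn := Nat.lor k.dn (bt i) }) : Valid α x m k := by
  intro V τ E v hO h
  by_cases h1 : v i ∈ E.Dr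
  · exact ha V τ E v hO { h with dy := fun j hj => tre1_bit (R := (v · ∈ E.Dr)) h1 (h.dy j hj) }
  · exact hb V τ E v hO { h with
      dn := fun j hj => tre1_bit (R := fun l => v l ∈ E.Q ∧ v l ∉ E.Dr) ⟨h.lq i hi hq, h1⟩
        (h.dn j hj) }

theorem v_deg {i : ℕ} (hi : i < k.n) (h6 : k.el m i ≤ 6)
    (ha : Valid α x m { k with ex := sdg k.ex i (k.el m i) })
    (hb : Valid α x m { k with lo := sdg k.lo i (Nat.succ (k.el m i)) }) : Valid α x m k := by
  intro V τ E v hO h
  rcases (el_sound hO.ok h hi).eq_or_lt with h1 | h1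
  · refine ha V τ E v hO { h with ex := fun j hj => ?_ }
    change dig (sdg _ _ _) j ≠ 0 → _ = dig (sdg _ _ _) j
    rw [dig_sdg _ _ _ (by omega)]
    split_ifs with h2
    · exact fun _ => h2 ▸ h1.symm
    · exact h.ex j hj
  · refine hb V τ E v hO { h with lo := fun j hj => ?_ }
    change dig (sdg _ _ _) j ≤ _
    rw [dig_sdg _ _ _ (by omega)]
    split_ifs with h2
    · exact h2 ▸ h1
    · exact h.lo j hj

theorem v_adj {i j : ℕ} (hi : i < k.n) (hj : j < k.n) (hij : i ≠ j) (hn : k.n ≤ 16)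
    (ha : Valid α x m (k.sP i j 1)) (hb : Valid α x m (k.sP i j 4)) : Valid α x m k := by
  intro V τ E v hO h
  by_cases h1 : τ s(v i, v j) = 0
  · exact ha V τ E v hO (tre1_sP h hi hj hn (by omega) (by simp [h1]))
  · exact hb V τ E v hO (tre1_sP h hi hj hn (by omega) (by simp [h1]))

theorem v_typ {i j : ℕ} (hi : i < k.n) (hj : j < k.n) (hij : k.aj i j = true) (hn : k.n ≤ 16)
    (ha : Valid α x m (k.sP i j 2)) (hb : Valid α x m (k.sP i j 3)) : Valid α x m k := by
  intro V τ E v hO h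
  obtain ⟨h2, h3⟩ := (K.aj_iff k i j).1 hij
  have h4 := (h.pr i hi j hj h2).2.2.2 h3
  by_cases h1 : τ s(v i, v j) = 1
  · exact ha V τ E v hO (tre1_sP h hi hj hn (by omega) (by simp [h1]))
  · exact hb V τ E v hO (tre1_sP h hi hj hn (by omega)
      ⟨by omega, by omega, fun _ => by omega, fun _ => h4⟩)

theorem v_alx (hf : k.fresh = true) (ha : Valid α x m { k with al := true })
    (hb : Valid α x m { k with n := Nat.succ k.n }) : Valid α x m k := by
  intro V τ E v hO hS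
  by_cases h : ∀ z, z ∈ E.Q ∨ z ∈ E.T → ∃ l < k.n, v l = z
  · exact ha V τ E v hO
      ⟨hS.inj, hS.mem, hS.lq, hS.lt, hS.dy, hS.dn, hS.lo, hS.ex, hS.pr, hS.fb, fun _ => h⟩
  · push Not at h
    obtain ⟨z, hz, hn⟩ := h
    exact hb V τ E _ hO (sat_new hS hf hz hn)

theorem v_fbd {i j : ℕ} (hi : i < k.n) (hj : j < k.n) (hij : i ≠ j) (hw : m.wm = false)
    (hf : k.fresh = true) (hq : tb k.lq i = true ∨ tb k.lq j = true)
    (ha : Valid α x m { k with fb := Nat.lor k.fb (bt (px i j)) })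
    (hb : Valid α x m ((k.sP j k.n 4).add i)) : Valid α x m k := by
  intro V τ E v hO hS
  have hn := tre2_n hf
  by_cases h : ∀ z ∈ nb V τ (v i), z ∈ nb V τ (v j) → ∃ l < k.n, v l = z
  · refine ha V τ E v hO
      ⟨hS.inj, hS.mem, hS.lq, hS.lt, hS.dy, hS.dn, hS.lo, hS.ex, hS.pr, ?_, hS.al⟩
    intro a h1 b h2 hab e
    change a < k.n at h1
    change b < k.n at h2
    change tb (Nat.lor k.fb (bt (px i j))) (px a b) = true at e
    rw [tb_lor, tb_bt, Bool.or_eq_true, decide_eq_true_eq,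
      px_inj (by omega) (by omega) (by omega) (by omega)] at e
    rcases e with e | ⟨rfl, rfl⟩ | ⟨rfl, rfl⟩
    · exact hS.fb a h1 b h2 hab e
    · exact h
    · exact fun z h3 h4 => h z h4 h3
  · push Not at h
    obtain ⟨z, h1, h2, h3⟩ := h
    have hz : z ∈ E.Q ∨ z ∈ E.T := hq.elim (fun e => tre2_mem hO.ok hw (hS.lq i hi e) h1)
      fun e => tre2_mem hO.ok hw (hS.lq j hj e) h2
    exact hb V τ E _ hO (tre2_add hn rfl (tre2_add hn rfl (sat_new hS hf hz h3) hj h2) hi h1)

theorem v_exp {i : ℕ} (hi : i < k.n) (hw : m.wm = false) (hf : k.fresh = true)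
    (hq : tb k.lq i = true)
    (hc : (cnt k.n fun j => !Nat.beq i j && !Nat.beq (k.eP i j) 1) < k.el m i)
    (ha : Valid α x m (k.add i)) : Valid α x m k := by
  intro V τ E v hO hS
  have hQ := hS.lq i hi hq
  have h : ∃ z ∈ nb V τ (v i), ∀ l < k.n, v l ≠ z := by
    by_contra h
    push Not at h
    have h1 : nb V τ (v i) ⊆ ((range k.n).filter fun j =>
        (!Nat.beq i j && !Nat.beq (k.eP i j) 1) = true).image v := by
      intro z hz
      obtain ⟨l, hl, rfl⟩ := h z hz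
      have e1 : i ≠ l := fun e => (mem_nb.1 hz).2.1 (e ▸ rfl)
      have e2 : k.eP i l ≠ 1 := fun e => (mem_nb.1 hz).2.2 (eP_one hO.ok hS hi hl e1 e)
      refine mem_image_of_mem _ (mem_filter.2 ⟨mem_range.2 hl, ?_⟩)
      rw [Bool.and_eq_true, Bool.not_eq_true', Bool.not_eq_true', ← Bool.not_eq_true,
        ← Bool.not_eq_true, Nat.beq_eq, Nat.beq_eq]
      exact ⟨e1, e2⟩
    have h2 := (card_le_card h1).trans card_image_le
    have h3 := el_sound hO.ok hS hi
    rw [ds_Q hQ, dg] at h3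
    rw [cnt_eq] at hc
    omega
  obtain ⟨z, h1, h2⟩ := h
  exact ha V τ E _ hO
    (tre2_add (tre2_n hf) rfl (sat_new hS hf (tre2_mem hO.ok hw hQ h1) h2) hi h1)

theorem v_prm {i : ℕ} (hi : i < k.n) (hw : m.wm = false) (hf : k.fresh = true)
    (hd : tb k.dy i = true)
    (hc : (allB k.n fun l => Nat.beq i l || Nat.beq (k.eP i l) 1 || k.np m l) = true)
    (ha : Valid α x m { k.add i with lt := Nat.lor k.lt (bt k.n), ex := sdg k.ex k.n 3 }) :
    Valid α x m k := by
  intro V τ E v hO hS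
  obtain ⟨-, z, h1, h2⟩ := hO.ok.dr1 _ (hS.dy i hi hd)
  rw [hO.ok.omn hw] at h2
  obtain ⟨h2, h3⟩ := h2.resolve_right (by simp)
  simp only [allB_iff, Bool.or_eq_true, Nat.beq_eq] at hc
  have h4 : ∀ l < k.n, v l ≠ z := by
    rintro l hl rfl
    by_cases e1 : i = l
    · exact (mem_nb.1 h1).2.1 (e1 ▸ rfl)
    rcases hc l hl with (e | e) | e
    · exact e1 e
    · exact (mem_nb.1 h1).2.2 (eP_one hO.ok hS hi hl e1 e)
    · rcases np_sound hO.ok hS hl e with e2 | e2
      · exact hO.ok.dis _ e2 h2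
      · omega
  have h5 : Sat (k.add i) V τ E (Function.update v k.n z) :=
    tre2_add (tre2_n hf) rfl (sat_new hS hf (Or.inr h2) h4) hi h1
  refine ha V τ E _ hO
    ⟨h5.inj, h5.mem, h5.lq, ?_, h5.dy, h5.dn, h5.lo, ?_, h5.pr, h5.fb, h5.al⟩
  · intro j hj e
    change tb (Nat.lor k.lt (bt k.n)) j = true at e
    rw [tb_lor, tb_bt, Bool.or_eq_true, decide_eq_true_eq] at e
    rcases e with e | rfl
    · exact h5.lt j hj e
    · rwa [Function.update_self]
  · intro j hj
    change dig (sdg k.ex k.n 3) j ≠ 0 → _ = dig (sdg k.ex k.n 3) j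
    rw [dig_sdg _ _ _ (by norm_num)]
    split_ifs with e
    · rw [e, Function.update_self]
      exact fun _ => h3
    · exact h5.ex j hj

end Pool.Agent.Lib.MP_efe3d7_co.J
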