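import Pool.Agent.Lib.MP_efe3d7_co.J.Defs

/-! Real values of windows, pieces of certificates. -/

set_option autoImplicit false

open Finset

namespace Pool.Agent.Lib.MP_efe3d7_co.J

open H

/-- The value of a window on a partition of the terminals. -/
noncomputable def valR (x : ℝ) (s ni ct cs d : ℕ) : ℝ :=
  (-1) ^ ni * ((∏ u ∈ range s, facR (ee x) ct cs u (dig cs u)) *
    (locP (ee x) ct ni s cs d).eval (1 + x))

/-- The value of a column. -/
noncomputable def cvalR (x : ℝ) (s : ℕ) (c : Col) (cs d : ℕ) : ℝ :=
  if c.mg = true then valR x s c.ni (sdg c.ct (px c.a c.b) 1) cs d - valR x s c.ni c.ct cs d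
  else valR x s c.ni c.ct cs d

/-- A piece of a certificate, valid on the interval from `a1 / b1` to `a2 / b2`. -/
structure Pc where
  /-- numerator of the left end -/
  a1 : ℕ
  /-- denominator of the left end -/
  b1 : ℕ
  /-- numerator of the right end -/
  a2 : ℕ
  /-- denominator of the right end -/
  b2 : ℕ
  /-- the coefficient of the window -/
  D : List ℕ
  /-- the coefficients of the columns -/
  cf : List (List ℕ)

/-- The value of a coefficient. -/
noncomputable def bR (x : ℝ) (p : Pc) (l : List ℕ) : ℝ :=
  ∑ t ∈ range l.length, (l.getD t 0 : ℝ) *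
    ((p.b1 * x - p.a1) ^ t * (p.a2 - p.b2 * x) ^ (l.length - 1 - t))

/-- The identity between the window and the columns. -/
def IdR (x : ℝ) (s ni h : ℕ) (cols : List Col) (p : Pc) : Prop :=
  ∀ q ∈ parts s, bR x p p.D * valR x s ni h q.1 q.2 =
    ((cols.zip p.cf).map fun u => bR x p u.2 * cvalR x s u.1 q.1 q.2).sum

/-- The falling factorial. -/
noncomputable def falR (x : ℝ) (d : ℕ) : ℝ := ∏ i ∈ range d, (1 + x - i)

/-- The value of two windows glued along the terminals. -/
noncomputable def glueR (x : ℝ) (s o co ni ct : ℕ) : ℝ :=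
  ((parts s).map fun q =>
    (-1) ^ s * falR x q.2 * (valR x s o co q.1 q.2 * valR x s ni ct q.1 q.2)).sum

/-- A certificate. -/
structure Cert where
  /-- number of terminals -/
  s : ℕ
  /-- hints for impossible labellings -/
  hs : List ℕ
  /-- columns -/
  cols : List Col
  /-- pieces -/
  pcs : List Pc

end Pool.Agent.Lib.MP_efe3d7_co.J
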