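import Pool.Agent.Lib.MP_efe3d7_co.J.TN

/-! The graph of a column and its value. -/

set_option autoImplicit false

open Finset

namespace Pool.Agent.Lib.MP_efe3d7_co.J.Tw

open H
open H.Fn (T5 pr pev)

variable {α : Type} [DecidableEq α] [Fintype α] {V U : Finset α} {τ σ : Sym2 α → Fin 3}
  {w : ℕ → α} {md : Mo} {n ct : ℕ} {x : ℝ}

omit [Fintype α] in
theorem Pl.mono (h : Pl U w n) {k : ℕ} (hk : k ≤ n) : Pl U w k :=
  ⟨fun i hi j hj e => h.inj i (by omega) j (by omega) e, h.tU,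
    fun i h3 hi => h.nU i h3 (by omega)⟩

theorem tc1a_pm (md : Mo) (i j : ℕ) : md.pm i j = md.pm j i := by
  simp only [Mo.pm, Nat.add_eq, Nat.add_comm i j]

theorem tc1a_ty2 (h2 : ty2 n ct = true) {i j : ℕ} (hi : i < 3 + n) (hj : j < 3 + n)
    (hij : i ≠ j) : ty ct i j ≤ 2 := by
  simp only [ty2, allB_iff, Nat.add_eq, Nat.ble_eq] at h2
  rcases lt_or_gt_of_ne hij with h | h
  · rw [ty_comm]; exact h2 j hj i h
  · exact h2 i hi j h

/-- The type of a pair from the positions of its ends. -/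
def tc1a_F (md : Mo) (n ct p q : ℕ) (t : Fin 3) : Fin 3 :=
  if p < 3 + n ∧ q < 3 + n ∧ p ≠ q then
    (if p < 3 ∧ q < 3 ∧ md.pm p q = 0 ∧ ty ct p q ≠ 1 then t
      else Fin.ofNat 3 (ty ct p q))
  else if (3 ≤ p ∧ p < 3 + n) ∨ (3 ≤ q ∧ q < 3 + n) then 0 else t

theorem tc1a_symm (md : Mo) (n ct p q : ℕ) (t : Fin 3) :
    tc1a_F md n ct p q t = tc1a_F md n ct q p t := by
  unfold tc1a_F
  rw [tc1a_pm md q p, ty_comm ct q p]
  refine if_congr ⟨fun h => ⟨h.2.1, h.1, h.2.2.symm⟩, fun h => ⟨h.2.1, h.1, h.2.2.symm⟩⟩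
    (if_congr ⟨fun h => ⟨h.2.1, h.1, h.2.2⟩, fun h => ⟨h.2.1, h.1, h.2.2⟩⟩ rfl rfl)
    (if_congr or_comm rfl rfl)

omit [Fintype α] in
theorem tc1a_pos (hp : Pl U w n) : ∃ pos : α → ℕ, (∀ i < 3 + n, pos (w i) = i) ∧
    (∀ a ∈ U, (∀ j < 3, w j ≠ a) → pos a = 3 + n) ∧ ∀ a ∈ U, pos a < 3 ∨ pos a = 3 + n := by
  classical
  refine ⟨fun v => if h : ∃ i < 3 + n, w i = v then h.choose else 3 + n, fun i hi => ?_,
    fun a ha hn => ?_, fun a ha => ?_⟩
  · have h : ∃ k < 3 + n, w k = w i := ⟨i, hi, rfl⟩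
    simp only [dif_pos h]
    exact hp.inj _ h.choose_spec.1 _ hi h.choose_spec.2
  · have h : ¬ ∃ k < 3 + n, w k = a := by
      rintro ⟨k, hk, rfl⟩
      by_cases h3 : k < 3
      · exact hn k h3 rfl
      · exact hp.nU k (by omega) hk ha
    simp only [dif_neg h]
  · by_cases h : ∃ k < 3 + n, w k = a
    · simp only [dif_pos h]
      left
      by_contra h3
      exact hp.nU _ (by omega) h.choose_spec.1 (by rw [h.choose_spec.2]; exact ha)
    · simp only [dif_neg h, or_true]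

omit [Fintype α] in
theorem cg_ex (md : Mo) (hp : Pl U w n) (τ : Sym2 α → Fin 3) (h2 : ty2 n ct = true) :
    ∃ σ, CG md U w τ n ct σ := by
  obtain ⟨pos, h1, hU, hT⟩ := tc1a_pos hp
  refine ⟨Sym2.lift ⟨fun a b => tc1a_F md n ct (pos a) (pos b) (τ s(a, b)), fun a b => ?_⟩,
    fun i hi j hj hij => ?_, fun i h3 hi j hj hij => ?_, fun i h3 hi z hz hn => ?_,
    fun a ha b hb hn => ?_⟩
  · show tc1a_F md n ct (pos a) (pos b) (τ s(a, b)) = tc1a_F md n ct (pos b) (pos a) (τ s(b, a))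
    rw [Sym2.eq_swap (a := b), tc1a_symm]
  · have hi' : i < 3 + n := by omega
    have hj' : j < 3 + n := by omega
    have := tc1a_ty2 h2 hi' hj' hij
    rw [Sym2.lift_mk]
    simp only [h1 i hi', h1 j hj', tc1a_F]
    rw [if_pos ⟨hi', hj', hij⟩]
    by_cases hc : md.pm i j = 0 ∧ ty ct i j ≠ 1
    · rw [if_pos ⟨hi, hj, hc⟩, if_pos hc]
    · rw [if_neg fun h => hc h.2.2, if_neg hc]
      exact Nat.mod_eq_of_lt (by omega)
  · have := tc1a_ty2 h2 hi hj hij.symm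
    rw [Sym2.lift_mk]
    simp only [h1 i hi, h1 j hj, tc1a_F]
    rw [if_pos ⟨hi, hj, hij.symm⟩, if_neg fun h => by omega]
    exact Nat.mod_eq_of_lt (by omega)
  · rw [Sym2.lift_mk]
    simp only [h1 i hi, hU z hz hn, tc1a_F]
    rw [if_neg fun h => by omega, if_pos (Or.inl ⟨h3, hi⟩)]
  · have := hT b hb
    rw [Sym2.lift_mk]
    simp only [hU a ha hn, tc1a_F]
    rw [if_neg fun h => by omega, if_neg fun h => by omega]

theorem tc1a_cases (md : Mo) (ct : ℕ) (P : ℕ → ℕ → Prop) (h01 : P md.p01 (ty ct 0 1))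
    (h02 : P md.p02 (ty ct 0 2)) (h12 : P md.p12 (ty ct 1 2)) :
    ∀ i < 3, ∀ j < 3, i ≠ j → P (md.pm i j) (ty ct i j) := by
  intro i hi j hj hij
  interval_cases i <;> interval_cases j <;> first
    | exact absurd rfl hij
    | exact h01
    | exact h02
    | exact h12

theorem tc1a_pOk {q t : ℕ} (h : pOk q t = true) (hq : q = 0) : t ≤ 1 := by
  subst hq
  exact Nat.le_of_ble_eq_true h

theorem tc1a_nz {q t : ℕ} (h : (nz q || !nz t) = true) (hq : q = 0) : t = 0 := by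
  subst hq
  by_contra ht
  rw [(nz_iff t).2 ht] at h
  have h0 : nz 0 = true := by simpa using h
  exact (nz_iff 0).1 h0 rfl

theorem safe_un (h : safe md n ct = true) :
    n ≤ md.m ∧ ty2 n ct = true ∧ ∀ i < 3, ∀ j < 3, i ≠ j → md.pm i j = 0 → ty ct i j ≤ 1 := by
  unfold safe at h
  simp only [Bool.and_eq_true] at h
  obtain ⟨⟨⟨⟨⟨h1, h2⟩, h3⟩, h4⟩, h5⟩, -⟩ := h
  exact ⟨Nat.le_of_ble_eq_true h1, h2, tc1a_cases md ct (fun q t => q = 0 → t ≤ 1)
    (tc1a_pOk h3) (tc1a_pOk h4) (tc1a_pOk h5)⟩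

theorem pur_un (h : pur md ct = true) : ∀ i < 3, ∀ j < 3, i ≠ j → md.pm i j = 0 → ty ct i j = 0 := by
  unfold pur at h
  simp only [Bool.and_eq_true] at h
  exact tc1a_cases md ct (fun q t => q = 0 → t = 0) (tc1a_nz h.1.1) (tc1a_nz h.1.2) (tc1a_nz h.2)

theorem tc1b_one : wv (rOps x) (cd 0) = 1 := (wv_cd 0).trans (wt0 _)

theorem tc1b_zero : wv (rOps x) (cd 1) = 0 := (wv_cd 1).trans (wt1 _)

omit [DecidableEq α] [Fintype α] in
theorem tc1b_ne (hp : Pl U w n) : w 0 ≠ w 1 ∧ w 0 ≠ w 2 ∧ w 1 ≠ w 2 :=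
  ⟨fun e => absurd (hp.inj 0 (by omega) 1 (by omega) e) (by omega),
    fun e => absurd (hp.inj 0 (by omega) 2 (by omega) e) (by omega),
    fun e => absurd (hp.inj 1 (by omega) 2 (by omega) e) (by omega)⟩

theorem cg_val (hx : 0 < x) (hp : Pl U w n) (g : CG md U w τ n ct σ)
    (hu : ∀ i < 3, ∀ j < 3, i ≠ j → md.pm i j = 0 → ty ct i j ≤ 1) {β : T5 ℝ}
    (h : Fm x U (fun e => wt (ee x) (τ e)) w β) :
    FF x (cU U w n) σ = pr (cv (rOps x) n ct) (gm x md w τ β) := by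
  obtain ⟨h01, h02, h12⟩ := tc1b_ne hp
  have hF : Fm x U (fun e => wt (ee x) (σ e)) w β :=
    Form.congr h h01 h02 h12 fun a ha b hb a0 a1 a2 => by
      rw [g.out a ha b hb fun j hj => by
        obtain rfl | rfl | rfl : j = 0 ∨ j = 1 ∨ j = 2 := by omega
        exacts [a0.symm, a1.symm, a2.symm]]
  have hN := net_form hx n hp (fun i j => cd (ty ct i j)) _
    (fun i h1 h2 j hj => by rw [← g.inn i h1 h2 j (by omega) (by omega), wv_cd])
    (fun i h1 h2 z hz hj => by rw [g.far i h1 h2 z hz hj, wt0]) hF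
  have k : ∀ i < 3, ∀ j < 3, i ≠ j →
      wt (ee x) (σ s(w i, w j)) = wv (rOps x) (cd (ty ct i j)) * kap x md w τ i j := by
    intro i hi j hj hij
    have e := g.tt i hi j hj hij
    unfold kap
    by_cases h0 : md.pm i j = 0
    · rw [if_pos h0]
      by_cases h1 : ty ct i j = 1
      · rw [if_neg fun c => c.2 h1] at e
        rw [← wv_cd, e, h1, tc1b_zero, zero_mul]
      · rw [if_pos ⟨h0, h1⟩] at e
        have h2 : ty ct i j = 0 := by have := hu i hi j hj hij h0; omega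
        rw [h2, tc1b_one, one_mul, Fin.ext e]
    · rw [if_neg fun c => h0 c.1] at e
      rw [if_neg h0, ← wv_cd, e, mul_one]
  rw [FF, Form.eval hN fun _ _ _ _ _ _ _ => rfl, k 0 (by omega) 1 (by omega) (by omega),
    k 0 (by omega) 2 (by omega) (by omega), k 1 (by omega) 2 (by omega) (by omega)]
  simp only [pr, cv, outV, gm, had, wv_cm]
  simp only [rOps]
  ring

theorem out_val (hx : 0 < x) {r t : ℕ} (ho : Out md U w τ r t) {β : T5 ℝ}
    (h : Fm x U (fun e => wt (ee x) (τ e)) w β) :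
    gm x md w τ β = sc (1 + x) (gam (rOps x) r t) := by
  obtain ⟨u, hi, hw, hU, hin, htt⟩ := ho
  have m3 : ∀ z, z ∈ ({u 0, u 1, u 2} : Finset α) ↔ ∃ j < 3, u j = z := fun z => by
    simp only [mem_insert, mem_singleton]
    refine ⟨?_, fun ⟨j, hj, e⟩ => ?_⟩
    · rintro (rfl | rfl | rfl)
      exacts [⟨0, by omega, rfl⟩, ⟨1, by omega, rfl⟩, ⟨2, by omega, rfl⟩]
    · obtain rfl | rfl | rfl : j = 0 ∨ j = 1 ∨ j = 2 := by omega
      exacts [Or.inl e.symm, Or.inr (Or.inl e.symm), Or.inr (Or.inr e.symm)]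
  have hp : Pl {u 0, u 1, u 2} u r := ⟨hi, fun i h1 => (m3 _).2 ⟨i, h1, rfl⟩, fun i h1 h2 c => by
    obtain ⟨j, hj, e⟩ := (m3 _).1 c
    have := hi j (by omega) i h2 e
    omega⟩
  obtain ⟨h01, h02, h12⟩ := tc1b_ne hp
  have hN := net_form hx r hp (fun i j => cd (ty t i j)) (fun e => wt (ee x) (τ e))
    (fun i h1 h2 j hj => by rw [← hin i h1 h2 j (by omega) (by omega), wv_cd])
    (fun i _ _ z hz hj => by
      obtain ⟨j, h3, e⟩ := (m3 _).1 hz
      exact absurd e (hj j h3))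
    (β := ⟨(1 + x) * x * (1 - x), (1 + x) * x, (1 + x) * x, (1 + x) * x, 1 + x⟩)
    (form_three hx _ h01 h02 h12)
  have hc : cU {u 0, u 1, u 2} u r = U := by
    ext z
    rw [hU, cU, mem_union, m3]
    simp only [mem_image, mem_Ico, mem_range]
    refine ⟨?_, fun ⟨j, hj, e⟩ => ?_⟩
    · rintro (⟨j, hj, e⟩ | ⟨j, hj, e⟩)
      exacts [⟨j, by omega, e⟩, ⟨j, hj.2, e⟩]
    · by_cases h3 : j < 3
      exacts [Or.inl ⟨j, h3, e⟩, Or.inr ⟨j, ⟨by omega, hj⟩, e⟩]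
  rw [hc] at hN
  unfold Fm at hN
  rw [hw 0 (by omega), hw 1 (by omega), hw 2 (by omega)] at hN
  have k : ∀ i < 3, ∀ j < 3, i ≠ j → kap x md w τ i j = wv (rOps x) (cd (ty t i j)) := by
    intro i h1 j h2 hij
    rw [htt i h1 j h2 hij, kap]
    split_ifs
    · rw [wv_cd]
    · rw [tc1b_one]
  rw [Fm.unique h hN, gm, k 0 (by omega) 1 (by omega) (by omega),
    k 0 (by omega) 2 (by omega) (by omega), k 1 (by omega) 2 (by omega) (by omega)]
  simp only [sc, gam, cv, outV, had, wv_cm, T5.mk.injEq]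
  simp only [rOps, Int.cast_one]
  refine ⟨?_, ?_, ?_, ?_, ?_⟩ <;> ring

end Pool.Agent.Lib.MP_efe3d7_co.J.Tw
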