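import Pool.Agent.Lib.MP_efe3d7_co.J.Defs
import Pool.Agent.Lib.MP_efe3d7_co.H.FanD

/-! Windows with three terminals: the checker. -/

set_option autoImplicit false

namespace Pool.Agent.Lib.MP_efe3d7_co.J.Tw

open H
open H.Fn (T5)

noncomputable section

/-- The operations used by the evaluators. -/
structure Ops (β : Type) where
  /-- integer constants -/
  c : ℤ → β
  /-- the parameter -/
  x : β
  /-- the weight of a heavy edge -/
  r : β
  /-- sum -/
  add : β → β → β
  /-- difference -/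
  sub : β → β → β
  /-- product -/
  mul : β → β → β

/-- The real numbers. -/
def rOps (x : ℝ) : Ops ℝ :=
  ⟨fun z => z, x, -ee x, fun a b => a + b, fun a b => a - b, fun a b => a * b⟩

variable {β : Type} (O : Ops β)

/-- The weight with code `c`: zero, or a power of the heavy weight. -/
def wv (c : ℕ) : β :=
  Nat.rec (O.c 0) (fun m _ => Nat.rec (O.c 1) (fun _ u => O.mul O.r u) m) c

/-- The code of a type. -/
def cd (t : ℕ) : ℕ := bif Nat.beq t 1 then 0 else bif Nat.beq t 2 then 2 else 1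

/-- The code of a product. -/
def cm (a b : ℕ) : ℕ := bif Nat.beq a 0 || Nat.beq b 0 then 0 else Nat.pred (Nat.add a b)

/-- One inner vertex joined to the terminals. -/
def star (c a b : ℕ) : T5 β :=
  ⟨O.sub (O.sub (O.sub (O.sub (O.c 2) O.x) (wv O c)) (wv O a)) (wv O b),
    O.sub (O.sub (O.sub (O.c 1) O.x) (wv O (cm a c))) (wv O b),
    O.sub (O.sub (O.sub (O.c 1) O.x) (wv O (cm b c))) (wv O a),
    O.sub (O.sub (O.sub (O.c 1) O.x) (wv O c)) (wv O (cm a b)),
    O.sub (O.sub (O.c 0) O.x) (wv O (cm a (cm b c)))⟩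

/-- The product of vectors. -/
def had (f g : T5 β) : T5 β :=
  ⟨O.mul f.a g.a, O.mul f.b g.b, O.mul f.c g.c, O.mul f.d g.d, O.mul f.e g.e⟩

/-- Add a multiple of a vector. -/
def axp (u : β) (g f : T5 β) : T5 β :=
  ⟨O.add f.a (O.mul u g.a), O.add f.b (O.mul u g.b), O.add f.c (O.mul u g.c),
    O.add f.d (O.mul u g.d), O.add f.e (O.mul u g.e)⟩

/-- Merge vertex `d` into vertex `j`. -/
def mrg (t : ℕ → ℕ → ℕ) (d j : ℕ) : ℕ → ℕ → ℕ :=
  fun i k => bif Nat.beq i j then cm (t j k) (t d k) else t i k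

/-- The last inner vertex `d`, keeping its edges to the first `m` inner vertices. -/
def aux (F : (ℕ → ℕ → ℕ) → T5 β) (first : T5 β) (t : ℕ → ℕ → ℕ) (d m : ℕ) : T5 β :=
  Nat.rec first (fun j g => bif Nat.beq (t d (Nat.add 3 j)) 1 then g else
    axp O (O.sub (O.c 1) (wv O (t d (Nat.add 3 j)))) (F (mrg t d (Nat.add 3 j))) g) m

/-- The contribution of `n` inner vertices. -/
def net (n : ℕ) : (ℕ → ℕ → ℕ) → T5 β :=
  Nat.rec (fun _ => ⟨O.c 1, O.c 1, O.c 1, O.c 1, O.c 1⟩)
    (fun m F t => aux O F (bif Nat.beq m 0 then star O (t 3 0) (t 3 1) (t 3 2) else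
      had O (star O (t (Nat.add 3 m) 0) (t (Nat.add 3 m) 1) (t (Nat.add 3 m) 2)) (F t))
      t (Nat.add 3 m) m) n

/-- The edges between terminals. -/
def outV (g : T5 β) (s k t : ℕ) : T5 β :=
  ⟨g.a, O.mul (wv O s) g.b, O.mul (wv O k) g.c, O.mul (wv O t) g.d,
    O.mul (wv O (cm s (cm k t))) g.e⟩

/-- The vector of a network given by a table. -/
def cv (n ct : ℕ) : T5 β :=
  outV O (net O n fun i j => cd (ty ct i j)) (cd (ty ct 0 1)) (cd (ty ct 0 2)) (cd (ty ct 1 2))

/-- The vector of the rest of the graph, with the signs of the pairing. -/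
def gam (n ct : ℕ) : T5 β :=
  had O ⟨O.mul O.x (O.sub (O.c 1) O.x), O.x, O.x, O.x, O.c 1⟩ (cv O n ct)

/-- One step along a fan, for one row. -/
def rowT (s r : Bool) (t u : β) : β := bif s && r then O.sub u (O.mul (O.mul O.r O.r) t) else u

/-- One step along a fan, for one row. -/
def rowU (s r : Bool) (t u : β) : β :=
  bif s then O.add (O.mul (bif r then O.sub (O.sub (O.c 1) O.x) O.r else O.sub (O.c 1) O.x) u)
      (O.mul (O.mul O.x O.r) t)
    else O.mul (bif r then O.sub (O.sub (O.c 1) O.x) O.r else O.sub (O.c 1) O.x) u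

/-- One step along a fan. -/
def stp (s r : Bool) (a : T5 β) : T5 β :=
  ⟨bif r then O.mul (O.sub (O.c 1) O.r) a.a else a.a, rowT O s r a.b a.c, rowU O s r a.b a.c,
    rowT O s r a.d a.e, rowU O s r a.d a.e⟩

/-- The first state. -/
def ini (r : Bool) : T5 β :=
  bif r then ⟨O.sub (O.c 1) O.r, O.sub (O.c 0) O.r, O.x, O.c 1, O.sub (O.sub (O.c 1) O.x) O.r⟩
    else ⟨O.c 1, O.c 0, O.x, O.c 1, O.sub (O.c 1) O.x⟩

/-- The vector of a state; `t` and `s` are codes. -/
def fin (t s : ℕ) (a : T5 β) : T5 β :=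
  ⟨O.sub a.a a.e, O.mul (wv O s) (O.mul O.x a.d), O.sub (O.mul (O.sub (O.c 1) O.x) a.a) a.e,
    O.mul (wv O t) a.c, O.sub (O.c 0) (O.mul (wv O (cm s t)) (O.mul O.x a.b))⟩

/-- The state after `k` steps; `g` tells which edges are heavy. -/
def sta (g : ℕ → Bool) (k : ℕ) : T5 β :=
  Nat.rec (ini O (g 0)) (fun j a => stp O (g (Nat.add (Nat.mul 2 j) 1))
    (g (Nat.add (Nat.mul 2 j) 2)) a) k

/-- The function `(p + q x) / 1000`, up to the factor. -/
def lin (u : ℤ × ℤ) : β := O.add (O.c u.1) (O.mul (O.c u.2) O.x)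

/-- An end of the interval for coordinate `i`. -/
def en (R : List (ℤ × ℤ)) (i : ℕ) (b : Bool) : β :=
  lin O (R.getD (bif b then Nat.succ (Nat.mul 2 i) else Nat.mul 2 i) (0, 0))

/-- A corner of a box. -/
def crn (R : List (ℤ × ℤ)) (m : ℕ) : T5 β :=
  ⟨O.c 1000, en O R 0 (tb m 0), en O R 1 (tb m 1), en O R 2 (tb m 2), en O R 3 (tb m 3)⟩

/-- The dot product. -/
def dot (f g : T5 β) : β :=
  O.add (O.add (O.add (O.add (O.mul f.a g.a) (O.mul f.b g.b)) (O.mul f.c g.c)) (O.mul f.d g.d))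
    (O.mul f.e g.e)

/-- A minor of size two. -/
def m2 (a b c d : β) : β := O.sub (O.mul a d) (O.mul b c)

/-- A determinant of size four, from four entries of each of four vectors. -/
def d4 (p1 p2 p3 p4 q1 q2 q3 q4 r1 r2 r3 r4 s1 s2 s3 s4 : β) : β :=
  O.add (O.add
    (O.sub (O.mul (m2 O p1 p2 q1 q2) (m2 O r3 r4 s3 s4)) (O.mul (m2 O p1 p3 q1 q3) (m2 O r2 r4 s2 s4)))
    (O.add (O.mul (m2 O p1 p4 q1 q4) (m2 O r2 r3 s2 s3)) (O.mul (m2 O p2 p3 q2 q3) (m2 O r1 r4 s1 s4))))
    (O.sub (O.mul (m2 O p3 p4 q3 q4) (m2 O r1 r2 s1 s2)) (O.mul (m2 O p2 p4 q2 q4) (m2 O r1 r3 s1 s3)))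

/-- A vector orthogonal to four vectors. -/
def crs (p q r s : T5 β) : T5 β :=
  ⟨d4 O p.b p.c p.d p.e q.b q.c q.d q.e r.b r.c r.d r.e s.b s.c s.d s.e,
    d4 O p.c p.a p.d p.e q.c q.a q.d q.e r.c r.a r.d r.e s.c s.a s.d s.e,
    d4 O p.a p.b p.d p.e q.a q.b q.d q.e r.a r.b r.d r.e s.a s.b s.d s.e,
    d4 O p.b p.a p.c p.e q.b q.a q.c q.e r.b r.a r.c r.e s.b s.a s.c s.e,
    d4 O p.a p.b p.c p.d q.a q.b q.c q.d r.a r.b r.c r.d s.a s.b s.c s.d⟩

/-! Integer polynomials evaluated at a large power of two. -/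

/-- A fraction: exponent of the denominator, numerator `p - m`, bound for its norm. -/
structure KP where
  /-- exponent -/
  n : ℕ
  /-- positive part -/
  p : ℕ
  /-- negative part -/
  m : ℕ
  /-- bound -/
  b : ℕ

/-- The data of an interval. -/
structure Cx where
  /-- the denominator -/
  o : ℕ
  /-- its norm -/
  ob : ℕ
  /-- the parameter -/
  x : KP
  /-- the heavy weight -/
  r : KP
  /-- the base -/
  B : ℕ
  /-- half of the base -/
  hb : ℕ
  /-- the mask of leading bits -/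
  ms : ℕ
  /-- a power of the base -/
  tp : ℕ

/-- An evaluated fraction. -/
def mkK (n p m b : ℕ) : KP :=
  frc n fun n => frc p fun p => frc m fun m => frc b fun b => ⟨n, p, m, b⟩

/-- An evaluated fraction after cancellation. -/
def mkC (n p m b : ℕ) : KP :=
  frc p fun p => frc m fun m => mkK n (Nat.sub p m) (Nat.sub m p) b

/-- A sum after raising the exponent of the first term by `k`. -/
def adL (o ob k n p m b p' m' b' : ℕ) : KP :=
  frc (Nat.pow o k) fun z => mkC n (Nat.add (Nat.mul z p) p') (Nat.add (Nat.mul z m) m')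
    (Nat.add (Nat.mul (Nat.pow ob k) b) b')

/-- A sum. -/
def ad8 (o ob n p m b n' p' m' b' : ℕ) : KP :=
  Bool.rec (Bool.rec (adL o ob (Nat.sub n n') n p' m' b' p m b)
    (adL o ob (Nat.sub n' n) n' p m b p' m' b') (Nat.ble n n'))
    (mkC n (Nat.add p p') (Nat.add m m') (Nat.add b b')) (Nat.beq n n')

/-- Sum. -/
def kadd (o ob : ℕ) (u w : KP) : KP :=
  KP.rec (fun n p m b => KP.rec (fun n' p' m' b' => ad8 o ob n p m b n' p' m' b') w) u

/-- Difference. -/
def ksub (o ob : ℕ) (u w : KP) : KP :=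
  KP.rec (fun n p m b => KP.rec (fun n' p' m' b' => ad8 o ob n p m b n' m' p' b') w) u

/-- Product. -/
def kmul (u w : KP) : KP :=
  KP.rec (fun n p m b => KP.rec (fun n' p' m' b' => mkK (Nat.add n n')
    (Nat.add (Nat.mul p p') (Nat.mul m m')) (Nat.add (Nat.mul p m') (Nat.mul m p'))
    (Nat.mul b b')) w) u

/-- Constants. -/
def kc (z : ℤ) : KP := Int.rec (fun n => ⟨0, n, 0, n⟩) (fun n => ⟨0, 0, Nat.succ n, Nat.succ n⟩) z

/-- The operations on fractions. -/
def kOps (c : Cx) : Ops KP := ⟨kc, c.x, c.r, kadd c.o c.ob, ksub c.o c.ob, kmul⟩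

/-- The mask with the leading bit of each of `L` digits. -/
def mask (h L : ℕ) : ℕ := Nat.rec 0 (fun _ r => Nat.add (bt (Nat.pred h)) (Nat.shiftLeft r h)) L

/-- The data of the interval from `p / d` (excluded) to `q / d`. -/
def cxOf (h L p q d : ℕ) : Cx :=
  ⟨312 * d * (1 + bt h), 624 * d, ⟨1, 312 * (q + p * bt h), 0, 312 * (q + p)⟩,
    ⟨1, 0, 287 * (q + p * bt h), 287 * (q + p)⟩, bt h, bt (Nat.pred h), mask h L, bt (h * L)⟩

/-- The same, evaluated. -/
def mkCx (h L p q d : ℕ) (k : Cx → Bool) : Bool :=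
  frc (312 * d * (1 + bt h)) fun o => frc (624 * d) fun ob => frc (312 * (q + p * bt h)) fun xv =>
    frc (312 * (q + p)) fun xb => frc (287 * (q + p * bt h)) fun rv =>
      frc (287 * (q + p)) fun rb => frc (bt h) fun B => frc (bt (Nat.pred h)) fun hb =>
        frc (mask h L) fun ms => frc (bt (h * L)) fun tp =>
          k ⟨o, ob, ⟨1, xv, 0, xb⟩, ⟨1, 0, rv, rb⟩, B, hb, ms, tp⟩

/-- All digits are small. -/
def nnN (c : Cx) (N b : ℕ) : Bool :=
  Nat.ble b c.hb && Nat.beq (Nat.land N c.ms) 0 && Nat.blt N c.tp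

/-- A test for nonnegativity of `p - m`; the difference is passed on. -/
def nnK (c : Cx) (p m b : ℕ) (k : ℕ → Bool) : Bool :=
  frc p fun p => frc m fun m => Nat.ble m p && frc (Nat.sub p m) fun N => nnN c N b && k N

/-- The lowest digit is not zero. -/
def low (c : Cx) (N : ℕ) : Bool := nz (Nat.mod N c.B)

/-- A fraction is nonnegative. -/
def nn (c : Cx) (u : KP) : Bool := KP.rec (fun _ p m b => nnK c p m b fun _ => true) u

/-- A fraction is positive. -/
def ps (c : Cx) (u : KP) : Bool := KP.rec (fun _ p m b => nnK c p m b (low c)) u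

/-- A vector with a common exponent and a common bound. -/
structure VK where
  /-- exponent -/
  n : ℕ
  /-- bound -/
  b : ℕ
  /-- positive part -/
  p1 : ℕ
  /-- negative part -/
  m1 : ℕ
  /-- positive part -/
  p2 : ℕ
  /-- negative part -/
  m2 : ℕ
  /-- positive part -/
  p3 : ℕ
  /-- negative part -/
  m3 : ℕ
  /-- positive part -/
  p4 : ℕ
  /-- negative part -/
  m4 : ℕ
  /-- positive part -/
  p5 : ℕ
  /-- negative part -/
  m5 : ℕ

/-- The larger number. -/
def mx (a b : ℕ) : ℕ := Nat.add a (Nat.sub b a)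

/-- Raise the exponent to `N`. -/
def lft (c : Cx) (N : ℕ) (u : KP) (k : ℕ → ℕ → ℕ → Bool) : Bool :=
  KP.rec (fun n p m b => frc (Nat.pow c.o (Nat.sub N n)) fun z => frc (Nat.mul z p) fun p =>
    frc (Nat.mul z m) fun m => frc (Nat.mul (Nat.pow c.ob (Nat.sub N n)) b) fun b => k p m b) u

/-- Bring a vector to a common exponent. -/
def nrm (c : Cx) (u : T5 KP) (k : VK → Bool) : Bool :=
  T5.rec (fun a1 a2 a3 a4 a5 => frc (mx (mx (mx a1.n a2.n) (mx a3.n a4.n)) a5.n) fun N =>
    lft c N a1 fun p1 m1 b1 => lft c N a2 fun p2 m2 b2 => lft c N a3 fun p3 m3 b3 =>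
      lft c N a4 fun p4 m4 b4 => lft c N a5 fun p5 m5 b5 =>
        frc (mx (mx (mx b1 b2) (mx b3 b4)) b5) fun s =>
          k ⟨N, s, p1, m1, p2, m2, p3, m3, p4, m4, p5, m5⟩) u

/-- The numerators as fractions. -/
def VK.raw (u : VK) : T5 KP :=
  VK.rec (fun _ b p1 m1 p2 m2 p3 m3 p4 m4 p5 m5 =>
    ⟨⟨0, p1, m1, b⟩, ⟨0, p2, m2, b⟩, ⟨0, p3, m3, b⟩, ⟨0, p4, m4, b⟩, ⟨0, p5, m5, b⟩⟩) u

/-- A sum of five numbers. -/
def s5 (a b c d e : ℕ) : ℕ := Nat.add (Nat.add (Nat.add (Nat.add a b) c) d) e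

/-- A sum of two products. -/
def mm (a b c d : ℕ) : ℕ := Nat.add (Nat.mul a b) (Nat.mul c d)

/-- The dot product is nonnegative; it is passed on with its bound. -/
def dotK (c : Cx) (f g : VK) (k : ℕ → ℕ → Bool) : Bool :=
  VK.rec (fun _ b p1 m1 p2 m2 p3 m3 p4 m4 p5 m5 =>
    VK.rec (fun _ b' q1 n1 q2 n2 q3 n3 q4 n4 q5 n5 => frc (Nat.mul 5 (Nat.mul b b')) fun s =>
      nnK c (s5 (mm p1 q1 m1 n1) (mm p2 q2 m2 n2) (mm p3 q3 m3 n3) (mm p4 q4 m4 n4) (mm p5 q5 m5 n5))
        (s5 (mm p1 n1 m1 q1) (mm p2 n2 m2 q2) (mm p3 n3 m3 q3) (mm p4 n4 m4 q4) (mm p5 n5 m5 q5))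
        s fun N => k N s) g) f

/-- The pairing is positive. -/
def prP (c : Cx) (f g : VK) : Bool :=
  VK.rec (fun n b p1 m1 p2 m2 p3 m3 p4 m4 p5 m5 =>
    dotK c ⟨n, b, p1, m1, m2, p2, m3, p3, m4, p4, m5, p5⟩ g fun N _ => low c N) f

/-! Modes and admissible columns. -/

/-- The kind of a window. -/
structure Mo where
  /-- status of the first pair: `0` unknown, `1` free, `2` must stay an edge -/
  p01 : ℕ
  /-- status of the second pair -/
  p02 : ℕ
  /-- status of the third pair -/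
  p12 : ℕ
  /-- the first terminal needs two neighbours in the column -/
  f0 : Bool
  /-- the same for the second terminal -/
  f1 : Bool
  /-- the same for the third terminal -/
  f2 : Bool
  /-- the path on the terminals is admissible -/
  pa : Bool
  /-- the number of new vertices -/
  m : ℕ

/-- The status of a pair. -/
def Mo.pm (md : Mo) (i j : ℕ) : ℕ :=
  bif Nat.beq (Nat.add i j) 1 then md.p01 else bif Nat.beq (Nat.add i j) 2 then md.p02 else md.p12

/-- The flag of a terminal. -/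
def Mo.tf (md : Mo) (i : ℕ) : Bool :=
  bif Nat.beq i 0 then md.f0 else bif Nat.beq i 1 then md.f1 else md.f2

/-- All types are meaningful. -/
def ty2 (n ct : ℕ) : Bool := allB (Nat.add 3 n) fun i => allB i fun j => Nat.ble (ty ct i j) 2

/-- The type of a pair of terminals fits its status. -/
def pOk (q t : ℕ) : Bool := bif Nat.beq q 0 then Nat.ble t 1 else !Nat.beq q 2 || nz t

/-- Every set of inner vertices has three neighbours. -/
def l1 (n ct : ℕ) : Bool :=
  allB (bt n) fun B => !nz B || Nat.ble 3 (cnt (Nat.add 3 n) fun z =>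
    !(Nat.ble 3 z && tb B (Nat.sub z 3)) && anyB n fun u => tb B u && nz (ty ct (Nat.add 3 u) z))

/-- The terminal has two neighbours. -/
def dg2 (n ct t : ℕ) : Bool :=
  Nat.ble 2 (cnt (Nat.add 3 n) fun z => !Nat.beq z t && nz (ty ct t z))

/-- The column is admissible. -/
def safe (md : Mo) (n ct : ℕ) : Bool :=
  Nat.ble n md.m && ty2 n ct && pOk md.p01 (ty ct 0 1) && pOk md.p02 (ty ct 0 2) &&
    pOk md.p12 (ty ct 1 2) &&
    bif Nat.beq n 0 then nz (ty ct 0 1) && nz (ty ct 1 2) && (md.pa || nz (ty ct 0 2))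
    else l1 n ct && allB 3 fun t => !md.tf t || dg2 n ct t

/-- The number of edges. -/
def ce (n ct : ℕ) : ℕ := cp (Nat.add 3 n) fun i j => nz (ty ct i j)

/-- The number of hard edges. -/
def ch (n ct : ℕ) : ℕ := cp (Nat.add 3 n) fun i j => Nat.beq (ty ct i j) 1

/-- Nothing is put on pairs with unknown status. -/
def pur (md : Mo) (ct : ℕ) : Bool :=
  (nz md.p01 || !nz (ty ct 0 1)) && (nz md.p02 || !nz (ty ct 0 2)) && (nz md.p12 || !nz (ty ct 1 2))

/-- The weight among networks of the same size. -/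
def wgt (n ct : ℕ) : ℕ :=
  Nat.mul (Nat.pow 6 (Nat.sub (Nat.add n 21) (ch n ct))) (Nat.pow 5 (Nat.sub (Nat.add 4 (ch n ct)) n))

/-! Certificates with five columns. -/

/-- An evaluated column. -/
structure EC where
  /-- number of edges -/
  e : ℕ
  /-- nothing on unknown pairs -/
  pu : Bool
  /-- weight times the power of the denominator -/
  w : ℕ
  /-- its norm -/
  wb : ℕ
  /-- the dual vector -/
  g : VK

/-- An evaluated basis. -/
structure EB where
  /-- determinant -/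
  D : ℕ
  /-- its bound -/
  b : ℕ
  /-- first column -/
  c1 : EC
  /-- second column -/
  c2 : EC
  /-- third column -/
  c3 : EC
  /-- fourth column -/
  c4 : EC
  /-- fifth column -/
  c5 : EC

/-- Evaluate the data of a column `u` with vector `f` and dual vector `g`. -/
def mkEC (md : Mo) (c : Cx) (u : ℕ × ℕ) (f : VK) (g : T5 KP) (k : EC → Bool) : Bool :=
  safe md u.1 u.2 && frc (ce u.1 u.2) fun e => frc (wgt u.1 u.2) fun w =>
    frc (Nat.mul w (Nat.pow c.o f.n)) fun w1 => frc (Nat.mul w (Nat.pow c.ob f.n)) fun w2 =>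
      nrm c g fun g => Nat.beq g.n 0 &&
        Bool.rec (k ⟨e, false, w1, w2, g⟩) (k ⟨e, true, w1, w2, g⟩) (pur md u.2)

/-- Evaluate a basis. -/
def mkEB (md : Mo) (c : Cx) (u : T5 (ℕ × ℕ)) (k : EB → Bool) : Bool :=
  nrm c (cv (kOps c) u.a.1 u.a.2) fun f1 => nrm c (cv (kOps c) u.b.1 u.b.2) fun f2 =>
  nrm c (cv (kOps c) u.c.1 u.c.2) fun f3 => nrm c (cv (kOps c) u.d.1 u.d.2) fun f4 =>
  nrm c (cv (kOps c) u.e.1 u.e.2) fun f5 =>
  mkEC md c u.a f1 (crs (kOps c) f2.raw f3.raw f4.raw f5.raw) fun c1 =>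
  mkEC md c u.b f2 (crs (kOps c) f3.raw f1.raw f4.raw f5.raw) fun c2 =>
  mkEC md c u.c f3 (crs (kOps c) f1.raw f2.raw f4.raw f5.raw) fun c3 =>
  mkEC md c u.d f4 (crs (kOps c) f3.raw f2.raw f1.raw f5.raw) fun c4 =>
  mkEC md c u.e f5 (crs (kOps c) f3.raw f2.raw f4.raw f1.raw) fun c5 =>
  dotK c c1.g f1 fun D b => low c D && k ⟨D, b, c1, c2, c3, c4, c5⟩

/-- One column against the target `t`: `st` records strictness, `S`, `Sb` the weight used. -/
def colK (c : Cx) (E : EC) (t : VK) (N : ℕ) (sm st : Bool) (S Sb : ℕ)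
    (k : Bool → ℕ → ℕ → Bool) : Bool :=
  dotK c E.g t fun a b => bif Nat.blt E.e N then k (st || low c a) S Sb
    else sm && Nat.beq E.e N && E.pu &&
      k st (Nat.add S (Nat.mul a E.w)) (Nat.add Sb (Nat.mul b E.wb))

/-- The target lies in the cone of the basis. -/
def tchk (c : Cx) (E : EB) (t : VK) (N : ℕ) (sm : Bool) (W : ℕ) : Bool :=
  colK c E.c1 t N sm false 0 0 fun st S Sb => colK c E.c2 t N sm st S Sb fun st S Sb =>
  colK c E.c3 t N sm st S Sb fun st S Sb => colK c E.c4 t N sm st S Sb fun st S Sb =>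
  colK c E.c5 t N sm st S Sb fun st S Sb => st && (Nat.beq Sb 0 ||
    nnK c (Nat.mul E.D (Nat.mul W (Nat.pow c.o t.n))) S
      (Nat.add (Nat.mul E.b (Nat.mul W (Nat.pow c.ob t.n))) Sb) fun _ => true)

/-- Evaluate all members of a list. -/
def mkL {γ δ : Type} (f : γ → (δ → Bool) → Bool) (l : List γ) : (List δ → Bool) → Bool :=
  List.rec (fun k => k []) (fun a _ r k => f a fun b => r fun s => k (b :: s)) l

/-- A test for member `i` of a list. -/
def nth {γ : Type} (f : γ → Bool) (l : List γ) : ℕ → Bool :=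
  List.rec (fun _ => false) (fun a _ r i => Nat.rec (f a) (fun j _ => r j) i) l

/-- A test for all members of a list. -/
def allL {γ : Type} (f : γ → Bool) (l : List γ) : Bool :=
  List.rec true (fun a _ r => f a && r) l

/-- A test for some member of a list. -/
def anyL {γ : Type} (f : γ → Bool) (l : List γ) : Bool :=
  List.rec false (fun a _ r => f a || r) l

/-- Digit `i` in base `256`. -/
def dgt (a i : ℕ) : ℕ := Nat.mod (Nat.shiftRight a (Nat.mul 8 i)) 256

/-- The targets with a nonzero digit lie in the cone of the basis named by the digit. -/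
def fam (md : Mo) (c : Cx) (bs : List (T5 (ℕ × ℕ))) (M a : ℕ) (F : ℕ → T5 KP) (N : ℕ → ℕ)
    (sm : Bool) (W : ℕ → ℕ) : Bool :=
  mkL (mkEB md c) bs fun Es => allB M fun i => Nat.rec true (fun j _ =>
    nrm c (F i) fun t => nth (fun E => tchk c E t (N i) sm (W i)) Es j) (dgt a i)

/-- A test for all indices with a nonzero digit. -/
def sel (M a : ℕ) (f : ℕ → Bool) : Bool := allB M fun i => !nz (dgt a i) || f i

/-- The intervals with a nonzero digit `i` cover everything from `lo` to `hi`. -/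
def cov (lo hi : ℕ) (l : List (ℕ × ℕ × ℕ)) (i : ℕ) : Bool :=
  Nat.ble hi (l.foldl (fun r u => bif nz (dgt u.2.2 i) && Nat.ble u.1 r then mx r u.2.1 else r) lo)

/-- All pairings of the vectors `F i` with `g` are positive. -/
def posAll (c : Cx) (ts : List VK) (g : T5 KP) : Bool := nrm c g fun g => allL (fun t => prP c t g) ts

/-- Evaluate the vectors `F i`, `i < M`. -/
def mkV (c : Cx) (F : ℕ → T5 KP) (M : ℕ) : (List VK → Bool) → Bool :=
  Nat.rec (fun k => k []) (fun i r k => nrm c (F i) fun b => r fun s => k (b :: s)) M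

/-- A coordinate lies in its interval. -/
def inI (c : Cx) (R : List (ℤ × ℤ)) (i : ℕ) (l t : KP) : Bool :=
  nn c (ksub c.o c.ob (kmul (kc 1000) t) (kmul (en (kOps c) R i false) l)) &&
    nn c (ksub c.o c.ob (kmul (en (kOps c) R i true) l) (kmul (kc 1000) t))

/-- A state lies in a box. -/
def inR (c : Cx) (R : List (ℤ × ℤ)) (a : T5 KP) : Bool :=
  ps c a.a && inI c R 0 a.a a.b && inI c R 1 a.a a.c && inI c R 2 a.a a.d && inI c R 3 a.a a.e

/-! The rest of the graph when a column is exceptional. -/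

/-- Replace the types of the pairs of terminals. -/
def setT (t a b c : ℕ) : ℕ := sdg (sdg (sdg t (px 0 1) a) (px 0 2) b) (px 1 2) c

/-- The type `k` in the graph is compatible with the type `t` in the column. -/
def kOk (q t k : ℕ) : Bool :=
  bif Nat.beq q 0 then Nat.beq t 1 || Nat.beq k t else Nat.beq k 0 && (!Nat.beq q 2 || nz t)

/-- The terminal has enough neighbours in the rest with table `t`. -/
def thOk (md : Mo) (r t i : ℕ) : Bool :=
  Nat.ble 2 (cnt (Nat.add 3 r) fun z => !Nat.beq z i &&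
    (nz (ty t i z) || (Nat.blt z 3 && Nat.beq (md.pm i z) 2))) ||
  (md.tf i && anyB r fun u => nz (ty t i (Nat.add 3 u)))

/-- The rests that come from one entry. -/
def xone (md : Mo) (g : ℕ × ℕ × ℕ) (p : ℕ → ℕ → Bool) : Bool :=
  !(Nat.ble g.1 md.m && (nz g.1 || md.pa || nz (ty g.2.2 0 2))) ||
  allB 3 fun a => !kOk md.p01 (ty g.2.2 0 1) a || allB 3 fun b => !kOk md.p02 (ty g.2.2 0 2) b ||
    allB 3 fun c => !kOk md.p12 (ty g.2.2 1 2) c || frc (setT g.2.2 a b c) fun t =>
      !(allB 3 fun i => thOk md g.2.1 t i) || p g.2.1 t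

/-- The table of the window glued to the rest. -/
def glT (md : Mo) (ct r t i j : ℕ) : ℕ :=
  bif Nat.blt i 3 && Nat.blt j 3 then (bif Nat.beq (md.pm i j) 0 then ty t i j else ty ct i j)
  else bif Nat.blt i (Nat.add 3 r) && Nat.blt j (Nat.add 3 r) then ty t i j
  else bif (Nat.blt i 3 || Nat.ble (Nat.add 3 r) i) && (Nat.blt j 3 || Nat.ble (Nat.add 3 r) j) then
    ty ct (bif Nat.blt i 3 then i else Nat.sub i r) (bif Nat.blt j 3 then j else Nat.sub j r)
  else 0

/-- The glued graph is the exceptional graph `u.1`, by the permutation `u.2`. -/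
def isx (md : Mo) (n ct r t : ℕ) (u : ℕ × ℕ) : Bool :=
  Nat.blt u.1 10 && Nat.beq (xn u.1) (Nat.add (Nat.add 3 r) n) && frc (xt u.1) fun z =>
    allB (xn u.1) fun a => Nat.blt (dig u.2 a) (xn u.1) && allB a fun b =>
      !Nat.beq (dig u.2 a) (dig u.2 b) &&
        Nat.beq (ty z a b) (glT md ct r t (dig u.2 a) (dig u.2 b))

/-- Evaluate the vector of a rest. -/
def mkG (c : Cx) (g : ℕ × ℕ) (k : ℕ × ℕ × VK → Bool) : Bool :=
  nrm c (gam (kOps c) g.1 g.2) fun v => k (g.1, g.2, v)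

/-- The windows with a nonzero digit are positive or exceptional on all rests in `L`. -/
def xfam (md : Mo) (c : Cx) (L xc : List (ℕ × ℕ)) (M a n : ℕ) (T : ℕ → ℕ) : Bool :=
  mkL (mkG c) L fun G => sel M a fun i => frc (T i) fun ct => nrm c (cv (kOps c) n ct) fun t =>
    allL (fun g => prP c t g.2.2 || anyL (isx md n ct g.1 g.2.1) xc) G

/-- The table after renumbering. -/
def reT (z n σ : ℕ) : ℕ :=
  Nat.rec 0 (fun i r => Nat.rec r (fun j s => sdg s (px i j) (ty z (dig σ i) (dig σ j))) i) n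

/-- The numbering `σ` lists all vertices outside `K` and gives an entry of `G`. -/
def plc (G : List (ℕ × ℕ × ℕ)) (z n K k σ : ℕ) : Bool :=
  frc (reT z (Nat.sub n k) σ) fun t =>
    anyL (fun g => Nat.beq g.2.2 t && Nat.beq g.1 k && Nat.beq (Nat.add (Nat.add 3 g.2.1) k) n) G &&
    allB (Nat.sub n k) fun i => Nat.blt (dig σ i) n && !tb K (dig σ i) &&
      allB i fun j => !Nat.beq (dig σ i) (dig σ j)

/-- A search for a numbering: `s` more vertices after the first `i`. -/
def srch (n : ℕ) (f : ℕ → Bool) (s : ℕ) : ℕ → ℕ → ℕ → Bool :=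
  Nat.rec (fun _ σ _ => f σ) (fun _ r i σ m => anyB n fun v => !tb m v &&
    frc (sdg σ i v) fun σ' => frc (Nat.lor m (bt v)) fun m' => r (Nat.succ i) σ' m') s

/-- All ways to cut the table `z` along three vertices, the first being `a`, lead to `G`. -/
def xen (G : List (ℕ × ℕ × ℕ)) (z n a : ℕ) : Bool :=
  allB n fun b => Nat.beq a b || allB n fun c => Nat.beq a c || Nat.beq b c ||
    allB (bt n) fun K => tb K a || tb K b || tb K c || frc (pc n K) fun k => Nat.blt 3 k ||
      (!nz K && !(nz (ty z a b) && nz (ty z b c))) ||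
      (anyB n fun u => tb K u && anyB n fun v => !tb K v && !Nat.beq v a && !Nat.beq v b &&
        !Nat.beq v c && nz (ty z u v)) ||
      srch n (plc G z n K k) (Nat.sub (Nat.sub n k) 3) 3 (sdg (sdg (sdg 0 0 a) 1 b) 2 c)
        (Nat.lor K (Nat.lor (bt a) (Nat.lor (bt b) (bt c))))

end

end Pool.Agent.Lib.MP_efe3d7_co.J.Tw
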