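import Pool.Agent.Lib.MP_efe3d7_co.J.TS

set_option autoImplicit false

/-! One shared copy of some automatically generated unfolding lemmas. -/

theorem Pool.Agent.Lib.MP_efe3d7_co.J.Tw.nr_eq1Shared : type_of% @Pool.Agent.Lib.MP_efe3d7_co.J.Tw.nr.eq_1 :=
  @Pool.Agent.Lib.MP_efe3d7_co.J.Tw.nr.eq_1

theorem Pool.Agent.Lib.MP_efe3d7_co.J.Tw.nr_eq2Shared : type_of% @Pool.Agent.Lib.MP_efe3d7_co.J.Tw.nr.eq_2 :=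
  @Pool.Agent.Lib.MP_efe3d7_co.J.Tw.nr.eq_2

theorem Pool.Agent.Lib.MP_efe3d7_co.J.Tw.nr_eqdefShared : type_of% @Pool.Agent.Lib.MP_efe3d7_co.J.Tw.nr.eq_def :=
  @Pool.Agent.Lib.MP_efe3d7_co.J.Tw.nr.eq_def

theorem Pool.Agent.Lib.MP_efe3d7_co.J.Tw.pz_eq1Shared : type_of% @Pool.Agent.Lib.MP_efe3d7_co.J.Tw.pz.eq_1 :=
  @Pool.Agent.Lib.MP_efe3d7_co.J.Tw.pz.eq_1

theorem Pool.Agent.Lib.MP_efe3d7_co.J.Tw.pz_eq2Shared : type_of% @Pool.Agent.Lib.MP_efe3d7_co.J.Tw.pz.eq_2 :=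
  @Pool.Agent.Lib.MP_efe3d7_co.J.Tw.pz.eq_2

theorem Pool.Agent.Lib.MP_efe3d7_co.J.Tw.pz_eqdefShared : type_of% @Pool.Agent.Lib.MP_efe3d7_co.J.Tw.pz.eq_def :=
  @Pool.Agent.Lib.MP_efe3d7_co.J.Tw.pz.eq_def
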