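import Pool.Agent.Lib.MP_efe3d7_co.J.TS
import Pool.Agent.Lib.MP_efe3d7_co.J.TSEq

/-! Arithmetic of packed polynomials. -/

set_option autoImplicit false

open Finset

namespace Pool.Agent.Lib.MP_efe3d7_co.J.Tw

open H
open H.Fn (T5 pr pev)

variable {B : ℕ} {s : ℝ} {p m b p' m' b' : ℕ} {r r' : ℝ}

theorem tk1_pz_add (B : ℤ) (l k : List ℤ) : pz B (H.Fn.padd l k) = pz B l + pz B k := by
  induction l generalizing k with
  | nil => simp [H.Fn.padd, pz]
  | cons a l ih =>
    cases k with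
    | nil => simp [H.Fn.padd, pz]
    | cons b k => simp only [H.Fn.padd, pz, ih]; ring

theorem tk1_pz_sm (B c : ℤ) (l : List ℤ) : pz B (H.Fn.psm c l) = c * pz B l := by
  induction l with
  | nil => simp [H.Fn.psm, pz]
  | cons a l ih => simp only [H.Fn.psm, pz, ih]; ring

theorem tk1_pz_mul (B : ℤ) (l k : List ℤ) : pz B (H.Fn.pmul l k) = pz B l * pz B k := by
  induction l with
  | nil => simp [H.Fn.pmul, pz]
  | cons a l ih => simp only [H.Fn.pmul, pz, tk1_pz_add, tk1_pz_sm, ih]; ring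

theorem tk1_nr_add (l k : List ℤ) : nr (H.Fn.padd l k) ≤ nr l + nr k := by
  induction l generalizing k with
  | nil => simp [H.Fn.padd, nr]
  | cons a l ih =>
    cases k with
    | nil => simp [H.Fn.padd, nr]
    | cons b k =>
      have := ih k
      have := Int.natAbs_add_le a b
      simp only [H.Fn.padd, nr]
      omega

theorem tk1_nr_sm (c : ℤ) (l : List ℤ) : nr (H.Fn.psm c l) = c.natAbs * nr l := by
  induction l with
  | nil => simp [H.Fn.psm, nr]
  | cons a l ih => simp only [H.Fn.psm, nr, ih, Int.natAbs_mul]; ring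

theorem tk1_nr_mul (l k : List ℤ) : nr (H.Fn.pmul l k) ≤ nr l * nr k := by
  induction l with
  | nil => simp [H.Fn.pmul, nr]
  | cons a l ih =>
    refine (tk1_nr_add _ _).trans ?_
    simp only [nr, tk1_nr_sm, add_mul, Int.natAbs_zero, zero_add]
    omega

theorem Rp.mono (h : Rp B s p m b r) (hb : b ≤ b') : Rp B s p m b' r := by
  obtain ⟨l, h1, h2, h3⟩ := h
  exact ⟨l, h1, h2.trans hb, h3⟩

theorem Rp.add (h : Rp B s p m b r) (h' : Rp B s p' m' b' r') :
    Rp B s (p + p') (m + m') (b + b') (r + r') := by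
  obtain ⟨l, h1, h2, h3⟩ := h
  obtain ⟨k, k1, k2, k3⟩ := h'
  refine ⟨H.Fn.padd l k, ?_, (tk1_nr_add l k).trans (add_le_add h2 k2), ?_⟩
  · rw [tk1_pz_add, h1, k1]; push_cast; ring
  · rw [H.Fn.pev_add, h3, k3]

theorem Rp.neg (h : Rp B s p m b r) : Rp B s m p b (-r) := by
  obtain ⟨l, h1, h2, h3⟩ := h
  refine ⟨H.Fn.psm (-1) l, ?_, ?_, ?_⟩
  · rw [tk1_pz_sm, h1]; ring
  · simpa [tk1_nr_sm] using h2
  · rw [H.Fn.pev_sm, h3]; simp

theorem Rp.mul (h : Rp B s p m b r) (h' : Rp B s p' m' b' r') :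
    Rp B s (p * p' + m * m') (p * m' + m * p') (b * b') (r * r') := by
  obtain ⟨l, h1, h2, h3⟩ := h
  obtain ⟨k, k1, k2, k3⟩ := h'
  refine ⟨H.Fn.pmul l k, ?_, (tk1_nr_mul l k).trans (Nat.mul_le_mul h2 k2), ?_⟩
  · rw [tk1_pz_mul, h1, k1]; push_cast; ring
  · rw [H.Fn.pev_mul, h3, k3]

theorem Rp.can (h : Rp B s p m b r) : Rp B s (p - m) (m - p) b r := by
  obtain ⟨l, h1, h2, h3⟩ := h
  exact ⟨l, by omega, h2, h3⟩

theorem Rp.nat (B : ℕ) (s : ℝ) (n : ℕ) : Rp B s n 0 n n := by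
  exact ⟨[n], by simp [pz], by simp [nr], by simp⟩

theorem Rp.pow (h : Rp B s p 0 b r) (k : ℕ) : Rp B s (p ^ k) 0 (b ^ k) (r ^ k) := by
  induction k with
  | zero => simpa using Rp.nat B s 1
  | succ k ih => simpa [pow_succ] using ih.mul h

/-- A product with a nonnegative number. -/
theorem Rp.smul (h : Rp B s p 0 b r) (h' : Rp B s p' m' b' r') :
    Rp B s (p * p') (p * m') (b * b') (r * r') := by
  simpa using h.mul h'

variable {c : Cx} {x o : ℝ}

theorem tk1_mkC {n : ℕ} (hr : Rp c.B s p m b (o ^ n * r)) : RK c s o (mkC n p m b) r := by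
  simp only [mkC, mkK, frc_eq]
  exact hr.can

theorem tk1_ad8 (h : Good c x s o) {n n' : ℕ} (hr : Rp c.B s p m b (o ^ n * r))
    (hr' : Rp c.B s p' m' b' (o ^ n' * r')) :
    RK c s o (ad8 c.o c.ob n p m b n' p' m' b') (r + r') := by
  unfold ad8
  cases e : Nat.beq n n' with
  | true =>
    obtain rfl := Nat.eq_of_beq_eq_true e
    exact tk1_mkC (mul_add (o ^ n) r r' ▸ hr.add hr')
  | false =>
    cases e' : Nat.ble n n' with
    | true =>
      obtain ⟨k, rfl⟩ := Nat.exists_eq_add_of_le (Nat.le_of_ble_eq_true e')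
      have := ((h.ho.pow k).smul hr).add hr'
      rw [show o ^ k * (o ^ n * r) + o ^ (n + k) * r' = o ^ (n + k) * (r + r') by ring] at this
      simp only [adL, frc_eq, Nat.sub_eq, Nat.add_sub_cancel_left]
      exact tk1_mkC this
    | false =>
      obtain ⟨k, rfl⟩ := Nat.exists_eq_add_of_le (not_le.1 fun a => by
        rw [Nat.ble_eq_true_of_le a] at e'
        exact Bool.noConfusion e' : n' < n).le
      have := ((h.ho.pow k).smul hr').add hr
      rw [show o ^ k * (o ^ n' * r') + o ^ (n' + k) * r = o ^ (n' + k) * (r + r') by ring] at this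
      simp only [adL, frc_eq, Nat.sub_eq, Nat.add_sub_cancel_left]
      exact tk1_mkC this

theorem Good.hom (h : Good c x s o) : Hom (RK c s o) (kOps c) (rOps x) := by
  refine ⟨fun z => ?_, h.hx, h.hr, fun {a b a' b'} ha hb => ?_, fun {a b a' b'} ha hb => ?_,
    fun {a b a' b'} ha hb => ?_⟩
  · cases z with
    | ofNat n =>
      have := Rp.nat c.B s n
      rw [show (n : ℝ) = o ^ 0 * (Int.ofNat n : ℤ) by simp] at this
      exact this
    | negSucc n =>
      have := (Rp.nat c.B s (n + 1)).neg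
      rw [show -((n + 1 : ℕ) : ℝ) = o ^ 0 * (Int.negSucc n : ℤ) by simp] at this
      exact this
  · exact tk1_ad8 h ha hb
  · have := tk1_ad8 h ha (r' := -b') (mul_neg (o ^ b.n) b' ▸ Rp.neg hb)
    rw [← sub_eq_add_neg] at this
    exact this
  · have := Rp.mul ha hb
    rw [show o ^ a.n * a' * (o ^ b.n * b') = o ^ (a.n + b.n) * (a' * b') by ring] at this
    obtain ⟨n, p, m, e⟩ := a
    obtain ⟨n', p', m', e'⟩ := b
    simp only [kOps, kmul, mkK, frc_eq]
    exact this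

theorem nnK_sound (h : Good c x s o) {k : ℕ → Bool} (hr : Rp c.B s p m b r)
    (hk : nnK c p m b k = true) :
    ∃ N, Rp c.B s N 0 b r ∧ 0 ≤ r ∧ (low c N = true → 0 < r) ∧ k N = true := by
  simp only [nnK, frc_eq, Bool.and_eq_true, Nat.ble_eq, Nat.sub_eq] at hk
  have h1 := hr.can
  rw [Nat.sub_eq_zero_of_le hk.1] at h1
  exact ⟨_, h1, (h.nn _ _ _ h1 hk.2.1).1, (h.nn _ _ _ h1 hk.2.1).2, hk.2.2⟩

theorem nn_sound (h : Good c x s o) {u : KP} (hu : RK c s o u r) (hk : nn c u = true) : 0 ≤ r := by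
  obtain ⟨N, -, h1, -⟩ := nnK_sound h hu hk
  exact nonneg_of_mul_nonneg_right h1 (pow_pos h.o0 _)

theorem ps_sound (h : Good c x s o) {u : KP} (hu : RK c s o u r) (hk : ps c u = true) : 0 < r := by
  obtain ⟨N, -, -, h1, h2⟩ := nnK_sound h hu hk
  exact (mul_pos_iff_of_pos_left (pow_pos h.o0 _)).1 (h1 h2)

end Pool.Agent.Lib.MP_efe3d7_co.J.Tw
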