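import Pool.Agent.Lib.MP_efe3d7_co.J.TS
import Pool.Agent.Lib.MP_efe3d7_co.J.TSEq

/-! Digits of packed polynomials. -/

set_option autoImplicit false

open Finset

namespace Pool.Agent.Lib.MP_efe3d7_co.J.Tw

open H
open H.Fn (T5 pr pev)

theorem tk2_mask {h : ℕ} (h0 : 0 < h) (L : ℕ) :
    ∀ i < L, (mask h L).testBit (h * i + (h - 1)) = true := by
  induction L with
  | zero => intro i hi; omega
  | succ L ih =>
    intro i hi
    have e : mask h (L + 1) = 2 ^ h * mask h L + 2 ^ (h - 1) := by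
      show bt (h - 1) + mask h L <<< h = _
      rw [bt_eq, Nat.shiftLeft_eq]; ring
    rw [e, Nat.testBit_two_pow_mul_add _ (Nat.pow_lt_pow_right (by norm_num) (by omega))]
    cases i with
    | zero => simp [h0]
    | succ i =>
      have e2 : h * (i + 1) = h * i + h := by ring
      rw [if_neg (by omega), show h * (i + 1) + (h - 1) - h = h * i + (h - 1) by omega]
      exact ih i (by omega)

theorem tk2_list {h : ℕ} {s : ℝ} (h0 : 0 < h) (hs : 0 ≤ s) (l : List ℤ) :
    ∀ N : ℕ, (∀ i, N.testBit (h * i + (h - 1)) = false) → pz ((2 ^ h : ℕ) : ℤ) l = N →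
      nr l ≤ 2 ^ (h - 1) → 0 ≤ pev s l ∧ (N % 2 ^ h ≠ 0 → 0 < pev s l) := by
  induction l with
  | nil =>
    intro N _ e _
    have : N = 0 := by simpa [pz] using e.symm
    subst this
    simp
  | cons c l ih =>
    intro N hN e hb
    simp only [pz, nr] at e hb
    have hB : 2 ^ h = 2 * 2 ^ (h - 1) := by
      rw [← pow_succ']; congr 1; omega
    have h1 : N % 2 ^ h < 2 ^ (h - 1) := by
      refine Nat.lt_pow_two_of_testBit _ fun j hj => ?_
      rw [Nat.testBit_mod_two_pow]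
      by_cases hj2 : j < h
      · have := hN 0
        rw [show h * 0 + (h - 1) = j by omega] at this
        simp [this]
      · simp [hj2]
    have h2 := Nat.div_add_mod N (2 ^ h)
    have hp : 0 < 2 ^ (h - 1) := by positivity
    generalize 2 ^ (h - 1) = K at *
    have h3 : pz ((2 ^ h : ℕ) : ℤ) l = ((N / 2 ^ h : ℕ) : ℤ) := by
      have h4 : (N : ℤ) = ((2 ^ h : ℕ) : ℤ) * ((N / 2 ^ h : ℕ) : ℤ) + ((N % 2 ^ h : ℕ) : ℤ) := by
        exact_mod_cast h2.symm
      generalize pz ((2 ^ h : ℕ) : ℤ) l = z at *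
      generalize N / 2 ^ h = u at *
      generalize N % 2 ^ h = v at *
      rw [hB] at e h4
      push_cast at e h4
      have h5 : -(K : ℤ) ≤ c ∧ c ≤ K := by omega
      have h6 : (v : ℤ) < K := by exact_mod_cast h1
      have h7 : (0 : ℤ) ≤ v := by positivity
      by_contra hne
      rcases lt_or_gt_of_ne hne with h8 | h8
      · have : (K : ℤ) * (z + 1) ≤ K * u := mul_le_mul_of_nonneg_left h8 (by positivity)
        nlinarith
      · have : (K : ℤ) * (u + 1) ≤ K * z := mul_le_mul_of_nonneg_left h8 (by positivity)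
        nlinarith
    have h4 : c = ((N % 2 ^ h : ℕ) : ℤ) := by
      have h4 : (N : ℤ) = ((2 ^ h : ℕ) : ℤ) * ((N / 2 ^ h : ℕ) : ℤ) + ((N % 2 ^ h : ℕ) : ℤ) := by
        exact_mod_cast h2.symm
      rw [h3] at e
      linarith
    have h5 := (ih (N / 2 ^ h) (fun i => by
      rw [Nat.testBit_div_two_pow, ← hN (i + 1)]; congr 1; ring) h3 (by omega)).1
    have h6 := mul_nonneg hs h5
    rw [H.Fn.pev_cons, h4, Int.cast_natCast]
    refine ⟨add_nonneg (Nat.cast_nonneg _) h6, fun h7 => add_pos_of_pos_of_nonneg ?_ h6⟩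
    exact_mod_cast Nat.pos_of_ne_zero h7

/-- If all digits are small they are the coefficients. -/
theorem digits_pos {h L N b : ℕ} {s r : ℝ} (h0 : 0 < h) (hs : 0 ≤ s) (hr : Rp (bt h) s N 0 b r)
    (hb : b ≤ bt (Nat.pred h)) (hm : Nat.land N (mask h L) = 0) (ht : N < bt (h * L)) :
    0 ≤ r ∧ (N % bt h ≠ 0 → 0 < r) := by
  obtain ⟨l, e, h1, rfl⟩ := hr
  simp only [bt_eq] at *
  refine tk2_list h0 hs l N (fun i => ?_) (by simpa using e) (h1.trans hb)
  by_cases hi : i < L
  · have h2 : (N &&& mask h L).testBit (h * i + (h - 1)) = false := by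
      rw [show N &&& mask h L = 0 from hm]; simp
    simpa [Nat.testBit_and, tk2_mask h0 L i hi] using h2
  · refine Nat.testBit_lt_two_pow (ht.trans_le (Nat.pow_le_pow_right (by norm_num) ?_))
    exact (Nat.mul_le_mul_left h (not_lt.1 hi)).trans (Nat.le_add_right _ _)

theorem good_of {h L p q d : ℕ} {x : ℝ} (h0 : 0 < h) (hx : Inn d p q x) :
    ∃ s o, Good (cxOf h L p q d) x s o := by
  obtain ⟨h1, h2⟩ := hx
  have hp : (0 : ℝ) ≤ p := Nat.cast_nonneg p
  have hd : (0 : ℝ) < d := by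
    rcases Nat.eq_zero_or_pos d with rfl | hd
    · simp at h1; linarith
    · exact_mod_cast hd
  have h3 : 0 < d * x - p := by linarith
  have hs : 0 ≤ (q - d * x) / (d * x - p) := div_nonneg (by linarith) h3.le
  have he : (q - d * x) / (d * x - p) * (d * x - p) = q - d * x := div_mul_cancel₀ _ h3.ne'
  generalize (q - d * x) / (d * x - p) = s at hs he
  refine ⟨s, 312 * d * (1 + s), by positivity, ⟨[312 * d, 312 * d], ?_, ?_, ?_⟩,
    ⟨[312 * q, 312 * p], ?_, ?_, ?_⟩, ⟨[-(287 * q), -(287 * p)], ?_, ?_, ?_⟩, ?_⟩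
  · simp only [pz, cxOf]; push_cast; ring
  · simp only [nr, cxOf]; omega
  · simp only [H.Fn.pev_cons, H.Fn.pev_nil]; push_cast; ring
  · simp only [pz, cxOf]; push_cast; ring
  · simp only [nr, cxOf]; omega
  · simp only [H.Fn.pev_cons, H.Fn.pev_nil, cxOf]; push_cast; linear_combination (-312) * he
  · simp only [pz, cxOf]; push_cast; ring
  · simp only [nr, cxOf]; omega
  · simp only [H.Fn.pev_cons, H.Fn.pev_nil, cxOf, ee]; push_cast; linear_combination 287 * he
  · intro N b r hr hn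
    simp only [nnN, cxOf, Bool.and_eq_true, Nat.ble_eq, Nat.beq_eq, Nat.blt_eq] at hn
    have := digits_pos h0 hs hr hn.1.1 hn.1.2 hn.2
    exact ⟨this.1, fun hl => this.2 ((nz_iff _).1 hl)⟩

theorem mkCx_sound {h L p q d : ℕ} {x : ℝ} {k : Cx → Bool} (h0 : 0 < h) (hx : Inn d p q x)
    (hk : mkCx h L p q d k = true) : ∃ c s o, Good c x s o ∧ k c = true := by
  obtain ⟨s, o, hg⟩ := good_of (L := L) h0 hx
  simp only [mkCx, frc_eq] at hk
  exact ⟨_, s, o, hg, hk⟩

end Pool.Agent.Lib.MP_efe3d7_co.J.Tw
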