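import Pool.Agent.Lib.MP_efe3d7_co.J.TK1

/-! Vectors of packed polynomials. -/

set_option autoImplicit false

open Finset

namespace Pool.Agent.Lib.MP_efe3d7_co.J.Tw

open H
open H.Fn (T5 pr pev)

variable {c : Cx} {x s o : ℝ}

theorem tk3_mx (a b : ℕ) : mx a b = max a b := by
  simp only [mx, Nat.add_eq, Nat.sub_eq]
  omega

theorem tk3_lft (h : Good c x s o) {N : ℕ} {u : KP} {r : ℝ} {k : ℕ → ℕ → ℕ → Bool}
    (hu : RK c s o u r) (hN : u.n ≤ N) (hk : lft c N u k = true) :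
    ∃ p m b, Rp c.B s p m b (o ^ N * r) ∧ k p m b = true := by
  obtain ⟨n, p, m, b⟩ := u
  simp only [lft, frc_eq] at hk
  refine ⟨_, _, _, ?_, hk⟩
  have := (h.ho.pow (N - n)).smul hu
  rwa [← mul_assoc, ← pow_add, Nat.sub_add_cancel hN] at this

theorem nrm_sound (h : Good c x s o) {u : T5 KP} {f : T5 ℝ} {k : VK → Bool}
    (hu : R5 (RK c s o) u f) (hk : nrm c u k = true) : ∃ v, RV c s o v f ∧ k v = true := by
  obtain ⟨a1, a2, a3, a4, a5⟩ := u
  obtain ⟨h1, h2, h3, h4, h5⟩ := hu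
  simp only [nrm, frc_eq, tk3_mx] at hk
  obtain ⟨p1, m1, b1, e1, hk⟩ := tk3_lft h h1 (by simp) hk
  obtain ⟨p2, m2, b2, e2, hk⟩ := tk3_lft h h2 (by simp) hk
  obtain ⟨p3, m3, b3, e3, hk⟩ := tk3_lft h h3 (by simp) hk
  obtain ⟨p4, m4, b4, e4, hk⟩ := tk3_lft h h4 (by simp) hk
  obtain ⟨p5, m5, b5, e5, hk⟩ := tk3_lft h h5 (by simp) hk
  exact ⟨_, ⟨e1.mono (by simp), e2.mono (by simp), e3.mono (by simp), e4.mono (by simp),
    e5.mono (by simp)⟩, hk⟩

theorem RV.raw {v : VK} {f : T5 ℝ} (hv : RV c s o v f) :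
    R5 (RK c s o) v.raw (sc (o ^ v.n) f) := by
  obtain ⟨n, b, p1, m1, p2, m2, p3, m3, p4, m4, p5, m5⟩ := v
  simpa only [R5, RK, VK.raw, sc, pow_zero, one_mul, RV] using hv

theorem dotK_sound (h : Good c x s o) {u v : VK} {f g : T5 ℝ} {k : ℕ → ℕ → Bool}
    (hu : RV c s o u f) (hv : RV c s o v g) (hk : dotK c u v k = true) :
    ∃ N b, Rp c.B s N 0 b (o ^ u.n * o ^ v.n * dot (rOps x) f g) ∧ 0 ≤ dot (rOps x) f g ∧
      (low c N = true → 0 < dot (rOps x) f g) ∧ k N b = true := by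
  obtain ⟨n, b, p1, m1, p2, m2, p3, m3, p4, m4, p5, m5⟩ := u
  obtain ⟨n', b', q1, n1, q2, n2, q3, n3, q4, n4, q5, n5⟩ := v
  obtain ⟨a1, a2, a3, a4, a5⟩ := hu
  obtain ⟨c1, c2, c3, c4, c5⟩ := hv
  simp only [dotK, frc_eq] at hk
  have e := (((((a1.mul c1).add (a2.mul c2)).add (a3.mul c3)).add (a4.mul c4)).add
    (a5.mul c5)).mono (b' := Nat.mul 5 (Nat.mul b b')) (by simp only [Nat.mul_eq]; omega)
  have e2 : o ^ n * f.a * (o ^ n' * g.a) + o ^ n * f.b * (o ^ n' * g.b) +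
      o ^ n * f.c * (o ^ n' * g.c) + o ^ n * f.d * (o ^ n' * g.d) + o ^ n * f.e * (o ^ n' * g.e) =
      o ^ n * o ^ n' * dot (rOps x) f g := by
    simp only [dot, rOps]
    ring
  have hp : 0 < o ^ n * o ^ n' := mul_pos (pow_pos h.o0 _) (pow_pos h.o0 _)
  obtain ⟨N, d1, d2, d3, d4⟩ := nnK_sound h (e2 ▸ e) hk
  exact ⟨N, _, d1, nonneg_of_mul_nonneg_right d2 hp, fun hl => (mul_pos_iff_of_pos_left hp).1 (d3 hl),
    d4⟩

theorem prP_sound (h : Good c x s o) {u v : VK} {f g : T5 ℝ} (hu : RV c s o u f)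
    (hv : RV c s o v g) (hk : prP c u v = true) : 0 < pr f g := by
  obtain ⟨n, b, p1, m1, p2, m2, p3, m3, p4, m4, p5, m5⟩ := u
  obtain ⟨a1, a2, a3, a4, a5⟩ := hu
  obtain ⟨N, _, -, -, d3, d4⟩ := dotK_sound h (f := ⟨f.a, -f.b, -f.c, -f.d, -f.e⟩)
    (u := ⟨n, b, p1, m1, m2, p2, m3, p3, m4, p4, m5, p5⟩) (k := fun N _ => low c N)
    ⟨a1, mul_neg (o ^ n) f.b ▸ a2.neg, mul_neg (o ^ n) f.c ▸ a3.neg, mul_neg (o ^ n) f.d ▸ a4.neg,
      mul_neg (o ^ n) f.e ▸ a5.neg⟩ hv hk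
  have := d3 d4
  simp only [dot, rOps] at this
  unfold pr
  linarith

theorem allL_iff {γ : Type} (f : γ → Bool) (l : List γ) :
    allL f l = true ↔ ∀ a ∈ l, f a = true := by
  induction l with
  | nil => simp [allL]
  | cons a l ih =>
    have e : allL f (a :: l) = (f a && allL f l) := rfl
    simp [e, ih]

theorem anyL_iff {γ : Type} (f : γ → Bool) (l : List γ) :
    anyL f l = true ↔ ∃ a ∈ l, f a = true := by
  induction l with
  | nil => simp [anyL]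
  | cons a l ih =>
    have e : anyL f (a :: l) = (f a || anyL f l) := rfl
    simp [e, ih]

theorem nth_mem {γ : Type} {f : γ → Bool} {l : List γ} {i : ℕ} (h : nth f l i = true) :
    ∃ a ∈ l, f a = true := by
  induction l generalizing i with
  | nil => simp [nth] at h
  | cons a l ih =>
    cases i with
    | zero => exact ⟨a, List.mem_cons_self, h⟩
    | succ i =>
      obtain ⟨b, hb, e⟩ := ih (i := i) h
      exact ⟨b, List.mem_cons_of_mem _ hb, e⟩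

theorem mkL_sound {γ δ : Type} {f : γ → (δ → Bool) → Bool} (P : γ → δ → Prop)
    (hf : ∀ a k, f a k = true → ∃ b, P a b ∧ k b = true) {l : List γ} {k : List δ → Bool}
    (h : mkL f l k = true) :
    ∃ s, (∀ b ∈ s, ∃ a ∈ l, P a b) ∧ (∀ a ∈ l, ∃ b ∈ s, P a b) ∧ k s = true := by
  induction l generalizing k with
  | nil => exact ⟨[], by simp, by simp, h⟩
  | cons a l ih =>
    obtain ⟨b, hb, e⟩ := hf a _ h
    obtain ⟨t, h1, h2, h3⟩ := ih (k := fun s => k (b :: s)) e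
    refine ⟨b :: t, fun z hz => ?_, fun z hz => ?_, h3⟩
    · rcases List.mem_cons.1 hz with rfl | hz
      · exact ⟨a, List.mem_cons_self, hb⟩
      · obtain ⟨y, hy, e⟩ := h1 z hz
        exact ⟨y, List.mem_cons_of_mem _ hy, e⟩
    · rcases List.mem_cons.1 hz with rfl | hz
      · exact ⟨b, List.mem_cons_self, hb⟩
      · obtain ⟨y, hy, e⟩ := h2 z hz
        exact ⟨y, List.mem_cons_of_mem _ hy, e⟩

theorem mkV_sound (h : Good c x s o) {F : ℕ → T5 KP} {F' : ℕ → T5 ℝ}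
    (hF : ∀ i, R5 (RK c s o) (F i) (F' i)) {M : ℕ} {k : List VK → Bool}
    (hk : mkV c F M k = true) : ∃ ts, (∀ i < M, ∃ t ∈ ts, RV c s o t (F' i)) ∧ k ts = true := by
  induction M generalizing k with
  | zero => exact ⟨[], by simp, hk⟩
  | succ M ih =>
    have hk' : nrm c (F M) (fun b => mkV c F M fun s => k (b :: s)) = true := hk
    obtain ⟨b, hb, e⟩ := nrm_sound h (hF M) hk'
    obtain ⟨t, h1, h3⟩ := ih (k := fun s => k (b :: s)) e
    refine ⟨b :: t, fun i hi => ?_, h3⟩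
    rcases Nat.lt_succ_iff_lt_or_eq.1 hi with hi | rfl
    · obtain ⟨y, hy, e⟩ := h1 i hi
      exact ⟨y, List.mem_cons_of_mem _ hy, e⟩
    · exact ⟨b, List.mem_cons_self, hb⟩

theorem posAll_sound (h : Good c x s o) {ts : List VK} {g : T5 KP} {g' : T5 ℝ}
    (hg : R5 (RK c s o) g g') (hk : posAll c ts g = true) {t : VK} (ht : t ∈ ts) {f : T5 ℝ}
    (hf : RV c s o t f) : 0 < pr f g' := by
  obtain ⟨v, hv, e⟩ := nrm_sound h hg hk
  exact prP_sound h hf hv ((allL_iff _ _).1 e t ht)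

theorem sel_sound {M a : ℕ} {f : ℕ → Bool} (h : sel M a f = true) {i : ℕ} (hi : i < M)
    (hd : dgt a i ≠ 0) : f i = true := by
  have := (allB_iff _ _).1 h i hi
  simpa [(nz_iff _).2 hd] using this

theorem cov_sound {d lo hi i : ℕ} {l : List (ℕ × ℕ × ℕ)} (h : cov lo hi l i = true)
    (hx : Inn d lo hi x) : ∃ u ∈ l, dgt u.2.2 i ≠ 0 ∧ Inn d u.1 u.2.1 x := by
  have key : ∀ (l : List (ℕ × ℕ × ℕ)) (r : ℕ), d * x ≤ (l.foldl (fun r u =>
      bif nz (dgt u.2.2 i) && Nat.ble u.1 r then mx r u.2.1 else r) r : ℕ) →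
      d * x ≤ r ∨ ∃ u ∈ l, dgt u.2.2 i ≠ 0 ∧ Inn d u.1 u.2.1 x := fun l => by
    induction l with
    | nil => exact fun r hr => Or.inl hr
    | cons u l ih =>
      intro r hr
      rcases ih _ hr with h1 | ⟨v, hv, e⟩
      · rcases le_or_gt (d * x) r with h2 | h2
        · exact Or.inl h2
        cases hb : nz (dgt u.2.2 i) && Nat.ble u.1 r
        · exact Or.inl (by simpa [hb] using h1)
        · simp only [hb, cond_true, tk3_mx, Nat.cast_max, le_max_iff] at h1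
          rw [Bool.and_eq_true, nz_iff, Nat.ble_eq] at hb
          exact Or.inr ⟨u, List.mem_cons_self, hb.1, (Nat.cast_le.2 hb.2).trans_lt h2,
            h1.resolve_left h2.not_ge⟩
      · exact Or.inr ⟨v, List.mem_cons_of_mem _ hv, e⟩
  exact (key l lo (hx.2.trans (Nat.cast_le.2 (Nat.ble_eq ▸ h)))).resolve_left hx.1.not_ge

theorem xsub_sound {G : List (ℕ × ℕ × ℕ)} {md : Mo} {L : List (ℕ × ℕ)} (h : xsub G md L = true)
    {r t : ℕ} (hx : XIn G md r t) : (r, t) ∈ L := by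
  obtain ⟨u, hu, e⟩ := (anyL_iff _ _).1 (hx _ h)
  rw [Bool.and_eq_true, Nat.beq_eq, Nat.beq_eq] at e
  rwa [← e.1, ← e.2]

end Pool.Agent.Lib.MP_efe3d7_co.J.Tw
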