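import Pool.Agent.Lib.MP_efe3d7_co.J.TH
import Pool.Agent.Lib.MP_efe3d7_co.H.FanC3

/-! The value of a small network. -/

set_option autoImplicit false

open Finset

namespace Pool.Agent.Lib.MP_efe3d7_co.J.Tw

open H
open H.Fn (T5 pr pev)

variable {α : Type} [DecidableEq α] [Fintype α] {V U : Finset α} {τ σ : Sym2 α → Fin 3}
  {w : ℕ → α} {md : Mo} {n ct : ℕ} {x : ℝ}

/-- Deletion and contraction of an inner pair. -/
theorem Fm.del (hx : 0 < x) {y : Sym2 α → ℝ} {u v : α} (hu : u ∈ V) (hv : v ∈ V) (huv : u ≠ v)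
    (h01 : w 0 ≠ w 1) (h02 : w 0 ≠ w 2) (h12 : w 1 ≠ w 2) (nu : ∀ i < 3, u ≠ w i)
    (nv : ∀ i < 3, v ≠ w i) {β β' : T5 ℝ} (h1 : Fm x V (Function.update y s(u, v) 1) w β)
    (h2 : Fm x (V.erase v) (mergeW y u v) w β') :
    Fm x V y w (axp (rOps x) (1 - y s(u, v)) β' β) := by
  intro t₁ t₂ t₃
  have u0 := nu 0 (by omega)
  have u1 := nu 1 (by omega)
  have u2 := nu 2 (by omega)
  have v0 := nv 0 (by omega)
  have v1 := nv 1 (by omega)
  have v2 := nv 2 (by omega)
  have ne : ∀ a b, u ≠ a → u ≠ b → s(a, b) ≠ s(u, v) := fun a b ha hb e => by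
    rcases Sym2.eq_iff.1 e with e | e
    · exact ha e.1.symm
    · exact hb e.2.symm
  rw [ff_del hx hu hv huv, Form.eval h1, Form.eval h2, Function.update_of_ne (ne _ _ u0 u1),
    Function.update_of_ne (ne _ _ u0 u2), Function.update_of_ne (ne _ _ u1 u2),
    mergeW_of_ne _ _ u0.symm u1.symm, mergeW_of_ne _ _ u0.symm u2.symm,
    mergeW_of_ne _ _ u1.symm u2.symm, set3_ra, set3_rb _ h12, set3_ab _ h01 h02,
    set3_out _ u0 u1 u2]
  · simp only [axp, rOps]
    ring
  · intro p _ q _ p0 p1 p2
    by_cases hp : p = u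
    · rw [hp, mergeW_self, mergeW_self, set3_out _ u0 u1 u2, set3_out _ v0 v1 v2]
    by_cases hq : q = u
    · rw [hq, Sym2.eq_swap, mergeW_self, mergeW_self, set3_out _ u0 u1 u2, set3_out _ v0 v1 v2]
    rw [mergeW_of_ne _ _ hp hq, mergeW_of_ne _ _ hp hq, set3_out _ p0 p1 p2]
  · intro p _ q _ p0 p1 p2
    by_cases he : s(p, q) = s(u, v)
    · rw [he, Function.update_self, Function.update_self]
    · rw [Function.update_of_ne he, Function.update_of_ne he, set3_out _ p0 p1 p2]

theorem Fm.unique {y : Sym2 α → ℝ} {β β' : T5 ℝ} (h1 : Fm x U y w β) (h2 : Fm x U y w β') :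
    β = β' := by
  have e0 := (h1 0 0 0).symm.trans (h2 0 0 0)
  have e1 := (h1 1 0 0).symm.trans (h2 1 0 0)
  have e2 := (h1 0 1 0).symm.trans (h2 0 1 0)
  have e3 := (h1 0 0 1).symm.trans (h2 0 0 1)
  have e4 := (h1 1 1 1).symm.trans (h2 1 1 1)
  obtain ⟨a, b, c, d, e⟩ := β
  obtain ⟨a', b', c', d', e'⟩ := β'
  simp only [T5.mk.injEq] at *
  refine ⟨?_, ?_, ?_, ?_, ?_⟩ <;> linarith

omit [Fintype α] in
theorem tn_succ (U : Finset α) (w : ℕ → α) (n : ℕ) :
    cU U w (n + 1) = insert (w (3 + n)) (cU U w n) := by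
  rw [cU, cU, ← add_assoc, ← Finset.insert_Ico_right_eq_Ico_add_one (by omega), image_insert,
    union_insert]

omit [Fintype α] in
theorem tn_mem {z : α} (hz : z ∈ cU U w n) : z ∈ U ∨ ∃ i, 3 ≤ i ∧ i < 3 + n ∧ w i = z := by
  rcases mem_union.1 hz with h | h
  · exact Or.inl h
  · obtain ⟨i, hi, e⟩ := mem_image.1 h
    exact Or.inr ⟨i, (mem_Ico.1 hi).1, (mem_Ico.1 hi).2, e⟩

theorem tn_first (n : ℕ) (t : ℕ → ℕ → ℕ) : net (rOps x) (n + 1) t =
    aux (rOps x) (net (rOps x) n) (had (rOps x)
      (star (rOps x) (t (3 + n) 0) (t (3 + n) 1) (t (3 + n) 2)) (net (rOps x) n t)) t (3 + n) n := by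
  cases n with
  | zero =>
    change star (rOps x) (t 3 0) (t 3 1) (t 3 2) = had (rOps x) (star (rOps x) (t 3 0) (t 3 1) (t 3 2))
      ⟨((1 : ℤ) : ℝ), ((1 : ℤ) : ℝ), ((1 : ℤ) : ℝ), ((1 : ℤ) : ℝ), ((1 : ℤ) : ℝ)⟩
    generalize star (rOps x) (t 3 0) (t 3 1) (t 3 2) = g
    simp [had, rOps]
  | succ n => rfl

theorem tn_aux (F : (ℕ → ℕ → ℕ) → T5 ℝ) (f : T5 ℝ) (t : ℕ → ℕ → ℕ) (d m : ℕ) :
    aux (rOps x) F f t d (m + 1) = axp (rOps x) (1 - wv (rOps x) (t d (3 + m)))
      (F (mrg t d (3 + m))) (aux (rOps x) F f t d m) := by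
  have e : aux (rOps x) F f t d (m + 1) = bif Nat.beq (t d (3 + m)) 1 then aux (rOps x) F f t d m
      else axp (rOps x) (((1 : ℤ) : ℝ) - wv (rOps x) (t d (3 + m))) (F (mrg t d (3 + m)))
        (aux (rOps x) F f t d m) := rfl
  rw [e]
  cases h : Nat.beq (t d (3 + m)) 1
  · rw [cond_false, Int.cast_one]
  · rw [cond_true, Nat.eq_of_beq_eq_true h, wv_succ 0]
    generalize aux (rOps x) F f t d m = g
    simp [axp, rOps]

theorem net_form (hx : 0 < x) (n : ℕ) (hp : Pl U w n) (t : ℕ → ℕ → ℕ) (y : Sym2 α → ℝ)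
    (hy : ∀ i, 3 ≤ i → i < 3 + n → ∀ j < i, y s(w i, w j) = wv (rOps x) (t i j))
    (hz : ∀ i, 3 ≤ i → i < 3 + n → ∀ z ∈ U, (∀ j < 3, w j ≠ z) → y s(w i, z) = 1)
    {β : T5 ℝ} (h : Fm x U y w β) :
    Fm x (cU U w n) y w (had (rOps x) (net (rOps x) n t) β) := by
  induction n generalizing t y with
  | zero =>
    have e : had (rOps x) (net (rOps x) 0 t) β = β := by
      change had (rOps x) ⟨((1 : ℤ) : ℝ), ((1 : ℤ) : ℝ), ((1 : ℤ) : ℝ), ((1 : ℤ) : ℝ),
        ((1 : ℤ) : ℝ)⟩ β = β
      simp [had, rOps]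
    rw [e, cU, add_zero, Ico_self, image_empty, union_empty]
    exact h
  | succ n ih =>
    have hp' : Pl U w n := ⟨fun i hi j hj => hp.inj i (by omega) j (by omega), hp.tU,
      fun i h1 h2 => hp.nU i h1 (by omega)⟩
    have ne : ∀ i j, i < 3 + (n + 1) → j < 3 + (n + 1) → i ≠ j → w i ≠ w j :=
      fun i j hi hj hij e => hij (hp.inj i hi j hj e)
    have nU : ∀ i, 3 ≤ i → i < 3 + (n + 1) → ∀ z ∈ U, z ≠ w i :=
      fun i h1 h2 z hz e => hp.nU i h1 h2 (e ▸ hz)
    have h01 := ne 0 1 (by omega) (by omega) (by omega)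
    have h02 := ne 0 2 (by omega) (by omega) (by omega)
    have h12 := ne 1 2 (by omega) (by omega) (by omega)
    have hd : w (3 + n) ∉ cU U w n := fun hm => by
      rcases tn_mem hm with hm | ⟨i, h1, h2, e⟩
      · exact hp.nU _ (by omega) (by omega) hm
      · exact ne i _ (by omega) (by omega) (by omega) e
    have tU : ∀ i < 3, w i ∈ cU U w n := fun i hi => mem_union_left _ (hp.tU i hi)
    have inner : ∀ m ≤ n, ∀ y : Sym2 α → ℝ,
        (∀ i, 3 ≤ i → i < 3 + n → ∀ j < i, y s(w i, w j) = wv (rOps x) (t i j)) →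
        (∀ j < 3 + m, y s(w (3 + n), w j) = wv (rOps x) (t (3 + n) j)) →
        (∀ j, 3 + m ≤ j → j < 3 + n → y s(w (3 + n), w j) = 1) →
        (∀ i, 3 ≤ i → i < 3 + (n + 1) → ∀ z ∈ U, (∀ j < 3, w j ≠ z) → y s(w i, z) = 1) →
        Fm x U y w β → Fm x (insert (w (3 + n)) (cU U w n)) y w (had (rOps x)
          (aux (rOps x) (net (rOps x) n) (had (rOps x) (star (rOps x) (t (3 + n) 0) (t (3 + n) 1)
            (t (3 + n) 2)) (net (rOps x) n t)) t (3 + n) m) β) := by
      intro m
      induction m with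
      | zero =>
        intro _ y y1 y2 y3 y4 hf
        have f := H.Fn.form_star hx hd (tU 0 (by omega)) (tU 1 (by omega)) (tU 2 (by omega))
          h01 h02 h12 (y := y) (fun v hv v0 v1 v2 => by
            rcases tn_mem hv with hv | ⟨i, h1, h2, rfl⟩
            · refine y4 _ (by omega) (by omega) v hv fun j hj => ?_
              interval_cases j
              exacts [v0.symm, v1.symm, v2.symm]
            · exact y3 i h1 h2)
          (ih hp' t y y1 (fun i h1 h2 => y4 i h1 (by omega)) hf)
        rw [y2 0 (by omega), y2 1 (by omega), y2 2 (by omega)] at f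
        intro t₁ t₂ t₃
        rw [f]
        change _ = _ * _ * _ - _ * (_ * _ * _) - _ * (_ * _ * _) - _ * (_ * _ * _) -
          _ * (_ * _ * _)
        simp only [star, wv_cm]
        simp only [had, rOps]
        push_cast
        ring
      | succ m ihm =>
        intro hm y y1 y2 y3 y4 hf
        have hu : w (3 + m) ∈ cU U w n :=
          mem_union_right _ (mem_image_of_mem _ (mem_Ico.2 ⟨by omega, by omega⟩))
        have nd : ∀ a b, a ≠ w (3 + n) → b ≠ w (3 + n) → s(a, b) ≠ s(w (3 + m), w (3 + n)) :=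
          fun a b ha hb e => by
            rcases Sym2.eq_iff.1 e with e | e
            · exact hb e.2
            · exact ha e.1
        have nm : ∀ a b, a ≠ w (3 + m) → b ≠ w (3 + m) → s(a, b) ≠ s(w (3 + m), w (3 + n)) :=
          fun a b ha hb e => by
            rcases Sym2.eq_iff.1 e with e | e
            · exact ha e.1
            · exact hb e.2
        have dm := ne (3 + n) (3 + m) (by omega) (by omega) (by omega)
        have f1 := ihm (by omega) (Function.update y s(w (3 + m), w (3 + n)) 1)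
          (fun i h1 h2 j hj => by
            rw [Function.update_of_ne (nd _ _ (ne _ _ (by omega) (by omega) (by omega))
              (ne _ _ (by omega) (by omega) (by omega))), y1 i h1 h2 j hj])
          (fun j hj => by
            rw [Function.update_of_ne (nm _ _ dm (ne _ _ (by omega) (by omega) (by omega))),
              y2 j (by omega)])
          (fun j h1 h2 => by
            by_cases e : j = 3 + m
            · rw [e, Sym2.eq_swap, Function.update_self]
            · rw [Function.update_of_ne (nm _ _ dm (ne _ _ (by omega) (by omega) e)),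
                y3 j (by omega) h2])
          (fun i h1 h2 z hz' h3 => by
            rw [Function.update_of_ne, y4 i h1 h2 z hz' h3]
            intro e
            rcases Sym2.eq_iff.1 e with e | e
            · exact nU _ (by omega) (by omega) z hz' e.2
            · exact nU _ (by omega) (by omega) z hz' e.2)
          (Form.congr hf h01 h02 h12 fun a ha b hb _ _ _ => Function.update_of_ne
            (nd _ _ (nU _ (by omega) (by omega) a ha) (nU _ (by omega) (by omega) b hb)) _ _)
        have f2 := ih hp' (mrg t (3 + n) (3 + m)) (mergeW y (w (3 + m)) (w (3 + n)))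
          (fun i h1 h2 j hj => by
            by_cases e : i = 3 + m
            · rw [e, mergeW_self, y1 _ (by omega) (by omega) j (by omega), y2 j (by omega), mrg,
                Nat.beq_refl, cond_true, wv_cm]
            have eb : Nat.beq i (3 + m) = false := by
              cases hb : Nat.beq i (3 + m)
              · rfl
              · exact absurd (Nat.eq_of_beq_eq_true hb) e
            rw [mrg, eb, cond_false, ← y1 i h1 h2 j hj]
            by_cases e' : j = 3 + m
            · rw [e', Sym2.eq_swap, mergeW_self, y3 i (by omega) h2, mul_one]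
            · exact mergeW_of_ne _ _ (ne _ _ (by omega) (by omega) e)
                (ne _ _ (by omega) (by omega) e'))
          (fun i h1 h2 z hz' h3 => by
            by_cases e : i = 3 + m
            · rw [e, mergeW_self, y4 _ (by omega) (by omega) z hz' h3,
                y4 _ (by omega) (by omega) z hz' h3, mul_one]
            · rw [mergeW_of_ne _ _ (ne _ _ (by omega) (by omega) e)
                (nU _ (by omega) (by omega) z hz'), y4 i h1 (by omega) z hz' h3])
          (Form.congr hf h01 h02 h12 fun a ha b hb _ _ _ => mergeW_of_ne _ _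
            (nU _ (by omega) (by omega) a ha) (nU _ (by omega) (by omega) b hb))
        rw [← erase_insert hd] at f2
        have f := Fm.del hx (mem_insert_of_mem hu) (mem_insert_self _ _) dm.symm h01 h02 h12
          (fun i hi => ne _ _ (by omega) (by omega) (by omega))
          (fun i hi => ne _ _ (by omega) (by omega) (by omega)) f1 f2
        rw [Sym2.eq_swap, y2 (3 + m) (by omega)] at f
        intro t₁ t₂ t₃
        rw [f, tn_aux]
        simp only [had, axp, rOps]
        ring
    rw [tn_succ, tn_first]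
    exact inner n le_rfl y (fun i h1 h2 => hy i h1 (by omega))
      (fun j hj => hy _ (by omega) (by omega) j hj) (fun j h1 h2 => by omega) hz h

end Pool.Agent.Lib.MP_efe3d7_co.J.Tw
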