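import Pool.Agent.Lib.MP_efe3d7_co.J.TK3
import Pool.Agent.Lib.MP_efe3d7_co.J.TK2
import Pool.Agent.Lib.MP_efe3d7_co.J.TH

/-! Soundness of the certificates. -/

set_option autoImplicit false

open Finset

namespace Pool.Agent.Lib.MP_efe3d7_co.J.Tw

open H
open H.Fn (T5 pr pev)

variable {c : Cx} {x s o : ℝ}

/-- The evaluated column `E` belongs to the column `u` with scaled vector `f` and dual `g`. -/
structure EcR (md : Mo) (c : Cx) (x s o : ℝ) (E : EC) (f g : T5 ℝ) : Prop where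
  ex : ∃ n ct k, safe md n ct = true ∧ E.e = ce n ct ∧ E.pu = pur md ct ∧
    f = sc (o ^ k) (cv (rOps x) n ct) ∧ Rp c.B s E.w 0 E.wb (wgt n ct * o ^ k)
  rv : RV c s o E.g g
  n0 : E.g.n = 0

/-- The meaning of an evaluated basis. -/
def EbR (md : Mo) (c : Cx) (x s o : ℝ) (E : EB) : Prop :=
  ∃ u1 u2 u3 u4 u5 : T5 ℝ, 0 < dot (rOps x) (crs (rOps x) u2 u3 u4 u5) u1 ∧
    Rp c.B s E.D 0 E.b (dot (rOps x) (crs (rOps x) u2 u3 u4 u5) u1) ∧
    EcR md c x s o E.c1 u1 (crs (rOps x) u2 u3 u4 u5) ∧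
    EcR md c x s o E.c2 u2 (crs (rOps x) u3 u1 u4 u5) ∧
    EcR md c x s o E.c3 u3 (crs (rOps x) u1 u2 u4 u5) ∧
    EcR md c x s o E.c4 u4 (crs (rOps x) u3 u2 u1 u5) ∧
    EcR md c x s o E.c5 u5 (crs (rOps x) u3 u2 u4 u1)

theorem tra_dot (a : ℝ) (g f : T5 ℝ) : dot (rOps x) g (sc a f) = a * dot (rOps x) g f := by
  simp only [dot, rOps, sc]; ring

theorem tra_pr (a : ℝ) (f g : T5 ℝ) : pr (sc a f) g = a * pr f g := by
  simp only [pr, sc]; ring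

theorem tra_w (h : Good c x s o) (w k : ℕ) :
    Rp c.B s (w * c.o ^ k) 0 (w * c.ob ^ k) (w * o ^ k) := by
  have a := (Rp.nat c.B s w).smul (h.ho.pow k)
  rwa [mul_zero] at a

theorem tra_ec (h : Good c x s o) {md : Mo} {u : ℕ × ℕ} {f : VK} {g : T5 KP} {g' : T5 ℝ}
    {k : EC → Bool} (hg : R5 (RK c s o) g g') (hk : mkEC md c u f g k = true) :
    ∃ E, EcR md c x s o E (sc (o ^ f.n) (cv (rOps x) u.1 u.2)) g' ∧ k E = true := by
  simp only [mkEC, frc_eq, Bool.and_eq_true] at hk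
  obtain ⟨hs, hk⟩ := hk
  obtain ⟨v, hv, hk⟩ := nrm_sound h hg hk
  simp only [Bool.and_eq_true, Nat.beq_eq] at hk
  obtain ⟨h0, hk⟩ := hk
  have hw := tra_w h (wgt u.1 u.2) f.n
  cases hp : pur md u.2 with
  | false =>
    rw [hp] at hk
    exact ⟨_, ⟨⟨u.1, u.2, f.n, hs, rfl, hp.symm, rfl, hw⟩, hv, h0⟩, hk⟩
  | true =>
    rw [hp] at hk
    exact ⟨_, ⟨⟨u.1, u.2, f.n, hs, rfl, hp.symm, rfl, hw⟩, hv, h0⟩, hk⟩

theorem mkEB_sound (h : Good c x s o) {md : Mo} {u : T5 (ℕ × ℕ)} {k : EB → Bool}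
    (hk : mkEB md c u k = true) : ∃ E, EbR md c x s o E ∧ k E = true := by
  unfold mkEB at hk
  obtain ⟨f1, h1, hk⟩ := nrm_sound h (h.hom.cv _ _) hk
  obtain ⟨f2, h2, hk⟩ := nrm_sound h (h.hom.cv _ _) hk
  obtain ⟨f3, h3, hk⟩ := nrm_sound h (h.hom.cv _ _) hk
  obtain ⟨f4, h4, hk⟩ := nrm_sound h (h.hom.cv _ _) hk
  obtain ⟨f5, h5, hk⟩ := nrm_sound h (h.hom.cv _ _) hk
  obtain ⟨c1, e1, hk⟩ := tra_ec h (h.hom.crs h2.raw h3.raw h4.raw h5.raw) hk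
  obtain ⟨c2, e2, hk⟩ := tra_ec h (h.hom.crs h3.raw h1.raw h4.raw h5.raw) hk
  obtain ⟨c3, e3, hk⟩ := tra_ec h (h.hom.crs h1.raw h2.raw h4.raw h5.raw) hk
  obtain ⟨c4, e4, hk⟩ := tra_ec h (h.hom.crs h3.raw h2.raw h1.raw h5.raw) hk
  obtain ⟨c5, e5, hk⟩ := tra_ec h (h.hom.crs h3.raw h2.raw h4.raw h1.raw) hk
  obtain ⟨D, b, hD, -, hl, hk⟩ := dotK_sound h e1.rv h1 hk
  simp only [Bool.and_eq_true] at hk
  rw [e1.n0, pow_zero, one_mul, ← tra_dot] at hD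
  refine ⟨_, ⟨_, _, _, _, _, ?_, hD, e1, e2, e3, e4, e5⟩, hk.2⟩
  rw [tra_dot]
  exact mul_pos (pow_pos h.o0 _) (hl hk.1)

theorem tra_zero {B : ℕ} {p : ℕ} {r : ℝ} (h : Rp B s p 0 0 r) : r = 0 := by
  obtain ⟨l, -, h2, rfl⟩ := h
  induction l with
  | nil => rfl
  | cons a l ih =>
    simp only [nr] at h2
    have ha : a = 0 := Int.natAbs_eq_zero.1 (by omega)
    rw [H.Fn.pev_cons, ih (by omega), ha]
    simp

theorem tra_col (h : Good c x s o) {md : Mo} {E : EC} {u g : T5 ℝ} (hE : EcR md c x s o E u g)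
    {t : VK} {f : T5 ℝ} (ht : RV c s o t f) {N S Sb : ℕ} {sm st : Bool}
    {k : Bool → ℕ → ℕ → Bool} {γ : T5 ℝ} {μ : ℝ}
    (h1 : ∀ n ct, safe md n ct = true → ce n ct < N → 0 < pr (cv (rOps x) n ct) γ)
    (h2 : sm = true → ∀ n ct, safe md n ct = true → ce n ct = N → pur md ct = true →
      μ * wgt n ct ≤ pr (cv (rOps x) n ct) γ)
    {Wr A : ℝ} (hS : Rp c.B s S 0 Sb Wr) (hA : μ * Wr ≤ A) (hst : st = true → μ * Wr < A)
    (hk : colK c E t N sm st S Sb k = true) :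
    ∃ st' S' Sb' Wr', Rp c.B s S' 0 Sb' Wr' ∧
      μ * Wr' ≤ A + dot (rOps x) g (sc (o ^ t.n) f) * pr u γ ∧
      (st' = true → μ * Wr' < A + dot (rOps x) g (sc (o ^ t.n) f) * pr u γ) ∧
      k st' S' Sb' = true := by
  obtain ⟨⟨n, ct, j, hs, he, hp, rfl, hw⟩, hv, h0⟩ := hE
  unfold colK at hk
  obtain ⟨a, b, ha, hn, hl, hk⟩ := dotK_sound h hv ht hk
  rw [h0, pow_zero, one_mul, ← tra_dot] at ha
  have ho := pow_pos h.o0 t.n
  have hj := pow_pos h.o0 j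
  have hn' : 0 ≤ dot (rOps x) g (sc (o ^ t.n) f) := by
    rw [tra_dot]; exact mul_nonneg ho.le hn
  rw [tra_pr]
  cases hb : Nat.blt E.e N with
  | true =>
    rw [hb, cond_true] at hk
    have hq := mul_pos hj (h1 n ct hs (he ▸ Nat.blt_eq ▸ hb))
    have hm := mul_nonneg hn' hq.le
    refine ⟨_, _, _, Wr, hS, by linarith, fun e => ?_, hk⟩
    rcases Bool.or_eq_true_iff.1 e with e | e
    · have := hst e
      linarith
    · have : 0 < dot (rOps x) g (sc (o ^ t.n) f) := by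
        rw [tra_dot]; exact mul_pos ho (hl e)
      have := mul_pos this hq
      linarith
  | false =>
    rw [hb, cond_false] at hk
    simp only [Bool.and_eq_true, Nat.beq_eq] at hk
    obtain ⟨⟨⟨e1, e2⟩, e3⟩, hk⟩ := hk
    have hq := h2 e1 n ct hs (he ▸ e2) (hp ▸ e3)
    have hr := hS.add (ha.smul hw)
    rw [mul_zero] at hr
    have hm := mul_le_mul_of_nonneg_left (mul_le_mul_of_nonneg_left hq hj.le) hn'
    refine ⟨_, _, _, _, hr, by nlinarith, fun e => ?_, hk⟩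
    have := hst e
    nlinarith

theorem tchk_sound (h : Good c x s o) {md : Mo} {E : EB} (hE : EbR md c x s o E) {t : VK}
    {f : T5 ℝ} (ht : RV c s o t f) {N W : ℕ} {sm : Bool} (hk : tchk c E t N sm W = true) :
    Cone x md N sm W f := by
  intro γ μ hμ h1 h2
  obtain ⟨u1, u2, u3, u4, u5, hD, hR, e1, e2, e3, e4, e5⟩ := hE
  unfold tchk at hk
  have z : Rp c.B s 0 0 0 0 := by
    have a := Rp.nat c.B s 0
    rwa [Nat.cast_zero] at a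
  obtain ⟨_, _, _, W1, r1, a1, b1, hk⟩ :=
    tra_col h e1 ht h1 h2 (A := 0) z (by simp) (fun e => absurd e (by simp)) hk
  obtain ⟨_, _, _, W2, r2, a2, b2, hk⟩ := tra_col h e2 ht h1 h2 r1 a1 b1 hk
  obtain ⟨_, _, _, W3, r3, a3, b3, hk⟩ := tra_col h e3 ht h1 h2 r2 a2 b2 hk
  obtain ⟨_, _, _, W4, r4, a4, b4, hk⟩ := tra_col h e4 ht h1 h2 r3 a3 b3 hk
  obtain ⟨st, S, Sb, W5, r5, -, b5, hk⟩ := tra_col h e5 ht h1 h2 r4 a4 b4 hk
  simp only [Bool.and_eq_true, Bool.or_eq_true, Nat.beq_eq] at hk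
  have hlt := b5 hk.1
  rw [zero_add, ← cramer, tra_pr] at hlt
  have ho := pow_pos h.o0 t.n
  generalize dot (rOps x) (crs (rOps x) u2 u3 u4 u5) u1 = D at hD hR hlt
  have hP := mul_pos hD ho
  have hW : W5 ≤ D * (W * o ^ t.n) := by
    rcases hk.2 with e | e
    · subst e
      rw [tra_zero r5]
      positivity
    · have a := (hR.smul (tra_w h W t.n)).add r5.neg
      rw [mul_zero, add_zero, zero_add] at a
      obtain ⟨_, -, q, -⟩ := nnK_sound h a e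
      linarith
  have := mul_le_mul_of_nonpos_left hW hμ
  refine lt_of_mul_lt_mul_left (a := D * o ^ t.n) ?_ hP.le
  nlinarith

theorem fam_sound (h : Good c x s o) {md : Mo} {bs : List (T5 (ℕ × ℕ))} {M a : ℕ}
    {F : ℕ → T5 KP} {F' : ℕ → T5 ℝ} (hF : ∀ i, R5 (RK c s o) (F i) (F' i)) {N W : ℕ → ℕ}
    {sm : Bool} (hk : fam md c bs M a F N sm W = true) {i : ℕ} (hi : i < M) (hd : dgt a i ≠ 0) :
    Cone x md (N i) sm (W i) (F' i) := by
  obtain ⟨Es, h1, -, h2⟩ := mkL_sound (fun _ E => EbR md c x s o E)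
    (fun _ _ k => mkEB_sound h k) hk
  have h3 := (allB_iff _ _).1 h2 i hi
  obtain ⟨j, hj⟩ := Nat.exists_eq_succ_of_ne_zero hd
  rw [hj] at h3
  obtain ⟨t, h4, h5⟩ := nrm_sound h (hF i) h3
  obtain ⟨E, h6, h7⟩ := nth_mem h5
  obtain ⟨-, -, h8⟩ := h1 E h6
  exact tchk_sound h h8 h4 h7

theorem xfam_sound (h : Good c x s o) {md : Mo} {L xc : List (ℕ × ℕ)} {M a n : ℕ} {T : ℕ → ℕ}
    (hk : xfam md c L xc M a n T = true) {i : ℕ} (hi : i < M) (hd : dgt a i ≠ 0) {r t : ℕ}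
    (hL : (r, t) ∈ L) :
    0 < pr (cv (rOps x) n (T i)) (gam (rOps x) r t) ∨ ∃ u, isx md n (T i) r t u = true := by
  obtain ⟨G, -, h1, h2⟩ := mkL_sound (f := mkG c)
    (fun g b => b.1 = g.1 ∧ b.2.1 = g.2 ∧ RV c s o b.2.2 (gam (rOps x) g.1 g.2))
    (fun g k e => by
      obtain ⟨v, h1, h2⟩ := nrm_sound h (h.hom.gam g.1 g.2) e
      exact ⟨_, ⟨rfl, rfl, h1⟩, h2⟩) hk
  have h3 := sel_sound h2 hi hd
  rw [frc_eq] at h3
  obtain ⟨v, h4, h5⟩ := nrm_sound h (h.hom.cv n (T i)) h3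
  obtain ⟨b, h6, h7, h8, h9⟩ := h1 _ hL
  rcases Bool.or_eq_true_iff.1 ((allL_iff _ _).1 h5 b h6) with k | k
  · exact Or.inl (prP_sound h h4 h9 k)
  · obtain ⟨u, -, k1⟩ := (anyL_iff _ _).1 k
    rw [h7, h8] at k1
    exact Or.inr ⟨u, k1⟩

theorem trb_inI (h : Good c x s o) {R : List (ℤ × ℤ)} {i : ℕ} {l t : KP} {l' t' : ℝ}
    (hl : RK c s o l l') (ht : RK c s o t t') (hk : inI c R i l t = true) :
    en (rOps x) R i false * l' ≤ 1000 * t' ∧ 1000 * t' ≤ en (rOps x) R i true * l' := by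
  obtain ⟨k1, k2⟩ := Bool.and_eq_true_iff.1 hk
  have e1 := nn_sound h (h.hom.sub (h.hom.mul (h.hom.c 1000) ht)
    (h.hom.mul (h.hom.en R i false) hl)) k1
  have e2 := nn_sound h (h.hom.sub (h.hom.mul (h.hom.en R i true) hl)
    (h.hom.mul (h.hom.c 1000) ht)) k2
  have e3 : ∀ a b : ℝ, (rOps x).sub a b = a - b := fun _ _ => rfl
  have e4 : ∀ a b : ℝ, (rOps x).mul a b = a * b := fun _ _ => rfl
  have e5 : (rOps x).c 1000 = 1000 := Int.cast_ofNat 1000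
  rw [e3, e4, e4, e5] at e1 e2
  exact ⟨sub_nonneg.1 e1, sub_nonneg.1 e2⟩

theorem inR_sound (h : Good c x s o) {R : List (ℤ × ℤ)} {a : T5 KP} {a' : T5 ℝ}
    (ha : R5 (RK c s o) a a') (hk : inR c R a = true) : InR x R a' := by
  simp only [inR, Bool.and_eq_true] at hk
  obtain ⟨⟨⟨⟨k0, k1⟩, k2⟩, k3⟩, k4⟩ := hk
  obtain ⟨a1, a2, a3, a4, a5⟩ := ha
  exact ⟨ps_sound h a1 k0, trb_inI h a1 a2 k1, trb_inI h a1 a3 k2, trb_inI h a1 a4 k3,
    trb_inI h a1 a5 k4⟩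

end Pool.Agent.Lib.MP_efe3d7_co.J.Tw
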