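import Pool.Agent.Lib.MP_efe3d7_co.J.TD
import Pool.Agent.Lib.MP_efe3d7_co.H.Bit2
import Pool.Agent.Lib.MP_efe3d7_co.H.Fan0

/-! Windows with three terminals: the meaning of the checker. -/

set_option autoImplicit false

open Finset

namespace Pool.Agent.Lib.MP_efe3d7_co.J.Tw

open H
open H.Fn (T5 pr pev)

/-- The value of an integer polynomial at an integer. -/
def pz (B : ℤ) : List ℤ → ℤ
  | [] => 0
  | c :: l => c + B * pz B l

/-- The sum of the absolute values of the coefficients. -/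
def nr : List ℤ → ℕ
  | [] => 0
  | c :: l => c.natAbs + nr l

/-- The number `p - m` is the value at `B` of a polynomial with value `r` at `s`. -/
def Rp (B : ℕ) (s : ℝ) (p m b : ℕ) (r : ℝ) : Prop :=
  ∃ l : List ℤ, pz B l = (p : ℤ) - m ∧ nr l ≤ b ∧ pev s l = r

/-- The fraction `u` stands for the real number `r`. -/
def RK (c : Cx) (s o : ℝ) (u : KP) (r : ℝ) : Prop := Rp c.B s u.p u.m u.b (o ^ u.n * r)

/-- The vector `u` stands for the real vector `f`. -/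
def RV (c : Cx) (s o : ℝ) (u : VK) (f : T5 ℝ) : Prop :=
  Rp c.B s u.p1 u.m1 u.b (o ^ u.n * f.a) ∧ Rp c.B s u.p2 u.m2 u.b (o ^ u.n * f.b) ∧
    Rp c.B s u.p3 u.m3 u.b (o ^ u.n * f.c) ∧ Rp c.B s u.p4 u.m4 u.b (o ^ u.n * f.d) ∧
    Rp c.B s u.p5 u.m5 u.b (o ^ u.n * f.e)

/-- The data of an interval fit the parameter `x`. -/
structure Good (c : Cx) (x s o : ℝ) : Prop where
  o0 : 0 < o
  ho : Rp c.B s c.o 0 c.ob o
  hx : RK c s o c.x x
  hr : RK c s o c.r (-ee x)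
  nn : ∀ N b r, Rp c.B s N 0 b r → nnN c N b = true → 0 ≤ r ∧ (low c N = true → 0 < r)

/-- The parameter lies in the interval from `p / d` (excluded) to `q / d`. -/
def Inn (d p q : ℕ) (x : ℝ) : Prop := (p : ℝ) < d * x ∧ d * x ≤ q

/-- A relation that is compatible with the operations. -/
structure Hom {β γ : Type} (R : β → γ → Prop) (O : Ops β) (O' : Ops γ) : Prop where
  c : ∀ z, R (O.c z) (O'.c z)
  x : R O.x O'.x
  r : R O.r O'.r
  add : ∀ {a b : β} {a' b' : γ}, R a a' → R b b' → R (O.add a b) (O'.add a' b')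
  sub : ∀ {a b : β} {a' b' : γ}, R a a' → R b b' → R (O.sub a b) (O'.sub a' b')
  mul : ∀ {a b : β} {a' b' : γ}, R a a' → R b b' → R (O.mul a b) (O'.mul a' b')

/-- The relation for vectors. -/
def R5 {β γ : Type} (R : β → γ → Prop) (u : T5 β) (f : T5 γ) : Prop :=
  R u.a f.a ∧ R u.b f.b ∧ R u.c f.c ∧ R u.d f.d ∧ R u.e f.e

/-- A multiple of a vector. -/
def sc (a : ℝ) (f : T5 ℝ) : T5 ℝ := ⟨a * f.a, a * f.b, a * f.c, a * f.d, a * f.e⟩

/-- The vector `f` is positive on everything on which the smaller columns are positive. -/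
def Cone (x : ℝ) (md : Mo) (N : ℕ) (sm : Bool) (W : ℕ) (f : T5 ℝ) : Prop :=
  ∀ (γ : T5 ℝ) (μ : ℝ), μ ≤ 0 →
    (∀ n ct, safe md n ct = true → ce n ct < N → 0 < pr (cv (rOps x) n ct) γ) →
    (sm = true → ∀ n ct, safe md n ct = true → ce n ct = N → pur md ct = true →
      μ * wgt n ct ≤ pr (cv (rOps x) n ct) γ) → μ * W < pr f γ

/-- The list `G` contains all rests of the exceptional graphs. -/
def XE (G : List (ℕ × ℕ × ℕ)) : Prop := ∀ j < 10, ∀ a < xn j, xen G (xt j) (xn j) a = true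

/-- A possible rest. -/
def XIn (G : List (ℕ × ℕ × ℕ)) (md : Mo) (r t : ℕ) : Prop :=
  ∀ p : ℕ → ℕ → Bool, allL (fun g => xone md g p) G = true → p r t = true

/-- All possible rests are in `L`. -/
noncomputable def xsub (G : List (ℕ × ℕ × ℕ)) (md : Mo) (L : List (ℕ × ℕ)) : Bool :=
  allL (fun g => xone md g fun r t => anyL (fun u => Nat.beq u.2 t && Nat.beq u.1 r) L) G

/-- The window is positive or exceptional on every possible rest. -/
def XP (G : List (ℕ × ℕ × ℕ)) (x : ℝ) (md : Mo) (n ct : ℕ) : Prop :=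
  ∀ r t, XIn G md r t →
    0 < pr (cv (rOps x) n ct) (gam (rOps x) r t) ∨ ∃ u, isx md n ct r t u = true

/-- A state lies in a box. -/
def InR (x : ℝ) (R : List (ℤ × ℤ)) (a : T5 ℝ) : Prop :=
  0 < a.a ∧ (en (rOps x) R 0 false * a.a ≤ 1000 * a.b ∧ 1000 * a.b ≤ en (rOps x) R 0 true * a.a) ∧
    (en (rOps x) R 1 false * a.a ≤ 1000 * a.c ∧ 1000 * a.c ≤ en (rOps x) R 1 true * a.a) ∧
    (en (rOps x) R 2 false * a.a ≤ 1000 * a.d ∧ 1000 * a.d ≤ en (rOps x) R 2 true * a.a) ∧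
    (en (rOps x) R 3 false * a.a ≤ 1000 * a.e ∧ 1000 * a.e ≤ en (rOps x) R 3 true * a.a)

variable {α : Type} [DecidableEq α]

/-- Three terminals in `U` and `n` new vertices. -/
structure Pl (U : Finset α) (w : ℕ → α) (n : ℕ) : Prop where
  inj : ∀ i < 3 + n, ∀ j < 3 + n, w i = w j → i = j
  tU : ∀ i < 3, w i ∈ U
  nU : ∀ i, 3 ≤ i → i < 3 + n → w i ∉ U

/-- The vertices of a column. -/
def cU (U : Finset α) (w : ℕ → α) (n : ℕ) : Finset α := U ∪ (Ico 3 (3 + n)).image w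

/-- The types `σ` arise from `τ` by putting the table `ct` on the window. -/
structure CG (md : Mo) (U : Finset α) (w : ℕ → α) (τ : Sym2 α → Fin 3) (n ct : ℕ)
    (σ : Sym2 α → Fin 3) : Prop where
  tt : ∀ i < 3, ∀ j < 3, i ≠ j → (σ s(w i, w j)).val =
    if md.pm i j = 0 ∧ ty ct i j ≠ 1 then (τ s(w i, w j)).val else ty ct i j
  inn : ∀ i, 3 ≤ i → i < 3 + n → ∀ j < 3 + n, j ≠ i → (σ s(w i, w j)).val = ty ct i j
  far : ∀ i, 3 ≤ i → i < 3 + n → ∀ z ∈ U, (∀ j < 3, w j ≠ z) → σ s(w i, z) = 0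
  out : ∀ a ∈ U, ∀ b ∈ U, (∀ j < 3, w j ≠ a) → σ s(a, b) = τ s(a, b)

open Classical in
/-- The neighbours of terminal `i` in `U` along pairs that are kept. -/
noncomputable def kp (md : Mo) (V : Finset α) (τ : Sym2 α → Fin 3) (U : Finset α) (w : ℕ → α) (i : ℕ) :
    Finset α :=
  (nb V τ (w i)).filter fun z => z ∈ U ∧ ∀ j < 3, w j = z → md.pm i j ≠ 1

/-- A window: `V \ U` is attached to `U` along the three terminals. -/
structure Win (md : Mo) (V : Finset α) (τ : Sym2 α → Fin 3) (U : Finset α) (w : ℕ → α) :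
    Prop where
  con : Con3 V τ
  sub : U ⊆ V
  pl : Pl U w md.m
  mem : ∀ i < 3 + md.m, w i ∈ V
  q2 : md.p01 ≤ 2 ∧ md.p02 ≤ 2 ∧ md.p12 ≤ 2
  cov : ∀ q ∈ V, q ∉ U → ∀ z ∈ nb V τ q, z ∈ U → ∃ i < 3, w i = z
  th : ∀ i < 3, 2 ≤ (kp md V τ U w i).card ∨
    (md.tf i = true ∧ ∃ z ∈ nb V τ (w i), z ∈ U ∧ ∀ j < 3, w j ≠ z)
  pa : md.pa = true → Con3 U (pth τ (w 1) (w 2) (w 0)) ∧ (md.p02 = 1 → τ s(w 0, w 2) = 0)

open Classical in
/-- The number of edges with property `p` in `U` that do not belong to the window. -/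
noncomputable def n0 (p : Fin 3 → Prop) (md : Mo) (U : Finset α) (w : ℕ → α)
    (τ : Sym2 α → Fin 3) : ℕ :=
  ((pairs U).filter fun e => p (τ e) ∧
    ∀ i < 3, ∀ j < 3, e = s(w i, w j) → md.pm i j = 0).card

/-- The weight of a pair with unknown status. -/
noncomputable def kap (x : ℝ) (md : Mo) (w : ℕ → α) (τ : Sym2 α → Fin 3) (i j : ℕ) : ℝ :=
  if md.pm i j = 0 then wt (ee x) (τ s(w i, w j)) else 1

/-- The vector of the rest of the graph. -/
noncomputable def gm (x : ℝ) (md : Mo) (w : ℕ → α) (τ : Sym2 α → Fin 3) (β : T5 ℝ) : T5 ℝ :=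
  ⟨β.a, kap x md w τ 0 1 * β.b, kap x md w τ 0 2 * β.c, kap x md w τ 1 2 * β.d,
    kap x md w τ 0 1 * kap x md w τ 0 2 * kap x md w τ 1 2 * β.e⟩

/-- The rest of the graph is given by the table `t`. -/
def Out (md : Mo) (U : Finset α) (w : ℕ → α) (τ : Sym2 α → Fin 3) (r t : ℕ) : Prop :=
  ∃ u : ℕ → α, (∀ i < 3 + r, ∀ j < 3 + r, u i = u j → i = j) ∧ (∀ i < 3, u i = w i) ∧
    U = (range (3 + r)).image u ∧
    (∀ i, 3 ≤ i → i < 3 + r → ∀ j < 3 + r, j ≠ i → (τ s(u i, u j)).val = ty t i j) ∧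
    ∀ i < 3, ∀ j < 3, i ≠ j → ty t i j = if md.pm i j = 0 then (τ s(w i, w j)).val else 0

variable [Fintype α]

/-- The five parameters of a network with the terminals `w 0`, `w 1`, `w 2`. -/
def Fm (x : ℝ) (U : Finset α) (y : Sym2 α → ℝ) (w : ℕ → α) (β : T5 ℝ) : Prop :=
  Form x U y (w 0) (w 1) (w 2) β.a β.b β.c β.d β.e

end Pool.Agent.Lib.MP_efe3d7_co.J.Tw
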