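import Pool.Agent.Lib.MP_efe3d7_co.J.TK3

/-! Cutting an exceptional graph along three vertices. -/

set_option autoImplicit false

open Finset

namespace Pool.Agent.Lib.MP_efe3d7_co.J.Tw

open H
open H.Fn (T5 pr pev)

variable {α : Type} [DecidableEq α] {V U : Finset α} {τ σ : Sym2 α → Fin 3} {w : ℕ → α} {md : Mo}
  {n ct : ℕ}

/-- One row of the table after renumbering. -/
noncomputable def tx1_row (z π i r m : ℕ) : ℕ :=
  Nat.rec r (fun j s => sdg s (px i j) (ty z (dig π i) (dig π j))) m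

theorem tx1_row_ty (z π : ℕ) {i r a b : ℕ} (hi : i < 16) (ha : a < 16) (hb : b < a) (m : ℕ)
    (hm : m ≤ i) : ty (tx1_row z π i r m) a b =
      if a = i ∧ b < m then ty z (dig π a) (dig π b) else ty r a b := by
  induction m with
  | zero => simp [tx1_row]
  | succ m ih =>
    have e : tx1_row z π i r (m + 1) =
        sdg (tx1_row z π i r m) (px i m) (ty z (dig π i) (dig π m)) := rfl
    have hd : ty z (dig π i) (dig π m) < 8 := dig_lt _ _
    rw [e, ty_sdg _ ha (by omega) hi (by omega) hd, ih (by omega)]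
    by_cases h1 : a = i ∧ b = m
    · rw [if_pos (Or.inl h1), if_pos ⟨h1.1, by omega⟩, h1.1, h1.2]
    · rw [if_neg (by omega)]
      by_cases h2 : a = i ∧ b < m
      · rw [if_pos h2, if_pos ⟨h2.1, by omega⟩]
      · rw [if_neg h2, if_neg (by omega)]

theorem tx1_tab_ty (z π : ℕ) {a b : ℕ} (hb : b < a) (k : ℕ) (hk : k ≤ 16) (ha : a < k) :
    ty (reT z k π) a b = ty z (dig π a) (dig π b) := by
  induction k with
  | zero => omega
  | succ k ih =>
    have e : reT z (k + 1) π = tx1_row z π k (reT z k π) k := rfl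
    rw [e, tx1_row_ty z π (by omega) (by omega) hb k le_rfl]
    by_cases h : a = k
    · rw [if_pos ⟨h, by omega⟩]
    · rw [if_neg (by omega), ih (by omega) (by omega)]

theorem ty_reT {z k π i j : ℕ} (hk : k ≤ 8) (hi : i < k) (hj : j < k) (hij : i ≠ j) :
    ty (reT z k π) i j = ty z (dig π i) (dig π j) := by
  rcases lt_or_gt_of_ne hij with h | h
  · rw [ty_comm, tx1_tab_ty z π h k (by omega) hj, ty_comm]
  · exact tx1_tab_ty z π h k (by omega) hi

theorem srch_sound {k : ℕ} {f : ℕ → Bool} (hk : k ≤ 8) (s : ℕ) {i π m : ℕ} (h3 : 3 ≤ i)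
    (h : srch k f s i π m = true) : ∃ π', (∀ l < 3, dig π' l = dig π l) ∧ f π' = true := by
  induction s generalizing i π m with
  | zero => exact ⟨π, fun _ _ => rfl, h⟩
  | succ s ih =>
    have e : srch k f (s + 1) i π m = anyB k fun v => !tb m v &&
        frc (sdg π i v) fun σ' => frc (Nat.lor m (bt v)) fun m' =>
          srch k f s (Nat.succ i) σ' m' := rfl
    rw [e, anyB_iff] at h
    obtain ⟨v, hv, h⟩ := h
    rw [frc_eq, frc_eq, Bool.and_eq_true] at h
    obtain ⟨π', h1, h2⟩ := ih (Nat.le_succ_of_le h3) h.2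
    refine ⟨π', fun l hl => ?_, h2⟩
    rw [h1 l hl, dig_sdg _ _ _ (by omega), if_neg (by omega)]

theorem tx1_xen {G : List (ℕ × ℕ × ℕ)} {z n a b c K : ℕ} (h : xen G z n a = true) (hn : n ≤ 8)
    (ha : a < n) (hb : b < n) (hc : c < n) (hab : a ≠ b) (hac : a ≠ c) (hbc : b ≠ c)
    (hK : K < bt n) (ka : tb K a = false) (kb : tb K b = false) (kc : tb K c = false)
    (h3 : pc n K ≤ 3) (h0 : K = 0 → ty z a b ≠ 0 ∧ ty z b c ≠ 0)
    (hf : ∀ u < n, ∀ v < n, tb K u = true → tb K v = false → v ≠ a → v ≠ b → v ≠ c →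
      ty z u v = 0) :
    ∃ π, dig π 0 = a ∧ dig π 1 = b ∧ dig π 2 = c ∧ plc G z n K (pc n K) π = true := by
  unfold xen at h
  have h1 := (allB_iff _ _).1 h b hb
  rw [Bool.or_eq_true, Nat.beq_eq] at h1
  have h2 := (allB_iff _ _).1 (h1.resolve_left hab) c hc
  rw [Bool.or_eq_true, Bool.or_eq_true, Nat.beq_eq, Nat.beq_eq] at h2
  have h4 := (allB_iff _ _).1 (h2.resolve_left (by tauto)) K hK
  rw [ka, kb, kc, frc_eq] at h4
  simp only [Bool.false_or, Bool.or_eq_true] at h4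
  rcases h4 with ((h5 | h5) | h5) | h5
  · rw [Nat.blt_eq] at h5
    omega
  · exfalso
    rw [Bool.and_eq_true, Bool.not_eq_true', Bool.not_eq_true'] at h5
    have hK0 : K = 0 := by
      by_contra hne
      rw [(nz_iff K).2 hne] at h5
      exact Bool.noConfusion h5.1
    rw [(nz_iff _).2 (h0 hK0).1, (nz_iff _).2 (h0 hK0).2] at h5
    exact Bool.noConfusion h5.2
  · exfalso
    obtain ⟨u, hu, h6⟩ := (anyB_iff _ _).1 h5
    rw [Bool.and_eq_true] at h6
    obtain ⟨v, hv, h7⟩ := (anyB_iff _ _).1 h6.2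
    simp only [Bool.and_eq_true, Bool.not_eq_true', nz_iff] at h7
    obtain ⟨⟨⟨⟨p1, p2⟩, p3⟩, p4⟩, p5⟩ := h7
    exact p5 (hf u hu v hv h6.1 p1 (Nat.ne_of_beq_eq_false p2) (Nat.ne_of_beq_eq_false p3)
      (Nat.ne_of_beq_eq_false p4))
  · obtain ⟨π, e, hp⟩ := srch_sound hn _ le_rfl h5
    have a8 : a < 8 := by omega
    have b8 : b < 8 := by omega
    have c8 : c < 8 := by omega
    refine ⟨π, ?_, ?_, ?_, hp⟩
    · rw [e 0 (by omega), dig_sdg _ _ _ c8, if_neg (by omega), dig_sdg _ _ _ b8,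
        if_neg (by omega), dig_sdg _ _ _ a8, if_pos rfl]
    · rw [e 1 (by omega), dig_sdg _ _ _ c8, if_neg (by omega), dig_sdg _ _ _ b8, if_pos rfl]
    · rw [e 2 (by omega), dig_sdg _ _ _ c8, if_pos rfl]

theorem tx1_plc {G : List (ℕ × ℕ × ℕ)} {z n K k π : ℕ} (h : plc G z n K k π = true) :
    ∃ g ∈ G, g.2.2 = reT z (3 + g.2.1) π ∧ g.1 = k ∧ 3 + g.2.1 + k = n ∧
      (∀ i < 3 + g.2.1, dig π i < n ∧ tb K (dig π i) = false) ∧
      ∀ i < 3 + g.2.1, ∀ j < 3 + g.2.1, dig π i = dig π j → i = j := by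
  unfold plc at h
  rw [frc_eq, Bool.and_eq_true, anyL_iff, allB_iff] at h
  obtain ⟨⟨g, hg, h1⟩, h2⟩ := h
  simp only [Bool.and_eq_true, Nat.beq_eq, Nat.add_eq, Nat.sub_eq] at h1
  obtain ⟨⟨p1, p2⟩, p3⟩ := h1
  have e : n - k = 3 + g.2.1 := by omega
  simp only [Bool.and_eq_true, Nat.blt_eq, Bool.not_eq_true', allB_iff, Nat.sub_eq, e] at h2
  refine ⟨g, hg, by rw [p1, e], p2, p3, fun i hi => (h2 i hi).1, fun i hi j hj hd => ?_⟩
  rcases lt_trichotomy i j with l | l | l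
  · exact absurd hd.symm (Nat.ne_of_beq_eq_false ((h2 j hj).2 i l))
  · exact l
  · exact absurd hd (Nat.ne_of_beq_eq_false ((h2 i hi).2 j l))

theorem tx1_xn (j : ℕ) : xn j ≤ 7 := by
  unfold xn
  cases Nat.ble j 5 <;> cases Nat.ble j 8 <;> simp

theorem xen_sound {G : List (ℕ × ℕ × ℕ)} (hG : XE G) (he : Exc V σ) (hU : U ⊆ V)
    (hw : ∀ i < 3, w i ∈ U) (hi : ∀ i < 3, ∀ j < 3, w i = w j → i = j) (h3 : (V \ U).card ≤ 3)
    (hc : ∀ q ∈ V, q ∉ U → ∀ z ∈ U, (∀ j < 3, w j ≠ z) → σ s(q, z) = 0)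
    (h0 : V \ U = ∅ → σ s(w 0, w 1) ≠ 0 ∧ σ s(w 1, w 2) ≠ 0) :
    ∃ g ∈ G, g.1 = (V \ U).card ∧ ∃ u : ℕ → α,
      (∀ i < 3 + g.2.1, ∀ j < 3 + g.2.1, u i = u j → i = j) ∧ (∀ i < 3, u i = w i) ∧
      U = (range (3 + g.2.1)).image u ∧ g.2.1 ≤ 4 ∧
      ∀ i < 3 + g.2.1, ∀ j < 3 + g.2.1, i ≠ j → (σ s(u i, u j)).val = ty g.2.2 i j := by
  obtain ⟨j, hj, v, hv, hV, ht⟩ := he
  have hn := tx1_xn j
  have hG' := hG j hj
  generalize xn j = N at hv hV ht hn hG'
  generalize xt j = z at ht hG'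
  have hmem : ∀ i < N, v i ∈ V := fun i hi => by
    rw [hV]
    exact mem_image_of_mem _ (mem_range.2 hi)
  have hidx : ∀ q ∈ V, ∃ i < N, v i = q := fun q hq => by
    rw [hV] at hq
    obtain ⟨i, hi, e⟩ := mem_image.1 hq
    exact ⟨i, mem_range.1 hi, e⟩
  obtain ⟨a, ha, ea⟩ := hidx _ (hU (hw 0 (by omega)))
  obtain ⟨b, hb, eb⟩ := hidx _ (hU (hw 1 (by omega)))
  obtain ⟨c, hc', ec⟩ := hidx _ (hU (hw 2 (by omega)))
  obtain ⟨K, hK⟩ : ∃ K, K = msk N fun i => decide (v i ∉ U) := ⟨_, rfl⟩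
  have hKt : ∀ i, tb K i = true ↔ i < N ∧ v i ∉ U := fun i => by
    rw [hK, tb_msk]
    simp
  have hKf : ∀ i < N, tb K i = false ↔ v i ∈ U := fun i hi => by
    rw [← Bool.not_eq_true, hKt]
    tauto
  have himg : (bs N K).image v = V \ U := by
    ext q
    rw [mem_image, mem_sdiff]
    constructor
    · rintro ⟨i, hi, rfl⟩
      rw [mem_bs, hKt] at hi
      exact ⟨hmem i hi.1, hi.2.2⟩
    · rintro ⟨h1, h2⟩
      obtain ⟨i, hi, rfl⟩ := hidx q h1
      exact ⟨i, mem_bs.2 ⟨hi, (hKt i).2 ⟨hi, h2⟩⟩, rfl⟩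
  have hk : pc N K = (V \ U).card := by rw [← himg, card_img hv]
  have hab : a ≠ b := fun e => by
    have := hi 0 (by omega) 1 (by omega) (by rw [← ea, ← eb, e])
    omega
  have hac : a ≠ c := fun e => by
    have := hi 0 (by omega) 2 (by omega) (by rw [← ea, ← ec, e])
    omega
  have hbc : b ≠ c := fun e => by
    have := hi 1 (by omega) 2 (by omega) (by rw [← eb, ← ec, e])
    omega
  obtain ⟨π, pa, pb, pc', hp⟩ := tx1_xen (hG' a ha) (by omega) ha hb hc' hab hac hbc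
    (by rw [hK]; exact msk_lt _ _)
    ((hKf a ha).2 (by rw [ea]; exact hw 0 (by omega)))
    ((hKf b hb).2 (by rw [eb]; exact hw 1 (by omega)))
    ((hKf c hc').2 (by rw [ec]; exact hw 2 (by omega))) (by omega)
    (fun hz => by
      have he : V \ U = ∅ := by
        rw [← himg, image_eq_empty]
        refine eq_empty_of_forall_notMem fun i hi => ?_
        rw [mem_bs, hz, tb_zero] at hi
        exact Bool.noConfusion hi.2
      obtain ⟨q1, q2⟩ := h0 he
      rw [← ht a ha b hb hab, ← ht b hb c hc' hbc, ea, eb, ec]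
      exact ⟨fun e => q1 (Fin.ext e), fun e => q2 (Fin.ext e)⟩)
    (fun p hp q hq kp kq qa qb qc => by
      have hpq : p ≠ q := fun e => by
        rw [e, kq] at kp
        exact Bool.noConfusion kp
      rw [← ht p hp q hq hpq, hc _ (hmem p hp) ((hKt p).1 kp).2 _ ((hKf q hq).1 kq) ?_]
      · rfl
      · intro l hl e
        obtain rfl | rfl | rfl : l = 0 ∨ l = 1 ∨ l = 2 := by omega
        · exact qa (hv q hq a ha (by rw [ea, e]))
        · exact qb (hv q hq b hb (by rw [eb, e]))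
        · exact qc (hv q hq c hc' (by rw [ec, e])))
  obtain ⟨g, hg, g1, g2, g3, g4, g5⟩ := tx1_plc hp
  have hinj : ∀ i < 3 + g.2.1, ∀ l < 3 + g.2.1, v (dig π i) = v (dig π l) → i = l :=
    fun i hi l hl e => g5 i hi l hl (hv _ (g4 i hi).1 _ (g4 l hl).1 e)
  refine ⟨g, hg, by rw [g2, hk], fun i => v (dig π i), hinj, fun i hi => ?_, ?_, by omega,
    fun i hi l hl hil => ?_⟩
  · obtain rfl | rfl | rfl : i = 0 ∨ i = 1 ∨ i = 2 := by omega
    · simp only [pa, ea]
    · simp only [pb, eb]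
    · simp only [pc', ec]
  · symm
    apply eq_of_subset_of_card_le
    · intro q hq
      obtain ⟨i, hi, rfl⟩ := mem_image.1 hq
      have := g4 i (mem_range.1 hi)
      exact (hKf _ this.1).1 this.2
    · have c1 : ((range (3 + g.2.1)).image fun i => v (dig π i)).card = 3 + g.2.1 := by
        rw [card_image_of_injOn fun i hi l hl e =>
          hinj i (mem_range.1 hi) l (mem_range.1 hl) e, card_range]
      have c2 : V.card = N := by
        rw [hV, card_image_of_injOn fun i hi l hl e =>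
          hv i (mem_range.1 hi) l (mem_range.1 hl) e, card_range]
      have c3 := card_sdiff_add_card_eq_card hU
      omega
  · have hd : dig π i ≠ dig π l := fun e => hil (g5 i hi l hl e)
    rw [g1, ty_reT (by omega) hi hl hil]
    exact ht _ (g4 i hi).1 _ (g4 l hl).1 hd

end Pool.Agent.Lib.MP_efe3d7_co.J.Tw
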