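import Pool.Agent.Lib.MP_efe3d7_co.J.Chk
import Pool.Agent.Lib.MP_efe3d7_co.J.PTre

/-! Case distinctions with a new vertex. -/

set_option autoImplicit false

open Finset

namespace Pool.Agent.Lib.MP_efe3d7_co.J

open H

theorem dig_sl3 (a i j : ℕ) : dig (sl3 a) (px i j) = dig a (px i j) := by
  have h : px i j = 0 ∨ 16 ≤ px i j := by
    rw [bit2_px]
    split_ifs <;> omega
  generalize px i j = t at h
  have e : ∀ y, dig y t = y >>> (3 * t) % 2 ^ 3 := fun _ => rfl
  have e2 : sl3 a = a ^^^ (a % 35184372088777) <<< 3 := rfl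
  rw [e, e, e2]
  refine Nat.eq_of_testBit_eq fun b => ?_
  simp only [Nat.testBit_mod_two_pow, Nat.testBit_shiftRight, Nat.testBit_xor,
    Nat.testBit_shiftLeft]
  by_cases hb : b < 3
  · rcases h with rfl | h
    · simp [show ¬ 3 ≤ b by omega]
    · rw [Nat.testBit_lt_two_pow (x := a % 35184372088777) ((Nat.mod_lt _ (by norm_num)).trans_le
        ((by norm_num : 35184372088777 ≤ 2 ^ 45).trans
          (Nat.pow_le_pow_right (by norm_num) (by omega))))]
      simp
  · simp [hb]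

theorem nfx_P (k : K) (i : ℕ) {z a b : ℕ} (hz : z < 16) (ha : a < 16) (hb : b < 16) :
    (nfx k i z).P a b = k.P a b ∨ ((nfx k i z).P a b = 1 ∧
      ∃ l < z, k.F i l = true ∧ i ≠ l ∧ ((a = l ∧ b = z) ∨ (a = z ∧ b = l))) := by
  have key : ∀ u ≤ z, ∀ y, y = (Nat.rec k.pr (fun l r => bif k.F i l && !Nat.beq i l then
      frc r fun t => sdg t (px l z) 1 else r) u : ℕ) → ty y a b = k.P a b ∨ (ty y a b = 1 ∧
      ∃ l < z, k.F i l = true ∧ i ≠ l ∧ ((a = l ∧ b = z) ∨ (a = z ∧ b = l))) := by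
    intro u
    induction u with
    | zero => exact fun _ y e => .inl (e ▸ rfl)
    | succ u ih =>
      intro hu y e
      have := ih (by omega) _ rfl
      cases h : (k.F i u && !Nat.beq i u)
      · simp only [h, cond_false] at e
        exact e ▸ this
      · simp only [h, cond_true] at e
        rw [e, frc_eq, ty_sdg _ ha hb (by omega) hz (by norm_num)]
        simp only [Bool.and_eq_true, Bool.not_eq_true'] at h
        split_ifs with c
        · exact .inr ⟨rfl, u, hu, h.1, Nat.ne_of_beq_eq_false h.2, c⟩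
        · exact this
  unfold nfx
  cases Nat.beq k.fb 0
  · exact key z le_rfl _ rfl
  · exact .inl rfl

variable {α : Type} [Fintype α] [DecidableEq α] {x : ℝ} {m : Md} {k : K}

omit [Fintype α] in
theorem sat_nfx {V : Finset α} {τ : Sym2 α → Fin 3} {E : Env α} {v : ℕ → α} {z : α} {k' : K}
    (hS : Sat k V τ E v) (hn : k.n ≤ 14) (hz : ∀ l < k.n, v l ≠ z) {i : ℕ}
    (hi : i < k.n) (h : z ∈ nb V τ (v i)) (hk : k'.n = Nat.succ k.n) (hf : k'.fb = k.fb)
    (hS' : Sat k' V τ E (Function.update v k.n z)) :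
    Sat (nfx k' i k.n) V τ E (Function.update v k.n z) := by
  refine ⟨hS'.inj, hS'.mem, hS'.lq, hS'.lt, hS'.dy, hS'.dn, hS'.lo, hS'.ex, fun a ha b hb hab => ?_,
    hS'.fb, hS'.al⟩
  change a < k'.n at ha
  change b < k'.n at hb
  rcases nfx_P k' i (z := k.n) (a := a) (b := b) (by omega) (by omega) (by omega) with
    e | ⟨e, l, hl, h1, h2, h3⟩
  · rw [e]
    exact hS'.pr a ha b hb hab
  · have h4 : τ s(v l, z) = 0 := by
      by_contra c
      obtain ⟨j, hj, ej⟩ := hS.fb i hi l hl h2 (by rwa [K.F, ← hf]) z h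
        (mem_nb.2 ⟨nb_sub _ h, (hz l hl).symm, c⟩)
      exact hz j hj ej
    rw [e]
    refine ⟨fun _ => ?_, by omega, by omega, by omega⟩
    rcases h3 with ⟨rfl, rfl⟩ | ⟨rfl, rfl⟩
    · rwa [Function.update_of_ne hl.ne, Function.update_self]
    · rwa [Function.update_of_ne hl.ne, Function.update_self, Sym2.eq_swap]

theorem v_frs {f : K → Bool} (hf : ∀ k, f k = true → Valid α x m k) (h : frs k f = true) :
    Valid α x m k := by
  rw [frs, frc_eq, K.frc_eq] at h
  intro V τ E v hO hS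
  refine hf _ h V τ E v hO ⟨hS.inj, hS.mem, hS.lq, hS.lt, hS.dy, hS.dn, hS.lo, hS.ex,
    fun a ha b hb hab => ?_, hS.fb, hS.al⟩
  simp only [K.P, dig_sl3]
  exact hS.pr a ha b hb hab

theorem w_fbd {i j : ℕ} (hi : i < k.n) (hj : j < k.n) (hw : m.wm = false)
    (hf : k.fresh = true) (hq : tb k.lq i = true ∨ tb k.lq j = true)
    (ha : Valid α x m { k with fb := Nat.lor k.fb (bt (px i j)) })
    (hb : Valid α x m (nfx (nfx ((k.sP j k.n 4).add i) i k.n) j k.n)) : Valid α x m k := by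
  intro V τ E v hO hS
  have hn := tre2_n hf
  by_cases h : ∀ z ∈ nb V τ (v i), z ∈ nb V τ (v j) → ∃ l < k.n, v l = z
  · refine ha V τ E v hO
      ⟨hS.inj, hS.mem, hS.lq, hS.lt, hS.dy, hS.dn, hS.lo, hS.ex, hS.pr, ?_, hS.al⟩
    intro a h1 b h2 hab e
    change a < k.n at h1
    change b < k.n at h2
    change tb (Nat.lor k.fb (bt (px i j))) (px a b) = true at e
    rw [tb_lor, tb_bt, Bool.or_eq_true, decide_eq_true_eq,
      px_inj (by omega) (by omega) (by omega) (by omega)] at e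
    rcases e with e | ⟨rfl, rfl⟩ | ⟨rfl, rfl⟩
    · exact hS.fb a h1 b h2 hab e
    · exact h
    · exact fun z h3 h4 => h z h4 h3
  · push Not at h
    obtain ⟨z, h1, h2, h3⟩ := h
    have hz : z ∈ E.Q ∨ z ∈ E.T := hq.elim (fun e => tre2_mem hO.ok hw (hS.lq i hi e) h1)
      fun e => tre2_mem hO.ok hw (hS.lq j hj e) h2
    exact hb V τ E _ hO (sat_nfx hS hn h3 hj h2 rfl rfl (sat_nfx hS hn h3 hi h1 rfl rfl
      (tre2_add hn rfl (tre2_add hn rfl (sat_new hS hf hz h3) hj h2) hi h1)))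

theorem w_new {V : Finset α} {τ : Sym2 α → Fin 3} {E : Env α} {v : ℕ → α} (hO : Ok m V τ E)
    (hS : Sat k V τ E v) {i : ℕ} (hi : i < k.n) {A : Finset α} (hA : A ⊆ nb V τ (v i))
    {f : ℕ → Bool} (hf : ∀ l < k.n, v l ∈ A → i ≠ l → k.eP i l ≠ 1 → f l = true)
    (hc : cnt k.n f < A.card) : ∃ z ∈ A, ∀ l < k.n, v l ≠ z := by
  by_contra h
  push Not at h
  have h1 : A ⊆ ((range k.n).filter fun j => f j = true).image v := by
    intro z hz
    obtain ⟨l, hl, rfl⟩ := h z hz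
    have e1 : i ≠ l := fun e => (mem_nb.1 (hA hz)).2.1 (e ▸ rfl)
    exact mem_image_of_mem _ (mem_filter.2 ⟨mem_range.2 hl, hf l hl hz e1 fun e =>
      (mem_nb.1 (hA hz)).2.2 (eP_one hO hS hi hl e1 e)⟩)
  have h2 := (card_le_card h1).trans card_image_le
  rw [cnt_eq] at hc
  omega

theorem w_exp {i : ℕ} (hi : i < k.n) (hw : m.wm = false) (hf : k.fresh = true)
    (hq : tb k.lq i = true)
    (hc : (cnt k.n fun j => !Nat.beq i j && !Nat.beq (k.eP i j) 1) < k.el m i)
    (ha : Valid α x m (nfx (k.add i) i k.n)) : Valid α x m k := by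
  intro V τ E v hO hS
  have hQ := hS.lq i hi hq
  have h3 := el_sound hO.ok hS hi
  rw [ds_Q hQ] at h3
  obtain ⟨z, h1, h2⟩ := w_new hO.ok hS hi Subset.rfl (fun l _ _ e1 e2 => by
    simp [-Bool.not_eq_true, Bool.eq_false_iff, e1, e2])
    (hc.trans_le h3)
  exact ha V τ E _ hO (sat_nfx hS (tre2_n hf) h2 hi h1 rfl rfl
    (tre2_add (tre2_n hf) rfl (sat_new hS hf (tre2_mem hO.ok hw hQ h1) h2) hi h1))

theorem w_ext {i : ℕ} (hi : i < k.n) (hf : k.fresh = true) (hq : tb k.lt i = true)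
    (hc : 2 + (cnt k.n fun j => !Nat.beq i j && !tb k.lt j && !Nat.beq (k.eP i j) 1) < k.el m i)
    (ha : Valid α x m (nfx { k.add i with lq := Nat.lor k.lq (bt k.n) } i k.n)) :
    Valid α x m k := by
  intro V τ E v hO hS
  have h3 := el_sound hO.ok hS hi
  rw [ds_nQ fun e => hO.ok.dis _ e (hS.lt i hi hq)] at h3
  obtain ⟨z, h1, h2⟩ := w_new hO.ok hS hi (A := nb V τ (v i) ∩ E.Q) inter_subset_left
    (f := fun j => !Nat.beq i j && !tb k.lt j && !Nat.beq (k.eP i j) 1) (fun l hl e0 e1 e2 => by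
      have : tb k.lt l = false := Bool.eq_false_iff.2 fun e =>
        hO.ok.dis _ (mem_inter.1 e0).2 (hS.lt l hl e)
      simp [-Bool.not_eq_true, this, Bool.eq_false_iff, e1, e2]) (by omega)
  obtain ⟨h1, h4⟩ := mem_inter.1 h1
  have h5 : Sat (k.add i) V τ E (Function.update v k.n z) :=
    tre2_add (tre2_n hf) rfl (sat_new hS hf (.inl h4) h2) hi h1
  refine ha V τ E _ hO (sat_nfx hS (tre2_n hf) h2 hi h1 rfl rfl { h5 with
    lq := fun j hj => tre1_bit (R := (Function.update v k.n z · ∈ E.Q)) ?_ (h5.lq j hj) })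
  rwa [Function.update_self]

theorem w_prm {i : ℕ} (hi : i < k.n) (hw : m.wm = false) (hf : k.fresh = true)
    (hd : tb k.dy i = true)
    (hc : (allB k.n fun l => Nat.beq i l || Nat.beq (k.eP i l) 1 || k.np m l) = true)
    (ha : Valid α x m
      (nfx { k.add i with lt := Nat.lor k.lt (bt k.n), ex := sdg k.ex k.n 3 } i k.n)) :
    Valid α x m k := by
  intro V τ E v hO hS
  obtain ⟨-, z, h1, h2⟩ := hO.ok.dr1 _ (hS.dy i hi hd)
  rw [hO.ok.omn hw] at h2
  obtain ⟨h2, h3⟩ := h2.resolve_right (by simp)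
  simp only [allB_iff, Bool.or_eq_true, Nat.beq_eq] at hc
  have h4 : ∀ l < k.n, v l ≠ z := by
    rintro l hl rfl
    by_cases e1 : i = l
    · exact (mem_nb.1 h1).2.1 (e1 ▸ rfl)
    rcases hc l hl with (e | e) | e
    · exact e1 e
    · exact (mem_nb.1 h1).2.2 (eP_one hO.ok hS hi hl e1 e)
    · rcases np_sound hO.ok hS hl e with e2 | e2
      · exact hO.ok.dis _ e2 h2
      · omega
  have h5 : Sat (k.add i) V τ E (Function.update v k.n z) :=
    tre2_add (tre2_n hf) rfl (sat_new hS hf (Or.inr h2) h4) hi h1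
  refine ha V τ E _ hO (sat_nfx hS (tre2_n hf) h4 hi h1 rfl rfl { h5 with
    lt := fun j hj => tre1_bit (R := (Function.update v k.n z · ∈ E.T)) ?_ (h5.lt j hj)
    ex := fun j hj => ?_ })
  · rwa [Function.update_self]
  · change dig (sdg k.ex k.n 3) j ≠ 0 → _ = dig (sdg k.ex k.n 3) j
    rw [dig_sdg _ _ _ (by norm_num)]
    split_ifs with e
    · rw [e, Function.update_self]
      exact fun _ => h3
    · exact h5.ex j hj

end Pool.Agent.Lib.MP_efe3d7_co.J
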