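import Pool.Agent.Lib.MP_efe3d7_co.J.VD
import Pool.Agent.Lib.MP_efe3d7_co.J.TH
import Pool.Agent.Lib.MP_efe3d7_co.H.FanV

/-! The value of a fan. -/

set_option autoImplicit false

open Finset

namespace Pool.Agent.Lib.MP_efe3d7_co.J.Tw

open H
open H.Fn (T5 pr pev)

variable {α : Type} [DecidableEq α] [Fintype α] {V : Finset α} {τ : Sym2 α → Fin 3} {a : α}
  {v : ℕ → α} {k : ℕ} {x : ℝ} {md : Mo}

/-- The vector of a state, for real weights. -/
def va_fin (x t s : ℝ) (a : T5 ℝ) : T5 ℝ :=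
  ⟨a.a - a.e, s * (x * a.d), (1 - x) * a.a - a.e, t * a.c, -(s * t * (x * a.b))⟩

theorem va_fin_eq (x : ℝ) (t s : Fin 3) (a : T5 ℝ) :
    fin (rOps x) (cd t.val) (cd s.val) a = va_fin x (wt (ee x) t) (wt (ee x) s) a := by
  simp only [fin, wv_cm, wv_cd, va_fin]
  simp [rOps]

theorem va_stp (x : ℝ) (s r : Bool) (a : T5 ℝ) :
    stp (rOps x) s r a = Fn.stpR x (Fn.bw (ee x) s) (Fn.bw (ee x) r) a := by
  cases s <;> cases r <;> simp [stp, rowT, rowU, rOps, Fn.stpR, Fn.bw]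

theorem va_ini (x : ℝ) (r : Bool) :
    ini (rOps x) r = ⟨1 - Fn.bw (ee x) r, -Fn.bw (ee x) r, x, 1, 1 - x - Fn.bw (ee x) r⟩ := by
  cases r <;> simp [ini, rOps, Fn.bw]

theorem va_step (x t σ σ' ρ κ β₀ β₁ β₂ β₃ β₄ : ℝ) (A : T5 ℝ) :
    pr (va_fin x t σ' A) ⟨(2 - x - ρ) * β₀ - (1 - x) * (σ * β₁) - (1 - x) * (κ * β₂),
      β₀ - ρ * (σ * β₁) - κ * β₂, 1 * (β₀ - σ * β₁ - ρ * (κ * β₂)),
      (1 - x - ρ) * β₃ - x * (σ * κ * β₄), 1 * (-β₃ - ρ * (σ * κ * β₄))⟩ =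
    pr (va_fin x t σ (Fn.stpR x σ' ρ A)) ⟨β₀, β₁, κ * β₂, β₃, κ * β₄⟩ := by
  simp only [pr, va_fin, Fn.stpR]
  ring

theorem va_succ (x : ℝ) (g : ℕ → Bool) (j : ℕ) :
    sta (rOps x) g (j + 1) = stp (rOps x) (g (2 * j + 1)) (g (2 * j + 2)) (sta (rOps x) g j) := rfl

theorem fan_val (hx : 0 < x) (h : Fan V τ a v k) (h01 : md.p01 ≠ 0) (h02 : md.p02 = 0)
    (h12 : md.p12 ≠ 0) {β : T5 ℝ}
    (hf : Fm x (V \ fanQ v k) (fun e => wt (ee x) (τ e)) (fw a v k) β) :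
    x * FF x V τ = pr (fv x (fg τ a v k) k (τ s(v 0, a)) (τ s(a, v (k + 1))))
      (gm x md (fw a v k) τ β) := by
  have k2 := h.k2
  have main : ∀ j i : ℕ, i + j = k → ∀ β₀ β₁ β₂ β₃ β₄ : ℝ,
      Form x ((V \ fanQ v k) ∪ fanQ v i) (fun e => wt (ee x) (τ e)) (v i) a (v (k + 1))
        β₀ β₁ β₂ β₃ β₄ →
      x * FF x V τ = pr (va_fin x (wt (ee x) (τ s(a, v (k + 1)))) (wt (ee x) (τ s(v i, a)))
        (sta (rOps x) (fg τ a v k) j))
        ⟨β₀, β₁, (if j = 0 then 1 else wt (ee x) (τ s(v i, v (k + 1)))) * β₂, β₃,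
          (if j = 0 then 1 else wt (ee x) (τ s(v i, v (k + 1)))) * β₄⟩ := by
    intro j
    induction j with
    | zero =>
      intro i hi β₀ β₁ β₂ β₃ β₄ hF
      obtain rfl : i = k := by omega
      have hV : (V \ fanQ v i) ∪ fanQ v i = V :=
        sdiff_union_of_subset (subset_union_right.trans (Fn.fanv_sub h le_rfl))
      rw [hV] at hF
      have n : τ s(v i, v (i + 1)) ≠ 0 := by
        have := (Fn.fanv_adj h (i := i - 1) (by omega)).2.2
        rwa [show i - 1 + 1 = i by omega, show i - 1 + 2 = i + 1 by omega] at this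
      have e0 : sta (rOps x) (fg τ a v i) 0 = ini (rOps x) (decide (τ s(v i, v (i + 1)) = 2)) := rfl
      rw [FF, hF.eval fun _ _ _ _ _ _ _ => rfl, Fn.fanv_bw (ee x) n, e0, va_ini]
      simp only [pr, va_fin, if_true]
      ring
    | succ j ih =>
      intro i hi β₀ β₁ β₂ β₃ β₄ hF
      have ik : i < k := by omega
      have hd : v (i + 1) ∉ (V \ fanQ v k) ∪ fanQ v i := by
        rw [Fn.fanv_mem h ik.le (by omega)]
        omega
      have F2 := vertex3 hx hd ((Fn.fanv_mem h ik.le (by omega)).2 (Or.inl le_rfl))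
        (Fn.fanv_hub h i) ((Fn.fanv_mem h ik.le le_rfl).2 (Or.inr rfl)) (h.na i (by omega))
        (fun e => by have := h.inj _ _ (by omega) le_rfl e; omega) (h.na _ le_rfl).symm
        (fun w hw h1 h2 h3 => Fn.fanv_one h (ee x) ik (Fn.fanv_sub h ik.le hw)
          (fun e => hd (e ▸ hw)) h2 h1 fun e => by
            rw [e, Fn.fanv_mem h ik.le (by omega)] at hw
            exact h3 (by rw [e, show i + 2 = k + 1 by omega])) hF
      rw [← Fn.fanv_succ] at F2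
      have e1 : (if j = 0 then (1 : ℝ) else wt (ee x) (τ s(v (i + 1), v (k + 1)))) = 1 := by
        split_ifs with e
        · rfl
        · refine Fn.fanv_one h (ee x) ik (h.hv _ le_rfl) ?_ (h.na _ le_rfl) ?_ ?_ <;>
            exact fun e => by have := h.inj _ _ le_rfl (by omega) e; omega
      have b := Fn.fanv_adj h ik
      have g1 : fg τ a v k (2 * j + 1) = decide (τ s(v (i + 1), a) = 2) := by
        rw [fg, if_neg (by omega), show k - (2 * j + 1) / 2 = i + 1 by omega]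
      have g2 : fg τ a v k (2 * j + 2) = decide (τ s(v i, v (i + 1)) = 2) := by
        rw [fg, if_pos (by omega), show k - (2 * j + 2) / 2 = i by omega]
      rw [ih (i + 1) (by omega) _ _ _ _ _ F2, e1, va_step, if_neg (Nat.succ_ne_zero j), va_succ,
        va_stp, g1, g2, ← Fn.fanv_bw (ee x) b.1, ← Fn.fanv_bw (ee x) b.2.1]
  have e0 : (V \ fanQ v k) ∪ fanQ v 0 = V \ fanQ v k := by simp [fanQ]
  have := main k 0 (Nat.zero_add k) β.a β.b β.c β.d β.e (by rw [e0]; exact hf)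
  have c01 : kap x md (fw a v k) τ 0 1 = 1 := if_neg h01
  have c12 : kap x md (fw a v k) τ 1 2 = 1 := if_neg h12
  have c02 : kap x md (fw a v k) τ 0 2 = wt (ee x) (τ s(v 0, v (k + 1))) := if_pos h02
  rw [if_neg (by omega)] at this
  rw [this, fv, va_fin_eq, gm, c01, c12, c02]
  simp only [one_mul, mul_one]

end Pool.Agent.Lib.MP_efe3d7_co.J.Tw
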