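import Pool.Agent.Lib.MP_efe3d7_co.J.VD

/-! The tables of fans. -/

set_option autoImplicit false

open Finset

namespace Pool.Agent.Lib.MP_efe3d7_co.J.Tw

open H
open H.Fn (T5 pr pev)

variable {α : Type} [DecidableEq α] {V U : Finset α} {τ : Sym2 α → Fin 3} {w : ℕ → α} {a : α}
  {v : ℕ → α} {k n : ℕ} {md : Mo}

theorem bT_val {t : Fin 3} (h : t ≠ 0) : bT (decide (t = 2)) = t.val := by
  revert t
  decide

theorem vc1_ty (l : List (ℕ × ℕ × ℕ)) (h : ∀ e ∈ l, e.1 < 16 ∧ e.2.1 < 16 ∧ e.2.2 < 8) {i j : ℕ}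
    (hi : i < 16) (hj : j < 16) :
    (ty (mkT l) i j = 0 ∧ ∀ e ∈ l, ¬ ((e.1 = i ∧ e.2.1 = j) ∨ (e.1 = j ∧ e.2.1 = i))) ∨
      ∃ e ∈ l, ((e.1 = i ∧ e.2.1 = j) ∨ (e.1 = j ∧ e.2.1 = i)) ∧ ty (mkT l) i j = e.2.2 := by
  induction l with
  | nil => exact Or.inl ⟨dig_zero _, fun _ h => absurd h List.not_mem_nil⟩
  | cons e l ih =>
    obtain ⟨h1, h2, h3⟩ := h e List.mem_cons_self
    have q : ty (mkT (e :: l)) i j = _ := ty_sdg (mkT l) hi hj h1 h2 h3
    split_ifs at q with c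
    · exact Or.inr ⟨e, List.mem_cons_self, by omega, q⟩
    · rcases ih fun e he => h e (List.mem_cons_of_mem _ he) with ⟨h4, h5⟩ | ⟨f, h4, h5, h6⟩
      · refine Or.inl ⟨q.trans h4, fun f hf => ?_⟩
        rcases List.mem_cons.1 hf with rfl | hf
        · omega
        · exact h5 f hf
      · exact Or.inr ⟨f, List.mem_cons_of_mem _ h4, h5, q.trans h6⟩

theorem vc1_pm (md : Mo) (i j : ℕ) : md.pm i j = md.pm j i := by
  simp only [Mo.pm, Nat.add_eq, Nat.add_comm]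

/-- The table of a list of edges describes the window. -/
theorem cg_mkT (n4 : n ≤ 4) (l : List (ℕ × ℕ × ℕ))
    (h1 : ∀ e ∈ l, e.1 < 3 + n ∧ e.2.1 < 3 + n ∧ (τ s(w e.1, w e.2.1)).val = e.2.2 ∧
      (e.1 < 3 → e.2.1 < 3 → md.pm e.1 e.2.1 ≠ 0))
    (h2 : ∀ i < 3 + n, ∀ j < i, τ s(w i, w j) ≠ 0 → (i < 3 ∧ md.pm i j = 0) ∨
      ∃ e ∈ l, (e.1 = i ∧ e.2.1 = j) ∨ (e.1 = j ∧ e.2.1 = i))
    (far : ∀ i, 3 ≤ i → i < 3 + n → ∀ z ∈ U, (∀ j < 3, w j ≠ z) → τ s(w i, z) = 0) :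
    CG md U w τ n (mkT l) τ ∧ pur md (mkT l) = true := by
  have key : ∀ i < 3 + n, ∀ j < 3 + n, i ≠ j →
      (ty (mkT l) i j = 0 ∧ i < 3 ∧ j < 3 ∧ md.pm i j = 0) ∨
        ((τ s(w i, w j)).val = ty (mkT l) i j ∧
          (i < 3 → j < 3 → md.pm i j = 0 → ty (mkT l) i j = 0)) := by
    intro i hi j hj ij
    rcases vc1_ty l (fun e he => by
      obtain ⟨a1, a2, a3, -⟩ := h1 e he
      have := (τ s(w e.1, w e.2.1)).2
      omega) (i := i) (j := j) (by omega) (by omega) with ⟨h3, h4⟩ | ⟨e, he, h3, h4⟩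
    · by_cases c : τ s(w i, w j) = 0
      · exact Or.inr ⟨by rw [c, h3]; rfl, fun _ _ _ => h3⟩
      rcases lt_or_gt_of_ne ij with h5 | h5
      · rcases h2 j hj i h5 (Sym2.eq_swap ▸ c) with ⟨h6, h7⟩ | ⟨e, he, h6⟩
        · exact Or.inl ⟨h3, by omega, h6, vc1_pm md i j ▸ h7⟩
        · exact absurd h6.symm (h4 e he)
      · rcases h2 i hi j h5 c with ⟨h6, h7⟩ | ⟨e, he, h6⟩
        · exact Or.inl ⟨h3, h6, by omega, h7⟩
        · exact absurd h6 (h4 e he)
    · obtain ⟨-, -, a3, a4⟩ := h1 e he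
      rcases h3 with ⟨rfl, rfl⟩ | ⟨rfl, rfl⟩
      · exact Or.inr ⟨a3.trans h4.symm, fun b1 b2 b3 => absurd b3 (a4 b1 b2)⟩
      · exact Or.inr ⟨by rw [Sym2.eq_swap, a3, h4], fun b1 b2 b3 =>
          absurd (vc1_pm md _ _ ▸ b3) (a4 b2 b1)⟩
  have pu : ∀ i < 3, ∀ j < 3, i ≠ j → (nz (md.pm i j) || !nz (ty (mkT l) i j)) = true := by
    intro i hi j hj ij
    by_cases c : md.pm i j = 0
    · have : ty (mkT l) i j = 0 :=
        (key i (by omega) j (by omega) ij).elim (fun h => h.1) fun h => h.2 hi hj c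
      rw [this]
      exact Bool.or_true _
    · rw [(nz_iff _).2 c, Bool.true_or]
  refine ⟨⟨fun i hi j hj ij => ?_, fun i h3 hi j hj ij => ?_, far, fun _ _ _ _ _ => rfl⟩, ?_⟩
  · rcases key i (by omega) j (by omega) ij with ⟨h3, -, -, h4⟩ | ⟨h3, -⟩
    · rw [if_pos ⟨h4, by omega⟩]
    · rw [← h3, ite_self]
  · exact (key i hi j hj ij.symm).elim (fun h => by omega) fun h => h.1
  · rw [pur, Bool.and_eq_true, Bool.and_eq_true]
    exact ⟨⟨pu 0 (by omega) 1 (by omega) (by omega), pu 0 (by omega) 2 (by omega) (by omega)⟩,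
      pu 1 (by omega) 2 (by omega) (by omega)⟩

theorem fw_pl (h : Fan V τ a v k) {m : ℕ} (hm : m ≤ k) : Pl (V \ fanQ v k) (fw a v k) m := by
  have q : ∀ l ≤ k + 1, l = 0 ∨ l = k + 1 → v l ∈ V \ fanQ v k := fun l hl h0 =>
    mem_sdiff.2 ⟨h.hv l hl, fun hw => by
      obtain ⟨i, hi, e⟩ := mem_fanQ.1 hw
      have := h.inj _ _ (by omega) hl e
      omega⟩
  refine ⟨fun i hi j hj e => ?_, fun i hi => ?_, fun i h3 hi hw => ?_⟩
  · unfold fw at e
    split_ifs at e <;>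
      first
        | omega
        | exact absurd e (h.na _ (by omega))
        | exact absurd e.symm (h.na _ (by omega))
        | (have := h.inj _ _ (by omega) (by omega) e; omega)
  · unfold fw
    split_ifs
    · exact q 0 (by omega) (Or.inl rfl)
    · refine mem_sdiff.2 ⟨h.ha, fun hw => ?_⟩
      obtain ⟨i, hi, e⟩ := mem_fanQ.1 hw
      exact h.na _ (by omega) e
    · exact q _ le_rfl (Or.inr rfl)
    · omega
  · rw [fw, if_neg (by omega), if_neg (by omega), if_neg (by omega)] at hw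
    exact (mem_sdiff.1 hw).2 (mem_fanQ.2 ⟨i - 3, by omega, congrArg v (by omega)⟩)

theorem fw_cu (h : Fan V τ a v k) : V = cU (V \ fanQ v k) (fw a v k) k := by
  have e : (Ico 3 (3 + k)).image (fw a v k) = fanQ v k := by
    ext z
    rw [mem_fanQ, mem_image]
    refine ⟨fun ⟨i, hi, e⟩ => ?_, fun ⟨i, hi, e⟩ => ⟨i + 3, mem_Ico.2 (by omega), ?_⟩⟩
    · have := mem_Ico.1 hi
      rw [fw, if_neg (by omega), if_neg (by omega), if_neg (by omega)] at e
      exact ⟨i - 3, by omega, (congrArg v (by omega)).trans e⟩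
    · rw [fw, if_neg (by omega), if_neg (by omega), if_neg (by omega)]
      exact e
  rw [cU, e, sdiff_union_of_subset fun z hz => ?_]
  obtain ⟨i, hi, rfl⟩ := mem_fanQ.1 hz
  exact h.hv _ (by omega)

theorem vc2_pm (md : Mo) : md.pm 0 1 = md.p01 ∧ md.pm 0 2 = md.p02 ∧ md.pm 1 2 = md.p12 ∧
    md.pm 2 0 = md.p02 := ⟨rfl, rfl, rfl, rfl⟩

theorem vc2_zero (h : Fan V τ a v k) {i j : ℕ} (hi : i < k) (hj : j ≤ k + 1) (h0 : j ≠ i + 1)
    (h1 : j ≠ i) (h2 : j ≠ i + 2) : τ s(v (i + 1), v j) = 0 := by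
  by_contra hn
  have m : v j ∈ nb V τ (v (i + 1)) :=
    mem_nb.2 ⟨h.hv j hj, fun e => h0 (h.inj _ _ hj (by omega) e), hn⟩
  rw [h.nbr i hi] at m
  simp only [mem_insert, mem_singleton] at m
  rcases m with m | m | m
  · exact h.na j hj m
  · exact h1 (h.inj _ _ hj (by omega) m)
  · exact h2 (h.inj _ _ hj (by omega) m)

theorem vc2_adj (h : Fan V τ a v k) {i : ℕ} (hi : i < k) :
    τ s(v (i + 1), a) ≠ 0 ∧ τ s(v i, v (i + 1)) ≠ 0 ∧ τ s(v (i + 1), v (i + 2)) ≠ 0 := by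
  have q : ∀ w, w ∈ ({a, v i, v (i + 2)} : Finset α) → τ s(v (i + 1), w) ≠ 0 := fun w hw => by
    rw [← h.nbr i hi] at hw
    exact (mem_nb.1 hw).2.2
  refine ⟨q _ (by simp), ?_, q _ (by simp)⟩
  rw [Sym2.eq_swap]
  exact q _ (by simp)

theorem vc2_far (h : Fan V τ a v k) : ∀ i, 3 ≤ i → i < 3 + k → ∀ z ∈ V \ fanQ v k,
    (∀ j < 3, fw a v k j ≠ z) → τ s(fw a v k i, z) = 0 := by
  intro i h3 hi z hz hj
  obtain ⟨m, rfl⟩ : ∃ m, i = m + 3 := ⟨i - 3, by omega⟩
  have e : fw a v k (m + 3) = v (m + 1) := by simp [fw]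
  rw [e]
  obtain ⟨hz1, hz2⟩ := mem_sdiff.1 hz
  have q : ∀ l, l < k → z ≠ v (l + 1) := fun l hl e => hz2 (mem_fanQ.2 ⟨l, hl, e.symm⟩)
  have q0 : z ≠ v 0 := fun e => hj 0 (by omega) (by simp [fw, e])
  have q1 : z ≠ a := fun e => hj 1 (by omega) (by simp [fw, e])
  have q2 : z ≠ v (k + 1) := fun e => hj 2 (by omega) (by simp [fw, e])
  by_contra hn
  have mm : z ∈ nb V τ (v (m + 1)) := mem_nb.2 ⟨hz1, q m (by omega), hn⟩
  rw [h.nbr m (by omega)] at mm
  simp only [mem_insert, mem_singleton] at mm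
  rcases mm with mm | mm | mm
  · exact q1 mm
  · rcases m with _ | m
    · exact q0 mm
    · exact q m (by omega) mm
  · by_cases hk : m + 1 = k
    · exact q2 (by rw [← hk]; exact mm)
    · exact q (m + 1) (by omega) mm

theorem fan_cg2 (h : Fan V τ a v 2) (h01 : md.p01 ≠ 0) (h02 : md.p02 = 0) (h12 : md.p12 ≠ 0) :
    CG md (V \ fanQ v 2) (fw a v 2) τ 2 (fT (e2 (fg τ a v 2)) (τ s(v 0, a)) (τ s(a, v 3))) τ ∧
      pur md (fT (e2 (fg τ a v 2)) (τ s(v 0, a)) (τ s(a, v 3))) = true := by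
  obtain ⟨a1, a2, a3⟩ := vc2_adj h (i := 0) (by omega)
  obtain ⟨b1, -, b3⟩ := vc2_adj h (i := 1) (by omega)
  have z1 := vc2_zero h (i := 0) (j := 3) (by omega) (by omega) (by omega) (by omega) (by omega)
  have z2 := vc2_zero h (i := 1) (j := 0) (by omega) (by omega) (by omega) (by omega) (by omega)
  refine cg_mkT (by omega) _ (fun e he => ?_) (fun i hi j hj hn => ?_) (vc2_far h)
  · simp only [e2, List.mem_cons, List.not_mem_nil, or_false] at he
    rcases he with rfl | rfl | rfl | rfl | rfl | rfl | rfl <;>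
      simp [fw, fg, vc2_pm, bT_val, *]
  · interval_cases i <;> interval_cases j <;> simp [fw, vc2_pm, e2, *] at hn ⊢

theorem fan_cg2' (h : Fan V τ a v 2) (h01 : md.p01 ≠ 0) (h02 : md.p02 ≠ 0) (h12 : md.p12 ≠ 0) :
    CG md (V \ fanQ v 2) (fw a v 2) τ 2
        (fT ((0, 2, (τ s(v 0, v 3)).val) :: e2 (fg τ a v 2)) (τ s(v 0, a)) (τ s(a, v 3))) τ ∧
      pur md (fT ((0, 2, (τ s(v 0, v 3)).val) :: e2 (fg τ a v 2)) (τ s(v 0, a))
        (τ s(a, v 3))) = true := by
  obtain ⟨a1, a2, a3⟩ := vc2_adj h (i := 0) (by omega)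
  obtain ⟨b1, -, b3⟩ := vc2_adj h (i := 1) (by omega)
  have z1 := vc2_zero h (i := 0) (j := 3) (by omega) (by omega) (by omega) (by omega) (by omega)
  have z2 := vc2_zero h (i := 1) (j := 0) (by omega) (by omega) (by omega) (by omega) (by omega)
  refine cg_mkT (by omega) _ (fun e he => ?_) (fun i hi j hj hn => ?_) (vc2_far h)
  · simp only [e2, List.mem_cons, List.not_mem_nil, or_false] at he
    rcases he with rfl | rfl | rfl | rfl | rfl | rfl | rfl | rfl <;>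
      simp [fw, fg, vc2_pm, bT_val, *]
  · interval_cases i <;> interval_cases j <;> simp [fw, vc2_pm, e2, *] at hn ⊢

theorem fan_cg3 (h : Fan V τ a v 3) (h01 : md.p01 ≠ 0) (h02 : md.p02 = 0) (h12 : md.p12 ≠ 0) :
    CG md (V \ fanQ v 3) (fw a v 3) τ 3 (fT (e3 (fg τ a v 3)) (τ s(v 0, a)) (τ s(a, v 4))) τ ∧
      pur md (fT (e3 (fg τ a v 3)) (τ s(v 0, a)) (τ s(a, v 4))) = true := by
  obtain ⟨a1, a2, a3⟩ := vc2_adj h (i := 0) (by omega)
  obtain ⟨b1, -, b3⟩ := vc2_adj h (i := 1) (by omega)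
  obtain ⟨c1, -, c3⟩ := vc2_adj h (i := 2) (by omega)
  have z1 := vc2_zero h (i := 0) (j := 4) (by omega) (by omega) (by omega) (by omega) (by omega)
  have z2 := vc2_zero h (i := 1) (j := 0) (by omega) (by omega) (by omega) (by omega) (by omega)
  have z3 := vc2_zero h (i := 1) (j := 4) (by omega) (by omega) (by omega) (by omega) (by omega)
  have z4 := vc2_zero h (i := 2) (j := 0) (by omega) (by omega) (by omega) (by omega) (by omega)
  have z5 := vc2_zero h (i := 2) (j := 1) (by omega) (by omega) (by omega) (by omega) (by omega)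
  refine cg_mkT (by omega) _ (fun e he => ?_) (fun i hi j hj hn => ?_) (vc2_far h)
  · simp only [e3, List.mem_cons, List.not_mem_nil, or_false] at he
    rcases he with rfl | rfl | rfl | rfl | rfl | rfl | rfl | rfl | rfl <;>
      simp [fw, fg, vc2_pm, bT_val, *]
  · interval_cases i <;> interval_cases j <;> simp [fw, vc2_pm, e3, *] at hn ⊢

theorem e2_sp {m : ℕ} {g : ℕ → Bool} (h : Sp 5 m g) : e2 g = e2 (tb m) := by
  rw [e2, e2, h 0 (by omega), h 1 (by omega), h 2 (by omega), h 3 (by omega), h 4 (by omega)]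

theorem e3_sp {m : ℕ} {g : ℕ → Bool} (h : Sp 7 m g) : e3 g = e3 (tb m) := by
  rw [e3, e3, h 0 (by omega), h 1 (by omega), h 2 (by omega), h 3 (by omega), h 4 (by omega),
    h 5 (by omega), h 6 (by omega)]

theorem vc3_adj (h : Fan V τ a v k) {i : ℕ} (hi : i < k) :
    τ s(v (i + 1), a) ≠ 0 ∧ τ s(v i, v (i + 1)) ≠ 0 ∧ τ s(v (i + 1), v (i + 2)) ≠ 0 := by
  have q : ∀ w, w ∈ ({a, v i, v (i + 2)} : Finset α) → τ s(v (i + 1), w) ≠ 0 := fun w hw => by
    rw [← h.nbr i hi] at hw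
    exact (mem_nb.1 hw).2.2
  refine ⟨q _ (by simp), ?_, q _ (by simp)⟩
  rw [Sym2.eq_swap]
  exact q _ (by simp)

theorem vc3_ind (t : Fin 3) : ind t = if t ≠ 0 then 1 else 0 := by
  revert t
  decide

theorem vc3_spokes (h : Fan V τ a v k) :
    (((range (k + 2)).filter fun i => τ s(v i, a) ≠ 0).image fun i => s(v i, a)).card =
      k + ind (τ s(v 0, a)) + ind (τ s(a, v (k + 1))) := by
  rw [card_image_of_injOn, card_filter, sum_range_succ, sum_range_succ', vc3_ind, vc3_ind,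
    Sym2.eq_swap (a := a), sum_congr rfl fun i hi => if_pos (vc3_adj h (mem_range.1 hi)).1]
  · simp
  · intro i hi j hj e
    have hi' := mem_range.1 (mem_filter.1 hi).1
    have hj' := mem_range.1 (mem_filter.1 hj).1
    exact h.inj i j (by omega) (by omega) (Sym2.congr_left.1 e)

theorem vc3_path (h : Fan V τ a v k) :
    ((range (k + 1)).image fun i => s(v i, v (i + 1))).card = k + 1 := by
  rw [card_image_of_injOn, card_range]
  intro i hi j hj e
  have hi' := mem_range.1 hi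
  have hj' := mem_range.1 hj
  rcases Sym2.eq_iff.1 e with e | e
  · exact h.inj i j (by omega) (by omega) e.1
  · have h1 := h.inj _ _ (by omega) (by omega) e.1
    have h2 := h.inj _ _ (by omega) (by omega) e.2
    omega

/-- The number of edges of a fan. -/
theorem fan_ne (h : Fan V τ a v k) (h01 : md.p01 ≠ 0) (h12 : md.p12 ≠ 0) :
    n0 (· ≠ 0) md (V \ fanQ v k) (fw a v k) τ +
      (2 * k + 1 + ind (τ s(v 0, a)) + ind (τ s(a, v (k + 1)))) ≤ ne V τ := by
  have k2 := h.k2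
  have hQ : ∀ i, 1 ≤ i → i ≤ k → v i ∉ V \ fanQ v k := fun i h1 h2 e =>
    (mem_sdiff.1 e).2 (mem_fanQ.2 ⟨i - 1, by omega, by rw [Nat.sub_add_cancel h1]⟩)
  have d1 : Disjoint (((range (k + 2)).filter fun i => τ s(v i, a) ≠ 0).image fun i => s(v i, a))
      ((range (k + 1)).image fun i => s(v i, v (i + 1))) := by
    refine disjoint_left.2 fun e h1 h2 => ?_
    obtain ⟨i, -, rfl⟩ := mem_image.1 h1
    obtain ⟨j, hj, e⟩ := mem_image.1 h2
    have hj' := mem_range.1 hj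
    rcases Sym2.eq_iff.1 e with e | e
    · exact h.na _ (by omega) e.2
    · exact h.na _ (by omega) e.1
  have c1 := card_union_of_disjoint d1
  rw [vc3_spokes h, vc3_path h] at c1
  rw [show 2 * k + 1 + ind (τ s(v 0, a)) + ind (τ s(a, v (k + 1))) =
    k + ind (τ s(v 0, a)) + ind (τ s(a, v (k + 1))) + (k + 1) by omega, ← c1, n0, ne,
    ← card_union_of_disjoint]
  · refine card_le_card fun e he => ?_
    rcases mem_union.1 he with he | he
    · simp only [mem_filter] at he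
      obtain ⟨m, n, -⟩ := he
      refine mem_filter.2 ⟨?_, n⟩
      induction e using Sym2.ind with
      | h u w =>
        obtain ⟨hu, hw, n⟩ := mk_mem_pairs.1 m
        exact mk_mem_pairs.2 ⟨(mem_sdiff.1 hu).1, (mem_sdiff.1 hw).1, n⟩
    rcases mem_union.1 he with he | he
    · obtain ⟨i, hi, rfl⟩ := mem_image.1 he
      have hi' := mem_range.1 (mem_filter.1 hi).1
      exact mem_filter.2 ⟨mk_mem_pairs.2 ⟨h.hv i (by omega), h.ha, h.na i (by omega)⟩,
        (mem_filter.1 hi).2⟩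
    · obtain ⟨i, hi, rfl⟩ := mem_image.1 he
      have hi' := mem_range.1 hi
      refine mem_filter.2 ⟨mk_mem_pairs.2 ⟨h.hv i (by omega), h.hv _ (by omega), fun e => ?_⟩, ?_⟩
      · have := h.inj _ _ (by omega) (by omega) e
        omega
      · rcases i with _ | i
        · exact (vc3_adj h (by omega)).2.1
        · exact (vc3_adj h (by omega)).2.2
  · refine disjoint_left.2 fun e h1 h2 => ?_
    simp only [mem_filter] at h1
    obtain ⟨m, -, n⟩ := h1
    rcases mem_union.1 h2 with he | he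
    · obtain ⟨i, hi, rfl⟩ := mem_image.1 he
      have hi' := mem_range.1 (mem_filter.1 hi).1
      by_cases e0 : i = 0
      · subst e0
        exact h01 (n 0 (by omega) 1 (by omega) rfl)
      by_cases e1 : i = k + 1
      · subst e1
        exact h12 (n 2 (by omega) 1 (by omega) rfl)
      exact hQ i (by omega) (by omega) (mk_mem_pairs.1 m).1
    · obtain ⟨i, hi, rfl⟩ := mem_image.1 he
      have hi' := mem_range.1 hi
      by_cases e0 : i = 0
      · subst e0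
        exact hQ 1 le_rfl (by omega) (mk_mem_pairs.1 m).2.1
      exact hQ i (by omega) (by omega) (mk_mem_pairs.1 m).1

end Pool.Agent.Lib.MP_efe3d7_co.J.Tw
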