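import Pool.Agent.Lib.MP_efe3d7_co.J.TS

/-! Fans: windows, tables and the facts supplied by the certificates. -/

set_option autoImplicit false

open Finset

namespace Pool.Agent.Lib.MP_efe3d7_co.J.Tw

open H
open H.Fn (T5 pr pev)

/-- Hard or heavy. -/
def bT (b : Bool) : ℕ := bif b then 2 else 1

/-- The edges at the cubic vertices of a fan with two vertices. -/
def e2 (g : ℕ → Bool) : List (ℕ × ℕ × ℕ) :=
  [(4, 2, bT (g 0)), (4, 1, bT (g 1)), (3, 4, bT (g 2)), (3, 1, bT (g 3)), (0, 3, bT (g 4))]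

/-- The edges at the cubic vertices of a fan with three vertices. -/
def e3 (g : ℕ → Bool) : List (ℕ × ℕ × ℕ) :=
  [(5, 2, bT (g 0)), (5, 1, bT (g 1)), (4, 5, bT (g 2)), (4, 1, bT (g 3)), (3, 4, bT (g 4)),
    (3, 1, bT (g 5)), (0, 3, bT (g 6))]

/-- The table of a fan. -/
def fT (e : List (ℕ × ℕ × ℕ)) (ca ab : ℕ) : ℕ := mkT ((0, 1, ca) :: (1, 2, ab) :: e)

/-- A fan with three vertices together with its hub. -/
def eY (ca ab : ℕ) (au : Bool) : List (ℕ × ℕ × ℕ) :=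
  [(0, 3, 1), (3, 4, 1), (4, 5, 1), (5, 2, 1), (6, 3, 2), (6, 4, 2), (6, 5, 2), (6, 1, bT au),
    (6, 0, ca), (6, 2, ab)]

/-- A fan with two vertices together with its ends. -/
def eU (s t : Bool) : List (ℕ × ℕ × ℕ) :=
  [(5, 3, 1), (3, 1, 2), (3, 4, 1), (4, 1, 2), (4, 6, 1), (5, 1, 2), (6, 1, 2), (5, 6, 2),
    (0, 5, bT s), (2, 6, bT t)]

/-- A graph with six vertices. -/
def eZ (s t u : Bool) : List (ℕ × ℕ × ℕ) :=
  (0, 1, 2) :: (1, 2, 2) :: (0, 2, 2) :: (5, 0, bT s) :: (5, 1, bT t) :: (5, 2, bT u) :: e2 (tb 10)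

/-- The basic mode. -/
def mL (m : ℕ) : Mo := ⟨1, 0, 1, false, true, false, true, m⟩

/-- The hub has two more neighbours. -/
def mT (m : ℕ) : Mo := ⟨1, 0, 1, false, false, false, true, m⟩

/-- The ends are not adjacent. -/
def mA (m : ℕ) : Mo := ⟨1, 1, 1, false, true, false, true, m⟩

/-- The ends stay adjacent. -/
def mP (m : ℕ) : Mo := ⟨1, 2, 1, false, true, false, false, m⟩

/-- The first end has two more neighbours. -/
def mB (m : ℕ) : Mo := ⟨1, 1, 1, false, true, true, false, m⟩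

/-- The second end has two more neighbours. -/
def mC (m : ℕ) : Mo := ⟨1, 1, 1, true, true, false, false, m⟩

/-- The window contains the ends. -/
def mU (m : ℕ) : Mo := ⟨0, 0, 0, false, true, false, false, m⟩

/-- The window contains the hub. -/
def mV (p q m : ℕ) : Mo := ⟨p, 0, q, false, false, false, false, m⟩

/-- The status of a known pair. -/
def stt (t : ℕ) : ℕ := bif Nat.beq t 0 then 1 else 2

/-- Indicator of an edge. -/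
def ind (t : ℕ) : ℕ := bif Nat.beq t 0 then 0 else 1

/-- The first `n` values are the bits of `m`. -/
def Sp (n m : ℕ) (g : ℕ → Bool) : Prop := ∀ j < n, g j = tb m j

/-- The types of the two spokes to the ends in the special cases. -/
def X12 (ca ab : ℕ) : Prop := (ca = 0 ∧ ab = 0) ∨ (ca = 0 ∧ ab = 2) ∨ (ca = 2 ∧ ab = 0)

/-- A certified window. -/
def WOk (G : List (ℕ × ℕ × ℕ)) (x : ℝ) (md : Mo) (n ct : ℕ) : Prop :=
  Cone x md (ce n ct) true (wgt n ct) (cv (rOps x) n ct) ∧ XP G x md n ct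

/-- A certified vector. -/
def VOk (G : List (ℕ × ℕ × ℕ)) (x : ℝ) (md : Mo) (N : ℕ) (f : T5 ℝ) : Prop :=
  ∀ γ : T5 ℝ, ((∀ n ct, safe md n ct = true → ce n ct < N → 0 < pr (cv (rOps x) n ct) γ) ∨
    ∃ r t, XIn G md r t ∧ γ = sc (1 + x) (gam (rOps x) r t)) → 0 < pr f γ

/-- The vector of a typed fan. -/
noncomputable def fv (x : ℝ) (g : ℕ → Bool) (k ca ab : ℕ) : T5 ℝ :=
  fin (rOps x) (cd ab) (cd ca) (sta (rOps x) g k)

/-- The facts supplied by the certificates. -/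
structure Data (G : List (ℕ × ℕ × ℕ)) (x : ℝ) : Prop where
  x0 : 0 < x
  xe : XE G
  long : ∀ g k ca ab, 4 ≤ k → ca ≤ 2 → ab ≤ 2 → ∃ m ≤ 3, VOk G x (mL m) 9 (fv x g k ca ab)
  k3 : ∀ g ca ab, ca ≤ 2 → ab ≤ 2 → ¬ Sp 7 42 g →
    ∃ m ≤ 3, VOk G x (mL m) (7 + ind ca + ind ab) (fv x g 3 ca ab)
  ks : ∀ ca ab, ca ≤ 2 → ab ≤ 2 → ¬ X12 ca ab →
    ∃ m ≤ 3, WOk G x (mL m) 3 (fT (e3 (tb 42)) ca ab)
  yt : ∀ ca ab, X12 ca ab → ∃ m ≤ 3, WOk G x (mT m) 3 (fT (e3 (tb 42)) ca ab)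
  y1 : ∀ cu ub au, cu ≤ 2 → ub ≤ 2 →
    ∃ m ≤ 3, WOk G x (mV (stt cu) (stt ub) m) 4 (fT (eY 0 0 au) cu ub)
  y2 : ∀ ca ab au, X12 ca ab → ¬ (ca = 0 ∧ ab = 0) →
    ∃ m ≤ 3, WOk G x (mV 0 0 m) 4 (mkT (eY ca ab au))
  k2 : ∀ g ca ab, ca ≤ 2 → ab ≤ 2 → ¬ (ca = 0 ∧ ab = 0) → ¬ (Sp 5 10 g ∧ ca = 2 ∧ ab = 2) →
    ∃ m ≤ 2, WOk G x (mL m) 2 (fT (e2 g) ca ab)
  kt : ∀ g, ∃ m ≤ 2, WOk G x (mT m) 2 (fT (e2 g) 0 0)
  xa : ∃ m ≤ 2, WOk G x (mA m) 2 (fT ((0, 2, 0) :: e2 (tb 10)) 2 2)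
  xp : ∃ m ≤ 2, WOk G x (mP m) 2 (fT ((0, 2, 1) :: e2 (tb 10)) 2 2)
  xb : ∃ m ≤ 2, WOk G x (mB m) 2 (fT ((0, 2, 2) :: e2 (tb 10)) 2 2)
  xc : ∃ m ≤ 2, WOk G x (mC m) 2 (fT ((0, 2, 2) :: e2 (tb 10)) 2 2)
  xu : ∀ s t, ∃ m ≤ 3, WOk G x (mU m) 4 (mkT (eU s t))
  xz : ∀ s t u, 0 < pr (cv (rOps x) 3 (mkT (eZ s t u))) (gam (rOps x) 0 0)
  wh : ∀ g k ca ab bc, 4 ≤ k →
    0 < pr (fv x g k (bT ca) (bT ab)) (gam (rOps x) 0 (mkT [(0, 2, bT bc)]))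
  w2 : ∀ g ca ab bc, 0 < pr (fv x g 2 (bT ca) (bT ab)) (gam (rOps x) 0 (mkT [(0, 2, bT bc)])) ∨
    ∃ u, isx (mL 0) 2 (fT (e2 g) (bT ca) (bT ab)) 0 (mkT [(0, 2, bT bc)]) u = true
  w3 : ∀ g ca ab bc, 0 < pr (fv x g 3 (bT ca) (bT ab)) (gam (rOps x) 0 (mkT [(0, 2, bT bc)])) ∨
    ∃ u, isx (mL 0) 3 (fT (e3 g) (bT ca) (bT ab)) 0 (mkT [(0, 2, bT bc)]) u = true

/-- A linear function of a vector. -/
def Lin (L : T5 ℝ → ℝ) : Prop := ∃ c : T5 ℝ, ∀ a, L a = dot (rOps 0) c a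

variable {α : Type} [DecidableEq α]

/-- The vertices of the window of a fan: first end, hub, second end, cubic vertices. -/
def fw (a : α) (v : ℕ → α) (k i : ℕ) : α :=
  if i = 0 then v 0 else if i = 1 then a else if i = 2 then v (k + 1) else v (i - 2)

/-- The heavy edges of a fan, from its second end. -/
def fg (τ : Sym2 α → Fin 3) (a : α) (v : ℕ → α) (k j : ℕ) : Bool :=
  if j % 2 = 0 then decide (τ s(v (k - j / 2), v (k - j / 2 + 1)) = 2)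
  else decide (τ s(v (k - j / 2), a) = 2)

end Pool.Agent.Lib.MP_efe3d7_co.J.Tw
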