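import Pool.Agent.Lib.MP_efe3d7_co.J.TF
import Pool.Agent.Lib.MP_efe3d7_co.J.VB
import Pool.Agent.Lib.MP_efe3d7_co.J.VC

/-! The families of vectors that are certified. -/

set_option autoImplicit false

namespace Pool.Agent.Lib.MP_efe3d7_co.J.Tw

open H
open H.Fn (T5 pr pev)

noncomputable section

/-- The box for small values of the parameter. -/
def R3 : List (ℤ × ℤ) :=
  [(55, -406), (140, 156), (37, -328), (145, -3), (-79, -285), (695, -730), (-138, -34), (552, -558)]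

/-- The box for large values of the parameter. -/
def R4 : List (ℤ × ℤ) :=
  [(414, -883), (-356, 722), (163, -402), (-479, 878), (21, -274), (-786, 1345), (564, -967),
    (-540, 981)]

/-- The code of an edge that is hard or heavy. -/
def hT (b : Bool) : ℕ := bif b then 2 else 0

/-- Some steps from a corner. -/
def cst {β : Type} (O : Ops β) (R : List (ℤ × ℤ)) (i m : ℕ) : T5 β :=
  Nat.rec (frc (Nat.mod i 16) (crn O R)) (fun j a => stp O (tb i (Nat.add 6 (Nat.mul 2 j)))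
    (tb i (Nat.add 7 (Nat.mul 2 j))) a) m

/-- Vectors from the corners of a box. -/
def fC (e : Bool → ℕ) (R : List (ℤ × ℤ)) (m : ℕ) : Fa := fun O i =>
  fin O (e (tb i 4)) (e (tb i 5)) (cst O R i m)

/-- Vectors of typed fans; the index is shifted by `z`. -/
def fK (e : Bool → ℕ) (k z : ℕ) : Fa := fun O i => frc (Nat.add z i) fun i =>
  frc (Nat.shiftRight i 2) fun j => fin O (e (tb i 0)) (e (tb i 1)) (sta O (tb j) k)

/-- Typed states. -/
def fS (k : ℕ) : Fa := fun O i => sta O (tb i) k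

/-- One step from a corner. -/
def fI (R : List (ℤ × ℤ)) : Fa := fun O i =>
  stp O (tb i 4) (tb i 5) (frc (Nat.mod i 16) (crn O R))

/-- Vectors of tables. -/
def fN (n : ℕ) (T : ℕ → ℕ) : Fa := fun O i => cvS O n (T i)

/-- The rest of a wheel, named by bit `j`. -/
def fG (j : ℕ) : Fa := fun O i => gamS O 0 (mkT [(0, 2, bT (tb i j))])

/-- The empty rest. -/
def fZ : Fa := fun O _ => gam O 0 0

/-- The rests of wheels. -/
def LW : List (ℕ × ℕ) := [(0, mkT [(0, 2, 1)]), (0, mkT [(0, 2, 2)])]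

/-- Exceptional wheels. -/
def xw (k : ℕ) (e : (ℕ → Bool) → List (ℕ × ℕ × ℕ)) (xc : List (ℕ × ℕ)) (i : ℕ) : Bool :=
  anyL (isx (mL 0) k (fT (e (tb (i / 4))) (bT (tb i 1)) (bT (tb i 0))) 0
    (mkT [(0, 2, bT (tb i (2 * k + 3)))])) xc

/-- The bound for the number of edges for fans with three vertices. -/
def n3 (i : ℕ) : ℕ := 5 + bT (tb i 0) + bT (tb i 1)

/-- Fans with two vertices. -/
def T2 (i : ℕ) : ℕ := fT (e2 (tb i)) (i / 96) (i / 32 % 3)

/-- Special fans with three vertices. -/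
def T3 (i : ℕ) : ℕ := fT (e3 (tb 42)) (i / 3) (i % 3)

/-- Windows that contain the hub. -/
def TY (i : ℕ) : ℕ := fT (eY 0 0 (tb i 0)) (i / 6) (i / 2 % 3)

/-- Windows that contain the hub. -/
def TV (i : ℕ) : ℕ := mkT (eY (i / 2 * 2) (2 - i / 2 * 2) (tb i 0))

/-- The special fan with two vertices. -/
def TA (i : ℕ) : ℕ := fT ((0, 2, i) :: e2 (tb 10)) 2 2

/-- Windows that contain the ends. -/
def TU (i : ℕ) : ℕ := mkT (eU (tb i 0) (tb i 1))

/-- Graphs with six vertices. -/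
def TZ (i : ℕ) : ℕ := mkT (eZ (tb i 0) (tb i 1) (tb i 2))

end

/-- No exception. -/
def no (_ : ℕ) : Bool := false

/-- A family of checked nodes that covers an interval. -/
def Cf (lo hi M : ℕ) (ex : ℕ → Bool) (f : Nd → Cx → Bool) : Prop :=
  ∃ l, allL (onN 18525 f) l = true ∧ cvr lo hi M ex l = true

/-- A family of checked windows. -/
def Wf (G : List (ℕ × ℕ × ℕ)) (md : Mo) (M n : ℕ) (T : ℕ → ℕ) (ex : ℕ → Bool) : Prop :=
  Cf 4576 14469 M ex (ckF md M (fN n T) (fun i => ce n (T i)) true fun i => wgt n (T i)) ∧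
    ∃ L xc, xsub G md L = true ∧ Cf 4576 14469 M ex (ckX md L xc M n T)

/-- The certificates for long fans and wheels. -/
structure Crt (G : List (ℕ × ℕ × ℕ)) (L : List (ℕ × ℕ)) : Prop where
  sub : xsub G (mL 2) L = true
  len : L.length = 148
  e3 : Cf 4576 12584 128 no (ckI R3 128 (fS 3))
  i3 : Cf 4576 12584 64 no (ckI R3 64 (fI R3))
  e4 : Cf 12584 14469 512 no (ckI R4 512 (fS 4))
  i4 : Cf 12584 14469 64 no (ckI R4 64 (fI R4))
  c3 : Cf 4576 12584 256 no (ckF (mL 2) 256 (fC bT R3 1) (fun _ => 9) false fun _ => 0)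
  c4 : Cf 12584 14469 256 no (ckF (mL 2) 256 (fC bT R4 1) (fun _ => 9) false fun _ => 0)
  k4 : Cf 12584 14469 2048 no (ckF (mL 2) 2048 (fK bT 4 0) (fun _ => 9) false fun _ => 0)
  k3 : Cf 4576 14469 512 (fun i => Nat.beq (i / 4) 42)
    (ckF (mL 2) 512 (fK bT 3 0) n3 false fun _ => 0)
  g3 : Cf 4576 12584 148 no (ckG L 148 64 (fC bT R3 0))
  g4 : Cf 12584 14469 148 (tb 101) (ckG L 148 64 (fC bT R4 0))
  g5 : Cf 12584 14469 148 (fun j => !tb 101 j) (ckG L 148 256 (fC bT R4 1))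
  h4 : Cf 12584 14469 148 (fun j => !tb 101 j) (ckG L 148 2048 (fK bT 4 0))
  h3 : Cf 12584 14469 148 no (ckG L 148 512 (fK bT 3 0))
  u3 : Cf 4576 12584 2 no (ckG LW 2 64 (fC hT R3 0))
  u6 : Cf 12584 14469 2 no (ckG LW 2 1024 (fC hT R4 2))
  u4 : Cf 12584 14469 2 no (ckG LW 2 2048 (fK hT 4 0))
  u5 : ∀ z < 4, Cf 12584 14469 2 no (ckG LW 2 2048 (fK hT 5 (2048 * z)))
  v2 : ∃ xc, Cf 4576 14469 256 (xw 2 e2 xc) (ckP 256 (fK hT 2 0) (fG 7))
  v3 : ∃ xc, Cf 4576 14469 1024 (xw 3 Tw.e3 xc) (ckP 1024 (fK hT 3 0) (fG 9))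

/-- The certificates for windows. -/
structure Crw (G : List (ℕ × ℕ × ℕ)) : Prop where
  ks : Wf G (mL 2) 9 3 T3 (tb 69)
  yt : Wf G (mT 3) 9 3 T3 fun i => !tb 69 i
  y1 : ∀ p q, p = 1 ∨ p = 2 → q = 1 ∨ q = 2 → Wf G (mV p q 2) 18 4 TY fun i =>
    !(Nat.beq (stt (i / 6)) p && Nat.beq (stt (i / 2 % 3)) q)
  y2 : Wf G (mV 0 0 2) 4 4 TV no
  k2 : Wf G (mL 2) 288 2 T2 fun i => Nat.blt i 32 || Nat.beq i 266
  kt : Wf G (mT 2) 32 2 T2 no
  xa : Wf G (mA 2) 3 2 TA (tb 6)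
  xp : Wf G (mP 2) 3 2 TA (tb 5)
  xb : Wf G (mB 2) 3 2 TA (tb 3)
  xc : Wf G (mC 2) 3 2 TA (tb 3)
  xu : Wf G (mU 2) 4 4 TU no
  xz : Cf 4576 14469 8 no (ckP 8 (fN 3 TZ) fZ)

variable {x : ℝ} {lo hi M i : ℕ} {ex : ℕ → Bool} {md : Mo} {F F' : Fa} {e : Bool → ℕ}
  {R : List (ℤ × ℤ)} {a γ : T5 ℝ} {G : List (ℕ × ℕ × ℕ)}

theorem vf1_cst {β γ : Type} {Q : β → γ → Prop} {O : Ops β} {O' : Ops γ} (h : Hom Q O O')
    (R : List (ℤ × ℤ)) (i m : ℕ) : R5 Q (cst O R i m) (cst O' R i m) := by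
  induction m with
  | zero =>
    simp only [cst, frc_eq]
    exact h.crn _ _
  | succ m ih => exact h.stp _ _ ih

theorem fC_ok (e : Bool → ℕ) (R : List (ℤ × ℤ)) (m : ℕ) : FaOk (fC e R m) := by
  exact fun h i => h.fin _ _ (vf1_cst h R i m)

theorem fK_ok (e : Bool → ℕ) (k z : ℕ) : FaOk (fK e k z) := by
  intro _ _ _ _ _ h i
  simp only [fK, frc_eq]
  exact h.fin _ _ (h.sta _ _)

theorem fS_ok (k : ℕ) : FaOk (fS k) := by
  exact fun h _ => h.sta _ _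

theorem fI_ok (R : List (ℤ × ℤ)) : FaOk (fI R) := by
  intro _ _ _ _ _ h i
  simp only [fI, frc_eq]
  exact h.stp _ _ (h.crn _ _)

theorem fN_ok (n : ℕ) (T : ℕ → ℕ) : FaOk (fN n T) := by
  intro _ _ _ _ _ h i
  simp only [fN, cvS_eq]
  exact h.cv _ _

theorem fG_ok (j : ℕ) : FaOk (fG j) := by
  intro _ _ _ _ _ h i
  simp only [fG, gamS_eq]
  exact h.gam _ _

theorem fZ_ok : FaOk fZ := by
  exact fun h _ => h.gam _ _

theorem Cf.cone {N W : ℕ → ℕ} {sm : Bool} (h : Cf lo hi M ex (ckF md M F N sm W)) (hF : FaOk F)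
    (hx : Inn 18525 lo hi x) (hi' : i < M) (he : ex i = false) :
    Cone x md (N i) sm (W i) (F (rOps x) i) := by
  obtain ⟨l, h1, h2⟩ := h
  obtain ⟨u, c, s, o, a1, a2, a3⟩ := node_of h1 h2 hi' he hx
  exact ckF_sound a1 hF a2 hi' a3

theorem Cf.gam {L : List (ℕ × ℕ)} {K j : ℕ} (h : Cf lo hi K ex (ckG L K M F)) (hF : FaOk F)
    (hx : Inn 18525 lo hi x) (hj : j < K) (he : ex j = false) (hi' : i < M) :
    0 < pr (F (rOps x) i) (gam (rOps x) (L.getD j (0, 0)).1 (L.getD j (0, 0)).2) := by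
  obtain ⟨l, h1, h2⟩ := h
  obtain ⟨u, c, s, o, a1, a2, a3⟩ := node_of h1 h2 hj he hx
  exact ckG_sound a1 hF a2 hj a3 hi'

theorem Cf.box (h : Cf lo hi M ex (ckI R M F)) (hF : FaOk F) (hx : Inn 18525 lo hi x)
    (hi' : i < M) (he : ex i = false) : InR x R (F (rOps x) i) := by
  obtain ⟨l, h1, h2⟩ := h
  obtain ⟨u, c, s, o, a1, a2, a3⟩ := node_of h1 h2 hi' he hx
  exact ckI_sound a1 hF a2 hi' a3

theorem Cf.pair (h : Cf lo hi M ex (ckP M F F')) (hF : FaOk F) (hF' : FaOk F')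
    (hx : Inn 18525 lo hi x) (hi' : i < M) (he : ex i = false) :
    0 < pr (F (rOps x) i) (F' (rOps x) i) := by
  obtain ⟨l, h1, h2⟩ := h
  obtain ⟨u, c, s, o, a1, a2, a3⟩ := node_of h1 h2 hi' he hx
  exact ckP_sound a1 hF hF' a2 hi' a3

theorem Wf.ok {n : ℕ} {T : ℕ → ℕ} (h : Wf G md M n T ex) (hx : Inn 18525 4576 14469 x)
    (hi' : i < M) (he : ex i = false) : WOk G x md n (T i) := by
  obtain ⟨h0, L, xc, hL, l, h1, h2⟩ := h
  obtain ⟨u, c, s, o, a1, a2, a3⟩ := node_of h1 h2 hi' he hx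
  exact ⟨cvS_eq (rOps x) n (T i) ▸ h0.cone (fN_ok n T) hx hi' he, ckX_sound a1 hL a2 hi' a3⟩

theorem inn_of (h : Iv x) : 0 < x ∧ Inn 18525 4576 14469 x ∧
    (Inn 18525 4576 12584 x ∨ Inn 18525 12584 14469 x) := by
  obtain ⟨h1, h2⟩ := h
  simp only [Inn]
  push_cast
  refine ⟨by linarith, ⟨by linarith, by linarith⟩, ?_⟩
  rcases le_or_gt (18525 * x) 12584 with e | e
  · exact .inl ⟨by linarith, by linarith⟩
  · exact .inr ⟨by linarith, by linarith⟩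

theorem mem_getD {L : List (ℕ × ℕ)} {u : ℕ × ℕ} (h : u ∈ L) :
    ∃ j < L.length, L.getD j (0, 0) = u := by
  obtain ⟨j, hj, e⟩ := List.mem_iff_getElem.1 h
  exact ⟨j, hj, by rw [List.getD_eq_getElem _ _ hj, e]⟩

/-- The index of a corner and six bits. -/
def vf2_i (m : ℕ) (t s p q p' q' : Bool) : ℕ :=
  m + 16 * t.toNat + 32 * s.toNat + 64 * p.toNat + 128 * q.toNat + 256 * p'.toNat + 512 * q'.toNat

theorem vf2_idx : ∀ m < 16, ∀ t s p q p' q' : Bool, vf2_i m t s p q p' q' < 1024 ∧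
    vf2_i m t s p q false false < 256 ∧ vf2_i m t s false false false false < 64 ∧
    Nat.mod (vf2_i m t s p q p' q') 16 = m ∧ tb (vf2_i m t s p q p' q') 4 = t ∧
    tb (vf2_i m t s p q p' q') 5 = s ∧ tb (vf2_i m t s p q p' q') 6 = p ∧
    tb (vf2_i m t s p q p' q') 7 = q ∧ tb (vf2_i m t s p q p' q') 8 = p' ∧
    tb (vf2_i m t s p q p' q') 9 = q' := by
  decide +kernel

theorem vf2_c0 (i : ℕ) : fC e R 0 (rOps x) i =
    fin (rOps x) (e (tb i 4)) (e (tb i 5)) (crn (rOps x) R (Nat.mod i 16)) := by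
  rw [← frc_eq (Nat.mod i 16) (crn (rOps x) R)]
  rfl

theorem vf2_c1 (i : ℕ) : fC e R 1 (rOps x) i = fin (rOps x) (e (tb i 4)) (e (tb i 5))
    (stp (rOps x) (tb i 6) (tb i 7) (crn (rOps x) R (Nat.mod i 16))) := by
  rw [← frc_eq (Nat.mod i 16) (crn (rOps x) R)]
  rfl

theorem vf2_c2 (i : ℕ) : fC e R 2 (rOps x) i = fin (rOps x) (e (tb i 4)) (e (tb i 5))
    (stp (rOps x) (tb i 8) (tb i 9)
      (stp (rOps x) (tb i 6) (tb i 7) (crn (rOps x) R (Nat.mod i 16)))) := by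
  rw [← frc_eq (Nat.mod i 16) (crn (rOps x) R)]
  rfl

theorem box0 (h : ∀ i < 64, 0 < pr (fC e R 0 (rOps x) i) γ) (ha : InR x R a) (t s : Bool) :
    0 < pr (fin (rOps x) (e t) (e s) a) γ := by
  refine ha.pos (lin_fin _ _ γ) fun m hm => ?_
  obtain ⟨-, -, b, e0, e4, e5, -⟩ := vf2_idx m hm t s false false false false
  have := h _ b
  rwa [vf2_c0, e0, e4, e5] at this

theorem box1 (h : ∀ i < 256, 0 < pr (fC e R 1 (rOps x) i) γ) (ha : InR x R a) (t s p q : Bool) :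
    0 < pr (fin (rOps x) (e t) (e s) (stp (rOps x) p q a)) γ := by
  refine ha.pos ((lin_fin _ _ γ).stp p q) fun m hm => ?_
  obtain ⟨-, b, -, e0, e4, e5, e6, e7, -⟩ := vf2_idx m hm t s p q false false
  have := h _ b
  rwa [vf2_c1, e0, e4, e5, e6, e7] at this

theorem box2 (h : ∀ i < 1024, 0 < pr (fC e R 2 (rOps x) i) γ) (ha : InR x R a)
    (t s p q p' q' : Bool) :
    0 < pr (fin (rOps x) (e t) (e s) (stp (rOps x) p' q' (stp (rOps x) p q a))) γ := by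
  refine ha.pos (((lin_fin _ _ γ).stp p' q').stp p q) fun m hm => ?_
  obtain ⟨b, -, -, e0, e4, e5, e6, e7, e8, e9⟩ := vf2_idx m hm t s p q p' q'
  have := h _ b
  rwa [vf2_c2, e0, e4, e5, e6, e7, e8, e9] at this

theorem vf2_k (e : Bool → ℕ) (k z i : ℕ) : fK e k z (rOps x) i =
    fin (rOps x) (e (tb (z + i) 0)) (e (tb (z + i) 1)) (sta (rOps x) (tb ((z + i) / 4)) k) := by
  simp only [fK, frc_eq]
  rw [show Nat.shiftRight (Nat.add z i) 2 = (z + i) / 4 from Nat.shiftRight_eq_div_pow _ 2]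
  rfl

/-- The index of a typed fan; `b` is one more bit. -/
theorem typ_idx (e : Bool → ℕ) (k : ℕ) (g : ℕ → Bool) (t s b : Bool) :
    ∃ i < 2 ^ (2 * k + 4), (b = false → i < 2 ^ (2 * k + 3)) ∧ tb i 0 = t ∧ tb i 1 = s ∧
      tb i (2 * k + 3) = b ∧ Sp (2 * k + 1) (i / 4) g ∧
      fK e k 0 (rOps x) i = fin (rOps x) (e t) (e s) (sta (rOps x) g k) := by
  obtain ⟨i, h1, h2, h3⟩ := ex_idx (2 * k + 3)
    (fun j => if j = 0 then t else if j = 1 then s else g (j - 2)) (Bool.toNat_lt b)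
  have e0 : tb i 0 = t := h3 0 (by omega)
  have e1 : tb i 1 = s := h3 1 (by omega)
  have sp : Sp (2 * k + 1) (i / 4) g := fun j hj => by
    have := h3 (j + 2) (by omega)
    rw [if_neg (by omega), if_neg (by omega), Nat.add_sub_cancel] at this
    rw [← this, tb_eq, tb_eq, show (4 : ℕ) = 2 ^ 2 from rfl, Nat.testBit_div_two_pow, add_comm]
  refine ⟨i, h1, fun hb => ?_, e0, e1, ?_, sp, ?_⟩
  · subst hb
    exact (Nat.div_eq_zero_iff_lt (Nat.two_pow_pos _)).1 h2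
  · rw [tb_eq, Nat.testBit_eq_decide_div_mod_eq, h2]
    cases b <;> rfl
  · rw [vf2_k, Nat.zero_add, e0, e1, sta_congr _ fun j hj => (sp j (by omega)).symm]

theorem fK_add (e : Bool → ℕ) (k z i : ℕ) : fK e k z (rOps x) i = fK e k 0 (rOps x) (z + i) := by
  rw [vf2_k, vf2_k, Nat.zero_add]

/-- All long states lie in the box. -/
theorem box_in {j : ℕ} (h1 : Cf lo hi (2 ^ (2 * j + 1)) no (ckI R (2 ^ (2 * j + 1)) (fS j)))
    (h2 : Cf lo hi 64 no (ckI R 64 (fI R))) (hx : Inn 18525 lo hi x) (g : ℕ → Bool) {k : ℕ}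
    (hk : j ≤ k) : InR x R (sta (rOps x) g k) := by
  refine sta_in (fun g => ?_) (fun s r m hm => ?_) g hk
  · obtain ⟨i, b, -, h3⟩ := ex_idx (2 * j + 1) g Nat.one_pos
    rw [sta_congr (g' := tb i) _ fun l hl => (h3 l (by omega)).symm]
    exact h1.box (fS_ok j) hx (by omega) rfl
  · obtain ⟨-, -, b, e0, e4, e5, -⟩ := vf2_idx m hm s r false false false false
    have := h2.box (fI_ok R) hx b rfl
    simp only [fI, frc_eq] at this
    rwa [e0, e4, e5] at this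

end Pool.Agent.Lib.MP_efe3d7_co.J.Tw
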