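import Pool.Agent.Lib.MP_efe3d7_co.J.VC
import Pool.Agent.Lib.MP_efe3d7_co.H.Fan1
import Pool.Agent.Lib.MP_efe3d7_co.H.Fan3

/-! Maximal fans are windows. -/

set_option autoImplicit false

open Finset

namespace Pool.Agent.Lib.MP_efe3d7_co.J.Tw

open H
open H.Fn (T5 pr pev)

variable {α : Type} [DecidableEq α] {V : Finset α} {τ : Sym2 α → Fin 3} {a : α}
  {v : ℕ → α} {k m : ℕ}

theorem vw_end (hc : Con3 V τ) (h : MFan V τ a v k) :
    2 ≤ (nb V τ (v 0) \ insert a (fanQ v k)).card ∧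
      2 ≤ (nb V τ (v (k + 1)) \ insert a (fanQ v k)).card := by
  have A := h.afan
  have h4 : 4 ≤ V.card := A.hub.trans (card_le_card (nb_sub a))
  obtain ⟨Nb, b1, b2⟩ := fr2b_two hc h4 A.sub A.hb (fun u hu e => by
    rcases A.out u hu _ e with j | j | j | j
    exacts [absurd j A.bF, absurd j A.ab.symm, j.1, absurd j.2 A.bc]) A.eb A.wbF
  obtain ⟨Nc, c1, c2⟩ := fr2b_two hc h4 A.sub A.hc (fun u hu e => by
    rcases A.out u hu _ e with j | j | j | j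
    exacts [absurd j A.cF, absurd j A.ac.symm, absurd j.2 A.bc.symm, j.1]) A.ec A.wcF
  exact ⟨c1.trans (card_le_card fun z hz => by simp [c2 z hz]),
    b1.trans (card_le_card fun z hz => by simp [b2 z hz])⟩

theorem hub_out (hc : Con3 V τ) (h : MFan V τ a v k) :
    ∃ u ∈ nb V τ a, u ∉ fanQ v k ∧ u ≠ v 0 ∧ u ≠ v (k + 1) := by
  have A := h.afan
  by_contra n
  obtain ⟨p, p1, p2⟩ := exists_mem_ne (s := nb V τ (v 0) \ insert a (fanQ v k))
    (by have := (vw_end hc h).1; omega) (v (k + 1))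
  simp only [mem_sdiff, mem_insert, not_or] at p1
  have := hc.three (B := V \ (fanQ v k ∪ {a, v 0, v (k + 1)})) (S := {v 0, v (k + 1)})
    sdiff_subset ⟨p, by simp [nb_sub _ p1.1, p1.2.1, p1.2.2, p2, (mem_nb.1 p1.1).2.1]⟩
    (fun u hu w hw => by
      obtain ⟨u1, u2⟩ := mem_sdiff.1 hu
      simp only [mem_union, mem_insert, mem_singleton, not_or] at u2
      have k1 : w ∉ fanQ v k := fun j => by
        rcases A.out w j u (nb_symm u1 hw) with e | e | e | e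
        exacts [u2.1 e, u2.2.1 e, u2.2.2.2 e.2, u2.2.2.1 e.2]
      have k2 : w ≠ a := by
        rintro rfl
        exact n ⟨u, nb_symm u1 hw, u2.1, u2.2.2.1, u2.2.2.2⟩
      by_cases k3 : w ∈ ({v 0, v (k + 1)} : Finset α)
      · exact Or.inr k3
      · exact Or.inl (by simpa [nb_sub _ hw, k1, k2] using k3)) A.ha (by simp)
    (by simp [A.ab, A.ac])
  have := card_le_two (a := v 0) (b := v (k + 1))
  omega

theorem end_two (hc : Con3 V τ) (h : MFan V τ a v k) :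
    2 ≤ (nb V τ (v 0) \ insert a (fanQ v k)).card ∧
      2 ≤ (nb V τ (v (k + 1)) \ insert a (fanQ v k)).card := vw_end hc h

theorem vw_kp {md : Mo} {i : ℕ} {N : Finset α} (h2 : 2 ≤ N.card)
    (hN : ∀ z ∈ N, z ∈ nb V τ (fw a v k i) ∧ z ∉ fanQ v k ∧ (v 0 = z → md.pm i 0 ≠ 1) ∧
      (a = z → md.pm i 1 ≠ 1) ∧ (v (k + 1) = z → md.pm i 2 ≠ 1)) :
    2 ≤ (kp md V τ (V \ fanQ v k) (fw a v k) i).card := by
  refine h2.trans (card_le_card fun z hz => ?_)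
  obtain ⟨h1, h3, h4, h5, h6⟩ := hN z hz
  simp only [kp, mem_filter]
  refine ⟨h1, mem_sdiff.2 ⟨nb_sub _ h1, h3⟩, fun j hj => ?_⟩
  interval_cases j
  exacts [h4, h5, h6]

theorem vw_k0 {md : Mo} (hc : Con3 V τ) (h : MFan V τ a v k)
    (e : τ s(v 0, v (k + 1)) ≠ 0 → md.p02 ≠ 1) :
    2 ≤ (kp md V τ (V \ fanQ v k) (fw a v k) 0).card :=
  vw_kp (vw_end hc h).1 fun z hz => by
    simp only [mem_sdiff, mem_insert, not_or] at hz
    exact ⟨hz.1, hz.2.2, fun j => absurd j.symm (mem_nb.1 hz.1).2.1, fun j => absurd j.symm hz.2.1,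
      fun j => e (j ▸ (mem_nb.1 hz.1).2.2)⟩

theorem vw_k2 {md : Mo} (hc : Con3 V τ) (h : MFan V τ a v k)
    (e : τ s(v 0, v (k + 1)) ≠ 0 → md.p02 ≠ 1) :
    2 ≤ (kp md V τ (V \ fanQ v k) (fw a v k) 2).card :=
  vw_kp (vw_end hc h).2 fun z hz => by
    simp only [mem_sdiff, mem_insert, not_or] at hz
    exact ⟨hz.1, hz.2.2, fun j => e (by rw [Sym2.eq_swap, j]; exact (mem_nb.1 hz.1).2.2),
      fun j => absurd j.symm hz.2.1, fun j => absurd j.symm (mem_nb.1 hz.1).2.1⟩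

theorem vw_ex {i : ℕ} {z : α} (h1 : z ∈ nb V τ (fw a v k i)) (h2 : z ∉ fanQ v k) (h3 : z ≠ v 0)
    (h4 : z ≠ a) (h5 : z ≠ v (k + 1)) :
    ∃ z ∈ nb V τ (fw a v k i), z ∈ V \ fanQ v k ∧ ∀ j < 3, fw a v k j ≠ z := by
  refine ⟨z, h1, mem_sdiff.2 ⟨nb_sub _ h1, h2⟩, fun j hj => ?_⟩
  interval_cases j
  exacts [h3.symm, h4.symm, h5.symm]

theorem vw_o1 (hc : Con3 V τ) (h : MFan V τ a v k) :
    ∃ z ∈ nb V τ (fw a v k 1), z ∈ V \ fanQ v k ∧ ∀ j < 3, fw a v k j ≠ z := by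
  obtain ⟨u, u1, u2, u3, u4⟩ := hub_out hc h
  exact vw_ex (i := 1) u1 u2 u3 (mem_nb.1 u1).2.1 u4

theorem vw_win {md : Mo} (hc : Con3 V τ) (h : Fan V τ a v k) (hm : md.m ≤ k)
    (q2 : md.p01 ≤ 2 ∧ md.p02 ≤ 2 ∧ md.p12 ≤ 2)
    (t0 : 2 ≤ (kp md V τ (V \ fanQ v k) (fw a v k) 0).card ∨ (md.f0 = true ∧
      ∃ z ∈ nb V τ (fw a v k 0), z ∈ V \ fanQ v k ∧ ∀ j < 3, fw a v k j ≠ z))
    (t1 : 2 ≤ (kp md V τ (V \ fanQ v k) (fw a v k) 1).card ∨ (md.f1 = true ∧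
      ∃ z ∈ nb V τ (fw a v k 1), z ∈ V \ fanQ v k ∧ ∀ j < 3, fw a v k j ≠ z))
    (t2 : 2 ≤ (kp md V τ (V \ fanQ v k) (fw a v k) 2).card ∨ (md.f2 = true ∧
      ∃ z ∈ nb V τ (fw a v k 2), z ∈ V \ fanQ v k ∧ ∀ j < 3, fw a v k j ≠ z))
    (pa : md.pa = true → Con3 (V \ fanQ v k) (pth τ a (v (k + 1)) (v 0)) ∧
      (md.p02 = 1 → τ s(v 0, v (k + 1)) = 0)) :
    Win md V τ (V \ fanQ v k) (fw a v k) := by
  refine ⟨hc, sdiff_subset, fw_pl h hm, fun i hi => ?_, q2, fun q q1 q3 z z1 z2 => ?_,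
    fun i hi => ?_, pa⟩
  · unfold fw
    split_ifs
    exacts [h.hv _ (by omega), h.ha, h.hv _ le_rfl, h.hv _ (by omega)]
  · obtain ⟨i, hi, rfl⟩ := mem_fanQ.1 (by_contra fun n => q3 (mem_sdiff.2 ⟨q1, n⟩))
    have z3 := (mem_sdiff.1 z2).2
    rw [h.nbr i hi] at z1
    simp only [mem_insert, mem_singleton] at z1
    rcases z1 with rfl | rfl | rfl
    · exact ⟨1, by omega, rfl⟩
    · rcases i with _ | i
      · exact ⟨0, by omega, rfl⟩
      · exact absurd (mem_fanQ.2 ⟨i, by omega, rfl⟩) z3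
    · rcases eq_or_ne (i + 1) k with rfl | e
      · exact ⟨2, by omega, rfl⟩
      · exact absurd (mem_fanQ.2 ⟨i + 1, by omega, rfl⟩) z3
  · interval_cases i
    exacts [t0, t1, t2]

theorem win_L (hc : Con3 V τ) (h : MFan V τ a v k)
    (pa : Con3 (V \ fanQ v k) (pth τ a (v (k + 1)) (v 0))) (hm : m ≤ k) :
    Win (mL m) V τ (V \ fanQ v k) (fw a v k) :=
  vw_win hc h.1 hm (by simp [mL]) (.inl (vw_k0 hc h (by simp [mL]))) (.inr ⟨rfl, vw_o1 hc h⟩)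
    (.inl (vw_k2 hc h (by simp [mL]))) fun _ => ⟨pa, by simp [mL]⟩

theorem win_T (hc : Con3 V τ) (h : MFan V τ a v k)
    (pa : Con3 (V \ fanQ v k) (pth τ a (v (k + 1)) (v 0))) (hm : m ≤ k)
    (ht : 2 ≤ (nb V τ a \ (fanQ v k ∪ {v 0, v (k + 1)})).card) :
    Win (mT m) V τ (V \ fanQ v k) (fw a v k) :=
  vw_win hc h.1 hm (by simp [mT]) (.inl (vw_k0 hc h (by simp [mT])))
    (.inl (vw_kp ht fun z hz => by
      simp only [mem_sdiff, mem_union, mem_insert, mem_singleton, not_or] at hz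
      exact ⟨hz.1, hz.2.1, fun j => absurd j.symm hz.2.2.1,
        fun j => absurd j.symm (mem_nb.1 hz.1).2.1, fun j => absurd j.symm hz.2.2.2⟩))
    (.inl (vw_k2 hc h (by simp [mT]))) fun _ => ⟨pa, by simp [mT]⟩

theorem win_A (hc : Con3 V τ) (h : MFan V τ a v k)
    (pa : Con3 (V \ fanQ v k) (pth τ a (v (k + 1)) (v 0))) (hm : m ≤ k)
    (h0 : τ s(v 0, v (k + 1)) = 0) : Win (mA m) V τ (V \ fanQ v k) (fw a v k) :=
  vw_win hc h.1 hm (by simp [mA]) (.inl (vw_k0 hc h fun e => absurd h0 e))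
    (.inr ⟨rfl, vw_o1 hc h⟩) (.inl (vw_k2 hc h fun e => absurd h0 e)) fun _ => ⟨pa, fun _ => h0⟩

theorem win_P (hc : Con3 V τ) (h : MFan V τ a v k) (hm : m ≤ k) :
    Win (mP m) V τ (V \ fanQ v k) (fw a v k) :=
  vw_win hc h.1 hm (by simp [mP]) (.inl (vw_k0 hc h (by simp [mP]))) (.inr ⟨rfl, vw_o1 hc h⟩)
    (.inl (vw_k2 hc h (by simp [mP]))) (by simp [mP])

theorem win_B (hc : Con3 V τ) (h : MFan V τ a v k) (hm : m ≤ k)
    (ht : 2 ≤ (nb V τ (v 0) \ (fanQ v k ∪ {a, v (k + 1)})).card) :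
    Win (mB m) V τ (V \ fanQ v k) (fw a v k) := by
  obtain ⟨p, p1, p2⟩ := exists_mem_ne (s := nb V τ (v (k + 1)) \ insert a (fanQ v k))
    (by have := (vw_end hc h).2; omega) (v 0)
  simp only [mem_sdiff, mem_insert, not_or] at p1
  exact vw_win hc h.1 hm (by simp [mB]) (.inl (vw_kp ht fun z hz => by
      simp only [mem_sdiff, mem_union, mem_insert, mem_singleton, not_or] at hz
      exact ⟨hz.1, hz.2.1, fun j => absurd j.symm (mem_nb.1 hz.1).2.1,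
        fun j => absurd j.symm hz.2.2.1, fun j => absurd j.symm hz.2.2.2⟩))
    (.inr ⟨rfl, vw_o1 hc h⟩)
    (.inr ⟨rfl, vw_ex (i := 2) p1.1 p1.2.2 p2 p1.2.1 (mem_nb.1 p1.1).2.1⟩) (by simp [mB])

theorem win_C (hc : Con3 V τ) (h : MFan V τ a v k) (hm : m ≤ k)
    (ht : 2 ≤ (nb V τ (v (k + 1)) \ (fanQ v k ∪ {a, v 0})).card) :
    Win (mC m) V τ (V \ fanQ v k) (fw a v k) := by
  obtain ⟨p, p1, p2⟩ := exists_mem_ne (s := nb V τ (v 0) \ insert a (fanQ v k))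
    (by have := (vw_end hc h).1; omega) (v (k + 1))
  simp only [mem_sdiff, mem_insert, not_or] at p1
  exact vw_win hc h.1 hm (by simp [mC])
    (.inr ⟨rfl, vw_ex (i := 0) p1.1 p1.2.2 (mem_nb.1 p1.1).2.1 p1.2.1 p2⟩)
    (.inr ⟨rfl, vw_o1 hc h⟩) (.inl (vw_kp ht fun z hz => by
      simp only [mem_sdiff, mem_union, mem_insert, mem_singleton, not_or] at hz
      exact ⟨hz.1, hz.2.1, fun j => absurd j.symm hz.2.2.2, fun j => absurd j.symm hz.2.2.1,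
        fun j => absurd j.symm (mem_nb.1 hz.1).2.1⟩)) (by simp [mC])

theorem hub_two (h : Fan V τ a v 2) (h1 : τ s(v 0, a) = 0) (h2 : τ s(a, v 3) = 0) :
    2 ≤ (nb V τ a \ (fanQ v 2 ∪ {v 0, v 3})).card := by
  have hs : nb V τ a ⊆ nb V τ a \ (fanQ v 2 ∪ {v 0, v 3}) ∪ fanQ v 2 := fun z hz => by
    by_cases e : z ∈ fanQ v 2
    · exact mem_union_right _ e
    · refine mem_union_left _ (mem_sdiff.2 ⟨hz, ?_⟩)
      simp only [mem_union, mem_insert, mem_singleton, not_or]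
      refine ⟨e, ?_, ?_⟩ <;> rintro rfl
      · exact (mem_nb.1 hz).2.2 (Sym2.eq_swap ▸ h1)
      · exact (mem_nb.1 hz).2.2 h2
  have h3 := (card_le_card hs).trans (card_union_le _ _)
  have h4 : (fanQ v 2).card ≤ 2 := card_image_le.trans (by simp)
  have h5 := h.hub
  unfold dg at h5
  omega

end Pool.Agent.Lib.MP_efe3d7_co.J.Tw
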