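import Pool.Agent.Lib.MP_efe3d7_co.J.Roots
import Pool.Agent.Lib.MP_efe3d7_co.G.D

/-! Windows at a free edge: definitions. -/

set_option autoImplicit false

open Finset

namespace Pool.Agent.Lib.MP_efe3d7_co.J

open H

/-- The number of neighbours of `i` in a column. -/
def frD (w ct i : ℕ) : ℕ := cnt w fun j => !Nat.beq i j && nz (ty ct i j)

/-- The column replaces the two inner vertices by one or two vertices. -/
def frOk (p : Pre) (g : Col) : Bool :=
  !g.mg && Nat.ble 1 g.ni && Nat.ble g.ni 2 && Nat.beq p.n (p.s + 2) &&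
  Nat.ble 3 (frD (p.s + g.ni) g.ct p.s) &&
  (Nat.beq g.ni 1 || (Nat.ble 3 (frD (p.s + 2) g.ct (p.s + 1)) &&
    Nat.ble 3 (cnt p.s fun j => nz (ty g.ct p.s j) || nz (ty g.ct (p.s + 1) j)))) &&
  allB p.s fun i => (allB i fun j => !tb (fld p.ha i) j || nz (ty g.ct i j)) &&
    (tb (fld p.ha p.s) i || tb (fld p.ha (p.s + 1)) i) &&
    (tb p.d4 i || (tb (fld p.ha p.s) i && tb (fld p.ha (p.s + 1)) i) ||
      anyB (p.s + g.ni) fun j => !Nat.beq i j && nz (ty g.ct i j) &&
        (Nat.ble p.s j || (tb (fld p.kn i) j && !tb (fld p.ha i) j)))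

/-- All columns are of this kind. -/
def frAll (k : K) (cols : List Col) : Bool :=
  strOk k (k.n - 2) && mkPre mB k (k.n - 2) fun p => cols.all fun g => typOk p g && frOk p g

/-- Case trees for windows. -/
inductive FT where
  | con : ℕ → ℕ → FT
  | hv : ℕ → ℕ → FT
  | dA : ℕ → ℕ → ℕ → FT
  | dB : ℕ → ℕ → FT
  | ref : ℕ → ℕ → FT
  | loc : ℕ → FT → FT → FT
  | door : ℕ → FT → FT → FT
  | deg : ℕ → FT → FT → FT
  | adj : ℕ → ℕ → FT → FT → FT
  | typ : ℕ → ℕ → FT → FT → FT

/-- A hard edge from the core to a vertex of large degree. -/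
def hvOk (k : K) (i j : ℕ) : Bool :=
  Nat.blt i k.n && Nat.blt j k.n && !Nat.beq i j && tb k.dn i && Nat.beq (k.P i j) 2 &&
    Nat.ble 4 (k.el mB j)

/-- A cubic vertex with a heavy and a hard edge into the region. -/
def dAOk (k : K) (i a b : ℕ) : Bool :=
  Nat.blt i k.n && Nat.blt a k.n && Nat.blt b k.n && !Nat.beq i a && !Nat.beq i b &&
    tb k.lq i && Nat.beq (dig k.ex i) 3 && Nat.beq (k.P i a) 3 && Nat.beq (k.P i b) 2 &&
    k.np mB a && k.np mB b

/-- A cubic vertex with a heavy edge that lies in no triangle. -/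
def dBOk (k : K) (i a : ℕ) : Bool :=
  Nat.blt i k.n && Nat.blt a k.n && !Nat.beq i a && tb k.lq i && Nat.beq (dig k.ex i) 3 &&
    Nat.beq (k.P i a) 3 && tb k.dn a && k.cl a &&
    allB k.n fun l => Nat.beq l i || !k.aj a l || Nat.beq (k.eP i l) 1

/-- The window `k'` occurs in `k`, the last two vertices being kept or swapped. -/
def rfOk (k k' : K) (σ : ℕ) : Bool :=
  subOk mB k k' σ &&
    ((Nat.beq (hx σ (k'.n - 2)) (k.n - 2) && Nat.beq (hx σ (k'.n - 1)) (k.n - 1)) ||
      (Nat.beq (hx σ (k'.n - 2)) (k.n - 1) && Nat.beq (hx σ (k'.n - 1)) (k.n - 2)))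

/-- The tree reduces the configuration to the windows in `L`. -/
def chkF (L : List K) : FT → K → Bool
  | .con r i, k => conOk mB k r i
  | .hv i j, k => hvOk k i j
  | .dA i a b, k => dAOk k i a b
  | .dB i a, k => dBOk k i a
  | .ref j σ, k => Nat.blt j L.length && rfOk k (L.getD j k0) σ
  | .loc i a b, k => Nat.blt i k.n &&
    (K.frc { k with lq := Nat.lor k.lq (bt i) } fun k => chkF L a k) &&
    K.frc { k with lt := Nat.lor k.lt (bt i) } fun k => chkF L b k
  | .door i a b, k => Nat.blt i k.n && tb k.lq i &&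
    (K.frc { k with dy := Nat.lor k.dy (bt i) } fun k => chkF L a k) &&
    K.frc { k with dn := Nat.lor k.dn (bt i) } fun k => chkF L b k
  | .deg i a b, k => Nat.blt i k.n && Nat.ble (k.el mB i) 6 &&
    (K.frc { k with ex := sdg k.ex i (k.el mB i) } fun k => chkF L a k) &&
    K.frc { k with lo := sdg k.lo i (Nat.succ (k.el mB i)) } fun k => chkF L b k
  | .adj i j a b, k => Nat.blt i k.n && Nat.blt j k.n && !Nat.beq i j && Nat.ble k.n 16 &&
    (K.frc (k.sP i j 1) fun k => chkF L a k) && K.frc (k.sP i j 4) fun k => chkF L b k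
  | .typ i j a b, k => Nat.blt i k.n && Nat.blt j k.n && k.aj i j && Nat.ble k.n 16 &&
    (K.frc (k.sP i j 2) fun k => chkF L a k) && K.frc (k.sP i j 3) fun k => chkF L b k

variable {α : Type} [DecidableEq α]

/-- A heavy edge from a cubic vertex into the region lies in a triangle with a second heavy edge. -/
def Dn (V : Finset α) (τ : Sym2 α → Fin 3) (Q : Finset α) : Prop :=
  ∀ p ∈ Q, dg V τ p = 3 → ∀ a ∈ nb V τ p, a ∈ Q → τ s(p, a) = 2 → ∀ b ∈ nb V τ p, b ∈ Q → b ≠ a →
    τ s(p, b) = 2 ∧ b ∈ nb V τ a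

/-- The standing assumptions. -/
structure WH (V : Finset α) (τ : Sym2 α → Fin 3) (Q T : Finset α) : Prop where
  big : Big V τ Q T
  hv : Hv V τ Q (core V τ Q T)
  dn : Dn V τ Q

variable [Fintype α]

/-- The window is reducible as soon as the columns are in the class. -/
def WOk (α : Type) [Fintype α] [DecidableEq α] (x : ℝ) (k : K) : Prop :=
  ∃ cols : List Col, frAll k cols = true ∧
    ∀ (V : Finset α) (τ : Sym2 α → Fin 3) (E : Env α) (v : ℕ → α), Ok2 mB V τ E → Sat k V τ E v →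
      (∀ g ∈ cols, ∀ U σ, ColG (preOf mB k (k.n - 2)) g.ni g.ct V τ v U σ →
        Con3 (cV g v U) (cT g v σ)) → Red x V τ

/-- The configuration is reducible if its last two vertices form a free edge. -/
def ValF (α : Type) [Fintype α] [DecidableEq α] (x : ℝ) (k : K) : Prop :=
  ∀ (V : Finset α) (τ : Sym2 α → Fin 3) (Q T : Finset α) (v : ℕ → α), WH V τ Q T →
    Sat k V τ (envR V τ Q T) v → Free V τ (core V τ Q T) (v (k.n - 2)) (v (k.n - 1)) → Red x V τ

end Pool.Agent.Lib.MP_efe3d7_co.J
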