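import Pool.Agent.Lib.MP_efe3d7_co.J.W0
import Pool.Agent.Lib.MP_efe3d7_co.G.S4

/-! Changes at a free edge keep the graph in the class. -/

set_option autoImplicit false

open Finset

namespace Pool.Agent.Lib.MP_efe3d7_co.J

open H

variable {α : Type} [DecidableEq α] {V : Finset α} {τ : Sym2 α → Fin 3}
variable {Q T : Finset α} {u v : α}

/-- A cubic door does not see both ends of a free edge. -/
theorem w1_both (h : Big V τ Q T) (f : Free V τ (core V τ Q T) u v) {d : α} (hd : d ∈ Q)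
    (hd0 : d ∉ core V τ Q T) (k : dg V τ d = 3) : ¬ (u ∈ nb V τ d ∧ v ∈ nb V τ d) := by
  have hk := h.min.1
  obtain ⟨hu, hv, huv, -⟩ := id f
  have hdV := hk.subQ hd
  have hne : v ≠ u := (mem_nb.1 huv).2.1
  unfold dg at k
  rintro ⟨k1, k2⟩
  obtain ⟨U, hU, -⟩ := h.cr
  refine hU.not_spoil f ⟨d, nb_symm hdV k1, hd0, ?_⟩
  obtain ⟨t, ht, e⟩ := s3a_door hd hd0
  have htd : t ∈ nb V τ d := nb_symm (hk.subT ht) (fr1a_door e).2.1
  have a1 : nb V τ d ∩ core V τ Q T ⊆ (nb V τ d).erase t := fun z hz =>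
    mem_erase.2 ⟨fun q => disjoint_left.1 hk.dis (mem_core.1 (mem_inter.1 hz).2).1 (q ▸ ht),
      (mem_inter.1 hz).1⟩
  have a2 := card_le_card a1
  rw [card_erase_of_mem htd] at a2
  refine (eq_of_subset_of_card_le (fun z hz => ?_) ?_).symm
  · rcases mem_insert.1 hz with q | q
    · exact q ▸ mem_inter.2 ⟨k1, hu⟩
    · exact mem_singleton.1 q ▸ mem_inter.2 ⟨k2, hv⟩
  · rw [card_pair hne.symm]
    omega

/-- A door has two neighbours off the free edge. -/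
theorem w1_two (h : Big V τ Q T) (f : Free V τ (core V τ Q T) u v) {d : α} (hd : d ∈ Q)
    (hd0 : d ∉ core V τ Q T) : 2 ≤ (((nb V τ d).erase u).erase v).card := by
  have c2 := pred_card_le_card_erase (s := (nb V τ d).erase u) (a := v)
  have c3 := pred_card_le_card_erase (s := nb V τ d) (a := u)
  rcases h.deg d hd with k | ⟨k, -⟩
  · unfold dg at k
    omega
  have n := w1_both h f hd hd0 k
  unfold dg at k
  by_cases k1 : u ∈ nb V τ d
  · have k2 : v ∉ (nb V τ d).erase u := fun q => n ⟨k1, mem_of_mem_erase q⟩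
    rw [erase_eq_of_notMem k2]
    omega
  · rw [erase_eq_of_notMem k1] at c2 ⊢
    omega

/-- A door has a neighbour in the core off the free edge. -/
theorem w1_door (h : Big V τ Q T) (f : Free V τ (core V τ Q T) u v) {d : α} (hd : d ∈ Q)
    (hd0 : d ∉ core V τ Q T) : ∃ b ∈ nb V τ d, b ∈ core V τ Q T ∧ b ≠ u ∧ b ≠ v := by
  have hk := h.min.1
  obtain ⟨t, ht, e⟩ := s3a_door hd hd0
  have c := w1_two h f hd hd0
  obtain ⟨b, hb, hbt⟩ := exists_mem_ne (s := ((nb V τ d).erase u).erase v) (by omega) t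
  simp only [mem_erase] at hb
  refine ⟨b, hb.2.2, ?_, hb.2.1, hb.1⟩
  rcases hk.cov d hd b hb.2.2 with q | q
  · by_contra r
    exact h.doors hd hd0 q r hb.2.2
  · exact absurd (h.min.door_one h.con h.three ht e q hb.2.2) hbt

theorem win_safe (h : Big V τ Q T) (f : Free V τ (core V τ Q T) u v)
    {V' : Finset α} {τ' : Sym2 α → Fin 3} (m1 : V' ⊆ V)
    (m2 : ∀ z ∈ V, z ≠ u → z ≠ v → z ∈ V') (m3 : u ∈ V')
    (keep : ∀ a ∈ V, ∀ b ∈ nb V τ a, a ≠ u → a ≠ v → b ≠ u → b ≠ v → b ∈ nb V' τ' a)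
    (new : ∀ a ∈ V', ∀ b ∈ nb V' τ' a, b ∈ nb V τ a ∨
      ((a ∈ nb V τ u ∨ a ∈ nb V τ v) ∧ (b ∈ nb V τ u ∨ b ∈ nb V τ v)))
    (l1 : 3 ≤ dg V' τ' u)
    (l2 : v ∈ V' → 3 ≤ dg V' τ' v ∧ 3 ≤ (((nb V' τ' u ∪ nb V' τ' v).erase u).erase v).card)
    (kp : ∀ d ∈ Q, dg V τ d = 3 → d ∈ nb V τ u ∨ d ∈ nb V τ v →
      ¬ (d ∈ nb V τ u ∧ d ∈ nb V τ v) → ∃ z ∈ nb V' τ' d, z = u ∨ z = v ∨ τ s(d, z) = 0) :
    Con3 V' τ' := by
  have hk := h.min.1
  obtain ⟨hu, hv, huv, hf⟩ := id f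
  have huQ := (mem_core.1 hu).1
  have hvQ := (mem_core.1 hv).1
  have huV := hk.subQ huQ
  have hvV := hk.subQ hvQ
  have hdis : ∀ t ∈ T, t ∉ Q := fun t ht k => disjoint_left.1 hk.dis k ht
  refine hk.safe h.con ⟨m1, ?_, ?_, ?_, ?_, ?_, ?_⟩
  · intro a ha ha'
    by_contra k
    exact ha' (m2 a ha (fun q => k (q ▸ huQ)) fun q => k (q ▸ hvQ))
  · intro a ha b hb hab ha' hb' e
    exact (mem_nb.1 (keep a ha b (mem_nb.2 ⟨hb, hab.symm, e⟩) (fun q => ha' (q ▸ huQ))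
      (fun q => ha' (q ▸ hvQ)) (fun q => hb' (q ▸ huQ)) fun q => hb' (q ▸ hvQ))).2.2
  · intro a ha haQ b hb
    have key : b ∈ Q ∨ b ∈ T := by
      rcases new a ha b hb with k | ⟨-, k | k⟩
      · exact hk.cov a haQ b k
      · exact hk.cov u huQ b k
      · exact hk.cov v hvQ b k
    exact key.imp_right Or.inl
  · intro w hw
    exact absurd hw (by simp [envR])
  · exact Or.inl ⟨u, m3, huQ⟩
  intro B S hB hBne hA hcov
  have hBQ : B ⊆ Q := hA.1
  by_contra hS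
  have pend : ∀ d ∈ B, d ∉ core V τ Q T → ∃ t ∈ S, t ∈ T ∧ nb V τ t ∩ Q = {d} := by
    intro d h1 h2
    obtain ⟨t, ht, e⟩ := s3a_door (hBQ h1) h2
    have htd : t ∈ nb V τ d := nb_symm (hk.subT ht) (fr1a_door e).2.1
    have a1 : t ∈ nb V' τ' d := keep d (hk.subQ (hBQ h1)) t htd (fun k => h2 (k ▸ hu))
      (fun k => h2 (k ▸ hv)) (fun k => hdis t ht (k ▸ huQ)) fun k => hdis t ht (k ▸ hvQ)
    exact ⟨t, (hcov d h1 t a1).resolve_left fun k => hdis t ht (hBQ k), ht, e⟩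
  obtain ⟨X, x0, x1, x2⟩ := s4_cover hk B S pend
  by_cases hB' : (((B ∩ core V τ Q T).erase u).erase v).Nonempty
  · refine hf _ ⟨hu, hv, huv, hB', fun a ha => ?_, (card_le_card fun z hz => ?_).trans
      (x0.trans (by omega))⟩
    · simp only [mem_erase, mem_inter] at ha ⊢
      exact ⟨ha.1, ha.2.1, ha.2.2.2⟩
    · simp only [mem_erase, mem_bd, mem_inter] at hz
      obtain ⟨z1, z2, ⟨a, ⟨a0, a1, a2, a3⟩, z3⟩, z4⟩ := hz
      rcases hcov a a2 z (keep a (hk.subQ (hBQ a2)) z z3 a1 a0 z2 z1) with k | k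
      · exact x1 z k fun q => z4 ⟨z1, z2, k, q⟩
      · exact x2 z k a a3 z3
  have nc : ∀ z ∈ B, z ≠ u → z ≠ v → z ∉ core V τ Q T := fun z h1 h2 h3 q =>
    hB' ⟨z, mem_erase.2 ⟨h3, mem_erase.2 ⟨h2, mem_inter.2 ⟨h1, q⟩⟩⟩⟩
  have inX : ∀ c ∈ B, c ∈ core V τ Q T → ∀ z ∈ nb V' τ' c, (z ∈ B → z ≠ u ∧ z ≠ v) → z ∈ X := by
    intro c h1 h2 z hz h3
    rcases hcov c h1 z hz with k | k
    · exact x1 z k (nc z k (h3 k).1 (h3 k).2)
    · rcases new c (hB h1) z hz with q | ⟨-, q | q⟩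
      · exact x2 z k c h2 q
      · exact x2 z k u hu q
      · exact x2 z k v hv q
  by_cases huB : u ∈ B
  · by_cases hvB : v ∈ B
    · have a1 : ((nb V' τ' u ∪ nb V' τ' v).erase u).erase v ⊆ X := fun z hz => by
        simp only [mem_erase, mem_union] at hz
        rcases hz.2.2 with q | q
        · exact inX u huB hu z q fun _ => ⟨hz.2.1, hz.1⟩
        · exact inX v hvB hv z q fun _ => ⟨hz.2.1, hz.1⟩
      have a2 := card_le_card a1
      have a3 := (l2 (hB hvB)).2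
      omega
    · have a1 : nb V' τ' u ⊆ X := fun z hz =>
        inX u huB hu z hz fun k => ⟨(mem_nb.1 hz).2.1, fun q => hvB (q ▸ k)⟩
      have a2 := card_le_card a1
      unfold dg at l1
      omega
  by_cases hvB : v ∈ B
  · have a1 : nb V' τ' v ⊆ X := fun z hz =>
      inX v hvB hv z hz fun k => ⟨fun q => huB (q ▸ k), (mem_nb.1 hz).2.1⟩
    have a2 := card_le_card a1
    have a3 := (l2 (hB hvB)).1
    unfold dg at a3
    omega
  have hBu : ∀ a ∈ B, a ≠ u := fun a ha k => huB (k ▸ ha)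
  have hBv : ∀ a ∈ B, a ≠ v := fun a ha k => hvB (k ▸ ha)
  have nd : ∀ z ∈ B, z ∉ core V τ Q T := fun z hz => nc z hz (hBu z hz) (hBv z hz)
  obtain ⟨d, hd⟩ := hBne
  have hdQ := hBQ hd
  have hdV := hk.subQ hdQ
  by_cases hd' : ∃ d' ∈ B, d' ≠ d
  · obtain ⟨d', h1, h2⟩ := hd'
    obtain ⟨t, t1, t2, t3⟩ := pend d hd (nd d hd)
    obtain ⟨t', s1, s2, s3⟩ := pend d' h1 (nd d' h1)
    obtain ⟨b, b1, b2, b3, b4⟩ := w1_door h f hdQ (nd d hd)
    have b5 : b ∈ S := (hcov d hd b (keep d hdV b b1 (hBu d hd) (hBv d hd) b3 b4)).resolve_left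
      fun k => nd b k b2
    have n1 : t ≠ t' := fun q => h2 (singleton_injective (s3.symm.trans (q ▸ t3)))
    have n2 : t ≠ b := fun q => hdis t t2 (q ▸ (mem_core.1 b2).1)
    have n3 : t' ≠ b := fun q => hdis t' s2 (q ▸ (mem_core.1 b2).1)
    exact hS (two_lt_card_iff.2 ⟨t, t', b, t1, s1, b5, n1, n2, n3⟩)
  have a1 : nb V' τ' d ⊆ S := fun z hz => (hcov d hd z hz).resolve_left fun k =>
    hd' ⟨z, k, (mem_nb.1 hz).2.1⟩
  have a2 := card_le_card a1
  have h1 : ((nb V τ d).erase u).erase v ⊆ nb V' τ' d := fun z hz => by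
    simp only [mem_erase] at hz
    exact keep d hdV z hz.2.2 (hBu d hd) (hBv d hd) hz.2.1 hz.1
  have c1 := card_le_card h1
  have c2 := pred_card_le_card_erase (s := (nb V τ d).erase u) (a := v)
  have c3 := pred_card_le_card_erase (s := nb V τ d) (a := u)
  rcases h.deg d hdQ with k | ⟨k, -⟩
  · unfold dg at k
    omega
  by_cases k1 : d ∈ nb V τ u ∨ d ∈ nb V τ v
  · obtain ⟨z, z1, z2⟩ := kp d hdQ k k1 fun q =>
      w1_both h f hdQ (nd d hd) k ⟨nb_symm huV q.1, nb_symm hvV q.2⟩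
    have z3 : z ∉ ((nb V τ d).erase u).erase v := fun q => by
      simp only [mem_erase] at q
      rcases z2 with r | r | r
      · exact q.2.1 r
      · exact q.1 r
      · exact (mem_nb.1 q.2.2).2.2 r
    have a3 := card_le_card (insert_subset z1 h1)
    rw [card_insert_of_notMem z3] at a3
    have a4 := w1_two h f hdQ (nd d hd)
    omega
  · have k2 : u ∉ nb V τ d := fun q => k1 (Or.inl (nb_symm hdV q))
    have k3 : v ∉ nb V τ d := fun q => k1 (Or.inr (nb_symm hdV q))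
    rw [erase_eq_of_notMem k2, erase_eq_of_notMem k3] at c1
    unfold dg at k
    omega

end Pool.Agent.Lib.MP_efe3d7_co.J
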