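import Pool.Agent.Lib.MP_efe3d7_co.J.W0
import Pool.Agent.Lib.MP_efe3d7_co.J.PRed
import Pool.Agent.Lib.MP_efe3d7_co.H.Fr3

/-! Heavy edges at cubic doors. -/

set_option autoImplicit false

open Finset

namespace Pool.Agent.Lib.MP_efe3d7_co.J

open H

variable {α : Type} [DecidableEq α] {V : Finset α} {τ : Sym2 α → Fin 3} {Q T : Finset α}

/-- The neighbours of a cubic vertex of the region. -/
theorem w2_cubic (h : Big V τ Q T) {p : α} (hp : p ∈ Q) (h3 : dg V τ p = 3) :
    ∃ t ∈ T, nb V τ t ∩ Q = {p} ∧ t ∈ nb V τ p ∧ (nb V τ p ∩ Q).card = 2 ∧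
      ∀ z ∈ nb V τ p, z = t ∨ z ∈ core V τ Q T := by
  have hk := h.min.1
  have hp0 := ((h.deg p hp).resolve_left (by omega)).2
  obtain ⟨t, ht, e⟩ := s3a_door hp hp0
  have htp : t ∈ nb V τ p := nb_symm (hk.subT ht) (fr3_door e).1
  have hz : ∀ z ∈ nb V τ p, z = t ∨ z ∈ core V τ Q T := fun z hz => by
    rcases hk.cov p hp z hz with k | k
    · exact Or.inr (by_contra fun k0 => h.doors hp hp0 k k0 hz)
    · exact Or.inl (h.min.door_one h.con h.three ht e k hz)
  refine ⟨t, ht, e, htp, ?_, hz⟩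
  have h1 : nb V τ p ∩ Q = (nb V τ p).erase t := by
    ext z
    rw [mem_inter, mem_erase]
    exact ⟨fun k => ⟨fun k' => disjoint_left.1 hk.dis k.2 (k' ▸ ht), k.1⟩,
      fun k => ⟨k.2, (mem_core.1 ((hz z k.2).resolve_left k.1)).1⟩⟩
  rw [h1, card_erase_of_mem htp]
  unfold dg at h3
  omega

theorem w2_con (h : Big V τ Q T) {u v : α} (hu : u ∈ core V τ Q T) (hvQ : v ∈ Q)
    (hv0 : v ∉ core V τ Q T) (huv : u ∈ nb V τ v) : Con3 (V.erase v) (mg τ u v) := by
  have hk := h.min.1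
  obtain ⟨huQ, hu0⟩ := mem_core.1 hu
  have huV := hk.subQ huQ
  have hvV := hk.subQ hvQ
  have hne : v ≠ u := (mem_nb.1 huv).2.1.symm
  have hdis : ∀ t ∈ T, t ∉ Q := fun t ht k => disjoint_left.1 hk.dis k ht
  refine hk.safe h.con ⟨erase_subset _ _, ?_, ?_, ?_, ?_, ?_, ?_⟩
  · intro a ha ha'
    have e : a = v := by
      by_contra k
      exact ha' (mem_erase.2 ⟨k, ha⟩)
    exact e ▸ hvQ
  · intro a _ b _ _ ha hb e
    have h1 : a ≠ u := fun k => ha (k ▸ huQ)
    have h2 : b ≠ u := fun k => hb (k ▸ huQ)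
    rwa [mg_of_ne τ v h1 h2]
  · intro a ha haQ b hb
    have key : b ∈ Q ∨ b ∈ T := by
      by_cases e : a = u
      · rw [e, mem_nb_mg_self] at hb
        rcases hb.2.2 with k | k
        · exact hk.cov u huQ b k
        · exact hk.cov v hvQ b k
      · rw [mem_nb_mg e (mem_erase.1 ha).1 huV hvV] at hb
        rcases hb.2 with k | k
        · exact hk.cov a haQ b k
        · exact Or.inl (k.1 ▸ huQ)
    exact key.imp_right Or.inl
  · intro w hw
    exact absurd hw (by simp [envR])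
  · exact Or.inl ⟨u, mem_erase.2 ⟨hne.symm, huV⟩, huQ⟩
  · intro B S hB hBne hA hcov
    have hBQ : B ⊆ Q := hA.1
    have hvB : v ∉ B := fun k => (mem_erase.1 (hB k)).1 rfl
    have hBv : ∀ a ∈ B, a ≠ v := fun a ha k => hvB (k ▸ ha)
    by_cases huB : u ∈ B
    · have hc : Cov V τ (insert v B) S := by
        intro a ha b hb
        by_cases e1 : b = v
        · exact Or.inl (e1 ▸ mem_insert_self _ _)
        by_cases e2 : b = u
        · exact Or.inl (e2 ▸ mem_insert_of_mem huB)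
        refine Or.imp_left mem_insert_of_mem ?_
        by_cases e3 : a = u
        · exact hcov u huB b (mem_nb_mg_self.2 ⟨e2, e1, Or.inl (e3 ▸ hb)⟩)
        rcases mem_insert.1 ha with e4 | e4
        · exact hcov u huB b (mem_nb_mg_self.2 ⟨e2, e1, Or.inr (e4 ▸ hb)⟩)
        · exact hcov a e4 b ((mem_nb_mg e3 (hBv a e4) huV hvV).2 ⟨e1, Or.inl hb⟩)
      have hs' : insert v B ⊆ Q := insert_subset hvQ hBQ
      exact h.con.three' (hs'.trans hk.subQ) (insert_nonempty _ _) hc hk.subT hk.cT.ge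
        fun t ht k => hdis t ht (hs' k)
    · by_contra hS
      have hBu : ∀ a ∈ B, a ≠ u := fun a ha k => huB (k ▸ ha)
      have hc : Cov V τ B (insert v S) := by
        intro a ha b hb
        by_cases e1 : b = v
        · exact Or.inr (e1 ▸ mem_insert_self _ _)
        · exact (hcov a ha b ((mem_nb_mg (hBu a ha) (hBv a ha) huV hvV).2
            ⟨e1, Or.inl hb⟩)).imp_right mem_insert_of_mem
      have c3 : (insert v S).card ≤ 3 := (card_insert_le _ _).trans (by omega)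
      by_cases h2 : 2 ≤ B.card
      · obtain ⟨-, t, ht, -, e⟩ := (h.min.ax h.con hBQ h2 hc.sdiff disjoint_sdiff
          ((card_le_card sdiff_subset).trans c3)).1 u huQ huB
        exact hu0 t ht e
      · have h1 : B.card = 1 := by
          have := hBne.card_pos
          omega
        obtain ⟨c, rfl⟩ := card_eq_one.1 h1
        have hcc := mem_singleton_self c
        have hcQ := hBQ hcc
        have hsub : nb V τ c ⊆ insert v S := fun b hb =>
          (hc c hcc b hb).resolve_left fun k => not_mem_nb c (mem_singleton.1 k ▸ hb)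
        have hle : dg V τ c ≤ 3 := (card_le_card hsub).trans c3
        obtain ⟨d3, hc0⟩ := (h.deg c hcQ).resolve_left (by omega)
        have heq : nb V τ c = insert v S := eq_of_subset_of_card_le hsub (c3.trans d3.ge)
        have hvc : v ∈ nb V τ c := heq ▸ mem_insert_self _ _
        exact h.doors hcQ hc0 hvQ hv0 hvc

theorem door_con (h : Big V τ Q T) {p a : α} (hp : p ∈ Q) (h3 : dg V τ p = 3)
    (ha : a ∈ nb V τ p) (haQ : a ∈ Q) : Con3 (V.erase p) (mg τ a p) := by
  have hp0 := ((h.deg p hp).resolve_left (by omega)).2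
  exact w2_con h (by_contra fun k0 => h.doors hp hp0 haQ k0 ha) hp hp0 ha

variable [Fintype α] {x : ℝ}

theorem big_ok2 (h : Big V τ Q T) : Ok2 mB V τ (envR V τ Q T) := by
  refine ⟨ok_R h.con h.min mB rfl rfl rfl (fun _ => h.q0) (fun _ v hv k => ?_)
    (fun e => absurd e Bool.false_ne_true), fun e => absurd e Bool.false_ne_true,
    fun e => absurd e Bool.false_ne_true, fun _ => h.q0, fun _ h3 d hd => ?_,
    fun _ h4 d hd d' hd' => ?_⟩
  · have := (h.deg v hv).resolve_right fun e => e.2 (mem_sdiff.2 ⟨hv, k⟩)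
    omega
  · obtain ⟨-, t, ht, e⟩ := fr3_dr.1 hd
    refine card_le_one.2 fun a ha b hb => ?_
    rw [h.min.door_one h.con h3 ht e (mem_inter.1 ha).2 (mem_inter.1 ha).1,
      h.min.door_one h.con h3 ht e (mem_inter.1 hb).2 (mem_inter.1 hb).1]
  · obtain ⟨-, t, ht, e⟩ := fr3_dr.1 hd
    obtain ⟨-, t', ht', e'⟩ := fr3_dr.1 hd'
    exact h.min.door_two h.con h4 ht ht' e e'

theorem red_dn (h : Iv x) (hK : HK α x) (hb : Big V τ Q T) (hd : ¬ Dn V τ Q) : Red x V τ := by
  simp only [Dn, not_forall] at hd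
  obtain ⟨p, hp, h3, a, ha, haQ, hpa, b, hpb, hbQ, hba, hn⟩ := hd
  obtain ⟨t, ht, e, -, c2, hz⟩ := w2_cubic hb hp h3
  obtain ⟨haV, hap, -⟩ := mem_nb.1 ha
  have n2 : ∀ s : Fin 3, s = 2 → s ≠ 0 := by decide
  refine red_mg h hK hb.con haV (hb.min.1.subQ hp) hap (by rw [Sym2.eq_swap]; exact hpa)
    (fun z hzV hza hzp k => ?_) (door_con hb hp h3 ha haQ)
  have z1 : z ∈ nb V τ a := mem_nb.2 ⟨hzV, hza, n2 _ k.1⟩
  have z2 : z ∈ nb V τ p := mem_nb.2 ⟨hzV, hzp, n2 _ k.2⟩
  rcases hz z z2 with rfl | k0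
  · exact hap ((fr1a_door e).2.2 a haQ (nb_symm haV z1))
  · have hs : ({a, b} : Finset α) = nb V τ p ∩ Q := eq_of_subset_of_card_le
      (insert_subset (mem_inter.2 ⟨ha, haQ⟩) (singleton_subset_iff.2 (mem_inter.2 ⟨hpb, hbQ⟩)))
      (by rw [c2, card_pair (Ne.symm hba)])
    have z3 : z ∈ ({a, b} : Finset α) := hs ▸ mem_inter.2 ⟨z2, (mem_core.1 k0).1⟩
    obtain rfl : z = b := mem_singleton.1 ((mem_insert.1 z3).resolve_left hza)
    exact hn ⟨k.2, z1⟩

end Pool.Agent.Lib.MP_efe3d7_co.J
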