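import Pool.Agent.Lib.MP_efe3d7_co.J.W1
import Pool.Agent.Lib.MP_efe3d7_co.J.W2
import Pool.Agent.Lib.MP_efe3d7_co.H.Prs
import Pool.Agent.Lib.MP_efe3d7_co.H.Col1

/-! The columns of a window stay in the class. -/

set_option autoImplicit false

open Finset

namespace Pool.Agent.Lib.MP_efe3d7_co.J

open H

variable {α : Type} [Fintype α] [DecidableEq α] {V : Finset α} {τ : Sym2 α → Fin 3}
variable {Q T : Finset α} {x : ℝ} {p : Pre} {k : K} {v : ℕ → α}

omit [Fintype α] in
theorem w3_mem (hO : Ok mB V τ (envR V τ Q T)) (hP : PS mB p V τ (envR V τ Q T) v) {ni ct : ℕ}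
    (hT : TyB p ni ct) {U : Finset α} {σ : Sym2 α → Fin 3} (hG : ColG p ni ct V τ v U σ) {j : ℕ}
    (hj : j < p.s + ni) : v j ∈ U := by
  have h1 := hT.1
  refine (hG.mem _).2 ⟨hO.memV (hP.mem j (by omega)), fun i hi e => ?_⟩
  rw [hP.inj i hi j (by omega) e]
  exact hj

omit [Fintype α] in
theorem w3_edge (hO : Ok mB V τ (envR V τ Q T)) (hP : PS mB p V τ (envR V τ Q T) v) {ni ct : ℕ}
    (hT : TyB p ni ct) {U : Finset α} {σ : Sym2 α → Fin 3} (hG : ColG p ni ct V τ v U σ)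
    {i j : ℕ} (hi : i < p.s + ni) (hj : j < p.s + ni) (hij : i ≠ j) (h0 : ty ct i j ≠ 0) :
    v j ∈ nb U σ (v i) := by
  have h1 := hT.1
  refine mem_nb.2 ⟨w3_mem hO hP hT hG hj,
    fun e => hij (hP.inj j (by omega) i (by omega) e).symm, fun e => ?_⟩
  have h2 := hG.inn i hi j hj hij
  have h3 := (hT.2 i hi j hj hij).2
  rw [e] at h2
  split_ifs at h2 with k1 k2
  · exact h0 h2.symm
  · exact absurd h2 (by decide)
  · rcases h3 with h3 | h3
    · exact k1 h3
    · omega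

omit [Fintype α] in
theorem w3_ha (hO : Ok mB V τ (envR V τ Q T)) (hP : PS mB p V τ (envR V τ Q T) v) {i j : ℕ}
    (hi : i < p.n) (h : tb (fld p.ha i) j = true) : v j ∈ nb V τ (v i) := by
  obtain ⟨h1, h2, h3⟩ := hP.ha i hi j h
  exact mem_nb.2 ⟨hO.memV (hP.mem j h1), fun e => h2 (hP.inj j h1 i hi e).symm, h3⟩

omit [Fintype α] in
theorem w3_card (hP : PS mB p V τ (envR V τ Q T) v) {w : ℕ} (hw : w ≤ p.n) {F : ℕ → Bool}
    {S : Finset α} (h : ∀ j < w, F j = true → v j ∈ S) : cnt w F ≤ S.card := by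
  rw [cnt_eq]
  refine card_le_card_of_injOn v (fun j hj => ?_) fun i hi j hj e => ?_
  · simp only [coe_filter, mem_range, Set.mem_ofPred_eq] at hj
    exact h j hj.1 hj.2
  · simp only [coe_filter, mem_range, Set.mem_ofPred_eq] at hi hj
    exact hP.inj i (by omega) j (by omega) e

omit [Fintype α] in
theorem w3_deg (hO : Ok mB V τ (envR V τ Q T)) (hP : PS mB p V τ (envR V τ Q T) v) {ni ct : ℕ}
    (hT : TyB p ni ct) {U : Finset α} {σ : Sym2 α → Fin 3} (hG : ColG p ni ct V τ v U σ)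
    {i : ℕ} (hi : i < p.s + ni) : frD (p.s + ni) ct i ≤ dg U σ (v i) := by
  refine w3_card hP hT.1 fun j hj e => ?_
  simp only [Bool.and_eq_true, Bool.not_eq_true', nz_iff] at e
  exact w3_edge hO hP hT hG hi hj (Nat.ne_of_beq_eq_false e.1) e.2

theorem fr_safe (h : Big V τ Q T) (hO : Ok mB V τ (envR V τ Q T))
    (hP : PS mB p V τ (envR V τ Q T) v) {g : Col} (ht : typOk p g = true) (hf : frOk p g = true)
    (f : Free V τ (core V τ Q T) (v p.s) (v (p.s + 1))) {U : Finset α} {σ : Sym2 α → Fin 3}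
    (hG : ColG p g.ni g.ct V τ v U σ) : Con3 (cV g v U) (cT g v σ) := by
  have hT := typ_tyB hP ht
  simp only [frOk, Bool.and_eq_true, Bool.or_eq_true, Bool.not_eq_true', allB_iff, anyB_iff,
    Nat.ble_eq, Nat.beq_eq, nz_iff] at hf
  obtain ⟨⟨⟨⟨⟨⟨hm, n1⟩, n2⟩, hn⟩, d1⟩, d2⟩, ha⟩ := hf
  have e1 : cV g v U = U := by simp [cV, hm]
  have e2 : cT g v σ = σ := by simp [cT, hm]
  rw [e1, e2]
  have uV : v p.s ∈ V := hO.memV (hP.mem _ (by omega))
  have lt : ∀ i < p.n, v i ≠ v p.s → v i ≠ v (p.s + 1) → i < p.s := fun i hi a b => by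
    by_contra c
    rcases (by omega : i = p.s ∨ i = p.s + 1) with rfl | rfl
    · exact a rfl
    · exact b rfl
  have m2 : ∀ z ∈ V, z ≠ v p.s → z ≠ v (p.s + 1) → z ∈ U := fun z hz a b =>
    (hG.mem z).2 ⟨hz, fun i hi e => by
      have := lt i hi (e ▸ a) (e ▸ b)
      omega⟩
  have adj : ∀ i < p.n, v i ∈ nb V τ (v p.s) ∨ v i ∈ nb V τ (v (p.s + 1)) := fun i hi => by
    rcases (by omega : i < p.s ∨ i = p.s ∨ i = p.s + 1) with c | rfl | rfl
    · exact (ha i c).1.2.imp (w3_ha hO hP (by omega)) (w3_ha hO hP (by omega))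
    · exact Or.inr (nb_symm uV f.2.2.1)
    · exact Or.inl f.2.2.1
  have out : ∀ a b, (∀ i < p.n, v i ≠ a) ∨ (∀ i < p.n, v i ≠ b) → σ s(a, b) = τ s(a, b) := by
    rintro a b (c | c)
    · exact hG.out a b c
    · rw [Sym2.eq_swap, hG.out b a c, Sym2.eq_swap]
  refine win_safe h f (fun z hz => ((hG.mem z).1 hz).1) m2 (w3_mem hO hP hT hG (by omega))
    (fun a haV b hb a1 a2 b1 b2 => ?_) (fun a haU b hb => ?_)
    (d1.trans (w3_deg hO hP hT hG (by omega))) (fun hv => ?_) fun d hd h3 c1 c2 => ?_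
  · obtain ⟨k1, k2, k3⟩ := mem_nb.1 hb
    refine mem_nb.2 ⟨m2 b k1 b1 b2, k2, ?_⟩
    by_cases c : (∀ i < p.n, v i ≠ a) ∨ (∀ i < p.n, v i ≠ b)
    · rw [out a b c]
      exact k3
    · push Not at c
      obtain ⟨⟨i, hi, rfl⟩, j, hj, rfl⟩ := c
      have li := lt i hi a1 a2
      have lj := lt j hj b1 b2
      have ij : i ≠ j := fun e => k2 (e ▸ rfl)
      intro e
      have h2 := hG.inn i (by omega) j (by omega) ij
      rw [e] at h2
      split_ifs at h2 with q1 q2
      · have q3 : tb (fld p.ha i) j = true := by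
          by_contra q
          exact k3 (hP.kn i hi j hj ij q1 (by simpa using q))
        rcases lt_or_gt_of_ne ij with l | l
        · rcases (ha j lj).1.1 i l with r | r
          · rw [hP.has j hj i hi, q3] at r
            exact Bool.noConfusion r
          · exact r (by rw [ty_comm]; exact h2.symm)
        · rcases (ha i li).1.1 j l with r | r
          · rw [q3] at r
            exact Bool.noConfusion r
          · exact r h2.symm
      · exact absurd h2 (by decide)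
      · exact k3 (Fin.ext h2.symm)
  · by_cases c : (∀ i < p.n, v i ≠ a) ∨ (∀ i < p.n, v i ≠ b)
    · obtain ⟨k1, k2, k3⟩ := mem_nb.1 hb
      rw [out a b c] at k3
      exact Or.inl (mem_nb.2 ⟨((hG.mem b).1 k1).1, k2, k3⟩)
    · push Not at c
      obtain ⟨⟨i, hi, rfl⟩, j, hj, rfl⟩ := c
      exact Or.inr ⟨adj i hi, adj j hj⟩
  · have l := ((hG.mem _).1 hv).2 (p.s + 1) (by omega) rfl
    have n3 : g.ni = 2 := by omega
    obtain ⟨d3, d4⟩ := d2.resolve_left (by omega)
    refine ⟨d3.trans ?_, d4.trans (w3_card hP hP.sn fun j hj e => ?_)⟩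
    · have := w3_deg hO hP hT hG l
      rwa [n3] at this
    · simp only [Bool.or_eq_true, nz_iff] at e
      refine mem_erase.2 ⟨fun q => ?_, mem_erase.2 ⟨fun q => ?_, mem_union.2 (e.imp
        (w3_edge hO hP hT hG (by omega) (by omega) (by omega))
        (w3_edge hO hP hT hG (by omega) (by omega) (by omega)))⟩⟩
      · have := hP.inj _ (by omega) _ (by omega) q
        omega
      · have := hP.inj _ (by omega) _ (by omega) q
        omega
  · have win : ∀ i < p.n, p.s ≤ i → d ∈ nb V τ (v i) → ∃ j < p.n, v j = d := fun i hi l e => by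
      obtain ⟨q1, q2, -⟩ := hP.int i hi l
      obtain ⟨j, hj, -, q⟩ := hP.cl i hi q2 d e (Or.inl q1)
      exact ⟨j, hj, q⟩
    obtain ⟨j, hj, rfl⟩ := c1.elim (win _ (by omega) le_rfl) (win _ (by omega) (by omega))
    have nc : v j ∉ core V τ Q T := ((h.deg _ hd).resolve_left (by omega)).2
    have lj := lt j hj (fun e => nc (e ▸ f.1)) fun e => nc (e ▸ f.2.1)
    rcases (ha j lj).2 with (r | r) | ⟨l, hl, ⟨r1, r2⟩, r3⟩
    · have := hP.d4 j hj r
      rw [ds_Q (E := envR V τ Q T) hd] at this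
      omega
    · exact absurd ⟨w3_ha hO hP (by omega) r.1, w3_ha hO hP (by omega) r.2⟩ c2
    · have jl : j ≠ l := Nat.ne_of_beq_eq_false r1
      refine ⟨v l, w3_edge hO hP hT hG (by omega) hl jl r2, ?_⟩
      rcases r3 with r3 | r3
      · rcases (by omega : l = p.s ∨ l = p.s + 1) with rfl | rfl
        · exact Or.inl rfl
        · exact Or.inr (Or.inl rfl)
      · exact Or.inr (Or.inr (hP.kn j hj l (by omega) jl r3.1 r3.2))

theorem WOk.valF (h : WOk α x k) : ValF α x k := by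
  obtain ⟨cols, hc, hr⟩ := h
  intro V τ Q T v hW hS f
  simp only [frAll, mkPre_eq, Bool.and_eq_true, List.all_eq_true] at hc
  have hO := big_ok2 hW.big
  refine hr V τ _ v hO hS fun g hg U σ hG => ?_
  obtain ⟨ht, hf⟩ := hc.2 g hg
  have hn : k.n = k.n - 2 + 2 := by
    have := hf
    simp only [frOk, Bool.and_eq_true, Nat.beq_eq, preOf_n, preOf_s] at this
    exact this.1.1.1.2
  refine fr_safe hW.big hO.ok (ps_of hO.ok hS hc.1) ht hf ?_ hG
  rw [preOf_s, (by omega : k.n - 2 + 1 = k.n - 1)]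
  exact f

end Pool.Agent.Lib.MP_efe3d7_co.J
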