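import Pool.Agent.Lib.MP_efe3d7_co.J.W2
import Pool.Agent.Lib.MP_efe3d7_co.G.S3
import Pool.Agent.Lib.MP_efe3d7_co.H.Snd

/-! Soundness of the case trees for windows. -/

set_option autoImplicit false

open Finset

namespace Pool.Agent.Lib.MP_efe3d7_co.J

open H

variable {α : Type} [Fintype α] [DecidableEq α] {V : Finset α} {τ : Sym2 α → Fin 3}
variable {Q T : Finset α} {x : ℝ} {k : K} {v : ℕ → α}

theorem w4_nb (hO : Ok mB V τ (envR V τ Q T)) (hS : Sat k V τ (envR V τ Q T) v) {i j : ℕ}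
    (hi : i < k.n) (hj : j < k.n) (hij : i ≠ j) (h : 2 ≤ k.P i j) : v j ∈ nb V τ (v i) :=
  aj_sound hO hS hi hj ((k.aj_iff i j).2 ⟨hij, h⟩)

theorem hv_sound (h : WH V τ Q T) (hS : Sat k V τ (envR V τ Q T) v) {i j : ℕ}
    (c : hvOk k i j = true) : False := by
  simp only [hvOk, Bool.and_eq_true, Bool.not_eq_true', Nat.blt_eq, Nat.ble_eq, Nat.beq_eq] at c
  obtain ⟨⟨⟨⟨⟨hi, hj⟩, hij⟩, hd⟩, hP⟩, h4⟩ := c
  have hO := (big_ok2 h.big).ok
  have h1 := h.hv (v i) (mem_sdiff.2 (hS.dn i hi hd)) (v j)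
    (w4_nb hO hS hi hj (nbeq hij) hP.ge) fun hq h3 => by
      have := el_sound hO hS hj
      rw [ds_Q hq] at this
      omega
  rw [(hS.pr i hi j hj (nbeq hij)).2.1 hP] at h1
  exact absurd h1 (by decide)

theorem dA_sound (h : WH V τ Q T) (hS : Sat k V τ (envR V τ Q T) v) {i a b : ℕ}
    (c : dAOk k i a b = true) : False := by
  simp only [dAOk, Bool.and_eq_true, Bool.not_eq_true', Nat.blt_eq, Nat.beq_eq] at c
  obtain ⟨⟨⟨⟨⟨⟨⟨⟨⟨⟨hi, ha⟩, hb⟩, hia⟩, hib⟩, hq⟩, he⟩, pa⟩, pb⟩, na⟩, nb'⟩ := c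
  have hO := (big_ok2 h.big).ok
  have hQ : v i ∈ Q := hS.lq i hi hq
  have h3 : dg V τ (v i) = 3 := by rw [← ds_Q (E := envR V τ Q T) hQ, hS.ex i hi (by omega), he]
  obtain ⟨t, ht, h1, -, -, h5⟩ := w2_cubic h.big hQ h3
  have key : ∀ j < k.n, i ≠ j → 2 ≤ k.P i j → k.np mB j = true → v j ∈ Q := by
    intro j hj hij hP hn
    rcases h5 _ (w4_nb hO hS hi hj hij hP) with e | e
    · refine (np_sound hO hS hj hn).resolve_right fun h6 => ?_
      have h7 := h6.2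
      rw [e, fr3_dsT h.big.min.1 ht, h1, card_singleton] at h7
      omega
    · exact (mem_sdiff.1 e).1
  have h6 := (h.dn _ hQ h3 _ (w4_nb hO hS hi ha (nbeq hia) (by omega))
    (key a ha (nbeq hia) (by omega) na) ((hS.pr i hi a ha (nbeq hia)).2.2.1 pa) _
    (w4_nb hO hS hi hb (nbeq hib) pb.ge) (key b hb (nbeq hib) pb.ge nb') fun e => by
      rw [hS.inj b hb a ha e] at pb
      omega).1
  rw [(hS.pr i hi b hb (nbeq hib)).2.1 pb] at h6
  exact absurd h6 (by decide)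

theorem dB_sound (h : WH V τ Q T) (hS : Sat k V τ (envR V τ Q T) v) {i a : ℕ}
    (c : dBOk k i a = true) : False := by
  simp only [dBOk, Bool.and_eq_true, Bool.not_eq_true', Nat.blt_eq, Nat.beq_eq, allB_iff,
    Bool.or_eq_true] at c
  obtain ⟨⟨⟨⟨⟨⟨⟨⟨hi, ha⟩, hia⟩, hq⟩, he⟩, pa⟩, hd⟩, hc⟩, hl⟩ := c
  have hO := (big_ok2 h.big).ok
  have hQ : v i ∈ Q := hS.lq i hi hq
  have hA : v a ∈ Q := (hS.dn a ha hd).1
  have h3 : dg V τ (v i) = 3 := by rw [← ds_Q (E := envR V τ Q T) hQ, hS.ex i hi (by omega), he]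
  obtain ⟨t, -, -, -, h4, -⟩ := w2_cubic h.big hQ h3
  obtain ⟨b, hb, hba⟩ := exists_mem_ne (s := nb V τ (v i) ∩ Q) (by omega) (v a)
  obtain ⟨hb1, hb2⟩ := mem_inter.1 hb
  have h6 := (h.dn _ hQ h3 _ (w4_nb hO hS hi ha (nbeq hia) (by omega)) hA
    ((hS.pr i hi a ha (nbeq hia)).2.2.1 pa) b hb1 hb2 hba).2
  obtain ⟨l, hl1, hl2, rfl⟩ := cl_sound hO hS ha hc h6 (Or.inl hA)
  have hil : i ≠ l := fun e => (mem_nb.1 hb1).2.1 (e ▸ rfl)
  rcases hl l hl1 with (e | e) | e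
  · exact hil e.symm
  · rw [hl2] at e
    exact absurd e (by decide)
  · exact (mem_nb.1 hb1).2.2 (eP_one hO hS hi hl1 hil e)

theorem rf_sound {k' : K} {σ : ℕ} (c : rfOk k k' σ = true) (h : ValF α x k') : ValF α x k := by
  intro V τ Q T v hW hS f
  simp only [rfOk, Bool.and_eq_true, Bool.or_eq_true, Nat.beq_eq] at c
  have hO := (big_ok2 hW.big).ok
  refine h V τ Q T _ hW (sub_sound hO hS c.1) ?_
  rcases c.2 with ⟨e1, e2⟩ | ⟨e1, e2⟩
  · rw [e1, e2]; exact f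
  · rw [e1, e2]; exact f.sym (sdiff_subset.trans hO.subQ)

theorem chkF_sound {L : List K} (hL : ∀ k ∈ L, ValF α x k) (t : FT) :
    ∀ k, chkF L t k = true → ValF α x k := by
  induction t with
  | con r i => exact fun k c V τ Q T v hW hS _ => (con_sound (big_ok2 hW.big) hS c).elim
  | hv i j => exact fun k c V τ Q T v hW hS _ => (hv_sound hW hS c).elim
  | dA i a b => exact fun k c V τ Q T v hW hS _ => (dA_sound hW hS c).elim
  | dB i a => exact fun k c V τ Q T v hW hS _ => (dB_sound hW hS c).elim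
  | ref j σ =>
    intro k c
    simp only [chkF, Bool.and_eq_true, Nat.blt_eq] at c
    refine rf_sound c.2 (hL _ ?_)
    rw [List.getD_eq_getElem _ _ c.1]
    exact List.getElem_mem _
  | loc i a b ia ib =>
    intro k c V τ Q T v hW h f
    simp only [chkF, Bool.and_eq_true, K.frc_eq, Nat.blt_eq] at c
    rcases h.mem i c.1.1 with h1 | h1
    · exact ia _ c.1.2 V τ Q T v hW { h with
        lq := fun j hj => tre1_bit (R := (v · ∈ (envR V τ Q T).Q)) h1 (h.lq j hj) } f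
    · exact ib _ c.2 V τ Q T v hW { h with
        lt := fun j hj => tre1_bit (R := (v · ∈ (envR V τ Q T).T)) h1 (h.lt j hj) } f
  | door i a b ia ib =>
    intro k c V τ Q T v hW h f
    simp only [chkF, Bool.and_eq_true, K.frc_eq, Nat.blt_eq] at c
    by_cases h1 : v i ∈ (envR V τ Q T).Dr
    · exact ia _ c.1.2 V τ Q T v hW { h with
        dy := fun j hj => tre1_bit (R := (v · ∈ (envR V τ Q T).Dr)) h1 (h.dy j hj) } f
    · exact ib _ c.2 V τ Q T v hW { h with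
        dn := fun j hj => tre1_bit
          (R := fun l => v l ∈ (envR V τ Q T).Q ∧ v l ∉ (envR V τ Q T).Dr)
          ⟨h.lq i c.1.1.1 c.1.1.2, h1⟩ (h.dn j hj) } f
  | deg i a b ia ib =>
    intro k c V τ Q T v hW h f
    simp only [chkF, Bool.and_eq_true, K.frc_eq, Nat.blt_eq, Nat.ble_eq] at c
    have h6 := c.1.1.2
    rcases (el_sound (big_ok2 hW.big).ok h c.1.1.1).eq_or_lt with h1 | h1
    · refine ia _ c.1.2 V τ Q T v hW { h with ex := fun j hj => ?_ } f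
      change dig (sdg _ _ _) j ≠ 0 → _ = dig (sdg _ _ _) j
      rw [dig_sdg _ _ _ (by omega)]
      split_ifs with h2
      · exact fun _ => h2 ▸ h1.symm
      · exact h.ex j hj
    · refine ib _ c.2 V τ Q T v hW { h with lo := fun j hj => ?_ } f
      change dig (sdg _ _ _) j ≤ _
      rw [dig_sdg _ _ _ (by omega)]
      split_ifs with h2
      · exact h2 ▸ h1
      · exact h.lo j hj
  | adj i j a b ia ib =>
    intro k c V τ Q T v hW h f
    simp only [chkF, Bool.and_eq_true, K.frc_eq, Nat.blt_eq, Nat.ble_eq] at c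
    obtain ⟨⟨⟨⟨⟨hi, hj⟩, -⟩, hn⟩, ha⟩, hb⟩ := c
    by_cases h1 : τ s(v i, v j) = 0
    · exact ia _ ha V τ Q T v hW (tre1_sP h hi hj hn (by omega) (by simp [h1])) f
    · exact ib _ hb V τ Q T v hW (tre1_sP h hi hj hn (by omega) (by simp [h1])) f
  | typ i j a b ia ib =>
    intro k c V τ Q T v hW h f
    simp only [chkF, Bool.and_eq_true, K.frc_eq, Nat.blt_eq, Nat.ble_eq] at c
    obtain ⟨⟨⟨⟨⟨hi, hj⟩, hij⟩, hn⟩, ha⟩, hb⟩ := c
    obtain ⟨h2, h3⟩ := (K.aj_iff k i j).1 hij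
    have h4 := (h.pr i hi j hj h2).2.2.2 h3
    by_cases h1 : τ s(v i, v j) = 1
    · exact ia _ ha V τ Q T v hW (tre1_sP h hi hj hn (by omega) (by simp [h1])) f
    · exact ib _ hb V τ Q T v hW (tre1_sP h hi hj hn (by omega)
        ⟨by omega, by omega, fun _ => by omega, fun _ => h4⟩) f

end Pool.Agent.Lib.MP_efe3d7_co.J
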