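import Pool.Agent.Lib.MP_efe3d7_co.J.W3
import Pool.Agent.Lib.MP_efe3d7_co.J.W4
import Pool.Agent.Lib.MP_efe3d7_co.J.W6
import Pool.Agent.Lib.MP_efe3d7_co.G.S5

/-! Free edges between vertices of small degree. -/

set_option autoImplicit false

open Finset

namespace Pool.Agent.Lib.MP_efe3d7_co.J

open H

variable {α : Type} [Fintype α] [DecidableEq α] {V : Finset α} {τ : Sym2 α → Fin 3}
variable {Q T : Finset α} {x : ℝ} {u v : α}

omit [Fintype α] [DecidableEq α] in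
theorem w7_ext {n : ℕ} {P : ℕ → α → Prop} (A : Finset α)
    (hA : ∀ i < n + A.card, ∀ z ∈ A, P i z ↔ n ≤ i)
    (h : ∃ w : ℕ → α, (∀ i < n, ∀ j < n, w i = w j → i = j) ∧ ∀ i < n, P i (w i)) :
    ∃ w : ℕ → α, (∀ i < n + A.card, ∀ j < n + A.card, w i = w j → i = j) ∧
      ∀ i < n + A.card, P i (w i) := by
  obtain ⟨w, hi, hP⟩ := h
  obtain ⟨e, ei, em⟩ : ∃ e : ℕ → α, (∀ i < A.card, ∀ j < A.card, e i = e j → i = j) ∧
      ∀ i < A.card, e i ∈ A := by
    refine ⟨fun i => if h : i < A.card then (A.equivFin.symm ⟨i, h⟩ : α) else w 0,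
      fun i a j b c => ?_, fun i a => ?_⟩
    · simp only [a, b, dif_pos] at c
      simpa using A.equivFin.symm.injective (Subtype.ext c)
    · simp only [a, dif_pos]
      exact (A.equivFin.symm ⟨i, a⟩).2
  have k : ∀ i < n, ∀ j < n + A.card, ¬ j < n → w i ≠ e (j - n) := fun i a j b c d => by
    have := (hA i (by omega) _ (em (j - n) (by omega))).1 (d ▸ hP i a)
    omega
  refine ⟨fun i => if i < n then w i else e (i - n), fun i a j b c => ?_, fun i a => ?_⟩
  · by_cases p : i < n <;> by_cases q : j < n <;> simp only [p, q, if_true, if_false] at c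
    · exact hi i p j q c
    · exact absurd c (k i p j b q)
    · exact absurd c.symm (k j q i a p)
    · have := ei _ (by omega) _ (by omega) c
      omega
  · by_cases p : i < n <;> simp only [p, if_true, if_false]
    · exact hP i p
    · exact (hA i a _ (em (i - n) (by omega))).2 (by omega)

omit [Fintype α] in
theorem w7_enum {a b c : ℕ} (hu : u ∈ V) (uv : v ∈ nb V τ u) (du : dg V τ u = a + b + 1)
    (dv : dg V τ v = a + c + 1) (hc : (nb V τ u ∩ nb V τ v).card = a) :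
    ∃ w : ℕ → α, (∀ i < a + b + c + 1 + 1, ∀ j < a + b + c + 1 + 1, w i = w j → i = j) ∧
      ∀ i < a + b + c + 1 + 1, (w i = u ↔ i = a + b + c) ∧ (w i = v ↔ i = a + b + c + 1) ∧
        (w i ∈ nb V τ u ↔ i < a + b ∨ i = a + b + c + 1) ∧
        (w i ∈ nb V τ v ↔ i < a ∨ (a + b ≤ i ∧ i ≤ a + b + c)) := by
  have vu := nb_symm hu uv
  have n1 : u ∉ nb V τ u := not_mem_nb u
  have n2 : v ∉ nb V τ v := not_mem_nb v
  have ne : v ≠ u := (mem_nb.1 uv).2.1
  have cd : ∀ {y z : α} {m : ℕ}, z ∈ nb V τ y → dg V τ y = a + m + 1 →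
      (nb V τ y ∩ nb V τ z).card = a → ((nb V τ y \ nb V τ z).erase z).card = m := by
    intro y z m h1 h2 h3
    have := card_sdiff_add_card_inter (nb V τ y) (nb V τ z)
    rw [card_erase_of_mem (mem_sdiff.2 ⟨h1, not_mem_nb z⟩)]
    unfold dg at h2
    omega
  have cb := cd uv du hc
  have cc := cd vu dv (inter_comm (nb V τ u) _ ▸ hc)
  let P : ℕ → α → Prop := fun i z => (z = u ↔ i = a + b + c) ∧ (z = v ↔ i = a + b + c + 1) ∧
    (z ∈ nb V τ u ↔ i < a + b ∨ i = a + b + c + 1) ∧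
    (z ∈ nb V τ v ↔ i < a ∨ (a + b ≤ i ∧ i ≤ a + b + c))
  have s1 := w7_ext (n := 0) (P := P) (nb V τ u ∩ nb V τ v) (fun i hi z hz => by
    obtain ⟨p, q⟩ := mem_inter.1 hz
    simp only [P, (mem_nb.1 p).2.1, (mem_nb.1 q).2.1, p, q, true_iff, false_iff]
    omega) ⟨fun _ => u, by simp, by simp⟩
  rw [hc, zero_add] at s1
  have s2 := w7_ext (P := P) ((nb V τ u \ nb V τ v).erase v) (fun i hi z hz => by
    obtain ⟨r, p, q⟩ : z ≠ v ∧ z ∈ nb V τ u ∧ z ∉ nb V τ v := by simpa using hz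
    simp only [P, (mem_nb.1 p).2.1, r, p, q, true_iff, false_iff]
    omega) s1
  rw [cb] at s2
  have s3 := w7_ext (P := P) ((nb V τ v \ nb V τ u).erase u) (fun i hi z hz => by
    obtain ⟨r, p, q⟩ : z ≠ u ∧ z ∈ nb V τ v ∧ z ∉ nb V τ u := by simpa using hz
    simp only [P, (mem_nb.1 p).2.1, r, p, q, true_iff, false_iff]
    omega) s2
  rw [cc] at s3
  have s4 := w7_ext (P := P) {u} (fun i hi z hz => by
    rw [mem_singleton.1 hz]
    rw [card_singleton] at hi
    simp only [P, ne.symm, n1, vu, true_iff, false_iff]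
    omega) s3
  exact w7_ext (P := P) {v} (fun i hi z hz => by
    rw [mem_singleton.1 hz]
    simp only [card_singleton] at hi
    simp only [P, ne, n2, uv, true_iff, false_iff]
    omega) s4

/-- The pair is unknown or an edge at one of the last two vertices. -/
def Wp (k : K) (a b c i j : ℕ) : Prop :=
  k.P i j = 0 ∨ (k.P i j = 3 ∧ a + b + c ≤ i ∧ (j < a ∨ j = a + b + c)) ∨
    (k.P i j = 4 ∧ ((i = a + b + c ∧ j < a + b) ∨ (i = a + b + c + 1 ∧ a + b ≤ j)))

instance (k : K) (a b c i j : ℕ) : Decidable (Wp k a b c i j) := by unfold Wp; infer_instance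

/-- The configuration only speaks of the last two vertices and the edges at them. -/
def Wn (k : K) (a b c : ℕ) : Prop :=
  k.n = a + b + c + 1 + 1 ∧ k.al = false ∧ ∀ i < k.n, (tb k.lq i = true → a + b + c ≤ i) ∧
    tb k.lt i = false ∧ tb k.dy i = false ∧ (tb k.dn i = true → a + b + c ≤ i) ∧
    dig k.lo i = 0 ∧ (dig k.ex i = 0 ∨ (i = a + b + c ∧ dig k.ex i = a + b + 1) ∨
      (i = a + b + c + 1 ∧ dig k.ex i = a + c + 1)) ∧
    (∀ j < k.n, k.F i j = false) ∧ ∀ j < i, Wp k a b c i j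

instance (k : K) (a b c : ℕ) : Decidable (Wn k a b c) := by unfold Wn; infer_instance

omit [Fintype α] in
theorem w7_sat {k : K} {a b c : ℕ} (hk : Wn k a b c) (h : WH V τ Q T)
    (f : Free V τ (core V τ Q T) u v) (du : dg V τ u = a + b + 1) (dv : dg V τ v = a + c + 1)
    (hc : (nb V τ u ∩ nb V τ v).card = a) :
    ∃ w : ℕ → α, Sat k V τ (envR V τ Q T) w ∧ w (a + b + c) = u ∧ w (a + b + c + 1) = v := by
  obtain ⟨hn, hal, hk⟩ := hk
  have t := h.big.min.1
  obtain ⟨uQ, uD⟩ := mem_sdiff.1 f.1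
  obtain ⟨vQ, vD⟩ := mem_sdiff.1 f.2.1
  obtain ⟨w, inj, hw⟩ := w7_enum (t.subQ uQ) f.2.2.1 du dv hc
  rw [← hn] at inj hw
  have eu : w (a + b + c) = u := (hw _ (by omega)).1.2 rfl
  have ev : w (a + b + c + 1) = v := (hw _ (by omega)).2.1.2 rfl
  have top : ∀ i < k.n, a + b + c ≤ i → w i ∈ Q ∧ w i ∉ (envR V τ Q T).Dr := fun i hi e => by
    rcases (by omega : i = a + b + c ∨ i = a + b + c + 1) with rfl | rfl
    · exact eu ▸ ⟨uQ, uD⟩
    · exact ev ▸ ⟨vQ, vD⟩
  have pr : ∀ i < k.n, ∀ j < i, (k.P i j = 1 → τ s(w i, w j) = 0) ∧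
      (k.P i j = 2 → τ s(w i, w j) = 1) ∧ (k.P i j = 3 → τ s(w i, w j) = 2) ∧
      (2 ≤ k.P i j → τ s(w i, w j) ≠ 0) := fun i hi j hj => by
    obtain ⟨-, -, ju, jv⟩ := hw j (by omega)
    rcases (hk i hi).2.2.2.2.2.2.2 j hj with e | ⟨e, p, q⟩ | ⟨e, p⟩
    · rw [e]; simp
    · have : τ s(w i, w j) = 2 := by
        rcases q with q | rfl
        · obtain ⟨-, -, -, y, z⟩ :=
            s5_mem.1 (s5g_common h.big h.hv f (ju.2 (by omega)) (jv.2 (by omega)))
          rcases (by omega : i = a + b + c ∨ i = a + b + c + 1) with rfl | rfl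
          · exact eu ▸ y
          · exact ev ▸ z
        · rw [show i = a + b + c + 1 by omega, eu, ev, Sym2.eq_swap]
          refine h.hv u f.1 v f.2.2.1 fun _ => ?_
          have := (h.big.deg v vQ).resolve_right fun y => y.2 f.2.1
          omega
      rw [e, this]; simp
    · have : τ s(w i, w j) ≠ 0 := by
        rcases p with ⟨rfl, p⟩ | ⟨rfl, p⟩
        · exact eu ▸ (mem_nb.1 (ju.2 (by omega))).2.2
        · exact ev ▸ (mem_nb.1 (jv.2 (by omega))).2.2
      rw [e]; simp [this]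
  refine ⟨w, ⟨inj, fun i hi => ?_, fun i hi e => (top i hi ((hk i hi).1 e)).1,
    fun i hi e => absurd ((hk i hi).2.1 ▸ e) (by decide),
    fun i hi e => absurd ((hk i hi).2.2.1 ▸ e) (by decide),
    fun i hi e => top i hi ((hk i hi).2.2.2.1 e),
    fun i hi => (hk i hi).2.2.2.2.1 ▸ Nat.zero_le _, fun i hi e => ?_, fun i hi j hj ij => ?_,
    fun i hi j hj _ e => absurd ((hk i hi).2.2.2.2.2.2.1 j hj ▸ e) (by decide),
    fun e => absurd (hal ▸ e) (by decide)⟩, eu, ev⟩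
  · obtain ⟨-, -, iu, iv⟩ := hw i hi
    by_cases p : w i ∈ nb V τ u
    · exact t.cov u uQ _ p
    · exact t.cov v vQ _ (iv.2 (by rw [iu] at p; omega))
  · rcases ((hk i hi).2.2.2.2.2.1.resolve_left e) with ⟨rfl, p⟩ | ⟨rfl, p⟩
    · rw [p, eu, ds_Q (E := envR V τ Q T) uQ, du]
    · rw [p, ev, ds_Q (E := envR V τ Q T) vQ, dv]
  · rcases lt_or_gt_of_ne ij with p | p
    · rw [k.P_comm, Sym2.eq_swap]
      exact pr j hj i p
    · exact pr i hi j p

omit [Fintype α] in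
theorem root0 (h : WH V τ Q T) (f : Free V τ (core V τ Q T) u v) (du : dg V τ u = 5)
    (dv : dg V τ v = 5) (c : (nb V τ u ∩ nb V τ v).card = 4) :
    ∃ w : ℕ → α, Sat wR0 V τ (envR V τ Q T) w ∧ w 4 = u ∧ w 5 = v :=
  w7_sat (a := 4) (b := 0) (c := 0) (by decide +kernel) h f du dv c

omit [Fintype α] in
theorem root1 (h : WH V τ Q T) (f : Free V τ (core V τ Q T) u v) (du : dg V τ u = 5)
    (dv : dg V τ v = 6) (c : (nb V τ u ∩ nb V τ v).card = 4) :
    ∃ w : ℕ → α, Sat wR1 V τ (envR V τ Q T) w ∧ w 5 = u ∧ w 6 = v :=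
  w7_sat (a := 4) (b := 0) (c := 1) (by decide +kernel) h f du dv c

omit [Fintype α] in
theorem root2 (h : WH V τ Q T) (f : Free V τ (core V τ Q T) u v) (du : dg V τ u = 5)
    (dv : dg V τ v = 5) (c : (nb V τ u ∩ nb V τ v).card = 3) :
    ∃ w : ℕ → α, Sat wR2 V τ (envR V τ Q T) w ∧ w 5 = u ∧ w 6 = v :=
  w7_sat (a := 3) (b := 1) (c := 1) (by decide +kernel) h f du dv c

theorem win_of (h : Iv x) (hK : HK α x) (hw : ∀ k ∈ wL, WOk α x k) (hb : Big V τ Q T)
    (hv : Hv V τ Q (core V τ Q T)) (u v : α) (f : Free V τ (core V τ Q T) u v)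
    (du : dg V τ u = 5)
    (c : (dg V τ v = 5 ∧ 3 ≤ (nb V τ u ∩ nb V τ v).card) ∨
      (dg V τ v = 6 ∧ (nb V τ u ∩ nb V τ v).card = 4)) : Red x V τ := by
  by_cases hd : Dn V τ Q
  swap
  · exact red_dn h hK hb hd
  have g : WH V τ Q T := ⟨hb, hv, hd⟩
  have hL : ∀ k ∈ wL, ValF α x k := fun k hk => (hw k hk).valF
  have c4 : (nb V τ u ∩ nb V τ v).card ≤ 4 := by
    have a : nb V τ u ∩ nb V τ v ⊆ (nb V τ u).erase v := fun z hz =>
      mem_erase.2 ⟨(mem_nb.1 (mem_inter.1 hz).2).2.1, (mem_inter.1 hz).1⟩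
    have b := card_le_card a
    rw [card_erase_of_mem f.2.2.1] at b
    unfold dg at du
    omega
  rcases c with ⟨dv, c⟩ | ⟨dv, c⟩
  · rcases c.eq_or_lt with c | c
    · obtain ⟨w, s, rfl, rfl⟩ := root2 g f du dv c.symm
      exact chkF_sound hL _ _ wT2_ok V τ Q T w g s f
    · obtain ⟨w, s, rfl, rfl⟩ := root0 g f du dv (by omega)
      exact chkF_sound hL _ _ wT0_ok V τ Q T w g s f
  · obtain ⟨w, s, rfl, rfl⟩ := root1 g f du dv c
    exact chkF_sound hL _ _ wT1_ok V τ Q T w g s f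

end Pool.Agent.Lib.MP_efe3d7_co.J
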