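import Pool.Agent.Lib.MP_efe3d7_co.J.W6
import Pool.Agent.Lib.MP_efe3d7_co.J.CrtD

/-! The test of the columns of a certificate for a window at a free edge. -/

set_option autoImplicit false

namespace Pool.Agent.Lib.MP_efe3d7_co.J

open H

/-- The terminals are all vertices but the last two, and the columns replace these two. -/
def certW (k : K) (c : Cert) : Bool := Nat.beq c.s (k.n - 2) && frAll k c.cols

end Pool.Agent.Lib.MP_efe3d7_co.J
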