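import Pool.Agent.Lib.MP_efe3d7_co.J.WD
import Pool.Agent.Lib.MP_efe3d7_co.J.Crt

/-! A window with a certificate is reducible. -/

set_option autoImplicit false

namespace Pool.Agent.Lib.MP_efe3d7_co.J

open H

variable {α : Type} [Fintype α] [DecidableEq α] {x : ℝ}

theorem wOk_of (hI : Iv x) (hK : HK α x) {k : K} {c : Cert} (h1 : certS mB k c = true)
    (h3 : certI k c = true) (h4 : certX mB k c = true) (h5 : certW k c = true) : WOk α x k := by
  simp only [certW, Bool.and_eq_true, Nat.beq_eq] at h5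
  refine ⟨c.cols, h5.2, fun V τ E v hO hS hc => cert_win hI hK hO.ok hS h1 h3 h4 ?_ ?_⟩
  · have a := h5.2
    simp only [frAll, mkPre_eq, Bool.and_eq_true, List.all_eq_true] at a
    rw [h5.1]
    exact fun g hg => (a.2 g hg).1
  · rw [h5.1]
    exact hc

end Pool.Agent.Lib.MP_efe3d7_co.J
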