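import Pool.Agent.Lib.MP_efe3d7_co.J.WC0
import Pool.Agent.Lib.MP_efe3d7_co.J.WC1
import Pool.Agent.Lib.MP_efe3d7_co.J.WC2
import Pool.Agent.Lib.MP_efe3d7_co.J.WC3
import Pool.Agent.Lib.MP_efe3d7_co.J.WC4
import Pool.Agent.Lib.MP_efe3d7_co.J.WE
import Pool.Agent.Lib.MP_efe3d7_co.J.W7
import Pool.Agent.Lib.MP_efe3d7_co.J.All

/-! The windows at a free edge are reducible. -/

set_option autoImplicit false

namespace Pool.Agent.Lib.MP_efe3d7_co.J

open H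

variable {α : Type} [Fintype α] [DecidableEq α] {x : ℝ}

theorem wOk (hI : Iv x) (hK : HK α x) : ∀ k ∈ wL, WOk α x k := by
  intro k hk
  obtain ⟨j, hj, rfl⟩ := List.getElem_of_mem hk
  rw [← List.getD_eq_getElem wL k0 hj]
  have l : wL.length = 23 := rfl
  rw [l] at hj
  interval_cases j
  · exact wOk_of hI hK wc0_S wc0_I wc0_X wc0_F
  · exact wOk_of hI hK wc1_S wc1_I wc1_X wc1_F
  · exact wOk_of hI hK wc2_S wc2_I wc2_X wc2_F
  · exact wOk_of hI hK wc3_S wc3_I wc3_X wc3_F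
  · exact wOk_of hI hK wc4_S wc4_I wc4_X wc4_F
  · exact wOk_of hI hK wc5_S wc5_I wc5_X wc5_F
  · exact wOk_of hI hK wc6_S wc6_I wc6_X wc6_F
  · exact wOk_of hI hK wc7_S wc7_I wc7_X wc7_F
  · exact wOk_of hI hK wc8_S wc8_I wc8_X wc8_F
  · exact wOk_of hI hK wc9_S wc9_I wc9_X wc9_F
  · exact wOk_of hI hK wc10_S wc10_I wc10_X wc10_F
  · exact wOk_of hI hK wc11_S wc11_I wc11_X wc11_F
  · exact wOk_of hI hK wc12_S wc12_I wc12_X wc12_F
  · exact wOk_of hI hK wc13_S wc13_I wc13_X wc13_F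
  · exact wOk_of hI hK wc14_S wc14_I wc14_X wc14_F
  · exact wOk_of hI hK wc15_S wc15_I wc15_X wc15_F
  · exact wOk_of hI hK wc16_S wc16_I wc16_X wc16_F
  · exact wOk_of hI hK wc17_S wc17_I wc17_X wc17_F
  · exact wOk_of hI hK wc18_S wc18_I wc18_X wc18_F
  · exact wOk_of hI hK wc19_S wc19_I wc19_X wc19_F
  · exact wOk_of hI hK wc20_S wc20_I wc20_X wc20_F
  · exact wOk_of hI hK wc21_S wc21_I wc21_X wc21_F
  · exact wOk_of hI hK wc22_S wc22_I wc22_X wc22_F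

theorem win_all (h : Iv x) (hK : HK α x) : Wins α x := fun _ _ _ _ hb hv u v f du c =>
  win_of h hK (wOk h hK) hb hv u v f du c

end Pool.Agent.Lib.MP_efe3d7_co.J
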