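import Pool.Agent.Lib.MP_efe3d7_co.J.XM

/-! Every labelling of an exceptional graph is in the list. -/

set_option autoImplicit false

open Finset

namespace Pool.Agent.Lib.MP_efe3d7_co.J

open H

variable {α : Type} [Fintype α] [DecidableEq α]
variable {p : Pre} {h : ℕ} {g : Col} {V U : Finset α} {τ σ : Sym2 α → Fin 3} {v w : ℕ → α}
variable {fb : Bool} {n c M T o k : ℕ}

theorem xa_sw (l i : ℕ) : sw l i = if i = l then l + 1 else if i = l + 1 then l else i := by
  unfold sw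
  by_cases h1 : i = l
  · rw [if_pos h1, Nat.beq_eq.mpr h1]; rfl
  · have e1 : Nat.beq i l = false := by
      rw [← Bool.not_eq_true, Nat.beq_eq]; exact h1
    rw [if_neg h1, e1]
    by_cases h2 : i = l + 1
    · have e2 : Nat.beq i (Nat.succ l) = true := Nat.beq_eq.mpr h2
      rw [if_pos h2, e2]; rfl
    · have e2 : Nat.beq i (Nat.succ l) = false := by
        rw [← Bool.not_eq_true, Nat.beq_eq]; exact h2
      rw [if_neg h2, e2]; rfl

theorem xa_sw_sw (l i : ℕ) : sw l (sw l i) = i := by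
  rw [xa_sw l i]
  split_ifs <;> rw [xa_sw] <;> split_ifs <;> omega

theorem xa_sw_lt {l i : ℕ} (hl : l + 1 < n) (hi : i < n) : sw l i < n := by
  rw [xa_sw]
  split_ifs <;> omega

/-- The table number `k` describes the labelling. -/
def XaD (n T : ℕ) (τ : Sym2 α → Fin 3) (Y : ℕ → α) (k : ℕ) : Prop :=
  ∀ i < n, ∀ l < n, i ≠ l → (τ s(Y i, Y l)).val = ty (xtab T k) i l

omit [Fintype α] [DecidableEq α] in
theorem xa_step (hL : Lb n c M T) {Y : ℕ → α} (h1 : 64 ≤ k) (h2 : k < c) (hD : XaD n T τ Y k)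
    {l : ℕ} (hl : l + 1 < n) : ∃ k', 64 ≤ k' ∧ k' < c ∧ XaD n T τ (fun i => Y (sw l i)) k' ∧
      (k' < k ∨ tb (gm M c l l 0) k = true) := by
  obtain ⟨k', a1, a2, a3, a4⟩ := hL.sw k h1 h2 l hl
  refine ⟨k', a1, a2, fun i hi j hj hij => ?_, a4⟩
  rw [a3 i hi j hj hij]
  refine hD _ (xa_sw_lt hl hi) _ (xa_sw_lt hl hj) fun e => hij ?_
  rw [← xa_sw_sw l i, e, xa_sw_sw]

omit [Fintype α] [DecidableEq α] in
theorem xa_perm {m : ℕ} (hL : Lb (m + 1) c M T) (π : Equiv.Perm (Fin (m + 1))) :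
    ∀ Y Y' : ℕ → α, (∀ i : Fin (m + 1), Y' i.val = Y (π i).val) →
      (∃ k, 64 ≤ k ∧ k < c ∧ XaD (m + 1) T τ Y k) →
      ∃ k, 64 ≤ k ∧ k < c ∧ XaD (m + 1) T τ Y' k := by
  have cg : ∀ (Y Y' : ℕ → α) (k : ℕ), (∀ i < m + 1, Y' i = Y i) → XaD (m + 1) T τ Y k →
      XaD (m + 1) T τ Y' k := by
    intro Y Y' k e hD i hi l hl hil
    rw [e i hi, e l hl]
    exact hD i hi l hl hil
  have hm : π ∈ Submonoid.closure
      (Set.range fun i : Fin m => Equiv.swap i.castSucc i.succ) := by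
    rw [Equiv.Perm.mclosure_swap_castSucc_succ]
    exact Submonoid.mem_top π
  induction hm using Submonoid.closure_induction with
  | mem x hx =>
    obtain ⟨l, rfl⟩ := hx
    rintro Y Y' e ⟨k, h1, h2, hD⟩
    obtain ⟨k', a1, a2, a3, -⟩ := xa_step hL h1 h2 hD (l := l.val) (by omega)
    refine ⟨k', a1, a2, cg _ _ _ (fun i hi => ?_) a3⟩
    have := e ⟨i, hi⟩
    rw [this]
    show Y _ = Y (sw l.val i)
    refine congrArg Y ?_
    rw [xa_sw, Equiv.swap_apply_def]
    simp only [Fin.ext_iff, Fin.val_castSucc, Fin.val_succ]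
    split_ifs <;> rfl
  | one =>
    rintro Y Y' e ⟨k, h1, h2, hD⟩
    exact ⟨k, h1, h2, cg _ _ _ (fun i hi => e ⟨i, hi⟩) hD⟩
  | mul x y _ _ ihx ihy =>
    intro Y Y' e hP
    refine ihy (fun i => if hi : i < m + 1 then Y (x ⟨i, hi⟩).val else Y i) Y' (fun i => ?_)
      (ihx Y _ (fun i => ?_) hP)
    · rw [e i]
      show _ = dite _ _ _
      rw [dif_pos (y i).isLt]
      rfl
    · show dite _ _ _ = _
      rw [dif_pos i.isLt]

theorem lab_ex (hL : Lb n c M T) {j : ℕ} (hj : j < 10) (hn : xn j = n) (hI : Iso n (xt j) V τ)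
    {Y : ℕ → α} (hY : ∀ i < n, ∀ l < n, Y i = Y l → i = l) (hV : V = (range n).image Y)
    {a : ℕ} (hao : a + o ≤ n) :
    ∃ (Y' : ℕ → α) (k : ℕ), (∀ i < n, ∀ l < n, Y' i = Y' l → i = l) ∧ V = (range n).image Y' ∧
      (∀ i < n, i < a ∨ a + o ≤ i → Y' i = Y i) ∧ 64 ≤ k ∧ k < c ∧
      (∀ i < n, ∀ l < n, i ≠ l → (τ s(Y' i, Y' l)).val = ty (xtab T k) i l) ∧
      ∀ z, z + 1 < o → tb (gm M c (a + z) (a + z) 0) k = true := by
  have P0 : ∃ k, 64 ≤ k ∧ k < c ∧ XaD n T τ Y k := by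
    obtain ⟨u, u1, u2, u3⟩ := hI
    obtain ⟨k, h1, h2, h3⟩ := hL.base j hj hn
    have hn0 : ∃ m, n = m + 1 := by
      refine ⟨n - 1, ?_⟩
      have : 5 ≤ xn j := by
        unfold xn
        cases Nat.ble j 5 <;> cases Nat.ble j 8 <;> simp
      omega
    obtain ⟨m, rfl⟩ := hn0
    have ex : ∀ i : Fin (m + 1), ∃ l : Fin (m + 1), Y i.val = u l.val := by
      intro i
      have : Y i.val ∈ (range (m + 1)).image u := by
        rw [← u2, hV]
        exact mem_image_of_mem _ (mem_range.mpr i.isLt)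
      obtain ⟨l, hl, e⟩ := mem_image.mp this
      exact ⟨⟨l, mem_range.mp hl⟩, e.symm⟩
    choose f hf using ex
    have inj : Function.Injective f := fun a b e =>
      Fin.ext (hY _ a.isLt _ b.isLt (by rw [hf a, hf b, e]))
    refine xa_perm hL (Equiv.ofBijective f (Finite.injective_iff_bijective.mp inj)) u Y hf
      ⟨k, h1, h2, fun i hi l hl hil => ?_⟩
    rw [h3 i hi l hl hil]
    exact u3 i hi l hl hil
  obtain ⟨k0, h1, h2, hD⟩ := P0
  have key : ∀ (k : ℕ) (Y' : ℕ → α), (∀ i < n, ∀ l < n, Y' i = Y' l → i = l) →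
      V = (range n).image Y' → (∀ i < n, i < a ∨ a + o ≤ i → Y' i = Y i) → 64 ≤ k → k < c →
      XaD n T τ Y' k → ∃ (Y' : ℕ → α) (k : ℕ), (∀ i < n, ∀ l < n, Y' i = Y' l → i = l) ∧
      V = (range n).image Y' ∧ (∀ i < n, i < a ∨ a + o ≤ i → Y' i = Y i) ∧ 64 ≤ k ∧ k < c ∧
      (∀ i < n, ∀ l < n, i ≠ l → (τ s(Y' i, Y' l)).val = ty (xtab T k) i l) ∧
      ∀ z, z + 1 < o → tb (gm M c (a + z) (a + z) 0) k = true := by
    intro k
    induction k using Nat.strong_induction_on with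
    | _ k ih =>
      intro Y' b1 b2 b3 b4 b5 b6
      by_cases hk : ∀ z, z + 1 < o → tb (gm M c (a + z) (a + z) 0) k = true
      · exact ⟨Y', k, b1, b2, b3, b4, b5, b6, hk⟩
      · rw [not_forall] at hk
        obtain ⟨z, hz⟩ := hk
        rw [Classical.not_imp] at hz
        have hl : a + z + 1 < n := by omega
        obtain ⟨k', a1, a2, a3, a4⟩ := xa_step hL b4 b5 b6 hl
        refine ih k' (a4.resolve_right hz.2) (fun i => Y' (sw (a + z) i)) ?_ ?_ ?_ a1 a2 a3
        · intro i hi l hl' e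
          have := b1 _ (xa_sw_lt hl hi) _ (xa_sw_lt hl hl') e
          rw [← xa_sw_sw (a + z) i, this, xa_sw_sw]
        · rw [b2]
          ext y
          simp only [mem_image, mem_range]
          constructor
          · rintro ⟨i, hi, rfl⟩
            exact ⟨_, xa_sw_lt hl hi, by rw [xa_sw_sw]⟩
          · rintro ⟨i, hi, rfl⟩
            exact ⟨_, xa_sw_lt hl hi, rfl⟩
        · intro i hi hc
          have : sw (a + z) i = i := by
            rw [xa_sw, if_neg (by omega), if_neg (by omega)]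
          show Y' (sw (a + z) i) = Y i
          rw [this]
          exact b3 i hi hc
  exact key k0 Y hY hV (fun _ _ _ => rfl) h1 h2 hD

end Pool.Agent.Lib.MP_efe3d7_co.J
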