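import Pool.Agent.Lib.MP_efe3d7_co.J.XM

/-! Lemmas on digits and bits. -/

set_option autoImplicit false

open Finset

namespace Pool.Agent.Lib.MP_efe3d7_co.J

open H

theorem xb_dig (m i j : ℕ) : (dig m i).testBit j = (decide (j < 3) && m.testBit (3 * i + j)) := by
  have e : dig m i = m >>> (3 * i) % 2 ^ 3 := rfl
  rw [e, Nat.testBit_mod_two_pow, Nat.testBit_shiftRight]

theorem xb_salt (R x : ℕ) {k : ℕ} (hk : 48 ≤ k) :
    (Nat.xor R (Nat.mod x 200000000000027)).testBit k = R.testBit k := by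
  have h1 : x % 200000000000027 < 2 ^ k :=
    (Nat.mod_lt _ (by norm_num)).trans_le
      (le_trans (by norm_num) (Nat.pow_le_pow_right (by norm_num) hk))
  have e : (Nat.xor R (Nat.mod x 200000000000027)).testBit k =
      (R.testBit k ^^ (x % 200000000000027).testBit k) := Nat.testBit_xor _ _ _
  rw [e, Nat.testBit_lt_two_pow h1, Bool.xor_false]

theorem xb_salt2 (x : ℕ) {k : ℕ} (hk : 48 ≤ k) : (slt x).testBit k = x.testBit k := by
  have h0 : x % 20000000000021 < 20000000000021 := Nat.mod_lt _ (by norm_num)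
  have h1 : x % 20000000000021 * 8 < 2 ^ k :=
    (show _ < 2 ^ 48 by omega).trans_le (Nat.pow_le_pow_right (by norm_num) hk)
  have e : (slt x).testBit k =
      (x.testBit k ^^ (x % 20000000000021 * 8).testBit k) := Nat.testBit_xor _ _ _
  rw [e, Nat.testBit_lt_two_pow h1, Bool.xor_false]

theorem xb_shl {d : ℕ} (hd : d < 8) (e m : ℕ) :
    dig (Nat.shiftLeft d (Nat.mul 3 e)) m = if m = e then d else 0 := by
  have h := dig_sdg 0 e m hd
  have e1 : sdg 0 e d = Nat.shiftLeft d (Nat.mul 3 e) := by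
    show 0 - _ + _ = _
    rw [Nat.zero_sub, Nat.zero_add]
  rw [e1, dig_zero] at h
  exact h

theorem dig_lor (a b m : ℕ) : dig (Nat.lor a b) m = Nat.lor (dig a m) (dig b m) := by
  refine Nat.eq_of_testBit_eq fun j => ?_
  have e1 : ∀ x y k, (Nat.lor x y).testBit k = (x.testBit k || y.testBit k) := Nat.testBit_or
  rw [e1, xb_dig, xb_dig, xb_dig, e1, Bool.and_or_distrib_left]

theorem dig_land (a b m : ℕ) : dig (Nat.land a b) m = Nat.land (dig a m) (dig b m) := by
  refine Nat.eq_of_testBit_eq fun j => ?_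
  have e1 : ∀ x y k, (Nat.land x y).testBit k = (x.testBit k && y.testBit k) := Nat.testBit_and
  rw [e1, xb_dig, xb_dig, xb_dig, e1]
  cases decide (j < 3) <;> simp

theorem ty_slt (x : ℕ) {i l : ℕ} (hil : i ≠ l) : ty (slt x) i l = ty x i l := by
  have h : 16 ≤ px i l := by
    rw [bit2_px]
    split_ifs <;> omega
  refine Nat.eq_of_testBit_eq fun j => ?_
  rw [ty, ty, xb_dig, xb_dig, xb_salt2 _ (by omega)]

theorem xb_row {f : ℕ → ℕ} {l : ℕ} (r m : ℕ) (k : ℕ) (hf : ∀ i < k, f i < 8) :
    dig (Nat.rec r (fun i t =>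
      Nat.lor t (Nat.shiftLeft (f i) (Nat.mul 3 (Nat.add (Nat.mul 16 l) i)))) k) m =
      Nat.lor (dig r m) (if 16 * l ≤ m ∧ m < 16 * l + k then f (m - 16 * l) else 0) := by
  have z : ∀ a : ℕ, Nat.lor a 0 = a := Nat.or_zero
  induction k with
  | zero => rw [if_neg (by omega), z]; rfl
  | succ k ih =>
    have e : Nat.add (Nat.mul 16 l) k = 16 * l + k := rfl
    show dig (Nat.lor _ _) m = _
    rw [dig_lor, ih fun i hi => hf i (by omega), xb_shl (hf k (by omega)), e]
    by_cases h : m = 16 * l + k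
    · rw [if_pos h, if_neg (by omega), if_pos (by omega), z, h, Nat.add_sub_cancel_left]
    · rw [if_neg h, z]
      by_cases h' : 16 * l ≤ m ∧ m < 16 * l + k
      · rw [if_pos h', if_pos (by omega)]
      · rw [if_neg h', if_neg (by omega)]

theorem xb_bld {f : ℕ → ℕ → ℕ} (m n : ℕ) (hn : n ≤ 16) (hf : ∀ l < n, ∀ i < l, f i l < 8) :
    dig (bld n f) m = if m % 16 < m / 16 ∧ m / 16 < n then f (m % 16) (m / 16) else 0 := by
  have z : ∀ a : ℕ, Nat.lor a 0 = a := Nat.or_zero
  have z' : ∀ a : ℕ, Nat.lor 0 a = a := Nat.zero_or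
  induction n with
  | zero => rw [if_neg (by omega)]; exact dig_zero m
  | succ n ih =>
    have h := xb_row (f := fun i => f i n) (l := n) (bld n f) m n (hf n (by omega))
    rw [ih (by omega) fun l hl => hf l (by omega)] at h
    refine Eq.trans h ?_
    by_cases h1 : 16 * n ≤ m ∧ m < 16 * n + n
    · rw [if_pos h1, if_neg (by omega), if_pos (by omega), z', show m / 16 = n by omega,
        show m % 16 = m - 16 * n by omega]
    · rw [if_neg h1, z]
      by_cases h2 : m % 16 < m / 16 ∧ m / 16 < n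
      · rw [if_pos h2, if_pos (by omega)]
      · rw [if_neg h2, if_neg (by omega)]

theorem ty_bld {n : ℕ} (hn : n ≤ 16) {f : ℕ → ℕ → ℕ} (hf : ∀ l < n, ∀ i < l, f i l < 8) {i l : ℕ}
    (hl : l < n) (hi : i < l) : ty (bld n f) i l = f i l := by
  rw [ty, bit2_px, if_pos hi.le, xb_bld _ n hn hf, show (16 * l + i) / 16 = l by omega,
    show (16 * l + i) % 16 = i by omega, if_pos ⟨hi, hl⟩]

theorem tb_salt (R x : ℕ) {k : ℕ} (hk : 64 ≤ k) :
    tb (Nat.xor R (Nat.mod x 200000000000027)) k = tb R k := by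
  rw [tb_eq, tb_eq, xb_salt _ _ (by omega)]

theorem big_of {R k : ℕ} (hk : 64 ≤ k) (h : tb R k = true) : big R = true := by
  rw [tb_eq] at h
  rw [big, Nat.ble_eq]
  exact le_trans (by norm_num) ((Nat.pow_le_pow_right (by norm_num) hk).trans
    (Nat.ge_two_pow_of_testBit h))

theorem fo_bit {n R k : ℕ} {f : ℕ → ℕ → ℕ} (hk : 64 ≤ k) (hR : tb R k = true)
    (hf : ∀ i < n, ∀ r, tb r k = true → tb (f i r) k = true) : tb (fo n f R) k = true := by
  induction n with
  | zero => exact hR
  | succ n ih =>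
    have h := ih fun i hi => hf i (by omega)
    show tb (frc (fo n f R) fun r => bif big r then f n r else 0) k = true
    rw [frc_eq, big_of hk h]
    exact hf n (by omega) _ h

theorem bits_sound {f : ℕ → Bool} {fuel R k : ℕ} (h : bits f fuel R = true) (hk : 64 ≤ k)
    (hR : tb R k = true) : f k = true := by
  induction fuel generalizing R with
  | zero => exact absurd h Bool.false_ne_true
  | succ n ih =>
    have h' : (!big R || frc (low R) fun k => f k && frc (Nat.xor R (Nat.lor (bt k) k)) (bits f n)) =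
      true := h
    have hl : low R ≤ 4095 := Nat.and_le_right
    rw [frc_eq, frc_eq, big_of hk hR] at h'
    generalize low R = j at h' hl
    simp only [Bool.not_true, Bool.false_or, Bool.and_eq_true] at h'
    by_cases e : j = k
    · exact e ▸ h'.1
    · refine ih h'.2 ?_
      have h1 : tb j k = false := by
        rw [tb_eq]
        exact Nat.testBit_lt_two_pow (lt_of_lt_of_le (by omega : j < 2 ^ 64)
          (Nat.pow_le_pow_right (by omega) hk))
      have h2 : tb (Nat.lor (bt j) j) k = false := by rw [tb_lor, tb_bt, h1]; simp [e]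
      rw [tb_eq] at h2 hR ⊢
      show (R ^^^ Nat.lor (bt j) j).testBit k = true
      rw [Nat.testBit_xor, hR, h2]
      rfl

theorem xb2_row {F l : ℕ} {r : ℕ → Bool} (z : ℕ → ℕ) (hz : ∀ m, z m < 3) (j : ℕ) (hj : j ≤ 16)
    (ad : ℕ) (h : (Nat.rec r (fun i q ad => frc (Nat.add (Nat.mul 16 l) i) fun e =>
      bif tb F e then frc (sdg ad e 0) q && frc (sdg ad e 1) q && frc (sdg ad e 2) q else q ad) j :
        ℕ → Bool) ad = true) : ∃ ad', r ad' = true ∧ ∀ m, dig ad' m =
      if tb F m = true ∧ m / 16 = l ∧ m % 16 < j then z m else dig ad m := by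
  induction j generalizing ad with
  | zero => exact ⟨ad, h, fun m => by simp⟩
  | succ j ih =>
    simp only [frc_eq, Nat.add_eq, Nat.mul_eq] at h ih
    cases e : tb F (16 * l + j)
    · rw [e, cond_false] at h
      obtain ⟨a, h1, h2⟩ := ih (by omega) ad h
      refine ⟨a, h1, fun m => (h2 m).trans (if_congr (and_congr_right fun c => ?_) rfl rfl)⟩
      have : m ≠ 16 * l + j := fun d => by rw [d, e] at c; exact Bool.false_ne_true c
      omega
    · rw [e, cond_true, Bool.and_eq_true, Bool.and_eq_true] at h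
      have hd := hz (16 * l + j)
      obtain ⟨a, h1, h2⟩ := ih (by omega) (sdg ad (16 * l + j) (z (16 * l + j))) (by
        obtain d | d | d : z (16 * l + j) = 0 ∨ z (16 * l + j) = 1 ∨ z (16 * l + j) = 2 := by omega
        exacts [d ▸ h.1.1, d ▸ h.1.2, d ▸ h.2])
      refine ⟨a, h1, fun m => ?_⟩
      rw [h2 m, dig_sdg _ _ _ (by omega)]
      by_cases d : m = 16 * l + j
      · subst d
        rw [if_neg (by omega), if_pos rfl, if_pos ⟨e, by omega⟩]
      · rw [if_neg (show ¬ _ = _ by omega)]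
        exact if_congr (and_congr_right fun _ => by omega) rfl rfl

theorem dF_sound {F s ad : ℕ} {k : ℕ → Bool} (hs : s ≤ 16) (h : dF F k s ad = true) (z : ℕ → ℕ)
    (hz : ∀ m, z m < 3) : ∃ ad', k ad' = true ∧ ∀ m, dig ad' m =
      if tb F m = true ∧ m / 16 < s ∧ m % 16 < m / 16 then z m else dig ad m := by
  induction s generalizing ad with
  | zero => exact ⟨ad, h, fun m => by simp⟩
  | succ s ih =>
    obtain ⟨a, h1, h2⟩ := xb2_row (r := dF F k s) z hz s (by omega) ad h
    obtain ⟨b, h3, h4⟩ := ih (by omega) h1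
    refine ⟨b, h3, fun m => ?_⟩
    rw [h4 m, h2 m]
    by_cases c : tb F m = true
    · simp only [c, true_and]
      split_ifs <;> first | rfl | omega
    · simp [c]

theorem tb_frM (p : Pre) (g : Col) (hs : p.s ≤ 16) {i l : ℕ} (hl : l < p.s) (hi : i < l) :
    tb (frM p g) (16 * l + i) =
      (!(inM g i || inM g l) && !tb (fld p.kn l) i && nz (ty g.ct l i)) := by
  have e : ∀ m, tb m (16 * l + i) = tb (fld m l) i := fun m => by
    have e1 : fld m l = m >>> (16 * l) % 2 ^ 16 := rfl
    rw [tb_eq, tb_eq, e1, Nat.testBit_mod_two_pow, Nat.testBit_shiftRight,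
      decide_eq_true (show i < 16 by omega), Bool.true_and]
  rw [e, frM, fld_pk (fun j hj => (msk_lt _ _).trans_le (by
    rw [bt_eq]
    exact (Nat.pow_le_pow_right (by norm_num) (show j ≤ 16 by omega)).trans (by norm_num))) hl,
    tb_msk, decide_eq_true hi, Bool.true_and]

theorem parN_val (s t : Fin 3) : (par s t).val = parN s.val t.val := by
  revert s t
  decide

end Pool.Agent.Lib.MP_efe3d7_co.J
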