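import Pool.Agent.Lib.MP_efe3d7_co.J.XC

/-! The window that consists of one edge. -/

set_option autoImplicit false

namespace Pool.Agent.Lib.MP_efe3d7_co.J

open H

/-- The tables of the window. -/
def p2 : Pre := ⟨2, 2, 0, 65538, 0, 0, 0, 0, 0, 0, 0, false⟩

/-- The table of an edge of type `t`. -/
def t2 (t : ℕ) : ℕ := Nat.shiftLeft t 48

/-- The column with an edge of type `t`. -/
def cU (t : ℕ) : Col := ⟨0, false, 0, 0, 0, t2 t, []⟩

/-- The column with merged ends. -/
def cM : Col := ⟨0, true, 0, 1, 0, 0, []⟩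

/-- The set of the numbers `a, ..., a + b - 1`. -/
def rg (a b : ℕ) : ℕ := Nat.shiftLeft (ful b) a

end Pool.Agent.Lib.MP_efe3d7_co.J
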