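import Pool.Agent.Lib.MP_efe3d7_co.J.XC
import Pool.Agent.Lib.MP_efe3d7_co.H.Bas

/-! The meaning of the test for exceptional columns. -/

set_option autoImplicit false

open Finset

namespace Pool.Agent.Lib.MP_efe3d7_co.J

open H

variable {α : Type} [Fintype α] [DecidableEq α]

/-- The transposition of `l` and `l + 1`. -/
def sw (l i : ℕ) : ℕ := bif Nat.beq i l then Nat.succ l else bif Nat.beq i (Nat.succ l) then l else i

/-- The tables `64, ..., c - 1` are the labelled copies of the exceptional graphs of size `n`. -/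
structure Lb (n c M T : ℕ) : Prop where
  n7 : n ≤ 7
  m : ∀ k, 64 ≤ k → k < c → ∀ i < n, ∀ l < n, i ≠ l → tb (gm M c i l (ty (xtab T k) i l)) k = true
  sw : ∀ k, 64 ≤ k → k < c → ∀ l, l + 1 < n → ∃ k', 64 ≤ k' ∧ k' < c ∧
    (∀ i < n, ∀ j < n, i ≠ j → ty (xtab T k') i j = ty (xtab T k) (sw l i) (sw l j)) ∧
    (k' < k ∨ tb (gm M c l l 0) k = true)
  base : ∀ j < 10, xn j = n → ∃ k, 64 ≤ k ∧ k < c ∧
    ∀ i < n, ∀ l < n, i ≠ l → ty (xtab T k) i l = ty (xt j) i l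

/-- The facts on the window. -/
structure XS (p : Pre) (h : ℕ) (V : Finset α) (τ : Sym2 α → Fin 3) (v : ℕ → α) : Prop where
  n8 : p.n ≤ 8
  sn : p.s ≤ p.n
  inj : ∀ i < p.n, ∀ j < p.n, v i = v j → i = j
  mem : ∀ i < p.n, v i ∈ V
  kns : ∀ i < p.n, ∀ j < p.n, tb (fld p.kn i) j = tb (fld p.kn j) i
  int : ∀ i < p.n, p.s ≤ i → ∀ j < p.n, i ≠ j → tb (fld p.kn i) j = true
  cl : ∀ i < p.n, p.s ≤ i → ∀ z ∈ V, (∀ l < p.n, v l ≠ z) → τ s(v i, z) = 0
  hk : ∀ i < p.n, ∀ j < p.n, i ≠ j → tb (fld p.kn i) j = true → (τ s(v i, v j)).val = ty h i j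
  pure : Pure p h
  deg : ∀ i < p.s, (bif tb p.d5 i then 5 else bif tb p.d4 i then 4 else 3) ≤ dg V τ (v i)

/-- The facts on the column. -/
structure XG (fb : Bool) (p : Pre) (g : Col) (V : Finset α) (τ : Sym2 α → Fin 3) (v : ℕ → α) :
    Prop where
  tyb : TyB p g.ni g.ct
  mg : g.mg = true → g.a < p.s ∧ g.b < p.s ∧ g.a ≠ g.b ∧ tb (fld p.kn g.a) g.b = true
  fb : g.mg = true → ∀ z ∈ V, (∀ l < p.n, v l ≠ z) →
    if fb = true then τ s(v g.a, z) = 0 ∨ τ s(v g.b, z) = 0 else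
      ¬ (τ s(v g.a, z) = 2 ∧ τ s(v g.b, z) = 2)

/-- `w` lists the terminals and then the `o` vertices outside the window. -/
structure XW (p : Pre) (o : ℕ) (V : Finset α) (v w : ℕ → α) : Prop where
  o8 : p.s + o ≤ 8
  eq : ∀ i < p.s, v i = w i
  inj : ∀ i < p.s + o, ∀ j < p.s + o, w i = w j → i = j
  out : ∀ j, p.s ≤ j → j < p.s + o → w j ∈ V ∧ ∀ l < p.n, v l ≠ w j
  all : ∀ z ∈ V, (∀ l < p.n, v l ≠ z) → ∃ j, p.s ≤ j ∧ j < p.s + o ∧ w j = z

/-- The true types of the outer part. -/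
def cs (p : Pre) (τ : Sym2 α → Fin 3) (w : ℕ → α) (i l : ℕ) : ℕ :=
  if i < p.s ∧ l < p.s ∧ tb (fld p.kn i) l = true then 0 else (τ s(w i, w l)).val

/-- Terminals, outer vertices, inner vertices. -/
def ww3 (s o : ℕ) (v w : ℕ → α) (i : ℕ) : α := if i < s + o then w i else v (i - o)

/-- The column is the labelled graph number `k`. -/
structure XT (p : Pre) (g : Col) (n c M T o k : ℕ) (V : Finset α) (σ : Sym2 α → Fin 3)
    (v w : ℕ → α) : Prop where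
  sz : p.s + g.ni + o = if g.mg = true then n + 1 else n
  xw : XW p o V v w
  k1 : 64 ≤ k
  k2 : k < c
  xtab : ∀ i < p.s + o + g.ni, ∀ l < p.s + o + g.ni, i ≠ l → ¬ (g.mg = true ∧ i = g.b) →
    ¬ (g.mg = true ∧ l = g.b) →
    (cT g v σ s(ww3 p.s o v w i, ww3 p.s o v w l)).val = ty (xtab T k) (rh g i) (rh g l)
  keep : ∀ z, z + 1 < o → tb (gm M c (rh g (p.s + z)) (rh g (p.s + z)) 0) k = true

end Pool.Agent.Lib.MP_efe3d7_co.J
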