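import Pool.Agent.Lib.MP_efe3d7_co.J.XB

/-! The table of the column survives the first selection. -/

set_option autoImplicit false

open Finset

namespace Pool.Agent.Lib.MP_efe3d7_co.J

open H

variable {α : Type} [Fintype α] [DecidableEq α]
variable {p : Pre} {h : ℕ} {g : Col} {V U : Finset α} {τ σ : Sym2 α → Fin 3} {v w : ℕ → α}
variable {fb : Bool} {n c M T o k : ℕ}

theorem xn1_rh (g : Col) (i : ℕ) : rh g i = if g.mg = true ∧ g.b < i then i - 1 else i := by
  rw [rh]
  by_cases h : g.mg = true ∧ g.b < i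
  · rw [if_pos h, h.1, show Nat.blt g.b i = true by rw [Nat.blt_eq]; exact h.2]; rfl
  · rw [if_neg h]
    have e : (g.mg && Nat.blt g.b i) = false := by
      rw [← Bool.not_eq_true, Bool.and_eq_true, Nat.blt_eq]; exact h
    rw [e]; rfl

theorem xn1_wi (s o i : ℕ) : wi s o i = if i < s then i else i + o := by
  rw [wi]
  by_cases h : i < s
  · rw [if_pos h, show Nat.blt i s = true by rw [Nat.blt_eq]; exact h]; rfl
  · rw [if_neg h]
    have e : Nat.blt i s = false := by
      rw [← Bool.not_eq_true, Nat.blt_eq]; exact h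
    rw [e]; rfl

theorem xn1_inM (g : Col) (i : ℕ) : inM g i = false ↔ (g.mg = true → i ≠ g.a ∧ i ≠ g.b) := by
  rw [inM, ← Bool.not_eq_true, Bool.and_eq_true, Bool.or_eq_true, Nat.beq_eq, Nat.beq_eq]
  tauto

omit [Fintype α] in
theorem xn1_key (hG : XG fb p g V τ v) (hL : Lb n c M T) (hT : XT p g n c M T o k V σ v w)
    {i l t : ℕ} (hi : i < p.s + o + g.ni) (hl : l < p.s + o + g.ni) (hil : i ≠ l)
    (hib : ¬ (g.mg = true ∧ i = g.b)) (hlb : ¬ (g.mg = true ∧ l = g.b))
    (ht : (cT g v σ s(ww3 p.s o v w i, ww3 p.s o v w l)).val = t) :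
    tb (gm M c (rh g i) (rh g l) t) k = true := by
  rw [← ht, hT.xtab i hi l hl hil hib hlb]
  have hsz := hT.sz
  have hm := hG.mg
  refine hL.m k hT.k1 hT.k2 _ ?_ _ ?_ ?_
  all_goals
    simp only [xn1_rh]
    by_cases h : g.mg = true
    · have := hm h
      simp only [h, true_and, if_true] at hsz hib hlb ⊢
      split_ifs <;> omega
    · simp only [h, false_and, if_false, Bool.false_eq_true] at hsz ⊢
      omega

omit [Fintype α] in
theorem xn1_cT {a b : α} (ha : g.mg = true → a ≠ v g.a) (hb : g.mg = true → b ≠ v g.a) :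
    cT g v σ s(a, b) = σ s(a, b) := by
  rw [cT]
  by_cases h : g.mg = true
  · rw [if_pos h, mg_of_ne _ _ (ha h) (hb h)]
  · rw [if_neg h]

omit [Fintype α] [DecidableEq α] in
theorem xn1_ww (hW : XW p o V v w) (i : ℕ) : ww3 p.s o v w (wi p.s o i) = v i := by
  rw [xn1_wi, ww3]
  by_cases h : i < p.s
  · rw [if_pos h, if_pos (by omega), hW.eq i h]
  · rw [if_neg h, if_neg (by omega), Nat.add_sub_cancel]

omit [Fintype α] in
theorem base_bit (hS : XS p h V τ v) (hG : XG fb p g V τ v) (hC : ColG p g.ni g.ct V τ v U σ)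
    (hL : Lb n c M T) (hT : XT p g n c M T o k V σ v w) {R : ℕ} (hR : tb R k = true) :
    tb (base p g M c o R) k = true := by
  have hk := hT.k1
  have hn := hG.tyb.1
  have hW := hT.xw
  have hva : ∀ i < p.n, (g.mg = true → i ≠ g.a) → g.mg = true → v i ≠ v g.a := fun i hi h1 h2 e =>
    h1 h2 (hS.inj i hi g.a (by have := (hG.mg h2).1; omega) e)
  rw [base]
  refine fo_bit hk (fo_bit hk (fo_bit hk hR ?_) ?_) ?_
  · intro l hl r hr
    have hl' : l < p.s + g.ni := hl
    refine fo_bit hk hr fun i hi r hr => ?_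
    cases e : (inM g i || inM g l || !fx p g i l) with
    | true => exact hr
    | false =>
      rw [Bool.or_eq_false_iff, Bool.or_eq_false_iff, xn1_inM, xn1_inM, Bool.not_eq_false',
        fx, Bool.or_eq_true, nz_iff] at e
      obtain ⟨⟨e1, e2⟩, e3⟩ := e
      rw [cond_false, tb_land, hr, Bool.true_and]
      refine xn1_key hG hL hT ?_ ?_ ?_ ?_ ?_ ?_
      · rw [xn1_wi]; split_ifs <;> omega
      · rw [xn1_wi]; split_ifs <;> omega
      · rw [xn1_wi, xn1_wi]; split_ifs <;> omega
      · rintro ⟨h1, h2⟩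
        have := hG.mg h1
        have := e1 h1
        rw [xn1_wi] at h2; split_ifs at h2 <;> omega
      · rintro ⟨h1, h2⟩
        have := hG.mg h1
        have := e2 h1
        rw [xn1_wi] at h2; split_ifs at h2 <;> omega
      · rw [xn1_ww hW, xn1_ww hW, xn1_cT (hva i (by omega) fun h => (e1 h).1)
          (hva l (by omega) fun h => (e2 h).1), Sym2.eq_swap, hC.inn l hl' i (by omega) (by omega)]
        by_cases h1 : tb (fld p.kn l) i = true
        · rw [if_pos h1]
        · have h2 := (hG.tyb.2 l hl' i (by omega) (by omega)).2.resolve_left h1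
          have h3 := e3.resolve_left h1
          have h4 : ty g.ct l i = 1 := by omega
          rw [if_neg h1, if_pos h4, h4]
  · intro u hu r hr
    have hw : ww3 p.s o v w (p.s + o + u) = v (p.s + u) := by
      rw [ww3, if_neg (by omega), show p.s + o + u - o = p.s + u by omega]
    have hub : ¬ (g.mg = true ∧ p.s + o + u = g.b) := fun h1 => by
      have := hG.mg h1.1
      omega
    rw [frc_eq]
    refine fo_bit hk ?_ fun z hz r hr => ?_
    · cases e : g.mg with
      | false => exact hr
      | true =>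
        obtain ⟨ha, hb, hab, -⟩ := hG.mg e
        rw [cond_true, tb_land, hr, Bool.true_and]
        refine xn1_key (l := p.s + o + u) hG hL hT (by omega) (by omega) (by omega)
          (fun h1 => hab h1.2) hub ?_
        have hkn : ∀ j < p.s, (σ s(v j, v (p.s + u))).val = ty g.ct j (p.s + u) := fun j hj => by
          rw [hC.inn j (by omega) (p.s + u) (by omega) (by omega), if_pos]
          rw [hS.kns j (by omega) (p.s + u) (by omega)]
          exact hS.int _ (by omega) (by omega) j (by omega) (by omega)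
        rw [hw, ww3, if_pos (by omega), ← hW.eq _ ha, cT, if_pos e, mg_self, parN_val,
          hkn _ ha, hkn _ hb]
        rfl
    · rw [tb_land, hr, Bool.true_and]
      refine xn1_key (i := p.s + o + u) (l := p.s + z) hG hL hT (by omega) (by omega) (by omega)
        hub (fun h1 => by have := hG.mg h1.1; omega) ?_
      obtain ⟨h1, h2⟩ := hW.out (p.s + z) (by omega) (by omega)
      rw [hw, ww3, if_pos (by omega), xn1_cT
        (hva _ (by omega) fun h e => by have := hG.mg h; omega)
        (fun h e => h2 g.a (by have := hG.mg h; omega) e.symm), Sym2.eq_swap, hC.out _ _ h2,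
        Sym2.eq_swap, hS.cl _ (by omega) (by omega) _ h1 h2]
      rfl
  · intro z hz r hr
    rw [frc_eq, tb_land, hr, Bool.true_and]
    exact hT.keep z (by rw [Nat.pred_eq_sub_one] at hz; omega)

end Pool.Agent.Lib.MP_efe3d7_co.J
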