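import Pool.Agent.Lib.MP_efe3d7_co.J.XW

/-! The test of the list of labelled graphs. -/

set_option autoImplicit false

open Finset

namespace Pool.Agent.Lib.MP_efe3d7_co.J

open H

/-- The test of table number `k`. -/
def chkK (n c M T S k : ℕ) : Bool :=
  frc (xtab T k) fun X => (allB n fun l => allB l fun i => tb (gm M c i l (ty X i l)) k) &&
    allB (Nat.pred n) fun l =>
      frc (Nat.land (Nat.shiftRight S (Nat.mul 12 (Nat.add (Nat.mul 8 k) l))) 4095) fun k' =>
        Nat.ble 64 k' && Nat.blt k' c && (Nat.blt k' k || tb (gm M c l l 0) k) &&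
          frc (xtab T k') fun X' =>
            allB n fun j => allB j fun i => Nat.beq (ty X' i j) (ty X (sw l i) (sw l j))

/-- The test of the tables `a, ..., a + b - 1`. -/
def chkR (n c M T S a b : ℕ) : Bool := allB b fun t => frc (Nat.add a t) (chkK n c M T S)

/-- Table number `k` is the exceptional graph number `j`. -/
def chkB (n c T j k : ℕ) : Bool :=
  Nat.ble 64 k && Nat.blt k c && frc (xtab T k) fun X => frc (xt j) fun Y =>
    allB n fun l => allB l fun i => Nat.beq (ty X i l) (ty Y i l)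

theorem chkR_at {n c M T S a b k : ℕ} (h : chkR n c M T S a b = true) (h1 : a ≤ k)
    (h2 : k < a + b) : chkK n c M T S k = true := by
  rw [chkR, allB_iff] at h
  have e := h (k - a) (by omega)
  rw [frc_eq, show Nat.add a (k - a) = k from Nat.add_sub_cancel' h1] at e
  exact e

theorem xv_gm (M c i l t : ℕ) : gm M c i l t = gm M c l i t := by
  rw [gm, gm, px_comm]

theorem lb_of {n c M T S : ℕ} (h7 : n ≤ 7)
    (h : ∀ k, 64 ≤ k → k < c → chkK n c M T S k = true)
    (hb : ∀ j < 10, xn j = n → ∃ k, chkB n c T j k = true) : Lb n c M T := by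
  refine ⟨h7, fun k k1 k2 i hi l hl hil => ?_, fun k k1 k2 l hl => ?_, fun j hj hn => ?_⟩
  · have e := h k k1 k2
    simp only [chkK, frc_eq, Bool.and_eq_true, allB_iff] at e
    rcases lt_or_gt_of_ne hil with q | q
    · exact e.1 l hl i q
    · rw [xv_gm, ty_comm]
      exact e.1 i hi l q
  · have e := h k k1 k2
    simp only [chkK, frc_eq, Bool.and_eq_true, Bool.or_eq_true, allB_iff, Nat.ble_eq, Nat.blt_eq,
      Nat.beq_eq] at e
    obtain ⟨⟨⟨e1, e2⟩, e3⟩, e4⟩ := e.2 l (Nat.lt_pred_of_succ_lt hl)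
    refine ⟨_, e1, e2, fun i hi j hj hij => ?_, e3⟩
    rcases lt_or_gt_of_ne hij with q | q
    · exact e4 j hj i q
    · rw [ty_comm, ty_comm (xtab T k)]
      exact e4 i hi j q
  · obtain ⟨k, e⟩ := hb j hj hn
    simp only [chkB, frc_eq, Bool.and_eq_true, allB_iff, Nat.ble_eq, Nat.blt_eq, Nat.beq_eq] at e
    refine ⟨k, e.1.1, e.1.2, fun i hi l hl hil => ?_⟩
    rcases lt_or_gt_of_ne hil with q | q
    · exact e.2 l hl i q
    · rw [ty_comm, ty_comm (xt j)]
      exact e.2 i hi l q

end Pool.Agent.Lib.MP_efe3d7_co.J
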